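import Mathlib

/-! Bundle of small proof modules (one section per former module). -/

section

/-!
MP_ea6116_an: propagation of smallness for gradients from sets of dimension greater than `n - 2`.
Definitions.
-/

set_option autoImplicit false

open MeasureTheory Metric Set
open scoped ENNReal NNReal ContDiff

namespace EAGrad

/-- Euclidean space of dimension `n`. -/
abbrev En (n : ℕ) := EuclideanSpace ℝ (Fin n)

/-- Linear operators. -/
abbrev Op (n : ℕ) := En n →L[ℝ] En n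

/-- `C¹` weak solution of `div (A ∇u) = 0` on the open set `U`. -/
structure Sol {n : ℕ} (A : En n → Op n) (u : En n → ℝ) (U : Set (En n)) : Prop where
  isOpen : IsOpen U
  c1 : ContDiffOn ℝ 1 u U
  weak : ∀ φ : En n → ℝ, ContDiff ℝ ∞ φ → HasCompactSupport φ → tsupport φ ⊆ U →
    ∫ x, inner ℝ (A x (gradient u x)) (gradient φ x) = 0

/-- The coefficients are symmetric, within `s` of the identity and Lipschitz with constant `L`. -/
structure Near {n : ℕ} (s L : ℝ) (A : En n → Op n) (U : Set (En n)) : Prop where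
  symm : ∀ x ∈ U, ∀ ξ η : En n, inner ℝ (A x ξ) η = inner ℝ ξ (A x η)
  close : ∀ x ∈ U, ‖A x - 1‖ ≤ s
  lip : ∀ x ∈ U, ∀ y ∈ U, ‖A x - A y‖ ≤ L * ‖x - y‖

/-- `sup` of `|∇u|` over the closed ball. -/
noncomputable def Dg {n : ℕ} (u : En n → ℝ) (x : En n) (r : ℝ) : ℝ :=
  sSup ((fun y => ‖gradient u y‖) '' closedBall x r)

/-- Hausdorff content (with diameters), as in the frozen statement. -/
noncomputable def cont (n : ℕ) (d : ℝ) (S : Set (En n)) : ℝ≥0∞ :=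
  ⨅ (t : ℕ → Set (En n)) (_ : S ⊆ ⋃ i, t i), ∑' i, Metric.ediam (t i) ^ d

/-- Standard basis vector. -/
noncomputable def ee {n : ℕ} (i : Fin n) : En n := EuclideanSpace.single i 1

/-- Second derivative. -/
noncomputable def D2 {n : ℕ} (f : En n → ℝ) (x ξ η : En n) : ℝ :=
  fderiv ℝ (fderiv ℝ f) x ξ η

/-- Laplacian. -/
noncomputable def lap {n : ℕ} (f : En n → ℝ) (x : En n) : ℝ := ∑ i, D2 f x (ee i) (ee i)

/-- Divergence of a vector field. -/
noncomputable def dv {n : ℕ} (Z : En n → En n) (x : En n) : ℝ :=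
  ∑ i, inner ℝ (ee i) (fderiv ℝ Z x (ee i))

/-- `div (A ∇v)`. -/
noncomputable def divA {n : ℕ} (A : En n → Op n) (v : En n → ℝ) (x : En n) : ℝ :=
  dv (fun y => A y (gradient v y)) x

/-- Smooth cutoff on the line: `1` for `t ≤ 1/4`, `0` for `t ≥ 1/2`. -/
noncomputable def eta (t : ℝ) : ℝ := Real.smoothTransition (2 - 4 * t)

/-- Smooth radial kernel of integral one, supported in `|z|² ≤ 1/2`. -/
noncomputable def Ker {n : ℕ} (z : En n) : ℝ := eta (‖z‖ ^ 2) / ∫ y : En n, eta (‖y‖ ^ 2)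

/-- Smooth radial weight: `1` for `|z| ≤ 1`, `0` for `|z|² ≥ 2`. -/
noncomputable def wt {n : ℕ} (z : En n) : ℝ := eta (‖z‖ ^ 2 / 4)

/-- Weighted energy of `∇u` at scale `r` around the origin. -/
noncomputable def EE {n : ℕ} (u : En n → ℝ) (r : ℝ) : ℝ :=
  ∫ z : En n, ‖gradient u (r • z)‖ ^ 2 * wt z

/-- The points `x 0, x 1, ...` are independent at scale `t`: each one has distance at least `t`
from the affine span of the previous ones. -/
def Indep {n k : ℕ} (t : ℝ) (x : Fin k → En n) : Prop :=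
  ∀ j : Fin k, 0 < (j : ℕ) →
    t ≤ infDist (x j) (affineSpan ℝ (x '' {i | i < j}) : Set (En n))

end EAGrad

end

section

/-!
MP_ea6116_an: basic lemmas on `Sol`, `Near`, `Dg`, `cont`.
-/

set_option autoImplicit false

open MeasureTheory Metric Set Filter Topology
open scoped ENNReal NNReal ContDiff

namespace EAGrad

variable {n : ℕ}

theorem norm_gradient (u : En n → ℝ) (x : En n) : ‖gradient u x‖ = ‖fderiv ℝ u x‖ := by
  simp [gradient]

theorem inner_gradient (u : En n → ℝ) (x v : En n) : inner ℝ (gradient u x) v = fderiv ℝ u x v := by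
  simp [gradient, InnerProductSpace.toDual_symm_apply]

theorem Sol.mono {A : En n → Op n} {u : En n → ℝ} {U V : Set (En n)} (h : Sol A u U)
    (hV : IsOpen V) (hVU : V ⊆ U) : Sol A u V where
  isOpen := hV
  c1 := h.c1.mono hVU
  weak := fun φ h1 h2 h3 => h.weak φ h1 h2 (h3.trans hVU)

theorem Near.mono {s L s' L' : ℝ} {A : En n → Op n} {U V : Set (En n)} (h : Near s L A U)
    (hs : s ≤ s') (hL : L ≤ L') (hVU : V ⊆ U) : Near s' L' A V where
  symm := fun x hx => h.symm x (hVU hx)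
  close := fun x hx => (h.close x (hVU hx)).trans hs
  lip := fun x hx y hy => (h.lip x (hVU hx) y (hVU hy)).trans
    (mul_le_mul_of_nonneg_right hL (norm_nonneg _))

theorem Sol.differentiableAt {A : En n → Op n} {u : En n → ℝ} {U : Set (En n)} (h : Sol A u U)
    {x : En n} (hx : x ∈ U) : DifferentiableAt ℝ u x :=
  ((h.c1 x hx).contDiffAt (h.isOpen.mem_nhds hx)).differentiableAt (by norm_num)

theorem Sol.continuousOn_gradient {A : En n → Op n} {u : En n → ℝ} {U : Set (En n)}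
    (h : Sol A u U) : ContinuousOn (gradient u) U := by
  have h1 : ContinuousOn (fderiv ℝ u) U :=
    (h.c1.continuousOn_fderiv_of_isOpen h.isOpen (by norm_num))
  exact (InnerProductSpace.toDual ℝ (En n)).symm.continuous.comp_continuousOn h1

theorem Sol.bddAbove {A : En n → Op n} {u : En n → ℝ} {U : Set (En n)} (h : Sol A u U)
    {x : En n} {r : ℝ} (hr : closedBall x r ⊆ U) :
    BddAbove ((fun y => ‖gradient u y‖) '' closedBall x r) :=
  ((isCompact_closedBall x r).image_of_continuousOn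
    ((h.continuousOn_gradient.mono hr).norm)).bddAbove

theorem Dg_nonneg (u : En n → ℝ) (x : En n) (r : ℝ) : 0 ≤ Dg u x r := by
  unfold Dg
  apply Real.sSup_nonneg
  rintro _ ⟨y, _, rfl⟩
  exact norm_nonneg _

theorem Sol.le_Dg {A : En n → Op n} {u : En n → ℝ} {U : Set (En n)} (h : Sol A u U)
    {x y : En n} {r : ℝ} (hr : closedBall x r ⊆ U) (hy : y ∈ closedBall x r) :
    ‖gradient u y‖ ≤ Dg u x r :=
  le_csSup (h.bddAbove hr) ⟨y, hy, rfl⟩

theorem Dg_le {u : En n → ℝ} {x : En n} {r a : ℝ} (ha : 0 ≤ a)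
    (h : ∀ y ∈ closedBall x r, ‖gradient u y‖ ≤ a) : Dg u x r ≤ a := by
  unfold Dg
  apply Real.sSup_le _ ha
  rintro _ ⟨y, hy, rfl⟩
  exact h y hy

theorem Sol.Dg_mono {A : En n → Op n} {u : En n → ℝ} {U : Set (En n)} (h : Sol A u U)
    {x y : En n} {r s : ℝ} (hs : closedBall y s ⊆ U) (hrs : closedBall x r ⊆ closedBall y s) :
    Dg u x r ≤ Dg u y s :=
  Dg_le (Dg_nonneg _ _ _) fun _ hz => h.le_Dg hs (hrs hz)

/-- The supremum is attained. -/
theorem Sol.exists_eq_Dg {A : En n → Op n} {u : En n → ℝ} {U : Set (En n)} (h : Sol A u U)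
    {x : En n} {r : ℝ} (hr0 : 0 ≤ r) (hr : closedBall x r ⊆ U) :
    ∃ y ∈ closedBall x r, ‖gradient u y‖ = Dg u x r := by
  have hne : (closedBall x r).Nonempty := ⟨x, mem_closedBall_self hr0⟩
  obtain ⟨y, hy, hmax⟩ := (isCompact_closedBall x r).exists_isMaxOn hne
    ((h.continuousOn_gradient.mono hr).norm)
  refine ⟨y, hy, le_antisymm (h.le_Dg hr hy) (Dg_le (norm_nonneg _) fun z hz => hmax hz)⟩

/-- Mean value inequality on a ball. -/
theorem Sol.abs_sub_le {A : En n → Op n} {u : En n → ℝ} {U : Set (En n)} (h : Sol A u U)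
    {x a b : En n} {r : ℝ} (hr : closedBall x r ⊆ U) (ha : a ∈ closedBall x r)
    (hb : b ∈ closedBall x r) : |u a - u b| ≤ Dg u x r * ‖a - b‖ := by
  have := (convex_closedBall x r).norm_image_sub_le_of_norm_fderiv_le (f := u) (𝕜 := ℝ)
    (C := Dg u x r) (fun z hz => h.differentiableAt (hr hz))
    (fun z hz => by rw [← norm_gradient]; exact h.le_Dg hr hz) hb ha
  simpa using this

/-! ### Integration by parts -/

/-- A function continuous on an open set, multiplied by something of compact support inside. -/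
theorem continuous_mul_of_tsupport {f g : En n → ℝ} {U : Set (En n)} (hU : IsOpen U)
    (hf : ContinuousOn f U) (hg : Continuous g) (hs : tsupport g ⊆ U) :
    Continuous (fun x => f x * g x) := by
  rw [continuous_iff_continuousAt]
  intro x
  by_cases hx : x ∈ tsupport g
  · exact (hf.continuousAt (hU.mem_nhds (hs hx))).mul hg.continuousAt
  · have : (fun x => f x * g x) =ᶠ[𝓝 x] fun _ => 0 := by
      have h1 : (tsupport g)ᶜ ∈ 𝓝 x := (isClosed_tsupport g).isOpen_compl.mem_nhds hx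
      filter_upwards [h1] with y hy
      simp [image_eq_zero_of_notMem_tsupport hy]
    exact (continuousAt_const).congr this.symm

theorem ibp {u f : En n → ℝ} {U : Set (En n)} (hU : IsOpen U) (hu : ContDiffOn ℝ 1 u U)
    (hf : ContDiff ℝ 1 f) (hc : HasCompactSupport f) (hs : tsupport f ⊆ U) (v : En n) :
    ∫ x, fderiv ℝ u x v * f x = - ∫ x, u x * fderiv ℝ f x v := by
  have hfc : Continuous (fun x => fderiv ℝ f x v) :=
    (hf.continuous_fderiv (by norm_num)).clm_apply continuous_const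
  have hsf : tsupport (fun x => fderiv ℝ f x v) ⊆ tsupport f :=
    closure_minimal (fun x hx => by
      by_contra hx'
      apply hx
      have : fderiv ℝ f x = 0 := by
        have h1 : f =ᶠ[𝓝 x] fun _ => 0 := notMem_tsupport_iff_eventuallyEq.1 hx'
        rw [h1.fderiv_eq]; simp
      simp [this]) (isClosed_tsupport f)
  have hc2 : HasCompactSupport (fun x => fderiv ℝ f x v) :=
    HasCompactSupport.of_support_subset_isCompact hc ((subset_tsupport _).trans hsf)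
  have hu1 : ContinuousOn (fun x => fderiv ℝ u x v) U :=
    (hu.continuousOn_fderiv_of_isOpen hU (by norm_num)).clm_apply continuousOn_const
  have h1 : Integrable (fun x => fderiv ℝ u x v * f x) :=
    (continuous_mul_of_tsupport hU hu1 hf.continuous hs).integrable_of_hasCompactSupport
      hc.mul_left
  have h2 : Integrable (fun x => u x * fderiv ℝ f x v) :=
    (continuous_mul_of_tsupport hU hu.continuousOn hfc (hsf.trans hs)).integrable_of_hasCompactSupport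
      hc2.mul_left
  have h3 : Integrable (fun x => u x * f x) :=
    (continuous_mul_of_tsupport hU hu.continuousOn hf.continuous hs).integrable_of_hasCompactSupport
      hc.mul_left
  have := integral_mul_fderiv_eq_neg_fderiv_mul_of_integrable (μ := volume) (f := u) (g := f)
    (v := v) h1 h2 h3
    (fun x hx => ((hu x (hs hx)).contDiffAt (hU.mem_nhds (hs hx))).differentiableAt (by norm_num))
    (fun x _ => hf.differentiable (by norm_num) x)
  linarith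

theorem integral_fderiv_eq_zero {f : En n → ℝ} (hf : ContDiff ℝ 1 f) (hc : HasCompactSupport f)
    (v : En n) : ∫ x, fderiv ℝ f x v = 0 := by
  have h := ibp (u := fun _ : En n => (1 : ℝ)) (U := univ) isOpen_univ contDiffOn_const hf hc
    (subset_univ _) v
  simp only [fderiv_fun_const, Pi.zero_apply, ContinuousLinearMap.zero_apply, zero_mul,
    integral_zero, one_mul] at h
  linarith

/-- The divergence of a compactly supported `C¹` field has integral zero. -/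
theorem integral_dv_eq_zero {Z : En n → En n} (hZ : ContDiff ℝ 1 Z) (hc : HasCompactSupport Z) :
    ∫ x, dv Z x = 0 := by
  have hc2 : HasCompactSupport (fderiv ℝ Z) := hc.fderiv (𝕜 := ℝ)
  have hcont : ∀ i : Fin n, Continuous (fun x => inner ℝ (ee i) (fderiv ℝ Z x (ee i))) := fun i =>
    continuous_const.inner ((hZ.continuous_fderiv (by norm_num)).clm_apply continuous_const)
  have hcs : ∀ i : Fin n, HasCompactSupport (fun x => inner ℝ (ee i) (fderiv ℝ Z x (ee i))) :=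
    fun i => hc2.mono (fun x hx => by
      intro h0
      apply hx
      simp [h0])
  unfold dv
  rw [integral_finset_sum _ fun i _ => (hcont i).integrable_of_hasCompactSupport (hcs i)]
  refine Finset.sum_eq_zero fun i _ => ?_
  have h1 : ∀ x, inner ℝ (ee i) (fderiv ℝ Z x (ee i)) =
      fderiv ℝ (fun y => inner ℝ (ee i) (Z y)) x (ee i) := by
    intro x
    have hd : DifferentiableAt ℝ Z x := hZ.differentiable (by norm_num) x
    have := ((innerSL ℝ (ee i : En n)).hasFDerivAt.comp x hd.hasFDerivAt).fderiv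
    have h2 : (fun y => inner ℝ (ee i) (Z y)) = (innerSL ℝ (ee i : En n)) ∘ Z := by
      ext y; simp
    rw [h2, this]
    simp
  simp_rw [h1]
  apply integral_fderiv_eq_zero
  · exact contDiff_const.inner ℝ hZ
  · exact hc.mono (fun x hx => by
      intro h0
      apply hx
      simp [h0])

/-! ### Hausdorff content -/

theorem cont_mono {d : ℝ} {S T : Set (En n)} (h : S ⊆ T) : cont n d S ≤ cont n d T := by
  unfold cont
  refine le_iInf fun t => le_iInf fun ht => ?_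
  exact iInf_le_of_le t (iInf_le_of_le (h.trans ht) le_rfl)

theorem cont_le {d : ℝ} {S : Set (En n)} (t : ℕ → Set (En n)) (ht : S ⊆ ⋃ i, t i) :
    cont n d S ≤ ∑' i, Metric.ediam (t i) ^ d :=
  iInf_le_of_le t (iInf_le_of_le ht le_rfl)

theorem cont_le_single {d : ℝ} (hd : 0 < d) (S : Set (En n)) :
    cont n d S ≤ Metric.ediam S ^ d := by
  refine (cont_le (fun i : ℕ => if i = 0 then S else ∅) ?_).trans ?_
  · intro x hx
    exact mem_iUnion.2 ⟨0, by simpa using hx⟩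
  · rw [tsum_eq_single 0]
    · simp
    · intro b hb
      simp [hb, hd]

theorem cont_empty {d : ℝ} (hd : 0 < d) : cont n d (∅ : Set (En n)) = 0 := by
  have := cont_le_single hd (∅ : Set (En n))
  simpa [hd] using this

theorem cont_closedBall_le {d : ℝ} (hd : 0 < d) (x : En n) {r : ℝ} (hr : 0 ≤ r) :
    cont n d (closedBall x r) ≤ ENNReal.ofReal ((2 * r) ^ d) := by
  refine (cont_le_single hd _).trans ?_
  rw [← ENNReal.ofReal_rpow_of_nonneg (by positivity) hd.le]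
  apply ENNReal.rpow_le_rpow _ hd.le
  refine Metric.ediam_le fun y hy z hz => ?_
  rw [edist_dist]
  apply ENNReal.ofReal_le_ofReal
  have h1 := mem_closedBall.1 hy
  have h2 := mem_closedBall'.1 hz
  linarith [dist_triangle y x z]

theorem cont_iUnion_le {d : ℝ} (S : ℕ → Set (En n)) :
    cont n d (⋃ i, S i) ≤ ∑' i, cont n d (S i) := by
  refine ENNReal.le_of_forall_pos_le_add fun ε hε hfin => ?_
  obtain ⟨ε', hε', hsum⟩ := ENNReal.exists_pos_sum_of_countable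
    (ENNReal.coe_ne_zero.2 hε.ne') ℕ
  have h1 : ∀ i, ∃ t : ℕ → Set (En n), S i ⊆ ⋃ j, t j ∧
      ∑' j, Metric.ediam (t j) ^ d ≤ cont n d (S i) + ε' i := by
    intro i
    have hne : cont n d (S i) ≠ ⊤ := ne_top_of_le_ne_top hfin.ne (ENNReal.le_tsum i)
    have hlt : cont n d (S i) < cont n d (S i) + ε' i :=
      ENNReal.lt_add_right hne (by exact_mod_cast (hε' i).ne')
    conv_lhs at hlt => unfold cont
    simp only [iInf_lt_iff] at hlt
    obtain ⟨t, ht, hlt⟩ := hlt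
    exact ⟨t, ht, hlt.le⟩
  choose t ht hts using h1
  have h2 := cont_le (d := d) (S := ⋃ i, S i)
    (fun k : ℕ => t (Nat.unpair k).1 (Nat.unpair k).2) (by
      intro x hx
      obtain ⟨i, hi⟩ := mem_iUnion.1 hx
      obtain ⟨j, hj⟩ := mem_iUnion.1 (ht i hi)
      exact mem_iUnion.2 ⟨Nat.pair i j, by simpa using hj⟩)
  refine h2.trans ?_
  rw [← (Nat.pairEquiv.tsum_eq fun k : ℕ =>
    Metric.ediam (t (Nat.unpair k).1 (Nat.unpair k).2) ^ d)]
  simp only [Nat.pairEquiv_apply, Function.uncurry, Nat.unpair_pair]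
  rw [ENNReal.tsum_prod (f := fun i j => Metric.ediam (t i j) ^ d)]
  calc ∑' i, ∑' j, Metric.ediam (t i j) ^ d ≤ ∑' i, (cont n d (S i) + ε' i) :=
        ENNReal.tsum_le_tsum hts
    _ = ∑' i, cont n d (S i) + ∑' i, (ε' i : ℝ≥0∞) := ENNReal.tsum_add
    _ ≤ _ := by gcongr

theorem cont_biUnion_finset_le {d : ℝ} (hd : 0 < d) {ι : Type*} (s : Finset ι)
    (S : ι → Set (En n)) : cont n d (⋃ i ∈ s, S i) ≤ ∑ i ∈ s, cont n d (S i) := by
  classical
  induction s using Finset.induction_on with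
  | empty => simp [cont_empty hd]
  | insert a s ha ih =>
    rw [Finset.sum_insert ha, Finset.set_biUnion_insert]
    refine le_trans ?_ (add_le_add le_rfl ih)
    have h1 : (S a ∪ ⋃ i ∈ s, S i) ⊆
        ⋃ k : ℕ, (if k = 0 then S a else if k = 1 then ⋃ i ∈ s, S i else ∅) := by
      rintro x (hx | hx)
      · exact mem_iUnion.2 ⟨0, by simpa using hx⟩
      · exact mem_iUnion.2 ⟨1, by simpa using hx⟩
    refine (cont_mono h1).trans ((cont_iUnion_le _).trans ?_)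
    rw [tsum_eq_sum (s := {0, 1})]
    · simp
    · intro b hb
      simp only [Finset.mem_insert, Finset.mem_singleton, not_or] at hb
      simp [hb.1, hb.2, cont_empty hd]

end EAGrad

end

section

/-!
MP_ea6116_an: statements of the items.
-/

set_option autoImplicit false

open MeasureTheory Metric Set Filter Topology
open scoped ENNReal NNReal ContDiff

namespace EAGrad

/-! ## A. Basic transformations -/

/-- A1: scaling and translation. -/
def StmtSC : Prop := ∀ (n : ℕ) (A : En n → Op n) (u : En n → ℝ) (x : En n) (R l s L : ℝ), 0 < l →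
  Sol A u (ball x (R * l)) → Near s L A (ball x (R * l)) →
  Sol (fun z => A (x + l • z)) (fun z => l⁻¹ * u (x + l • z)) (ball 0 R) ∧
  Near s (L * l) (fun z => A (x + l • z)) (ball 0 R) ∧
  (∀ z, gradient (fun z => l⁻¹ * u (x + l • z)) z = gradient u (x + l • z)) ∧
  (∀ z r, Dg (fun z => l⁻¹ * u (x + l • z)) z r = Dg u (x + l • z) (l * r))

/-- A2: linear change of variables. -/
def StmtLC : Prop := ∀ (n : ℕ) (A : En n → Op n) (u : En n → ℝ) (x : En n) (U : Set (En n))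
  (T : En n ≃L[ℝ] En n), Sol A u U →
  Sol (fun z => (T.symm : Op n) ∘L (A (x + T z) ∘L ContinuousLinearMap.adjoint (T.symm : Op n)))
    (fun z => u (x + T z)) ((fun z => x + T z) ⁻¹' U) ∧
  ∀ z, x + T z ∈ U → gradient (fun z => u (x + T z)) z =
    ContinuousLinearMap.adjoint (T : Op n) (gradient u (x + T z))

/-- A3: square root of a positive definite matrix. -/
def StmtSQ : Prop := ∀ (n : ℕ) (P : Op n) (a b : ℝ), 0 < a →
  (∀ ξ η, inner ℝ (P ξ) η = inner ℝ ξ (P η)) →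
  (∀ ξ, a * ‖ξ‖ ^ 2 ≤ inner ℝ (P ξ) ξ ∧ inner ℝ (P ξ) ξ ≤ b * ‖ξ‖ ^ 2) →
  ∃ T : En n ≃L[ℝ] En n, (T : Op n) ∘L ContinuousLinearMap.adjoint (T : Op n) = P ∧
    (∀ ξ, ‖T ξ‖ ^ 2 ≤ b * ‖ξ‖ ^ 2) ∧ (∀ ξ, ‖T.symm ξ‖ ^ 2 ≤ a⁻¹ * ‖ξ‖ ^ 2)

/-! ## B. Carleman estimate -/

/-- B1: the two integral identities behind the Carleman estimate. -/
def StmtCID : Prop := ∀ (n : ℕ) (A : En n → Op n) (Z : En n → En n) (B q w : En n → ℝ),
  ContDiff ℝ ∞ A → ContDiff ℝ ∞ Z → ContDiff ℝ ∞ B → ContDiff ℝ ∞ q → ContDiff ℝ ∞ w →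
  HasCompactSupport w →
  (∀ x ∈ tsupport w, ∀ ξ η, inner ℝ (A x ξ) η = inner ℝ ξ (A x η)) →
  (∫ x, (divA A w x * (2 * inner ℝ (Z x) (gradient w x) + B x * w x)
      + 2 * inner ℝ (fderiv ℝ Z x (A x (gradient w x))) (gradient w x)
      + (B x - dv Z x) * inner ℝ (A x (gradient w x)) (gradient w x)
      - inner ℝ (fderiv ℝ A x (Z x) (gradient w x)) (gradient w x)
      + w x * inner ℝ (A x (gradient w x)) (gradient B x)) = 0) ∧
  (∫ x, (q x * w x * (2 * inner ℝ (Z x) (gradient w x) + B x * w x)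
      + (inner ℝ (Z x) (gradient q x) - q x * (B x - dv Z x)) * w x ^ 2) = 0)

/-- The hypotheses on a Carleman weight `φ` with multiplier `B = Δφ + 2 g` on the set `D`. -/
structure CW {n : ℕ} (M c : ℝ) (D : Set (En n)) (φ B g : En n → ℝ) : Prop where
  bd1 : ∀ x ∈ D, ‖fderiv ℝ φ x‖ ≤ M
  bd2 : ∀ x ∈ D, ‖fderiv ℝ (fderiv ℝ φ) x‖ ≤ M
  bdg : ∀ x ∈ D, |g x| ≤ M
  bdB : ∀ x ∈ D, ‖fderiv ℝ B x‖ ≤ M
  eqB : ∀ x ∈ D, B x = lap φ x + 2 * g x
  h1 : ∀ x ∈ D, ∀ ξ : En n, c * ‖ξ‖ ^ 2 ≤ D2 φ x ξ ξ + g x * ‖ξ‖ ^ 2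
  h2 : ∀ x ∈ D, c ≤ D2 φ x (gradient φ x) (gradient φ x) - g x * ‖gradient φ x‖ ^ 2

/-- B2: Carleman estimate for smooth coefficients and smooth functions. -/
def StmtCARL : Prop := ∀ (n : ℕ) (M c : ℝ), 0 < M → 0 < c → ∃ s₀ τ₀ C : ℝ, 0 < s₀ ∧ 0 < τ₀ ∧
  0 < C ∧ ∀ (D : Set (En n)) (φ B g v : En n → ℝ) (A : En n → Op n) (τ : ℝ), IsOpen D →
    ContDiff ℝ ∞ φ → ContDiff ℝ ∞ B → ContDiff ℝ ∞ v → ContDiff ℝ ∞ A →
    HasCompactSupport v → tsupport v ⊆ D → CW M c D φ B g →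
    (∀ x ∈ D, ∀ ξ η, inner ℝ (A x ξ) η = inner ℝ ξ (A x η)) →
    (∀ x ∈ D, ‖A x - 1‖ ≤ s₀) → (∀ x ∈ D, ‖fderiv ℝ A x‖ ≤ s₀) → τ₀ ≤ τ →
    τ * (∫ x, Real.exp (2 * τ * φ x) * ‖gradient v x‖ ^ 2) +
      τ ^ 3 * (∫ x, Real.exp (2 * τ * φ x) * v x ^ 2) ≤
    C * ∫ x, Real.exp (2 * τ * φ x) * divA A v x ^ 2

/-- B3: smooth approximation of a `C¹` weak solution (Friedrichs). -/
def StmtMOLL : Prop := ∀ (n : ℕ) (A : En n → Op n) (u : En n → ℝ) (D K : Set (En n)) (s ε : ℝ),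
  Sol A u D → Near s s A D → IsCompact K → K ⊆ D → 0 < ε →
  ∃ (A' : En n → Op n) (u' : En n → ℝ), ContDiff ℝ ∞ A' ∧ ContDiff ℝ ∞ u' ∧
    ∀ x ∈ K, (∀ ξ η, inner ℝ (A' x ξ) η = inner ℝ ξ (A' x η)) ∧ ‖A' x - 1‖ ≤ s ∧
      ‖fderiv ℝ A' x‖ ≤ s ∧ |u' x - u x| ≤ ε ∧ ‖gradient u' x - gradient u x‖ ≤ ε ∧
      |divA A' u' x| ≤ ε

/-- B4: approximate mean value formula. -/
def StmtMV : Prop := ∀ n : ℕ, 1 ≤ n → ∃ C s₀ : ℝ, 0 < C ∧ 0 < s₀ ∧
  ∀ (A : En n → Op n) (u : En n → ℝ) (x : En n) (s M : ℝ), 0 ≤ s → s ≤ s₀ →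
    Sol A u (ball x 1) → Near s s A (ball x 1) → (∀ y ∈ ball x 1, ‖gradient u y‖ ≤ M) →
    ‖gradient u x - ∫ z, Ker z • gradient u (x + z)‖ ≤ C * s * M

/-- B5: interior estimate for the gradient. -/
def StmtR1 : Prop := ∀ n : ℕ, 1 ≤ n → ∃ C s₀ : ℝ, 0 < C ∧ 0 < s₀ ∧
  ∀ (A : En n → Op n) (u : En n → ℝ) (U : Set (En n)) (x : En n) (r : ℝ), 0 < r →
    Sol A u U → closedBall x r ⊆ U → Near s₀ (s₀ / r) A (closedBall x r) →
    ‖gradient u x‖ ^ 2 ≤ C / r ^ n * ∫ y in closedBall x r, ‖gradient u y‖ ^ 2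

/-- B6: pointwise Carleman estimate for weak solutions. -/
def StmtPT : Prop := ∀ (n : ℕ) (M c r' : ℝ), 1 ≤ n → 0 < M → 0 < c → 0 < r' →
  ∃ s₀ τ₀ C : ℝ, 0 < s₀ ∧ 0 < τ₀ ∧ 0 < C ∧
  ∀ (D : Set (En n)) (φ B g χ : En n → ℝ) (A : En n → Op n) (u : En n → ℝ) (y : En n)
    (c₀ φ₀ τ Q : ℝ), IsOpen D → D ⊆ ball 0 M → ContDiffOn ℝ ∞ φ D → ContDiffOn ℝ ∞ B D →
    ContDiff ℝ ∞ χ → HasCompactSupport χ → tsupport χ ⊆ D → (∀ x, 0 ≤ χ x ∧ χ x ≤ 1) →
    CW M c D φ B g → (∀ x ∈ D, ‖fderiv ℝ χ x‖ ≤ M ∧ ‖fderiv ℝ (fderiv ℝ χ) x‖ ≤ M) →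
    Near s₀ s₀ A D → Sol A u D →
    closedBall y r' ⊆ D → (∀ x ∈ closedBall y r', χ x = 1 ∧ φ₀ ≤ φ x) → τ₀ ≤ τ → 0 ≤ Q →
    (∀ x ∈ D, (fderiv ℝ χ x ≠ 0 ∨ fderiv ℝ (fderiv ℝ χ) x ≠ 0) →
      Real.exp (τ * φ x) * (‖gradient u x‖ + |u x - c₀|) ≤ Q) →
    Real.exp (τ * φ₀) * ‖gradient u y‖ ≤ C * Q

/-! ## C. Three balls and slopes -/

/-- C1: three ball inequality with almost optimal exponents. -/
def StmtTB0 : Prop := ∀ (n : ℕ) (κ r₀ lam : ℝ), 1 ≤ n → 0 < κ → κ < 1 → 0 < r₀ → 1 < lam →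
  ∃ s₀ T₀ C : ℝ, 0 < s₀ ∧ 0 < T₀ ∧ 0 < C ∧
  ∀ (A : En n → Op n) (u : En n → ℝ) (r₁ r₂ r₃ T : ℝ), Sol A u (ball 0 2) →
    Near s₀ s₀ A (ball 0 2) → r₀ ≤ r₁ → lam * r₁ ≤ r₂ → lam * r₂ ≤ r₃ → r₃ ≤ 1 → T₀ ≤ T →
    Dg u 0 r₂ ≤ C * ((r₂ / r₁) ^ ((1 + κ) * T) * Dg u 0 r₁ +
      (r₃ / r₂) ^ (-((1 - κ) * T)) * Dg u 0 r₃)

/-- C2: slopes of `log Dg` are almost increasing when they are large. -/
def StmtSL : Prop := ∀ (n : ℕ) (ε q₀ lam : ℝ), 1 ≤ n → 0 < ε → ε < 1 → 0 < q₀ → 1 < lam →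
  lam ≤ 2 → ∃ s₀ N₁ : ℝ, 0 < s₀ ∧ 0 < N₁ ∧
  ∀ (A : En n → Op n) (u : En n → ℝ) (x : En n) (R N : ℝ), 0 < R → Sol A u (ball x (4 * R)) →
    Near s₀ (s₀ / R) A (ball x (4 * R)) → N₁ ≤ N →
    (Dg u x (2 * R) ≤ 2 ^ N * Dg u x R → ∀ r r', q₀ * R ≤ r → lam * r ≤ r' → r' ≤ R / 2 →
      Dg u x r' ≤ (r' / r) ^ ((1 + ε) * N) * Dg u x r) ∧
    (∀ η ρ', 0 ≤ η → η ≤ 1 → q₀ * R ≤ ρ' → 2 ^ ((1 - η) * N) * Dg u x ρ' < Dg u x (2 * ρ') →
      ∀ r r', 2 * lam * ρ' ≤ r → lam * r ≤ r' → r' ≤ 2 * R →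
      (r' / r) ^ ((1 - η - ε) * N) * Dg u x r ≤ Dg u x r')

/-- C3: Hölder three ball inequality. -/
def StmtG2 : Prop := ∀ (n : ℕ) (r₀ : ℝ), 1 ≤ n → 0 < r₀ → r₀ < 1 / 4 → ∃ s₀ C γ : ℝ, 0 < s₀ ∧
  0 < C ∧ 0 < γ ∧ ∀ (A : En n → Op n) (u : En n → ℝ) (a : ℝ), Sol A u (ball 0 2) →
    Near s₀ s₀ A (ball 0 2) → (∀ x ∈ ball 0 2, ‖gradient u x‖ ≤ 1) → 0 < a →
    Dg u 0 r₀ ≤ a → Dg u 0 (1 / 2) ≤ C * a ^ γ

/-! ## D. The codimension two simplex lemma -/

/-- Transversality data: `e` is a unit vector, the `y j` are orthogonal to `e`, bounded by `4`, and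
span the orthogonal complement of `e` quantitatively. -/
structure Frame {n : ℕ} (c : ℝ) (e : En n) (y : Fin n → En n) : Prop where
  norm_e : ‖e‖ = 1
  orth : ∀ j, inner ℝ e (y j) = 0
  bd : ∀ j, ‖y j‖ ≤ 4
  span : ∀ v : En n, inner ℝ e v = 0 → c * ‖v‖ ≤ ∑ j, |inner ℝ v (y j)|

/-- D1: the anisotropic weight. -/
def StmtKEYW : Prop := ∀ (n : ℕ) (c : ℝ), 2 ≤ n → 0 < c →
  ∃ ζ R₁ R R₂ ε₁ δ₃ r' M c' : ℝ, 0 < ζ ∧ 8 ≤ R₁ ∧ 64 ≤ ζ * R₁ ∧ R₁ < R ∧ R < R₂ ∧ 0 < ε₁ ∧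
    0 < δ₃ ∧ δ₃ < 1 / 2 ∧ R₁ + 4 ≤ R * (1 - δ₃) ∧ R + 4 ≤ R₂ ∧ 0 < r' ∧ 0 < M ∧ 0 < c' ∧
  ∀ (e : En n) (y : Fin n → En n), Frame c e y →
  ∃ (D : Set (En n)) (φ B g χ : En n → ℝ), IsOpen D ∧ D ⊆ ball 0 M ∧ ContDiffOn ℝ ∞ φ D ∧
    ContDiffOn ℝ ∞ B D ∧ ContDiff ℝ ∞ χ ∧ HasCompactSupport χ ∧ tsupport χ ⊆ D ∧
    (∀ x, 0 ≤ χ x ∧ χ x ≤ 1) ∧ CW M c' D φ B g ∧
    (∀ x ∈ D, ‖fderiv ℝ χ x‖ ≤ M ∧ ‖fderiv ℝ (fderiv ℝ χ) x‖ ≤ M) ∧
    (∀ x ∈ D, R₁ + 4 ≤ ‖x‖ ∧ ‖x‖ + 4 ≤ R₂) ∧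
    (∀ x ∈ D, (fderiv ℝ χ x ≠ 0 ∨ fderiv ℝ (fderiv ℝ χ) x ≠ 0) →
      φ x ≤ -Real.log ‖x‖ - ε₁ ∨
      ∃ j, ζ * ‖x‖ ≤ inner ℝ x (y j) ∧ φ x ≤ -Real.log ‖x‖ + ζ / (4 * R₂)) ∧
    (∀ y₀ : En n, R * (1 - δ₃) ≤ ‖y₀‖ → ‖y₀‖ ≤ R → (∀ j, inner ℝ y₀ (y j) ≤ ζ / 2 * ‖y₀‖) →
      closedBall y₀ r' ⊆ D ∧
      ∀ x ∈ closedBall y₀ r', χ x = 1 ∧ -Real.log ‖y₀‖ + ε₁ / 2 ≤ φ x)

/-- D2: the key lemma. -/
def StmtKEY : Prop := ∀ (n : ℕ) (c : ℝ), 2 ≤ n → 0 < c →
  ∃ R₁ R R₂ η₀ s₀ N₀ : ℝ, 8 ≤ R₁ ∧ R₁ < R ∧ R < R₂ ∧ 0 < η₀ ∧ η₀ < 1 ∧ 0 < s₀ ∧ 0 < N₀ ∧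
  ∀ (A : En n → Op n) (u : En n → ℝ) (e : En n) (y : Fin n → En n) (H N : ℝ), Frame c e y →
    Sol A u (ball 0 (2 * R₂)) → Near s₀ s₀ A (ball 0 (2 * R₂)) → 0 < H → N₀ ≤ N →
    (∀ r, R₁ ≤ r → r ≤ R₂ → Dg u 0 r ≤ H * Real.exp (η₀ * N) * r ^ N) →
    (∀ j r, R₁ ≤ r → r ≤ R₂ → Dg u (y j) r ≤ H * Real.exp (η₀ * N) * r ^ N) →
    Dg u 0 R < H * Real.exp (-(η₀ * N)) * R ^ N

/-- D3: independent points give a frame. -/
def StmtIND : Prop := ∀ (n : ℕ) (hn : 2 ≤ n) (τ : ℝ), 0 < τ → ∃ c : ℝ, 0 < c ∧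
  ∀ x : Fin n → En n, (∀ i, ‖x i‖ ≤ 2) → Indep τ x →
    ∃ e : En n, Frame c e (fun j => x j - x ⟨0, by omega⟩)

/-- D4: covering of a set without `n` independent points. -/
def StmtCOV : Prop := ∀ n : ℕ, 2 ≤ n → ∃ C : ℝ, 0 < C ∧ ∀ (τ : ℝ) (x₀ : En n) (ℓ : ℝ)
  (P : Set (En n)), 0 < τ → τ < 1 → 0 < ℓ → P ⊆ closedBall x₀ (2 * ℓ) →
  (¬ ∃ x : Fin n → En n, (∀ i, x i ∈ P) ∧ Indep (τ * ℓ) x) →
  ∃ t : Finset (En n), (↑t : Set (En n)) ⊆ P ∧ (∀ p ∈ P, ∃ q ∈ t, dist p q ≤ 8 * τ * ℓ) ∧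
    (t.card : ℝ) ≤ C * (1 / τ) ^ (n - 2)

/-- D5: pinched points are not independent. -/
def StmtPIN : Prop := ∀ (n : ℕ) (τ : ℝ), 2 ≤ n → 0 < τ → τ < 1 →
  ∃ K₀ η ρ s₀ N₁ : ℝ, 8 ≤ K₀ ∧ 0 < η ∧ η < 1 ∧ 0 < ρ ∧ 3 * ρ ≤ τ ∧ 0 < s₀ ∧ 0 < N₁ ∧
  ∀ (A : En n → Op n) (u : En n → ℝ) (x₀ : En n) (ℓ N : ℝ), 0 < ℓ →
    Sol A u (ball x₀ (8 * K₀ * ℓ)) → Near s₀ (s₀ / ℓ) A (ball x₀ (8 * K₀ * ℓ)) → N₁ ≤ N →
    ¬ ∃ x : Fin n → En n, (∀ i, x i ∈ closedBall x₀ (2 * ℓ) ∧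
        Dg u (x i) (2 * K₀ * ℓ) ≤ 2 ^ N * Dg u (x i) (K₀ * ℓ) ∧
        2 ^ ((1 - η) * N) * Dg u (x i) (K₀ * ρ * ℓ) < Dg u (x i) (2 * K₀ * ρ * ℓ)) ∧
      Indep (τ * ℓ) x

/-! ## E. Bounded frequency -/

/-- E1: Weyl's lemma. -/
def StmtWEYL : Prop := ∀ (n : ℕ) (g : En n → ℝ) (R : ℝ), 1 ≤ n →
  LocallyIntegrableOn g (ball 0 R) →
  (∀ ψ : En n → ℝ, ContDiff ℝ ∞ ψ → HasCompactSupport ψ → tsupport ψ ⊆ ball 0 R →
    ∫ x, g x * lap ψ x = 0) →
  ∃ g' : En n → ℝ, ContDiffOn ℝ ∞ g' (ball 0 R) ∧ (∀ x ∈ ball 0 R, lap g' x = 0) ∧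
    ∀ᵐ x ∂(volume.restrict (ball (0 : En n) R)), g' x = g x

/-- E2: logarithmic convexity for harmonic functions, in bilinear form. -/
def StmtLOGC : Prop := ∀ (n : ℕ) (g : En n → ℝ) (R r : ℝ), 1 ≤ n → 0 < r → 6 * r ≤ R →
  ContDiffOn ℝ ∞ g (ball 0 R) → (∀ x ∈ ball 0 R, lap g x = 0) →
  ∫ z : En n, g ((2 * r) • z) ^ 2 * wt z = ∫ z : En n, g (r • z) * g ((4 * r) • z) * wt z

/-- E3: harmonic approximation by orthogonal projection. -/
def StmtPROJ : Prop := ∀ (n : ℕ) (A : En n → Op n) (u : En n → ℝ) (U : Set (En n)) (R σ : ℝ),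
  1 ≤ n → 0 < R → Sol A u U → closedBall 0 R ⊆ U → ContinuousOn A U →
  (∀ x ∈ ball 0 R, ‖A x - 1‖ ≤ σ) →
  ∃ G : En n → En n, MemLp G 2 (volume.restrict (ball 0 R)) ∧
    (∀ i, ∀ ψ : En n → ℝ, ContDiff ℝ ∞ ψ → HasCompactSupport ψ → tsupport ψ ⊆ ball 0 R →
      ∫ x, inner ℝ (ee i) (G x) * lap ψ x = 0) ∧
    ∫ x in ball 0 R, ‖gradient u x - G x‖ ^ 2 ≤ σ ^ 2 * ∫ x in ball 0 R, ‖gradient u x‖ ^ 2

/-- E4: almost log-convexity of the energy. -/
def StmtL4 : Prop := ∀ (n : ℕ) (F : ℝ), 1 ≤ n → 1 ≤ F → ∃ C s₀ : ℝ, 0 < C ∧ 0 < s₀ ∧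
  ∀ (A : En n → Op n) (u : En n → ℝ) (r s : ℝ), 0 < r → 0 ≤ s → s * r ≤ s₀ →
    Sol A u (ball 0 (12 * r)) → ContinuousOn A (ball 0 (12 * r)) →
    (∀ x ∈ ball 0 (12 * r), ‖A x - 1‖ ≤ s * ‖x‖) →
    EE u (8 * r) ≤ F * EE u (4 * r) → EE u (4 * r) ≤ F * EE u (2 * r) →
    EE u (2 * r) ^ 2 ≤ (1 + C * (s * r)) * EE u r * EE u (4 * r)

/-- E5: uniform doubling of the energy at all scales. -/
def StmtDBLE : Prop := ∀ (n : ℕ) (F : ℝ), 1 ≤ n → 1 ≤ F → ∃ s₀ : ℝ, 0 < s₀ ∧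
  ∀ (A : En n → Op n) (u : En n → ℝ), Sol A u (ball 0 1) → Near s₀ s₀ A (ball 0 1) → A 0 = 1 →
    EE u (1 / 2) ≤ F * EE u (1 / 4) → EE u (1 / 4) ≤ F * EE u (1 / 8) →
    ∀ k : ℕ, EE u (1 / 2 * (1 / 2) ^ k) ≤ 2 * F * EE u (1 / 4 * (1 / 2) ^ k)

/-- E6: uniform doubling of `Dg`. -/
def StmtDBL : Prop := ∀ (n : ℕ) (K₀ N : ℝ), 1 ≤ n → 8 ≤ K₀ → 0 < N →
  ∃ s₀ F : ℝ, 0 < s₀ ∧ 1 ≤ F ∧ ∀ (A : En n → Op n) (u : En n → ℝ),
    Sol A u (ball 0 (8 * K₀)) → Near s₀ s₀ A (ball 0 (8 * K₀)) →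
    (∀ x ∈ closedBall 0 2, Dg u x (2 * K₀) ≤ 2 ^ N * Dg u x K₀) →
    ∀ x ∈ closedBall 0 (3 / 2), ∀ r, 0 < r → r ≤ 1 → Dg u x (2 * r) ≤ F * Dg u x r

/-- Iterated partial derivatives. -/
noncomputable def pd {n : ℕ} : List (Fin n) → (En n → ℝ) → En n → ℝ
  | [], f => f
  | i :: I, f => fun x => fderiv ℝ (pd I f) x (ee i)

/-- E7: at a critical point of a nonconstant harmonic function some iterated partial derivative is
harmonic with a nondegenerate second order Taylor polynomial. -/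
def StmtHC1 : Prop := ∀ (n : ℕ) (h : En n → ℝ) (R : ℝ), 1 ≤ n → 0 < R →
  ContDiffOn ℝ ∞ h (ball 0 R) → (∀ x ∈ ball 0 R, lap h x = 0) →
  (∃ x ∈ ball 0 R, gradient h x ≠ 0) → ∀ x ∈ ball 0 R, gradient h x = 0 →
  ∃ J : List (Fin n), gradient (pd J h) x = 0 ∧ (∃ ξ η, D2 (pd J h) x ξ η ≠ 0) ∧
    lap (pd J h) x = 0

/-- E8: critical points with nonzero trace free Hessian have dimension at most `n - 2`. -/
def StmtHC2 : Prop := ∀ (n : ℕ) (d : ℝ) (g : En n → ℝ) (U : Set (En n)), 2 ≤ n →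
  (n : ℝ) - 2 < d → IsOpen U → ContDiffOn ℝ ∞ g U →
  cont n d {x ∈ U | gradient g x = 0 ∧ lap g x = 0 ∧ ∃ ξ η, D2 g x ξ η ≠ 0} = 0

/-- E9: the critical set of a nonconstant harmonic function has content zero. -/
def StmtHC : Prop := ∀ (n : ℕ) (d : ℝ) (h : En n → ℝ) (R : ℝ), 2 ≤ n → (n : ℝ) - 2 < d →
  0 < R → Sol (fun _ => 1) h (ball 0 R) → (∃ x ∈ ball 0 R, gradient h x ≠ 0) →
  cont n d {x ∈ ball 0 R | gradient h x = 0} = 0

/-- E10: compactness. -/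
def StmtCOMP : Prop := ∀ (n : ℕ) (F : ℝ) (A : ℕ → En n → Op n) (u : ℕ → En n → ℝ) (s : ℕ → ℝ),
  1 ≤ n → Tendsto s atTop (𝓝 0) →
  (∀ k, 0 ≤ s k ∧ Sol (A k) (u k) (ball 0 4) ∧ Near (s k) (s k) (A k) (ball 0 4) ∧
    ∀ x ∈ ball 0 2, ‖gradient (u k) x‖ ≤ F) →
  ∃ (j : ℕ → ℕ) (h : En n → ℝ), StrictMono j ∧ Sol (fun _ => 1) h (ball 0 (3 / 2)) ∧
    TendstoUniformlyOn (fun k x => gradient (u (j k)) x) (gradient h) atTop (closedBall 0 1)

/-- E11: one step of the covering for bounded frequency. -/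
def StmtL5 : Prop := ∀ (n : ℕ) (d F θ : ℝ), 2 ≤ n → (n : ℝ) - 2 < d → 1 ≤ F → 0 < θ →
  ∃ s₀ ε₁ τ₁ : ℝ, 0 < s₀ ∧ 0 < ε₁ ∧ 0 < τ₁ ∧ τ₁ ≤ 1 / 8 ∧
  ∀ (A : En n → Op n) (u : En n → ℝ), Sol A u (ball 0 4) → Near s₀ s₀ A (ball 0 4) →
    Dg u 0 2 ≤ F * Dg u 0 1 → 0 < Dg u 0 1 →
    ∃ t : Finset (En n × ℝ), (∀ p ∈ t, p.1 ∈ closedBall 0 1 ∧ τ₁ ≤ p.2 ∧ p.2 ≤ 1 / 8) ∧
      ∑ p ∈ t, p.2 ^ d ≤ θ ∧
      ∀ x ∈ closedBall 0 1, ‖gradient u x‖ ≤ ε₁ * Dg u 0 1 → ∃ p ∈ t, x ∈ closedBall p.1 p.2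

/-- E12: exponential decay of the content for bounded frequency. -/
def StmtBASE : Prop := ∀ (n : ℕ) (d K₀ N : ℝ), 2 ≤ n → (n : ℝ) - 2 < d → 8 ≤ K₀ → 0 < N →
  ∃ s₀ C b : ℝ, 0 < s₀ ∧ 0 < C ∧ 0 < b ∧
  ∀ (A : En n → Op n) (u : En n → ℝ) (x₀ : En n) (ℓ Λ : ℝ), 0 < ℓ →
    Sol A u (ball x₀ (8 * K₀ * ℓ)) → Near s₀ (s₀ / ℓ) A (ball x₀ (8 * K₀ * ℓ)) →
    (∀ x ∈ closedBall x₀ (2 * ℓ), Dg u x (2 * K₀ * ℓ) ≤ 2 ^ N * Dg u x (K₀ * ℓ)) →
    0 < Dg u x₀ ℓ → 0 ≤ Λ →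
    cont n d {x ∈ closedBall x₀ ℓ | ‖gradient u x‖ ≤ Real.exp (-Λ) * Dg u x₀ ℓ} ≤
      ENNReal.ofReal (C * Real.exp (-(b * Λ)) * ℓ ^ d)

/-! ## F. The recursion and the end of the proof -/

/-- F1: the local estimate. -/
def StmtLOC : Prop := ∀ (n : ℕ) (d : ℝ), 2 ≤ n → (n : ℝ) - 2 < d →
  ∃ K₀ s₀ N₁ B p : ℝ, 8 ≤ K₀ ∧ 0 < s₀ ∧ 1 ≤ N₁ ∧ 0 < B ∧ 0 < p ∧
  ∀ (A : En n → Op n) (u : En n → ℝ) (x₀ : En n) (ℓ N Λ : ℝ), 0 < ℓ →
    Sol A u (ball x₀ (8 * K₀ * ℓ)) → Near s₀ (s₀ / ℓ) A (ball x₀ (8 * K₀ * ℓ)) → N₁ ≤ N →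
    (∀ x ∈ closedBall x₀ (2 * ℓ), Dg u x (2 * K₀ * ℓ) ≤ 2 ^ N * Dg u x (K₀ * ℓ)) →
    0 < Dg u x₀ ℓ → 0 < Λ →
    cont n d {x ∈ closedBall x₀ ℓ | ‖gradient u x‖ ≤ Real.exp (-Λ) * Dg u x₀ ℓ} ≤
      ENNReal.ofReal (B * (N / Λ) ^ p * ℓ ^ d)

/-- F2: smallness on a set propagates to the unit ball (coefficients near the identity). -/
def StmtG1 : Prop := ∀ (n : ℕ) (d : ℝ), 2 ≤ n → (n : ℝ) - 2 < d →
  ∃ K s₀ : ℝ, 8 ≤ K ∧ 0 < s₀ ∧ ∀ m : ℝ, 0 < m → ∃ C γ : ℝ, 0 < C ∧ 0 < γ ∧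
  ∀ (A : En n → Op n) (u : En n → ℝ) (S : Set (En n)) (ε : ℝ), Sol A u (ball 0 K) →
    Near s₀ s₀ A (ball 0 K) → (∀ x ∈ ball 0 K, ‖gradient u x‖ ≤ 1) → 0 < ε →
    S ⊆ closedBall 0 1 → (∀ x ∈ S, ‖gradient u x‖ ≤ ε) → ENNReal.ofReal m ≤ cont n d S →
    Dg u 0 1 ≤ C * ε ^ γ

/-- Uniformly elliptic symmetric Lipschitz coefficients. -/
structure Ell {n : ℕ} (lam L : ℝ) (A : En n → Op n) (U : Set (En n)) : Prop where
  symm : ∀ x ∈ U, ∀ ξ η : En n, inner ℝ (A x ξ) η = inner ℝ ξ (A x η)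
  ell : ∀ x ∈ U, ∀ ξ : En n, lam⁻¹ * ‖ξ‖ ^ 2 ≤ inner ℝ (A x ξ) ξ ∧
    inner ℝ (A x ξ) ξ ≤ lam * ‖ξ‖ ^ 2
  lip : ∀ x ∈ U, ∀ y ∈ U, ‖A x - A y‖ ≤ L * ‖x - y‖

/-- F3: smallness on a set propagates to a ball, general coefficients. -/
def StmtFA : Prop := ∀ (n : ℕ) (d lam L ρ₁ : ℝ), 2 ≤ n → (n : ℝ) - 2 < d → 1 ≤ lam → 0 ≤ L →
  0 < ρ₁ → ∃ r₀ : ℝ, 0 < r₀ ∧ ∀ r, 0 < r → r ≤ r₀ → ∀ m : ℝ, 0 < m →
  ∃ C γ : ℝ, 0 < C ∧ 0 < γ ∧
  ∀ (A : En n → Op n) (u : En n → ℝ) (z : En n) (S : Set (En n)) (ε : ℝ),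
    Sol A u (ball z ρ₁) → Ell lam L A (ball z ρ₁) → (∀ x ∈ ball z ρ₁, ‖gradient u x‖ ≤ 1) →
    0 < ε → S ⊆ closedBall z r → (∀ x ∈ S, ‖gradient u x‖ ≤ ε) →
    ENNReal.ofReal m ≤ cont n d S → ∀ x ∈ closedBall z r, ‖gradient u x‖ ≤ C * ε ^ γ

/-- F4: propagation from a ball to the doubled ball, general coefficients. -/
def StmtFB : Prop := ∀ (n : ℕ) (lam L ρ₁ : ℝ), 2 ≤ n → 1 ≤ lam → 0 ≤ L → 0 < ρ₁ →
  ∃ r₀ : ℝ, 0 < r₀ ∧ ∀ r, 0 < r → r ≤ r₀ → ∃ C γ : ℝ, 0 < C ∧ 0 < γ ∧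
  ∀ (A : En n → Op n) (u : En n → ℝ) (z : En n) (a : ℝ),
    Sol A u (ball z ρ₁) → Ell lam L A (ball z ρ₁) → (∀ x ∈ ball z ρ₁, ‖gradient u x‖ ≤ 1) →
    0 < a → (∀ x ∈ closedBall z r, ‖gradient u x‖ ≤ a) →
    ∀ x ∈ closedBall z (2 * r), ‖gradient u x‖ ≤ C * a ^ γ

/-- F5: the theorem (frozen statement S06551). -/
def StmtFIN : Prop :=
  ∀ (n : ℕ), 2 ≤ n →
  ∀ (Ω : Set (EuclideanSpace ℝ (Fin n))), IsOpen Ω → IsConnected Ω → Bornology.IsBounded Ω →
  ∀ (A : EuclideanSpace ℝ (Fin n) → (EuclideanSpace ℝ (Fin n) →L[ℝ] EuclideanSpace ℝ (Fin n))),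
    (∀ x ∈ Ω, ∀ ξ η : EuclideanSpace ℝ (Fin n), inner ℝ (A x ξ) η = inner ℝ ξ (A x η)) →
    (∃ Λ : ℝ, 0 < Λ ∧ ∀ x ∈ Ω, ∀ ξ : EuclideanSpace ℝ (Fin n),
        Λ⁻¹ * ‖ξ‖ ^ 2 ≤ inner ℝ (A x ξ) ξ ∧ inner ℝ (A x ξ) ξ ≤ Λ * ‖ξ‖ ^ 2) →
    (∃ L : NNReal, LipschitzOnWith L A Ω) →
  ∀ δ : ℝ, 0 < δ → ∀ ρ : ℝ, 0 < ρ → ∀ m : ℝ, 0 < m →
  ∃ C γ : ℝ, 0 < C ∧ 0 < γ ∧
  ∀ E K : Set (EuclideanSpace ℝ (Fin n)), E ⊆ Ω → K ⊆ Ω →
    (∀ x ∈ E, ρ < Metric.infDist x Ωᶜ) → (∀ x ∈ K, ρ < Metric.infDist x Ωᶜ) →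
    ENNReal.ofReal m ≤ cont n ((n : ℝ) - 2 + δ) E →
  ∀ u : EuclideanSpace ℝ (Fin n) → ℝ, ContDiffOn ℝ 1 u Ω →
    (∀ φ : EuclideanSpace ℝ (Fin n) → ℝ, ContDiff ℝ ((⊤ : ℕ∞) : WithTop ℕ∞) φ →
      HasCompactSupport φ → tsupport φ ⊆ Ω →
      ∫ x in Ω, inner ℝ (A x (gradient u x)) (gradient φ x) = 0) →
    (∀ x ∈ Ω, ‖gradient u x‖ ≤ 1) →
  ∀ ε : ℝ, 0 < ε → (∀ x ∈ E, ‖gradient u x‖ ≤ ε) →
    ∀ x ∈ K, ‖gradient u x‖ ≤ C * ε ^ γ

end EAGrad

end

section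

/-!
MP_ea6116_an, item BASE: exponential decay of the content for bounded frequency.
-/

set_option autoImplicit false

open MeasureTheory Metric Set Filter Topology
open scoped ENNReal NNReal ContDiff

namespace EAGrad

/-- the content of a Lipschitz image -/
theorem BASE_cont_image {n : ℕ} {d : ℝ} (hd : 0 < d) {f : En n → En n} {K : ℝ≥0} (hK : 0 < K)
    (hf : LipschitzWith K f) (S : Set (En n)) :
    cont n d (f '' S) ≤ (K : ℝ≥0∞) ^ d * cont n d S := by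
  have h0 : (K : ℝ≥0∞) ^ d ≠ 0 := by
    intro h
    rw [ENNReal.rpow_eq_zero_iff_of_pos hd] at h
    exact hK.ne' (by exact_mod_cast h)
  have hT : (K : ℝ≥0∞) ^ d ≠ ⊤ := ENNReal.rpow_ne_top_of_nonneg hd.le ENNReal.coe_ne_top
  conv_rhs => unfold cont
  rw [ENNReal.mul_iInf_of_ne h0 hT]
  refine le_iInf fun t => ?_
  rw [ENNReal.mul_iInf_of_ne h0 hT]
  refine le_iInf fun ht => ?_
  rw [← ENNReal.tsum_mul_left]
  refine (cont_le (fun i => f '' t i) ?_).trans (ENNReal.tsum_le_tsum fun i => ?_)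
  · rw [← image_iUnion]
    exact image_mono ht
  · rw [← ENNReal.mul_rpow_of_nonneg _ _ hd.le]
    exact ENNReal.rpow_le_rpow (hf.ediam_image_le _) hd.le

/-- dilations and the content -/
theorem BASE_cont_dil {n : ℕ} {d : ℝ} (hd : 0 < d) (x : En n) {l : ℝ} (hl : 0 < l)
    (S T : Set (En n)) (hST : ∀ y ∈ T, l⁻¹ • (y - x) ∈ S) :
    cont n d T ≤ ENNReal.ofReal (l ^ d) * cont n d S := by
  have h1 : T ⊆ (fun z : En n => x + l • z) '' S := fun y hy =>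
    ⟨l⁻¹ • (y - x), hST y hy, by
      simp only
      rw [smul_smul, mul_inv_cancel₀ hl.ne', one_smul, add_sub_cancel]⟩
  refine (cont_mono h1).trans ?_
  have h2 : LipschitzWith ⟨l, hl.le⟩ (fun z : En n => x + l • z) := by
    refine LipschitzWith.of_dist_le_mul fun a b => ?_
    rw [dist_add_left, dist_smul₀, Real.norm_of_nonneg hl.le]
    exact le_refl _
  refine (BASE_cont_image hd (by exact_mod_cast hl) h2 S).trans ?_
  rw [← ENNReal.ofReal_rpow_of_nonneg hl.le hd.le]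
  refine mul_le_mul_left ?_ _
  refine ENNReal.rpow_le_rpow (le_of_eq ?_) hd.le
  rw [ENNReal.ofReal, Real.toNNReal_of_nonneg hl.le]
  rfl

/-- the one step covering, rescaled to a small ball -/
theorem BASE_step (h5 : StmtL5) (hSC : StmtSC) (n : ℕ) (d F : ℝ) (hn : 2 ≤ n)
    (hd : (n : ℝ) - 2 < d) (hF : 1 ≤ F) :
    ∃ s₀ ε₁ τ₁ : ℝ, 0 < s₀ ∧ 0 < ε₁ ∧ 0 < τ₁ ∧ τ₁ ≤ 1 / 8 ∧
  ∀ (A : En n → Op n) (u : En n → ℝ) (c : En n) (r : ℝ), 0 < r → r ≤ 1 →
    Sol A u (ball c (4 * r)) → Near s₀ s₀ A (ball c (4 * r)) →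
    Dg u c (2 * r) ≤ F * Dg u c r → 0 < Dg u c r →
    ∃ t : Finset (En n × ℝ), (∀ p ∈ t, p.1 ∈ closedBall 0 1 ∧ τ₁ ≤ p.2 ∧ p.2 ≤ 1 / 8) ∧
      ∑ p ∈ t, p.2 ^ d ≤ 1 / 2 ∧
      ∀ x ∈ closedBall c r, ‖gradient u x‖ ≤ ε₁ * Dg u c r →
        ∃ p ∈ t, x ∈ closedBall (c + r • p.1) (r * p.2) := by
  obtain ⟨s₀, ε₁, τ₁, hs, hε, hτ, hτ8, H⟩ := h5 n d F (1 / 2) hn hd hF (by norm_num)
  refine ⟨s₀, ε₁, τ₁, hs, hε, hτ, hτ8, fun A u c r hr hr1 hu hA hdb hpos => ?_⟩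
  obtain ⟨g1, g2, g3, g4⟩ := hSC n A u c 4 r s₀ s₀ hr hu hA
  have e1 : Dg (fun z => r⁻¹ * u (c + r • z)) 0 1 = Dg u c r := by
    rw [g4, smul_zero, add_zero, mul_one]
  have e2 : Dg (fun z => r⁻¹ * u (c + r • z)) 0 2 = Dg u c (2 * r) := by
    rw [g4, smul_zero, add_zero, mul_comm r 2]
  obtain ⟨t, t1, t2, t3⟩ := H _ _ g1 (g2.mono le_rfl (by nlinarith) subset_rfl)
    (by rw [e1, e2]; exact hdb) (by rw [e1]; exact hpos)
  refine ⟨t, t1, t2, fun x hx hxe => ?_⟩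
  have hx' : c + r • (r⁻¹ • (x - c)) = x := by
    rw [smul_smul, mul_inv_cancel₀ hr.ne', one_smul, add_sub_cancel]
  obtain ⟨p, hp, hpx⟩ := t3 (r⁻¹ • (x - c)) (by
    rw [mem_closedBall_zero_iff, norm_smul, norm_inv, Real.norm_of_nonneg hr.le]
    rw [mem_closedBall, dist_eq_norm] at hx
    rw [inv_mul_le_iff₀ hr, mul_one]
    exact hx) (by rw [g3, hx', e1]; exact hxe)
  refine ⟨p, hp, ?_⟩
  rw [mem_closedBall, dist_eq_norm] at hpx ⊢
  have e3 : x - (c + r • p.1) = r • (r⁻¹ • (x - c) - p.1) := by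
    rw [smul_sub, smul_smul, mul_inv_cancel₀ hr.ne', one_smul]
    abel
  rw [e3, norm_smul, Real.norm_of_nonneg hr.le]
  exact mul_le_mul_of_nonneg_left hpx hr.le

/-- iteration of the doubling inequality -/
theorem BASE_double {n : ℕ} {u : En n → ℝ} {x : En n} {F : ℝ} (hF : 1 ≤ F)
    (h : ∀ r, 0 < r → r ≤ 1 → Dg u x (2 * r) ≤ F * Dg u x r) (i : ℕ) {r : ℝ} (hr : 0 < r)
    (hr1 : r ≤ 1) : Dg u x (2 * r) ≤ F ^ (i + 1) * Dg u x (r / 2 ^ i) := by
  induction i with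
  | zero =>
    simpa using h r hr hr1
  | succ i ih =>
    refine ih.trans ?_
    have h2 : (0 : ℝ) < 2 ^ (i + 1) := by positivity
    have e1 : r / 2 ^ i = 2 * (r / 2 ^ (i + 1)) := by
      field_simp
      ring
    have h3 : r / 2 ^ (i + 1) ≤ 1 := by
      rw [div_le_one h2]
      exact hr1.trans (one_le_pow₀ (by norm_num))
    rw [e1, pow_succ F (i + 1), mul_assoc]
    exact mul_le_mul_of_nonneg_left (h _ (by positivity) h3) (by positivity)

theorem BASE_ind {n : ℕ} {d F ε₁ τ₁ b₀ : ℝ} {i : ℕ} {A : En n → Op n} {u : En n → ℝ}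
    (hd : 0 < d) (hF : 1 ≤ F) (hb1 : Real.exp (-b₀) ≤ ε₁) (hb2 : F ^ (i + 1) ≤ Real.exp b₀)
    (hb3 : 0 ≤ b₀) (hτ : 0 < τ₁) (hi : 1 / 2 ^ i ≤ τ₁)
    (hu : Sol A u (ball 0 64))
    (hdbl : ∀ x ∈ closedBall (0 : En n) (3 / 2), ∀ r, 0 < r → r ≤ 1 →
      Dg u x (2 * r) ≤ F * Dg u x r)
    (hstep : ∀ (c : En n) (r : ℝ), 0 < r → r ≤ 1 → ‖c‖ ≤ 8 / 7 → 0 < Dg u c r →
      ∃ t : Finset (En n × ℝ), (∀ p ∈ t, p.1 ∈ closedBall 0 1 ∧ τ₁ ≤ p.2 ∧ p.2 ≤ 1 / 8) ∧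
      ∑ p ∈ t, p.2 ^ d ≤ 1 / 2 ∧
      ∀ x ∈ closedBall c r, ‖gradient u x‖ ≤ ε₁ * Dg u c r →
        ∃ p ∈ t, x ∈ closedBall (c + r • p.1) (r * p.2)) (j : ℕ) :
    ∀ (c : En n) (r Λ : ℝ), 0 < r → ‖c‖ + 8 / 7 * r ≤ 8 / 7 → 0 < Dg u c r → j * b₀ ≤ Λ →
      cont n d {x ∈ closedBall c r | ‖gradient u x‖ ≤ Real.exp (-Λ) * Dg u c r} ≤
        ENNReal.ofReal ((2 * r) ^ d * (1 / 2) ^ j) := by
  induction j with
  | zero =>
    intro c r Λ hr hc hpos hΛ
    rw [pow_zero, mul_one]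
    exact (cont_mono (sep_subset _ _)).trans (cont_closedBall_le hd c hr.le)
  | succ j ih =>
    intro c r Λ hr hc hpos hΛ
    have hc0 := norm_nonneg c
    have hr1 : r ≤ 1 := by linarith
    obtain ⟨t, t1, t2, t3⟩ := hstep c r hr hr1 (by linarith) hpos
    push_cast at hΛ
    have hjb : 0 ≤ (j : ℝ) * b₀ := by positivity
    have key : ∀ p ∈ t, ‖c + r • p.1‖ + 8 / 7 * (r * p.2) ≤ 8 / 7 ∧ 0 < r * p.2 ∧
        Dg u c r ≤ Real.exp b₀ * Dg u (c + r • p.1) (r * p.2) := by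
      intro p hp
      obtain ⟨p1, p2, p3⟩ := t1 p hp
      rw [mem_closedBall_zero_iff] at p1
      have q1 : ‖r • p.1‖ ≤ r := by
        rw [norm_smul, Real.norm_of_nonneg hr.le]
        exact mul_le_of_le_one_right hr.le p1
      have q2 : ‖c + r • p.1‖ + 8 / 7 * (r * p.2) ≤ 8 / 7 := by
        have := norm_add_le c (r • p.1)
        nlinarith
      have q3 : 0 < r * p.2 := mul_pos hr (hτ.trans_le p2)
      have q4 : ‖c + r • p.1‖ ≤ 8 / 7 := by linarith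
      refine ⟨q2, q3, ?_⟩
      have q5 : closedBall (c + r • p.1) (2 * r) ⊆ ball 0 64 := fun y hy => by
        rw [mem_closedBall, dist_eq_norm] at hy
        rw [mem_ball_zero_iff]
        have := norm_add_le (y - (c + r • p.1)) (c + r • p.1)
        rw [sub_add_cancel] at this
        linarith
      have q6 : Dg u c r ≤ Dg u (c + r • p.1) (2 * r) := by
        refine hu.Dg_mono q5 fun y hy => ?_
        rw [mem_closedBall, dist_eq_norm] at hy ⊢
        have e : y - (c + r • p.1) = (y - c) - r • p.1 := by abel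
        rw [e]
        linarith [norm_sub_le (y - c) (r • p.1)]
      have q7 := BASE_double hF (hdbl (c + r • p.1) (by
        rw [mem_closedBall_zero_iff]
        linarith)) i hr hr1
      have q8 : Dg u (c + r • p.1) (r / 2 ^ i) ≤ Dg u (c + r • p.1) (r * p.2) := by
        refine hu.Dg_mono ?_ ?_
        · refine (closedBall_subset_closedBall ?_).trans q5
          nlinarith
        · refine closedBall_subset_closedBall ?_
          rw [div_eq_mul_one_div]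
          exact mul_le_mul_of_nonneg_left (hi.trans p2) hr.le
      calc Dg u c r ≤ F ^ (i + 1) * Dg u (c + r • p.1) (r / 2 ^ i) := q6.trans q7
        _ ≤ Real.exp b₀ * Dg u (c + r • p.1) (r * p.2) :=
          mul_le_mul hb2 q8 (Dg_nonneg _ _ _) (Real.exp_pos _).le
    have hcov : {x ∈ closedBall c r | ‖gradient u x‖ ≤ Real.exp (-Λ) * Dg u c r} ⊆
        ⋃ p ∈ t, {x ∈ closedBall (c + r • p.1) (r * p.2) |
          ‖gradient u x‖ ≤ Real.exp (-(Λ - b₀)) * Dg u (c + r • p.1) (r * p.2)} := by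
      rintro x ⟨hx1, hx2⟩
      have hx3 : ‖gradient u x‖ ≤ ε₁ * Dg u c r := by
        refine hx2.trans (mul_le_mul_of_nonneg_right (le_trans ?_ hb1) hpos.le)
        exact Real.exp_le_exp.2 (by linarith)
      obtain ⟨p, hp, hxp⟩ := t3 x hx1 hx3
      refine mem_biUnion hp ⟨hxp, hx2.trans ?_⟩
      have := (key p hp).2.2
      calc Real.exp (-Λ) * Dg u c r ≤
          Real.exp (-Λ) * (Real.exp b₀ * Dg u (c + r • p.1) (r * p.2)) :=
            mul_le_mul_of_nonneg_left this (Real.exp_pos _).le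
        _ = Real.exp (-(Λ - b₀)) * Dg u (c + r • p.1) (r * p.2) := by
          rw [← mul_assoc, ← Real.exp_add]
          ring_nf
    refine (cont_mono hcov).trans ((cont_biUnion_finset_le hd t _).trans ?_)
    have hterm : ∀ p ∈ t, cont n d {x ∈ closedBall (c + r • p.1) (r * p.2) |
          ‖gradient u x‖ ≤ Real.exp (-(Λ - b₀)) * Dg u (c + r • p.1) (r * p.2)} ≤
        ENNReal.ofReal ((2 * (r * p.2)) ^ d * (1 / 2) ^ j) := by
      intro p hp
      obtain ⟨k1, k2, k3⟩ := key p hp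
      refine ih _ _ _ k2 k1 ?_ (by linarith)
      have := Real.exp_pos b₀
      by_contra hcon
      push Not at hcon
      nlinarith
    refine (Finset.sum_le_sum hterm).trans ?_
    rw [← ENNReal.ofReal_sum_of_nonneg (fun p hp => by
      have := (key p hp).2.1
      positivity)]
    refine ENNReal.ofReal_le_ofReal ?_
    have hsum : ∑ p ∈ t, (2 * (r * p.2)) ^ d * (1 / 2 : ℝ) ^ j =
        (2 * r) ^ d * (1 / 2) ^ j * ∑ p ∈ t, p.2 ^ d := by
      rw [Finset.mul_sum]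
      refine Finset.sum_congr rfl fun p hp => ?_
      have hp2 : 0 ≤ p.2 := (hτ.trans_le (t1 p hp).2.1).le
      rw [← mul_assoc, Real.mul_rpow (by positivity) hp2]
      ring
    rw [hsum, pow_succ]
    have h0 : 0 ≤ (2 * r) ^ d * (1 / 2 : ℝ) ^ j := by positivity
    nlinarith

theorem BASE_half_pow (x : ℝ) (hx : 0 ≤ x) :
    (1 / 2 : ℝ) ^ ⌊x⌋₊ ≤ 2 * Real.exp (-(Real.log 2 * x)) := by
  have h1 : (1 / 2 : ℝ) ^ ⌊x⌋₊ = Real.exp (-(Real.log 2 * ⌊x⌋₊)) := by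
    rw [one_div, inv_pow, ← Real.exp_log (show (0 : ℝ) < 2 ^ ⌊x⌋₊ by positivity), Real.log_pow,
      ← Real.exp_neg]
    congr 1
    ring
  have h2 : (2 : ℝ) = Real.exp (Real.log 2) := (Real.exp_log (by norm_num)).symm
  rw [h1]
  calc Real.exp (-(Real.log 2 * ⌊x⌋₊)) ≤ Real.exp (Real.log 2 + -(Real.log 2 * x)) := by
        refine Real.exp_le_exp.2 ?_
        have h3 := Nat.lt_floor_add_one x
        have h4 : 0 < Real.log 2 := Real.log_pos (by norm_num)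
        nlinarith
    _ = 2 * Real.exp (-(Real.log 2 * x)) := by
        rw [Real.exp_add, ← h2]

theorem BASE (h1 : StmtDBL) (h5 : StmtL5) (hSC : StmtSC) : StmtBASE := by
  intro n d K₀ N hn hd hK hN
  have hd0 : 0 < d := by
    have : (2 : ℝ) ≤ n := by exact_mod_cast hn
    linarith
  obtain ⟨s₁, F, hs₁, hF, hD⟩ := h1 n K₀ N (by omega) hK hN
  obtain ⟨s₂, ε₁, τ₁, hs₂, hε, hτ, hτ8, H⟩ := BASE_step h5 hSC n d F hn hd hF
  obtain ⟨i, hi⟩ := exists_pow_lt_of_lt_one hτ (show (1 / 2 : ℝ) < 1 by norm_num)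
  have hi' : (1 : ℝ) / 2 ^ i ≤ τ₁ := by
    rw [← one_div_pow]
    exact hi.le
  obtain ⟨b₀, hb⟩ : ∃ b₀ : ℝ, b₀ = max 1 (max (-Real.log ε₁) ((i + 1 : ℕ) * Real.log F)) :=
    ⟨_, rfl⟩
  have hb0 : 1 ≤ b₀ := by
    rw [hb]
    exact le_max_left _ _
  have hb1 : Real.exp (-b₀) ≤ ε₁ := by
    have h : -Real.log ε₁ ≤ b₀ := by
      rw [hb]
      exact (le_max_left _ _).trans (le_max_right _ _)
    calc Real.exp (-b₀) ≤ Real.exp (Real.log ε₁) := Real.exp_le_exp.2 (by linarith)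
      _ = ε₁ := Real.exp_log hε
  have hb2 : F ^ (i + 1) ≤ Real.exp b₀ := by
    have h : ((i + 1 : ℕ) : ℝ) * Real.log F ≤ b₀ := by
      rw [hb]
      exact (le_max_right _ _).trans (le_max_right _ _)
    have hF0 : 0 < F := by linarith
    calc F ^ (i + 1) = Real.exp (((i + 1 : ℕ) : ℝ) * Real.log F) := by
          rw [← Real.log_pow, Real.exp_log (by positivity)]
      _ ≤ Real.exp b₀ := Real.exp_le_exp.2 h
  have hl2 : 0 < Real.log 2 := Real.log_pos (by norm_num)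
  refine ⟨min s₁ s₂, 2 * 2 ^ d, Real.log 2 / b₀, lt_min hs₁ hs₂, by positivity, by positivity,
    ?_⟩
  intro A u x₀ l Λ hl hu hA hdb hpos hΛ
  obtain ⟨g1, g2, g3, g4⟩ := hSC n A u x₀ (8 * K₀) l (min s₁ s₂) (min s₁ s₂ / l) hl hu hA
  rw [div_mul_cancel₀ _ hl.ne'] at g2
  have hDu : Dg (fun z => l⁻¹ * u (x₀ + l • z)) 0 1 = Dg u x₀ l := by
    rw [g4, smul_zero, add_zero, mul_one]
  have hdbl := hD _ _ g1 (g2.mono (min_le_left _ _) (min_le_left _ _) subset_rfl)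
    (fun z hz => by
      rw [g4, g4]
      have hz' : x₀ + l • z ∈ closedBall x₀ (2 * l) := by
        rw [mem_closedBall_zero_iff] at hz
        rw [mem_closedBall, dist_eq_norm, add_sub_cancel_left, norm_smul,
          Real.norm_of_nonneg hl.le]
        nlinarith
      have := hdb _ hz'
      rwa [mul_comm (2 * K₀) l, mul_comm K₀ l] at this)
  have hstep : ∀ (c : En n) (r : ℝ), 0 < r → r ≤ 1 → ‖c‖ ≤ 8 / 7 →
      0 < Dg (fun z => l⁻¹ * u (x₀ + l • z)) c r →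
      ∃ t : Finset (En n × ℝ), (∀ p ∈ t, p.1 ∈ closedBall 0 1 ∧ τ₁ ≤ p.2 ∧ p.2 ≤ 1 / 8) ∧
      ∑ p ∈ t, p.2 ^ d ≤ 1 / 2 ∧
      ∀ x ∈ closedBall c r, ‖gradient (fun z => l⁻¹ * u (x₀ + l • z)) x‖ ≤
        ε₁ * Dg (fun z => l⁻¹ * u (x₀ + l • z)) c r →
        ∃ p ∈ t, x ∈ closedBall (c + r • p.1) (r * p.2) := by
    intro c r hr hr1 hc hp
    have hsub : ball c (4 * r) ⊆ ball 0 (8 * K₀) := fun y hy => by
      rw [mem_ball, dist_eq_norm] at hy
      rw [mem_ball_zero_iff]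
      have := norm_add_le (y - c) c
      rw [sub_add_cancel] at this
      linarith
    refine H _ _ c r hr hr1 (g1.mono isOpen_ball hsub)
      (g2.mono (min_le_right _ _) (min_le_right _ _) hsub) ?_ hp
    exact hdbl c (by
      rw [mem_closedBall_zero_iff]
      linarith) r hr hr1
  have hfin := BASE_ind hd0 hF hb1 hb2 (by linarith) hτ hi'
    (g1.mono isOpen_ball (ball_subset_ball (by linarith))) hdbl hstep ⌊Λ / b₀⌋₊ 0 1 Λ one_pos
    (by rw [norm_zero]; norm_num) (by rw [hDu]; exact hpos) (by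
      have := Nat.floor_le (show 0 ≤ Λ / b₀ by positivity)
      rw [← le_div_iff₀ (by linarith)]
      exact this)
  have hdil := BASE_cont_dil hd0 x₀ hl
    {z ∈ closedBall (0 : En n) 1 | ‖gradient (fun z => l⁻¹ * u (x₀ + l • z)) z‖ ≤
      Real.exp (-Λ) * Dg (fun z => l⁻¹ * u (x₀ + l • z)) 0 1}
    {x ∈ closedBall x₀ l | ‖gradient u x‖ ≤ Real.exp (-Λ) * Dg u x₀ l} (fun y hy => by
      obtain ⟨hy1, hy2⟩ := hy
      rw [mem_closedBall, dist_eq_norm] at hy1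
      refine ⟨?_, ?_⟩
      · rw [mem_closedBall_zero_iff, norm_smul, norm_inv, Real.norm_of_nonneg hl.le,
          inv_mul_le_iff₀ hl, mul_one]
        exact hy1
      · rw [g3, hDu, smul_smul, mul_inv_cancel₀ hl.ne', one_smul, add_sub_cancel]
        exact hy2)
  refine hdil.trans ((mul_le_mul_right hfin _).trans ?_)
  rw [← ENNReal.ofReal_mul (by positivity)]
  refine ENNReal.ofReal_le_ofReal ?_
  have h3 := BASE_half_pow (Λ / b₀) (by positivity)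
  have e1 : Real.log 2 * (Λ / b₀) = Real.log 2 / b₀ * Λ := by ring
  rw [e1] at h3
  have h4 : 0 ≤ l ^ d * (2 : ℝ) ^ d := by positivity
  calc l ^ d * ((2 * 1) ^ d * (1 / 2) ^ ⌊Λ / b₀⌋₊) =
      l ^ d * 2 ^ d * (1 / 2) ^ ⌊Λ / b₀⌋₊ := by
        rw [mul_one]
        ring
    _ ≤ l ^ d * 2 ^ d * (2 * Real.exp (-(Real.log 2 / b₀ * Λ))) :=
      mul_le_mul_of_nonneg_left h3 h4
    _ = _ := by ring

end EAGrad

end

section

/-!
MP_ea6116_an, item B2: the Carleman estimate for smooth coefficients and smooth functions.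
-/

set_option autoImplicit false

open MeasureTheory Metric Set Filter Topology
open scoped ENNReal NNReal ContDiff

namespace EAGrad

variable {n : ℕ}

/-! ### calculus -/

theorem carl_coord (v : En n) (i : Fin n) : inner ℝ (ee i) v = v i := by
  rw [ee, EuclideanSpace.inner_single_left]
  simp

theorem carl_grad_coord (f : En n → ℝ) (x : En n) (i : Fin n) :
    gradient f x i = fderiv ℝ f x (ee i) := by
  rw [← carl_coord, real_inner_comm, inner_gradient]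

theorem carl_grad_smooth {f : En n → ℝ} (hf : ContDiff ℝ ∞ f) : ContDiff ℝ ∞ (gradient f) := by
  rw [contDiff_euclidean]
  intro i
  simp only [carl_grad_coord]
  exact (hf.fderiv_right (m := ∞) (by simp)).clm_apply contDiff_const

theorem carl_hess {f : En n → ℝ} (hf : ContDiff ℝ ∞ f) (x ξ η : En n) :
    inner ℝ (fderiv ℝ (gradient f) x ξ) η = D2 f x ξ η := by
  have h1 : (fun y => inner ℝ (gradient f y) η) = fun y => fderiv ℝ f y η := by
    funext y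
    rw [inner_gradient]
  have hg : DifferentiableAt ℝ (gradient f) x :=
    (carl_grad_smooth hf).differentiable (by simp) x
  have hd : DifferentiableAt ℝ (fderiv ℝ f) x :=
    (hf.fderiv_right (m := ∞) (by simp)).differentiable (by simp) x
  have h2 : fderiv ℝ (fun y => inner ℝ (gradient f y) η) x ξ =
      inner ℝ (fderiv ℝ (gradient f) x ξ) η := by
    rw [fderiv_inner_apply ℝ hg (differentiableAt_const η)]
    simp
  rw [← h2, h1, fderiv_clm_apply hd (differentiableAt_const η)]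
  simp [D2]

theorem carl_hess_norm {f : En n → ℝ} (hf : ContDiff ℝ ∞ f) {x : En n} {M : ℝ}
    (h : ‖fderiv ℝ (fderiv ℝ f) x‖ ≤ M) : ‖fderiv ℝ (gradient f) x‖ ≤ M := by
  have hM : 0 ≤ M := le_trans (norm_nonneg (fderiv ℝ (fderiv ℝ f) x)) h
  refine ContinuousLinearMap.opNorm_le_bound _ hM fun ξ => ?_
  set y : En n := fderiv ℝ (gradient f) x ξ with hy
  have h1 : inner ℝ y y = D2 f x ξ y := by
    rw [hy, carl_hess hf]
  have h2 : ‖y‖ * ‖y‖ ≤ M * ‖ξ‖ * ‖y‖ := by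
    rw [← real_inner_self_eq_norm_mul_norm, h1]
    refine (le_abs_self _).trans ?_
    rw [← Real.norm_eq_abs]
    refine ((fderiv ℝ (fderiv ℝ f) x ξ).le_opNorm y).trans ?_
    refine mul_le_mul_of_nonneg_right ?_ (norm_nonneg _)
    exact ((fderiv ℝ (fderiv ℝ f) x).le_opNorm ξ).trans
      (mul_le_mul_of_nonneg_right h (norm_nonneg _))
  rcases (norm_nonneg y).eq_or_lt with h0 | h0
  · rw [← h0]
    positivity
  · exact le_of_mul_le_mul_right h2 h0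

theorem carl_inner_sum (a b : En n) : inner ℝ a b = ∑ i, a i * b i := by
  rw [PiLp.inner_apply]
  refine Finset.sum_congr rfl fun i _ => ?_
  simp [mul_comm]

theorem carl_dv_smul {f : En n → ℝ} {X : En n → En n} {x : En n} (hf : DifferentiableAt ℝ f x)
    (hX : DifferentiableAt ℝ X x) :
    dv (fun y => f y • X y) x = inner ℝ (gradient f x) (X x) + f x * dv X x := by
  unfold dv
  have h1 : ∀ i : Fin n, inner ℝ (ee i) (fderiv ℝ (fun y => f y • X y) x (ee i)) =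
      gradient f x i * X x i + f x * inner ℝ (ee i) (fderiv ℝ X x (ee i)) := by
    intro i
    rw [fderiv_fun_smul hf hX]
    simp only [add_apply, smul_apply,
      ContinuousLinearMap.smulRight_apply, inner_add_right, inner_smul_right]
    rw [carl_coord (X x), carl_grad_coord]
    ring
  simp only [h1]
  rw [Finset.sum_add_distrib, ← Finset.mul_sum, carl_inner_sum]

theorem carl_dv_sub {X Y : En n → En n} {x : En n} (hX : DifferentiableAt ℝ X x)
    (hY : DifferentiableAt ℝ Y x) :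
    dv (fun y => X y - Y y) x = dv X x - dv Y x := by
  unfold dv
  rw [← Finset.sum_sub_distrib]
  refine Finset.sum_congr rfl fun i _ => ?_
  rw [fderiv_fun_sub hX hY, sub_apply, inner_sub_right]

theorem carl_dv_cont {Z : En n → En n} (hZ : ContDiff ℝ ∞ Z) : Continuous (dv Z) := by
  unfold dv
  refine continuous_finsetSum _ fun i _ => ?_
  exact continuous_const.inner ((hZ.continuous_fderiv (by simp)).clm_apply continuous_const)

theorem carl_field_smooth {A : En n → Op n} {f : En n → ℝ} (hA : ContDiff ℝ ∞ A)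
    (hf : ContDiff ℝ ∞ f) : ContDiff ℝ ∞ fun y => A y (gradient f y) :=
  hA.clm_apply (carl_grad_smooth hf)

/-- the gradient of `exp(-τ φ) w` -/
theorem carl_grad_exp {φ w : En n → ℝ} (hφ : ContDiff ℝ ∞ φ) (hw : ContDiff ℝ ∞ w) (τ : ℝ)
    (x : En n) : gradient (fun y => Real.exp (-(τ * φ y)) * w y) x =
      Real.exp (-(τ * φ x)) • (gradient w x - (τ * w x) • gradient φ x) := by
  have dφ : HasFDerivAt φ (fderiv ℝ φ x) x := (hφ.differentiable (by simp) x).hasFDerivAt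
  have dw : HasFDerivAt w (fderiv ℝ w x) x := (hw.differentiable (by simp) x).hasFDerivAt
  have de : HasFDerivAt (fun y => Real.exp (-(τ * φ y)))
      (Real.exp (-(τ * φ x)) • -(τ • fderiv ℝ φ x)) x := ((dφ.const_mul τ).neg).exp
  refine ext_inner_right ℝ fun z => ?_
  rw [inner_gradient, (de.fun_mul dw).fderiv]
  simp only [add_apply, smul_apply, smul_eq_mul,
    neg_apply, inner_smul_left, inner_sub_left, inner_gradient]
  simp only [RCLike.conj_to_real]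
  ring

/-- the conjugated operator -/
theorem carl_conj {A : En n → Op n} {φ w : En n → ℝ} (hA : ContDiff ℝ ∞ A)
    (hφ : ContDiff ℝ ∞ φ) (hw : ContDiff ℝ ∞ w) (τ : ℝ) (x : En n)
    (hs : ∀ ξ η, inner ℝ (A x ξ) η = inner ℝ ξ (A x η)) :
    Real.exp (τ * φ x) * divA A (fun y => Real.exp (-(τ * φ y)) * w y) x =
      divA A w x - 2 * τ * inner ℝ (A x (gradient φ x)) (gradient w x)
        - τ * dv (fun y => A y (gradient φ y)) x * w x
        + τ ^ 2 * inner ℝ (A x (gradient φ x)) (gradient φ x) * w x := by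
  have sZ := carl_field_smooth hA hφ
  have sW := carl_field_smooth hA hw
  have dZ : DifferentiableAt ℝ (fun y => A y (gradient φ y)) x := sZ.differentiable (by simp) x
  have dW : DifferentiableAt ℝ (fun y => A y (gradient w y)) x := sW.differentiable (by simp) x
  have dw : DifferentiableAt ℝ (fun y => τ * w y) x :=
    (contDiff_const.mul hw).differentiable (by simp) x
  have se : ContDiff ℝ ∞ fun y => Real.exp (-(τ * φ y)) :=
    Real.contDiff_exp.comp (contDiff_const.mul hφ).neg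
  have de : DifferentiableAt ℝ (fun y => Real.exp (-(τ * φ y))) x := se.differentiable (by simp) x
  have h1 : (fun y => A y (gradient (fun y => Real.exp (-(τ * φ y)) * w y) y)) =
      fun y => Real.exp (-(τ * φ y)) •
        (A y (gradient w y) - (τ * w y) • A y (gradient φ y)) := by
    funext y
    rw [carl_grad_exp hφ hw, map_smul, map_sub, map_smul]
  have h2 : gradient (fun y => Real.exp (-(τ * φ y))) x =
      (-(τ * Real.exp (-(τ * φ x)))) • gradient φ x := by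
    have dφ : HasFDerivAt φ (fderiv ℝ φ x) x := (hφ.differentiable (by simp) x).hasFDerivAt
    have dee : HasFDerivAt (fun y => Real.exp (-(τ * φ y)))
      (Real.exp (-(τ * φ x)) • -(τ • fderiv ℝ φ x)) x := ((dφ.const_mul τ).neg).exp
    refine ext_inner_right ℝ fun z => ?_
    rw [inner_gradient, dee.fderiv]
    simp only [smul_apply, smul_eq_mul,
      neg_apply, inner_smul_left, inner_gradient]
    simp only [RCLike.conj_to_real]
    ring
  have h3 : gradient (fun y => τ * w y) x = τ • gradient w x := by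
    have dw' : HasFDerivAt w (fderiv ℝ w x) x := (hw.differentiable (by simp) x).hasFDerivAt
    refine ext_inner_right ℝ fun z => ?_
    rw [inner_gradient, (dw'.const_mul τ).fderiv]
    simp only [smul_apply, smul_eq_mul, inner_smul_left, inner_gradient]
    simp only [RCLike.conj_to_real]
  have h4 : divA A (fun y => Real.exp (-(τ * φ y)) * w y) x = Real.exp (-(τ * φ x)) *
      (divA A w x - 2 * τ * inner ℝ (A x (gradient φ x)) (gradient w x)
        - τ * dv (fun y => A y (gradient φ y)) x * w x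
        + τ ^ 2 * inner ℝ (A x (gradient φ x)) (gradient φ x) * w x) := by
    unfold divA
    rw [h1, carl_dv_smul de (dW.fun_sub (dw.fun_smul dZ)), carl_dv_sub dW (dw.fun_smul dZ),
      carl_dv_smul dw dZ, h2, h3]
    have h5 : inner ℝ (gradient φ x) (A x (gradient w x)) =
        inner ℝ (A x (gradient φ x)) (gradient w x) := (hs _ _).symm
    have h6 : inner ℝ (gradient φ x) (A x (gradient φ x)) =
        inner ℝ (A x (gradient φ x)) (gradient φ x) := real_inner_comm _ _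
    have h7 : inner ℝ (gradient w x) (A x (gradient φ x)) =
        inner ℝ (A x (gradient φ x)) (gradient w x) := real_inner_comm _ _
    simp only [inner_smul_left, inner_sub_right, inner_smul_right, RCLike.conj_to_real, h5, h6, h7]
    ring
  rw [h4, ← mul_assoc, ← Real.exp_add, add_neg_cancel, Real.exp_zero, one_mul]

/-! ### pointwise estimates -/

theorem carl_a_sub {a : Op n} {s : ℝ} (ha : ‖a - 1‖ ≤ s) (ξ : En n) : ‖a ξ - ξ‖ ≤ s * ‖ξ‖ := by
  have h1 : a ξ - ξ = (a - 1) ξ := by simp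
  rw [h1]
  exact (a - 1).le_of_opNorm_le ha ξ

theorem carl_a_norm {a : Op n} {s : ℝ} (hs1 : s ≤ 1) (ha : ‖a - 1‖ ≤ s) (ξ : En n) :
    ‖a ξ‖ ≤ 2 * ‖ξ‖ := by
  have h1 := carl_a_sub ha ξ
  have h2 : ‖a ξ‖ ≤ ‖a ξ - ξ‖ + ‖ξ‖ := by
    have := norm_add_le (a ξ - ξ) ξ
    rwa [sub_add_cancel] at this
  have h3 : s * ‖ξ‖ ≤ 1 * ‖ξ‖ := mul_le_mul_of_nonneg_right hs1 (norm_nonneg _)
  linarith

theorem carl_inner_le {u v : En n} {a b : ℝ} (hu : ‖u‖ ≤ a) (hv : ‖v‖ ≤ b) :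
    |inner ℝ u v| ≤ a * b :=
  (abs_real_inner_le_norm u v).trans
    (mul_le_mul hu hv (norm_nonneg _) ((norm_nonneg _).trans hu))

section est

variable {a H : Op n} {A' : En n →L[ℝ] Op n} {p : En n} {s M : ℝ}

theorem carl_trace (hs0 : 0 ≤ s) (ha : ‖a - 1‖ ≤ s) (hA' : ‖A'‖ ≤ s)
    (hH : ‖H‖ ≤ M) (hp : ‖p‖ ≤ M) :
    |∑ i, inner ℝ (ee i) (A' (ee i) p + a (H (ee i))) - ∑ i, inner ℝ (H (ee i)) (ee i)| ≤
      2 * n * s * M := by
  rw [← Finset.sum_sub_distrib]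
  refine (Finset.abs_sum_le_sum_abs _ _).trans ?_
  have h1 : ∀ i : Fin n, |inner ℝ (ee i) (A' (ee i) p + a (H (ee i))) -
      inner ℝ (H (ee i)) (ee i)| ≤ 2 * s * M := by
    intro i
    have he : ‖(ee i : En n)‖ ≤ 1 := by simp [ee]
    have hM : 0 ≤ M := (norm_nonneg _).trans hp
    have h2 : inner ℝ (ee i) (A' (ee i) p + a (H (ee i))) - inner ℝ (H (ee i)) (ee i) =
        inner ℝ (ee i) (A' (ee i) p) + inner ℝ (ee i) (a (H (ee i)) - H (ee i)) := by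
      rw [inner_add_right, inner_sub_right, real_inner_comm (ee i) (H (ee i))]
      ring
    rw [h2]
    have h3 : ‖A' (ee i) p‖ ≤ s * M := by
      refine ((A' (ee i)).le_opNorm p).trans ?_
      have h4 : ‖A' (ee i)‖ ≤ s := by
        refine (A'.le_opNorm _).trans ?_
        calc ‖A'‖ * ‖(ee i : En n)‖ ≤ s * 1 := mul_le_mul hA' he (norm_nonneg _) hs0
          _ = s := mul_one s
      exact mul_le_mul h4 hp (norm_nonneg _) hs0
    have h5 : ‖a (H (ee i)) - H (ee i)‖ ≤ s * M := by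
      refine (carl_a_sub ha _).trans (mul_le_mul_of_nonneg_left ?_ hs0)
      refine (H.le_opNorm _).trans ?_
      calc ‖H‖ * ‖(ee i : En n)‖ ≤ M * 1 := mul_le_mul hH he (norm_nonneg _) hM
        _ = M := mul_one M
    have h6 := carl_inner_le he h3
    have h7 := carl_inner_le he h5
    calc _ ≤ |inner ℝ (ee i) (A' (ee i) p)| + |inner ℝ (ee i) (a (H (ee i)) - H (ee i))| :=
          abs_add_le _ _
      _ ≤ 2 * s * M := by linarith
  calc _ ≤ ∑ _i : Fin n, 2 * s * M := Finset.sum_le_sum fun i _ => h1 i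
    _ = 2 * n * s * M := by
        rw [Finset.sum_const, Finset.card_univ, Fintype.card_fin, nsmul_eq_mul]
        ring

theorem carl_Q1 (hs0 : 0 ≤ s) (hs1 : s ≤ 1) (ha : ‖a - 1‖ ≤ s) (hA' : ‖A'‖ ≤ s)
    (hH : ‖H‖ ≤ M) (hp : ‖p‖ ≤ M) {β g w : ℝ} {b : En n} (hβ : |β - 2 * g| ≤ 2 * n * s * M)
    (hg : |g| ≤ M) (hb : ‖b‖ ≤ M) (ξ : En n) :
    2 * (inner ℝ (H ξ) ξ + g * ‖ξ‖ ^ 2) - s * M * (14 + 4 * n) * ‖ξ‖ ^ 2 - 2 * M * |w| * ‖ξ‖ ≤
      2 * inner ℝ (A' (a ξ) p + a (H (a ξ))) ξ + β * inner ℝ (a ξ) ξ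
        - inner ℝ (A' (a p) ξ) ξ + w * inner ℝ (a ξ) b := by
  have hM : 0 ≤ M := (norm_nonneg _).trans hp
  have hξ : 0 ≤ ‖ξ‖ := norm_nonneg _
  have naξ := carl_a_norm hs1 ha ξ
  have h1 : |inner ℝ (A' (a ξ) p) ξ| ≤ (s * (2 * ‖ξ‖) * M) * ‖ξ‖ := by
    refine carl_inner_le ?_ le_rfl
    refine ((A' (a ξ)).le_opNorm p).trans ?_
    refine mul_le_mul ?_ hp (norm_nonneg _) (by positivity)
    exact (A'.le_opNorm _).trans (mul_le_mul hA' naξ (norm_nonneg _) hs0)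
  have h2 : |inner ℝ (a (H (a ξ)) - H (a ξ)) ξ| ≤ (s * (M * (2 * ‖ξ‖))) * ‖ξ‖ := by
    refine carl_inner_le ?_ le_rfl
    refine (carl_a_sub ha _).trans (mul_le_mul_of_nonneg_left ?_ hs0)
    exact (H.le_opNorm _).trans (mul_le_mul hH naξ (norm_nonneg _) hM)
  have h3 : |inner ℝ (H (a ξ - ξ)) ξ| ≤ (M * (s * ‖ξ‖)) * ‖ξ‖ := by
    refine carl_inner_le ?_ le_rfl
    exact (H.le_opNorm _).trans (mul_le_mul hH (carl_a_sub ha ξ) (norm_nonneg _) hM)
  have h4 : |inner ℝ (a ξ - ξ) ξ| ≤ (s * ‖ξ‖) * ‖ξ‖ := carl_inner_le (carl_a_sub ha ξ) le_rfl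
  have h5 : |inner ℝ (a ξ) ξ| ≤ (2 * ‖ξ‖) * ‖ξ‖ := carl_inner_le naξ le_rfl
  have h6 : |inner ℝ (A' (a p) ξ) ξ| ≤ (s * (2 * M) * ‖ξ‖) * ‖ξ‖ := by
    refine carl_inner_le ?_ le_rfl
    refine ((A' (a p)).le_opNorm ξ).trans ?_
    refine mul_le_mul_of_nonneg_right ?_ hξ
    refine (A'.le_opNorm _).trans (mul_le_mul hA' ?_ (norm_nonneg _) hs0)
    exact (carl_a_norm hs1 ha p).trans (by linarith)
  have h7 : |inner ℝ (a ξ) b| ≤ (2 * ‖ξ‖) * M := carl_inner_le naξ hb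
  have e1 : inner ℝ (A' (a ξ) p + a (H (a ξ))) ξ = inner ℝ (A' (a ξ) p) ξ +
      inner ℝ (a (H (a ξ)) - H (a ξ)) ξ + inner ℝ (H (a ξ - ξ)) ξ + inner ℝ (H ξ) ξ := by
    rw [map_sub]
    simp only [inner_add_left, inner_sub_left]
    ring
  have e2 : inner ℝ (a ξ) ξ = inner ℝ (a ξ - ξ) ξ + ‖ξ‖ ^ 2 := by
    rw [inner_sub_left, real_inner_self_eq_norm_sq]
    ring
  have k1 : |(β - 2 * g) * inner ℝ (a ξ) ξ| ≤ (2 * n * s * M) * ((2 * ‖ξ‖) * ‖ξ‖) := by
    rw [abs_mul]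
    exact mul_le_mul hβ h5 (abs_nonneg _) (by positivity)
  have k2 : |2 * g * inner ℝ (a ξ - ξ) ξ| ≤ (2 * M) * ((s * ‖ξ‖) * ‖ξ‖) := by
    rw [abs_mul, abs_mul, abs_two]
    exact mul_le_mul (by linarith) h4 (abs_nonneg _) (by positivity)
  have k3 : |w * inner ℝ (a ξ) b| ≤ |w| * ((2 * ‖ξ‖) * M) := by
    rw [abs_mul]
    exact mul_le_mul_of_nonneg_left h7 (abs_nonneg _)
  have e3 : β * inner ℝ (a ξ) ξ = (β - 2 * g) * inner ℝ (a ξ) ξ +
      2 * g * inner ℝ (a ξ - ξ) ξ + 2 * g * ‖ξ‖ ^ 2 := by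
    have : 2 * g * inner ℝ (a ξ) ξ = 2 * g * (inner ℝ (a ξ - ξ) ξ + ‖ξ‖ ^ 2) := by rw [← e2]
    linarith
  rw [e1, e3]
  have l1 := neg_le_of_abs_le h1
  have l2 := neg_le_of_abs_le h2
  have l3 := neg_le_of_abs_le h3
  have l4 := neg_le_of_abs_le k1
  have l5 := neg_le_of_abs_le k2
  have l6 := le_of_abs_le h6
  have l7 := neg_le_of_abs_le k3
  nlinarith [l1, l2, l3, l4, l5, l6, l7]

theorem carl_Q2 (hs0 : 0 ≤ s) (hs1 : s ≤ 1) (ha : ‖a - 1‖ ≤ s) (hA' : ‖A'‖ ≤ s)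
    (hH : ‖H‖ ≤ M) (hp : ‖p‖ ≤ M) (hsym : ∀ ξ η, inner ℝ (a ξ) η = inner ℝ ξ (a η))
    {β g : ℝ} (hβ : |β - 2 * g| ≤ 2 * n * s * M) (hg : |g| ≤ M) :
    2 * (inner ℝ (H p) p - g * ‖p‖ ^ 2) - s * M ^ 3 * (10 + 4 * n) ≤
      (inner ℝ (A' (a p) p + a (H (a p))) p + inner ℝ (a p) (H (a p)))
        - inner ℝ (a p) p * β := by
  have hM : 0 ≤ M := (norm_nonneg _).trans hp
  have nap : ‖a p‖ ≤ 2 * M := (carl_a_norm hs1 ha p).trans (by linarith)
  have nsub : ‖a p - p‖ ≤ s * M := (carl_a_sub ha p).trans (mul_le_mul_of_nonneg_left hp hs0)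
  have h1 : |inner ℝ (A' (a p) p) p| ≤ (s * (2 * M) * M) * M := by
    refine carl_inner_le ?_ hp
    refine ((A' (a p)).le_opNorm p).trans ?_
    refine mul_le_mul ?_ hp (norm_nonneg _) (by positivity)
    exact (A'.le_opNorm _).trans (mul_le_mul hA' nap (norm_nonneg _) hs0)
  have h2 : |inner ℝ (H (a p - p)) (a p)| ≤ (M * (s * M)) * (2 * M) :=
    carl_inner_le ((H.le_opNorm _).trans (mul_le_mul hH nsub (norm_nonneg _) hM)) nap
  have h3 : |inner ℝ (H p) (a p - p)| ≤ (M * M) * (s * M) :=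
    carl_inner_le ((H.le_opNorm _).trans (mul_le_mul hH hp (norm_nonneg _) hM)) nsub
  have h4 : |inner ℝ (a p - p) p| ≤ (s * M) * M := carl_inner_le nsub hp
  have h5 : |inner ℝ (a p) p| ≤ (2 * M) * M := carl_inner_le nap hp
  have e1 : inner ℝ (a (H (a p))) p = inner ℝ (H (a p)) (a p) := hsym _ _
  have e2 : inner ℝ (a p) (H (a p)) = inner ℝ (H (a p)) (a p) := real_inner_comm _ _
  have e3 : inner ℝ (H (a p)) (a p) = inner ℝ (H (a p - p)) (a p) + inner ℝ (H p) (a p - p) +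
      inner ℝ (H p) p := by
    rw [map_sub]
    simp only [inner_sub_left, inner_sub_right]
    ring
  have e4 : inner ℝ (a p) p = inner ℝ (a p - p) p + ‖p‖ ^ 2 := by
    rw [inner_sub_left, real_inner_self_eq_norm_sq]
    ring
  have k1 : |inner ℝ (a p) p * (β - 2 * g)| ≤ ((2 * M) * M) * (2 * n * s * M) := by
    rw [abs_mul]
    exact mul_le_mul h5 hβ (abs_nonneg _) (by positivity)
  have k2 : |2 * g * inner ℝ (a p - p) p| ≤ (2 * M) * ((s * M) * M) := by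
    rw [abs_mul, abs_mul, abs_two]
    exact mul_le_mul (by linarith) h4 (abs_nonneg _) (by positivity)
  have e5 : inner ℝ (a p) p * β = inner ℝ (a p) p * (β - 2 * g) +
      2 * g * inner ℝ (a p - p) p + 2 * g * ‖p‖ ^ 2 := by
    have : 2 * g * inner ℝ (a p) p = 2 * g * (inner ℝ (a p - p) p + ‖p‖ ^ 2) := by rw [← e4]
    linarith
  rw [e5, inner_add_left, e1, e2, e3]
  have l1 := neg_le_of_abs_le h1
  have l2 := neg_le_of_abs_le h2
  have l3 := neg_le_of_abs_le h3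
  have l4 := le_of_abs_le k1
  have l5 := le_of_abs_le k2
  nlinarith [l1, l2, l3, l4, l5]

end est

/-! ### outside the support -/

theorem carl_supp {v : En n → ℝ} (A : En n → Op n) {x : En n} (hx : x ∉ tsupport v) :
    v x = 0 ∧ gradient v x = 0 ∧ divA A v x = 0 := by
  have h0 : v =ᶠ[𝓝 x] fun _ => 0 := notMem_tsupport_iff_eventuallyEq.1 hx
  have h1 : ∀ᶠ y in 𝓝 x, gradient v y = 0 := by
    filter_upwards [eventually_eventually_nhds.2 h0] with y hy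
    have h2 : v =ᶠ[𝓝 y] fun _ => 0 := hy
    rw [gradient, h2.fderiv_eq]
    simp
  refine ⟨h0.eq_of_nhds, h1.self_of_nhds, ?_⟩
  unfold divA dv
  have h3 : (fun y => A y (gradient v y)) =ᶠ[𝓝 x] fun _ => 0 := by
    filter_upwards [h1] with y hy
    rw [hy, map_zero]
  rw [h3.fderiv_eq]
  simp

/-- real arithmetic at a point -/
theorem carl_arith {M c s n' τ X w Lw S0 K Q1 Q2 β F1 F2 dq : ℝ} (hM : 0 < M) (hc : 0 < c)
    (hτ1 : 1 ≤ τ)
    (hs1 : s * (M * (14 + 4 * n')) ≤ c / 2) (hs2 : s * (M ^ 3 * (10 + 4 * n')) ≤ c)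
    (hτ : 4 * M ^ 2 / c + (2 * M + 2 * n' * M) ^ 2 ≤ c * τ)
    (hβ : |β| ≤ 2 * M + 2 * n' * M)
    (hQ1 : 2 * c * X ^ 2 - s * M * (14 + 4 * n') * X ^ 2 - 2 * M * |w| * X ≤ Q1)
    (hQ2 : 2 * c - s * M ^ 3 * (10 + 4 * n') ≤ Q2)
    (hK : K = -τ * dq) (hL : Lw = S0 + K + τ * (β * w))
    (hF : 2 * τ * F1 + 2 * τ ^ 3 * F2 = 2 * τ * Q1 + 2 * τ ^ 3 * (Q2 * w ^ 2) + 2 * τ * (S0 * dq)) :
    2 * c * τ * X ^ 2 + c * τ ^ 3 * w ^ 2 ≤ Lw ^ 2 + 2 * τ * F1 + 2 * τ ^ 3 * F2 := by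
  have hτ0 : 0 < τ := by linarith
  have a1 : Lw ^ 2 ≥ 2 * S0 * K - τ ^ 2 * (β * w) ^ 2 := by
    rw [hL]
    nlinarith [sq_nonneg (S0 + τ * (β * w)), sq_nonneg (K + τ * (β * w))]
  have a2 : 2 * S0 * K = -(2 * τ * (S0 * dq)) := by rw [hK]; ring
  have hβ2 : β ^ 2 ≤ (2 * M + 2 * n' * M) ^ 2 := by
    rw [← sq_abs]
    exact pow_le_pow_left₀ (abs_nonneg _) hβ 2
  have a3 : (β * w) ^ 2 ≤ (2 * M + 2 * n' * M) ^ 2 * w ^ 2 := by
    rw [mul_pow]
    exact mul_le_mul_of_nonneg_right hβ2 (sq_nonneg _)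
  have a4 : 2 * M * |w| * X ≤ c / 2 * X ^ 2 + 2 * M ^ 2 / c * w ^ 2 := by
    have h1 : 0 ≤ (c * X - 2 * M * |w|) ^ 2 := sq_nonneg _
    have h2 : 2 * M ^ 2 / c * w ^ 2 = (2 * M ^ 2 * w ^ 2) / c := by ring
    rw [h2, ← sub_nonneg]
    have h3 : c / 2 * X ^ 2 + 2 * M ^ 2 * w ^ 2 / c - 2 * M * |w| * X =
        (c * X - 2 * M * |w|) ^ 2 / (2 * c) := by
      field_simp
      rw [← sq_abs w]
      ring
    rw [h3]
    positivity
  have a5 : c * X ^ 2 - 2 * M ^ 2 / c * w ^ 2 ≤ Q1 := by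
    have h1 : s * M * (14 + 4 * n') * X ^ 2 ≤ c / 2 * X ^ 2 := by
      have := mul_le_mul_of_nonneg_right hs1 (sq_nonneg X)
      linarith
    linarith
  have a6 : c ≤ Q2 := by
    have : s * M ^ 3 * (10 + 4 * n') ≤ c := by linarith
    linarith
  have a7 : 2 * τ * (c * X ^ 2 - 2 * M ^ 2 / c * w ^ 2) ≤ 2 * τ * Q1 :=
    mul_le_mul_of_nonneg_left a5 (by positivity)
  have a8 : 2 * τ ^ 3 * (c * w ^ 2) ≤ 2 * τ ^ 3 * (Q2 * w ^ 2) :=
    mul_le_mul_of_nonneg_left (mul_le_mul_of_nonneg_right a6 (sq_nonneg _)) (by positivity)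
  have a9 : τ ^ 2 * (β * w) ^ 2 ≤ τ ^ 2 * ((2 * M + 2 * n' * M) ^ 2 * w ^ 2) :=
    mul_le_mul_of_nonneg_left a3 (by positivity)
  have a10 : 4 * M ^ 2 / c * τ * w ^ 2 + (2 * M + 2 * n' * M) ^ 2 * τ ^ 2 * w ^ 2 ≤
      c * τ ^ 3 * w ^ 2 := by
    have h1 : 4 * M ^ 2 / c * τ ≤ 4 * M ^ 2 / c * τ ^ 2 := by
      refine mul_le_mul_of_nonneg_left ?_ (by positivity)
      nlinarith
    have h2 : (4 * M ^ 2 / c + (2 * M + 2 * n' * M) ^ 2) * τ ^ 2 ≤ c * τ * τ ^ 2 :=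
      mul_le_mul_of_nonneg_right hτ (by positivity)
    have h3 : 4 * M ^ 2 / c * τ + (2 * M + 2 * n' * M) ^ 2 * τ ^ 2 ≤ c * τ ^ 3 := by
      calc _ ≤ (4 * M ^ 2 / c + (2 * M + 2 * n' * M) ^ 2) * τ ^ 2 := by linarith
        _ ≤ c * τ * τ ^ 2 := h2
        _ = c * τ ^ 3 := by ring
    calc _ = (4 * M ^ 2 / c * τ + (2 * M + 2 * n' * M) ^ 2 * τ ^ 2) * w ^ 2 := by ring
      _ ≤ _ := mul_le_mul_of_nonneg_right h3 (sq_nonneg _)
  have a11 : 2 * τ * (2 * M ^ 2 / c * w ^ 2) = 4 * M ^ 2 / c * τ * w ^ 2 := by ring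
  nlinarith [a1, a2, a7, a8, a9, a10, a11, hF]

/-- the pointwise inequality -/
theorem carl_point {A : En n → Op n} {φ B g v : En n → ℝ} {D : Set (En n)} {M c s τ : ℝ}
    (hM : 0 < M) (hc : 0 < c) (hs0 : 0 ≤ s) (hs1 : s ≤ 1) (hτ1 : 1 ≤ τ)
    (hsa : s * (M * (14 + 4 * n)) ≤ c / 2) (hsb : s * (M ^ 3 * (10 + 4 * n)) ≤ c)
    (hτ : 4 * M ^ 2 / c + (2 * M + 2 * n * M) ^ 2 ≤ c * τ)
    (hφ : ContDiff ℝ ∞ φ) (hv : ContDiff ℝ ∞ v) (hA : ContDiff ℝ ∞ A)
    (hcw : CW M c D φ B g) {x : En n} (hx : x ∈ D)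
    (hsym : ∀ ξ η, inner ℝ (A x ξ) η = inner ℝ ξ (A x η)) (ha : ‖A x - 1‖ ≤ s)
    (hA' : ‖fderiv ℝ A x‖ ≤ s)
    (w : En n → ℝ) (hw : w = fun y => Real.exp (τ * φ y) * v y)
    (Z : En n → En n) (hZ : Z = fun y => A y (gradient φ y))
    (q : En n → ℝ) (hq : q = fun y => inner ℝ (A y (gradient φ y)) (gradient φ y)) :
    τ * (Real.exp (2 * τ * φ x) * ‖gradient v x‖ ^ 2) +
      τ ^ 3 * (Real.exp (2 * τ * φ x) * v x ^ 2) ≤
    (2 + 2 * M ^ 2) / c * (Real.exp (2 * τ * φ x) * divA A v x ^ 2 +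
      2 * τ * (divA A w x * (2 * inner ℝ (Z x) (gradient w x) + B x * w x)
      + 2 * inner ℝ (fderiv ℝ Z x (A x (gradient w x))) (gradient w x)
      + (B x - dv Z x) * inner ℝ (A x (gradient w x)) (gradient w x)
      - inner ℝ (fderiv ℝ A x (Z x) (gradient w x)) (gradient w x)
      + w x * inner ℝ (A x (gradient w x)) (gradient B x)) +
      2 * τ ^ 3 * (q x * w x * (2 * inner ℝ (Z x) (gradient w x) + B x * w x)
      + (inner ℝ (Z x) (gradient q x) - q x * (B x - dv Z x)) * w x ^ 2)) := by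
  have sw : ContDiff ℝ ∞ w := by
    rw [hw]
    exact (Real.contDiff_exp.comp (contDiff_const.mul hφ)).mul hv
  have hvw : v = fun y => Real.exp (-(τ * φ y)) * w y := by
    funext y
    rw [hw]
    simp only
    rw [← mul_assoc, ← Real.exp_add, neg_add_cancel, Real.exp_zero, one_mul]
  have hsq : Real.exp (2 * τ * φ x) = Real.exp (τ * φ x) ^ 2 := by
    rw [← Real.exp_nat_mul]
    congr 1
    push_cast
    ring
  -- data at the point
  set p : En n := gradient φ x with hp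
  set H : Op n := fderiv ℝ (gradient φ) x with hH
  have nH : ‖H‖ ≤ M := carl_hess_norm hφ (hcw.bd2 x hx)
  have np : ‖p‖ ≤ M := by
    rw [hp, norm_gradient]
    exact hcw.bd1 x hx
  have nb : ‖gradient B x‖ ≤ M := by
    rw [norm_gradient]
    exact hcw.bdB x hx
  have sφ := carl_grad_smooth hφ
  have dG : DifferentiableAt ℝ (gradient φ) x := sφ.differentiable (by simp) x
  have dA : DifferentiableAt ℝ A x := hA.differentiable (by simp) x
  have hfZ : ∀ ξ, fderiv ℝ Z x ξ = fderiv ℝ A x ξ p + A x (H ξ) := by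
    intro ξ
    rw [hZ, fderiv_clm_apply dA dG]
    simp only [add_apply, ContinuousLinearMap.comp_apply, ContinuousLinearMap.flip_apply]
    rw [add_comm]
  have hdv : dv Z x = ∑ i, inner ℝ (ee i) (fderiv ℝ A x (ee i) p + A x (H (ee i))) := by
    unfold dv
    refine Finset.sum_congr rfl fun i _ => ?_
    rw [hfZ]
  have hlap : lap φ x = ∑ i, inner ℝ (H (ee i)) (ee i) := by
    unfold lap
    refine Finset.sum_congr rfl fun i _ => ?_
    rw [hH, carl_hess hφ]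
  have htr := carl_trace (a := A x) (H := H) (A' := fderiv ℝ A x) (p := p) hs0 ha hA' nH np
  rw [← hdv, ← hlap] at htr
  have hβ : |(B x - dv Z x) - 2 * g x| ≤ 2 * n * s * M := by
    have : (B x - dv Z x) - 2 * g x = -(dv Z x - lap φ x) := by
      rw [hcw.eqB x hx]
      ring
    rw [this, abs_neg]
    exact htr
  have hg := hcw.bdg x hx
  have hβ' : |B x - dv Z x| ≤ 2 * M + 2 * n * M := by
    have h1 : B x - dv Z x = ((B x - dv Z x) - 2 * g x) + 2 * g x := by ring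
    have hn0 : (0 : ℝ) ≤ n := Nat.cast_nonneg n
    calc |B x - dv Z x| ≤ |(B x - dv Z x) - 2 * g x| + |2 * g x| := by
          rw [h1]
          exact (abs_add_le _ _).trans (by rw [← h1])
      _ ≤ 2 * n * s * M + 2 * M := by
          rw [abs_mul, abs_two]
          linarith
      _ ≤ 2 * M + 2 * n * M := by
          have : 2 * n * s * M ≤ 2 * n * 1 * M := by gcongr
          linarith
  -- the two quadratic forms
  have hQ1 := carl_Q1 (a := A x) (H := H) (A' := fderiv ℝ A x) (p := p) hs0 hs1 ha hA' nH np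
    (w := w x) hβ hg nb (gradient w x)
  have hQ2 := carl_Q2 (a := A x) (H := H) (A' := fderiv ℝ A x) (p := p) hs0 hs1 ha hA' nH np
    hsym hβ hg
  have hh1 := hcw.h1 x hx (gradient w x)
  have hh2 := hcw.h2 x hx
  rw [← carl_hess hφ] at hh1 hh2
  rw [← hH] at hh1 hh2
  rw [← hp] at hh2
  have hZx : Z x = A x p := by rw [hZ]
  have hqx : q x = inner ℝ (A x p) p := by rw [hq]
  have hgq : inner ℝ (Z x) (gradient q x) =
      inner ℝ (fderiv ℝ A x (A x p) p + A x (H (A x p))) p + inner ℝ (A x p) (H (A x p)) := by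
    rw [real_inner_comm, inner_gradient]
    have dZ : DifferentiableAt ℝ (fun y => A y (gradient φ y)) x := dA.clm_apply dG
    rw [hq, fderiv_inner_apply ℝ dZ dG]
    have h1 : fderiv ℝ (fun y => A y (gradient φ y)) x (Z x) =
        fderiv ℝ A x (A x p) p + A x (H (A x p)) := by
      rw [← hZ, hfZ, hZx]
    rw [h1, hZx, ← hH]
    ring
  -- arithmetic
  have key := carl_arith (M := M) (c := c) (s := s) (n' := n) (τ := τ) (X := ‖gradient w x‖)
    (w := w x)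
    (Lw := divA A w x - 2 * τ * inner ℝ (Z x) (gradient w x) - τ * dv Z x * w x
      + τ ^ 2 * q x * w x)
    (S0 := divA A w x + τ ^ 2 * q x * w x)
    (K := -τ * (2 * inner ℝ (Z x) (gradient w x) + B x * w x))
    (Q1 := 2 * inner ℝ (fderiv ℝ Z x (A x (gradient w x))) (gradient w x)
      + (B x - dv Z x) * inner ℝ (A x (gradient w x)) (gradient w x)
      - inner ℝ (fderiv ℝ A x (Z x) (gradient w x)) (gradient w x)
      + w x * inner ℝ (A x (gradient w x)) (gradient B x))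
    (Q2 := inner ℝ (Z x) (gradient q x) - q x * (B x - dv Z x))
    (β := B x - dv Z x)
    (F1 := divA A w x * (2 * inner ℝ (Z x) (gradient w x) + B x * w x)
      + 2 * inner ℝ (fderiv ℝ Z x (A x (gradient w x))) (gradient w x)
      + (B x - dv Z x) * inner ℝ (A x (gradient w x)) (gradient w x)
      - inner ℝ (fderiv ℝ A x (Z x) (gradient w x)) (gradient w x)
      + w x * inner ℝ (A x (gradient w x)) (gradient B x))
    (F2 := q x * w x * (2 * inner ℝ (Z x) (gradient w x) + B x * w x)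
      + (inner ℝ (Z x) (gradient q x) - q x * (B x - dv Z x)) * w x ^ 2)
    (dq := 2 * inner ℝ (Z x) (gradient w x) + B x * w x)
    hM hc hτ1 hsa hsb hτ hβ'
    (by
      rw [hfZ, hZx]
      refine le_trans ?_ hQ1
      linarith)
    (by
      rw [hgq, hqx]
      refine le_trans ?_ hQ2
      linarith)
    rfl (by ring) (by ring)
  -- the conjugated function
  have hcj := carl_conj hA hφ sw τ x hsym
  rw [← hvw] at hcj
  have hcj2 : Real.exp (2 * τ * φ x) * divA A v x ^ 2 =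
      (divA A w x - 2 * τ * inner ℝ (Z x) (gradient w x) - τ * dv Z x * w x
      + τ ^ 2 * q x * w x) ^ 2 := by
    rw [hsq, ← mul_pow, hcj, hZ, hq]
  have hgr : Real.exp (2 * τ * φ x) * ‖gradient v x‖ ^ 2 =
      ‖gradient w x - (τ * w x) • p‖ ^ 2 := by
    have h1 : Real.exp (τ * φ x) * ‖gradient v x‖ = ‖gradient w x - (τ * w x) • p‖ := by
      have h2 := carl_grad_exp hφ sw τ x
      rw [← hvw] at h2
      rw [h2, norm_smul, Real.norm_eq_abs, abs_of_pos (Real.exp_pos _), ← mul_assoc,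
        ← Real.exp_add, add_neg_cancel, Real.exp_zero, one_mul]
    rw [hsq, ← mul_pow, h1]
  have hvx : Real.exp (2 * τ * φ x) * v x ^ 2 = w x ^ 2 := by
    rw [hsq, ← mul_pow, hw]
  rw [hcj2, hgr, hvx]
  have hτ0 : 0 < τ := by linarith
  have hnorm : ‖gradient w x - (τ * w x) • p‖ ^ 2 ≤
      2 * ‖gradient w x‖ ^ 2 + 2 * τ ^ 2 * M ^ 2 * w x ^ 2 := by
    have h1 : ‖gradient w x - (τ * w x) • p‖ ≤ ‖gradient w x‖ + τ * |w x| * M := by
      refine (norm_sub_le _ _).trans ?_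
      rw [norm_smul, Real.norm_eq_abs, abs_mul, abs_of_pos hτ0]
      gcongr
    have h2 : ‖gradient w x - (τ * w x) • p‖ ^ 2 ≤ (‖gradient w x‖ + τ * |w x| * M) ^ 2 :=
      pow_le_pow_left₀ (norm_nonneg _) h1 2
    have h3 : (τ * |w x| * M) ^ 2 = τ ^ 2 * M ^ 2 * w x ^ 2 := by
      rw [mul_pow, mul_pow, sq_abs]
      ring
    nlinarith [sq_nonneg (‖gradient w x‖ - τ * |w x| * M)]
  have hfin : τ * ‖gradient w x - (τ * w x) • p‖ ^ 2 + τ ^ 3 * w x ^ 2 ≤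
      (2 + 2 * M ^ 2) / c * (2 * c * τ * ‖gradient w x‖ ^ 2 + c * τ ^ 3 * w x ^ 2) := by
    have h1 : (2 + 2 * M ^ 2) / c * (2 * c * τ * ‖gradient w x‖ ^ 2 + c * τ ^ 3 * w x ^ 2) =
        (2 + 2 * M ^ 2) * (2 * τ * ‖gradient w x‖ ^ 2 + τ ^ 3 * w x ^ 2) := by
      field_simp
    rw [h1]
    have h2 := mul_le_mul_of_nonneg_left hnorm hτ0.le
    have h3 : 0 ≤ τ * ‖gradient w x‖ ^ 2 := by positivity
    have h4 : 0 ≤ τ ^ 3 * w x ^ 2 := by positivity
    have h5 : 0 ≤ M ^ 2 * (τ * ‖gradient w x‖ ^ 2) := by positivity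
    nlinarith [h2, h3, h4, h5]
  refine hfin.trans (mul_le_mul_of_nonneg_left ?_ (by positivity))
  exact key

/-- B2: the Carleman estimate. -/
theorem CARL (hCID : StmtCID) : StmtCARL := by
  intro n M c hM hc
  have hn0 : (0 : ℝ) ≤ n := Nat.cast_nonneg n
  set C1 : ℝ := M * (14 + 4 * n) with hC1
  set C2 : ℝ := M ^ 3 * (10 + 4 * n) with hC2
  have hC1p : 0 < C1 := by positivity
  have hC2p : 0 < C2 := by positivity
  set s₀ : ℝ := min 1 (min (c / (2 * C1)) (c / C2)) with hs₀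
  have hs₀p : 0 < s₀ := by
    rw [hs₀]
    refine lt_min one_pos (lt_min ?_ ?_) <;> positivity
  have hs1 : s₀ ≤ 1 := min_le_left _ _
  have hsa : s₀ * C1 ≤ c / 2 := by
    have h1 : s₀ ≤ c / (2 * C1) := (min_le_right _ _).trans (min_le_left _ _)
    calc s₀ * C1 ≤ c / (2 * C1) * C1 := mul_le_mul_of_nonneg_right h1 hC1p.le
      _ = c / 2 := by field_simp
  have hsb : s₀ * C2 ≤ c := by
    have h1 : s₀ ≤ c / C2 := (min_le_right _ _).trans (min_le_right _ _)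
    calc s₀ * C2 ≤ c / C2 * C2 := mul_le_mul_of_nonneg_right h1 hC2p.le
      _ = c := by field_simp
  set τ₀ : ℝ := max 1 ((4 * M ^ 2 / c + (2 * M + 2 * n * M) ^ 2) / c) with hτ₀
  refine ⟨s₀, τ₀, (2 + 2 * M ^ 2) / c, hs₀p, lt_of_lt_of_le one_pos (le_max_left _ _),
    by positivity, ?_⟩
  intro D φ B g v A τ hD hφ hB hv hA hcv hvD hcw hsym hcl hli hτ
  have hτ1 : 1 ≤ τ := (le_max_left _ _).trans hτ
  have hτ0 : 0 < τ := by linarith
  have hτ2 : 4 * M ^ 2 / c + (2 * M + 2 * n * M) ^ 2 ≤ c * τ := by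
    have h1 := (le_max_right _ _).trans hτ
    rw [div_le_iff₀ hc] at h1
    linarith
  -- the conjugated objects
  set w : En n → ℝ := fun y => Real.exp (τ * φ y) * v y with hw
  set Z : En n → En n := fun y => A y (gradient φ y) with hZ
  set q : En n → ℝ := fun y => inner ℝ (A y (gradient φ y)) (gradient φ y) with hq
  have sw : ContDiff ℝ ∞ w := (Real.contDiff_exp.comp (contDiff_const.mul hφ)).mul hv
  have sφ := carl_grad_smooth hφ
  have sZ : ContDiff ℝ ∞ Z := carl_field_smooth hA hφ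
  have sq' : ContDiff ℝ ∞ q := sZ.inner ℝ sφ
  have hwv : tsupport w ⊆ tsupport v := closure_mono fun x hx h0 => by
    apply hx
    rw [hw]
    simp only
    rw [h0, mul_zero]
  have cw : HasCompactSupport w := HasCompactSupport.of_support_subset_isCompact hcv
    ((subset_tsupport _).trans hwv)
  obtain ⟨hI1, hI2⟩ := hCID n A Z B q w hA sZ hB sq' sw cw
    fun x hx => hsym x (hvD (hwv hx))
  -- integrability
  have hK : IsCompact (tsupport v) := hcv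
  have c1 : Continuous (gradient w) := (carl_grad_smooth sw).continuous
  have c2 : Continuous (gradient v) := (carl_grad_smooth hv).continuous
  have c3 : Continuous (divA A w) := carl_dv_cont (carl_field_smooth hA sw)
  have c4 : Continuous (divA A v) := carl_dv_cont (carl_field_smooth hA hv)
  have c5 : Continuous (dv Z) := carl_dv_cont sZ
  have c6 : Continuous (gradient B) := (carl_grad_smooth hB).continuous
  have c7 : Continuous (gradient q) := (carl_grad_smooth sq').continuous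
  have cA : Continuous A := hA.continuous
  have cZ : Continuous Z := sZ.continuous
  have cB : Continuous B := hB.continuous
  have cq : Continuous q := sq'.continuous
  have cww : Continuous w := sw.continuous
  have cvv : Continuous v := hv.continuous
  have cAw : Continuous fun x => A x (gradient w x) := cA.clm_apply c1
  have cfZ : Continuous fun x => fderiv ℝ Z x (A x (gradient w x)) :=
    (sZ.continuous_fderiv (by simp)).clm_apply cAw
  have cfA : Continuous fun x => fderiv ℝ A x (Z x) (gradient w x) :=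
    ((hA.continuous_fderiv (by simp)).clm_apply cZ).clm_apply c1
  have ce : Continuous fun x => Real.exp (2 * τ * φ x) :=
    Real.continuous_exp.comp (continuous_const.mul hφ.continuous)
  have i1 : Integrable fun x => Real.exp (2 * τ * φ x) * ‖gradient v x‖ ^ 2 := by
    refine (ce.mul (c2.norm.pow 2)).integrable_of_hasCompactSupport
      (HasCompactSupport.intro hK fun x hx => ?_)
    simp [(carl_supp A hx).2.1]
  have i2 : Integrable fun x => Real.exp (2 * τ * φ x) * v x ^ 2 := by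
    refine (ce.mul (cvv.pow 2)).integrable_of_hasCompactSupport
      (HasCompactSupport.intro hK fun x hx => ?_)
    simp [(carl_supp A hx).1]
  have i3 : Integrable fun x => Real.exp (2 * τ * φ x) * divA A v x ^ 2 := by
    refine (ce.mul (c4.pow 2)).integrable_of_hasCompactSupport
      (HasCompactSupport.intro hK fun x hx => ?_)
    simp [(carl_supp A hx).2.2]
  have i4 : Integrable fun x => (divA A w x * (2 * inner ℝ (Z x) (gradient w x) + B x * w x)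
      + 2 * inner ℝ (fderiv ℝ Z x (A x (gradient w x))) (gradient w x)
      + (B x - dv Z x) * inner ℝ (A x (gradient w x)) (gradient w x)
      - inner ℝ (fderiv ℝ A x (Z x) (gradient w x)) (gradient w x)
      + w x * inner ℝ (A x (gradient w x)) (gradient B x)) := by
    refine Continuous.integrable_of_hasCompactSupport ?_
      (HasCompactSupport.intro hK fun x hx => ?_)
    · exact ((((c3.mul ((continuous_const.mul (cZ.inner c1)).add (cB.mul cww))).add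
        (continuous_const.mul (cfZ.inner c1))).add ((cB.sub c5).mul (cAw.inner c1))).sub
        (cfA.inner c1)).add (cww.mul (cAw.inner c6))
    · obtain ⟨h1, h2, h3⟩ := carl_supp A (v := w) (fun h => hx (hwv h))
      simp [h1, h2, h3]
  have i5 : Integrable fun x => (q x * w x * (2 * inner ℝ (Z x) (gradient w x) + B x * w x)
      + (inner ℝ (Z x) (gradient q x) - q x * (B x - dv Z x)) * w x ^ 2) := by
    refine Continuous.integrable_of_hasCompactSupport ?_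
      (HasCompactSupport.intro hK fun x hx => ?_)
    · exact ((cq.mul cww).mul ((continuous_const.mul (cZ.inner c1)).add (cB.mul cww))).add
        (((cZ.inner c7).sub (cq.mul (cB.sub c5))).mul (cww.pow 2))
    · obtain ⟨h1, h2, h3⟩ := carl_supp A (v := w) (fun h => hx (hwv h))
      simp [h1, h2]
  -- integrate the pointwise inequality
  have hpt : ∀ x, τ * (Real.exp (2 * τ * φ x) * ‖gradient v x‖ ^ 2) +
      τ ^ 3 * (Real.exp (2 * τ * φ x) * v x ^ 2) ≤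
    (2 + 2 * M ^ 2) / c * (Real.exp (2 * τ * φ x) * divA A v x ^ 2 +
      2 * τ * (divA A w x * (2 * inner ℝ (Z x) (gradient w x) + B x * w x)
      + 2 * inner ℝ (fderiv ℝ Z x (A x (gradient w x))) (gradient w x)
      + (B x - dv Z x) * inner ℝ (A x (gradient w x)) (gradient w x)
      - inner ℝ (fderiv ℝ A x (Z x) (gradient w x)) (gradient w x)
      + w x * inner ℝ (A x (gradient w x)) (gradient B x)) +
      2 * τ ^ 3 * (q x * w x * (2 * inner ℝ (Z x) (gradient w x) + B x * w x)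
      + (inner ℝ (Z x) (gradient q x) - q x * (B x - dv Z x)) * w x ^ 2)) := by
    intro x
    by_cases hx : x ∈ tsupport v
    · have hxD := hvD hx
      exact carl_point hM hc hs₀p.le hs1 hτ1 hsa hsb hτ2 hφ hv hA hcw hxD (hsym x hxD)
        (hcl x hxD) (hli x hxD) w hw Z hZ q hq
    · obtain ⟨h1, h2, h3⟩ := carl_supp A hx
      obtain ⟨h4, h5, h6⟩ := carl_supp A (v := w) (fun h => hx (hwv h))
      simp [h1, h2, h3, h4, h5, h6]
  have hint := integral_mono ((i1.const_mul τ).add (i2.const_mul (τ ^ 3)))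
    (((i3.add (i4.const_mul (2 * τ))).add (i5.const_mul (2 * τ ^ 3))).const_mul
      ((2 + 2 * M ^ 2) / c)) hpt
  have e1 : ∫ x, ((fun x => τ * (Real.exp (2 * τ * φ x) * ‖gradient v x‖ ^ 2)) +
      fun x => τ ^ 3 * (Real.exp (2 * τ * φ x) * v x ^ 2)) x =
      τ * (∫ x, Real.exp (2 * τ * φ x) * ‖gradient v x‖ ^ 2) +
      τ ^ 3 * (∫ x, Real.exp (2 * τ * φ x) * v x ^ 2) := by
    rw [integral_add' (i1.const_mul τ) (i2.const_mul (τ ^ 3)), integral_const_mul,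
      integral_const_mul]
  rw [e1] at hint
  refine hint.trans (le_of_eq ?_)
  rw [integral_const_mul]
  congr 1
  rw [integral_add' (i3.add (i4.const_mul (2 * τ))) (i5.const_mul (2 * τ ^ 3)),
    integral_add' i3 (i4.const_mul (2 * τ)), integral_const_mul, integral_const_mul, hI1, hI2,
    mul_zero, mul_zero, add_zero, add_zero]

end EAGrad

end

section

/-!
MP_ea6116_an: item CID, the two integral identities behind the Carleman estimate.
-/

set_option autoImplicit false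

open MeasureTheory Metric Set Filter Topology
open scoped ENNReal NNReal ContDiff

namespace EAGrad

variable {n : ℕ}

theorem CID_sum_ee (L : En n →L[ℝ] ℝ) (v : En n) :
    ∑ i, L (ee i) * inner ℝ (ee i) v = L v := by
  have h : v = ∑ i, (inner ℝ (ee i) v) • (ee i : En n) := by
    have := (EuclideanSpace.basisFun (Fin n) ℝ).sum_repr' v
    simpa [ee, EuclideanSpace.basisFun_apply] using this.symm
  conv_rhs => rw [h]
  rw [map_sum]
  refine Finset.sum_congr rfl fun i _ => ?_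
  rw [map_smul, smul_eq_mul, mul_comm]

/-- The Riesz isomorphism as a real linear map. -/
noncomputable def CID_G : (En n →L[ℝ] ℝ) →L[ℝ] En n :=
  ∑ i, (ContinuousLinearMap.apply ℝ ℝ (ee i : En n)).smulRight (ee i : En n)

theorem CID_inner_G (L : En n →L[ℝ] ℝ) (v : En n) : inner ℝ (CID_G L) v = L v := by
  rw [← CID_sum_ee L v]
  simp [CID_G, sum_inner, inner_smul_left]

theorem CID_gradient_eq (w : En n → ℝ) : gradient w = fun x => CID_G (fderiv ℝ w x) := by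
  funext x
  refine ext_inner_right ℝ fun v => ?_
  rw [CID_inner_G, inner_gradient]

theorem CID_contDiff_gradient {w : En n → ℝ} (hw : ContDiff ℝ ∞ w) :
    ContDiff ℝ ∞ (gradient w) := by
  have h1 : ContDiff ℝ ∞ (fderiv ℝ w) := hw.fderiv_right (by norm_cast)
  rw [CID_gradient_eq]
  exact CID_G.contDiff.comp h1

/-- Divergence of a product. -/
theorem CID_dv_smul {f : En n → ℝ} {V : En n → En n} {x : En n} (hf : DifferentiableAt ℝ f x)
    (hV : DifferentiableAt ℝ V x) :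
    dv (fun y => f y • V y) x = f x * dv V x + fderiv ℝ f x (V x) := by
  unfold dv
  rw [fderiv_fun_smul hf hV, ← CID_sum_ee (fderiv ℝ f x) (V x), Finset.mul_sum,
    ← Finset.sum_add_distrib]
  refine Finset.sum_congr rfl fun i _ => ?_
  simp [inner_add_right, inner_smul_right]

theorem CID_dv_sub {V W : En n → En n} {x : En n} (hV : DifferentiableAt ℝ V x)
    (hW : DifferentiableAt ℝ W x) :
    dv (fun y => V y - W y) x = dv V x - dv W x := by
  unfold dv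
  rw [fderiv_fun_sub hV hW, ← Finset.sum_sub_distrib]
  refine Finset.sum_congr rfl fun i _ => ?_
  simp [inner_sub_right]

theorem CID_inner_fderiv_gradient {w : En n → ℝ} (hw : ContDiff ℝ ∞ w) (x v u : En n) :
    inner ℝ (fderiv ℝ (gradient w) x v) u = fderiv ℝ (fderiv ℝ w) x v u := by
  have h1 : DifferentiableAt ℝ (fderiv ℝ w) x :=
    (hw.fderiv_right (m := ∞) (by norm_cast)).differentiable (by norm_num) x
  have h2 : fderiv ℝ (gradient w) x = CID_G ∘L fderiv ℝ (fderiv ℝ w) x := by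
    rw [CID_gradient_eq]
    exact (CID_G.hasFDerivAt.comp x h1.hasFDerivAt).fderiv
  rw [h2, ContinuousLinearMap.comp_apply, CID_inner_G]

theorem CID_symm {w : En n → ℝ} (hw : ContDiff ℝ ∞ w) (x v u : En n) :
    inner ℝ (fderiv ℝ (gradient w) x v) u = inner ℝ (fderiv ℝ (gradient w) x u) v := by
  rw [CID_inner_fderiv_gradient hw, CID_inner_fderiv_gradient hw]
  have h : ContDiffAt ℝ ∞ w x := hw.contDiffAt
  have := h.isSymmSndFDerivAt (by simpa using (WithTop.coe_le_coe.2 (le_top : (2 : ℕ∞) ≤ ⊤)))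
  exact this v u

theorem CID_gradient_eq_zero {w : En n → ℝ} {x : En n} (hx : x ∉ tsupport w) :
    gradient w x = 0 := by
  have h1 : w =ᶠ[𝓝 x] fun _ => 0 := notMem_tsupport_iff_eventuallyEq.1 hx
  unfold gradient
  rw [h1.fderiv_eq]
  simp

/-- First identity, pointwise. -/
theorem CID_point1 {A : En n → Op n} {Z : En n → En n} {B w : En n → ℝ}
    (hA : ContDiff ℝ ∞ A) (hZ : ContDiff ℝ ∞ Z) (hB : ContDiff ℝ ∞ B) (hw : ContDiff ℝ ∞ w)
    (hs : ∀ x ∈ tsupport w, ∀ ξ η, inner ℝ (A x ξ) η = inner ℝ ξ (A x η)) (x : En n) :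
    divA A w x * (2 * inner ℝ (Z x) (gradient w x) + B x * w x)
      + 2 * inner ℝ (fderiv ℝ Z x (A x (gradient w x))) (gradient w x)
      + (B x - dv Z x) * inner ℝ (A x (gradient w x)) (gradient w x)
      - inner ℝ (fderiv ℝ A x (Z x) (gradient w x)) (gradient w x)
      + w x * inner ℝ (A x (gradient w x)) (gradient B x) =
    dv (fun y => (2 * inner ℝ (Z y) (gradient w y) + B y * w y) • A y (gradient w y)
      - (inner ℝ (A y (gradient w y)) (gradient w y)) • Z y) x := by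
  have hg : ContDiff ℝ ∞ (gradient w) := CID_contDiff_gradient hw
  have dA : DifferentiableAt ℝ A x := hA.differentiable (by norm_num) x
  have dZ : DifferentiableAt ℝ Z x := hZ.differentiable (by norm_num) x
  have dB : DifferentiableAt ℝ B x := hB.differentiable (by norm_num) x
  have dw : DifferentiableAt ℝ w x := hw.differentiable (by norm_num) x
  have dg : DifferentiableAt ℝ (gradient w) x := hg.differentiable (by norm_num) x
  have dAg : DifferentiableAt ℝ (fun y => A y (gradient w y)) x := dA.clm_apply dg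
  have dZg : DifferentiableAt ℝ (fun y => inner ℝ (Z y) (gradient w y)) x := dZ.inner ℝ dg
  have df : DifferentiableAt ℝ (fun y => 2 * inner ℝ (Z y) (gradient w y) + B y * w y) x :=
    (dZg.const_mul 2).add (dB.mul dw)
  have dq : DifferentiableAt ℝ (fun y => inner ℝ (A y (gradient w y)) (gradient w y)) x :=
    dAg.inner ℝ dg
  have hsub := CID_dv_sub (V := fun y => (2 * inner ℝ (Z y) (gradient w y) + B y * w y) •
      A y (gradient w y)) (W := fun y => (inner ℝ (A y (gradient w y)) (gradient w y)) • Z y)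
    (x := x) (df.smul dAg) (dq.smul dZ)
  rw [hsub, CID_dv_smul df dAg, CID_dv_smul dq dZ]
  have e1 : fderiv ℝ (fun y => 2 * inner ℝ (Z y) (gradient w y) + B y * w y) x
      (A x (gradient w x)) =
      2 * (inner ℝ (Z x) (fderiv ℝ (gradient w) x (A x (gradient w x))) +
        inner ℝ (fderiv ℝ Z x (A x (gradient w x))) (gradient w x)) +
      (B x * inner ℝ (gradient w x) (A x (gradient w x)) +
        w x * inner ℝ (gradient B x) (A x (gradient w x))) := by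
    rw [fderiv_fun_add (dZg.const_mul 2) (dB.fun_mul dw), fderiv_const_mul dZg,
      fderiv_fun_mul dB dw]
    simp only [add_apply, smul_apply, smul_eq_mul,
      fderiv_inner_apply ℝ dZ dg, inner_gradient]
  have e2 : fderiv ℝ (fun y => inner ℝ (A y (gradient w y)) (gradient w y)) x (Z x) =
      inner ℝ (A x (gradient w x)) (fderiv ℝ (gradient w) x (Z x)) +
      inner ℝ (fderiv ℝ A x (Z x) (gradient w x) + A x (fderiv ℝ (gradient w) x (Z x)))
        (gradient w x) := by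
    rw [fderiv_inner_apply ℝ dAg dg, fderiv_clm_apply dA dg]
    simp [add_comm]
  rw [e1, e2]
  have e3 : inner ℝ (Z x) (fderiv ℝ (gradient w) x (A x (gradient w x))) =
      inner ℝ (A x (gradient w x)) (fderiv ℝ (gradient w) x (Z x)) := by
    rw [real_inner_comm, CID_symm hw, real_inner_comm]
  have e4 : inner ℝ (A x (fderiv ℝ (gradient w) x (Z x))) (gradient w x) =
      inner ℝ (A x (gradient w x)) (fderiv ℝ (gradient w) x (Z x)) := by
    by_cases hx : x ∈ tsupport w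
    · rw [hs x hx, real_inner_comm]
    · rw [CID_gradient_eq_zero hx]; simp
  rw [inner_add_left, e3, e4, real_inner_comm (A x (gradient w x)) (gradient w x),
    real_inner_comm (A x (gradient w x)) (gradient B x)]
  unfold divA
  ring

/-- Second identity, pointwise. -/
theorem CID_point2 {Z : En n → En n} {B q w : En n → ℝ}
    (hZ : ContDiff ℝ ∞ Z) (hq : ContDiff ℝ ∞ q) (hw : ContDiff ℝ ∞ w) (x : En n) :
    q x * w x * (2 * inner ℝ (Z x) (gradient w x) + B x * w x)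
      + (inner ℝ (Z x) (gradient q x) - q x * (B x - dv Z x)) * w x ^ 2 =
    dv (fun y => (q y * w y ^ 2) • Z y) x := by
  have dZ : DifferentiableAt ℝ Z x := hZ.differentiable (by norm_num) x
  have dw : DifferentiableAt ℝ w x := hw.differentiable (by norm_num) x
  have dq : DifferentiableAt ℝ q x := hq.differentiable (by norm_num) x
  have dw2 : DifferentiableAt ℝ (fun y => w y ^ 2) x := dw.pow 2
  have df : DifferentiableAt ℝ (fun y => q y * w y ^ 2) x := dq.mul dw2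
  rw [CID_dv_smul df dZ, fderiv_fun_mul dq dw2, fderiv_fun_pow 2 dw]
  simp only [add_apply, smul_apply, smul_eq_mul,
    nsmul_eq_mul]
  rw [real_inner_comm (gradient w x) (Z x), real_inner_comm (gradient q x) (Z x),
    inner_gradient, inner_gradient]
  push_cast
  ring

theorem CID : StmtCID := by
  intro n A Z B q w hA hZ hB hq hw hc hs
  have hg : ContDiff ℝ ∞ (gradient w) := CID_contDiff_gradient hw
  constructor
  · simp_rw [CID_point1 hA hZ hB hw hs]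
    apply integral_dv_eq_zero
    · refine ContDiff.of_le (n := ((⊤ : ℕ∞) : WithTop ℕ∞)) ?_ (by norm_cast)
      exact (((contDiff_const.mul (hZ.inner ℝ hg)).add (hB.mul hw)).smul
        (hA.clm_apply hg)).sub (((hA.clm_apply hg).inner ℝ hg).smul hZ)
    · refine HasCompactSupport.of_support_subset_isCompact hc fun x hx => ?_
      by_contra hx'
      apply hx
      have h1 := CID_gradient_eq_zero hx'
      have h2 := image_eq_zero_of_notMem_tsupport hx'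
      simp [h1, h2]
  · simp_rw [CID_point2 hZ hq hw]
    apply integral_dv_eq_zero
    · refine ContDiff.of_le (n := ((⊤ : ℕ∞) : WithTop ℕ∞)) ?_ (by norm_cast)
      exact (hq.mul (hw.pow 2)).smul hZ
    · refine HasCompactSupport.of_support_subset_isCompact hc fun x hx => ?_
      by_contra hx'
      apply hx
      have h2 := image_eq_zero_of_notMem_tsupport hx'
      simp [h2]

end EAGrad

end
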