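import Mathlib.Topology.ContinuousMap.Bounded.ArzelaAscoli
import Pool.Agent.Work.MP_ea6116_an.Bd.B01

/-! Bundle of small proof modules (one section per former module). -/

section

/-!
MP_ea6116_an: compactness.
-/

set_option autoImplicit false

open MeasureTheory Metric Set Filter Topology
open scoped ENNReal NNReal ContDiff BoundedContinuousFunction

namespace EAGrad

variable {n : ℕ}

theorem COMP_ker_zero (z : En n) (hz : 1 ≤ ‖z‖) : Ker z = 0 := by
  unfold Ker eta
  rw [Real.smoothTransition.zero_of_nonpos, zero_div]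
  nlinarith

theorem COMP_ker_contDiff : ContDiff ℝ ∞ (Ker : En n → ℝ) := by
  have h1 : ContDiff ℝ ∞ (fun z : En n => 2 - 4 * ‖z‖ ^ 2) :=
    contDiff_const.sub (contDiff_const.mul (contDiff_norm_sq ℝ))
  have h2 : ContDiff ℝ ∞ (fun z : En n => eta (‖z‖ ^ 2)) :=
    (Real.smoothTransition.contDiff (n := ⊤)).comp h1
  exact h2.div_const _

theorem COMP_ker_lip : ∃ L : ℝ≥0, LipschitzWith L (Ker : En n → ℝ) := by
  apply ContDiff.lipschitzWith_of_hasCompactSupport (𝕂 := ℝ) (n := ∞) _ COMP_ker_contDiff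
    (by simp)
  refine HasCompactSupport.of_support_subset_isCompact (isCompact_closedBall (0 : En n) 1) ?_
  intro z hz
  rw [mem_closedBall_zero_iff]
  by_contra hc
  push Not at hc
  exact hz (COMP_ker_zero z hc.le)

/-- The rescaled kernel is supported in the ball of radius `1 / 2`. -/
theorem COMP_kx_zero (x w : En n) (h : 1 / 2 ≤ ‖w - x‖) : Ker ((2 : ℝ) • (w - x)) = 0 := by
  apply COMP_ker_zero
  rw [norm_smul, Real.norm_eq_abs, abs_two]
  linarith

theorem COMP_cont (x : En n) (hx : ‖x‖ ≤ 3 / 2) (X : En n → En n)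
    (hX : ContinuousOn X (ball 0 4)) :
    Continuous (fun w => Ker ((2 : ℝ) • (w - x)) • X w) ∧
    HasCompactSupport (fun w => Ker ((2 : ℝ) • (w - x)) • X w) := by
  have hk : Continuous (fun w : En n => Ker ((2 : ℝ) • (w - x))) :=
    COMP_ker_contDiff.continuous.comp (by fun_prop : Continuous fun w : En n => (2 : ℝ) • (w - x))
  constructor
  · rw [continuous_iff_continuousAt]
    intro w
    by_cases hw : w ∈ ball (0 : En n) 4
    · exact hk.continuousAt.smul (hX.continuousAt (isOpen_ball.mem_nhds hw))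
    · have h1 : (fun w => Ker ((2 : ℝ) • (w - x)) • X w) =ᶠ[𝓝 w] fun _ => 0 := by
        have hw' : 4 ≤ ‖w‖ := by
          rw [mem_ball_zero_iff] at hw
          exact not_lt.1 hw
        have h2 : {v : En n | 3 < ‖v‖} ∈ 𝓝 w :=
          (isOpen_lt continuous_const continuous_norm).mem_nhds (by
            change (3 : ℝ) < ‖w‖
            linarith)
        filter_upwards [h2] with v hv
        have hv' : (3 : ℝ) < ‖v‖ := hv
        rw [COMP_kx_zero, zero_smul]
        have := norm_sub_norm_le v x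
        linarith
      exact continuousAt_const.congr h1.symm
  · refine HasCompactSupport.of_support_subset_isCompact (isCompact_closedBall (0 : En n) 2) ?_
    intro w hw
    rw [mem_closedBall_zero_iff]
    by_contra hc
    push Not at hc
    apply hw
    change Ker ((2 : ℝ) • (w - x)) • X w = 0
    rw [COMP_kx_zero, zero_smul]
    have := norm_sub_norm_le w x
    linarith

theorem COMP_subst (x : En n) (X : En n → En n) :
    ∫ z, Ker z • X (x + (1 / 2 : ℝ) • z) =
      |(((1 / 2 : ℝ)) ^ n)⁻¹| • ∫ w, Ker ((2 : ℝ) • (w - x)) • X w := by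
  have h1 := Measure.integral_comp_smul (volume : Measure (En n))
    (fun v => Ker ((2 : ℝ) • ((x + v) - x)) • X (x + v)) (1 / 2 : ℝ)
  rw [finrank_euclideanSpace_fin, integral_add_left_eq_self
    (fun w => Ker ((2 : ℝ) • (w - x)) • X w) x] at h1
  rw [← h1]
  congr 1
  funext z
  congr 2
  rw [add_sub_cancel_left, smul_smul]
  norm_num

theorem COMP_lip (L : ℝ≥0) (hL : LipschitzWith L (Ker : En n → ℝ)) (X : En n → En n) (F : ℝ)
    (hX : ContinuousOn X (ball 0 4)) (hF : ∀ w ∈ ball (0 : En n) 2, ‖X w‖ ≤ F) (x y : En n)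
    (hx : ‖x‖ ≤ 3 / 2) (hy : ‖y‖ ≤ 3 / 2) :
    ‖(∫ z, Ker z • X (x + (1 / 2 : ℝ) • z)) - ∫ z, Ker z • X (y + (1 / 2 : ℝ) • z)‖ ≤
      |(((1 / 2 : ℝ)) ^ n)⁻¹| * (2 * L * F * volume.real (ball (0 : En n) 2)) * ‖x - y‖ := by
  have hF0 : 0 ≤ F := (norm_nonneg _).trans (hF 0 (by simp))
  rw [COMP_subst, COMP_subst, ← smul_sub, norm_smul, Real.norm_eq_abs, abs_abs, mul_assoc]
  refine mul_le_mul_of_nonneg_left ?_ (abs_nonneg _)
  obtain ⟨hc1, hs1⟩ := COMP_cont x hx X hX
  obtain ⟨hc2, hs2⟩ := COMP_cont y hy X hX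
  rw [← integral_sub (hc1.integrable_of_hasCompactSupport hs1)
    (hc2.integrable_of_hasCompactSupport hs2)]
  have hb : ∀ w, ‖Ker ((2 : ℝ) • (w - x)) • X w - Ker ((2 : ℝ) • (w - y)) • X w‖ ≤
      (ball (0 : En n) 2).indicator (fun _ => 2 * L * F * ‖x - y‖) w := by
    intro w
    by_cases hw : w ∈ ball (0 : En n) 2
    · rw [indicator_of_mem hw, ← sub_smul, norm_smul]
      have h1 : ‖Ker ((2 : ℝ) • (w - x)) - Ker ((2 : ℝ) • (w - y))‖ ≤ L * (2 * ‖x - y‖) := by
        have := hL.dist_le_mul ((2 : ℝ) • (w - x)) ((2 : ℝ) • (w - y))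
        rw [dist_eq_norm, dist_eq_norm, ← smul_sub, norm_smul, Real.norm_eq_abs (2 : ℝ), abs_two,
          sub_sub_sub_cancel_left, norm_sub_rev y x] at this
        exact this
      calc ‖Ker ((2 : ℝ) • (w - x)) - Ker ((2 : ℝ) • (w - y))‖ * ‖X w‖
          ≤ (L * (2 * ‖x - y‖)) * F := by
            refine mul_le_mul h1 (hF w hw) (norm_nonneg _) (by positivity)
        _ = 2 * L * F * ‖x - y‖ := by ring
    · rw [indicator_of_notMem hw]
      have hw' : 2 ≤ ‖w‖ := by
        rw [mem_ball_zero_iff] at hw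
        exact not_lt.1 hw
      rw [COMP_kx_zero x w, COMP_kx_zero y w]
      · simp
      · have := norm_sub_norm_le w y
        linarith
      · have := norm_sub_norm_le w x
        linarith
  have hint : Integrable ((ball (0 : En n) 2).indicator (fun _ => 2 * L * F * ‖x - y‖)) := by
    rw [integrable_indicator_iff measurableSet_ball]
    exact integrableOn_const (by exact measure_ball_lt_top.ne)
  refine (norm_integral_le_of_norm_le hint (ae_of_all _ hb)).trans ?_
  rw [integral_indicator measurableSet_ball, setIntegral_const, smul_eq_mul]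
  apply le_of_eq
  ring

theorem COMP_mv (hMV : StmtMV) (hSC : StmtSC) (hn : 1 ≤ n) : ∃ C s₀ : ℝ, 0 < C ∧ 0 < s₀ ∧
    ∀ (A : En n → Op n) (u : En n → ℝ) (x : En n) (s F : ℝ), 0 ≤ s → s ≤ s₀ →
      Sol A u (ball 0 4) → Near s s A (ball 0 4) → (∀ y ∈ ball (0 : En n) 2, ‖gradient u y‖ ≤ F) →
      ‖x‖ ≤ 3 / 2 →
      ‖gradient u x - ∫ z, Ker z • gradient u (x + (1 / 2 : ℝ) • z)‖ ≤ C * s * F := by
  obtain ⟨C, s₀, hC, hs₀, h⟩ := hMV n hn
  refine ⟨C, s₀, hC, hs₀, fun A u x s F hs hss hsol hnear hF hx => ?_⟩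
  have hsub : ball x (1 * (1 / 2 : ℝ)) ⊆ ball (0 : En n) 2 := by
    intro y hy
    rw [mem_ball, dist_eq_norm] at hy
    rw [mem_ball_zero_iff]
    have := norm_sub_norm_le y x
    linarith
  have hsub4 : ball x (1 * (1 / 2 : ℝ)) ⊆ ball (0 : En n) 4 :=
    hsub.trans (ball_subset_ball (by norm_num))
  obtain ⟨h1, h2, h3, -⟩ := hSC n A u x 1 (1 / 2) s s (by norm_num)
    (hsol.mono isOpen_ball hsub4) (hnear.mono le_rfl le_rfl hsub4)
  have h4 := h _ _ 0 s F hs hss h1 (h2.mono le_rfl (by linarith) subset_rfl) (by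
    intro y hy
    rw [h3]
    apply hF
    apply hsub
    rw [mem_ball, dist_eq_norm, add_sub_cancel_left, norm_smul, Real.norm_eq_abs,
      abs_of_pos (by norm_num : (0 : ℝ) < 1 / 2)]
    rw [mem_ball_zero_iff] at hy
    linarith)
  rw [h3, smul_zero, add_zero] at h4
  have e : ∫ z, Ker z • gradient (fun z => (1 / 2 : ℝ)⁻¹ * u (x + (1 / 2 : ℝ) • z)) (0 + z) =
      ∫ z, Ker z • gradient u (x + (1 / 2 : ℝ) • z) := by
    congr 1
    funext z
    rw [zero_add, h3]
  rw [e] at h4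
  exact h4

/-- Integrability against a test function. -/
theorem COMP_int (U : Set (En n)) (hU : IsOpen U) (X : En n → En n) (hX : ContinuousOn X U)
    (φ : En n → ℝ) (hφ : ContDiff ℝ ∞ φ) (hc : HasCompactSupport φ) (hs : tsupport φ ⊆ U) :
    Integrable (fun x => inner ℝ (X x) (gradient φ x)) := by
  have hg : Continuous (gradient φ) :=
    (InnerProductSpace.toDual ℝ (En n)).symm.continuous.comp (hφ.continuous_fderiv (by simp))
  have hg0 : ∀ x, x ∉ tsupport φ → gradient φ x = 0 := by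
    intro x hx
    have h1 : φ =ᶠ[𝓝 x] fun _ => 0 := notMem_tsupport_iff_eventuallyEq.1 hx
    rw [← norm_eq_zero, norm_gradient, h1.fderiv_eq]
    simp
  have hcont : Continuous (fun x => inner ℝ (X x) (gradient φ x)) := by
    rw [continuous_iff_continuousAt]
    intro x
    by_cases hx : x ∈ tsupport φ
    · exact (hX.continuousAt (hU.mem_nhds (hs hx))).inner hg.continuousAt
    · have h1 : (fun x => inner ℝ (X x) (gradient φ x)) =ᶠ[𝓝 x] fun _ => (0 : ℝ) := by
        have h2 : (tsupport φ)ᶜ ∈ 𝓝 x := (isClosed_tsupport φ).isOpen_compl.mem_nhds hx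
        filter_upwards [h2] with y hy
        rw [hg0 y hy, inner_zero_right]
      exact continuousAt_const.congr h1.symm
  apply hcont.integrable_of_hasCompactSupport
  refine HasCompactSupport.of_support_subset_isCompact hc ?_
  intro x hx
  by_contra hx'
  apply hx
  change inner ℝ (X x) (gradient φ x) = 0
  rw [hg0 x hx', inner_zero_right]

theorem COMP_int_norm (φ : En n → ℝ) (hφ : ContDiff ℝ ∞ φ) (hc : HasCompactSupport φ) :
    Integrable (fun x => ‖gradient φ x‖) := by
  have hg : Continuous (gradient φ) :=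
    (InnerProductSpace.toDual ℝ (En n)).symm.continuous.comp (hφ.continuous_fderiv (by simp))
  apply hg.norm.integrable_of_hasCompactSupport
  refine HasCompactSupport.of_support_subset_isCompact hc ?_
  intro x hx
  by_contra hx'
  apply hx
  have h1 : φ =ᶠ[𝓝 x] fun _ => 0 := notMem_tsupport_iff_eventuallyEq.1 hx'
  change ‖gradient φ x‖ = 0
  rw [norm_gradient, h1.fderiv_eq]
  simp

theorem COMP (hMV : StmtMV) (hSC : StmtSC) : StmtCOMP := by
  intro n F A u s hn hs hall
  obtain ⟨C, s₀, hC, hs₀, hmv⟩ := COMP_mv hMV hSC hn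
  obtain ⟨L, hL⟩ := COMP_ker_lip (n := n)
  have hF0 : 0 ≤ F := (norm_nonneg _).trans ((hall 0).2.2.2 0 (by simp))
  -- pass to a tail
  obtain ⟨k0, hk0⟩ := eventually_atTop.1 (hs.eventually (eventually_le_nhds hs₀))
  -- the averaged gradients
  set X : ℕ → En n → En n := fun k => gradient (u (k + k0)) with hX
  have hXc : ∀ k, ContinuousOn (X k) (ball 0 4) := fun k =>
    (hall (k + k0)).2.1.continuousOn_gradient
  set G0 : ℕ → En n → En n := fun k x => ∫ z, Ker z • X k (x + (1 / 2 : ℝ) • z) with hG0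
  have hG0d : ∀ k x, ‖x‖ ≤ 3 / 2 → ‖X k x - G0 k x‖ ≤ C * s (k + k0) * F := fun k x hx =>
    hmv (A (k + k0)) (u (k + k0)) x (s (k + k0)) F (hall _).1 (hk0 _ (by omega)) (hall _).2.1
      (hall _).2.2.1 (hall _).2.2.2 hx
  set Kc : ℝ := |(((1 / 2 : ℝ)) ^ n)⁻¹| * (2 * L * F * volume.real (ball (0 : En n) 2)) with hKc
  have hKc0 : 0 ≤ Kc := by positivity
  have hG0l : ∀ k x y, ‖x‖ ≤ 3 / 2 → ‖y‖ ≤ 3 / 2 → ‖G0 k x - G0 k y‖ ≤ Kc * ‖x - y‖ :=
    fun k x y hx hy => COMP_lip L hL (X k) F (hXc k) (hall _).2.2.2 x y hx hy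
  have hG0b : ∀ k x, ‖x‖ ≤ 3 / 2 → ‖G0 k x‖ ≤ F + C * s₀ * F := by
    intro k x hx
    have h1 := hG0d k x hx
    have h2 : ‖X k x‖ ≤ F := (hall (k + k0)).2.2.2 x (by
      rw [mem_ball_zero_iff]
      linarith)
    have h3 : C * s (k + k0) * F ≤ C * s₀ * F := by
      refine mul_le_mul_of_nonneg_right ?_ hF0
      exact mul_le_mul_of_nonneg_left (hk0 _ (by omega)) hC.le
    have h4 := norm_sub_norm_le (G0 k x) (X k x)
    rw [norm_sub_rev] at h4
    linarith
  -- Arzela-Ascoli
  set Y : Set (En n) := closedBall (0 : En n) (3 / 2) with hY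
  have : CompactSpace Y := isCompact_iff_compactSpace.1 (isCompact_closedBall _ _)
  have hYn : ∀ x : Y, ‖(x : En n)‖ ≤ 3 / 2 := fun x => mem_closedBall_zero_iff.1 x.2
  have hlipY : ∀ k, LipschitzWith Kc.toNNReal (fun x : Y => G0 k x) := by
    intro k
    refine LipschitzWith.of_dist_le_mul fun x y => ?_
    rw [Real.coe_toNNReal _ hKc0, dist_eq_norm, Subtype.dist_eq, dist_eq_norm]
    exact hG0l k x y (hYn x) (hYn y)
  set G : ℕ → (Y →ᵇ En n) := fun k =>
    BoundedContinuousFunction.mkOfCompact ⟨fun x : Y => G0 k x, (hlipY k).continuous⟩ with hG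
  have hcomp : IsCompact (closure (range G)) := by
    apply BoundedContinuousFunction.arzela_ascoli (closedBall (0 : En n) (F + C * s₀ * F))
      (isCompact_closedBall _ _)
    · rintro f x ⟨k, rfl⟩
      rw [mem_closedBall_zero_iff]
      exact hG0b k x (hYn x)
    · apply UniformEquicontinuous.equicontinuous
      apply LipschitzWith.uniformEquicontinuous _ Kc.toNNReal
      rintro ⟨f, k, rfl⟩
      exact hlipY k
  obtain ⟨Gl, -, ψ, hψ, hψlim⟩ := hcomp.tendsto_subseq
    (fun k => subset_closure (mem_range_self k) : ∀ k, G k ∈ closure (range G))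
  rw [BoundedContinuousFunction.tendsto_iff_tendstoUniformly,
    Metric.tendstoUniformly_iff] at hψlim
  classical
  set g : En n → En n := fun x => if h : x ∈ Y then Gl ⟨x, h⟩ else 0 with hg
  set j : ℕ → ℕ := fun k => ψ k + k0 with hj
  have hjmono : StrictMono j := fun a b hab => by
    have := hψ hab
    simp only [hj]
    omega
  have hsj : Tendsto (fun k => s (j k)) atTop (𝓝 0) := hs.comp hjmono.tendsto_atTop
  have hunif : TendstoUniformlyOn (fun k x => gradient (u (j k)) x) g atTop Y := by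
    rw [Metric.tendstoUniformlyOn_iff]
    intro ε hε
    have h1 := hψlim (ε / 2) (by positivity)
    have h2 : Tendsto (fun k => C * s (j k) * F) atTop (𝓝 0) := by
      have := (hsj.const_mul C).mul_const F
      simpa using this
    have h3 := h2.eventually (gt_mem_nhds (show (0 : ℝ) < ε / 2 by positivity))
    filter_upwards [h1, h3] with k hk1 hk2 x hx
    have e1 : g x = Gl ⟨x, hx⟩ := by
      rw [hg]
      dsimp only
      rw [dif_pos hx]
    have e2 : dist (Gl ⟨x, hx⟩) (G0 (ψ k) x) < ε / 2 := hk1 ⟨x, hx⟩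
    have e3 : dist (G0 (ψ k) x) (gradient (u (j k)) x) ≤ C * s (j k) * F := by
      rw [dist_eq_norm, norm_sub_rev]
      exact hG0d (ψ k) x (mem_closedBall_zero_iff.1 hx)
    rw [e1]
    linarith [dist_triangle (Gl ⟨x, hx⟩) (G0 (ψ k) x) (gradient (u (j k)) x)]
  have hballY : ball (0 : En n) (3 / 2) ⊆ Y := ball_subset_closedBall
  have hball4 : ball (0 : En n) (3 / 2) ⊆ ball 0 4 := ball_subset_ball (by norm_num)
  -- convergence of the derivatives
  set D := InnerProductSpace.toDual ℝ (En n) with hD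
  have hfd : ∀ k x, fderiv ℝ (u (j k)) x = D (gradient (u (j k)) x) := by
    intro k x
    rw [hD, gradient, LinearIsometryEquiv.apply_symm_apply]
  have hunif' : TendstoUniformlyOn (fun k x => fderiv ℝ (u (j k)) x) (fun x => D (g x)) atTop
      (ball 0 (3 / 2)) := by
    have h1 := (D.isometry.uniformContinuous.comp_tendstoUniformlyOn hunif).mono hballY
    have h2 : (fun k x => fderiv ℝ (u (j k)) x) =
        fun k => (D : En n → _) ∘ (fun x => gradient (u (j k)) x) := by
      funext k x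
      exact hfd k x
    rw [h2]
    exact h1
  have hder : ∀ k, ∀ x ∈ ball (0 : En n) (3 / 2),
      HasFDerivAt (fun x => u (j k) x - u (j k) 0) (fderiv ℝ (u (j k)) x) x := by
    intro k x hx
    exact ((hall (j k)).2.1.differentiableAt (hball4 hx)).hasFDerivAt.sub_const _
  have hcauchy := uniformCauchySeqOn_ball_of_fderiv (x := (0 : En n)) (r := 3 / 2)
    (l := (atTop : Filter ℕ)) hunif'.uniformCauchySeqOn hder (by
      have e : (fun k : ℕ => u (j k) 0 - u (j k) 0) = fun _ => (0 : ℝ) := by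
        funext k
        ring
      rw [e]
      exact (tendsto_const_nhds (x := (0 : ℝ)) (f := (atTop : Filter ℕ))).cauchy_map)
  set h : En n → ℝ := fun x => limUnder atTop (fun k => u (j k) x - u (j k) 0) with hh
  have hlim : ∀ x ∈ ball (0 : En n) (3 / 2),
      Tendsto (fun k => u (j k) x - u (j k) 0) atTop (𝓝 (h x)) := fun x hx =>
    (hcauchy.cauchySeq hx).tendsto_limUnder
  have hhd : ∀ x ∈ ball (0 : En n) (3 / 2), HasFDerivAt h (D (g x)) x := fun x hx =>
    hasFDerivAt_of_tendstoUniformlyOn isOpen_ball hunif' hder hlim hx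
  have hgrad : ∀ x ∈ ball (0 : En n) (3 / 2), gradient h x = g x := by
    intro x hx
    rw [gradient, (hhd x hx).fderiv, ← hD, LinearIsometryEquiv.symm_apply_apply]
  have hgc : ContinuousOn (fun x => D (g x)) (ball (0 : En n) (3 / 2)) := by
    refine hunif'.continuousOn (Frequently.of_forall fun k => ?_)
    exact ((hall (j k)).2.1.c1.continuousOn_fderiv_of_isOpen isOpen_ball le_rfl).mono hball4
  have hhc : ContDiffOn ℝ 1 h (ball (0 : En n) (3 / 2)) := by
    rw [show (1 : WithTop ℕ∞) = 0 + 1 by norm_num,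
      contDiffOn_succ_iff_fderiv_of_isOpen isOpen_ball]
    refine ⟨fun x hx => (hhd x hx).differentiableAt.differentiableWithinAt, by simp, ?_⟩
    rw [contDiffOn_zero]
    exact hgc.congr fun x hx => (hhd x hx).fderiv
  have hhg : ContinuousOn (gradient h) (ball (0 : En n) (3 / 2)) :=
    D.symm.continuous.comp_continuousOn (hhc.continuousOn_fderiv_of_isOpen isOpen_ball le_rfl)
  have hball2 : ball (0 : En n) (3 / 2) ⊆ ball 0 2 := ball_subset_ball (by norm_num)
  refine ⟨j, h, hjmono, ⟨isOpen_ball, hhc, ?_⟩, ?_⟩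
  · -- the weak equation
    intro φ hφ hφc hφs
    set I : ℝ := ∫ x, ‖gradient φ x‖ with hI
    have hI0 : 0 ≤ I := integral_nonneg fun x => norm_nonneg _
    have hAc : ∀ k, ContinuousOn (fun x => A (j k) x (gradient (u (j k)) x))
        (ball (0 : En n) (3 / 2)) := by
      intro k
      have h1 : ContinuousOn (A (j k)) (ball (0 : En n) 4) := by
        have hl : LipschitzOnWith (Real.toNNReal (s (j k))) (A (j k)) (ball (0 : En n) 4) := by
          refine LipschitzOnWith.of_dist_le_mul fun x hx y hy => ?_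
          rw [Real.coe_toNNReal _ (hall _).1, dist_eq_norm, dist_eq_norm]
          exact (hall (j k)).2.2.1.lip x hx y hy
        exact hl.continuousOn
      exact (h1.clm_apply (hall (j k)).2.1.continuousOn_gradient).mono hball4
    have hint1 : Integrable (fun x => inner ℝ (((fun _ => 1 : En n → Op n) x) (gradient h x))
        (gradient φ x)) := COMP_int _ isOpen_ball _ hhg φ hφ hφc hφs
    have hint2 : ∀ k, Integrable (fun x => inner ℝ (A (j k) x (gradient (u (j k)) x))
        (gradient φ x)) := fun k => COMP_int _ isOpen_ball _ (hAc k) φ hφ hφc hφs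
    have hzero : ∀ k, ∫ x, inner ℝ (A (j k) x (gradient (u (j k)) x)) (gradient φ x) = 0 :=
      fun k => (hall (j k)).2.1.weak φ hφ hφc (hφs.trans hball4)
    have hbound : ∀ ε : ℝ, 0 < ε → |∫ x, inner ℝ (((fun _ => 1 : En n → Op n) x)
        (gradient h x)) (gradient φ x)| ≤ ε * I := by
      intro ε hε
      rw [Metric.tendstoUniformlyOn_iff] at hunif
      have h1 := hunif (ε / 2) (by positivity)
      have h2 : Tendsto (fun k => s (j k) * F) atTop (𝓝 0) := by
        have := hsj.mul_const F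
        simpa using this
      have h3 := h2.eventually (gt_mem_nhds (show (0 : ℝ) < ε / 2 by positivity))
      obtain ⟨k, hk1, hk2⟩ := (h1.and h3).exists
      have e1 : ∫ x, inner ℝ (((fun _ => 1 : En n → Op n) x) (gradient h x)) (gradient φ x) =
          ∫ x, (inner ℝ (((fun _ => 1 : En n → Op n) x) (gradient h x)) (gradient φ x) -
            inner ℝ (A (j k) x (gradient (u (j k)) x)) (gradient φ x)) := by
        rw [integral_sub hint1 (hint2 k), hzero k, sub_zero]
      rw [e1, ← Real.norm_eq_abs, hI, ← integral_const_mul]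
      refine norm_integral_le_of_norm_le ((COMP_int_norm φ hφ hφc).const_mul ε)
        (ae_of_all _ fun x => ?_)
      by_cases hx : x ∈ tsupport φ
      · have hxb := hφs hx
        rw [← inner_sub_left]
        refine (norm_inner_le_norm _ _).trans ?_
        refine mul_le_mul_of_nonneg_right ?_ (norm_nonneg _)
        have e2 : ((fun _ => 1 : En n → Op n) x) (gradient h x) -
            A (j k) x (gradient (u (j k)) x) = (g x - gradient (u (j k)) x) -
              (A (j k) x - 1) (gradient (u (j k)) x) := by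
          have e6 : ∀ v : En n, (1 : Op n) v = v := fun v => rfl
          rw [← hgrad x hxb, sub_apply, e6, e6]
          abel
        rw [e2]
        refine (norm_sub_le _ _).trans ?_
        have e3 : ‖g x - gradient (u (j k)) x‖ < ε / 2 := by
          rw [← dist_eq_norm]
          exact hk1 x (hballY hxb)
        have e4 : ‖(A (j k) x - 1) (gradient (u (j k)) x)‖ ≤ s (j k) * F := by
          refine (ContinuousLinearMap.le_opNorm _ _).trans ?_
          exact mul_le_mul ((hall (j k)).2.2.1.close x (hball4 hxb))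
            ((hall (j k)).2.2.2 x (hball2 hxb)) (norm_nonneg _) (hall (j k)).1
        linarith
      · have h1 : φ =ᶠ[𝓝 x] fun _ => 0 := notMem_tsupport_iff_eventuallyEq.1 hx
        have h2 : gradient φ x = 0 := by
          rw [← norm_eq_zero, norm_gradient, h1.fderiv_eq]
          simp
        rw [h2]
        simp
    by_contra hne
    have hpos : 0 < |∫ x, inner ℝ (((fun _ => 1 : En n → Op n) x)
        (gradient h x)) (gradient φ x)| := abs_pos.2 hne
    set J := |∫ x, inner ℝ (((fun _ => 1 : En n → Op n) x)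
        (gradient h x)) (gradient φ x)| with hJ
    have := hbound (J / (2 * (I + 1))) (by positivity)
    have e5 : J / (2 * (I + 1)) * I ≤ J / 2 := by
      rw [div_mul_eq_mul_div, div_le_div_iff₀ (by positivity) (by norm_num)]
      nlinarith
    linarith
  · have hsub1 : closedBall (0 : En n) 1 ⊆ ball 0 (3 / 2) := by
      intro x hx
      rw [mem_closedBall_zero_iff] at hx
      rw [mem_ball_zero_iff]
      linarith
    exact (hunif.mono (hsub1.trans hballY)).congr_right fun x hx => (hgrad x (hsub1 hx)).symm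

end EAGrad

end

section

/-!
MP_ea6116_an, item COV: covering of a set without `n` independent points.
-/

set_option autoImplicit false

open MeasureTheory Metric Set Filter Topology Module
open scoped ENNReal NNReal ContDiff Function

namespace EAGrad

/-- Packing: number of separated points in a ball. -/
theorem COV_pack {E : Type*} [NormedAddCommGroup E] [NormedSpace ℝ E] [FiniteDimensional ℝ E]
    (s : Finset E) {R δ : ℝ} (hδ : 0 < δ) (hR : 0 ≤ R) (hs : ∀ c ∈ s, ‖c‖ ≤ R)
    (h : ∀ c ∈ s, ∀ d ∈ s, c ≠ d → 2 * δ ≤ ‖c - d‖) :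
    (s.card : ℝ) ≤ ((R + δ) / δ) ^ finrank ℝ E := by
  borelize E
  let μ : Measure E := Measure.addHaar
  have ρpos : 0 < R + δ := by linarith
  set A := ⋃ c ∈ s, ball (c : E) δ with hA
  have D : Set.Pairwise (s : Set E) (Disjoint on fun c => ball (c : E) δ) := by
    rintro c hc d hd hcd
    apply ball_disjoint_ball
    rw [dist_eq_norm]
    have := h c hc d hd hcd
    linarith
  have A_subset : A ⊆ ball (0 : E) (R + δ) := by
    refine iUnion₂_subset fun x hx => ?_
    apply ball_subset_ball'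
    calc
      δ + dist x 0 ≤ δ + R := by rw [dist_zero_right]; exact add_le_add le_rfl (hs x hx)
      _ = R + δ := by ring
  have I :
    (s.card : ℝ≥0∞) * ENNReal.ofReal (δ ^ finrank ℝ E) * μ (ball 0 1) ≤
      ENNReal.ofReal ((R + δ) ^ finrank ℝ E) * μ (ball 0 1) :=
    calc
      (s.card : ℝ≥0∞) * ENNReal.ofReal (δ ^ finrank ℝ E) * μ (ball 0 1) = μ A := by
        rw [hA, measure_biUnion_finset D fun c _ => measurableSet_ball]
        simp only [μ.addHaar_ball_of_pos _ hδ]
        simp only [Finset.sum_const, nsmul_eq_mul, mul_assoc]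
      _ ≤ μ (ball (0 : E) (R + δ)) := measure_mono A_subset
      _ = ENNReal.ofReal ((R + δ) ^ finrank ℝ E) * μ (ball 0 1) := by
        simp only [μ.addHaar_ball_of_pos _ ρpos]
  have J : (s.card : ℝ≥0∞) * ENNReal.ofReal (δ ^ finrank ℝ E) ≤
      ENNReal.ofReal ((R + δ) ^ finrank ℝ E) :=
    (ENNReal.mul_le_mul_iff_left (measure_ball_pos _ _ zero_lt_one).ne' measure_ball_lt_top.ne).1 I
  have K := ENNReal.toReal_le_of_le_ofReal (pow_nonneg ρpos.le _) J
  rw [ENNReal.toReal_mul, ENNReal.toReal_natCast, ENNReal.toReal_ofReal (by positivity)] at K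
  rw [div_pow, le_div_iff₀ (by positivity)]
  exact K

/-- A maximal separated set exists when the separated sets have bounded cardinality. -/
theorem COV_max {X : Type*} [PseudoMetricSpace X] (P : Set X) (δ : ℝ) (B : ℕ) (hδ : 0 ≤ δ)
    (hB : ∀ t : Finset X, (↑t : Set X) ⊆ P → (∀ p ∈ t, ∀ q ∈ t, p ≠ q → δ < dist p q) →
      t.card ≤ B) :
    ∃ t : Finset X, (↑t : Set X) ⊆ P ∧ (∀ p ∈ t, ∀ q ∈ t, p ≠ q → δ < dist p q) ∧
      ∀ p ∈ P, ∃ q ∈ t, dist p q ≤ δ := by
  classical
  let S : Set ℕ := {m | ∃ t : Finset X, (↑t : Set X) ⊆ P ∧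
    (∀ p ∈ t, ∀ q ∈ t, p ≠ q → δ < dist p q) ∧ t.card = m}
  have hS : BddAbove S := ⟨B, by rintro _ ⟨t, h1, h2, rfl⟩; exact hB t h1 h2⟩
  have hne : S.Nonempty := ⟨0, ∅, by simp, by simp, by simp⟩
  obtain ⟨t, h1, h2, h3⟩ := Nat.sSup_mem hne hS
  refine ⟨t, h1, h2, ?_⟩
  intro p hp
  by_contra hcon
  push Not at hcon
  have hpt : p ∉ t := by
    intro hpt
    have := hcon p hpt
    rw [dist_self] at this
    linarith
  have hmem : t.card + 1 ∈ S := by
    refine ⟨insert p t, ?_, ?_, Finset.card_insert_of_notMem hpt⟩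
    · intro x hx
      rw [Finset.coe_insert, Set.mem_insert_iff] at hx
      rcases hx with rfl | hx
      · exact hp
      · exact h1 hx
    · intro a ha b hb hab
      rw [Finset.mem_insert] at ha hb
      rcases ha with rfl | ha
      · rcases hb with rfl | hb
        · exact absurd rfl hab
        · exact hcon b hb
      · rcases hb with rfl | hb
        · rw [dist_comm]; exact hcon a ha
        · exact h2 a ha b hb hab
  have := le_csSup hS hmem
  omega

/-- Adding a point to an independent family. -/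
theorem COV_snoc {n k : ℕ} {t : ℝ} {x : Fin k → En n} {p : En n} (hx : Indep t x)
    (hp : t ≤ infDist p (affineSpan ℝ (range x) : Set (En n))) :
    Indep t (Fin.snoc x p : Fin (k + 1) → En n) := by
  intro j
  refine Fin.lastCases ?_ (fun j' => ?_) j
  · intro _
    rw [Fin.snoc_last]
    have e : (Fin.snoc x p : Fin (k + 1) → En n) '' {i | i < Fin.last k} = range x := by
      ext z
      constructor
      · rintro ⟨i, hi, rfl⟩
        have hi' : i ≠ Fin.last k := ne_of_lt hi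
        obtain ⟨i', rfl⟩ := Fin.exists_castSucc_eq.2 hi'
        rw [Fin.snoc_castSucc]
        exact ⟨i', rfl⟩
      · rintro ⟨i, rfl⟩
        exact ⟨i.castSucc, Fin.castSucc_lt_last i, Fin.snoc_castSucc (α := fun _ => En n) p x i⟩
    rw [e]
    exact hp
  · intro hj
    rw [Fin.snoc_castSucc]
    have e : (Fin.snoc x p : Fin (k + 1) → En n) '' {i | i < j'.castSucc} = x '' {i | i < j'} := by
      ext z
      constructor
      · rintro ⟨i, hi, rfl⟩
        have hi' : i ≠ Fin.last k := ne_of_lt (lt_trans hi (Fin.castSucc_lt_last j'))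
        obtain ⟨i', rfl⟩ := Fin.exists_castSucc_eq.2 hi'
        rw [Fin.snoc_castSucc]
        exact ⟨i', Fin.castSucc_lt_castSucc_iff.1 hi, rfl⟩
      · rintro ⟨i, hi, rfl⟩
        exact ⟨i.castSucc, Fin.castSucc_lt_castSucc_iff.2 hi,
          Fin.snoc_castSucc (α := fun _ => En n) p x i⟩
    rw [e]
    exact hx j' hj

theorem COV : StmtCOV := by
  classical
  intro n hn
  refine ⟨(8 / 3) ^ (n - 2), by positivity, ?_⟩
  intro τ x₀ ℓ P hτ hτ1 hℓ hP hno
  have hτℓ : 0 < τ * ℓ := mul_pos hτ hℓ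
  rcases P.eq_empty_or_nonempty with rfl | ⟨p₀, hp₀⟩
  · refine ⟨∅, by simp, by simp, ?_⟩
    rw [Finset.card_empty, Nat.cast_zero]
    positivity
  -- the maximal independent family
  let Q : ℕ → Prop := fun k => ∃ x : Fin k → En n, (∀ i, x i ∈ P) ∧ Indep (τ * ℓ) x
  have hex : ∃ k, ¬ Q k := ⟨n, hno⟩
  have hQ1 : Q 1 := ⟨fun _ => p₀, fun _ => hp₀, fun j hj => by omega⟩
  have hQ0 : Q 0 := ⟨fun i => i.elim0, fun i => i.elim0, fun j _ => j.elim0⟩
  have hk1 : 2 ≤ Nat.find hex := by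
    by_contra hlt
    push Not at hlt
    have h := Nat.find_spec hex
    have h' : Nat.find hex = 0 ∨ Nat.find hex = 1 := by omega
    rcases h' with h' | h'
    · rw [h'] at h; exact h hQ0
    · rw [h'] at h; exact h hQ1
  have hkn : Nat.find hex ≤ n := Nat.find_min' hex hno
  obtain ⟨m, hm⟩ : ∃ m, Nat.find hex = m + 2 := ⟨Nat.find hex - 2, by omega⟩
  have hQm : Q (m + 1) := by
    by_contra hcon
    have := Nat.find_min' hex hcon
    omega
  have hQm' : ¬ Q (m + 2) := by rw [← hm]; exact Nat.find_spec hex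
  obtain ⟨x, hxP, hxI⟩ := hQm
  set V : AffineSubspace ℝ (En n) := affineSpan ℝ (range x) with hV
  have hx0V : x 0 ∈ V := subset_affineSpan ℝ _ ⟨0, rfl⟩
  have hnear : ∀ p ∈ P, ∃ v ∈ V, dist p v < τ * ℓ := by
    intro p hp
    have h1 : infDist p (V : Set (En n)) < τ * ℓ := by
      by_contra hcon
      push Not at hcon
      apply hQm'
      refine ⟨Fin.snoc x p, ?_, COV_snoc hxI hcon⟩
      intro i
      refine Fin.lastCases ?_ (fun i' => ?_) i
      · rw [Fin.snoc_last]; exact hp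
      · rw [Fin.snoc_castSucc]; exact hxP i'
    obtain ⟨v, hv, hd⟩ := (infDist_lt_iff ⟨x 0, hx0V⟩).1 h1
    exact ⟨v, hv, hd⟩
  choose! v hvV hvd using hnear
  -- the packing bound
  have hcard : ∀ t : Finset (En n), (↑t : Set (En n)) ⊆ P →
      (∀ p ∈ t, ∀ q ∈ t, p ≠ q → 8 * τ * ℓ < dist p q) →
      (t.card : ℝ) ≤ (8 / (3 * τ)) ^ (n - 2) := by
    intro t ht hsep
    let w : En n → V.direction := fun p =>
      if h : p ∈ P then ⟨v p -ᵥ x 0, AffineSubspace.vsub_mem_direction (hvV p h) hx0V⟩ else 0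
    have hw : ∀ p ∈ P, ((w p : V.direction) : En n) = v p - x 0 := by
      intro p hp
      simp only [w]
      rw [dif_pos hp]
      rfl
    have hwsep : ∀ p ∈ t, ∀ q ∈ t, p ≠ q → 2 * (3 * τ * ℓ) < ‖w p - w q‖ := by
      intro p hp q hq hpq
      have h1 := hsep p hp q hq hpq
      have h2 := hvd p (ht hp)
      have h3 := hvd q (ht hq)
      have e : ‖w p - w q‖ = dist (v p) (v q) := by
        rw [Submodule.coe_norm, Submodule.coe_sub, hw p (ht hp), hw q (ht hq), dist_eq_norm]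
        congr 1
        abel
      rw [e]
      have h4 : dist p q ≤ dist p (v p) + dist (v p) (v q) + dist (v q) q :=
        dist_triangle4 _ _ _ _
      rw [dist_comm (v q) q] at h4
      linarith
    have hinj : Set.InjOn w (t : Set (En n)) := by
      intro p hp q hq hpq
      by_contra hne
      have := hwsep p hp q hq hne
      rw [hpq, sub_self, norm_zero] at this
      have : 0 < 2 * (3 * τ * ℓ) := by positivity
      linarith
    have hnorm : ∀ p ∈ t, ‖w p‖ ≤ 5 * ℓ := by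
      intro p hp
      rw [Submodule.coe_norm, hw p (ht hp), ← dist_eq_norm]
      have h1 := hvd p (ht hp)
      have h2 : dist p x₀ ≤ 2 * ℓ := hP (ht hp)
      have h3 : dist (x 0) x₀ ≤ 2 * ℓ := hP (hxP 0)
      have h4 : dist (v p) (x 0) ≤ dist (v p) p + dist p x₀ + dist x₀ (x 0) :=
        dist_triangle4 _ _ _ _
      rw [dist_comm (v p) p, dist_comm x₀ (x 0)] at h4
      have h5 : τ * ℓ ≤ 1 * ℓ := by gcongr
      linarith
    have hpack := COV_pack (t.image w) (R := 5 * ℓ) (δ := 3 * τ * ℓ) (by positivity)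
      (by positivity) (by
        intro c hc
        obtain ⟨p, hp, rfl⟩ := Finset.mem_image.1 hc
        exact hnorm p hp) (by
        intro c hc d hd hcd
        obtain ⟨p, hp, rfl⟩ := Finset.mem_image.1 hc
        obtain ⟨q, hq, rfl⟩ := Finset.mem_image.1 hd
        exact (hwsep p hp q hq (fun h => hcd (by rw [h]))).le)
    rw [Finset.card_image_of_injOn hinj] at hpack
    have hdim : finrank ℝ V.direction ≤ n - 2 := by
      rw [hV, direction_affineSpan]
      have := finrank_vectorSpan_range_le ℝ x (n := m) (by simp)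
      omega
    have h1 : (5 * ℓ + 3 * τ * ℓ) / (3 * τ * ℓ) ≤ 8 / (3 * τ) := by
      rw [div_le_div_iff₀ (by positivity) (by positivity)]
      have : τ * ℓ * τ ≤ τ * ℓ * 1 := by gcongr
      nlinarith
    have h2 : 1 ≤ 8 / (3 * τ) := by
      rw [le_div_iff₀ (by positivity)]
      linarith
    calc (t.card : ℝ) ≤ ((5 * ℓ + 3 * τ * ℓ) / (3 * τ * ℓ)) ^ finrank ℝ V.direction := hpack
      _ ≤ (8 / (3 * τ)) ^ finrank ℝ V.direction := by gcongr
      _ ≤ (8 / (3 * τ)) ^ (n - 2) := pow_le_pow_right₀ h2 hdim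
  obtain ⟨t, ht1, ht2, ht3⟩ := COV_max P (8 * τ * ℓ) ⌊(8 / (3 * τ)) ^ (n - 2)⌋₊ (by positivity)
    (fun t h1 h2 => Nat.le_floor (hcard t h1 h2))
  refine ⟨t, ht1, ht3, ?_⟩
  have h := hcard t ht1 ht2
  have e : (8 / (3 * τ)) ^ (n - 2) = (8 / 3) ^ (n - 2) * (1 / τ) ^ (n - 2) := by
    rw [← mul_pow]
    congr 1
    field_simp
  rw [← e]
  exact h

end EAGrad

end

section

/-!
MP_ea6116_an: item DBL, uniform doubling of `Dg`.
-/

set_option autoImplicit false

open MeasureTheory Metric Set Filter Topology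
open scoped ENNReal NNReal ContDiff Pointwise

namespace EAGrad

variable {n : ℕ}

/-! ### The weight -/

theorem DBL_wt_nonneg (z : En n) : 0 ≤ wt z := Real.smoothTransition.nonneg _

theorem DBL_wt_one {z : En n} (hz : ‖z‖ ≤ 1) : wt z = 1 := by
  unfold wt eta
  apply Real.smoothTransition.one_of_one_le
  nlinarith [norm_nonneg z]

theorem DBL_wt_zero {z : En n} (hz : 3 / 2 ≤ ‖z‖) : wt z = 0 := by
  unfold wt eta
  apply Real.smoothTransition.zero_of_nonpos
  nlinarith [norm_nonneg z]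

theorem DBL_wt_continuous : Continuous (wt : En n → ℝ) := by
  unfold wt eta
  exact Real.smoothTransition.continuous.comp (by fun_prop)

theorem DBL_wt_hasCompactSupport : HasCompactSupport (wt : En n → ℝ) :=
  HasCompactSupport.intro (isCompact_closedBall 0 (3 / 2)) fun z hz =>
    DBL_wt_zero (by
      have := fun h => hz (mem_closedBall_zero_iff.2 h)
      exact (not_le.1 this).le)

theorem DBL_wt_integrable : Integrable (wt : En n → ℝ) :=
  DBL_wt_continuous.integrable_of_hasCompactSupport DBL_wt_hasCompactSupport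

theorem DBL_wt_integral_nonneg : 0 ≤ ∫ z : En n, wt z := integral_nonneg DBL_wt_nonneg

theorem DBL_integrable {A : En n → Op n} {u : En n → ℝ} {R ρ : ℝ} (h : Sol A u (ball 0 R))
    (hρ : 0 < ρ) (hR : 2 * ρ ≤ R) :
    Integrable (fun z : En n => ‖gradient u (ρ • z)‖ ^ 2 * wt z) := by
  refine Continuous.integrable_of_hasCompactSupport ?_ DBL_wt_hasCompactSupport.mul_left
  refine continuous_mul_of_tsupport (U := ball 0 2) isOpen_ball ?_ DBL_wt_continuous ?_
  · refine ContinuousOn.pow (ContinuousOn.norm ?_) 2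
    refine h.continuousOn_gradient.comp (by fun_prop) fun z hz => ?_
    rw [mem_ball_zero_iff] at hz ⊢
    rw [norm_smul, Real.norm_of_nonneg hρ.le]
    nlinarith
  · refine (closure_minimal (t := closedBall 0 (3 / 2)) ?_ isClosed_closedBall).trans
      (closedBall_subset_ball (by norm_num))
    intro z hz
    by_contra h'
    exact hz (DBL_wt_zero (not_le.1 fun h => h' (mem_closedBall_zero_iff.2 h)).le)

theorem DBL_EE_le {A : En n → Op n} {u : En n → ℝ} {R ρ : ℝ} (h : Sol A u (ball 0 R))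
    (hρ : 0 < ρ) (hR : 2 * ρ < R) :
    EE u ρ ≤ (∫ z : En n, wt z) * Dg u 0 (2 * ρ) ^ 2 := by
  unfold EE
  rw [mul_comm, ← integral_const_mul]
  refine integral_mono (DBL_integrable h hρ hR.le) (DBL_wt_integrable.const_mul _) fun z => ?_
  by_cases hz : 3 / 2 ≤ ‖z‖
  · simp [DBL_wt_zero hz]
  · refine mul_le_mul_of_nonneg_right ?_ (DBL_wt_nonneg z)
    refine pow_le_pow_left₀ (norm_nonneg _) ?_ 2
    refine h.le_Dg (closedBall_subset_ball hR) ?_
    rw [mem_closedBall_zero_iff, norm_smul, Real.norm_of_nonneg hρ.le]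
    nlinarith [not_le.1 hz]

theorem DBL_EE_nonneg (u : En n → ℝ) (ρ : ℝ) : 0 ≤ EE u ρ :=
  integral_nonneg fun z => mul_nonneg (sq_nonneg _) (DBL_wt_nonneg z)

theorem DBL_setIntegral_le {A : En n → Op n} {u : En n → ℝ} {R ρ : ℝ} (h : Sol A u (ball 0 R))
    (hρ : 0 < ρ) (hR : 2 * ρ ≤ R) :
    ∫ y in closedBall (0 : En n) ρ, ‖gradient u y‖ ^ 2 ≤ ρ ^ n * EE u ρ := by
  have h1 := Measure.setIntegral_comp_smul_of_pos (volume : Measure (En n))
    (fun y => ‖gradient u y‖ ^ 2) (closedBall 0 1) hρ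
  have h2 : ρ • closedBall (0 : En n) 1 = closedBall 0 ρ := by
    rw [smul_unitClosedBall, Real.norm_of_nonneg hρ.le]
  rw [h2, finrank_euclideanSpace, Fintype.card_fin] at h1
  have h3 : ∫ z in closedBall (0 : En n) 1, ‖gradient u (ρ • z)‖ ^ 2 ≤ EE u ρ := by
    unfold EE
    have h4 : ∫ z in closedBall (0 : En n) 1, ‖gradient u (ρ • z)‖ ^ 2 =
        ∫ z in closedBall (0 : En n) 1, ‖gradient u (ρ • z)‖ ^ 2 * wt z := by
      refine setIntegral_congr_fun measurableSet_closedBall fun z hz => ?_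
      simp [DBL_wt_one (mem_closedBall_zero_iff.1 hz)]
    rw [h4]
    exact setIntegral_le_integral (DBL_integrable h hρ hR)
      (Eventually.of_forall fun z => mul_nonneg (sq_nonneg _) (DBL_wt_nonneg z))
  have h5 : 0 < ρ ^ n := pow_pos hρ n
  have h6 : ∫ y in closedBall (0 : En n) ρ, ‖gradient u y‖ ^ 2 =
      ρ ^ n * ∫ z in closedBall (0 : En n) 1, ‖gradient u (ρ • z)‖ ^ 2 := by
    rw [h1, smul_eq_mul]
    field_simp
  rw [h6]
  exact mul_le_mul_of_nonneg_left h3 h5.le

/-- From the energy to the supremum. -/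
theorem DBL_Dg_sq_le {C s₀ : ℝ} (hC : 0 < C) (hs₀ : 0 < s₀)
    (hR1 : ∀ (A : En n → Op n) (u : En n → ℝ) (U : Set (En n)) (x : En n) (r : ℝ), 0 < r →
      Sol A u U → closedBall x r ⊆ U → Near s₀ (s₀ / r) A (closedBall x r) →
      ‖gradient u x‖ ^ 2 ≤ C / r ^ n * ∫ y in closedBall x r, ‖gradient u y‖ ^ 2)
    {A : En n → Op n} {u : En n → ℝ} (h : Sol A u (ball 0 1))
    (hN : Near s₀ s₀ A (ball 0 1)) {ρ : ℝ} (hρ : 0 < ρ) (hρ2 : ρ ≤ 1 / 2) :
    Dg u 0 (ρ / 2) ^ 2 ≤ C * 2 ^ n * EE u ρ := by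
  have hsub : closedBall (0 : En n) ρ ⊆ ball 0 1 := closedBall_subset_ball (by linarith)
  obtain ⟨y, hy, hyD⟩ := h.exists_eq_Dg (x := 0) (r := ρ / 2) (by positivity)
    ((closedBall_subset_closedBall (by linarith)).trans hsub)
  rw [← hyD]
  have hyb : closedBall y (ρ / 2) ⊆ closedBall 0 ρ := by
    intro z hz
    rw [mem_closedBall] at hz hy ⊢
    linarith [dist_triangle z y 0]
  have h1 := hR1 A u (ball 0 1) y (ρ / 2) (by positivity) h (hyb.trans hsub)
    (hN.mono le_rfl (by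
      rw [le_div_iff₀ (by positivity)]
      nlinarith) (hyb.trans hsub))
  refine h1.trans ?_
  have hint : IntegrableOn (fun y => ‖gradient u y‖ ^ 2) (closedBall (0 : En n) ρ) :=
    (((h.continuousOn_gradient.mono hsub).norm).pow 2).integrableOn_compact
      (isCompact_closedBall _ _)
  have h2 : ∫ z in closedBall y (ρ / 2), ‖gradient u z‖ ^ 2 ≤
      ∫ z in closedBall (0 : En n) ρ, ‖gradient u z‖ ^ 2 :=
    setIntegral_mono_set hint (Eventually.of_forall fun z => sq_nonneg _)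
      (LE.le.eventuallyLE hyb)
  have h3 := h2.trans (DBL_setIntegral_le h hρ (by linarith))
  calc C / (ρ / 2) ^ n * ∫ z in closedBall y (ρ / 2), ‖gradient u z‖ ^ 2
      ≤ C / (ρ / 2) ^ n * (ρ ^ n * EE u ρ) :=
        mul_le_mul_of_nonneg_left h3 (by positivity)
    _ = C * 2 ^ n * EE u ρ := by
        rw [div_pow]
        have : ρ ^ n ≠ 0 := (pow_pos hρ n).ne'
        field_simp

/-! ### The linear change of variables -/

/-- The transformed coefficients. -/
noncomputable def DBL_A (A : En n → Op n) (x : En n) (T : En n ≃L[ℝ] En n) : En n → Op n :=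
  fun z => (T.symm : Op n) ∘L (A (x + T z) ∘L ContinuousLinearMap.adjoint (T.symm : Op n))

theorem DBL_norm_T {T : En n ≃L[ℝ] En n} {c : ℝ} (hc : 0 ≤ c) (h : ∀ ξ, ‖T ξ‖ ≤ c * ‖ξ‖) :
    ‖(T : Op n)‖ ≤ c :=
  ContinuousLinearMap.opNorm_le_bound _ hc h

theorem DBL_A_sub {A : En n → Op n} {x : En n} {T : En n ≃L[ℝ] En n}
    (hT' : ∀ ξ, ‖T.symm ξ‖ ≤ 2 * ‖ξ‖) (z : En n) (B : Op n) :
    ‖DBL_A A x T z - (T.symm : Op n) ∘L (B ∘L ContinuousLinearMap.adjoint (T.symm : Op n))‖ ≤
      4 * ‖A (x + T z) - B‖ := by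
  have h1 : ‖(T.symm : Op n)‖ ≤ 2 := DBL_norm_T (T := T.symm) (by norm_num) hT'
  have h2 : ‖ContinuousLinearMap.adjoint (T.symm : Op n)‖ ≤ 2 := by
    rw [LinearIsometryEquiv.norm_map]; exact h1
  have h3 : DBL_A A x T z - (T.symm : Op n) ∘L (B ∘L ContinuousLinearMap.adjoint (T.symm : Op n)) =
      (T.symm : Op n) ∘L ((A (x + T z) - B) ∘L ContinuousLinearMap.adjoint (T.symm : Op n)) := by
    unfold DBL_A
    ext1 v
    simp
  rw [h3]
  calc _ ≤ ‖(T.symm : Op n)‖ * ‖(A (x + T z) - B) ∘L ContinuousLinearMap.adjoint (T.symm : Op n)‖ :=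
        ContinuousLinearMap.opNorm_comp_le _ _
    _ ≤ ‖(T.symm : Op n)‖ * (‖A (x + T z) - B‖ *
        ‖ContinuousLinearMap.adjoint (T.symm : Op n)‖) := by
        gcongr
        exact ContinuousLinearMap.opNorm_comp_le _ _
    _ ≤ 2 * (‖A (x + T z) - B‖ * 2) := by gcongr
    _ = _ := by ring

theorem DBL_Near {A : En n → Op n} {x : En n} {T : En n ≃L[ℝ] En n} {s : ℝ} {U : Set (En n)}
    (hs : 0 ≤ s) (hT : ∀ ξ, ‖T ξ‖ ≤ 2 * ‖ξ‖)
    (hT' : ∀ ξ, ‖T.symm ξ‖ ≤ 2 * ‖ξ‖)
    (hTT : (T : Op n) ∘L ContinuousLinearMap.adjoint (T : Op n) = A x)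
    (hN : Near s s A U) (hU : ∀ z ∈ ball (0 : En n) 1, x + T z ∈ U) :
    DBL_A A x T 0 = 1 ∧ Near (8 * s) (8 * s) (DBL_A A x T) (ball 0 1) := by
  have hid : (T.symm : Op n) ∘L (A x ∘L ContinuousLinearMap.adjoint (T.symm : Op n)) = 1 := by
    rw [← hTT]
    have h1 : ContinuousLinearMap.adjoint (T : Op n) ∘L
        ContinuousLinearMap.adjoint (T.symm : Op n) = 1 := by
      rw [← ContinuousLinearMap.adjoint_comp]
      have : (T.symm : Op n) ∘L (T : Op n) = 1 := by
        ext1 v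
        simp
      rw [this]
      ext1 v
      refine ext_inner_right ℝ fun w => ?_
      rw [ContinuousLinearMap.adjoint_inner_left]
      simp
    rw [ContinuousLinearMap.comp_assoc, h1]
    ext1 v
    simp
  have h0 : (0 : En n) ∈ ball (0 : En n) 1 := mem_ball_self one_pos
  have hxU : x ∈ U := by simpa using hU 0 h0
  have hA0 : DBL_A A x T 0 = 1 := by
    unfold DBL_A
    simpa using hid
  refine ⟨hA0, ⟨?_, ?_, ?_⟩⟩
  · intro z hz ξ η
    unfold DBL_A
    have h1 : ∀ v w : En n, inner ℝ ((T.symm : Op n) v) w =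
        inner ℝ v (ContinuousLinearMap.adjoint (T.symm : Op n) w) := fun v w => by
      rw [ContinuousLinearMap.adjoint_inner_right]
    have h2 : ∀ v w : En n, inner ℝ v ((T.symm : Op n) w) =
        inner ℝ (ContinuousLinearMap.adjoint (T.symm : Op n) v) w := fun v w => by
      rw [ContinuousLinearMap.adjoint_inner_left]
    change inner ℝ ((T.symm : Op n) (A (x + T z) (ContinuousLinearMap.adjoint (T.symm : Op n) ξ))) η
      = inner ℝ ξ ((T.symm : Op n) (A (x + T z) (ContinuousLinearMap.adjoint (T.symm : Op n) η)))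
    rw [h1, h2]
    exact hN.symm _ (hU z hz) _ _
  · intro z hz
    have h1 := DBL_A_sub (A := A) (x := x) hT' z (A x)
    rw [hid] at h1
    refine h1.trans ?_
    have h2 := hN.lip _ (hU z hz) x hxU
    have h3 : ‖x + T z - x‖ ≤ 2 * ‖z‖ := by
      rw [add_sub_cancel_left]; exact hT z
    have h4 : ‖z‖ < 1 := mem_ball_zero_iff.1 hz
    have h5 : s * ‖x + T z - x‖ ≤ s * 2 := by
      gcongr; linarith
    linarith
  · intro z hz z' hz'
    have h1 := DBL_A_sub (A := A) (x := x) hT' z (A (x + T z'))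
    refine (le_of_eq ?_).trans (h1.trans ?_)
    · rfl
    have h2 := hN.lip _ (hU z hz) _ (hU z' hz')
    have h3 : ‖x + T z - (x + T z')‖ ≤ 2 * ‖z - z'‖ := by
      rw [add_sub_add_left_eq_sub, ← map_sub]; exact hT _
    have h5 : s * ‖x + T z - (x + T z')‖ ≤ s * (2 * ‖z - z'‖) := by
      gcongr
    linarith

/-- Comparison of `Dg` under the change of variables. -/
theorem DBL_compare {A : En n → Op n} {u : En n → ℝ} {x : En n} {T : En n ≃L[ℝ] En n}
    {R ρ : ℝ} (hT : ∀ ξ, ‖T ξ‖ ≤ 2 * ‖ξ‖) (hT' : ∀ ξ, ‖T.symm ξ‖ ≤ 2 * ‖ξ‖)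
    (h : Sol A u (ball 0 R)) (hx : ‖x‖ + 4 < R)
    (h' : Sol (DBL_A A x T) (fun z => u (x + T z)) (ball 0 2))
    (hg : ∀ z, x + T z ∈ ball 0 R → gradient (fun z => u (x + T z)) z =
      ContinuousLinearMap.adjoint (T : Op n) (gradient u (x + T z)))
    (hρ1 : ρ ≤ 1) :
    Dg (fun z => u (x + T z)) 0 ρ ≤ 2 * Dg u x (2 * ρ) ∧
    (ρ ≤ 1 / 2 → Dg u x ρ ≤ 2 * Dg (fun z => u (x + T z)) 0 (2 * ρ)) := by
  have hsub : closedBall x 2 ⊆ ball 0 R := by
    intro y hy
    rw [mem_closedBall] at hy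
    rw [mem_ball_zero_iff]
    have : ‖y‖ ≤ ‖x‖ + dist y x := by
      have := norm_le_norm_add_norm_sub' y x
      rw [dist_eq_norm]
      linarith
    linarith
  have h1 : ‖ContinuousLinearMap.adjoint (T : Op n)‖ ≤ 2 := by
    rw [LinearIsometryEquiv.norm_map]; exact DBL_norm_T (by norm_num) hT
  have h2 : ‖ContinuousLinearMap.adjoint (T.symm : Op n)‖ ≤ 2 := by
    rw [LinearIsometryEquiv.norm_map]; exact DBL_norm_T (T := T.symm) (by norm_num) hT'
  constructor
  · refine Dg_le (mul_nonneg (by norm_num) (Dg_nonneg _ _ _)) fun z hz => ?_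
    rw [mem_closedBall_zero_iff] at hz
    have hz2 : x + T z ∈ closedBall x (2 * ρ) := by
      rw [mem_closedBall, dist_eq_norm, add_sub_cancel_left]
      linarith [hT z]
    have hz3 : closedBall x (2 * ρ) ⊆ ball 0 R :=
      (closedBall_subset_closedBall (by linarith)).trans hsub
    rw [hg z (hz3 hz2)]
    calc _ ≤ ‖ContinuousLinearMap.adjoint (T : Op n)‖ * ‖gradient u (x + T z)‖ :=
          ContinuousLinearMap.le_opNorm _ _
      _ ≤ 2 * Dg u x (2 * ρ) := by
          gcongr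
          exact h.le_Dg hz3 hz2
  · intro hρ2
    refine Dg_le (mul_nonneg (by norm_num) (Dg_nonneg _ _ _)) fun y hy => ?_
    have hz : x + T (T.symm (y - x)) = y := by simp
    have hyR : y ∈ ball 0 R := hsub (closedBall_subset_closedBall (by linarith) hy)
    rw [mem_closedBall, dist_eq_norm] at hy
    have hz2 : T.symm (y - x) ∈ closedBall (0 : En n) (2 * ρ) := by
      rw [mem_closedBall_zero_iff]
      linarith [hT' (y - x)]
    have h3 := hg (T.symm (y - x)) (by rw [hz]; exact hyR)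
    rw [hz] at h3
    have h4 : gradient u y = ContinuousLinearMap.adjoint (T.symm : Op n)
        (gradient (fun z => u (x + T z)) (T.symm (y - x))) := by
      rw [h3]
      refine ext_inner_right ℝ fun w => ?_
      rw [ContinuousLinearMap.adjoint_inner_left, ContinuousLinearMap.adjoint_inner_left]
      simp
    rw [h4]
    calc _ ≤ ‖ContinuousLinearMap.adjoint (T.symm : Op n)‖ *
          ‖gradient (fun z => u (x + T z)) (T.symm (y - x))‖ :=
          ContinuousLinearMap.le_opNorm _ _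
      _ ≤ 2 * Dg (fun z => u (x + T z)) 0 (2 * ρ) := by
          gcongr
          exact h'.le_Dg (closedBall_subset_ball (by linarith)) hz2

theorem DBL (hE : StmtDBLE) (hSL : StmtSL) (hR1 : StmtR1) (hLC : StmtLC) (hSQ : StmtSQ) :
    StmtDBL := by
  intro n K₀ N hn hK₀ hN
  obtain ⟨C, s₁, hC, hs₁, hR⟩ := hR1 n hn
  have hK0 : 0 < K₀ := by linarith
  obtain ⟨s₂, N₁, hs₂, hN₁, hS⟩ := hSL n (1 / 2) (1 / (64 * K₀)) 2 hn (by norm_num) (by norm_num)
    (by positivity) (by norm_num) le_rfl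
  set G : ℝ := (2 / (1 / 64)) ^ ((1 + 1 / 2) * max N N₁) with hG
  set W : ℝ := ∫ z : En n, wt z with hW
  have hW0 : 0 ≤ W := DBL_wt_integral_nonneg
  have hN' : 0 ≤ max N N₁ := hN.le.trans (le_max_left _ _)
  have hG1 : 1 ≤ G := Real.one_le_rpow (by norm_num) (by positivity)
  set F₁ : ℝ := 1 + 16 * W * G ^ 2 * (C * 2 ^ n) with hF₁
  have hF1 : 1 ≤ F₁ := by
    have : 0 ≤ 16 * W * G ^ 2 * (C * 2 ^ n) := by positivity
    linarith
  obtain ⟨s₃, hs₃, hD⟩ := hE n F₁ hn hF1
  set K₁ : ℝ := 16 * (C * 2 ^ n) * (2 * F₁) ^ 6 * W with hK₁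
  have hK1 : 0 ≤ K₁ := by positivity
  have hs0 : 0 < min (min (s₁ / 8) (s₂ / K₀)) (min (s₃ / 8) (1 / 2)) := by
    refine lt_min (lt_min ?_ ?_) (lt_min ?_ ?_) <;> positivity
  refine ⟨min (min (s₁ / 8) (s₂ / K₀)) (min (s₃ / 8) (1 / 2)), G + (1 + K₁), hs0, by linarith, ?_⟩
  set s₀ : ℝ := min (min (s₁ / 8) (s₂ / K₀)) (min (s₃ / 8) (1 / 2)) with hs₀
  have hs1 : 8 * s₀ ≤ s₁ := by
    have : s₀ ≤ s₁ / 8 := (min_le_left _ _).trans (min_le_left _ _)
    linarith
  have hs2 : s₀ ≤ s₂ / K₀ := (min_le_left _ _).trans (min_le_right _ _)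
  have hs3 : 8 * s₀ ≤ s₃ := by
    have : s₀ ≤ s₃ / 8 := (min_le_right _ _).trans (min_le_left _ _)
    linarith
  have hs4 : s₀ ≤ 1 / 2 := (min_le_right _ _).trans (min_le_right _ _)
  have hs2' : s₂ / K₀ ≤ s₂ := div_le_self hs₂.le (by linarith)
  intro A u hsol hnear hfreq x hx r hr hr1
  have hxn : ‖x‖ ≤ 3 / 2 := mem_closedBall_zero_iff.1 hx
  -- the slope bound
  have hslope : Dg u x 2 ≤ G * Dg u x (1 / 64) := by
    have hb : ball x (4 * K₀) ⊆ ball 0 (8 * K₀) := by
      intro y hy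
      rw [mem_ball, dist_eq_norm] at hy
      rw [mem_ball_zero_iff]
      have := norm_le_norm_add_norm_sub' y x
      linarith
    have h1 := (hS A u x K₀ (max N N₁) hK0 (hsol.mono isOpen_ball hb)
      (hnear.mono (hs2.trans hs2') hs2 hb) (le_max_right _ _)).1
      ((hfreq x (closedBall_subset_closedBall (by norm_num) hx)).trans
        (mul_le_mul_of_nonneg_right
          (Real.rpow_le_rpow_of_exponent_le (by norm_num) (le_max_left _ _)) (Dg_nonneg _ _ _)))
      (1 / 64) 2 (by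
        rw [div_mul_eq_mul_div, one_mul, div_le_iff₀ (by positivity)]
        linarith) (by norm_num) (by linarith)
    exact h1
  have hmono : ∀ a b : ℝ, a ≤ b → b ≤ 2 → Dg u x a ≤ Dg u x b := by
    intro a b hab hb
    refine hsol.Dg_mono ?_ (closedBall_subset_closedBall hab)
    intro y hy
    rw [mem_closedBall, dist_eq_norm] at hy
    rw [mem_ball_zero_iff]
    have := norm_le_norm_add_norm_sub' y x
    linarith
  by_cases hr2 : 1 / 64 ≤ r
  · calc Dg u x (2 * r) ≤ Dg u x 2 := hmono _ _ (by linarith) le_rfl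
      _ ≤ G * Dg u x (1 / 64) := hslope
      _ ≤ G * Dg u x r := by
        gcongr
        exact hmono _ _ hr2 (by linarith)
      _ ≤ (G + (1 + K₁)) * Dg u x r := by
        have := Dg_nonneg u x r
        gcongr
        linarith
  rw [not_le] at hr2
  have hxU : x ∈ ball (0 : En n) (8 * K₀) := by
    rw [mem_ball_zero_iff]; linarith
  -- the linear change of variables
  have hclose := hnear.close x hxU
  obtain ⟨T, hTT, hT1, hT2⟩ := hSQ n (A x) (1 / 4) 4 (by norm_num) (hnear.symm x hxU) (by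
    intro ξ
    have h1 : |inner ℝ ((A x - 1) ξ) ξ| ≤ 1 / 2 * ‖ξ‖ ^ 2 := by
      calc _ ≤ ‖(A x - 1) ξ‖ * ‖ξ‖ := abs_real_inner_le_norm _ _
        _ ≤ (‖A x - 1‖ * ‖ξ‖) * ‖ξ‖ := by
          gcongr
          exact ContinuousLinearMap.le_opNorm _ _
        _ ≤ (1 / 2 * ‖ξ‖) * ‖ξ‖ := by
          gcongr
          linarith
        _ = _ := by ring
    have h2 : inner ℝ ((A x) ξ) ξ = inner ℝ ((A x - 1) ξ) ξ + ‖ξ‖ ^ 2 := by
      rw [← real_inner_self_eq_norm_sq, ← inner_add_left]
      simp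
    rw [h2]
    have h3 := abs_le.1 h1
    have h4 := sq_nonneg ‖ξ‖
    constructor <;> linarith [h3.1, h3.2])
  have hT : ∀ ξ, ‖T ξ‖ ≤ 2 * ‖ξ‖ := fun ξ =>
    le_of_sq_le_sq (by rw [mul_pow]; linarith [hT1 ξ]) (by positivity)
  have hT' : ∀ ξ, ‖T.symm ξ‖ ≤ 2 * ‖ξ‖ := fun ξ =>
    le_of_sq_le_sq (by rw [mul_pow]; linarith [hT2 ξ]) (by positivity)
  have hmap : ∀ z ∈ ball (0 : En n) 2, x + T z ∈ ball (0 : En n) (8 * K₀) := by
    intro z hz
    rw [mem_ball_zero_iff] at hz ⊢
    have := norm_add_le x (T z)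
    linarith [hT z]
  obtain ⟨hsolx, hgrad⟩ := hLC n A u x (ball 0 (8 * K₀)) T hsol
  have hsol2 : Sol (DBL_A A x T) (fun z => u (x + T z)) (ball 0 2) :=
    hsolx.mono isOpen_ball hmap
  obtain ⟨hA0, hNx⟩ := DBL_Near hs0.le hT hT' hTT hnear
    (fun z hz => hmap z (ball_subset_ball (by norm_num) hz))
  have hsol1 : Sol (DBL_A A x T) (fun z => u (x + T z)) (ball 0 1) :=
    hsol2.mono isOpen_ball (ball_subset_ball (by norm_num))
  set v : En n → ℝ := fun z => u (x + T z) with hv
  have hcmp : ∀ ρ : ℝ, ρ ≤ 1 → Dg v 0 ρ ≤ 2 * Dg u x (2 * ρ) ∧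
      (ρ ≤ 1 / 2 → Dg u x ρ ≤ 2 * Dg v 0 (2 * ρ)) :=
    fun ρ hρ => DBL_compare (ρ := ρ) hT hT' hsol (by linarith) hsol2 hgrad hρ
  have hlow : ∀ ρ : ℝ, 0 < ρ → ρ ≤ 1 / 2 → Dg v 0 (ρ / 2) ^ 2 ≤ C * 2 ^ n * EE v ρ :=
    fun ρ h1 h2 => DBL_Dg_sq_le hC hs₁ hR hsol1 (hNx.mono hs1 hs1 Subset.rfl) h1 h2
  have hup : ∀ ρ : ℝ, 0 < ρ → ρ < 1 → EE v ρ ≤ W * Dg v 0 (2 * ρ) ^ 2 :=
    fun ρ h1 h2 => DBL_EE_le hsol2 h1 (by linarith)
  have hC2 : 0 < C * 2 ^ n := by positivity
  -- the hypotheses of `StmtDBLE`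
  have hkey : ∀ ρ : ℝ, 1 / 8 ≤ ρ → ρ ≤ 1 / 4 → ∀ ρ' : ℝ, 0 < ρ' → ρ' ≤ 1 / 2 →
      EE v ρ' ≤ F₁ * EE v ρ := by
    intro ρ h1 h2 ρ' h3 h4
    have e1 := hup ρ' h3 (by linarith)
    have e2 := (hcmp (2 * ρ') (by linarith)).1
    have e3 : Dg v 0 (2 * ρ') ≤ 2 * (G * Dg u x (1 / 64)) :=
      e2.trans (by
        have := (hmono (2 * (2 * ρ')) 2 (by linarith) le_rfl).trans hslope
        linarith)
    have e4 := (hcmp (ρ / 4) (by linarith)).2 (by linarith)
    have e5 : Dg u x (1 / 64) ≤ 2 * Dg v 0 (ρ / 2) := by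
      have e4' : 2 * (ρ / 4) = ρ / 2 := by ring
      rw [e4'] at e4
      exact (hmono _ (ρ / 4) (by linarith) (by linarith)).trans e4
    have e6 := hlow ρ (by linarith) (by linarith)
    have e7 : Dg v 0 (2 * ρ') ≤ 4 * G * Dg v 0 (ρ / 2) := by
      have : G * Dg u x (1 / 64) ≤ G * (2 * Dg v 0 (ρ / 2)) := by gcongr
      linarith
    calc EE v ρ' ≤ W * Dg v 0 (2 * ρ') ^ 2 := e1
      _ ≤ W * (4 * G * Dg v 0 (ρ / 2)) ^ 2 := by
          have := Dg_nonneg v 0 (2 * ρ')
          gcongr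
      _ = 16 * W * G ^ 2 * Dg v 0 (ρ / 2) ^ 2 := by ring
      _ ≤ 16 * W * G ^ 2 * (C * 2 ^ n * EE v ρ) := by gcongr
      _ ≤ F₁ * EE v ρ := by
          have := DBL_EE_nonneg v ρ
          rw [hF₁]
          nlinarith
  have hdouble := hD (DBL_A A x T) v hsol1 (hNx.mono hs3 hs3 Subset.rfl) hA0
    (hkey (1 / 4) (by norm_num) le_rfl (1 / 2) (by norm_num) le_rfl)
    (hkey (1 / 8) le_rfl (by norm_num) (1 / 4) (by norm_num) (by norm_num))
  have hiter : ∀ j k : ℕ, EE v (1 / 2 * (1 / 2) ^ k) ≤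
      (2 * F₁) ^ j * EE v (1 / 2 * (1 / 2) ^ (k + j)) := by
    intro j
    induction j with
    | zero => intro k; simp
    | succ j ih =>
      intro k
      have h1 := hdouble (k + j)
      have h2 : (1 : ℝ) / 4 * (1 / 2) ^ (k + j) = 1 / 2 * (1 / 2) ^ (k + (j + 1)) := by
        rw [← add_assoc, pow_succ]; ring
      rw [h2] at h1
      calc _ ≤ (2 * F₁) ^ j * EE v (1 / 2 * (1 / 2) ^ (k + j)) := ih k
        _ ≤ (2 * F₁) ^ j * (2 * F₁ * EE v (1 / 2 * (1 / 2) ^ (k + (j + 1)))) := by gcongr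
        _ = _ := by rw [pow_succ]; ring
  obtain ⟨k, hk1, hk2⟩ := exists_nat_pow_near_of_lt_one (x := 16 * r) (y := (1 / 2 : ℝ))
    (by positivity) (by linarith) (by norm_num) (by norm_num)
  set ρ : ℝ := 1 / 2 * (1 / 2) ^ k with hρ
  have hρ8 : 8 * r ≤ ρ := by linarith
  have hρ16 : ρ < 16 * r := by
    rw [pow_succ] at hk1
    linarith
  have hρ0 : 0 < ρ := by positivity
  have hρ2 : ρ ≤ 1 / 2 := by linarith
  have hρ6 : (1 : ℝ) / 2 * (1 / 2) ^ (k + 6) = ρ / 64 := by
    rw [hρ, pow_add]; ring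
  have f1 : Dg u x (2 * r) ≤ 2 * Dg v 0 (4 * r) := by
    have := (hcmp (2 * r) (by linarith)).2 (by linarith)
    rwa [← mul_assoc, show (2 : ℝ) * 2 = 4 by norm_num] at this
  have f2 : Dg v 0 (4 * r) ≤ Dg v 0 (ρ / 2) :=
    hsol1.Dg_mono (closedBall_subset_ball (by linarith))
      (closedBall_subset_closedBall (by linarith))
  have f3 := hlow ρ hρ0 hρ2
  have f4 := hiter 6 k
  rw [hρ6] at f4
  have f5 := hup (ρ / 64) (by positivity) (by linarith)
  have f6 : Dg v 0 (2 * (ρ / 64)) ≤ Dg v 0 (r / 2) :=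
    hsol1.Dg_mono (closedBall_subset_ball (by linarith))
      (closedBall_subset_closedBall (by linarith))
  have f7 : Dg v 0 (r / 2) ≤ 2 * Dg u x r := by
    have := (hcmp (r / 2) (by linarith)).1
    rwa [mul_div_cancel₀ r (by norm_num : (2 : ℝ) ≠ 0)] at this
  have g0 := Dg_nonneg u x r
  have g1 := Dg_nonneg v 0 (ρ / 2)
  have g2 := Dg_nonneg v 0 (2 * (ρ / 64))
  have f8 : Dg v 0 (ρ / 2) ^ 2 ≤ C * 2 ^ n * ((2 * F₁) ^ 6 * (W * (2 * Dg u x r) ^ 2)) := by
    refine f3.trans ?_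
    gcongr
    refine f4.trans ?_
    gcongr
    refine f5.trans ?_
    gcongr
    exact f6.trans f7
  have f9 : Dg u x (2 * r) ^ 2 ≤ K₁ * Dg u x r ^ 2 := by
    calc Dg u x (2 * r) ^ 2 ≤ (2 * Dg v 0 (ρ / 2)) ^ 2 := by
          have := Dg_nonneg u x (2 * r)
          gcongr
          linarith
      _ = 4 * Dg v 0 (ρ / 2) ^ 2 := by ring
      _ ≤ 4 * (C * 2 ^ n * ((2 * F₁) ^ 6 * (W * (2 * Dg u x r) ^ 2))) := by gcongr
      _ = K₁ * Dg u x r ^ 2 := by rw [hK₁]; ring
  refine le_of_sq_le_sq ?_ (by positivity)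
  refine f9.trans ?_
  rw [mul_pow]
  have : K₁ ≤ (G + (1 + K₁)) ^ 2 := by nlinarith
  gcongr

end EAGrad

end

section

/-!
MP_ea6116_an: uniform doubling of the energy at all scales (DBLE).
-/

set_option autoImplicit false

open MeasureTheory Metric Set Filter Topology
open scoped ENNReal NNReal ContDiff

namespace EAGrad

theorem dble_wt_nonneg {n : ℕ} (z : En n) : 0 ≤ wt z := Real.smoothTransition.nonneg _

theorem dble_EE_nonneg {n : ℕ} (u : En n → ℝ) (r : ℝ) : 0 ≤ EE u r :=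
  integral_nonneg fun z => mul_nonneg (sq_nonneg _) (dble_wt_nonneg z)

/-- The step of the induction: a sequence with `e₂² ≤ (1 + δ) e₃ e₁`. -/
theorem dble_step {e₁ e₂ e₃ δ G : ℝ} (h2 : 0 ≤ e₂) (h3 : 0 ≤ e₃) (hδ : 0 ≤ δ)
    (hG : 0 ≤ G) (h : e₁ ≤ G * e₂) (hlog : e₂ ^ 2 ≤ (1 + δ) * e₃ * e₁) :
    e₂ ≤ (1 + δ) * G * e₃ := by
  rcases h2.eq_or_lt with h0 | h0
  · rw [← h0]; positivity
  · have h4 : e₂ * e₂ ≤ ((1 + δ) * G * e₃) * e₂ := by
      calc e₂ * e₂ = e₂ ^ 2 := by ring
        _ ≤ (1 + δ) * e₃ * e₁ := hlog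
        _ ≤ (1 + δ) * e₃ * (G * e₂) := mul_le_mul_of_nonneg_left h (by positivity)
        _ = ((1 + δ) * G * e₃) * e₂ := by ring
    exact le_of_mul_le_mul_right h4 h0

theorem DBLE (hL4 : StmtL4) : StmtDBLE := by
  intro n F hn hF
  obtain ⟨C, s₁, hC, hs₁, hL⟩ := hL4 n (2 * F) hn (by linarith)
  refine ⟨min s₁ (2 / C), lt_min hs₁ (by positivity), ?_⟩
  intro A u hsol hnear hA0 h1 h2
  set s₀ := min s₁ (2 / C) with hs₀
  have hs0 : 0 < s₀ := lt_min hs₁ (by positivity)
  have hCs : C * s₀ ≤ 2 := by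
    have : s₀ ≤ 2 / C := min_le_right _ _
    calc C * s₀ ≤ C * (2 / C) := mul_le_mul_of_nonneg_left this hC.le
      _ = 2 := by field_simp
  have hcont : ContinuousOn A (ball 0 1) := by
    have hl : LipschitzOnWith (Real.toNNReal s₀) A (ball 0 1) := by
      refine LipschitzOnWith.of_dist_le_mul fun x hx y hy => ?_
      rw [dist_eq_norm, dist_eq_norm, Real.coe_toNNReal _ hs0.le]
      exact hnear.lip x hx y hy
    exact hl.continuousOn
  have hclose : ∀ x ∈ ball (0 : En n) 1, ‖A x - 1‖ ≤ s₀ * ‖x‖ := by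
    intro x hx
    have := hnear.lip x hx 0 (mem_ball_self one_pos)
    rwa [hA0, sub_zero] at this
  have key : ∀ k : ℕ,
      EE u (1 / 2 * (1 / 2) ^ k) ≤ F * (2 - (1 / 2) ^ k) * EE u (1 / 4 * (1 / 2) ^ k) ∧
      EE u (1 / 4 * (1 / 2) ^ k) ≤ F * (2 - (1 / 2) ^ (k + 1)) * EE u (1 / 8 * (1 / 2) ^ k) := by
    intro k
    induction k with
    | zero =>
      constructor
      · have e0 : F * (2 - (1 / 2 : ℝ) ^ 0) = F := by norm_num
        rw [e0, pow_zero, mul_one, mul_one]
        exact h1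
      · have h3 := dble_EE_nonneg u (1 / 8)
        simp only [pow_zero, mul_one, zero_add, pow_one]
        nlinarith
    | succ k ih =>
      obtain ⟨ha, hb⟩ := ih
      have e1 : (1 / 2 : ℝ) * (1 / 2) ^ (k + 1) = 1 / 4 * (1 / 2) ^ k := by ring
      have e2 : (1 / 4 : ℝ) * (1 / 2) ^ (k + 1) = 1 / 8 * (1 / 2) ^ k := by ring
      have e3 : (1 / 8 : ℝ) * (1 / 2) ^ (k + 1) = 1 / 16 * (1 / 2) ^ k := by ring
      rw [e1, e2, e3]
      refine ⟨hb, ?_⟩
      set q : ℝ := (1 / 2) ^ k with hq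
      have hq0 : 0 < q := by positivity
      have hq1 : q ≤ 1 := pow_le_one₀ (by norm_num) (by norm_num)
      set r : ℝ := 1 / 16 * q with hr
      have hr0 : 0 < r := by positivity
      have r8 : 8 * r = 1 / 2 * q := by rw [hr]; ring
      have r4 : 4 * r = 1 / 4 * q := by rw [hr]; ring
      have r2 : 2 * r = 1 / 8 * q := by rw [hr]; ring
      have hsub : ball (0 : En n) (12 * r) ⊆ ball 0 1 := ball_subset_ball (by
        rw [hr]; linarith)
      have hn8 := dble_EE_nonneg u (1 / 8 * q)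
      have hn4 := dble_EE_nonneg u (1 / 4 * q)
      have hn16 := dble_EE_nonneg u r
      have hlog := hL A u r s₀ hr0 hs0.le
        (by
          have h6 : s₀ ≤ s₁ := min_le_left _ _
          have h7 : s₀ * r ≤ s₀ * 1 :=
            mul_le_mul_of_nonneg_left (by rw [hr]; linarith) hs0.le
          linarith)
        (hsol.mono isOpen_ball hsub) (hcont.mono hsub) (fun x hx => hclose x (hsub hx))
        (by
          rw [r8, r4]
          refine ha.trans (mul_le_mul_of_nonneg_right ?_ hn4)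
          nlinarith)
        (by
          rw [r4, r2]
          refine hb.trans (mul_le_mul_of_nonneg_right ?_ hn8)
          have : (0 : ℝ) < (1 / 2) ^ (k + 1) := by positivity
          nlinarith)
      rw [r4, r2] at hlog
      have hqk : (1 / 2 : ℝ) ^ (k + 1) = q / 2 := by rw [hq]; ring
      have hqk2 : (1 / 2 : ℝ) ^ (k + 1 + 1) = q / 4 := by rw [hq]; ring
      rw [hqk] at hb
      rw [hqk2]
      have hG : 0 ≤ F * (2 - q / 2) := by
        have : 0 ≤ 2 - q / 2 := by linarith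
        positivity
      have hst := dble_step hn8 hn16 (by positivity : 0 ≤ C * (s₀ * r)) hG hb hlog
      refine hst.trans (mul_le_mul_of_nonneg_right ?_ hn16)
      have hd : C * (s₀ * r) ≤ q / 8 := by
        have : C * (s₀ * r) = (C * s₀) * r := by ring
        rw [this]
        calc (C * s₀) * r ≤ 2 * r := mul_le_mul_of_nonneg_right hCs hr0.le
          _ = q / 8 := by rw [hr]; ring
      have h5 : (1 + C * (s₀ * r)) * (2 - q / 2) ≤ 2 - q / 4 := by
        have h6 : C * (s₀ * r) * (2 - q / 2) ≤ C * (s₀ * r) * 2 :=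
          mul_le_mul_of_nonneg_left (by linarith) (by positivity)
        linarith
      calc (1 + C * (s₀ * r)) * (F * (2 - q / 2)) = F * ((1 + C * (s₀ * r)) * (2 - q / 2)) := by
            ring
        _ ≤ F * (2 - q / 4) := mul_le_mul_of_nonneg_left h5 (by linarith)
  intro k
  refine (key k).1.trans (mul_le_mul_of_nonneg_right ?_ (dble_EE_nonneg u _))
  have : (0 : ℝ) < (1 / 2) ^ k := by positivity
  nlinarith

end EAGrad

end

section

/-!
MP_ea6116_an: reduction of general coefficients to coefficients near the identity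
(item FA).
-/

set_option autoImplicit false

open MeasureTheory Metric Set Filter Topology
open scoped ENNReal NNReal ContDiff

namespace EAGrad

variable {n : ℕ}

theorem FA_gradient_const_mul (c : ℝ) (u : En n → ℝ) (x : En n) (h : DifferentiableAt ℝ u x) :
    gradient (fun y => c * u y) x = c • gradient u x := by
  have h1 : fderiv ℝ (fun y => c * u y) x = c • fderiv ℝ u x := fderiv_const_mul h c
  unfold gradient
  rw [h1]
  simp

theorem FA_Sol_const_mul {A : En n → Op n} {u : En n → ℝ} {U : Set (En n)} (h : Sol A u U)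
    (c : ℝ) : Sol A (fun y => c * u y) U where
  isOpen := h.isOpen
  c1 := contDiffOn_const.mul h.c1
  weak := by
    intro φ h1 h2 h3
    have h4 : (fun x => inner ℝ (A x (gradient (fun y => c * u y) x)) (gradient φ x)) =
        fun x => c * inner ℝ (A x (gradient u x)) (gradient φ x) := by
      ext x
      by_cases hx : x ∈ tsupport φ
      · rw [FA_gradient_const_mul c u x (h.differentiableAt (h3 hx)), map_smul,
          real_inner_smul_left]
      · have h5 : gradient φ x = 0 := by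
          have h6 : φ =ᶠ[𝓝 x] fun _ => 0 := notMem_tsupport_iff_eventuallyEq.1 hx
          unfold gradient
          rw [h6.fderiv_eq]
          simp
        rw [h5]; simp
    rw [h4, integral_const_mul, h.weak φ h1 h2 h3, mul_zero]

/-- The content of a Lipschitz image. -/
theorem FA_cont_image_le {d : ℝ} (hd : 0 ≤ d) {κ : ℝ≥0} (hκ : κ ≠ 0) {f : En n → En n}
    (hf : LipschitzWith κ f) (S : Set (En n)) :
    cont n d (f '' S) ≤ (κ : ℝ≥0∞) ^ d * cont n d S := by
  have h0 : (κ : ℝ≥0∞) ^ d ≠ 0 := by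
    rw [Ne, ENNReal.rpow_eq_zero_iff]
    push Not
    exact ⟨fun h => absurd h (by simpa using hκ), fun h => absurd h ENNReal.coe_ne_top⟩
  have htop : (κ : ℝ≥0∞) ^ d ≠ ⊤ := ENNReal.rpow_ne_top_of_nonneg hd ENNReal.coe_ne_top
  have h1 : ((κ : ℝ≥0∞) ^ d)⁻¹ * cont n d (f '' S) ≤ cont n d S := by
    conv_rhs => unfold cont
    refine le_iInf fun t => le_iInf fun ht => ?_
    have h2 : cont n d (f '' S) ≤ ∑' i, Metric.ediam (f '' t i) ^ d := by
      apply cont_le
      rw [← image_iUnion]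
      exact image_mono ht
    have h3 : ∑' i, Metric.ediam (f '' t i) ^ d ≤
        (κ : ℝ≥0∞) ^ d * ∑' i, Metric.ediam (t i) ^ d := by
      rw [← ENNReal.tsum_mul_left]
      refine ENNReal.tsum_le_tsum fun i => ?_
      rw [← ENNReal.mul_rpow_of_nonneg _ _ hd]
      exact ENNReal.rpow_le_rpow (hf.ediam_image_le _) hd
    calc ((κ : ℝ≥0∞) ^ d)⁻¹ * cont n d (f '' S)
        ≤ ((κ : ℝ≥0∞) ^ d)⁻¹ * ((κ : ℝ≥0∞) ^ d * ∑' i, Metric.ediam (t i) ^ d) := by
          gcongr; exact h2.trans h3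
      _ = ∑' i, Metric.ediam (t i) ^ d := by
          rw [← mul_assoc, ENNReal.inv_mul_cancel h0 htop, one_mul]
  calc cont n d (f '' S) = (κ : ℝ≥0∞) ^ d * (((κ : ℝ≥0∞) ^ d)⁻¹ * cont n d (f '' S)) := by
        rw [← mul_assoc, ENNReal.mul_inv_cancel h0 htop, one_mul]
    _ ≤ _ := by gcongr

/-- Reduction to coefficients near the identity. -/
theorem FA_reduce (hLC : StmtLC) (hSQ : StmtSQ) (hSC : StmtSC) {lam L ρ₁ : ℝ} (hlam : 1 ≤ lam)
    (hL : 0 ≤ L) {A : En n → Op n} {u : En n → ℝ} {z : En n} (hsol : Sol A u (ball z ρ₁))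
    (hell : Ell lam L A (ball z ρ₁)) {K t s₀ : ℝ} (hK : 1 ≤ K) (ht : 0 < t)
    (h1 : t * Real.sqrt lam * K ≤ ρ₁) (h2 : lam * L * (t * Real.sqrt lam) * K ≤ s₀) :
    ∃ (T : En n ≃L[ℝ] En n) (A' : En n → Op n) (w : En n → ℝ),
      (∀ ξ, ‖T ξ‖ ≤ Real.sqrt lam * ‖ξ‖) ∧ (∀ ξ, ‖T.symm ξ‖ ≤ Real.sqrt lam * ‖ξ‖) ∧
      Sol A' w (ball 0 K) ∧ Near s₀ s₀ A' (ball 0 K) ∧
      ∀ y ∈ ball (0 : En n) K, ‖gradient w y‖ ≤ ‖gradient u (z + t • T y)‖ ∧
        ‖gradient u (z + t • T y)‖ ≤ lam * ‖gradient w y‖ := by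
  have hlam0 : 0 < lam := by linarith
  have hsq : 0 < Real.sqrt lam := Real.sqrt_pos.2 hlam0
  have hsq2 : Real.sqrt lam * Real.sqrt lam = lam := Real.mul_self_sqrt hlam0.le
  have hρ₁ : 0 < ρ₁ := lt_of_lt_of_le (by positivity) h1
  have hz : z ∈ ball z ρ₁ := mem_ball_self hρ₁
  obtain ⟨T, hTT, hTb, hTs⟩ := hSQ n (A z) lam⁻¹ lam (by positivity) (hell.symm z hz)
    (hell.ell z hz)
  have hT : ∀ ξ, ‖T ξ‖ ≤ Real.sqrt lam * ‖ξ‖ := by
    intro ξ
    refine (sq_le_sq₀ (norm_nonneg _) (by positivity)).1 ?_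
    rw [mul_pow, Real.sq_sqrt hlam0.le]
    exact hTb ξ
  have hT' : ∀ ξ, ‖T.symm ξ‖ ≤ Real.sqrt lam * ‖ξ‖ := by
    intro ξ
    refine (sq_le_sq₀ (norm_nonneg _) (by positivity)).1 ?_
    rw [mul_pow, Real.sq_sqrt hlam0.le]
    have := hTs ξ
    rwa [inv_inv] at this
  have hnT : ‖(T : Op n)‖ ≤ Real.sqrt lam := ContinuousLinearMap.opNorm_le_bound _ hsq.le hT
  have hnT' : ‖(T.symm : Op n)‖ ≤ Real.sqrt lam :=
    ContinuousLinearMap.opNorm_le_bound _ hsq.le hT'
  have hnA : ‖ContinuousLinearMap.adjoint (T : Op n)‖ ≤ Real.sqrt lam := by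
    rw [LinearIsometryEquiv.norm_map]; exact hnT
  have hnA' : ‖ContinuousLinearMap.adjoint (T.symm : Op n)‖ ≤ Real.sqrt lam := by
    rw [LinearIsometryEquiv.norm_map]; exact hnT'
  -- scaling
  obtain ⟨R, hR⟩ : ∃ R : ℝ, R = ρ₁ / t := ⟨_, rfl⟩
  have hRt : R * t = ρ₁ := by rw [hR]; field_simp
  have hnear : Near (L * ρ₁ + ‖A z - 1‖) L A (ball z ρ₁) := by
    refine ⟨hell.symm, fun x hx => ?_, hell.lip⟩
    calc ‖A x - 1‖ = ‖(A x - A z) + (A z - 1)‖ := by congr 1; abel
      _ ≤ ‖A x - A z‖ + ‖A z - 1‖ := norm_add_le _ _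
      _ ≤ L * ‖x - z‖ + ‖A z - 1‖ := by gcongr; exact hell.lip x hx z hz
      _ ≤ L * ρ₁ + ‖A z - 1‖ := by
        gcongr
        rw [mem_ball, dist_eq_norm] at hx
        exact hx.le
  obtain ⟨hs1, -, hg1, -⟩ := hSC n A u z R t _ L ht (hRt ▸ hsol) (hRt ▸ hnear)
  obtain ⟨hs2, hg2⟩ := hLC n (fun y => A (z + t • y)) (fun y => t⁻¹ * u (z + t • y)) 0
    (ball 0 R) T hs1
  have hin : ∀ y ∈ ball (0 : En n) K, T y ∈ ball (0 : En n) R := by
    intro y hy
    rw [mem_ball, dist_zero_right] at hy ⊢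
    rw [hR, lt_div_iff₀ ht]
    calc ‖T y‖ * t ≤ Real.sqrt lam * ‖y‖ * t := by gcongr; exact hT y
      _ < Real.sqrt lam * K * t := by gcongr
      _ = t * Real.sqrt lam * K := by ring
      _ ≤ ρ₁ := h1
  have hin2 : ∀ y ∈ ball (0 : En n) K, z + t • T y ∈ ball z ρ₁ := by
    intro y hy
    have := hin y hy
    rw [mem_ball, dist_zero_right, hR, lt_div_iff₀ ht] at this
    rw [mem_ball, dist_eq_norm, add_sub_cancel_left, norm_smul, Real.norm_of_nonneg ht.le]
    linarith
  simp only [zero_add] at hs2 hg2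
  have hs3 := hs2.mono (V := ball 0 K) isOpen_ball (fun y hy => hin y hy)
  have hs4 := FA_Sol_const_mul hs3 (Real.sqrt lam)⁻¹
  refine ⟨T, _, _, hT, hT', hs4, ?_, ?_⟩
  · -- the coefficients
    have hAd : ∀ v w : En n, inner ℝ (T.symm v) w =
        inner ℝ v (ContinuousLinearMap.adjoint (T.symm : Op n) w) := by
      intro v w
      exact (ContinuousLinearMap.adjoint_inner_right (T.symm : Op n) v w).symm
    have hid : (T.symm : Op n) ∘L (A z ∘L ContinuousLinearMap.adjoint (T.symm : Op n)) = 1 := by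
      rw [← hTT]
      have e1 : ContinuousLinearMap.adjoint (T : Op n) ∘L
          ContinuousLinearMap.adjoint (T.symm : Op n) = 1 := by
        rw [← ContinuousLinearMap.adjoint_comp]
        have : (T.symm : Op n) ∘L (T : Op n) = 1 := by ext x : 1; simp
        rw [this]
        exact ContinuousLinearMap.adjoint_id
      rw [ContinuousLinearMap.comp_assoc, e1]
      ext x : 1
      simp
    have hlip : ∀ x ∈ ball (0 : En n) K, ∀ y ∈ ball (0 : En n) K,
        ‖(T.symm : Op n) ∘L (A (z + t • T x) ∘L ContinuousLinearMap.adjoint (T.symm : Op n)) -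
          (T.symm : Op n) ∘L (A (z + t • T y) ∘L ContinuousLinearMap.adjoint (T.symm : Op n))‖ ≤
        lam * L * (t * Real.sqrt lam) * ‖x - y‖ := by
      intro x hx y hy
      have e1 : (T.symm : Op n) ∘L (A (z + t • T x) ∘L ContinuousLinearMap.adjoint (T.symm : Op n))
          - (T.symm : Op n) ∘L (A (z + t • T y) ∘L ContinuousLinearMap.adjoint (T.symm : Op n)) =
          (T.symm : Op n) ∘L ((A (z + t • T x) - A (z + t • T y)) ∘L
            ContinuousLinearMap.adjoint (T.symm : Op n)) := by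
        ext v : 1
        simp
      rw [e1]
      have e2 := hell.lip _ (hin2 x hx) _ (hin2 y hy)
      have e3 : ‖z + t • T x - (z + t • T y)‖ ≤ t * (Real.sqrt lam * ‖x - y‖) := by
        have : z + t • T x - (z + t • T y) = t • T (x - y) := by
          rw [map_sub, smul_sub]; abel
        rw [this, norm_smul, Real.norm_of_nonneg ht.le]
        gcongr
        exact hT _
      calc _ ≤ ‖(T.symm : Op n)‖ * (‖A (z + t • T x) - A (z + t • T y)‖ *
            ‖ContinuousLinearMap.adjoint (T.symm : Op n)‖) :=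
            (ContinuousLinearMap.opNorm_comp_le _ _).trans
              (mul_le_mul_of_nonneg_left (ContinuousLinearMap.opNorm_comp_le _ _) (norm_nonneg _))
        _ ≤ Real.sqrt lam * ((L * (t * (Real.sqrt lam * ‖x - y‖))) * Real.sqrt lam) := by
            gcongr
            exact e2.trans (by gcongr)
        _ = (Real.sqrt lam * Real.sqrt lam) * L * (t * Real.sqrt lam) * ‖x - y‖ := by ring
        _ = _ := by rw [hsq2]
    have hκ : lam * L * (t * Real.sqrt lam) ≤ s₀ := by
      refine le_trans ?_ h2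
      exact le_mul_of_one_le_right (by positivity) hK
    refine ⟨?_, ?_, ?_⟩
    · intro x hx ξ η
      simp only [ContinuousLinearMap.comp_apply, ContinuousLinearEquiv.coe_coe]
      rw [hAd, hell.symm _ (hin2 x hx), real_inner_comm _ ξ, hAd, real_inner_comm]
    · intro x hx
      have h3 := hlip x hx 0 (mem_ball_self (by linarith))
      simp only [map_zero, smul_zero, add_zero, sub_zero] at h3
      rw [hid] at h3
      refine h3.trans ?_
      have hxK : ‖x‖ ≤ K := by
        rw [mem_ball, dist_zero_right] at hx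
        exact hx.le
      calc lam * L * (t * Real.sqrt lam) * ‖x‖ ≤ lam * L * (t * Real.sqrt lam) * K := by gcongr
        _ ≤ s₀ := h2
    · intro x hx y hy
      exact (hlip x hx y hy).trans (by gcongr)
  · intro y hy
    have hd : DifferentiableAt ℝ (fun y => t⁻¹ * u (z + t • T y)) y := hs3.differentiableAt hy
    have hgw : gradient (fun y => (Real.sqrt lam)⁻¹ * (t⁻¹ * u (z + t • T y))) y =
        (Real.sqrt lam)⁻¹ • ContinuousLinearMap.adjoint (T : Op n) (gradient u (z + t • T y)) := by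
      rw [FA_gradient_const_mul _ _ _ hd, hg2 y (hin y hy), hg1]
    rw [hgw, norm_smul, Real.norm_of_nonneg (by positivity)]
    constructor
    · calc (Real.sqrt lam)⁻¹ * ‖ContinuousLinearMap.adjoint (T : Op n) (gradient u (z + t • T y))‖
          ≤ (Real.sqrt lam)⁻¹ * (Real.sqrt lam * ‖gradient u (z + t • T y)‖) := by
            gcongr
            exact (ContinuousLinearMap.le_opNorm _ _).trans (by gcongr)
        _ = ‖gradient u (z + t • T y)‖ := by field_simp
    · have e1 : gradient u (z + t • T y) = ContinuousLinearMap.adjoint (T.symm : Op n)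
          (ContinuousLinearMap.adjoint (T : Op n) (gradient u (z + t • T y))) := by
        rw [← ContinuousLinearMap.comp_apply, ← ContinuousLinearMap.adjoint_comp]
        have : (T : Op n) ∘L (T.symm : Op n) = 1 := by ext x : 1; simp
        rw [this, show ContinuousLinearMap.adjoint (1 : Op n) = 1 from
          ContinuousLinearMap.adjoint_id]
        rfl
      calc ‖gradient u (z + t • T y)‖
          = ‖ContinuousLinearMap.adjoint (T.symm : Op n)
              (ContinuousLinearMap.adjoint (T : Op n) (gradient u (z + t • T y)))‖ := by rw [← e1]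
        _ ≤ Real.sqrt lam * ‖ContinuousLinearMap.adjoint (T : Op n) (gradient u (z + t • T y))‖ :=
            (ContinuousLinearMap.le_opNorm _ _).trans (by gcongr)
        _ = lam * ((Real.sqrt lam)⁻¹ *
            ‖ContinuousLinearMap.adjoint (T : Op n) (gradient u (z + t • T y))‖) := by
            nth_rewrite 2 [← hsq2]
            field_simp

theorem FA (hG1 : StmtG1) (hLC : StmtLC) (hSQ : StmtSQ) (hSC : StmtSC) : StmtFA := by
  intro n d lam L ρ₁ hn hd hlam hL hρ₁
  have hlam0 : 0 < lam := by linarith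
  have hsq : 0 < Real.sqrt lam := Real.sqrt_pos.2 hlam0
  have hsq2 : Real.sqrt lam * Real.sqrt lam = lam := Real.mul_self_sqrt hlam0.le
  have hd0 : 0 < d := by
    have : (2 : ℝ) ≤ n := by exact_mod_cast hn
    linarith
  obtain ⟨K, s₀, hK, hs₀, hG⟩ := hG1 n d hn hd
  refine ⟨min (ρ₁ / (lam * K)) (s₀ / ((lam * L + 1) * lam * K)), by positivity, ?_⟩
  intro r hr hr0 m hm
  have hr1 : r * (lam * K) ≤ ρ₁ := by
    have := hr0.trans (min_le_left _ _)
    rwa [le_div_iff₀ (by positivity)] at this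
  have hr2 : r * ((lam * L + 1) * lam * K) ≤ s₀ := by
    have := hr0.trans (min_le_right _ _)
    rwa [le_div_iff₀ (by positivity)] at this
  obtain ⟨C, γ, hC, hγ, hmain⟩ := hG (m / (r * lam) ^ d) (by positivity)
  refine ⟨lam * C, γ, by positivity, hγ, ?_⟩
  intro A u z S ε hsol hell hgrad hε hS hSε hSm x hx
  have ht : 0 < r * Real.sqrt lam := by positivity
  have htsq : r * Real.sqrt lam * Real.sqrt lam = r * lam := by rw [mul_assoc, hsq2]
  obtain ⟨T, A', w, hT, hT', hsw, hnw, hgw⟩ := FA_reduce hLC hSQ hSC hlam hL hsol hell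
    (K := K) (t := r * Real.sqrt lam) (s₀ := s₀) (by linarith) ht
    (by rw [htsq]; linarith) (by
      rw [htsq]
      calc lam * L * (r * lam) * K = r * (lam * L * lam * K) := by ring
        _ ≤ r * ((lam * L + 1) * lam * K) := by gcongr; linarith
        _ ≤ s₀ := hr2)
  -- the map
  set t := r * Real.sqrt lam with htdef
  have hball : ∀ y ∈ ball (0 : En n) K, z + t • T y ∈ ball z ρ₁ := by
    intro y hy
    rw [mem_ball, dist_zero_right] at hy
    rw [mem_ball, dist_eq_norm, add_sub_cancel_left, norm_smul, Real.norm_of_nonneg ht.le]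
    calc t * ‖T y‖ ≤ t * (Real.sqrt lam * ‖y‖) := by gcongr; exact hT y
      _ < t * (Real.sqrt lam * K) := by gcongr
      _ = t * Real.sqrt lam * K := by ring
      _ = r * lam * K := by rw [htsq]
      _ ≤ ρ₁ := by linarith
  have hinv : ∀ x ∈ closedBall z r, ∃ y ∈ closedBall (0 : En n) 1, z + t • T y = x := by
    intro x hx
    refine ⟨T.symm (t⁻¹ • (x - z)), ?_, ?_⟩
    · rw [mem_closedBall, dist_zero_right]
      rw [mem_closedBall, dist_eq_norm] at hx
      calc ‖T.symm (t⁻¹ • (x - z))‖ ≤ Real.sqrt lam * ‖t⁻¹ • (x - z)‖ := hT' _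
        _ = Real.sqrt lam * (t⁻¹ * ‖x - z‖) := by
            rw [norm_smul, Real.norm_of_nonneg (by positivity)]
        _ ≤ Real.sqrt lam * (t⁻¹ * r) := by gcongr
        _ = 1 := by rw [htdef]; field_simp
    · rw [ContinuousLinearEquiv.apply_symm_apply, smul_smul, mul_inv_cancel₀ ht.ne', one_smul]
      abel
  have h1K : closedBall (0 : En n) 1 ⊆ ball 0 K := closedBall_subset_ball (by linarith)
  set S' : Set (En n) := {y ∈ closedBall 0 1 | z + t • T y ∈ S} with hS'
  have hSim : S ⊆ (fun y => z + t • T y) '' S' := by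
    intro p hp
    obtain ⟨y, hy, hyp⟩ := hinv p (hS hp)
    exact ⟨y, ⟨hy, by rw [hyp]; exact hp⟩, hyp⟩
  have hκ : (0 : ℝ) ≤ r * lam := by positivity
  have hLip : LipschitzWith (Real.toNNReal (r * lam)) (fun y : En n => z + t • T y) := by
    apply LipschitzWith.of_dist_le_mul
    intro a b
    rw [dist_eq_norm, dist_eq_norm, Real.coe_toNNReal _ hκ]
    have : z + t • T a - (z + t • T b) = t • T (a - b) := by
      rw [map_sub, smul_sub]; abel
    rw [this, norm_smul, Real.norm_of_nonneg ht.le]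
    calc t * ‖T (a - b)‖ ≤ t * (Real.sqrt lam * ‖a - b‖) := by gcongr; exact hT _
      _ = (t * Real.sqrt lam) * ‖a - b‖ := by ring
      _ = (r * lam) * ‖a - b‖ := by rw [htsq]
  have hcont : ENNReal.ofReal (m / (r * lam) ^ d) ≤ cont n d S' := by
    have hne : Real.toNNReal (r * lam) ≠ 0 := (Real.toNNReal_pos.2 (by positivity)).ne'
    have e1 := hSm.trans ((cont_mono hSim).trans (FA_cont_image_le hd0.le hne hLip S'))
    have e2 : ((Real.toNNReal (r * lam) : ℝ≥0) : ℝ≥0∞) ^ d = ENNReal.ofReal ((r * lam) ^ d) := by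
      rw [← ENNReal.ofReal_rpow_of_nonneg hκ hd0.le]
      rfl
    rw [e2] at e1
    have hpos : 0 < (r * lam) ^ d := by positivity
    rw [ENNReal.ofReal_div_of_pos hpos]
    exact ENNReal.div_le_of_le_mul' e1
  have hfin := hmain A' w S' ε hsw hnw
    (fun y hy => ((hgw y hy).1).trans (hgrad _ (hball y hy))) hε (fun y hy => hy.1)
    (fun y hy => ((hgw y (h1K hy.1)).1).trans (hSε _ hy.2)) hcont
  obtain ⟨y, hy, hyx⟩ := hinv x hx
  calc ‖gradient u x‖ = ‖gradient u (z + t • T y)‖ := by rw [hyx]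
    _ ≤ lam * ‖gradient w y‖ := (hgw y (h1K hy)).2
    _ ≤ lam * Dg w 0 1 := by gcongr; exact hsw.le_Dg h1K hy
    _ ≤ lam * (C * ε ^ γ) := by gcongr
    _ = lam * C * ε ^ γ := by ring

end EAGrad

end

section

/-!
MP_ea6116_an, item HC1: at a critical point of a nonconstant harmonic function some iterated
derivative has a nondegenerate second order Taylor polynomial (unique continuation from log
convexity).
-/

set_option autoImplicit false

open MeasureTheory Metric Set Filter Topology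
open scoped ENNReal NNReal ContDiff

namespace EAGrad

variable {n : ℕ}

theorem HC1_smooth {U : Set (En n)} (hU : IsOpen U) {h : En n → ℝ} (hh : ContDiffOn ℝ ∞ h U)
    (I : List (Fin n)) : ContDiffOn ℝ ∞ (pd I h) U := by
  induction I with
  | nil => exact hh
  | cons i I ih =>
    have h1 : ContDiffOn ℝ ∞ (fderiv ℝ (pd I h)) U := ih.fderiv_of_isOpen hU (by simp)
    exact h1.clm_apply contDiffOn_const

theorem HC1_append (h : En n → ℝ) (I J : List (Fin n)) : pd (I ++ J) h = pd I (pd J h) := by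
  induction I with
  | nil => rfl
  | cons i I ih => simp only [List.cons_append, pd, ih]

theorem HC1_contDiffAt {U : Set (En n)} (hU : IsOpen U) {h : En n → ℝ}
    (hh : ContDiffOn ℝ ∞ h U) {x : En n} (hx : x ∈ U) : ContDiffAt ℝ ∞ h x :=
  (hh x hx).contDiffAt (hU.mem_nhds hx)

theorem HC1_D2 {U : Set (En n)} (hU : IsOpen U) {h : En n → ℝ} (hh : ContDiffOn ℝ ∞ h U)
    {x : En n} (hx : x ∈ U) (i j : Fin n) : D2 h x (ee i) (ee j) = pd [i, j] h x := by
  have h1 : ContDiffOn ℝ ∞ (fderiv ℝ h) U := hh.fderiv_of_isOpen hU (by simp)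
  have h2 : DifferentiableAt ℝ (fderiv ℝ h) x :=
    ((h1 x hx).contDiffAt (hU.mem_nhds hx)).differentiableAt (by simp)
  simp only [pd, D2]
  rw [fderiv_clm_apply h2 (differentiableAt_const _)]
  simp

theorem HC1_swap {U : Set (En n)} (hU : IsOpen U) {h : En n → ℝ} (hh : ContDiffOn ℝ ∞ h U)
    {x : En n} (hx : x ∈ U) (i j : Fin n) : pd [i, j] h x = pd [j, i] h x := by
  rw [← HC1_D2 hU hh hx, ← HC1_D2 hU hh hx]
  have h1 : IsSymmSndFDerivAt ℝ h x :=
    (HC1_contDiffAt hU hh hx).isSymmSndFDerivAt (by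
      rw [minSmoothness_of_isRCLikeNormedField]
      exact WithTop.coe_le_coe.2 le_top)
  exact h1 _ _

theorem HC1_lap {U : Set (En n)} (hU : IsOpen U) {h : En n → ℝ} (hh : ContDiffOn ℝ ∞ h U)
    (hl : ∀ x ∈ U, lap h x = 0) (i : Fin n) {x : En n} (hx : x ∈ U) :
    lap (pd [i] h) x = 0 := by
  have hs := fun I => HC1_smooth hU hh I
  have hd : ∀ I, DifferentiableAt ℝ (pd I h) x := fun I =>
    (HC1_contDiffAt hU (hs I) hx).differentiableAt (by simp)
  have h1 : ∀ j, D2 (pd [i] h) x (ee j) (ee j) = fderiv ℝ (pd [j, j] h) x (ee i) := by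
    intro j
    rw [HC1_D2 hU (hs [i]) hx, ← HC1_append]
    have e1 : pd [j, i] h =ᶠ[𝓝 x] pd [i, j] h := by
      filter_upwards [hU.mem_nhds hx] with y hy
      exact HC1_swap hU hh hy j i
    have e2 : pd ([j, j] ++ [i]) h x = fderiv ℝ (pd [j, i] h) x (ee j) := rfl
    rw [e2, e1.fderiv_eq]
    have e3 : fderiv ℝ (pd [i, j] h) x (ee j) = pd [j, i] (pd [j] h) x := rfl
    rw [e3, HC1_swap hU (hs [j]) hx]
    rfl
  unfold lap
  simp_rw [h1]
  have h2 : (fun y => ∑ j : Fin n, pd [j, j] h y) =ᶠ[𝓝 x] fun _ => 0 := by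
    filter_upwards [hU.mem_nhds hx] with y hy
    rw [← hl y hy]
    unfold lap
    exact Finset.sum_congr rfl fun j _ => (HC1_D2 hU hh hy j j).symm
  have h3 : fderiv ℝ (fun y => ∑ j : Fin n, pd [j, j] h y) x = fderiv ℝ (fun _ => (0:ℝ)) x :=
    h2.fderiv_eq
  have h5 : fderiv ℝ (fun y => ∑ j : Fin n, pd [j, j] h y) x =
      ∑ j : Fin n, fderiv ℝ (pd [j, j] h) x := fderiv_fun_sum fun j _ => hd [j, j]
  rw [h5] at h3
  have h4 := congrArg (fun T : En n →L[ℝ] ℝ => T (ee i)) h3
  simpa [sum_apply] using h4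

theorem HC1_lap' {U : Set (En n)} (hU : IsOpen U) {h : En n → ℝ} (hh : ContDiffOn ℝ ∞ h U)
    (hl : ∀ x ∈ U, lap h x = 0) (I : List (Fin n)) {x : En n} (hx : x ∈ U) :
    lap (pd I h) x = 0 := by
  induction I generalizing x with
  | nil => exact hl x hx
  | cons i I ih => exact HC1_lap hU (HC1_smooth hU hh I) (fun y hy => ih hy) i hx

theorem HC1_eq_sum (v : En n) : v = ∑ i, v i • ee i := by
  have := (EuclideanSpace.basisFun (Fin n) ℝ).sum_repr v
  simp only [EuclideanSpace.basisFun_repr, EuclideanSpace.basisFun_apply] at this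
  exact this.symm

theorem HC1_norm_le (T : En n →L[ℝ] ℝ) : ‖T‖ ≤ ∑ i, |T (ee i)| := by
  refine T.opNorm_le_bound (Finset.sum_nonneg fun _ _ => abs_nonneg _) fun v => ?_
  conv_lhs => rw [HC1_eq_sum v]
  rw [map_sum, Finset.sum_mul]
  refine (norm_sum_le _ _).trans (Finset.sum_le_sum fun i _ => ?_)
  rw [map_smul, norm_smul, mul_comm]
  exact mul_le_mul_of_nonneg_left (PiLp.norm_apply_le v i) (abs_nonneg _)

theorem HC1_taylor {U : Set (En n)} (hU : IsOpen U) {x : En n} {δ : ℝ} (hδ : 0 ≤ δ)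
    (hb : closedBall x δ ⊆ U) (j : ℕ) : ∀ g : En n → ℝ, ContDiffOn ℝ ∞ g U →
    (∀ I, pd I g x = 0) → ∃ C, 0 ≤ C ∧ ∀ v : En n, ‖v‖ ≤ δ → |g (x + v)| ≤ C * ‖v‖ ^ j := by
  induction j with
  | zero =>
    intro g hg _
    obtain ⟨C, hC⟩ := (isCompact_closedBall x δ).exists_bound_of_continuousOn
      (hg.continuousOn.mono hb)
    refine ⟨C, (norm_nonneg _).trans (hC x (mem_closedBall_self hδ)), fun v hv => ?_⟩
    simpa using hC (x + v) (by simpa using hv)
  | succ j ih =>
    intro g hg h0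
    have h1 : ∀ i : Fin n, ∃ C, 0 ≤ C ∧ ∀ v : En n, ‖v‖ ≤ δ →
        |pd [i] g (x + v)| ≤ C * ‖v‖ ^ j := fun i =>
      ih (pd [i] g) (HC1_smooth hU hg [i]) fun I => by rw [← HC1_append]; exact h0 _
    choose C hC0 hC using h1
    refine ⟨∑ i, C i, Finset.sum_nonneg fun i _ => hC0 i, fun v hv => ?_⟩
    have h2 : ∀ z ∈ closedBall x ‖v‖, ‖fderiv ℝ g z‖ ≤ (∑ i, C i) * ‖v‖ ^ j := by
      intro z hz
      have hz' : ‖z - x‖ ≤ ‖v‖ := by simpa [dist_eq_norm] using hz
      refine (HC1_norm_le _).trans ?_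
      rw [Finset.sum_mul]
      refine Finset.sum_le_sum fun i _ => ?_
      have h3 := hC i (z - x) (hz'.trans hv)
      rw [add_sub_cancel] at h3
      refine h3.trans (mul_le_mul_of_nonneg_left ?_ (hC0 i))
      exact pow_le_pow_left₀ (norm_nonneg _) hz' j
    have h3 := (convex_closedBall x ‖v‖).norm_image_sub_le_of_norm_fderiv_le (f := g) (𝕜 := ℝ)
      (fun z hz => (HC1_contDiffAt hU hg (hb (closedBall_subset_closedBall hv hz))).differentiableAt
        (by simp)) h2 (mem_closedBall_self (norm_nonneg _))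
      (show x + v ∈ closedBall x ‖v‖ by simp)
    have h4 : g x = 0 := h0 []
    rw [h4, sub_zero, add_sub_cancel_left] at h3
    rw [pow_succ, ← mul_assoc]
    exact h3

theorem HC1_wt_nonneg (z : En n) : 0 ≤ wt z := Real.smoothTransition.nonneg _

theorem HC1_wt_cont : Continuous (wt : En n → ℝ) := by
  unfold wt eta
  exact Real.smoothTransition.continuous.comp (by fun_prop)

theorem HC1_wt_zero {z : En n} (h : 2 ≤ ‖z‖ ^ 2) : wt z = 0 :=
  Real.smoothTransition.zero_of_nonpos (by linarith)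

theorem HC1_wt_one {z : En n} (h : ‖z‖ ≤ 1) : wt z = 1 :=
  Real.smoothTransition.one_of_one_le (by nlinarith [norm_nonneg z])

theorem HC1_wt_supp : tsupport (wt : En n → ℝ) ⊆ closedBall 0 (29 / 20) := by
  refine closure_minimal (fun z hz => ?_) isClosed_closedBall
  by_contra h
  apply hz
  apply HC1_wt_zero
  simp only [mem_closedBall, dist_zero_right, not_le] at h
  nlinarith

theorem HC1_wt_comp : HasCompactSupport (wt : En n → ℝ) :=
  HasCompactSupport.of_support_subset_isCompact (isCompact_closedBall 0 (29 / 20))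
    ((subset_tsupport _).trans HC1_wt_supp)

theorem HC1_wt_mul {f : En n → ℝ} (hf : ContinuousOn f (ball 0 (3 / 2))) :
    Continuous (fun z => f z * wt z) :=
  continuous_mul_of_tsupport isOpen_ball hf HC1_wt_cont
    (HC1_wt_supp.trans (closedBall_subset_ball (by norm_num)))

theorem HC1_wt_int {f : En n → ℝ} (hf : ContinuousOn f (ball 0 (3 / 2))) :
    Integrable (fun z => f z * wt z) :=
  (HC1_wt_mul hf).integrable_of_hasCompactSupport HC1_wt_comp.mul_left

theorem HC1_cs {f g : En n → ℝ} (hf : ContinuousOn f (ball 0 (3 / 2)))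
    (hg : ContinuousOn g (ball 0 (3 / 2))) :
    (∫ z, f z * g z * wt z) ^ 2 ≤ (∫ z, f z ^ 2 * wt z) * ∫ z, g z ^ 2 * wt z := by
  have h1 := HC1_wt_int (hf.pow 2)
  have h2 := HC1_wt_int (hg.pow 2)
  have h3 := HC1_wt_int (hf.mul hg)
  have key : ∀ t : ℝ, 0 ≤ (∫ z, g z ^ 2 * wt z) * (t * t) + (2 * ∫ z, f z * g z * wt z) * t +
      ∫ z, f z ^ 2 * wt z := by
    intro t
    have h4 : (∫ z, (g z ^ 2 * wt z) * (t * t) + 2 * t * (f z * g z * wt z) + f z ^ 2 * wt z) =
        (∫ z, g z ^ 2 * wt z) * (t * t) + (2 * ∫ z, f z * g z * wt z) * t +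
        ∫ z, f z ^ 2 * wt z := by
      rw [integral_add, integral_add, integral_mul_const, integral_const_mul]
      · ring
      · exact h2.mul_const _
      · exact h3.const_mul _
      · exact (h2.mul_const _).add (h3.const_mul _)
      · exact h1
    rw [← h4]
    refine integral_nonneg fun z => ?_
    have h5 : (g z ^ 2 * wt z) * (t * t) + 2 * t * (f z * g z * wt z) + f z ^ 2 * wt z =
        (t * g z + f z) ^ 2 * wt z := by ring
    show 0 ≤ (g z ^ 2 * wt z) * (t * t) + 2 * t * (f z * g z * wt z) + f z ^ 2 * wt z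
    rw [h5]
    exact mul_nonneg (sq_nonneg _) (HC1_wt_nonneg z)
  have h6 := discrim_le_zero key
  unfold discrim at h6
  nlinarith

theorem HC1_trans (x : En n) (g : En n → ℝ) (z : En n) :
    lap (fun z => g (x + z)) z = lap g (x + z) := by
  unfold lap D2
  have h1 : (fderiv ℝ fun z => g (x + z)) = fun z => fderiv ℝ g (x + z) := by
    funext y
    exact fderiv_comp_add_left x
  rw [h1]
  have h2 : fderiv ℝ (fun z => fderiv ℝ g (x + z)) z = fderiv ℝ (fderiv ℝ g) (x + z) :=
    fderiv_comp_add_left x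
  rw [h2]

/-- Energy. -/
noncomputable def HC1_E (g : En n → ℝ) (x : En n) (ρ : ℝ) : ℝ :=
  ∫ z : En n, g (x + ρ • z) ^ 2 * wt z

theorem HC1_contOn {g : En n → ℝ} {x : En n} {R ρ : ℝ} (hg : ContinuousOn g (ball x R))
    (hρ : 0 < ρ) (hR : ρ * (3 / 2) ≤ R) : ContinuousOn (fun z => g (x + ρ • z)) (ball 0 (3 / 2)) := by
  refine hg.comp (by fun_prop) fun z hz => ?_
  have h1 : ‖z‖ < 3 / 2 := by simpa using hz
  have h2 : dist (x + ρ • z) x = ρ * ‖z‖ := by
    rw [dist_eq_norm, add_sub_cancel_left, norm_smul, Real.norm_of_nonneg hρ.le]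
  rw [mem_ball, h2]
  nlinarith

theorem HC1_E_nonneg (g : En n → ℝ) (x : En n) (ρ : ℝ) : 0 ≤ HC1_E g x ρ :=
  integral_nonneg fun z => mul_nonneg (sq_nonneg _) (HC1_wt_nonneg z)

theorem HC1_logc (hL : StmtLOGC) (hn : 1 ≤ n) {g : En n → ℝ} {x : En n} {R r : ℝ} (hr : 0 < r)
    (h6 : 6 * r ≤ R) (hg : ContDiffOn ℝ ∞ g (ball x R)) (hl : ∀ y ∈ ball x R, lap g y = 0) :
    HC1_E g x (2 * r) ^ 2 ≤ HC1_E g x r * HC1_E g x (4 * r) := by
  have hmap : ∀ z ∈ ball (0 : En n) R, x + z ∈ ball x R := fun z hz => by simpa using hz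
  have h1 := hL n (fun z => g (x + z)) R r hn hr h6
    (hg.comp (by fun_prop) hmap)
    (fun z hz => by rw [HC1_trans]; exact hl _ (hmap z hz))
  have h2 := HC1_cs (HC1_contOn hg.continuousOn hr (by linarith))
    (HC1_contOn (ρ := 4 * r) hg.continuousOn (by linarith) (by linarith))
  unfold HC1_E
  rw [h1]
  exact h2

theorem HC1_seq {a : ℕ → ℝ} (h0 : ∀ k, 0 ≤ a k) (h1 : ∀ k, a (k + 1) ^ 2 ≤ a k * a (k + 2))
    (h2 : ∀ j : ℕ, ∃ C, ∀ k, a k ≤ C * ((1 / 4 : ℝ) ^ j) ^ k) : a 1 = 0 := by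
  by_contra h
  have hpos : ∀ k, 0 < a k ∧ 0 < a (k + 1) := by
    intro k
    induction k with
    | zero =>
      have h3 : 0 < a 1 := lt_of_le_of_ne (h0 1) (Ne.symm h)
      refine ⟨?_, h3⟩
      rcases (h0 0).lt_or_eq with h4 | h4
      · exact h4
      · exfalso
        have := h1 0
        rw [← h4, zero_mul] at this
        have : 0 < a (0 + 1) ^ 2 := by positivity
        linarith
    | succ k ih =>
      refine ⟨ih.2, ?_⟩
      rcases (h0 (k + 2)).lt_or_eq with h4 | h4
      · exact h4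
      · exfalso
        have h5 := h1 k
        rw [← h4, mul_zero] at h5
        have : 0 < a (k + 1) ^ 2 := by have := ih.2; positivity
        linarith
  set q := a 1 / a 0 with hq
  have hq0 : 0 < q := div_pos (hpos 0).2 (hpos 0).1
  have h3 : ∀ k, q * a k ≤ a (k + 1) := by
    intro k
    induction k with
    | zero => rw [hq, div_mul_cancel₀ _ (hpos 0).1.ne']
    | succ k ih =>
      have h4 := h1 k
      have h5 := (hpos k).1
      have h6 := (hpos k).2
      have h7 := (hpos (k + 1)).2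
      have h8 : a k * (q * a (k + 1)) ≤ a k * a (k + 2) := by
        calc a k * (q * a (k + 1)) = (q * a k) * a (k + 1) := by ring
          _ ≤ a (k + 1) * a (k + 1) := by gcongr
          _ = a (k + 1) ^ 2 := by ring
          _ ≤ _ := h4
      exact le_of_mul_le_mul_left h8 h5
  have h4 : ∀ k, q ^ k * a 0 ≤ a k := by
    intro k
    induction k with
    | zero => simp
    | succ k ih =>
      calc q ^ (k + 1) * a 0 = q * (q ^ k * a 0) := by ring
        _ ≤ q * a k := by gcongr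
        _ ≤ _ := h3 k
  obtain ⟨j, hj⟩ := exists_pow_lt_of_lt_one hq0 (show (1 / 4 : ℝ) < 1 by norm_num)
  obtain ⟨C, hC⟩ := h2 j
  set p := (1 / 4 : ℝ) ^ j with hp
  have hp0 : 0 < p := by positivity
  have h5 : ∀ k, (q / p) ^ k * a 0 ≤ C := by
    intro k
    have h6 := (h4 k).trans (hC k)
    rw [div_pow, div_mul_eq_mul_div, div_le_iff₀ (by positivity)]
    exact h6
  have h6 : Tendsto (fun k : ℕ => (q / p) ^ k * a 0) atTop atTop :=
    (tendsto_pow_atTop_atTop_of_one_lt ((one_lt_div hp0).2 hj)).atTop_mul_const (hpos 0).1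
  obtain ⟨k, hk⟩ := (h6.eventually_gt_atTop C).exists
  exact absurd (h5 k) (not_le.2 hk)

/-- Unique continuation: vanishing to infinite order implies vanishing nearby. -/
theorem HC1_uc (hL : StmtLOGC) (hn : 1 ≤ n) {g : En n → ℝ} {x : En n} {R : ℝ} (hR : 0 < R)
    (hg : ContDiffOn ℝ ∞ g (ball x R)) (hl : ∀ y ∈ ball x R, lap g y = 0)
    (h0 : ∀ I, pd I g x = 0) : ∀ y ∈ ball x (R / 3), g y = 0 := by
  set s := 2 * R / 3 with hs
  have hspos : 0 < s := by positivity
  set a : ℕ → ℝ := fun k => HC1_E g x ((1 / 2) ^ k * s) with ha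
  have hr : ∀ k : ℕ, 0 < (1 / 2 : ℝ) ^ k * s := fun k => by positivity
  have hr1 : ∀ k : ℕ, (1 / 2 : ℝ) ^ k * s ≤ s := fun k => by
    have : (1 / 2 : ℝ) ^ k ≤ 1 := pow_le_one₀ (by norm_num) (by norm_num)
    nlinarith
  have h1 : ∀ k, a (k + 1) ^ 2 ≤ a k * a (k + 2) := by
    intro k
    have h2 := HC1_logc hL hn (R := R) (hr (k + 2)) (by
      have := hr1 k
      rw [pow_add]
      rw [hs] at this ⊢
      nlinarith) hg hl
    have e1 : 2 * ((1 / 2 : ℝ) ^ (k + 2) * s) = (1 / 2) ^ (k + 1) * s := by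
      rw [pow_succ, pow_succ]; ring
    have e2 : 4 * ((1 / 2 : ℝ) ^ (k + 2) * s) = (1 / 2) ^ k * s := by
      rw [pow_succ, pow_succ]; ring
    rw [e1, e2] at h2
    simp only [ha]
    linarith
  have h2 : ∀ j : ℕ, ∃ C, ∀ k, a k ≤ C * ((1 / 4 : ℝ) ^ j) ^ k := by
    intro j
    obtain ⟨C, hC0, hC⟩ := HC1_taylor (U := ball x R) isOpen_ball (x := x)
      (δ := 29 / 20 * s) (by positivity)
      (closedBall_subset_ball (by rw [hs]; linarith)) j g hg h0
    refine ⟨(C * (29 / 20 * s) ^ j) ^ 2 * ∫ z : En n, wt z, fun k => ?_⟩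
    simp only [ha]
    unfold HC1_E
    have e1 : (C * (29 / 20 * s) ^ j) ^ 2 * (∫ z : En n, wt z) * ((1 / 4 : ℝ) ^ j) ^ k =
        ∫ z : En n, (C * (29 / 20 * s) ^ j) ^ 2 * ((1 / 4 : ℝ) ^ j) ^ k * wt z := by
      rw [integral_const_mul]; ring
    rw [e1]
    apply integral_mono
    · exact HC1_wt_int ((HC1_contOn hg.continuousOn (hr k) (by
        have := hr1 k
        rw [hs] at this ⊢
        linarith)).pow 2)
    · exact (HC1_wt_cont.integrable_of_hasCompactSupport HC1_wt_comp).const_mul _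
    · intro z
      simp only
      by_cases hz : ‖z‖ ≤ 29 / 20
      · refine mul_le_mul_of_nonneg_right ?_ (HC1_wt_nonneg z)
        have hv : ‖((1 / 2 : ℝ) ^ k * s) • z‖ ≤ (1 / 2 : ℝ) ^ k * (29 / 20 * s) := by
          rw [norm_smul, Real.norm_of_nonneg (hr k).le]
          calc (1 / 2 : ℝ) ^ k * s * ‖z‖ ≤ (1 / 2 : ℝ) ^ k * s * (29 / 20) := by gcongr
            _ = _ := by ring
        have h3 := hC _ (hv.trans (by
          have : (1 / 2 : ℝ) ^ k ≤ 1 := pow_le_one₀ (by norm_num) (by norm_num)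
          nlinarith))
        rw [← sq_abs]
        have h4 : |g (x + ((1 / 2 : ℝ) ^ k * s) • z)| ≤
            C * (29 / 20 * s) ^ j * ((1 / 2 : ℝ) ^ j) ^ k := by
          refine h3.trans ?_
          calc C * ‖((1 / 2 : ℝ) ^ k * s) • z‖ ^ j ≤ C * ((1 / 2 : ℝ) ^ k * (29 / 20 * s)) ^ j := by
                gcongr
            _ = _ := by rw [mul_pow, ← pow_mul, ← pow_mul, mul_comm k j]; ring
        calc |g (x + ((1 / 2 : ℝ) ^ k * s) • z)| ^ 2
            ≤ (C * (29 / 20 * s) ^ j * ((1 / 2 : ℝ) ^ j) ^ k) ^ 2 := by gcongr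
          _ = (C * (29 / 20 * s) ^ j) ^ 2 * (((1 / 2 : ℝ) ^ 2) ^ j) ^ k := by
              rw [mul_pow, ← pow_mul, ← pow_mul, ← pow_mul, ← pow_mul]
              congr 2
              ring
          _ = _ := by norm_num
      · have : wt z = 0 := HC1_wt_zero (by push Not at hz; nlinarith)
        rw [this]
        simp
  have h3 : a 1 = 0 := HC1_seq (fun k => HC1_E_nonneg _ _ _) h1 h2
  have h4 : a 1 = HC1_E g x (R / 3) := by
    simp only [ha, pow_one]
    congr 1
    rw [hs]; ring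
  rw [h4] at h3
  unfold HC1_E at h3
  have hcc : ContinuousOn (fun z => g (x + (R / 3) • z)) (ball 0 (3 / 2)) :=
    HC1_contOn hg.continuousOn (by positivity) (by linarith)
  have hc := HC1_wt_mul (hcc.pow 2)
  have hi := HC1_wt_int (hcc.pow 2)
  have h5a := (integral_eq_zero_iff_of_nonneg
    (fun z => mul_nonneg (sq_nonneg _) (HC1_wt_nonneg z)) hi).1 h3
  have h5 := (hc.ae_eq_iff_eq volume continuous_zero).1 h5a
  intro y hy
  have h6 := congrFun h5 ((R / 3)⁻¹ • (y - x))
  have h7 : ‖(R / 3)⁻¹ • (y - x)‖ ≤ 1 := by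
    rw [norm_smul, Real.norm_of_nonneg (by positivity), inv_mul_le_iff₀ (by positivity), mul_one]
    rw [mem_ball, dist_eq_norm] at hy
    exact hy.le
  simp only [Pi.zero_apply, HC1_wt_one h7, mul_one] at h6
  simp only [Pi.pow_apply] at h6
  rw [smul_smul, mul_inv_cancel₀ (by positivity), one_smul, add_sub_cancel] at h6
  exact pow_eq_zero_iff (two_ne_zero) |>.1 h6

theorem HC1_pd_zero {U : Set (En n)} (hU : IsOpen U) {g : En n → ℝ} (h : ∀ y ∈ U, g y = 0)
    (I : List (Fin n)) : ∀ y ∈ U, pd I g y = 0 := by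
  induction I with
  | nil => exact h
  | cons i I ih =>
    intro y hy
    have : pd I g =ᶠ[𝓝 y] fun _ => 0 := by
      filter_upwards [hU.mem_nhds hy] with z hz using ih z hz
    simp only [pd]
    rw [this.fderiv_eq]
    simp

theorem HC1_grad_zero {f : En n → ℝ} {x : En n} (h : ∀ i, fderiv ℝ f x (ee i) = 0) :
    gradient f x = 0 := by
  have h1 : fderiv ℝ f x = 0 := by
    ext v
    conv_lhs => rw [HC1_eq_sum v]
    rw [map_sum]
    simp [h]
  simp [gradient, h1]

theorem HC1 (hL : StmtLOGC) : StmtHC1 := by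
  intro n h R hn hR hh hl hne x hx hgx
  have hs := fun I => HC1_smooth isOpen_ball hh I
  have hU : IsOpen (ball (0 : En n) R) := isOpen_ball
  -- some derivative does not vanish
  have key : ∃ I : List (Fin n), I ≠ [] ∧ pd I h x ≠ 0 := by
    by_contra hcon
    push Not at hcon
    set S : Set (En n) := {y | ∀ I : List (Fin n), I ≠ [] → pd I h y = 0} with hS
    have hopen : ∀ y ∈ ball (0 : En n) R ∩ S, ∃ ε > 0, ball y ε ⊆ ball (0 : En n) R ∩ S := by
      rintro y ⟨hy, hyS⟩
      have hy' : ‖y‖ < R := by simpa using hy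
      have hsub : ball y (R - ‖y‖) ⊆ ball (0 : En n) R := by
        intro z hz
        rw [mem_ball, dist_zero_right]
        rw [mem_ball, dist_eq_norm] at hz
        have := norm_le_insert' z y
        linarith
      refine ⟨(R - ‖y‖) / 3, by linarith, fun z hz => ?_⟩
      have hz2 : z ∈ ball y (R - ‖y‖) := ball_subset_ball (by linarith) hz
      refine ⟨hsub hz2, fun I hI => ?_⟩
      obtain ⟨J, i, rfl⟩ := (List.eq_nil_or_concat' I).resolve_left hI
      rw [HC1_append]
      refine HC1_pd_zero isOpen_ball (fun w hw => ?_) J z hz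
      exact HC1_uc hL hn (by linarith) ((hs [i]).mono hsub)
        (fun w hw => HC1_lap' hU hh hl [i] (hsub hw))
        (fun I => by rw [← HC1_append]; exact hyS _ (by simp)) w hw
    have hopen' : IsOpen (ball (0 : En n) R ∩ S) := Metric.isOpen_iff.2 hopen
    have hopen2 : IsOpen (ball (0 : En n) R ∩ Sᶜ) := by
      rw [isOpen_iff_mem_nhds]
      rintro y ⟨hy, hyS⟩
      simp only [hS, mem_compl_iff, mem_ofPred_eq, not_forall] at hyS
      obtain ⟨I, hI, hne'⟩ := hyS
      have hc : ContinuousAt (pd I h) y := (HC1_contDiffAt hU (hs I) hy).continuousAt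
      filter_upwards [hc.eventually_ne hne', hU.mem_nhds hy] with z hz hz2
      exact ⟨hz2, fun hzS => hz (hzS I hI)⟩
    have hpre : IsPreconnected (ball (0 : En n) R) := (convex_ball 0 R).isPreconnected
    obtain ⟨w, hw, hgw⟩ := hne
    have hwS : w ∉ S := by
      intro hwS
      apply hgw
      exact HC1_grad_zero fun i => hwS [i] (by simp)
    have h3 := hpre _ _ hopen' hopen2 (fun y hy => by
      by_cases hyS : y ∈ S
      · exact Or.inl ⟨hy, hyS⟩
      · exact Or.inr ⟨hy, hyS⟩) ⟨x, hx, hx, hcon⟩ ⟨w, hw, hw, hwS⟩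
    obtain ⟨y, _, h4, h5⟩ := h3
    exact h5.2 h4.2
  -- minimal length
  classical
  have hex : ∃ m : ℕ, ∃ I : List (Fin n), I ≠ [] ∧ pd I h x ≠ 0 ∧ I.length = m := by
    obtain ⟨I, h1, h2⟩ := key
    exact ⟨_, I, h1, h2, rfl⟩
  obtain ⟨I, h1, h2, h3⟩ := Nat.find_spec hex
  have hmin : ∀ K : List (Fin n), K ≠ [] → K.length < I.length → pd K h x = 0 := by
    intro K hK hlen
    by_contra hK2
    exact Nat.find_min hex (m := K.length) (by rw [← h3]; exact hlen) ⟨K, hK, hK2, rfl⟩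
  match I, h1, h2, hmin with
  | [], h1, _, _ => exact absurd rfl h1
  | [i], _, h2, _ =>
    exfalso
    apply h2
    show fderiv ℝ h x (ee i) = 0
    rw [← inner_gradient, hgx, inner_zero_left]
  | i :: j :: J, _, h2, hmin =>
    refine ⟨J, ?_, ⟨ee i, ee j, ?_⟩, HC1_lap' hU hh hl J hx⟩
    · refine HC1_grad_zero fun k => ?_
      exact hmin (k :: J) (by simp) (by simp)
    · rw [HC1_D2 hU (hs J) hx]
      exact h2

end EAGrad

end
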