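import Pool.Agent.Work.MP_ea6116_an.Bd.B01

/-! Bundle of small proof modules (one section per former module). -/

section

/-!
MP_ea6116_an: item FIN, chains of balls and the frozen statement.
-/

set_option autoImplicit false

open MeasureTheory Metric Set Filter Topology
open scoped ENNReal NNReal ContDiff

namespace EAGrad

/-- A compact subset of an open connected set lies in a compact connected subset. -/
theorem FIN_hull {n : ℕ} {Ω W : Set (En n)} (hO : IsOpen Ω) (hc : IsConnected Ω)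
    (hW : IsCompact W) (hWO : W ⊆ Ω) :
    ∃ C : Set (En n), IsCompact C ∧ IsPreconnected C ∧ W ⊆ C ∧ C ⊆ Ω := by
  rcases W.eq_empty_or_nonempty with rfl | ⟨w0, hw0⟩
  · exact ⟨∅, isCompact_empty, isPreconnected_empty, subset_rfl, empty_subset _⟩
  obtain ⟨ρ, hρ, hth⟩ := hW.exists_cthickening_subset_open hO hWO
  have hball : ∀ w ∈ W, closedBall w ρ ⊆ Ω := fun w hw =>
    (closedBall_subset_cthickening hw ρ).trans hth
  obtain ⟨t, htW, htfin, htcov⟩ := hW.finite_cover_balls (e := ρ) hρ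
  have hpc : IsPathConnected Ω := (hO.isConnected_iff_isPathConnected).1 hc
  have hpath : ∀ w ∈ W, ∃ S : Set (En n), IsCompact S ∧ IsPreconnected S ∧ w0 ∈ S ∧ w ∈ S ∧
      S ⊆ Ω := by
    intro w hw
    obtain ⟨γ, hγ⟩ := hpc.joinedIn w0 (hWO hw0) w (hWO hw)
    refine ⟨range γ, isCompact_range γ.continuous, isPreconnected_range γ.continuous,
      ⟨0, γ.source⟩, ⟨1, γ.target⟩, ?_⟩
    rintro _ ⟨s, rfl⟩
    exact hγ s
  choose! S hS using hpath
  refine ⟨⋃ w ∈ t, (S w ∪ closedBall w ρ), ?_, ?_, ?_, ?_⟩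
  · exact htfin.isCompact_biUnion fun w hw =>
      (hS w (htW hw)).1.union (isCompact_closedBall w ρ)
  · rw [← sUnion_image]
    refine isPreconnected_sUnion w0 _ ?_ ?_
    · rintro _ ⟨w, hw, rfl⟩
      exact Or.inl (hS w (htW hw)).2.2.1
    · rintro _ ⟨w, hw, rfl⟩
      exact IsPreconnected.union w (hS w (htW hw)).2.2.2.1 (mem_closedBall_self hρ.le)
        (hS w (htW hw)).2.1 (convex_closedBall w ρ).isPreconnected
  · intro x hx
    obtain ⟨w, hw, hxw⟩ := mem_iUnion₂.1 (htcov hx)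
    exact mem_iUnion₂.2 ⟨w, hw, Or.inr (ball_subset_closedBall hxw)⟩
  · refine iUnion₂_subset fun w hw => union_subset (hS w (htW hw)).2.2.2.2 (hball w (htW hw))

/-- Uniform constants for finitely many Hölder bounds. -/
theorem FIN_unif {ι : Type*} (s : Finset ι) (Q : ι → ℝ → ℝ → Prop)
    (hQ : ∀ i ∈ s, ∃ C γ : ℝ, 0 < C ∧ 0 < γ ∧ Q i C γ) :
    ∃ C γ : ℝ, 1 ≤ C ∧ 0 < γ ∧ ∀ i ∈ s, ∃ C' γ' : ℝ, 0 < C' ∧ C' ≤ C ∧ γ ≤ γ' ∧ Q i C' γ' := by
  classical
  choose! C γ hC hγ hq using hQ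
  obtain ⟨M, hM⟩ := (insert (1 : ℝ) (s.image C)).exists_le
  obtain ⟨N, hN⟩ := (insert (1 : ℝ) (s.image fun i => (γ i)⁻¹)).exists_le
  have hM1 : 1 ≤ M := hM 1 (Finset.mem_insert_self _ _)
  have hN1 : 1 ≤ N := hN 1 (Finset.mem_insert_self _ _)
  refine ⟨M, N⁻¹, hM1, by positivity, fun i hi => ⟨C i, γ i, hC i hi, ?_, ?_, hq i hi⟩⟩
  · exact hM _ (Finset.mem_insert_of_mem (Finset.mem_image_of_mem _ hi))
  · have h1 : (γ i)⁻¹ ≤ N :=
      hN _ (Finset.mem_insert_of_mem (Finset.mem_image_of_mem (fun i => (γ i)⁻¹) hi))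
    exact inv_le_of_inv_le₀ (hγ i hi) h1

/-- F5: the theorem. -/
theorem FIN (hFA : StmtFA) (hFB : StmtFB) : StmtFIN := by
  classical
  intro n hn Ω hO hconn hbdd A hsymm hell hlip δ hδ ρ hρ m hm
  obtain ⟨Λ, hΛ, hell⟩ := hell
  obtain ⟨L, hlip⟩ := hlip
  have hn' : (2 : ℝ) ≤ n := by exact_mod_cast hn
  set d : ℝ := (n : ℝ) - 2 + δ with hd
  have hd0 : 0 < d := by rw [hd]; linarith
  have hd2 : (n : ℝ) - 2 < d := by rw [hd]; linarith
  -- the compact set
  set W : Set (En n) := {x | ρ ≤ infDist x Ωᶜ} with hW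
  have hWO : W ⊆ Ω := by
    intro x hx
    by_contra hx'
    have h1 : infDist x Ωᶜ = 0 := infDist_zero_of_mem hx'
    have h2 : ρ ≤ infDist x Ωᶜ := hx
    linarith
  have hWc : IsCompact W := by
    refine Metric.isCompact_of_isClosed_isBounded ?_ (hbdd.subset hWO)
    exact isClosed_le continuous_const (continuous_infDist_pt _)
  obtain ⟨C, hCc, hCp, hWC, hCO⟩ := FIN_hull hO hconn hWc hWO
  obtain ⟨ρ₁, hρ₁, hth⟩ := hCc.exists_thickening_subset_open hO hCO
  have hballO : ∀ x ∈ C, ball x ρ₁ ⊆ Ω := fun x hx =>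
    (ball_subset_thickening hx ρ₁).trans hth
  -- the coefficients
  set lam : ℝ := max Λ 1 with hlam
  have hlam1 : 1 ≤ lam := le_max_right _ _
  have hE : ∀ x ∈ C, Ell lam (L : ℝ) A (ball x ρ₁) := by
    intro x hx
    refine ⟨fun y hy => hsymm y (hballO x hx hy), fun y hy ξ => ?_, fun y hy z hz => ?_⟩
    · obtain ⟨h1, h2⟩ := hell y (hballO x hx hy) ξ
      refine ⟨le_trans ?_ h1, h2.trans ?_⟩
      · refine mul_le_mul_of_nonneg_right ?_ (by positivity)
        exact inv_anti₀ hΛ (le_max_left _ _)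
      · exact mul_le_mul_of_nonneg_right (le_max_left _ _) (by positivity)
    · have := hlip.dist_le_mul y (hballO x hx hy) z (hballO x hx hz)
      rwa [dist_eq_norm, dist_eq_norm] at this
  obtain ⟨rA, hrA, hA⟩ := hFA n d lam L ρ₁ hn hd2 hlam1 L.2 hρ₁
  obtain ⟨rB, hrB, hB⟩ := hFB n lam L ρ₁ hn hlam1 L.2 hρ₁
  set r : ℝ := min rA rB with hr
  have hr0 : 0 < r := lt_min hrA hrB
  obtain ⟨CB, γB, hCB, hγB, hB⟩ := hB r hr0 (min_le_right _ _)
  -- the class of solutions
  set G : (En n → ℝ) → Prop := fun u => Sol A u Ω ∧ ∀ x ∈ Ω, ‖gradient u x‖ ≤ 1 with hG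
  -- propagation between two points of `C`
  set P : En n → En n → Prop := fun x y => ∃ C' γ' : ℝ, 0 < C' ∧ 0 < γ' ∧ ∀ u : En n → ℝ, G u →
    ∀ a : ℝ, 0 < a → (∀ w ∈ closedBall x r, ‖gradient u w‖ ≤ a) →
      ∀ w ∈ closedBall y r, ‖gradient u w‖ ≤ C' * a ^ γ' with hP
  have hnear : ∀ x ∈ C, ∀ y, dist y x ≤ r → P x y := by
    intro x hx y hxy
    refine ⟨CB, γB, hCB, hγB, fun u hu a ha hax w hw => ?_⟩
    refine hB A u x a (hu.1.mono isOpen_ball (hballO x hx)) (hE x hx)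
      (fun z hz => hu.2 z (hballO x hx hz)) ha hax w ?_
    rw [mem_closedBall] at hw ⊢
    have := dist_triangle w y x
    linarith
  have htrans : ∀ x y z : En n, P x y → P y z → P x z := by
    rintro x y z ⟨C₁, γ₁, hC₁, hγ₁, h1⟩ ⟨C₂, γ₂, hC₂, hγ₂, h2⟩
    refine ⟨C₂ * C₁ ^ γ₂, γ₁ * γ₂, by positivity, by positivity, fun u hu a ha hax w hw => ?_⟩
    have h3 := h2 u hu (C₁ * a ^ γ₁) (by positivity) (h1 u hu a ha hax) w hw
    refine h3.trans (le_of_eq ?_)
    rw [Real.mul_rpow hC₁.le (by positivity), ← Real.rpow_mul ha.le, mul_assoc]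
  have hall : ∀ x ∈ C, ∀ y ∈ C, P x y := by
    intro x hx y hy
    refine hCp.induction₂' P (fun z hz => ?_) (fun x y z _ _ _ => htrans x y z) hx hy
    have h1 : ball z r ∈ 𝓝[C] z := mem_nhdsWithin_of_mem_nhds (ball_mem_nhds z hr0)
    filter_upwards [h1, self_mem_nhdsWithin] with w hw hwC
    have h2 : dist w z < r := hw
    exact ⟨hnear z hz w h2.le, hnear w hwC z (by rw [dist_comm]; exact h2.le)⟩
  -- a finite net
  obtain ⟨t0, ht0C, ht0fin, ht0cov⟩ := hCc.finite_cover_balls (e := r) hr0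
  set t : Finset (En n) := ht0fin.toFinset with ht
  have htC : ∀ z ∈ t, z ∈ C := fun z hz => ht0C (by simpa [ht] using hz)
  have htcov : ∀ x ∈ C, ∃ z ∈ t, x ∈ closedBall z r := by
    intro x hx
    obtain ⟨z, hz, hxz⟩ := mem_iUnion₂.1 (ht0cov hx)
    exact ⟨z, by simpa [ht] using hz, ball_subset_closedBall hxz⟩
  set m' : ℝ := m / (t.card + 1) with hm'
  have hm'0 : 0 < m' := by positivity
  obtain ⟨CA, γA, hCA, hγA, hA⟩ := hA r hr0 (min_le_left _ _) m' hm'0
  -- uniform constants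
  obtain ⟨CC, γ, hCC, hγ, hQ⟩ := FIN_unif (t ×ˢ t) (fun p C' γ' => ∀ u : En n → ℝ, G u →
    ∀ S : Set (En n), ∀ ε : ℝ, 0 < ε → S ⊆ closedBall p.1 r → (∀ x ∈ S, ‖gradient u x‖ ≤ ε) →
      ENNReal.ofReal m' ≤ cont n d S → ∀ w ∈ closedBall p.2 r, ‖gradient u w‖ ≤ C' * ε ^ γ') (by
    rintro ⟨z, z'⟩ hp
    rw [Finset.mem_product] at hp
    obtain ⟨C₁, γ₁, hC₁, hγ₁, h1⟩ := hall z (htC z hp.1) z' (htC z' hp.2)
    refine ⟨C₁ * CA ^ γ₁, γA * γ₁, by positivity, by positivity,
      fun u hu S ε hε hS hSε hcont w hw => ?_⟩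
    have hx := htC z hp.1
    have h2 := hA A u z S ε (hu.1.mono isOpen_ball (hballO z hx)) (hE z hx)
      (fun y hy => hu.2 y (hballO z hx hy)) hε hS hSε hcont
    have h3 := h1 u hu (CA * ε ^ γA) (by positivity) h2 w hw
    refine h3.trans (le_of_eq ?_)
    rw [Real.mul_rpow hCA.le (by positivity), ← Real.rpow_mul hε.le, mul_assoc])
  refine ⟨CC, γ, by linarith, hγ, ?_⟩
  intro E K hEO hKO hEρ hKρ hcont u hu1 huw hub ε hε hEε x hxK
  -- the solution
  have hsol : Sol A u Ω := by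
    refine ⟨hO, hu1, fun φ h1 h2 h3 => ?_⟩
    rw [← huw φ h1 h2 h3]
    symm
    refine setIntegral_eq_integral_of_forall_compl_eq_zero fun y hy => ?_
    have hy' : y ∉ tsupport φ := fun h => hy (h3 h)
    have h4 : φ =ᶠ[𝓝 y] fun _ => 0 := notMem_tsupport_iff_eventuallyEq.1 hy'
    have h5 : gradient φ y = 0 := by
      rw [← norm_eq_zero, norm_gradient, h4.fderiv_eq, fderiv_fun_const]
      simp
    rw [h5, inner_zero_right]
  have hGu : G u := ⟨hsol, hub⟩
  have hEC : E ⊆ C := fun y hy => hWC (hEρ y hy).le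
  have hxC : x ∈ C := hWC (hKρ x hxK).le
  -- large `ε`
  rcases le_or_gt 1 ε with h1ε | hε1
  · calc ‖gradient u x‖ ≤ 1 := hub x (hKO hxK)
      _ ≤ 1 * 1 := by norm_num
      _ ≤ CC * ε ^ γ := mul_le_mul hCC (Real.one_le_rpow h1ε hγ.le) zero_le_one (by linarith)
  -- a ball which sees a part of `E`
  obtain ⟨z, hz, hzE⟩ : ∃ z ∈ t, ENNReal.ofReal m' ≤ cont n d (E ∩ closedBall z r) := by
    by_contra hcon
    push Not at hcon
    have h1 : E ⊆ ⋃ z ∈ t, (E ∩ closedBall z r) := by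
      intro y hy
      obtain ⟨z, hz, hyz⟩ := htcov y (hEC hy)
      exact mem_iUnion₂.2 ⟨z, hz, hy, hyz⟩
    have h2 : cont n d E ≤ ∑ z ∈ t, ENNReal.ofReal m' :=
      (cont_mono h1).trans ((cont_biUnion_finset_le hd0 _ _).trans
        (Finset.sum_le_sum fun z hz => (hcon z hz).le))
    rw [Finset.sum_const, nsmul_eq_mul, ← ENNReal.ofReal_natCast, ← ENNReal.ofReal_mul
      (by positivity)] at h2
    have h3 := (hcont.trans h2)
    rw [ENNReal.ofReal_le_ofReal_iff (by positivity)] at h3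
    have h4 : (t.card : ℝ) * m' < m := by
      rw [hm', mul_div_assoc', div_lt_iff₀ (by positivity)]
      nlinarith
    linarith
  obtain ⟨z', hz', hxz'⟩ := htcov x hxC
  obtain ⟨C₁, γ₁, hC₁, hC₁C, hγγ₁, hQ1⟩ := hQ (z, z') (Finset.mem_product.2 ⟨hz, hz'⟩)
  have h5 := hQ1 u hGu (E ∩ closedBall z r) ε hε inter_subset_right
    (fun y hy => hEε y hy.1) hzE x hxz'
  refine h5.trans (mul_le_mul hC₁C ?_ (by positivity) (by linarith))
  exact Real.rpow_le_rpow_of_exponent_ge hε hε1.le hγγ₁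

end EAGrad

end

section

/-!
MP_ea6116_an: item G1, smallness on a set propagates to the unit ball.
-/

set_option autoImplicit false

open MeasureTheory Metric Set Filter Topology
open scoped ENNReal NNReal ContDiff

namespace EAGrad

theorem G1_real {a ε N₁ B p m : ℝ} (ha : 0 < a) (hε : 0 < ε) (hlt : ε < a)
    (hB : 0 < B) (hp : 0 < p) (hm : 0 < m)
    (h : m ≤ B * ((N₁ + Real.log (1 / a) / Real.log 2) / Real.log (a / ε)) ^ p)
    (hN : 0 ≤ N₁ + Real.log (1 / a) / Real.log 2) :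
    a ≤ Real.exp ((1 + (B / m) ^ (1 / p) / Real.log 2)⁻¹ * ((B / m) ^ (1 / p) * N₁)) *
      ε ^ (1 + (B / m) ^ (1 / p) / Real.log 2)⁻¹ := by
  set D : ℝ := (B / m) ^ (1 / p) with hD
  have hl2 : 0 < Real.log 2 := Real.log_pos (by norm_num)
  have hD0 : 0 < D := Real.rpow_pos_of_pos (by positivity) _
  have hΛ : 0 < Real.log (a / ε) := Real.log_pos ((one_lt_div hε).2 hlt)
  set N : ℝ := N₁ + Real.log (1 / a) / Real.log 2 with hNdef
  have h1 : Real.log (a / ε) ≤ D * N := by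
    have h2 : 0 ≤ N / Real.log (a / ε) := by positivity
    have h3 : m / B ≤ (N / Real.log (a / ε)) ^ p := by
      rw [div_le_iff₀ hB]
      linarith
    have h4 : (m / B) ^ (1 / p) ≤ N / Real.log (a / ε) := by
      have := Real.rpow_le_rpow (by positivity) h3 (z := 1 / p) (by positivity)
      rwa [← Real.rpow_mul h2, mul_one_div_cancel hp.ne', Real.rpow_one] at this
    have h5 : (m / B) ^ (1 / p) = D⁻¹ := by
      rw [hD, ← Real.inv_rpow (by positivity), inv_div]
    rw [h5, le_div_iff₀ hΛ] at h4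
    have h6 := mul_le_mul_of_nonneg_left h4 hD0.le
    rwa [← mul_assoc, mul_inv_cancel₀ hD0.ne', one_mul] at h6
  set γ : ℝ := (1 + D / Real.log 2)⁻¹ with hγ
  have hg : 0 < 1 + D / Real.log 2 := by positivity
  have hγ0 : 0 < γ := inv_pos.2 hg
  have h7 : Real.log a * (1 + D / Real.log 2) ≤ D * N₁ + Real.log ε := by
    rw [Real.log_div ha.ne' hε.ne', hNdef, one_div, Real.log_inv] at h1
    have : D * (N₁ + -Real.log a / Real.log 2) = D * N₁ - Real.log a * (D / Real.log 2) := by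
      ring
    rw [this] at h1
    linarith
  have h8 : Real.log a ≤ γ * (D * N₁) + γ * Real.log ε := by
    have := mul_le_mul_of_nonneg_left h7 hγ0.le
    rw [mul_comm (Real.log a), ← mul_assoc, hγ, inv_mul_cancel₀ hg.ne', one_mul, ← hγ] at this
    linarith
  calc a = Real.exp (Real.log a) := (Real.exp_log ha).symm
    _ ≤ Real.exp (γ * (D * N₁) + γ * Real.log ε) := Real.exp_le_exp.2 h8
    _ = Real.exp (γ * (D * N₁)) * ε ^ γ := by
        rw [Real.exp_add, Real.rpow_def_of_pos hε, mul_comm (Real.log ε)]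

theorem G1 (hLOC : StmtLOC) : StmtG1 := by
  intro n d hn hd
  obtain ⟨K₀, s₀, N₁, B, p, hK, hs, hN₁, hB, hp, hloc⟩ := hLOC n d hn hd
  refine ⟨8 * K₀, s₀, by linarith, hs, fun m hm => ?_⟩
  have hl2 : 0 < Real.log 2 := Real.log_pos (by norm_num)
  have hD0 : 0 < (B / m) ^ (1 / p) := Real.rpow_pos_of_pos (by positivity) _
  have hg : 0 < 1 + (B / m) ^ (1 / p) / Real.log 2 := by positivity
  refine ⟨Real.exp ((1 + (B / m) ^ (1 / p) / Real.log 2)⁻¹ * ((B / m) ^ (1 / p) * N₁)),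
    (1 + (B / m) ^ (1 / p) / Real.log 2)⁻¹, Real.exp_pos _, inv_pos.2 hg, ?_⟩
  intro A u S ε hsol hnear hgrad hε hS hSε hcont
  have hsub : ∀ x ∈ closedBall (0 : En n) 2, closedBall x (2 * K₀) ⊆ ball 0 (8 * K₀) := by
    intro x hx y hy
    rw [mem_closedBall] at hx hy
    rw [mem_ball]
    have := dist_triangle y x 0
    linarith
  have hsub1 : closedBall (0 : En n) 1 ⊆ ball 0 (8 * K₀) :=
    closedBall_subset_ball (by linarith)
  set a : ℝ := Dg u 0 1 with ha
  have ha1 : a ≤ 1 := Dg_le zero_le_one fun y hy => hgrad y (hsub1 hy)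
  rcases (Dg_nonneg u 0 1).eq_or_lt with h0 | h0
  · rw [ha, ← h0]
    positivity
  have ha0 : 0 < a := h0
  rcases le_or_gt a ε with hle | hlt
  · have hγ1 : (1 + (B / m) ^ (1 / p) / Real.log 2)⁻¹ ≤ 1 := by
      apply inv_le_one_of_one_le₀
      have : 0 < (B / m) ^ (1 / p) / Real.log 2 := by positivity
      linarith
    have h1 : a ≤ a ^ (1 + (B / m) ^ (1 / p) / Real.log 2)⁻¹ := by
      conv_lhs => rw [← Real.rpow_one a]
      exact Real.rpow_le_rpow_of_exponent_ge ha0 ha1 hγ1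
    have h2 : a ^ (1 + (B / m) ^ (1 / p) / Real.log 2)⁻¹ ≤
        ε ^ (1 + (B / m) ^ (1 / p) / Real.log 2)⁻¹ :=
      Real.rpow_le_rpow ha0.le hle (inv_pos.2 hg).le
    have h3 : 1 ≤ Real.exp ((1 + (B / m) ^ (1 / p) / Real.log 2)⁻¹ *
        ((B / m) ^ (1 / p) * N₁)) := by
      apply Real.one_le_exp
      positivity
    have h4 : 0 ≤ ε ^ (1 + (B / m) ^ (1 / p) / Real.log 2)⁻¹ := by positivity
    nlinarith
  · have hlog : 0 ≤ Real.log (1 / a) := Real.log_nonneg ((one_le_div ha0).2 ha1)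
    have hN0 : N₁ ≤ N₁ + Real.log (1 / a) / Real.log 2 := by
      have : 0 ≤ Real.log (1 / a) / Real.log 2 := by positivity
      linarith
    have hΛ : 0 < Real.log (a / ε) := Real.log_pos ((one_lt_div hε).2 hlt)
    have h2N : 1 / a ≤ (2 : ℝ) ^ (N₁ + Real.log (1 / a) / Real.log 2) := by
      rw [← Real.log_le_log_iff (by positivity) (by positivity), Real.log_rpow (by norm_num), add_mul, div_mul_cancel₀ _ hl2.ne']
      have : 0 ≤ N₁ * Real.log 2 := by positivity
      linarith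
    have hdoub : ∀ x ∈ closedBall (0 : En n) (2 * 1), Dg u x (2 * K₀ * 1) ≤
        2 ^ (N₁ + Real.log (1 / a) / Real.log 2) * Dg u x (K₀ * 1) := by
      intro x hx
      rw [mul_one] at hx
      rw [mul_one, mul_one]
      have b1 : Dg u x (2 * K₀) ≤ 1 := Dg_le zero_le_one fun y hy => hgrad y (hsub x hx hy)
      have b2 : a ≤ Dg u x K₀ := by
        apply hsol.Dg_mono ((closedBall_subset_closedBall (by linarith)).trans (hsub x hx))
        intro y hy
        rw [mem_closedBall] at hx hy ⊢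
        have := dist_triangle y 0 x
        rw [dist_comm 0 x] at this
        linarith
      calc Dg u x (2 * K₀) ≤ 1 := b1
        _ = 1 / a * a := by field_simp
        _ ≤ _ := mul_le_mul h2N b2 ha0.le (by positivity)
    have hmain := hloc A u 0 1 (N₁ + Real.log (1 / a) / Real.log 2) (Real.log (a / ε)) one_pos
      (by rwa [mul_one]) (by rwa [mul_one, div_one]) hN0 hdoub h0 hΛ
    have hexp : Real.exp (-Real.log (a / ε)) * Dg u 0 1 = ε := by
      rw [Real.exp_neg, Real.exp_log (by positivity), ← ha]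
      field_simp
    rw [hexp, Real.one_rpow, mul_one] at hmain
    have hcm : cont n d S ≤ cont n d {x ∈ closedBall (0 : En n) 1 | ‖gradient u x‖ ≤ ε} :=
      cont_mono fun x hx => ⟨hS hx, hSε x hx⟩
    have hfin := (hcont.trans hcm).trans hmain
    have hbase : 0 ≤ (N₁ + Real.log (1 / a) / Real.log 2) / Real.log (a / ε) := by
      have : 0 ≤ N₁ + Real.log (1 / a) / Real.log 2 := by linarith
      positivity
    rw [ENNReal.ofReal_le_ofReal_iff (by positivity)] at hfin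
    exact G1_real ha0 hε hlt hB hp hm hfin (by linarith)

end EAGrad

end

section

/-!
MP_ea6116_an: item G2, Hölder three ball inequality.
-/

set_option autoImplicit false

open MeasureTheory Metric Set Filter Topology
open scoped ENNReal NNReal ContDiff

namespace EAGrad

theorem G2 (hTB : StmtTB0) : StmtG2 := by
  intro n r₀ hn hr0 hr4
  obtain ⟨s₀, T₀, C₀, hs, hT, hC, htb⟩ := hTB n (1 / 2) r₀ 2 hn (by norm_num) (by norm_num) hr0
    (by norm_num)
  have hl2 : 0 < Real.log 2 := Real.log_pos (by norm_num)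
  set q : ℝ := (1 / 2) / r₀ with hq
  have hq2 : 2 < q := by
    rw [hq, lt_div_iff₀ hr0]
    linarith
  set l : ℝ := Real.log q with hl
  have hl0 : Real.log 2 < l := Real.log_lt_log (by norm_num) hq2
  have hlpos : 0 < l := hl2.trans hl0
  set γ : ℝ := Real.log 2 / (6 * l) with hγ
  have hγ0 : 0 < γ := by positivity
  have hγ1 : γ ≤ 1 / 2 := by
    rw [hγ, div_le_iff₀ (by positivity)]
    linarith
  have hE : 0 < Real.exp (3 / 2 * l * T₀) := Real.exp_pos _
  refine ⟨s₀, 1 + C₀ * (Real.exp (3 / 2 * l * T₀) + 1), γ, hs, by positivity, hγ0, ?_⟩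
  intro A u a hsol hnear hgrad ha hDa
  have hD1 : Dg u 0 (1 / 2) ≤ 1 := Dg_le zero_le_one fun y hy =>
    hgrad y (closedBall_subset_ball (by norm_num) hy)
  have hD2 : Dg u 0 1 ≤ 1 := Dg_le zero_le_one fun y hy =>
    hgrad y (closedBall_subset_ball (by norm_num) hy)
  have haγ : 0 < a ^ γ := Real.rpow_pos_of_pos ha _
  rcases le_or_gt 1 a with h1 | h1
  · have h2 : 1 ≤ a ^ γ := Real.one_le_rpow h1 hγ0.le
    have h3 : 0 ≤ C₀ * (Real.exp (3 / 2 * l * T₀) + 1) * a ^ γ := by positivity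
    linarith
  · have hla : Real.log a < 0 := Real.log_neg ha h1
    set θ : ℝ := 1 / (3 * l) with hθ
    have hθ0 : 0 < θ := by positivity
    have hTT : T₀ ≤ T₀ - θ * Real.log a := by nlinarith
    have h2 := htb A u r₀ (1 / 2) 1 (T₀ - θ * Real.log a) hsol hnear le_rfl (by linarith)
      (by norm_num) le_rfl hTT
    rw [← hq] at h2
    have hq0 : 0 < q := by linarith
    have e1 : q ^ ((1 + 1 / 2) * (T₀ - θ * Real.log a)) * Dg u 0 r₀ ≤
        Real.exp (3 / 2 * l * T₀) * a ^ γ := by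
      have e2 : q ^ ((1 + 1 / 2) * (T₀ - θ * Real.log a)) =
          Real.exp (3 / 2 * l * T₀) * Real.exp (-(1 / 2) * Real.log a) := by
        rw [Real.rpow_def_of_pos hq0, ← hl, ← Real.exp_add]
        congr 1
        rw [hθ]
        field_simp
        ring
      rw [e2, mul_assoc]
      refine mul_le_mul_of_nonneg_left ?_ hE.le
      calc Real.exp (-(1 / 2) * Real.log a) * Dg u 0 r₀
          ≤ Real.exp (-(1 / 2) * Real.log a) * a :=
            mul_le_mul_of_nonneg_left hDa (Real.exp_pos _).le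
        _ = a ^ (1 / 2 : ℝ) := by
            rw [Real.rpow_def_of_pos ha]
            conv_lhs => rw [← Real.exp_log ha, Real.log_exp, ← Real.exp_add]
            congr 1
            ring
        _ ≤ a ^ γ := Real.rpow_le_rpow_of_exponent_ge ha h1.le hγ1
    have e3 : ((1 : ℝ) / (1 / 2)) ^ (-((1 - 1 / 2) * (T₀ - θ * Real.log a))) * Dg u 0 1 ≤
        a ^ γ := by
      have e4 : ((1 : ℝ) / (1 / 2)) ^ (-((1 - 1 / 2) * (T₀ - θ * Real.log a))) ≤ a ^ γ := by
        rw [Real.rpow_def_of_pos ha, Real.rpow_def_of_pos (by norm_num)]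
        apply Real.exp_le_exp.2
        have : ((1 : ℝ) / (1 / 2)) = 2 := by norm_num
        rw [this]
        have e5 : Real.log a * γ = Real.log 2 * (1 / 2 * (θ * Real.log a)) := by
          rw [hγ, hθ]
          field_simp
          ring
        rw [e5]
        have : 0 < Real.log 2 * (1 / 2 * T₀) := by positivity
        nlinarith
      calc ((1 : ℝ) / (1 / 2)) ^ (-((1 - 1 / 2) * (T₀ - θ * Real.log a))) * Dg u 0 1
          ≤ a ^ γ * 1 := mul_le_mul e4 hD2 (Dg_nonneg _ _ _) haγ.le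
        _ = a ^ γ := mul_one _
    calc Dg u 0 (1 / 2) ≤ _ := h2
      _ ≤ C₀ * (Real.exp (3 / 2 * l * T₀) * a ^ γ + a ^ γ) :=
          mul_le_mul_of_nonneg_left (add_le_add e1 e3) hC.le
      _ ≤ (1 + C₀ * (Real.exp (3 / 2 * l * T₀) + 1)) * a ^ γ := by linarith

end EAGrad

end

section

/-!
MP_ea6116_an: the critical set of a nonconstant harmonic function has content zero (item HC).
-/

set_option autoImplicit false

open MeasureTheory Metric Set Filter Topology
open scoped ENNReal NNReal ContDiff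

namespace EAGrad

variable {n : ℕ}

theorem HC_inner_eq_sum (a b : En n) :
    inner ℝ a b = ∑ i, inner ℝ a (ee i) * inner ℝ b (ee i) := by
  have h : ∀ (c : En n) (i : Fin n), inner ℝ c (ee i) = c i := by
    intro c i
    unfold ee
    rw [EuclideanSpace.inner_single_right]
    simp
  simp only [h]
  rw [PiLp.inner_apply]
  refine Finset.sum_congr rfl fun i _ => ?_
  simp [mul_comm]

/-- Iterated partial derivatives of a smooth function are smooth. -/
theorem HC_contDiffOn_pd {f : En n → ℝ} {U : Set (En n)} (hU : IsOpen U)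
    (hf : ContDiffOn ℝ ∞ f U) (J : List (Fin n)) : ContDiffOn ℝ ∞ (pd J f) U := by
  induction J with
  | nil => exact hf
  | cons i I ih =>
    have h1 : ContDiffOn ℝ ∞ (fderiv ℝ (pd I f)) U := ih.fderiv_of_isOpen hU (by simp)
    exact h1.clm_apply contDiffOn_const

theorem HC_D2_eq {f : En n → ℝ} (hf : ContDiff ℝ ∞ f) (x : En n) (v w : En n) :
    D2 f x v w = fderiv ℝ (fun y => fderiv ℝ f y w) x v := by
  have h1 : ContDiff ℝ ∞ (fderiv ℝ f) := hf.fderiv_right (by simp)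
  have hd : DifferentiableAt ℝ (fderiv ℝ f) x := h1.differentiable (by simp) x
  have h2 : HasFDerivAt (fun y => fderiv ℝ f y w)
      ((ContinuousLinearMap.apply ℝ ℝ w).comp (fderiv ℝ (fderiv ℝ f) x)) x :=
    (ContinuousLinearMap.apply ℝ ℝ w).hasFDerivAt.comp x hd.hasFDerivAt
  rw [h2.fderiv]
  rfl

/-- A `C¹` weakly harmonic function is harmonic in the sense of distributions. -/
theorem HC_weak {h : En n → ℝ} {U : Set (En n)} (hs : Sol (fun _ => 1) h U) {ψ : En n → ℝ}
    (h1 : ContDiff ℝ ∞ ψ) (h2 : HasCompactSupport ψ) (h3 : tsupport ψ ⊆ U) :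
    ∫ x, h x * lap ψ x = 0 := by
  have hw := hs.weak ψ h1 h2 h3
  have hd1 : ∀ i : Fin n, ContDiff ℝ ∞ (fun x => fderiv ℝ ψ x (ee i)) := fun i =>
    (h1.fderiv_right (by simp)).clm_apply contDiff_const
  have hsub : ∀ {f : En n → ℝ} (v : En n), tsupport (fun x => fderiv ℝ f x v) ⊆ tsupport f := by
    intro f v
    exact closure_minimal (fun x hx => by
      by_contra hx'
      apply hx
      have : fderiv ℝ f x = 0 := by
        have h1 : f =ᶠ[𝓝 x] fun _ => 0 := notMem_tsupport_iff_eventuallyEq.1 hx'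
        rw [h1.fderiv_eq]; simp
      simp [this]) (isClosed_tsupport f)
  have hc : ∀ {f : En n → ℝ} (v : En n), HasCompactSupport f →
      HasCompactSupport (fun x => fderiv ℝ f x v) := fun v hf =>
    HasCompactSupport.of_support_subset_isCompact hf ((subset_tsupport _).trans (hsub v))
  have hu1 : ∀ v : En n, ContinuousOn (fun x => fderiv ℝ h x v) U := fun v =>
    (hs.c1.continuousOn_fderiv_of_isOpen hs.isOpen (by norm_num)).clm_apply continuousOn_const
  have e1 : ∀ x, inner ℝ ((1 : Op n) (gradient h x)) (gradient ψ x) =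
      ∑ i, fderiv ℝ h x (ee i) * fderiv ℝ ψ x (ee i) := by
    intro x
    rw [ContinuousLinearMap.one_apply, HC_inner_eq_sum]
    refine Finset.sum_congr rfl fun i _ => ?_
    rw [inner_gradient, inner_gradient]
  simp only [e1] at hw
  rw [integral_finset_sum] at hw
  · have e2 : ∀ i : Fin n, ∫ x, fderiv ℝ h x (ee i) * fderiv ℝ ψ x (ee i) =
        - ∫ x, h x * D2 ψ x (ee i) (ee i) := by
      intro i
      rw [ibp hs.isOpen hs.c1 ((hd1 i).of_le (by simp)) (hc _ h2) ((hsub _).trans h3) (ee i)]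
      simp only [HC_D2_eq h1]
    simp only [e2] at hw
    rw [Finset.sum_neg_distrib, neg_eq_zero] at hw
    unfold lap
    simp only [Finset.mul_sum]
    rw [integral_finset_sum]
    · exact hw
    · intro i _
      simp only [HC_D2_eq h1]
      have h5 : Continuous (fun x => fderiv ℝ (fun y => fderiv ℝ ψ y (ee i)) x (ee i)) :=
        ((hd1 i).continuous_fderiv (by simp)).clm_apply continuous_const
      exact (continuous_mul_of_tsupport hs.isOpen hs.c1.continuousOn h5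
        ((hsub _).trans ((hsub _).trans h3))).integrable_of_hasCompactSupport
        (hc _ (hc _ h2)).mul_left
  · intro i _
    exact (continuous_mul_of_tsupport hs.isOpen (hu1 _) (hd1 i).continuous
      ((hsub _).trans h3)).integrable_of_hasCompactSupport (hc _ h2).mul_left

theorem HC (h1 : StmtHC1) (h2 : StmtHC2) (hW : StmtWEYL) : StmtHC := by
  intro n d h R hn hd hR hs hne
  have hd0 : 0 < d := by
    have : (2 : ℝ) ≤ n := by exact_mod_cast hn
    linarith
  have hop : IsOpen (ball (0 : En n) R) := isOpen_ball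
  obtain ⟨g, hg1, hg2, hg3⟩ := hW n h R (by omega)
    (hs.c1.continuousOn.locallyIntegrableOn hop.measurableSet)
    (fun ψ p1 p2 p3 => HC_weak hs p1 p2 p3)
  have heq : EqOn g h (ball (0 : En n) R) :=
    Measure.eqOn_open_of_ae_eq hg3 hop hg1.continuousOn hs.c1.continuousOn
  have hgrad : ∀ x ∈ ball (0 : En n) R, gradient g x = gradient h x := by
    intro x hx
    have : g =ᶠ[𝓝 x] h := heq.eventuallyEq_of_mem (hop.mem_nhds hx)
    unfold gradient
    rw [this.fderiv_eq]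
  have hne' : ∃ x ∈ ball (0 : En n) R, gradient g x ≠ 0 := by
    obtain ⟨x, hx, hx2⟩ := hne
    exact ⟨x, hx, by rwa [hgrad x hx]⟩
  set S : List (Fin n) → Set (En n) := fun J =>
    {x ∈ ball (0 : En n) R | gradient (pd J g) x = 0 ∧ lap (pd J g) x = 0 ∧
      ∃ ξ η, D2 (pd J g) x ξ η ≠ 0} with hS
  have hS0 : ∀ J, cont n d (S J) = 0 := fun J =>
    h2 n d (pd J g) (ball 0 R) hn hd hop (HC_contDiffOn_pd hop hg1 J)
  set T : ℕ → Set (En n) := fun k =>
    match (Encodable.decode k : Option (List (Fin n))) with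
    | some J => S J
    | none => ∅ with hT
  have hT0 : ∀ k, cont n d (T k) = 0 := by
    intro k
    simp only [hT]
    split
    · exact hS0 _
    · exact cont_empty hd0
  have hsub : {x ∈ ball (0 : En n) R | gradient h x = 0} ⊆ ⋃ k, T k := by
    rintro x ⟨hx, hx2⟩
    obtain ⟨J, j1, j2, j3⟩ := h1 n g R (by omega) hR hg1 hg2 hne' x hx
      (by rw [hgrad x hx]; exact hx2)
    refine mem_iUnion.2 ⟨Encodable.encode J, ?_⟩
    simp only [hT, Encodable.encodek]
    exact ⟨hx, j1, j3, j2⟩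
  have h3 := (cont_mono (d := d) hsub).trans (cont_iUnion_le T)
  simp only [hT0, tsum_zero, nonpos_iff_eq_zero] at h3
  exact h3

end EAGrad

end

section

/-!
MP_ea6116_an: critical points with nonzero trace free Hessian have dimension at most `n - 2`.
-/

set_option autoImplicit false

open MeasureTheory Metric Set Filter Topology
open scoped ENNReal NNReal ContDiff

namespace EAGrad

theorem HC2_basis {n : ℕ} (v : En n) : v = ∑ i, v i • (ee i : En n) := by
  ext j
  simp [ee, Finset.sum_apply, Pi.single_apply]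

theorem HC2_fin1 {V : Type*} [AddCommGroup V] [Module ℝ V] (R : Submodule ℝ V)
    [FiniteDimensional ℝ R] (h : Module.finrank ℝ R ≤ 1) :
    ∃ u : V, ∀ w ∈ R, ∃ c : ℝ, w = c • u := by
  obtain ⟨u, hu⟩ := finrank_le_one_iff.1 h
  refine ⟨u, fun w hw => ?_⟩
  obtain ⟨c, hc⟩ := hu ⟨w, hw⟩
  exact ⟨c, by rw [← Submodule.coe_smul, hc]⟩

theorem HC2_rank {n : ℕ} (M : En n →L[ℝ] (En n →L[ℝ] ℝ)) (hs : ∀ v w, M v w = M w v)
    (htr : ∑ i, M (ee i) (ee i) = 0) (hne : ∃ ξ η, M ξ η ≠ 0) :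
    Module.finrank ℝ (LinearMap.ker (M : En n →ₗ[ℝ] (En n →L[ℝ] ℝ))) + 2 ≤ n := by
  by_contra hcon
  have hrn := LinearMap.finrank_range_add_finrank_ker (M : En n →ₗ[ℝ] (En n →L[ℝ] ℝ))
  rw [finrank_euclideanSpace_fin] at hrn
  have h1 : Module.finrank ℝ (LinearMap.range (M : En n →ₗ[ℝ] (En n →L[ℝ] ℝ))) ≤ 1 := by omega
  obtain ⟨u, hu⟩ := HC2_fin1 _ h1
  obtain ⟨v, hv⟩ : ∃ v, M v v ≠ 0 := by
    by_contra hc
    push Not at hc
    obtain ⟨ξ, η, h⟩ := hne
    apply h
    have h2 := hc (ξ + η)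
    rw [map_add, map_add, add_apply, add_apply, hc, hc, hs η ξ] at h2
    linarith
  have hM : ∀ ξ, ∃ c : ℝ, M ξ = c • u := fun ξ => hu (M ξ) ⟨ξ, rfl⟩
  obtain ⟨c0, hc0⟩ := hM v
  have hc0' : c0 ≠ 0 := by
    intro h
    apply hv
    rw [hc0, h]
    simp
  have key : ∀ ξ, M ξ ξ * M v v = (M v ξ) ^ 2 := by
    intro ξ
    obtain ⟨c, hc⟩ := hM ξ
    have e1 : ∀ η, c0 * M ξ η = c * M v η := by
      intro η
      rw [hc, hc0]
      simp only [smul_apply, smul_eq_mul]
      ring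
    have e2 := e1 v
    have e3 := e1 ξ
    rw [hs ξ v] at e2
    have e4 : c0 * (M ξ ξ * M v v) = c0 * (M v ξ) ^ 2 := by
      calc c0 * (M ξ ξ * M v v) = (c0 * M ξ ξ) * M v v := by ring
        _ = (c * M v ξ) * M v v := by rw [e3]
        _ = (c * M v v) * M v ξ := by ring
        _ = (c0 * M v ξ) * M v ξ := by rw [e2]
        _ = c0 * (M v ξ) ^ 2 := by ring
    exact mul_left_cancel₀ hc0' e4
  have hsum : ∑ i, (M v (ee i)) ^ 2 = 0 := by
    have : ∑ i, (M v (ee i)) ^ 2 = (∑ i, M (ee i) (ee i)) * M v v := by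
      rw [Finset.sum_mul]
      exact Finset.sum_congr rfl fun i _ => (key _).symm
    rw [this, htr, zero_mul]
  rw [Finset.sum_eq_zero_iff_of_nonneg (fun i _ => sq_nonneg _)] at hsum
  apply hv
  have e5 : M v v = ∑ i, v i * M v (ee i) := by
    conv_lhs => rw [HC2_basis v]
    rw [map_sum]
    refine Finset.sum_congr rfl fun i _ => ?_
    rw [map_smul, ← HC2_basis v, smul_eq_mul]
  rw [e5]
  refine Finset.sum_eq_zero fun i hi => ?_
  have := hsum i hi
  rw [pow_eq_zero_iff two_ne_zero] at this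
  rw [this, mul_zero]

theorem HC2_local {n : ℕ} (g : En n → ℝ) (U : Set (En n)) (x0 : En n) (hU : IsOpen U)
    (hg : ContDiffOn ℝ ∞ g U) (hx : x0 ∈ U) (h0 : lap g x0 = 0)
    (hne : ∃ ξ η, D2 g x0 ξ η ≠ 0) :
    ∃ V ∈ 𝓝 x0, dimH {y : En n | y ∈ V ∧ gradient g y = 0} ≤ ((n - 2 : ℕ) : ℝ≥0∞) := by
  have hat : ContDiffAt ℝ ∞ g x0 := hg.contDiffAt (hU.mem_nhds hx)
  set M : En n →L[ℝ] (En n →L[ℝ] ℝ) := fderiv ℝ (fderiv ℝ g) x0 with hM
  have hstrict : HasStrictFDerivAt (fderiv ℝ g) M x0 := by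
    have h1 : ContDiffAt ℝ 1 (fderiv ℝ g) x0 :=
      ContDiffAt.fderiv_right (m := 1) hat (by norm_cast)
    exact h1.hasStrictFDerivAt one_ne_zero
  have hsymm : ∀ v w, M v w = M w v := by
    have h1 : IsSymmSndFDerivAt ℝ g x0 := by
      apply ContDiffAt.isSymmSndFDerivAt hat
      simp only [minSmoothness_of_isRCLikeNormedField]
      exact WithTop.coe_le_coe.2 (le_top : (2 : ℕ∞) ≤ ⊤)
    exact fun v w => h1 v w
  have hrank := HC2_rank M hsymm h0 hne
  set W : Submodule ℝ (En n) := LinearMap.ker (M : En n →ₗ[ℝ] (En n →L[ℝ] ℝ)) with hW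
  set P : En n →L[ℝ] W := W.orthogonalProjectionOnto with hP
  set T : En n →ₗ[ℝ] W × (En n →L[ℝ] ℝ) :=
    LinearMap.prod (P : En n →ₗ[ℝ] W) (M : En n →ₗ[ℝ] (En n →L[ℝ] ℝ)) with hT
  have hker : LinearMap.ker T = ⊥ := by
    rw [LinearMap.ker_eq_bot']
    intro v hv
    have h1 : P v = 0 := congrArg Prod.fst hv
    have h2 : M v = 0 := congrArg Prod.snd hv
    have h3 : v ∈ W := h2
    have h4 : P (⟨v, h3⟩ : W) = ⟨v, h3⟩ :=
      Submodule.orthogonalProjectionOnto_mem_subspace_eq_self _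
    have h5 : (⟨v, h3⟩ : W) = 0 := by
      rw [← h4]
      exact h1
    exact congrArg Subtype.val h5
  obtain ⟨K, hK0, hK⟩ := T.exists_antilipschitzWith hker
  have hc : (0 : ℝ≥0) < (2 * K)⁻¹ := by positivity
  obtain ⟨V, hV, happ⟩ := hstrict.approximates_deriv_on_nhds (Or.inr hc)
  refine ⟨V, hV, ?_⟩
  set S : Set (En n) := {y : En n | y ∈ V ∧ gradient g y = 0} with hS
  have hzero : ∀ y ∈ S, fderiv ℝ g y = 0 := by
    intro y hy
    rw [← norm_eq_zero, ← norm_gradient, hy.2, norm_zero]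
  have hanti : AntilipschitzWith K (fun y : S => P (y : En n)) := by
    refine AntilipschitzWith.of_le_mul_dist fun y z => ?_
    have h1 := hK.le_mul_dist (y : En n) (z : En n)
    have h2 : ‖M ((y : En n) - z)‖ ≤ (2 * K)⁻¹ * ‖(y : En n) - z‖ := by
      have := happ y y.2.1 z z.2.1
      rw [hzero y y.2, hzero z z.2, sub_zero, zero_sub, norm_neg] at this
      exact_mod_cast this
    have hd : dist y z = ‖(y : En n) - z‖ := by
      rw [Subtype.dist_eq, dist_eq_norm]
    rw [hd]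
    have h3 : dist (T (y : En n)) (T (z : En n)) =
        max (dist (P (y : En n)) (P (z : En n))) ‖M ((y : En n) - z)‖ := by
      rw [Prod.dist_eq]
      congr 1
      rw [map_sub, ← dist_eq_norm]
      rfl
    rw [h3, dist_eq_norm (y : En n)] at h1
    have hK0' : (0 : ℝ) < K := by exact_mod_cast hK0
    rcases le_total (dist (P (y : En n)) (P (z : En n))) ‖M ((y : En n) - z)‖ with h | h
    · rw [max_eq_right h] at h1
      have h4 : (K : ℝ) * ‖M ((y : En n) - z)‖ ≤ 1 / 2 * ‖(y : En n) - z‖ := by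
        calc (K : ℝ) * ‖M ((y : En n) - z)‖ ≤ K * ((2 * K)⁻¹ * ‖(y : En n) - z‖) :=
              mul_le_mul_of_nonneg_left h2 hK0'.le
          _ = 1 / 2 * ‖(y : En n) - z‖ := by
              field_simp
              push_cast
              field_simp
      have h5 : ‖(y : En n) - z‖ ≤ 0 := by linarith
      exact h5.trans (by positivity)
    · rw [max_eq_left h] at h1
      exact h1
  have h1 : dimH S = dimH (univ : Set S) := by
    have := (isometry_subtype_coe (s := S)).dimH_image univ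
    rw [image_univ, Subtype.range_coe] at this
    exact this
  rw [h1]
  have h2 := hanti.dimH_preimage_le (univ : Set W)
  rw [preimage_univ] at h2
  refine h2.trans ?_
  rw [Real.dimH_univ_eq_finrank]
  have h3 : Module.finrank ℝ W ≤ n - 2 := by omega
  exact_mod_cast h3

theorem HC2_cont_le {n : ℕ} {d : ℝ} (hd : 0 < d) (S : Set (En n)) :
    cont n d S ≤ μH[d] S := by
  rw [Measure.hausdorffMeasure_apply]
  refine le_iSup₂_of_le ⊤ ENNReal.zero_lt_top ?_
  refine le_iInf fun t => le_iInf fun ht => le_iInf fun _ => ?_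
  refine (cont_le t ht).trans (ENNReal.tsum_le_tsum fun i => ?_)
  by_cases h : (t i).Nonempty
  · rw [iSup_pos h]
  · rw [not_nonempty_iff_eq_empty] at h
    rw [h, Metric.ediam_empty, ENNReal.zero_rpow_of_pos hd]
    exact zero_le

theorem HC2 : StmtHC2 := by
  intro n d g U hn hd hU hg
  have hn' : (2 : ℝ) ≤ n := by exact_mod_cast hn
  have hd0 : 0 < d := by linarith
  refine le_antisymm ((HC2_cont_le hd0 _).trans ?_) zero_le
  set S := {x ∈ U | gradient g x = 0 ∧ lap g x = 0 ∧ ∃ ξ η, D2 g x ξ η ≠ 0} with hS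
  have hdim : dimH S ≤ ((n - 2 : ℕ) : ℝ≥0∞) := by
    by_contra hc
    push Not at hc
    obtain ⟨x, hx, hbig⟩ := exists_mem_nhdsWithin_lt_dimH_of_lt_dimH hc
    obtain ⟨V, hV, hVd⟩ := HC2_local g U x hU hg hx.1 hx.2.2.1 hx.2.2.2
    have h1 : {y : En n | y ∈ V ∧ gradient g y = 0} ∈ 𝓝[S] x := by
      rw [mem_nhdsWithin_iff_exists_mem_nhds_inter]
      exact ⟨V, hV, fun y hy => ⟨hy.1, hy.2.2.1⟩⟩
    exact absurd (hbig _ h1) (not_lt.2 hVd)
  have hlt : dimH S < ((Real.toNNReal d : ℝ≥0) : ℝ≥0∞) := by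
    refine hdim.trans_lt ?_
    have : ((n - 2 : ℕ) : ℝ≥0) < Real.toNNReal d := by
      rw [← NNReal.coe_lt_coe, Real.coe_toNNReal d hd0.le, NNReal.coe_natCast, Nat.cast_sub hn]
      exact_mod_cast hd
    exact_mod_cast this
  have := hausdorffMeasure_of_dimH_lt hlt
  rw [Real.coe_toNNReal d hd0.le] at this
  exact this.le

end EAGrad

end

section

/-!
Points which are independent at scale `τ` give a frame.
-/

set_option autoImplicit false

open MeasureTheory Metric Set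
open scoped ENNReal NNReal ContDiff

namespace EAGrad

/-- The span of the first `k` vectors. -/
noncomputable def INDspan {n : ℕ} (y : Fin n → En n) (k : ℕ) : Submodule ℝ (En n) :=
  Submodule.span ℝ (y '' {i | (i : ℕ) < k})

theorem INDspan_succ {n : ℕ} (y : Fin n → En n) (k : ℕ) (hk : k < n) :
    INDspan y (k + 1) = Submodule.span ℝ (insert (y ⟨k, hk⟩) (y '' {i | (i : ℕ) < k})) := by
  rw [INDspan]
  congr 1
  ext v
  constructor
  · rintro ⟨i, hi, rfl⟩
    rcases Nat.lt_succ_iff_lt_or_eq.mp (show (i : ℕ) < k + 1 from hi) with h | h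
    · exact Or.inr ⟨i, h, rfl⟩
    · left
      congr 1
      exact Fin.ext h
  · rintro (rfl | ⟨i, hi, rfl⟩)
    · exact ⟨⟨k, hk⟩, Nat.lt_succ_self k, rfl⟩
    · exact ⟨i, Nat.lt_succ_of_lt hi, rfl⟩

theorem IND_aux {n : ℕ} (y : Fin n → En n) (τ : ℝ) (hτ : 0 < τ) (hb : ∀ j, ‖y j‖ ≤ 4)
    (h0 : ∀ j : Fin n, (j : ℕ) = 0 → y j = 0)
    (hd : ∀ (k : ℕ) (hk : k < n), 1 ≤ k → ∀ a ∈ INDspan y k, τ ≤ ‖y ⟨k, hk⟩ - a‖)
    (k : ℕ) (hk : 1 ≤ k) : k ≤ n →
    (∀ v ∈ INDspan y k, ‖v‖ ≤ (1 + 4 / τ) ^ k *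
      ∑ i ∈ Finset.univ.filter (fun i : Fin n => (i : ℕ) < k), |inner ℝ v (y i)|) ∧
    Module.finrank ℝ (INDspan y k) + 1 = k := by
  induction k, hk using Nat.le_induction with
  | base =>
    intro _
    have hbot : INDspan y 1 = ⊥ := by
      rw [INDspan, Submodule.span_eq_bot]
      rintro v ⟨i, hi, rfl⟩
      exact h0 i (by have : (i : ℕ) < 1 := hi; omega)
    rw [hbot]
    constructor
    · intro v hv
      rw [Submodule.mem_bot] at hv
      subst hv
      rw [norm_zero]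
      positivity
    · simp
  | succ k hk ih =>
    intro hkn
    have hkn' : k < n := hkn
    obtain ⟨ih1, ih2⟩ := ih hkn'.le
    set S := INDspan y k with hS
    set yk := y ⟨k, hkn'⟩ with hyk
    have hK : (1 : ℝ) ≤ 1 + 4 / τ := by
      have : 0 ≤ 4 / τ := by positivity
      linarith
    constructor
    · intro v hv
      rw [INDspan_succ y k hkn', Submodule.mem_span_insert] at hv
      obtain ⟨t, s, hs, rfl⟩ := hv
      -- decomposition of `yk`
      obtain ⟨a, ha, b, hbS, hab⟩ := S.exists_add_mem_mem_orthogonal yk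
      have hbn : τ ≤ ‖b‖ := by
        have h1 := hd k hkn' hk a ha
        rw [← hyk, hab] at h1
        simpa using h1
      have horth : ∀ z ∈ S, inner ℝ z b = 0 := fun z hz => hbS z hz
      set w := s + t • a with hw
      have hwS : w ∈ S := S.add_mem hs (S.smul_mem t ha)
      have hv : t • yk + s = w + t • b := by
        rw [hw, hab, smul_add]
        abel
      have hyS : ∀ i : Fin n, (i : ℕ) < k → y i ∈ S := fun i hi =>
        Submodule.subset_span ⟨i, hi, rfl⟩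
      have hin : ∀ i : Fin n, (i : ℕ) < k →
          inner ℝ (t • yk + s) (y i) = inner ℝ w (y i) := by
        intro i hi
        rw [hv, inner_add_left, real_inner_smul_left, real_inner_comm,
          real_inner_comm (y i) b, horth _ (hyS i hi), real_inner_comm]
        ring
      have hink : inner ℝ (t • yk + s) yk = inner ℝ w yk + t * ‖b‖ ^ 2 := by
        rw [hv, inner_add_left, real_inner_smul_left]
        congr 2
        have hba : inner ℝ b a = 0 := by
          rw [real_inner_comm]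
          exact horth a ha
        rw [hab, inner_add_right, real_inner_self_eq_norm_sq, hba, zero_add]
      have hbk : ‖yk‖ ≤ 4 := hb _
      have h1 : |t| * ‖b‖ ^ 2 ≤ |inner ℝ (t • yk + s) yk| + 4 * ‖w‖ := by
        have h2 : t * ‖b‖ ^ 2 = inner ℝ (t • yk + s) yk - inner ℝ w yk := by
          rw [hink]
          ring
        have h3 : |inner ℝ w yk| ≤ ‖w‖ * ‖yk‖ := abs_real_inner_le_norm w yk
        have h4 : ‖w‖ * ‖yk‖ ≤ ‖w‖ * 4 := mul_le_mul_of_nonneg_left hbk (norm_nonneg w)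
        have h5 : |t| * ‖b‖ ^ 2 = |t * ‖b‖ ^ 2| := by
          rw [abs_mul, abs_of_nonneg (sq_nonneg ‖b‖)]
        rw [h5, h2]
        have h6 := abs_sub (inner ℝ (t • yk + s) yk) (inner ℝ w yk)
        linarith
      have h2 : |t| * ‖b‖ ≤ (|inner ℝ (t • yk + s) yk| + 4 * ‖w‖) / τ := by
        rw [le_div_iff₀ hτ]
        calc |t| * ‖b‖ * τ ≤ |t| * ‖b‖ * ‖b‖ :=
              mul_le_mul_of_nonneg_left hbn (by positivity)
          _ = |t| * ‖b‖ ^ 2 := by ring
          _ ≤ _ := h1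
      have h3 : ‖t • yk + s‖ ≤ ‖w‖ + |t| * ‖b‖ := by
        rw [hv]
        calc ‖w + t • b‖ ≤ ‖w‖ + ‖t • b‖ := norm_add_le _ _
          _ = ‖w‖ + |t| * ‖b‖ := by rw [norm_smul, Real.norm_eq_abs]
      have h4 := ih1 w hwS
      have hfil : Finset.univ.filter (fun i : Fin n => (i : ℕ) < k + 1) =
          insert (⟨k, hkn'⟩ : Fin n) (Finset.univ.filter (fun i : Fin n => (i : ℕ) < k)) := by
        ext i
        simp only [Finset.mem_filter, Finset.mem_univ, true_and, Finset.mem_insert, Fin.ext_iff]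
        omega
      have hnot : (⟨k, hkn'⟩ : Fin n) ∉ Finset.univ.filter (fun i : Fin n => (i : ℕ) < k) := by
        simp
      rw [hfil, Finset.sum_insert hnot]
      have h5 : ∑ i ∈ Finset.univ.filter (fun i : Fin n => (i : ℕ) < k),
          |inner ℝ (t • yk + s) (y i)| =
          ∑ i ∈ Finset.univ.filter (fun i : Fin n => (i : ℕ) < k), |inner ℝ w (y i)| := by
        refine Finset.sum_congr rfl fun i hi => ?_
        rw [hin i (Finset.mem_filter.mp hi).2]
      rw [h5]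
      set sw := ∑ i ∈ Finset.univ.filter (fun i : Fin n => (i : ℕ) < k), |inner ℝ w (y i)|
      have hsw : 0 ≤ sw := Finset.sum_nonneg fun i _ => abs_nonneg _
      set p := |inner ℝ (t • yk + s) yk| with hp
      have hp0 : 0 ≤ p := abs_nonneg _
      have hKk : (1 : ℝ) ≤ (1 + 4 / τ) ^ k := one_le_pow₀ hK
      have h6 : ‖t • yk + s‖ ≤ (1 + 4 / τ) * ‖w‖ + p / τ := by
        have : (p + 4 * ‖w‖) / τ = p / τ + 4 / τ * ‖w‖ := by ring
        rw [this] at h2
        linarith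
      have h7 : (1 + 4 / τ) * ‖w‖ ≤ (1 + 4 / τ) ^ (k + 1) * sw := by
        calc (1 + 4 / τ) * ‖w‖ ≤ (1 + 4 / τ) * ((1 + 4 / τ) ^ k * sw) :=
              mul_le_mul_of_nonneg_left h4 (by linarith)
          _ = _ := by ring
      have h8 : p / τ ≤ (1 + 4 / τ) ^ (k + 1) * p := by
        have h9 : 1 / τ ≤ 1 + 4 / τ := by
          have h10 : 1 / τ ≤ 4 / τ := by gcongr; norm_num
          linarith
        have h11 : 1 + 4 / τ ≤ (1 + 4 / τ) ^ (k + 1) := by
          calc 1 + 4 / τ = (1 + 4 / τ) * 1 := by ring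
            _ ≤ (1 + 4 / τ) * (1 + 4 / τ) ^ k := mul_le_mul_of_nonneg_left hKk (by linarith)
            _ = _ := by ring
        calc p / τ = 1 / τ * p := by ring
          _ ≤ (1 + 4 / τ) ^ (k + 1) * p := mul_le_mul_of_nonneg_right (h9.trans h11) hp0
      calc ‖t • yk + s‖ ≤ (1 + 4 / τ) * ‖w‖ + p / τ := h6
        _ ≤ (1 + 4 / τ) ^ (k + 1) * (p + sw) := by
          rw [mul_add]
          linarith
    · have hlt : S < INDspan y (k + 1) := by
        rw [INDspan_succ y k hkn']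
        refine lt_of_le_of_ne (Submodule.span_mono (Set.subset_insert _ _)) ?_
        intro heq
        have hmem : yk ∈ S := by
          rw [heq]
          exact Submodule.subset_span (Set.mem_insert _ _)
        have h1 := hd k hkn' hk yk hmem
        rw [← hyk, sub_self, norm_zero] at h1
        linarith
      have h1 := Submodule.finrank_lt_finrank_of_lt hlt
      have h2 : Module.finrank ℝ (INDspan y (k + 1)) ≤ 1 + Module.finrank ℝ S := by
        rw [INDspan_succ y k hkn', Submodule.span_insert]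
        refine (Submodule.finrank_add_le_finrank_add_finrank _ _).trans ?_
        gcongr
        · have h3 := finrank_span_finset_le_card (R := ℝ) ({yk} : Finset (En n))
          rw [Finset.coe_singleton, Finset.card_singleton] at h3
          exact h3
        · exact le_rfl
      omega

theorem IND : StmtIND := by
  intro n hn τ hτ
  refine ⟨((1 + 4 / τ) ^ n)⁻¹, by positivity, ?_⟩
  intro x hx hind
  set o : Fin n := ⟨0, by omega⟩ with ho
  set y : Fin n → En n := fun j => x j - x o with hy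
  have hb : ∀ j, ‖y j‖ ≤ 4 := by
    intro j
    calc ‖x j - x o‖ ≤ ‖x j‖ + ‖x o‖ := norm_sub_le _ _
      _ ≤ 4 := by linarith [hx j, hx o]
  have h0 : ∀ j : Fin n, (j : ℕ) = 0 → y j = 0 := by
    intro j hj
    have : j = o := Fin.ext hj
    rw [hy, this]
    exact sub_self _
  have hd : ∀ (k : ℕ) (hk : k < n), 1 ≤ k → ∀ a ∈ INDspan y k, τ ≤ ‖y ⟨k, hk⟩ - a‖ := by
    intro k hk hk1 a ha
    have h1 := hind ⟨k, hk⟩ hk1
    refine h1.trans ?_
    have hmem : a +ᵥ x o ∈ affineSpan ℝ (x '' {i | i < (⟨k, hk⟩ : Fin n)}) := by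
      have hox : x o ∈ affineSpan ℝ (x '' {i | i < (⟨k, hk⟩ : Fin n)}) :=
        subset_affineSpan ℝ _ ⟨o, by
          rw [Set.mem_ofPred_eq, Fin.lt_def]
          exact hk1, rfl⟩
      refine AffineSubspace.vadd_mem_of_mem_direction ?_ hox
      rw [direction_affineSpan]
      have hle : INDspan y k ≤ vectorSpan ℝ (x '' {i | i < (⟨k, hk⟩ : Fin n)}) := by
        rw [INDspan, Submodule.span_le]
        rintro v ⟨i, hi, rfl⟩
        refine vsub_mem_vectorSpan ℝ ⟨i, ?_, rfl⟩ ⟨o, ?_, rfl⟩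
        · rw [Set.mem_ofPred_eq, Fin.lt_def]
          exact hi
        · rw [Set.mem_ofPred_eq, Fin.lt_def]
          exact hk1
      exact hle ha
    have h2 := infDist_le_dist_of_mem (x := x ⟨k, hk⟩) hmem
    refine h2.trans (le_of_eq ?_)
    rw [dist_eq_norm, vadd_eq_add]
    congr 1
    change x ⟨k, hk⟩ - (a + x o) = x ⟨k, hk⟩ - x o - a
    abel
  obtain ⟨hA, hfr⟩ := IND_aux y τ hτ hb h0 hd n (by omega) le_rfl
  set S := INDspan y n with hS
  have hyS : ∀ j, y j ∈ S := fun j => Submodule.subset_span ⟨j, j.2, rfl⟩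
  have hfo : Module.finrank ℝ Sᗮ = 1 := by
    have h1 := Submodule.finrank_add_finrank_orthogonal (𝕜 := ℝ) S
    rw [finrank_euclideanSpace_fin] at h1
    omega
  obtain ⟨⟨e₀, he₀⟩, hne, hspan⟩ := finrank_eq_one_iff'.mp hfo
  have hne' : e₀ ≠ 0 := by
    rintro rfl
    exact hne rfl
  have hnorm : ‖e₀‖ ≠ 0 := norm_ne_zero_iff.mpr hne'
  refine ⟨‖e₀‖⁻¹ • e₀, ?_, ?_, hb, ?_⟩
  · rw [norm_smul, norm_inv, norm_norm, inv_mul_cancel₀ hnorm]
  · intro j
    rw [real_inner_smul_left, real_inner_comm]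
    have h1 : inner ℝ (y j) e₀ = 0 := he₀ (y j) (hyS j)
    change ‖e₀‖⁻¹ * inner ℝ (y j) e₀ = 0
    rw [h1, mul_zero]
  · intro v hv
    have hv0 : inner ℝ e₀ v = 0 := by
      rw [real_inner_smul_left] at hv
      rcases mul_eq_zero.mp hv with h | h
      · exact absurd h (inv_ne_zero hnorm)
      · exact h
    have hvS : v ∈ S := by
      rw [← Submodule.orthogonal_orthogonal S]
      intro u hu
      obtain ⟨c, hc⟩ := hspan ⟨u, hu⟩
      have hc' : u = c • e₀ := by
        have := congrArg Subtype.val hc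
        exact this.symm
      rw [hc', real_inner_smul_left, hv0, mul_zero]
    have h1 := hA v hvS
    have h2 : (Finset.univ.filter fun i : Fin n => (i : ℕ) < n) = Finset.univ := by
      ext i
      simp
    rw [h2] at h1
    have hpos : (0 : ℝ) < (1 + 4 / τ) ^ n := by positivity
    rw [inv_mul_le_iff₀ hpos]
    exact h1

end EAGrad

end

section

/-!
MP_ea6116_an: the key lemma (D2).
-/

set_option autoImplicit false

open MeasureTheory Metric Set Filter Topology
open scoped ENNReal NNReal ContDiff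

namespace EAGrad

variable {n : ℕ}

/-- `ρ² ≤ t² - b t` implies `ρ ≤ t exp (- b / (2 T))` for `t ≤ T`. -/
theorem KEY_sq {ρ t b T : ℝ} (hρ : 0 ≤ ρ) (ht : 0 < t) (hb : 0 ≤ b) (htT : t ≤ T)
    (h : ρ ^ 2 ≤ t ^ 2 - b * t) : ρ ≤ t * Real.exp (-(b / (2 * T))) := by
  have hT : 0 < T := ht.trans_le htT
  have h1 : 1 - b / t ≤ Real.exp (-(b / t)) := by
    have := Real.add_one_le_exp (-(b / t))
    linarith
  have h2 : Real.exp (-(b / t)) ≤ Real.exp (-(b / T)) := by
    apply Real.exp_le_exp.2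
    have : b / T ≤ b / t := div_le_div_of_nonneg_left hb ht htT
    linarith
  have h3 : t ^ 2 - b * t = t ^ 2 * (1 - b / t) := by
    field_simp
  have h4 : (t * Real.exp (-(b / (2 * T)))) ^ 2 = t ^ 2 * Real.exp (-(b / T)) := by
    rw [mul_pow, ← Real.exp_nat_mul]
    congr 2
    push_cast
    field_simp
  have h5 : ρ ^ 2 ≤ (t * Real.exp (-(b / (2 * T)))) ^ 2 := by
    rw [h4]
    calc ρ ^ 2 ≤ t ^ 2 * (1 - b / t) := by rw [← h3]; exact h
      _ ≤ t ^ 2 * Real.exp (-(b / T)) :=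
        mul_le_mul_of_nonneg_left (h1.trans h2) (sq_nonneg _)
  exact (sq_le_sq₀ hρ (by positivity)).1 h5

/-- Bound of the weighted Carleman boundary term at a point. -/
theorem KEY_q {A : En n → Op n} {u : En n → ℝ} {R₁ R₂ H N η₀ : ℝ} (hS : Sol A u (ball 0 (2 * R₂)))
    (hN : 0 ≤ N) (hR₁ : 4 ≤ R₁) (hR₂ : 4 < R₂) {p x : En n} (hp : ‖p‖ ≤ 4) (h1 : R₁ ≤ ‖x - p‖)
    (h2 : ‖x - p‖ ≤ R₂) (hD : Dg u p ‖x - p‖ ≤ H * Real.exp (η₀ * N) * ‖x - p‖ ^ N)
    {f : ℝ} (hf : f ≤ -Real.log ‖x - p‖) :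
    Real.exp (N * f) * (‖gradient u x‖ + |u x - u 0|) ≤
      (1 + 2 * R₂) * H * Real.exp (η₀ * N) := by
  set ρ := ‖x - p‖ with hρ
  have hρ0 : 0 < ρ := by linarith
  have hsub : closedBall p ρ ⊆ ball 0 (2 * R₂) := by
    intro z hz
    rw [mem_closedBall, dist_eq_norm] at hz
    rw [mem_ball_zero_iff]
    have : ‖z‖ ≤ ‖z - p‖ + ‖p‖ := by
      have := norm_add_le (z - p) p
      simpa using this
    linarith
  have hx : x ∈ closedBall p ρ := by rw [mem_closedBall, dist_eq_norm]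
  have h0 : (0 : En n) ∈ closedBall p ρ := by
    rw [mem_closedBall, dist_eq_norm, zero_sub, norm_neg]; linarith
  have hx2 : ‖x‖ ≤ 2 * R₂ := by
    have := hsub hx
    rw [mem_ball_zero_iff] at this
    exact this.le
  have e1 : ‖gradient u x‖ ≤ Dg u p ρ := hS.le_Dg hsub hx
  have e2 : |u x - u 0| ≤ Dg u p ρ * (2 * R₂) := by
    refine (hS.abs_sub_le hsub hx h0).trans ?_
    rw [sub_zero]
    exact mul_le_mul_of_nonneg_left hx2 (Dg_nonneg _ _ _)
  have e3 : ‖gradient u x‖ + |u x - u 0| ≤ (1 + 2 * R₂) * (H * Real.exp (η₀ * N) * ρ ^ N) := by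
    calc ‖gradient u x‖ + |u x - u 0| ≤ (1 + 2 * R₂) * Dg u p ρ := by linarith
      _ ≤ _ := mul_le_mul_of_nonneg_left hD (by linarith)
  have e4 : Real.exp (N * f) ≤ Real.exp (-(N * Real.log ρ)) := by
    apply Real.exp_le_exp.2
    nlinarith
  have e5 : ρ ^ N = Real.exp (N * Real.log ρ) := by
    rw [Real.rpow_def_of_pos hρ0, mul_comm]
  have e6 : Real.exp (-(N * Real.log ρ)) * ρ ^ N = 1 := by
    rw [e5, ← Real.exp_add]; simp
  have hnn : 0 ≤ ‖gradient u x‖ + |u x - u 0| := by positivity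
  calc Real.exp (N * f) * (‖gradient u x‖ + |u x - u 0|)
      ≤ Real.exp (-(N * Real.log ρ)) * (‖gradient u x‖ + |u x - u 0|) :=
        mul_le_mul_of_nonneg_right e4 hnn
    _ ≤ Real.exp (-(N * Real.log ρ)) * ((1 + 2 * R₂) * (H * Real.exp (η₀ * N) * ρ ^ N)) :=
        mul_le_mul_of_nonneg_left e3 (Real.exp_pos _).le
    _ = (1 + 2 * R₂) * H * Real.exp (η₀ * N) * (Real.exp (-(N * Real.log ρ)) * ρ ^ N) := by ring
    _ = _ := by rw [e6, mul_one]

/-- Distance to a point in a favourable direction. -/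
theorem KEY_dist {x p : En n} {b : ℝ} (hp : ‖p‖ ≤ 4) (h : b * ‖x‖ ≤ inner ℝ x p)
    (h2 : 16 ≤ b * ‖x‖) : ‖x - p‖ ^ 2 ≤ ‖x‖ ^ 2 - b * ‖x‖ := by
  have e := norm_sub_sq_real x p
  have : ‖p‖ ^ 2 ≤ 16 := by
    have := norm_nonneg p
    nlinarith
  linarith

theorem KEY_norm_sub {x p : En n} (hp : ‖p‖ ≤ 4) : ‖x‖ - 4 ≤ ‖x - p‖ ∧ ‖x - p‖ ≤ ‖x‖ + 4 := by
  constructor
  · linarith [norm_sub_norm_le x p]
  · linarith [norm_sub_le x p]

/-- Comparison `a < b` in exponents. -/
theorem KEY_lt {H N η₀ a R X : ℝ} (hH : 0 < H) (hN : 0 < N) (hR : 0 < R) (h : 2 * η₀ < a)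
    (hX : X ≤ H * Real.exp (η₀ * N) * (R * Real.exp (-a)) ^ N) :
    X < H * Real.exp (-(η₀ * N)) * R ^ N := by
  refine hX.trans_lt ?_
  have hRN : 0 < R ^ N := Real.rpow_pos_of_pos hR N
  have e1 : (R * Real.exp (-a)) ^ N = R ^ N * Real.exp (-(a * N)) := by
    rw [Real.mul_rpow hR.le (Real.exp_pos _).le, ← Real.exp_mul]
    congr 2
    ring
  rw [e1]
  have e2 : H * Real.exp (η₀ * N) * (R ^ N * Real.exp (-(a * N))) =
      H * Real.exp (η₀ * N + -(a * N)) * R ^ N := by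
    rw [Real.exp_add]; ring
  rw [e2]
  have e3 : Real.exp (η₀ * N + -(a * N)) < Real.exp (-(η₀ * N)) := by
    apply Real.exp_lt_exp.2
    nlinarith
  have := mul_lt_mul_of_pos_left e3 hH
  exact mul_lt_mul_of_pos_right this hRN

theorem KEY (hW : StmtKEYW) (hP : StmtPT) : StmtKEY := by
  intro n c hn hc
  obtain ⟨ζ, R₁, R, R₂, ε₁, δ₃, r', M, c', hζ, hR₁, hζR₁, hR₁R, hRR₂, hε₁, hδ₃, hδ₃', hR1δ, hR4,
    hr', hM, hc', hKW⟩ := hW n c hn hc
  obtain ⟨s₀, τ₀, C, hs₀, hτ₀, hC, hPT⟩ := hP n M c' r' (by omega) hM hc' hr'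
  have hR : 0 < R := by linarith
  have hR₂ : 0 < R₂ := by linarith
  refine ⟨R₁, R, R₂, min (1 / 2) (min (δ₃ / 4) (min (ζ / (16 * R)) (ε₁ / 8))), s₀,
    max τ₀ (4 * (C * (1 + 2 * R₂)) / ε₁), hR₁, hR₁R, hRR₂, ?_, ?_, hs₀, ?_, ?_⟩
  · refine lt_min (by norm_num) (lt_min (by positivity) (lt_min (by positivity) (by positivity)))
  · exact (min_le_left _ _).trans_lt (by norm_num)
  · exact lt_max_of_lt_left hτ₀
  intro A u e y H N hF hS hA hH hN h0 hj
  set η₀ := min (1 / 2) (min (δ₃ / 4) (min (ζ / (16 * R)) (ε₁ / 8))) with hη₀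
  have hη₀0 : 0 < η₀ :=
    lt_min (by norm_num) (lt_min (by positivity) (lt_min (by positivity) (by positivity)))
  have hη1 : η₀ ≤ δ₃ / 4 := (min_le_right _ _).trans (min_le_left _ _)
  have hη2 : η₀ ≤ ζ / (16 * R) :=
    (min_le_right _ _).trans ((min_le_right _ _).trans (min_le_left _ _))
  have hη3 : η₀ ≤ ε₁ / 8 :=
    (min_le_right _ _).trans ((min_le_right _ _).trans (min_le_right _ _))
  have hNτ : τ₀ ≤ N := (le_max_left _ _).trans hN
  have hNC : 4 * (C * (1 + 2 * R₂)) / ε₁ ≤ N := (le_max_right _ _).trans hN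
  have hN0 : 0 < N := hτ₀.trans_le hNτ
  have hsubR : closedBall (0 : En n) R ⊆ ball 0 (2 * R₂) :=
    closedBall_subset_ball (by linarith)
  obtain ⟨y₀, hy₀, hy₀eq⟩ := hS.exists_eq_Dg hR.le hsubR
  rw [← hy₀eq]
  rw [mem_closedBall, dist_zero_right] at hy₀
  by_cases hcase : ‖y₀‖ ≤ R * (1 - δ₃)
  · -- case (i)
    have hle : R * (1 - δ₃) ≤ R₂ := by nlinarith
    have hb : ‖gradient u y₀‖ ≤ Dg u 0 (R * (1 - δ₃)) := by
      refine hS.le_Dg ?_ (by rw [mem_closedBall, dist_zero_right]; exact hcase)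
      exact closedBall_subset_ball (by linarith)
    have hb2 := hb.trans (h0 (R * (1 - δ₃)) (by linarith) hle)
    have hexp : 1 - δ₃ ≤ Real.exp (-δ₃) := by
      have := Real.add_one_le_exp (-δ₃)
      linarith
    have h3 : (R * (1 - δ₃)) ^ N ≤ (R * Real.exp (-δ₃)) ^ N := by
      apply Real.rpow_le_rpow _ _ hN0.le
      · have : 0 ≤ 1 - δ₃ := by linarith
        positivity
      · exact mul_le_mul_of_nonneg_left hexp hR.le
    refine KEY_lt hH hN0 hR (a := δ₃) (by linarith) (hb2.trans ?_)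
    exact mul_le_mul_of_nonneg_left h3 (by positivity)
  push Not at hcase
  have hy₀pos : 0 < ‖y₀‖ := by linarith
  by_cases hcase2 : ∀ j, inner ℝ y₀ (y j) ≤ ζ / 2 * ‖y₀‖
  swap
  · -- case (ii)
    push Not at hcase2
    obtain ⟨j, hj2⟩ := hcase2
    have hyj := hF.bd j
    have hn := KEY_norm_sub (x := y₀) hyj
    have hb16 : 16 ≤ ζ / 2 * ‖y₀‖ := by nlinarith
    have hd := KEY_dist (x := y₀) (b := ζ / 2) hyj hj2.le hb16
    have hρ := KEY_sq (norm_nonneg _) hy₀pos (by positivity) hy₀ hd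
    have hsub : closedBall (y j) ‖y₀ - y j‖ ⊆ ball 0 (2 * R₂) := by
      intro z hz
      rw [mem_closedBall, dist_eq_norm] at hz
      rw [mem_ball_zero_iff]
      have : ‖z‖ ≤ ‖z - y j‖ + ‖y j‖ := by
        have := norm_add_le (z - y j) (y j)
        simpa using this
      linarith
    have hb : ‖gradient u y₀‖ ≤ Dg u (y j) ‖y₀ - y j‖ :=
      hS.le_Dg hsub (by rw [mem_closedBall, dist_eq_norm])
    have hb2 := hb.trans (hj j ‖y₀ - y j‖ (by linarith) (by linarith))
    have h3 : ‖y₀ - y j‖ ^ N ≤ (R * Real.exp (-(ζ / 2 / (2 * R)))) ^ N := by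
      apply Real.rpow_le_rpow (norm_nonneg _) _ hN0.le
      exact hρ.trans (mul_le_mul_of_nonneg_right hy₀ (Real.exp_pos _).le)
    refine KEY_lt hH hN0 hR (a := ζ / 2 / (2 * R)) ?_ (hb2.trans ?_)
    · have : ζ / 2 / (2 * R) = 4 * (ζ / (16 * R)) := by field_simp; ring
      rw [this]
      have : 0 < ζ / (16 * R) := by positivity
      linarith
    · exact mul_le_mul_of_nonneg_left h3 (by positivity)
  -- case (iii)
  obtain ⟨D, φ, B, g, χ, hDo, hDM, hφ, hB, hχ, hχc, hχD, hχ01, hCW, hχd, hDn, hQ, hpt⟩ :=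
    hKW e y hF
  obtain ⟨hball, hin⟩ := hpt y₀ hcase.le hy₀ hcase2
  have hDsub : D ⊆ ball 0 (2 * R₂) := by
    intro x hx
    rw [mem_ball_zero_iff]
    have := (hDn x hx).2
    linarith
  have hPTa := hPT D φ B g χ A u y₀ (u 0) (-Real.log ‖y₀‖ + ε₁ / 2) N
    ((1 + 2 * R₂) * H * Real.exp (η₀ * N)) hDo hDM hφ hB hχ hχc hχD hχ01 hCW hχd
    (hA.mono le_rfl le_rfl hDsub) (hS.mono hDo hDsub) hball hin hNτ (by positivity) (by
      intro x hx hne
      obtain ⟨hx1, hx2⟩ := hDn x hx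
      have hxpos : 0 < ‖x‖ := by linarith
      rcases hQ x hx hne with hc1 | ⟨j, hj1, hj2⟩
      · have h4 : ‖(0 : En n)‖ ≤ 4 := by simp
        have := KEY_q (p := 0) (x := x) (H := H) (η₀ := η₀) (R₁ := R₁) (f := φ x) hS hN0.le
          (by linarith) (by linarith) h4 (by rw [sub_zero]; linarith) (by rw [sub_zero]; linarith)
          (by rw [sub_zero]; exact h0 _ (by linarith) (by linarith))
          (by rw [sub_zero]; linarith)
        exact this
      · have hyj := hF.bd j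
        have hn := KEY_norm_sub (x := x) hyj
        have hb16 : 16 ≤ ζ * ‖x‖ := by nlinarith
        have hd := KEY_dist (x := x) (b := ζ) hyj hj1 hb16
        have hρ := KEY_sq (T := R₂) (norm_nonneg _) hxpos hζ.le (by linarith) hd
        have hρpos : 0 < ‖x - y j‖ := by linarith
        have hlog : Real.log ‖x - y j‖ ≤ Real.log ‖x‖ - ζ / (2 * R₂) := by
          have := Real.log_le_log hρpos hρ
          rw [Real.log_mul hxpos.ne' (Real.exp_pos _).ne', Real.log_exp] at this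
          linarith
        have hz : ζ / (4 * R₂) ≤ ζ / (2 * R₂) := by
          apply div_le_div_of_nonneg_left hζ.le (by positivity) (by linarith)
        exact KEY_q (p := y j) (x := x) (H := H) (η₀ := η₀) (R₁ := R₁) (f := φ x) hS hN0.le
          (by linarith) (by linarith) hyj (by linarith) (by linarith)
          (hj j _ (by linarith) (by linarith)) (by linarith))
  -- conclude
  have hRN : 0 < R ^ N := Real.rpow_pos_of_pos hR N
  have e1 : Real.exp (N * (-Real.log ‖y₀‖ + ε₁ / 2)) =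
      (Real.exp (N * Real.log ‖y₀‖))⁻¹ * Real.exp (ε₁ * N / 2) := by
    rw [← Real.exp_neg, ← Real.exp_add]
    congr 1
    ring
  have e2 : Real.exp (N * Real.log ‖y₀‖) ≤ R ^ N := by
    have : Real.exp (N * Real.log ‖y₀‖) = ‖y₀‖ ^ N := by
      rw [Real.rpow_def_of_pos hy₀pos, mul_comm]
    rw [this]
    exact Real.rpow_le_rpow (norm_nonneg _) hy₀ hN0.le
  have e3 : ‖gradient u y₀‖ ≤
      C * ((1 + 2 * R₂) * H * Real.exp (η₀ * N)) * R ^ N * Real.exp (-(ε₁ * N / 2)) := by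
    have hE : 0 < Real.exp (N * Real.log ‖y₀‖) := Real.exp_pos _
    have h5 : ‖gradient u y₀‖ =
        Real.exp (N * Real.log ‖y₀‖) * Real.exp (-(ε₁ * N / 2)) *
          (Real.exp (N * (-Real.log ‖y₀‖ + ε₁ / 2)) * ‖gradient u y₀‖) := by
      rw [e1, Real.exp_neg]
      have h6 : Real.exp (ε₁ * N / 2) ≠ 0 := (Real.exp_pos _).ne'
      field_simp
    rw [h5]
    calc Real.exp (N * Real.log ‖y₀‖) * Real.exp (-(ε₁ * N / 2)) *
          (Real.exp (N * (-Real.log ‖y₀‖ + ε₁ / 2)) * ‖gradient u y₀‖)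
        ≤ Real.exp (N * Real.log ‖y₀‖) * Real.exp (-(ε₁ * N / 2)) *
          (C * ((1 + 2 * R₂) * H * Real.exp (η₀ * N))) :=
          mul_le_mul_of_nonneg_left hPTa (by positivity)
      _ ≤ R ^ N * Real.exp (-(ε₁ * N / 2)) * (C * ((1 + 2 * R₂) * H * Real.exp (η₀ * N))) := by
          apply mul_le_mul_of_nonneg_right _ (by positivity)
          exact mul_le_mul_of_nonneg_right e2 (Real.exp_pos _).le
      _ = _ := by ring
  refine e3.trans_lt ?_
  have e4 : C * (1 + 2 * R₂) < Real.exp (ε₁ * N / 4) := by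
    have h6 := Real.add_one_le_exp (ε₁ * N / 4)
    have h7 : 4 * (C * (1 + 2 * R₂)) ≤ N * ε₁ := by
      rwa [div_le_iff₀ hε₁] at hNC
    linarith
  have e5 : Real.exp (ε₁ * N / 4) * Real.exp (η₀ * N) * Real.exp (-(ε₁ * N / 2)) ≤
      Real.exp (-(η₀ * N)) := by
    rw [← Real.exp_add, ← Real.exp_add]
    apply Real.exp_le_exp.2
    nlinarith
  calc C * ((1 + 2 * R₂) * H * Real.exp (η₀ * N)) * R ^ N * Real.exp (-(ε₁ * N / 2))
      = (C * (1 + 2 * R₂)) * (H * R ^ N * (Real.exp (η₀ * N) * Real.exp (-(ε₁ * N / 2)))) := by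
        ring
    _ < Real.exp (ε₁ * N / 4) * (H * R ^ N * (Real.exp (η₀ * N) * Real.exp (-(ε₁ * N / 2)))) :=
        mul_lt_mul_of_pos_right e4 (by positivity)
    _ = H * R ^ N * (Real.exp (ε₁ * N / 4) * Real.exp (η₀ * N) * Real.exp (-(ε₁ * N / 2))) := by
        ring
    _ ≤ H * R ^ N * Real.exp (-(η₀ * N)) := mul_le_mul_of_nonneg_left e5 (by positivity)
    _ = _ := by ring

end EAGrad

end
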