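import Pool.Agent.Work.MP_ea6116_an.Bd.B01
import Pool.Agent.Work.MP_ea6116_an.Bd.B02

/-! Bundle of small proof modules (one section per former module). -/

section

/-!
MP_ea6116_an, item KEYW, part 0: derivatives along lines and uniform bounds in parameters.
-/

set_option autoImplicit false

open MeasureTheory Metric Set Filter Topology
open scoped ENNReal NNReal ContDiff

namespace EAGrad

variable {n : ℕ}

/-- First and second derivative from the restriction to a line. -/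
theorem KEYW_line {φ : En n → ℝ} {x ξ : En n} {F1 : ℝ → ℝ} {F2 : ℝ} (hφ : ContDiffAt ℝ 2 φ x)
    (h1 : ∀ᶠ t in 𝓝 (0 : ℝ), HasDerivAt (fun t : ℝ => φ (x + t • ξ)) (F1 t) t)
    (h2 : HasDerivAt F1 F2 0) : fderiv ℝ φ x ξ = F1 0 ∧ D2 φ x ξ ξ = F2 := by
  have hline : ∀ t : ℝ, HasDerivAt (fun t : ℝ => x + t • ξ) ξ t := fun t => by
    simpa using ((hasDerivAt_id t).smul_const ξ).const_add x
  have hcont : Tendsto (fun t : ℝ => x + t • ξ) (𝓝 0) (𝓝 x) := by
    have := (hline 0).continuousAt.tendsto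
    simpa using this
  have hdiff : ∀ᶠ t in 𝓝 (0 : ℝ), DifferentiableAt ℝ φ (x + t • ξ) := by
    have h3 : ∀ᶠ z in 𝓝 x, DifferentiableAt ℝ φ z := by
      filter_upwards [hφ.eventually (by simp)] with z hz
      exact hz.differentiableAt (by norm_num)
    exact hcont.eventually h3
  have heq : ∀ᶠ t in 𝓝 (0 : ℝ), fderiv ℝ φ (x + t • ξ) ξ = F1 t := by
    filter_upwards [h1, hdiff] with t ht hd
    exact (hd.hasFDerivAt.comp_hasDerivAt t (hline t)).unique ht
  refine ⟨by simpa using heq.self_of_nhds, ?_⟩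
  have hd2 : HasFDerivAt (fderiv ℝ φ) (fderiv ℝ (fderiv ℝ φ) x) x := by
    have h4 : ContDiffAt ℝ 1 (fderiv ℝ φ) x := hφ.fderiv_right (by norm_num)
    exact (h4.differentiableAt (by norm_num)).hasFDerivAt
  have h5 : HasDerivAt (fun t : ℝ => fderiv ℝ φ (x + t • ξ)) (fderiv ℝ (fderiv ℝ φ) x ξ) 0 := by
    have h6 : HasFDerivAt (fderiv ℝ φ) (fderiv ℝ (fderiv ℝ φ) x) (x + (0 : ℝ) • ξ) := by
      simpa using hd2
    exact h6.comp_hasDerivAt (0 : ℝ) (hline 0)
  have h7 : HasDerivAt (fun t : ℝ => fderiv ℝ φ (x + t • ξ) ξ)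
      (fderiv ℝ (fderiv ℝ φ) x ξ ξ) 0 := by
    simpa using h5.clm_apply (hasDerivAt_const (0 : ℝ) ξ)
  exact h7.unique (h2.congr_of_eventuallyEq heq)

section param

variable {P F : Type*} [NormedAddCommGroup P] [NormedSpace ℝ P] [NormedAddCommGroup F]
  [NormedSpace ℝ F]

/-- Partial derivative in the first variable. -/
noncomputable def pder (Φ : En n × P → F) (z : En n × P) : En n →L[ℝ] F :=
  (fderiv ℝ Φ z).comp (ContinuousLinearMap.inl ℝ (En n) P)

theorem KEYW_pder_contDiffOn {Φ : En n × P → F} {O : Set (En n × P)} (hO : IsOpen O)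
    (h : ContDiffOn ℝ ∞ Φ O) : ContDiffOn ℝ ∞ (pder Φ) O := by
  have h1 : ContDiffOn ℝ ∞ (fderiv ℝ Φ) O := h.fderiv_of_isOpen hO (by simp)
  exact h1.clm_comp contDiffOn_const

theorem KEYW_fderiv_eq {Φ : En n × P → F} {O : Set (En n × P)} (hO : IsOpen O)
    (h : ContDiffOn ℝ ∞ Φ O) {x : En n} {p : P} (hx : (x, p) ∈ O) :
    fderiv ℝ (fun x => Φ (x, p)) x = pder Φ (x, p) := by
  have h1 : HasFDerivAt Φ (fderiv ℝ Φ (x, p)) (x, p) :=
    (((h _ hx).contDiffAt (hO.mem_nhds hx)).differentiableAt (by simp)).hasFDerivAt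
  have h2 : HasFDerivAt (fun x : En n => (x, p)) (ContinuousLinearMap.inl ℝ (En n) P) x :=
    hasFDerivAt_prodMk_left x p
  exact (h1.comp x h2).fderiv

theorem KEYW_fderiv2_eq {Φ : En n × P → F} {O : Set (En n × P)} (hO : IsOpen O)
    (h : ContDiffOn ℝ ∞ Φ O) {x : En n} {p : P} (hx : (x, p) ∈ O) :
    fderiv ℝ (fderiv ℝ (fun x => Φ (x, p))) x = pder (pder Φ) (x, p) := by
  have h1 : fderiv ℝ (fun x => Φ (x, p)) =ᶠ[𝓝 x] fun x => pder Φ (x, p) := by
    have h2 : ∀ᶠ z in 𝓝 x, (z, p) ∈ O :=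
      (Continuous.continuousAt (f := fun z : En n => (z, p)) (by fun_prop)).eventually
        (hO.mem_nhds hx)
    filter_upwards [h2] with z hz
    exact KEYW_fderiv_eq hO h hz
  rw [h1.fderiv_eq]
  exact KEYW_fderiv_eq hO (KEYW_pder_contDiffOn hO h) hx

theorem KEYW_bound {Φ : En n × P → F} {O K : Set (En n × P)} (hO : IsOpen O)
    (h : ContDiffOn ℝ ∞ Φ O) (hK : IsCompact K) (hKO : K ⊆ O) :
    ∃ M : ℝ, 0 < M ∧ ∀ x p, (x, p) ∈ K → ‖Φ (x, p)‖ ≤ M ∧ ‖fderiv ℝ (fun x => Φ (x, p)) x‖ ≤ M ∧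
      ‖fderiv ℝ (fderiv ℝ (fun x => Φ (x, p))) x‖ ≤ M := by
  have h1 := KEYW_pder_contDiffOn hO h
  have h2 := KEYW_pder_contDiffOn hO h1
  obtain ⟨a, ha⟩ := hK.exists_bound_of_continuousOn (h.continuousOn.mono hKO)
  obtain ⟨b, hb⟩ := hK.exists_bound_of_continuousOn (h1.continuousOn.mono hKO)
  obtain ⟨c, hc⟩ := hK.exists_bound_of_continuousOn (h2.continuousOn.mono hKO)
  refine ⟨|a| + |b| + |c| + 1, by positivity, fun x p hx => ?_⟩
  have e1 := KEYW_fderiv_eq hO h (hKO hx)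
  have e2 := KEYW_fderiv2_eq hO h (hKO hx)
  rw [e1, e2]
  have := ha _ hx
  have := hb _ hx
  have := hc _ hx
  refine ⟨?_, ?_, ?_⟩ <;> nlinarith [le_abs_self a, le_abs_self b, le_abs_self c, abs_nonneg a,
    abs_nonneg b, abs_nonneg c]

end param

end EAGrad

end

section

/-!
MP_ea6116_an, item L4: almost log-convexity of the weighted energies.
-/

set_option autoImplicit false

open MeasureTheory Metric Set Filter Topology
open scoped ENNReal NNReal ContDiff

namespace EAGrad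

variable {n : ℕ}

theorem L4_wt_cont : Continuous (wt : En n → ℝ) := by
  unfold wt eta
  exact Real.smoothTransition.continuous.comp (by fun_prop)

theorem L4_wt_nonneg (z : En n) : 0 ≤ wt z := Real.smoothTransition.nonneg _

theorem L4_wt_le_one (z : En n) : wt z ≤ 1 := Real.smoothTransition.le_one _

theorem L4_wt_one {z : En n} (h : ‖z‖ ≤ 1) : wt z = 1 := by
  unfold wt eta
  apply Real.smoothTransition.one_of_one_le
  nlinarith [norm_nonneg z]

theorem L4_wt_zero {z : En n} (h : 2 ≤ ‖z‖ ^ 2) : wt z = 0 := by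
  unfold wt eta
  apply Real.smoothTransition.zero_of_nonpos
  linarith

theorem L4_wt_anti {z y : En n} (h : ‖z‖ ≤ ‖y‖) : wt y ≤ wt z := by
  unfold wt eta
  apply Real.smoothTransition.monotone
  have := pow_le_pow_left₀ (norm_nonneg z) h 2
  linarith

theorem L4_wt_tsupport : tsupport (wt : En n → ℝ) ⊆ ball 0 (3 / 2) := by
  have h1 : tsupport (wt : En n → ℝ) ⊆ {z | ‖z‖ ^ 2 ≤ 2} := by
    refine closure_minimal (fun z hz => ?_) (isClosed_le (by fun_prop) continuous_const)
    by_contra h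
    apply hz
    exact L4_wt_zero (le_of_lt (not_le.1 h))
  refine h1.trans fun z hz => ?_
  replace hz : ‖z‖ ^ 2 ≤ 2 := hz
  rw [mem_ball_zero_iff]
  by_contra h
  push Not at h
  nlinarith [norm_nonneg z]

theorem L4_wt_compact : HasCompactSupport (wt : En n → ℝ) :=
  HasCompactSupport.of_support_subset_isCompact (isCompact_closedBall (0 : En n) (3 / 2))
    ((subset_tsupport _).trans (L4_wt_tsupport.trans ball_subset_closedBall))

theorem L4_int {f : En n → ℝ} (hf : ContinuousOn f (ball 0 (3 / 2))) :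
    Integrable (fun z => f z * wt z) :=
  (continuous_mul_of_tsupport isOpen_ball hf L4_wt_cont
    L4_wt_tsupport).integrable_of_hasCompactSupport L4_wt_compact.mul_left

/-- Weighted square integral of a vector field. -/
noncomputable def L4W (f : En n → En n) : ℝ := ∫ z, ‖f z‖ ^ 2 * wt z

theorem L4W_nonneg (f : En n → En n) : 0 ≤ L4W f :=
  integral_nonneg fun z => mul_nonneg (by positivity) (L4_wt_nonneg z)

theorem L4_young (a b : En n) {t : ℝ} (ht : 0 < t) :
    ‖a + b‖ ^ 2 ≤ (1 + t) * ‖a‖ ^ 2 + (1 + t⁻¹) * ‖b‖ ^ 2 := by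
  have h1 : ‖a + b‖ ≤ ‖a‖ + ‖b‖ := norm_add_le a b
  have h2 : ‖a + b‖ ^ 2 ≤ (‖a‖ + ‖b‖) ^ 2 := pow_le_pow_left₀ (norm_nonneg _) h1 2
  have h3 : 2 * ‖a‖ * ‖b‖ ≤ t * ‖a‖ ^ 2 + t⁻¹ * ‖b‖ ^ 2 := by
    have h4 : 0 ≤ t⁻¹ * (t * ‖a‖ - ‖b‖) ^ 2 := by positivity
    have h5 : t⁻¹ * (t * ‖a‖ - ‖b‖) ^ 2 = t * ‖a‖ ^ 2 - 2 * ‖a‖ * ‖b‖ + t⁻¹ * ‖b‖ ^ 2 := by
      field_simp
      ring
    linarith
  nlinarith

/-- Square roots from a family of Young inequalities. -/
theorem L4_sqrt_add {X Y Z : ℝ} (hY : 0 ≤ Y) (hZ : 0 ≤ Z)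
    (h : ∀ t : ℝ, 0 < t → X ≤ (1 + t) * Y + (1 + t⁻¹) * Z) :
    Real.sqrt X ≤ Real.sqrt Y + Real.sqrt Z := by
  have key : ∀ e : ℝ, 0 < e → Real.sqrt X ≤ (Real.sqrt Y + e) + (Real.sqrt Z + e) := by
    intro e he
    set y := Real.sqrt Y + e with hy
    set z := Real.sqrt Z + e with hz
    have hy0 : 0 < y := by positivity
    have hz0 : 0 < z := by positivity
    have hY' : Y ≤ y ^ 2 := by
      rw [← Real.sq_sqrt hY]
      exact pow_le_pow_left₀ (Real.sqrt_nonneg _) (by linarith) 2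
    have hZ' : Z ≤ z ^ 2 := by
      rw [← Real.sq_sqrt hZ]
      exact pow_le_pow_left₀ (Real.sqrt_nonneg _) (by linarith) 2
    have h1 := h (z / y) (by positivity)
    have h2 : (1 + z / y) * Y + (1 + (z / y)⁻¹) * Z ≤
        (1 + z / y) * y ^ 2 + (1 + (z / y)⁻¹) * z ^ 2 := by gcongr
    have h3 : (1 + z / y) * y ^ 2 + (1 + (z / y)⁻¹) * z ^ 2 = (y + z) ^ 2 := by
      field_simp
      ring
    rw [show y + z = (y + z) from rfl]
    apply Real.sqrt_le_iff.2
    exact ⟨by positivity, by linarith⟩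
  apply le_of_forall_pos_le_add
  intro e he
  have := key (e / 2) (by positivity)
  linarith

theorem L4W_tri {f g : En n → En n} (hf : ContinuousOn f (ball 0 (3 / 2)))
    (hg : ContinuousOn g (ball 0 (3 / 2))) :
    Real.sqrt (L4W f) ≤ Real.sqrt (L4W g) + Real.sqrt (L4W (fun z => f z - g z)) := by
  apply L4_sqrt_add (L4W_nonneg _) (L4W_nonneg _)
  intro t ht
  have h1 : Integrable (fun z => ‖g z‖ ^ 2 * wt z) := L4_int (by fun_prop)
  have h2 : Integrable (fun z => ‖f z - g z‖ ^ 2 * wt z) := L4_int (by fun_prop)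
  have h3 : Integrable (fun z => ‖f z‖ ^ 2 * wt z) := L4_int (by fun_prop)
  unfold L4W
  rw [← integral_const_mul, ← integral_const_mul, ← integral_add (h1.const_mul _)
    (h2.const_mul _)]
  apply integral_mono h3 ((h1.const_mul _).add (h2.const_mul _))
  intro z
  have h4 := L4_young (g z) (f z - g z) ht
  rw [add_sub_cancel] at h4
  have h5 := mul_le_mul_of_nonneg_right h4 (L4_wt_nonneg z)
  simp only [Pi.add_apply]
  linarith

theorem L4W_cs {f g : En n → En n} (hf : ContinuousOn f (ball 0 (3 / 2)))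
    (hg : ContinuousOn g (ball 0 (3 / 2))) :
    ∫ z, inner ℝ (f z) (g z) * wt z ≤ Real.sqrt (L4W f) * Real.sqrt (L4W g) := by
  have h1 : Integrable (fun z => ‖g z‖ ^ 2 * wt z) := L4_int (by fun_prop)
  have h3 : Integrable (fun z => ‖f z‖ ^ 2 * wt z) := L4_int (by fun_prop)
  have h2 : Integrable (fun z => inner ℝ (f z) (g z) * wt z) := L4_int (hf.inner hg)
  have key : ∀ t : ℝ, 0 < t → 2 * ∫ z, inner ℝ (f z) (g z) * wt z ≤ t * L4W f + t⁻¹ * L4W g := by
    intro t ht
    unfold L4W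
    rw [← integral_const_mul, ← integral_const_mul, ← integral_const_mul,
      ← integral_add (h3.const_mul _) (h1.const_mul _)]
    apply integral_mono (h2.const_mul _) ((h3.const_mul _).add (h1.const_mul _))
    intro z
    have h4 : inner ℝ (f z) (g z) ≤ ‖f z‖ * ‖g z‖ := real_inner_le_norm _ _
    have h5 : 0 ≤ t⁻¹ * (t * ‖f z‖ - ‖g z‖) ^ 2 := by positivity
    have h6 : t⁻¹ * (t * ‖f z‖ - ‖g z‖) ^ 2 = t * ‖f z‖ ^ 2 - 2 * ‖f z‖ * ‖g z‖ +
        t⁻¹ * ‖g z‖ ^ 2 := by
      field_simp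
      ring
    have h7 : 2 * inner ℝ (f z) (g z) ≤ t * ‖f z‖ ^ 2 + t⁻¹ * ‖g z‖ ^ 2 := by linarith
    have h8 := mul_le_mul_of_nonneg_right h7 (L4_wt_nonneg z)
    simp only [Pi.add_apply]
    linarith
  have hx := L4W_nonneg f
  have hy := L4W_nonneg g
  set x := Real.sqrt (L4W f) with hxd
  set y := Real.sqrt (L4W g) with hyd
  have hx2 : L4W f = x ^ 2 := (Real.sq_sqrt hx).symm
  have hy2 : L4W g = y ^ 2 := (Real.sq_sqrt hy).symm
  have hx0 : 0 ≤ x := Real.sqrt_nonneg _
  have hy0 : 0 ≤ y := Real.sqrt_nonneg _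
  have key2 : ∀ e : ℝ, 0 < e → ∫ z, inner ℝ (f z) (g z) * wt z ≤ (x + e) * (y + e) := by
    intro e he
    have h1 := key ((y + e) / (x + e)) (by positivity)
    rw [hx2, hy2] at h1
    have h2 : (y + e) / (x + e) * x ^ 2 ≤ (y + e) / (x + e) * (x + e) ^ 2 := by gcongr; linarith
    have h3 : ((y + e) / (x + e))⁻¹ * y ^ 2 ≤ ((y + e) / (x + e))⁻¹ * (y + e) ^ 2 := by
      gcongr; linarith
    have h4 : (y + e) / (x + e) * (x + e) ^ 2 + ((y + e) / (x + e))⁻¹ * (y + e) ^ 2 =
        2 * ((x + e) * (y + e)) := by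
      have : x + e ≠ 0 := by positivity
      have : y + e ≠ 0 := by positivity
      field_simp
      ring
    linarith
  have hlim : Tendsto (fun e : ℝ => (x + e) * (y + e)) (𝓝[>] 0) (𝓝 ((x + 0) * (y + 0))) := by
    apply Tendsto.mono_left _ nhdsWithin_le_nhds
    exact (Continuous.tendsto (by fun_prop) 0)
  have := ge_of_tendsto hlim (eventually_mem_nhdsWithin.mono fun e he => key2 e he)
  simpa using this

theorem L4_alg {x1 x2 x4 h1 h2 h4 d δ F : ℝ} (hx1 : 0 ≤ x1) (hx2 : 0 ≤ x2) (hx4 : 0 ≤ x4)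
    (hh4 : 0 ≤ h4) (hd : 0 ≤ d) (hδ0 : 0 ≤ δ) (hF : 1 ≤ F)
    (hδ : 20 * F * δ ≤ 1) (a : x2 ≤ h2 + d) (b : h1 ≤ x1 + d) (c : h4 ≤ x4 + d)
    (e : h2 ^ 2 ≤ h1 * h4) (f : d ≤ δ * x4) (g : x4 ^ 2 ≤ F * x2 ^ 2) :
    x2 ^ 4 ≤ (1 + 20 * F * δ) * (x1 ^ 2 * x4 ^ 2) := by
  have hF0 : 0 ≤ F := by linarith
  have hy0 : 0 ≤ F * δ := by positivity
  by_cases hc : x2 ^ 2 ≤ x1 * x4
  · have h1 : x2 ^ 4 ≤ x1 ^ 2 * x4 ^ 2 := by
      have := pow_le_pow_left₀ (by positivity) hc 2
      nlinarith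
    have h2 : 0 ≤ 20 * F * δ * (x1 ^ 2 * x4 ^ 2) := by positivity
    linarith
  · push Not at hc
    have hx42 : x4 ≤ F * x2 := by
      have : x4 ^ 2 ≤ (F * x2) ^ 2 := by nlinarith [mul_nonneg (sub_nonneg.2 hF) (sq_nonneg x2)]
      exact (pow_le_pow_iff_left₀ hx4 (by positivity) two_ne_zero).1 this
    have hdx : d ≤ x2 := by
      have : δ * x4 ≤ δ * (F * x2) := by gcongr
      nlinarith [mul_nonneg hy0 hx2]
    have h5 : (x2 - d) ^ 2 ≤ h2 ^ 2 := pow_le_pow_left₀ (by linarith) (by linarith) 2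
    have h6 : h1 * h4 ≤ (x1 + d) * (x4 + d) := by gcongr
    have h7 : x2 ^ 2 - 2 * (x2 * d) - d * x4 - d * x1 ≤ x1 * x4 := by nlinarith
    have h8 : x2 * d ≤ F * δ * x2 ^ 2 := by
      have : x2 * d ≤ x2 * (δ * x4) := by gcongr
      have : x2 * (δ * x4) ≤ x2 * (δ * (F * x2)) := by gcongr
      nlinarith
    have h9 : d * x4 ≤ F * δ * x2 ^ 2 := by
      have : d * x4 ≤ δ * x4 * x4 := by gcongr
      have : δ * x4 ^ 2 ≤ δ * (F * x2 ^ 2) := by gcongr
      nlinarith
    have h10 : d * x1 ≤ F * δ * x2 ^ 2 := by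
      have h11 : d * x1 ≤ δ * x4 * x1 := by gcongr
      have h12 : δ * (x1 * x4) ≤ δ * x2 ^ 2 := by gcongr
      have h13 : δ * x2 ^ 2 ≤ F * (δ * x2 ^ 2) := by
        nlinarith [mul_nonneg (sub_nonneg.2 hF) (mul_nonneg hδ0 (sq_nonneg x2))]
      nlinarith
    set y := 4 * (F * δ) with hy
    have hyy0 : 0 ≤ y := by positivity
    have hy1 : y ≤ 1 / 5 := by linarith
    have h14 : x2 ^ 2 * (1 - y) ≤ x1 * x4 := by
      have : x2 ^ 2 * (1 - y) = x2 ^ 2 - 4 * (F * δ * x2 ^ 2) := by rw [hy]; ring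
      linarith
    have h15 : (x2 ^ 2 * (1 - y)) ^ 2 ≤ (x1 * x4) ^ 2 :=
      pow_le_pow_left₀ (mul_nonneg (by positivity) (by linarith)) h14 2
    have h16 : 1 ≤ (1 - y) ^ 2 * (1 + 5 * y) := by nlinarith [mul_nonneg hyy0 hyy0]
    calc x2 ^ 4 ≤ x2 ^ 4 * ((1 - y) ^ 2 * (1 + 5 * y)) := by
          nlinarith [show 0 ≤ x2 ^ 4 by positivity]
      _ = (x2 ^ 2 * (1 - y)) ^ 2 * (1 + 5 * y) := by ring
      _ ≤ (x1 * x4) ^ 2 * (1 + 5 * y) := by gcongr
      _ = (1 + 20 * F * δ) * (x1 ^ 2 * x4 ^ 2) := by rw [hy]; ring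

/-- The scaled distance to the harmonic field. -/
theorem L4_dist {K : En n → ℝ} {r ρ : ℝ} (hr : 0 < r) (hρ : r ≤ ρ) (hρ4 : ρ ≤ 4 * r)
    (hK0 : ∀ x, 0 ≤ K x) (hK : ContinuousOn K (ball 0 (8 * r)))
    (hKi : IntegrableOn K (ball 0 (8 * r))) :
    ∫ z, K (ρ • z) * wt z ≤ (r ^ n)⁻¹ * ∫ x in ball 0 (8 * r), K x := by
  have hρ0 : 0 < ρ := by linarith
  set Fn : En n → ℝ := (ball 0 (8 * r)).indicator K with hFn
  have hF1 : Integrable Fn := (integrable_indicator_iff measurableSet_ball).2 hKi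
  have hF2 : Integrable (fun z => Fn (ρ • z)) := (integrable_comp_smul_iff volume Fn hρ0.ne').2 hF1
  have hKc : ContinuousOn (fun z => K (ρ • z)) (ball 0 (3 / 2)) := by
    refine hK.comp (by fun_prop) fun z hz => ?_
    rw [mem_ball_zero_iff] at hz ⊢
    rw [norm_smul, Real.norm_of_nonneg hρ0.le]
    nlinarith [norm_nonneg z]
  have hle : ∫ z, K (ρ • z) * wt z ≤ ∫ z, Fn (ρ • z) := by
    apply integral_mono (L4_int hKc) hF2
    intro z
    have hFnn : 0 ≤ Fn (ρ • z) := indicator_nonneg (fun x _ => hK0 x) _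
    by_cases hz : 2 ≤ ‖z‖ ^ 2
    · simp only [L4_wt_zero hz, mul_zero]
      exact hFnn
    · push Not at hz
      have hmem : ρ • z ∈ ball (0 : En n) (8 * r) := by
        rw [mem_ball_zero_iff, norm_smul, Real.norm_of_nonneg hρ0.le]
        have : ‖z‖ < 3 / 2 := by nlinarith [norm_nonneg z]
        nlinarith [norm_nonneg z]
      have : Fn (ρ • z) = K (ρ • z) := indicator_of_mem hmem _
      simp only [this]
      exact mul_le_of_le_one_right (hK0 _) (L4_wt_le_one z)
  refine hle.trans ?_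
  rw [Measure.integral_comp_smul, finrank_euclideanSpace_fin, smul_eq_mul,
    abs_of_nonneg (by positivity), integral_indicator measurableSet_ball]
  have h0 : 0 ≤ ∫ x in ball 0 (8 * r), K x := integral_nonneg fun x => hK0 x
  gcongr

theorem L4_mass {K : En n → ℝ} {r : ℝ} (hr : 0 < r)
    (hK0 : ∀ x, 0 ≤ K x) (hK : ContinuousOn K (ball 0 (12 * r))) :
    ∫ x in ball 0 (8 * r), K x ≤ (8 * r) ^ n * ∫ z, K ((8 * r) • z) * wt z := by
  set Fn : En n → ℝ := (ball 0 (8 * r)).indicator K with hFn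
  have hKi : IntegrableOn K (ball 0 (8 * r)) :=
    (((hK.mono (closedBall_subset_ball (by linarith))).integrableOn_compact
      (isCompact_closedBall (0 : En n) (8 * r)))).mono_set ball_subset_closedBall
  have hF1 : Integrable Fn := (integrable_indicator_iff measurableSet_ball).2 hKi
  have hR : 0 < 8 * r := by linarith
  have hF2 : Integrable (fun z => Fn ((8 * r) • z)) :=
    (integrable_comp_smul_iff volume Fn hR.ne').2 hF1
  have hKc : ContinuousOn (fun z => K ((8 * r) • z)) (ball 0 (3 / 2)) := by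
    refine hK.comp (by fun_prop) fun z hz => ?_
    rw [mem_ball_zero_iff] at hz ⊢
    rw [norm_smul, Real.norm_of_nonneg hR.le]
    nlinarith [norm_nonneg z]
  have hle : ∫ z, Fn ((8 * r) • z) ≤ ∫ z, K ((8 * r) • z) * wt z := by
    apply integral_mono hF2 (L4_int hKc)
    intro z
    have hKw : 0 ≤ K ((8 * r) • z) * wt z := mul_nonneg (hK0 _) (L4_wt_nonneg z)
    by_cases hmem : (8 * r) • z ∈ ball (0 : En n) (8 * r)
    · have hz : ‖z‖ ≤ 1 := by
        rw [mem_ball_zero_iff, norm_smul, Real.norm_of_nonneg hR.le] at hmem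
        nlinarith
      have : Fn ((8 * r) • z) = K ((8 * r) • z) := indicator_of_mem hmem _
      simp only [this, L4_wt_one hz, mul_one]
      exact le_refl _
    · have : Fn ((8 * r) • z) = 0 := indicator_of_notMem hmem _
      simp only [this]
      exact hKw
  rw [Measure.integral_comp_smul, finrank_euclideanSpace_fin, smul_eq_mul,
    abs_of_nonneg (by positivity), integral_indicator measurableSet_ball] at hle
  have h1 : ∫ x in ball 0 (8 * r), K x =
      (8 * r) ^ n * (((8 * r) ^ n)⁻¹ * ∫ x in ball 0 (8 * r), K x) := by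
    field_simp
  rw [h1]
  gcongr

/-- The harmonic field close to the gradient. -/
theorem L4_harm (hP : StmtPROJ) (hW : StmtWEYL) (hL : StmtLOGC) (hn : 1 ≤ n)
    {A : En n → Op n} {u : En n → ℝ} {r s : ℝ} (hr : 0 < r) (hs : 0 ≤ s)
    (hu : Sol A u (ball 0 (12 * r))) (hA : ContinuousOn A (ball 0 (12 * r)))
    (hA1 : ∀ x ∈ ball 0 (12 * r), ‖A x - 1‖ ≤ s * ‖x‖) :
    ∃ H : En n → En n, ContinuousOn H (ball 0 (8 * r)) ∧
      L4W (fun z => H ((2 * r) • z)) = ∫ z, inner ℝ (H (r • z)) (H ((4 * r) • z)) * wt z ∧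
      IntegrableOn (fun x => ‖gradient u x - H x‖ ^ 2) (ball 0 (8 * r)) ∧
      ∫ x in ball 0 (8 * r), ‖gradient u x - H x‖ ^ 2 ≤
        (8 * s * r) ^ 2 * ∫ x in ball 0 (8 * r), ‖gradient u x‖ ^ 2 := by
  have hsub : closedBall (0 : En n) (8 * r) ⊆ ball 0 (12 * r) :=
    closedBall_subset_ball (by linarith)
  obtain ⟨G, hG1, hG2, hG3⟩ := hP n A u (ball 0 (12 * r)) (8 * r) (8 * s * r) hn (by linarith) hu
    hsub hA (by
      intro x hx
      refine (hA1 x (hsub (ball_subset_closedBall hx))).trans ?_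
      rw [mem_ball_zero_iff] at hx
      nlinarith)
  have hGi : ∀ i : Fin n, ∀ x, inner ℝ (ee i) (G x) = G x i := by
    intro i x
    simp [ee, EuclideanSpace.inner_single_left]
  have : IsFiniteMeasure (volume.restrict (ball (0 : En n) (8 * r))) :=
    ⟨by rw [Measure.restrict_apply_univ]; exact measure_ball_lt_top⟩
  have hex : ∀ i : Fin n, ∃ g' : En n → ℝ, ContDiffOn ℝ ∞ g' (ball 0 (8 * r)) ∧
      (∀ x ∈ ball 0 (8 * r), lap g' x = 0) ∧
      ∀ᵐ x ∂(volume.restrict (ball (0 : En n) (8 * r))), g' x = inner ℝ (ee i) (G x) := by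
    intro i
    apply hW n (fun x => inner ℝ (ee i) (G x)) (8 * r) hn _ (hG2 i)
    have h1 : IntegrableOn (fun x => inner ℝ (ee i) (G x)) (ball 0 (8 * r)) := by
      have h2 : Integrable G (volume.restrict (ball 0 (8 * r))) := hG1.integrable (by norm_num)
      exact h2.const_inner _
    exact h1.locallyIntegrableOn
  choose g hg1 hg2 hg3 using hex
  set H : En n → En n := fun x => WithLp.toLp 2 (fun i => g i x) with hH
  have hHi : ∀ x i, H x i = g i x := fun x i => rfl
  have hHc : ContinuousOn H (ball 0 (8 * r)) := by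
    refine (PiLp.continuous_toLp 2 (fun _ : Fin n => ℝ)).comp_continuousOn ?_
    exact continuousOn_pi.2 fun i => (hg1 i).continuousOn
  have hHG : ∀ᵐ x ∂(volume.restrict (ball (0 : En n) (8 * r))), H x = G x := by
    have := ae_all_iff.2 hg3
    filter_upwards [this] with x hx
    ext i
    rw [hHi, hx i, hGi]
  have hinner : ∀ x y, inner ℝ (H x) (H y) = ∑ i, g i x * g i y := by
    intro x y
    rw [PiLp.inner_apply]
    refine Finset.sum_congr rfl fun i _ => ?_
    rw [hHi, hHi]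
    simp [mul_comm]
  have hscale : ∀ ρ : ℝ, 0 < ρ → ρ ≤ 4 * r → ∀ i, ContinuousOn (fun z => g i (ρ • z))
      (ball 0 (3 / 2)) := by
    intro ρ hρ0 hρ i
    refine (hg1 i).continuousOn.comp (by fun_prop) fun z hz => ?_
    rw [mem_ball_zero_iff] at hz ⊢
    rw [norm_smul, Real.norm_of_nonneg hρ0.le]
    nlinarith [norm_nonneg z]
  have hgrad2 : IntegrableOn (fun x => ‖gradient u x‖ ^ 2) (ball 0 (8 * r)) := by
    have h1 : ContinuousOn (fun x => ‖gradient u x‖ ^ 2) (closedBall 0 (8 * r)) :=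
      ((hu.continuousOn_gradient.mono hsub).norm).pow 2
    exact (h1.integrableOn_compact (isCompact_closedBall _ _)).mono_set ball_subset_closedBall
  have hgradM : MemLp (gradient u) 2 (volume.restrict (ball 0 (8 * r))) := by
    rw [memLp_two_iff_integrable_sq_norm]
    · exact hgrad2
    · exact ((hu.continuousOn_gradient.mono hsub).mono ball_subset_closedBall).aestronglyMeasurable
        measurableSet_ball
  have hdiff : IntegrableOn (fun x => ‖gradient u x - G x‖ ^ 2) (ball 0 (8 * r)) := by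
    have h1 := (hgradM.sub hG1).integrable_norm_pow (by norm_num : (2 : ℕ) ≠ 0)
    show Integrable _ _
    simpa using h1
  have hae : (fun x => ‖gradient u x - H x‖ ^ 2) =ᵐ[volume.restrict (ball 0 (8 * r))]
      (fun x => ‖gradient u x - G x‖ ^ 2) := by
    filter_upwards [hHG] with x hx
    rw [hx]
  refine ⟨H, hHc, ?_, hdiff.congr hae.symm, ?_⟩
  · unfold L4W
    have h1 : ∀ z : En n, ‖H ((2 * r) • z)‖ ^ 2 * wt z =
        ∑ i, g i ((2 * r) • z) ^ 2 * wt z := by
      intro z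
      rw [← real_inner_self_eq_norm_sq, hinner, Finset.sum_mul]
      refine Finset.sum_congr rfl fun i _ => by ring
    have h2 : ∀ z : En n, inner ℝ (H (r • z)) (H ((4 * r) • z)) * wt z =
        ∑ i, g i (r • z) * g i ((4 * r) • z) * wt z := by
      intro z
      rw [hinner, Finset.sum_mul]
    simp_rw [h1, h2]
    rw [integral_finsetSum, integral_finsetSum]
    · refine Finset.sum_congr rfl fun i _ => ?_
      exact hL n (g i) (8 * r) r hn hr (by linarith) (hg1 i) (hg2 i)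
    · intro i _
      exact L4_int (((hscale r hr (by linarith) i)).mul (hscale (4 * r) (by linarith) le_rfl i))
    · intro i _
      exact L4_int ((hscale (2 * r) (by linarith) (by linarith) i).pow 2)
  · rw [integral_congr_ae hae]
    exact hG3

theorem L4 (hP : StmtPROJ) (hW : StmtWEYL) (hL : StmtLOGC) : StmtL4 := by
  intro n F hn hF
  have hF0 : 0 < F := by linarith
  set M : ℝ := 8 * Real.sqrt (8 ^ n * F) with hM
  have hM0 : 0 < M := by positivity
  have hM2 : M ^ 2 = 64 * (8 ^ n * F) := by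
    rw [hM, mul_pow, Real.sq_sqrt (by positivity)]
    norm_num
  refine ⟨20 * F * M, 1 / (20 * F * M), by positivity, by positivity, ?_⟩
  intro A u r s hr hs hsr hu hA hA1 he8 he4
  obtain ⟨H, hHc, hHlog, hHi, hHd⟩ := L4_harm hP hW hL hn hr hs hu hA hA1
  have hgc := hu.continuousOn_gradient
  -- continuity of the rescaled fields
  have hcu : ∀ ρ : ℝ, 0 < ρ → ρ ≤ 4 * r → ContinuousOn (fun z : En n => gradient u (ρ • z))
      (ball 0 (3 / 2)) := by
    intro ρ hρ0 hρ
    refine hgc.comp (by fun_prop) fun z hz => ?_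
    rw [mem_ball_zero_iff] at hz ⊢
    rw [norm_smul, Real.norm_of_nonneg hρ0.le]
    nlinarith [norm_nonneg z]
  have hcH : ∀ ρ : ℝ, 0 < ρ → ρ ≤ 4 * r → ContinuousOn (fun z : En n => H (ρ • z))
      (ball 0 (3 / 2)) := by
    intro ρ hρ0 hρ
    refine hHc.comp (by fun_prop) fun z hz => ?_
    rw [mem_ball_zero_iff] at hz ⊢
    rw [norm_smul, Real.norm_of_nonneg hρ0.le]
    nlinarith [norm_nonneg z]
  have hsub : ball (0 : En n) (8 * r) ⊆ ball 0 (12 * r) := ball_subset_ball (by linarith)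
  have hmass : ∫ x in ball 0 (8 * r), ‖gradient u x‖ ^ 2 ≤ (8 * r) ^ n * EE u (8 * r) :=
    L4_mass (K := fun x => ‖gradient u x‖ ^ 2) hr (fun x => by positivity) (hgc.norm.pow 2)
  have hE4 : 0 ≤ EE u (4 * r) := L4W_nonneg _
  have hE2 : 0 ≤ EE u (2 * r) := L4W_nonneg _
  have hE1 : 0 ≤ EE u r := L4W_nonneg _
  have hrn : 0 < r ^ n := by positivity
  have hdist : ∀ ρ : ℝ, r ≤ ρ → ρ ≤ 4 * r →
      Real.sqrt (L4W (fun z : En n => gradient u (ρ • z) - H (ρ • z))) ≤
        M * (s * r) * Real.sqrt (EE u (4 * r)) := by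
    intro ρ hρ hρ4
    have h1 := L4_dist (K := fun x => ‖gradient u x - H x‖ ^ 2) hr hρ hρ4
      (fun x => by positivity) (((hgc.mono hsub).sub hHc).norm.pow 2) hHi
    have h2 : L4W (fun z : En n => gradient u (ρ • z) - H (ρ • z)) ≤
        (M * (s * r)) ^ 2 * EE u (4 * r) := by
      calc L4W (fun z : En n => gradient u (ρ • z) - H (ρ • z))
          ≤ (r ^ n)⁻¹ * ∫ x in ball 0 (8 * r), ‖gradient u x - H x‖ ^ 2 := h1
        _ ≤ (r ^ n)⁻¹ * ((8 * s * r) ^ 2 * ((8 * r) ^ n * (F * EE u (4 * r)))) := by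
            gcongr
            refine hHd.trans ?_
            gcongr
            refine hmass.trans ?_
            gcongr
        _ = (M * (s * r)) ^ 2 * EE u (4 * r) := by
            rw [mul_pow M, hM2, mul_pow 8 r n]
            field_simp
            ring
    have h3 := Real.sqrt_le_sqrt h2
    rwa [Real.sqrt_mul (by positivity), Real.sqrt_sq (by positivity)] at h3
  have hδ : 20 * F * (M * (s * r)) ≤ 1 := by
    have := mul_le_mul_of_nonneg_left hsr (show 0 ≤ 20 * F * M by positivity)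
    rw [mul_one_div_cancel (by positivity)] at this
    linarith
  have t2 := L4W_tri (hcu (2 * r) (by linarith) (by linarith))
    (hcH (2 * r) (by linarith) (by linarith))
  have t1 := L4W_tri (hcH r hr (by linarith)) (hcu r hr (by linarith))
  have t4 := L4W_tri (hcH (4 * r) (by linarith) le_rfl) (hcu (4 * r) (by linarith) le_rfl)
  have hsym : ∀ ρ : ℝ, L4W (fun z : En n => H (ρ • z) - gradient u (ρ • z)) =
      L4W (fun z : En n => gradient u (ρ • z) - H (ρ • z)) := by
    intro ρ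
    unfold L4W
    simp_rw [norm_sub_rev]
  rw [hsym] at t1 t4
  have hcs := L4W_cs (hcH r hr (by linarith)) (hcH (4 * r) (by linarith) le_rfl)
  rw [← hHlog] at hcs
  have hfin := L4_alg (x1 := Real.sqrt (EE u r)) (x2 := Real.sqrt (EE u (2 * r)))
    (x4 := Real.sqrt (EE u (4 * r))) (h1 := Real.sqrt (L4W (fun z : En n => H (r • z))))
    (h2 := Real.sqrt (L4W (fun z : En n => H ((2 * r) • z))))
    (h4 := Real.sqrt (L4W (fun z : En n => H ((4 * r) • z))))
    (d := M * (s * r) * Real.sqrt (EE u (4 * r))) (δ := M * (s * r)) (F := F)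
    (Real.sqrt_nonneg _) (Real.sqrt_nonneg _) (Real.sqrt_nonneg _) (Real.sqrt_nonneg _)
    (by positivity) (by positivity) hF hδ
    (t2.trans (add_le_add le_rfl (hdist (2 * r) (by linarith) (by linarith))))
    (t1.trans (add_le_add le_rfl (hdist r le_rfl (by linarith))))
    (t4.trans (add_le_add le_rfl (hdist (4 * r) (by linarith) le_rfl)))
    (by rw [Real.sq_sqrt (L4W_nonneg _)]; exact hcs) le_rfl
    (by rw [Real.sq_sqrt hE4, Real.sq_sqrt hE2]; exact he4)
  rw [Real.sq_sqrt hE4, Real.sq_sqrt hE1] at hfin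
  have h4 : Real.sqrt (EE u (2 * r)) ^ 4 = EE u (2 * r) ^ 2 := by
    rw [show (4 : ℕ) = 2 * 2 from rfl, pow_mul, Real.sq_sqrt hE2]
  rw [h4] at hfin
  calc EE u (2 * r) ^ 2 ≤ _ := hfin
    _ = _ := by ring

end EAGrad

end

section

/-!
MP_ea6116_an: one step of the covering for bounded frequency.
-/

set_option autoImplicit false

open MeasureTheory Metric Set Filter Topology
open scoped ENNReal NNReal ContDiff

namespace EAGrad

variable {n : ℕ}

theorem L5_gradient_smul (c : ℝ) (u : En n → ℝ) (x : En n) :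
    gradient (fun y => c * u y) x = c • gradient u x := by
  have h : fderiv ℝ (fun y => c * u y) x = c • fderiv ℝ u x := by
    have := congrFun (fderiv_const_smul_field (𝕜 := ℝ) (f := u) c) x
    exact this
  rw [gradient, gradient, h, map_smulₛₗ]
  rfl

theorem L5_sol_smul (c : ℝ) {A : En n → Op n} {u : En n → ℝ} {U : Set (En n)}
    (h : Sol A u U) : Sol A (fun y => c * u y) U where
  isOpen := h.isOpen
  c1 := contDiffOn_const.mul h.c1
  weak := fun φ h1 h2 h3 => by
    have e : ∀ x, inner ℝ (A x (gradient (fun y => c * u y) x)) (gradient φ x) =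
        c * inner ℝ (A x (gradient u x)) (gradient φ x) := by
      intro x
      rw [L5_gradient_smul, map_smul, real_inner_smul_left]
    simp_rw [e]
    rw [integral_const_mul, h.weak φ h1 h2 h3, mul_zero]

theorem L5_sum_image {ι α : Type} [DecidableEq α] [DecidableEq ι] (T : Finset ι) (g : ι → α)
    (f : α → ℝ) (hf : ∀ i ∈ T, 0 ≤ f (g i)) : ∑ a ∈ T.image g, f a ≤ ∑ i ∈ T, f (g i) := by
  induction T using Finset.induction_on with
  | empty => simp
  | insert a T ha ih =>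
    rw [Finset.image_insert, Finset.sum_insert ha]
    have ih' := ih fun i hi => hf i (Finset.mem_insert_of_mem hi)
    have h0 := hf a (Finset.mem_insert_self _ _)
    by_cases hmem : g a ∈ T.image g
    · rw [Finset.insert_eq_of_mem hmem]
      linarith
    · rw [Finset.sum_insert hmem]
      linarith

/-- A compact set of content zero is covered by finitely many small balls. -/
theorem L5_cover (d θ : ℝ) (hd : 0 < d) (hθ : 0 < θ) (Z : Set (En n)) (hZ : IsCompact Z)
    (h0 : cont n d Z = 0) : ∃ t : Finset (En n × ℝ),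
    (∀ p ∈ t, p.1 ∈ Z ∧ 0 < p.2 ∧ p.2 ≤ 1 / 8) ∧ ∑ p ∈ t, p.2 ^ d ≤ θ ∧
    Z ⊆ ⋃ p ∈ t, ball p.1 p.2 := by
  classical
  set ε' : ℝ := min (θ / 2) ((1 / 16) ^ d) with hε'
  have hε0 : 0 < ε' := lt_min (by positivity) (by positivity)
  have hlt : cont n d Z < ENNReal.ofReal ε' := by
    rw [h0]
    exact ENNReal.ofReal_pos.2 hε0
  unfold cont at hlt
  simp only [iInf_lt_iff] at hlt
  obtain ⟨t, ht, hsum⟩ := hlt
  have hfin : ∀ i, Metric.ediam (t i) ^ d < ENNReal.ofReal ε' := fun i =>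
    (ENNReal.le_tsum i).trans_lt hsum
  have htop : ∀ i, Metric.ediam (t i) ≠ ⊤ := by
    intro i h
    have := hfin i
    rw [h, ENNReal.top_rpow_of_pos hd] at this
    exact absurd this (not_lt.2 le_top)
  set e : ℕ → ℝ := fun i => (Metric.ediam (t i)).toReal with he
  have he0 : ∀ i, 0 ≤ e i := fun i => ENNReal.toReal_nonneg
  have hed : ∀ i, e i ^ d < ε' := by
    intro i
    have h1 : (Metric.ediam (t i) ^ d).toReal < ε' := by
      rw [← ENNReal.toReal_ofReal hε0.le]
      exact (ENNReal.toReal_lt_toReal ((hfin i).ne_top) ENNReal.ofReal_ne_top).2 (hfin i)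
    rwa [← ENNReal.toReal_rpow] at h1
  have he16 : ∀ i, e i < 1 / 16 := by
    intro i
    by_contra hc
    push Not at hc
    have h1 : (1 / 16 : ℝ) ^ d ≤ e i ^ d := Real.rpow_le_rpow (by norm_num) hc hd.le
    have h2 := (hed i).trans_le (min_le_right _ _)
    linarith
  obtain ⟨δ, hδ0, c, hδs, hδc⟩ := posSumOfEncodable (show (0 : ℝ) < θ / 2 by positivity) ℕ
  have hr : ∀ i, ∃ r, e i < r ∧ r < 1 / 8 ∧ r ^ d < e i ^ d + δ i := by
    intro i
    have h1 : ∀ᶠ r in 𝓝 (e i), r ^ d < e i ^ d + δ i :=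
      ((Real.continuous_rpow_const hd.le).tendsto (e i)).eventually
        (gt_mem_nhds (by linarith [hδ0 i]))
    have h2 : ∀ᶠ r in 𝓝 (e i), r < 1 / 8 := gt_mem_nhds (by linarith [he16 i])
    obtain ⟨r, ⟨hr1, hr2⟩, hr3⟩ := (((h1.and h2).filter_mono nhdsWithin_le_nhds).and
      (self_mem_nhdsWithin : Ioi (e i) ∈ 𝓝[>] (e i))).exists
    exact ⟨r, hr3, hr2, hr1⟩
  choose r hr1 hr2 hr3 using hr
  have hc : ∀ i, ∃ c : En n, (t i ∩ Z).Nonempty → c ∈ t i ∩ Z := by
    intro i
    by_cases h : (t i ∩ Z).Nonempty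
    · exact ⟨h.some, fun _ => h.some_mem⟩
    · exact ⟨0, fun h' => absurd h' h⟩
  choose cc hcc using hc
  set V : ℕ → Set (En n) := fun i => if (t i ∩ Z).Nonempty then ball (cc i) (r i) else ∅ with hV
  have hVo : ∀ i, IsOpen (V i) := by
    intro i
    rw [hV]
    dsimp only
    split_ifs
    · exact isOpen_ball
    · exact isOpen_empty
  have hVc : Z ⊆ ⋃ i, V i := by
    intro x hx
    obtain ⟨i, hi⟩ := mem_iUnion.1 (ht hx)
    refine mem_iUnion.2 ⟨i, ?_⟩
    have hne : (t i ∩ Z).Nonempty := ⟨x, hi, hx⟩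
    rw [hV]
    dsimp only
    rw [if_pos hne, mem_ball]
    have h1 := Metric.edist_le_ediam_of_mem hi (hcc i hne).1
    have h2 : dist x (cc i) ≤ e i := by
      rw [dist_edist]
      exact ENNReal.toReal_mono (htop i) h1
    exact h2.trans_lt (hr1 i)
  obtain ⟨T, hT⟩ := hZ.elim_finite_subcover V hVo hVc
  set T' := T.filter (fun i => (t i ∩ Z).Nonempty) with hT'
  refine ⟨T'.image (fun i => (cc i, r i)), ?_, ?_, ?_⟩
  · intro p hp
    rw [Finset.mem_image] at hp
    obtain ⟨i, hi, rfl⟩ := hp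
    have hne := (Finset.mem_filter.1 hi).2
    exact ⟨(hcc i hne).2, (he0 i).trans_lt (hr1 i), (hr2 i).le⟩
  · refine (L5_sum_image T' (fun i => (cc i, r i)) (fun p => p.2 ^ d) (fun i _ =>
      Real.rpow_nonneg ((he0 i).trans (hr1 i).le) d)).trans ?_
    have h1 : ∑ i ∈ T', r i ^ d ≤ ∑ i ∈ T', (e i ^ d + δ i) :=
      Finset.sum_le_sum fun i _ => (hr3 i).le
    rw [Finset.sum_add_distrib] at h1
    have h2 : ∑ i ∈ T', δ i ≤ θ / 2 := (sum_le_hasSum T' (fun i _ => (hδ0 i).le) hδs).trans hδc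
    have h3 : ∑ i ∈ T', e i ^ d ≤ θ / 2 := by
      have e1 : ∑ i ∈ T', e i ^ d = (∑ i ∈ T', Metric.ediam (t i) ^ d).toReal := by
        rw [ENNReal.toReal_sum fun i _ => (hfin i).ne_top]
        exact Finset.sum_congr rfl fun i _ => ENNReal.toReal_rpow _ _
      rw [e1]
      have h4 : ∑ i ∈ T', Metric.ediam (t i) ^ d ≤ ENNReal.ofReal ε' :=
        (ENNReal.sum_le_tsum T').trans hsum.le
      have h5 := ENNReal.toReal_mono ENNReal.ofReal_ne_top h4
      rw [ENNReal.toReal_ofReal hε0.le] at h5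
      exact h5.trans (min_le_left _ _)
    linarith
  · intro x hx
    obtain ⟨i, hi⟩ := mem_iUnion.1 (hT hx)
    obtain ⟨hiT, hxi⟩ := mem_iUnion.1 hi
    by_cases hne : (t i ∩ Z).Nonempty
    · rw [hV] at hxi
      dsimp only at hxi
      rw [if_pos hne] at hxi
      refine mem_iUnion.2 ⟨(cc i, r i), mem_iUnion.2 ⟨?_, hxi⟩⟩
      exact Finset.mem_image.2 ⟨i, Finset.mem_filter.2 ⟨hiT, hne⟩, rfl⟩
    · rw [hV] at hxi
      dsimp only at hxi
      rw [if_neg hne] at hxi
      exact absurd hxi (notMem_empty x)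

theorem L5 (hCOMP : StmtCOMP) (hHC : StmtHC) : StmtL5 := by
  intro n d F θ hn hd hF hθ
  classical
  have hn1 : 1 ≤ n := by omega
  have hd0 : 0 < d := by
    have : (2 : ℝ) ≤ n := by exact_mod_cast hn
    linarith
  by_contra hcon
  push Not at hcon
  set s : ℕ → ℝ := fun k => 1 / ((k : ℝ) + 8) with hs
  have hs0 : ∀ k, 0 < s k := fun k => by
    simp only [hs]
    positivity
  have hs8 : ∀ k, s k ≤ 1 / 8 := fun k => by
    simp only [hs]
    apply one_div_le_one_div_of_le (by norm_num)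
    have : (0 : ℝ) ≤ k := Nat.cast_nonneg k
    linarith
  have hch := fun k : ℕ => hcon (s k) (s k) (s k) (hs0 k) (hs0 k) (hs0 k) (hs8 k)
  choose A u hsol hnear hdg hpos hbad using hch
  set c : ℕ → ℝ := fun k => (Dg (u k) 0 1)⁻¹ with hc
  have hc0 : ∀ k, 0 < c k := fun k => inv_pos.2 (hpos k)
  have hcD : ∀ k, c k * Dg (u k) 0 1 = 1 := fun k => inv_mul_cancel₀ (hpos k).ne'
  set v : ℕ → En n → ℝ := fun k y => c k * u k y with hv
  have hvg : ∀ k x, gradient (v k) x = c k • gradient (u k) x := fun k x =>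
    L5_gradient_smul (c k) (u k) x
  have hvn : ∀ k x, ‖gradient (v k) x‖ = c k * ‖gradient (u k) x‖ := by
    intro k x
    rw [hvg, norm_smul, Real.norm_eq_abs, abs_of_pos (hc0 k)]
  have hst : Tendsto s atTop (𝓝 0) := by
    simp only [hs]
    exact tendsto_const_nhds.div_atTop (tendsto_natCast_atTop_atTop.atTop_add tendsto_const_nhds)
  have hcl2 : closedBall (0 : En n) 2 ⊆ ball 0 4 := by
    intro x hx
    rw [mem_closedBall_zero_iff] at hx
    rw [mem_ball_zero_iff]
    linarith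
  have hcl1 : closedBall (0 : En n) 1 ⊆ ball 0 4 :=
    (closedBall_subset_closedBall (by norm_num)).trans hcl2
  obtain ⟨j, h, hj, hsolh, hunif⟩ := hCOMP n F A v s hn1 hst (fun k => ⟨(hs0 k).le,
    L5_sol_smul (c k) (hsol k), hnear k, by
      intro x hx
      rw [hvn]
      have h1 : ‖gradient (u k) x‖ ≤ Dg (u k) 0 2 :=
        (hsol k).le_Dg hcl2 (ball_subset_closedBall hx)
      have h2 : ‖gradient (u k) x‖ ≤ F * Dg (u k) 0 1 := h1.trans (hdg k)
      calc c k * ‖gradient (u k) x‖ ≤ c k * (F * Dg (u k) 0 1) :=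
            mul_le_mul_of_nonneg_left h2 (hc0 k).le
        _ = F * (c k * Dg (u k) 0 1) := by ring
        _ = F := by rw [hcD, mul_one]⟩)
  rw [Metric.tendstoUniformlyOn_iff] at hunif
  have hcl32 : closedBall (0 : En n) 1 ⊆ ball 0 (3 / 2) := by
    intro x hx
    rw [mem_closedBall_zero_iff] at hx
    rw [mem_ball_zero_iff]
    linarith
  -- the limit is not constant
  have hne : ∃ x ∈ ball (0 : En n) (3 / 2), gradient h x ≠ 0 := by
    obtain ⟨k, hk⟩ := (hunif 1 one_pos).exists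
    obtain ⟨y, hy, hyD⟩ := (hsol (j k)).exists_eq_Dg zero_le_one hcl1
    refine ⟨y, hcl32 hy, fun h0 => ?_⟩
    have h1 := hk y hy
    rw [h0, dist_zero_left, hvn, hyD, hcD] at h1
    exact lt_irrefl _ h1
  have hcont0 := hHC n d h (3 / 2) hn hd (by norm_num) hsolh hne
  have hgc : ContinuousOn (gradient h) (ball (0 : En n) (3 / 2)) := hsolh.continuousOn_gradient
  set Z : Set (En n) := {x ∈ closedBall (0 : En n) 1 | gradient h x = 0} with hZ
  have hZc : IsCompact Z := by
    have h1 : Z = closedBall (0 : En n) 1 ∩ gradient h ⁻¹' {0} := by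
      ext x
      simp [hZ]
    rw [h1]
    exact (isCompact_closedBall (0 : En n) 1).of_isClosed_subset
      ((hgc.mono hcl32).preimage_isClosed_of_isClosed isClosed_closedBall isClosed_singleton)
      inter_subset_left
  have hZ0 : cont n d Z = 0 := by
    refine le_antisymm ?_ zero_le
    rw [← hcont0]
    exact cont_mono fun x hx => ⟨hcl32 hx.1, hx.2⟩
  obtain ⟨t, ht1, ht2, ht3⟩ := L5_cover d θ hd0 hθ Z hZc hZ0
  -- the smallest radius
  obtain ⟨τ, hτ0, hτ⟩ : ∃ τ : ℝ, 0 < τ ∧ ∀ p ∈ t, τ ≤ p.2 := by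
    rcases t.eq_empty_or_nonempty with h0 | h0
    · exact ⟨1, one_pos, fun p hp => by rw [h0] at hp; simp at hp⟩
    · obtain ⟨q, hq, hmin⟩ := t.exists_min_image (fun p => p.2) h0
      exact ⟨q.2, (ht1 q hq).2.1, hmin⟩
  -- the gradient of the limit is bounded below off the balls
  set Kc : Set (En n) := closedBall (0 : En n) 1 \ ⋃ p ∈ t, ball p.1 p.2 with hKc
  have hKcomp : IsCompact Kc :=
    (isCompact_closedBall (0 : En n) 1).diff (isOpen_biUnion fun p _ => isOpen_ball)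
  obtain ⟨a, ha0, ha⟩ : ∃ a : ℝ, 0 < a ∧ ∀ x ∈ Kc, a ≤ ‖gradient h x‖ := by
    rcases Kc.eq_empty_or_nonempty with h0 | h0
    · exact ⟨1, one_pos, fun x hx => by rw [h0] at hx; exact absurd hx (notMem_empty x)⟩
    · obtain ⟨x, hx, hmin⟩ := hKcomp.exists_isMinOn h0
        ((hgc.mono (sdiff_subset.trans hcl32)).norm)
      refine ⟨‖gradient h x‖, ?_, fun y hy => hmin hy⟩
      rw [norm_pos_iff]
      intro h1
      exact hx.2 (ht3 ⟨hx.1, h1⟩)
  have hsj : Tendsto (fun k => s (j k)) atTop (𝓝 0) := hst.comp hj.tendsto_atTop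
  obtain ⟨k, hk1, hk2, hk3⟩ := ((hunif (a / 2) (by positivity)).and
    ((hsj.eventually (gt_mem_nhds hτ0)).and
      (hsj.eventually (gt_mem_nhds (show (0 : ℝ) < a / 2 by positivity))))).exists
  obtain ⟨x, hx, hxs, hxt⟩ := hbad (j k) t (fun p hp => ⟨(ht1 p hp).1.1,
    hk2.le.trans (hτ p hp), (ht1 p hp).2.2⟩) ht2
  have hxK : x ∈ Kc := by
    refine ⟨hx, fun hmem => ?_⟩
    obtain ⟨p, hp⟩ := mem_iUnion.1 hmem
    obtain ⟨hpt, hxp⟩ := mem_iUnion.1 hp
    exact hxt p hpt (ball_subset_closedBall hxp)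
  have h1 := ha x hxK
  have h2 := hk1 x hx
  have h3 : ‖gradient (v (j k)) x‖ ≤ s (j k) := by
    rw [hvn]
    calc c (j k) * ‖gradient (u (j k)) x‖ ≤ c (j k) * (s (j k) * Dg (u (j k)) 0 1) :=
          mul_le_mul_of_nonneg_left hxs (hc0 _).le
      _ = s (j k) * (c (j k) * Dg (u (j k)) 0 1) := by ring
      _ = s (j k) := by rw [hcD, mul_one]
  have h4 : ‖gradient h x‖ ≤ ‖gradient h x - gradient (v (j k)) x‖ + ‖gradient (v (j k)) x‖ := by
    have := norm_add_le (gradient h x - gradient (v (j k)) x) (gradient (v (j k)) x)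
    rwa [sub_add_cancel] at this
  rw [dist_eq_norm] at h2
  linarith

end EAGrad

end

section

/-!
MP_ea6116_an, item LC: linear change of variables.
-/

set_option autoImplicit false

open MeasureTheory Metric Set Filter Topology
open scoped ENNReal NNReal ContDiff

namespace EAGrad

variable {n : ℕ}

/-- Chain rule for the gradient and an affine isomorphism (no differentiability needed). -/
theorem LC_gradient (u : En n → ℝ) (x : En n) (T : En n ≃L[ℝ] En n) (z : En n) :
    gradient (fun z => u (x + T z)) z =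
      ContinuousLinearMap.adjoint (T : Op n) (gradient u (x + T z)) := by
  have h1 : fderiv ℝ (fun z => u (x + T z)) z = (fderiv ℝ u (x + T z)).comp (T : Op n) := by
    have h2 := T.comp_right_fderiv (f := fun w => u (x + w)) (x := z)
    have h3 : ((fun w => u (x + w)) ∘ T) = fun z => u (x + T z) := rfl
    rw [h3] at h2
    rw [h2, fderiv_comp_add_left]
  refine ext_inner_right ℝ fun v => ?_
  rw [inner_gradient, h1, ContinuousLinearMap.adjoint_inner_left, inner_gradient]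
  rfl

/-- Change of variables for vanishing integrals. -/
theorem LC_integral {g : En n → ℝ} (x : En n) (T : En n ≃L[ℝ] En n) (hg : ∫ y, g y = 0) :
    ∫ z, g (x + T z) = 0 := by
  have h1 := integral_image_eq_integral_abs_det_fderiv_smul (volume : Measure (En n))
    (s := univ) (f := fun z => x + T z) (f' := fun _ => (T : Op n)) MeasurableSet.univ
    (fun z _ => (T.hasFDerivAt.const_add x).hasFDerivWithinAt)
    (fun a _ b _ hab => T.injective (add_left_cancel hab)) g
  have h2 : (fun z => x + T z) '' univ = univ := by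
    rw [image_univ]
    refine range_eq_univ.2 fun y => ⟨T.symm (y - x), by simp⟩
  rw [h2, setIntegral_univ, setIntegral_univ, hg, integral_smul] at h1
  have h3 : |(T : Op n).det| ≠ 0 := by
    rw [abs_ne_zero]
    exact (LinearEquiv.isUnit_det' T.toLinearEquiv).ne_zero
  exact (smul_eq_zero.1 h1.symm).resolve_left h3

/-- The weak equation after an affine change of variables. -/
theorem LC_weak {A : En n → Op n} {u : En n → ℝ} {U : Set (En n)} (h : Sol A u U) (x : En n)
    (T : En n ≃L[ℝ] En n) {φ : En n → ℝ} (h1 : ContDiff ℝ ∞ φ) (h2 : HasCompactSupport φ)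
    (h3 : tsupport φ ⊆ (fun z => x + T z) ⁻¹' U) :
    ∫ z, inner ℝ (A (x + T z) (gradient u (x + T z)))
      (ContinuousLinearMap.adjoint (T.symm : Op n) (gradient φ z)) = 0 := by
  set ψ : En n → ℝ := fun y => φ (T.symm (y - x)) with hψ
  have hψ' : ψ = fun y => φ (T.symm (-x) + T.symm y) := by
    funext y
    simp only [hψ]
    congr 1
    rw [← map_add]
    congr 1
    abel
  have e1 : ContDiff ℝ ∞ ψ := h1.comp (T.symm.contDiff.comp (contDiff_id.sub contDiff_const))
  set e : En n ≃ₜ En n := (Homeomorph.addLeft (-x)).trans T.symm.toHomeomorph with he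
  have hψe : ψ = φ ∘ e := by
    funext y
    have : (e y) = T.symm (-x + y) := rfl
    rw [Function.comp_apply, this, hψ]
    simp only
    congr 2
    abel
  have e2 : HasCompactSupport ψ := by
    rw [hψe]
    exact h2.comp_homeomorph e
  have e3 : tsupport ψ ⊆ U := by
    have : tsupport ψ = e ⁻¹' tsupport φ := by
      rw [hψe]
      exact tsupport_comp_eq_preimage φ e
    rw [this]
    intro y hy
    have h4 := h3 hy
    have h5 : x + T (e y) = y := by
      simp [he]
    have h6 : x + T (e y) ∈ U := h4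
    rwa [h5] at h6
  have h4 := LC_integral x T (h.weak ψ e1 e2 e3)
  refine (integral_congr_ae (Eventually.of_forall fun z => ?_)).trans h4
  beta_reduce
  congr 1
  have h7 := LC_gradient φ (T.symm (-x)) T.symm (x + T z)
  rw [← hψ'] at h7
  rw [h7]
  congr 2
  rw [← map_add]
  simp

/-- Item LC. -/
theorem LC : StmtLC := by
  intro n A u x U T h
  refine ⟨⟨?_, ?_, ?_⟩, fun z _ => LC_gradient u x T z⟩
  · exact h.isOpen.preimage (by fun_prop)
  · exact h.c1.comp (ContDiff.contDiffOn (contDiff_const.add T.contDiff)) fun z hz => hz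
  · intro φ h1 h2 h3
    refine (integral_congr_ae (Eventually.of_forall fun z => ?_)).trans (LC_weak h x T h1 h2 h3)
    simp only
    rw [LC_gradient u x T z, ContinuousLinearMap.adjoint_inner_right]
    simp only [ContinuousLinearMap.comp_apply]
    congr 3
    have : ContinuousLinearMap.adjoint (T.symm : Op n)
        (ContinuousLinearMap.adjoint (T : Op n) (gradient u (x + T z))) = gradient u (x + T z) := by
      refine ext_inner_right ℝ fun v => ?_
      rw [ContinuousLinearMap.adjoint_inner_left, ContinuousLinearMap.adjoint_inner_left]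
      simp
    rw [this]

end EAGrad

end

section

/-!
MP_ea6116_an: the recursion (LOC).
-/

set_option autoImplicit false

open MeasureTheory Metric Set Filter Topology
open scoped ENNReal NNReal ContDiff

namespace EAGrad

theorem LOC_union {n : ℕ} {d : ℝ} (hd : 0 < d) (S T : Set (En n)) :
    cont n d (S ∪ T) ≤ cont n d S + cont n d T := by
  have h := cont_biUnion_finset_le hd (Finset.univ : Finset Bool) (fun b => cond b S T)
  have h1 : (⋃ i ∈ (Finset.univ : Finset Bool), cond i S T) = S ∪ T := by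
    simp [Set.union_eq_iUnion]
  rw [h1] at h
  simpa using h

theorem LOC_sum {n : ℕ} {d : ℝ} (hd : 0 < d) {ι : Type*} (s : Finset ι) (S : ι → Set (En n))
    (X : ℝ) (hX : 0 ≤ X) (m : ℝ) (hm : (s.card : ℝ) ≤ m)
    (h : ∀ i ∈ s, cont n d (S i) ≤ ENNReal.ofReal X) :
    cont n d (⋃ i ∈ s, S i) ≤ ENNReal.ofReal (m * X) := by
  refine (cont_biUnion_finset_le hd s S).trans ?_
  refine (Finset.sum_le_sum h).trans ?_
  rw [Finset.sum_const, nsmul_eq_mul, ← ENNReal.ofReal_natCast, ← ENNReal.ofReal_mul (by positivity)]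
  exact ENNReal.ofReal_le_ofReal (mul_le_mul_of_nonneg_right hm hX)

/-- A finite net with a number of points independent of the ball. -/
theorem LOC_net (n : ℕ) (ρ : ℝ) (hρ : 0 < ρ) : ∃ M : ℕ, ∀ (x₀ : En n) (l : ℝ), 0 < l →
    ∃ t : Finset (En n), t.card ≤ M ∧ (∀ q ∈ t, q ∈ closedBall x₀ l) ∧
      ∀ x ∈ closedBall x₀ l, ∃ q ∈ t, dist x q ≤ ρ * l := by
  classical
  obtain ⟨t, hts, htf, htc⟩ := (isCompact_closedBall (0 : En n) 1).finite_cover_balls hρ
  refine ⟨htf.toFinset.card, fun x₀ l hl => ?_⟩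
  refine ⟨htf.toFinset.image (fun q => x₀ + l • q), Finset.card_image_le, ?_, ?_⟩
  · intro q hq
    obtain ⟨z, hz, rfl⟩ := Finset.mem_image.1 hq
    have h1 := mem_closedBall_zero_iff.1 (hts (htf.mem_toFinset.1 hz))
    rw [mem_closedBall, dist_eq_norm, add_sub_cancel_left, norm_smul, Real.norm_eq_abs,
      abs_of_pos hl]
    nlinarith
  · intro x hx
    have hx1 : l⁻¹ • (x - x₀) ∈ closedBall (0 : En n) 1 := by
      rw [mem_closedBall_zero_iff, norm_smul, Real.norm_eq_abs, abs_of_pos (inv_pos.2 hl),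
        ← dist_eq_norm, inv_mul_le_iff₀ hl]
      simpa using mem_closedBall.1 hx
    obtain ⟨z, hz, hzx⟩ := mem_iUnion₂.1 (htc hx1)
    refine ⟨x₀ + l • z, Finset.mem_image.2 ⟨z, htf.mem_toFinset.2 hz, rfl⟩, ?_⟩
    have h2 : x - (x₀ + l • z) = l • (l⁻¹ • (x - x₀) - z) := by
      rw [smul_sub, smul_smul, mul_inv_cancel₀ hl.ne', one_smul]
      abel
    rw [dist_eq_norm, h2, norm_smul, Real.norm_eq_abs, abs_of_pos hl, mul_comm ρ l,
      ← dist_eq_norm]
    exact mul_le_mul_of_nonneg_left (mem_ball.1 hzx).le hl.le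

/-- The hypotheses of the recursion. -/
structure LOCHyp {n : ℕ} (K₀ s₀ : ℝ) (A : En n → Op n) (u : En n → ℝ) (x₀ : En n)
    (l N : ℝ) : Prop where
  hl : 0 < l
  sol : Sol A u (ball x₀ (8 * K₀ * l))
  near : Near s₀ (s₀ / l) A (ball x₀ (8 * K₀ * l))
  dbl : ∀ x ∈ closedBall x₀ (2 * l), Dg u x (2 * K₀ * l) ≤ 2 ^ N * Dg u x (K₀ * l)
  pos : 0 < Dg u x₀ l

/-- The upper slope in all points of the double ball. -/
theorem LOC_up {n : ℕ} {ε q₀ s₁ N₁ K₀ s₀ : ℝ} (hK : 8 ≤ K₀) (hs : s₀ ≤ s₁ / K₀) (hs1 : 0 < s₁)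
    (hSL : ∀ (A : En n → Op n) (u : En n → ℝ) (x : En n) (R N : ℝ), 0 < R →
      Sol A u (ball x (4 * R)) → Near s₁ (s₁ / R) A (ball x (4 * R)) → N₁ ≤ N →
      Dg u x (2 * R) ≤ 2 ^ N * Dg u x R → ∀ r r', q₀ * R ≤ r → 2 * r ≤ r' → r' ≤ R / 2 →
      Dg u x r' ≤ (r' / r) ^ ((1 + ε) * N) * Dg u x r)
    {A : En n → Op n} {u : En n → ℝ} {x₀ : En n} {l N : ℝ} (H : LOCHyp K₀ s₀ A u x₀ l N)
    (hN : N₁ ≤ N) {x : En n} (hx : x ∈ closedBall x₀ (2 * l)) {r r' : ℝ}
    (h1 : q₀ * (K₀ * l) ≤ r) (h2 : 2 * r ≤ r') (h3 : r' ≤ K₀ * l / 2) :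
    Dg u x r' ≤ (r' / r) ^ ((1 + ε) * N) * Dg u x r := by
  have hl := H.hl
  have hR : 0 < K₀ * l := by positivity
  have hsub : ball x (4 * (K₀ * l)) ⊆ ball x₀ (8 * K₀ * l) := by
    apply ball_subset_ball'
    have := mem_closedBall.1 hx
    nlinarith
  refine hSL A u x (K₀ * l) N hR (H.sol.mono isOpen_ball hsub) (H.near.mono ?_ ?_ hsub) hN ?_
    r r' h1 h2 h3
  · refine hs.trans ?_
    rw [div_le_iff₀ (by linarith)]
    nlinarith
  · rw [← div_div]
    gcongr
  · have := H.dbl x hx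
    rwa [mul_assoc] at this

/-- Passage to a smaller ball. -/
theorem LOC_sub {n : ℕ} {K₀ s₀ : ℝ} (hK : 8 ≤ K₀) (hs0 : 0 < s₀)
    {A : En n → Op n} {u : En n → ℝ} {x₀ : En n} {l N : ℝ} (H : LOCHyp K₀ s₀ A u x₀ l N)
    {x : En n} (hx : x ∈ closedBall x₀ (3 / 2 * l)) {θ : ℝ} (hθ0 : 0 < θ) (hθ : θ ≤ 1 / 4) :
    Sol A u (ball x (8 * K₀ * (θ * l))) ∧ Near s₀ (s₀ / (θ * l)) A (ball x (8 * K₀ * (θ * l))) := by
  have hl := H.hl
  have hsub : ball x (8 * K₀ * (θ * l)) ⊆ ball x₀ (8 * K₀ * l) := by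
    apply ball_subset_ball'
    have h1 := mem_closedBall.1 hx
    have h2 : 8 * K₀ * (θ * l) ≤ 2 * K₀ * l := by
      have : θ * (K₀ * l) ≤ 1 / 4 * (K₀ * l) :=
        mul_le_mul_of_nonneg_right hθ (by positivity)
      nlinarith
    nlinarith
  refine ⟨H.sol.mono isOpen_ball hsub, H.near.mono le_rfl ?_ hsub⟩
  apply div_le_div_of_nonneg_left hs0.le (by positivity)
  nlinarith

/-- Comparison of `Dg` in the ball and in a smaller one. -/
theorem LOC_ratio {n : ℕ} {ε ρ K₀ s₀ b : ℝ} (hK : 8 ≤ K₀) (hε : ε ≤ 1) (hρ : 0 < ρ)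
    (hb : b = 2 * Real.log (K₀ / (2 * ρ)))
    {A : En n → Op n} {u : En n → ℝ} {x₀ : En n} {l N : ℝ} (H : LOCHyp K₀ s₀ A u x₀ l N)
    (hN : 0 ≤ N)
    (hup : ∀ x ∈ closedBall x₀ (2 * l), ∀ r r' : ℝ, ρ * l ≤ r → 2 * r ≤ r' → r' ≤ K₀ * l / 2 →
      Dg u x r' ≤ (r' / r) ^ ((1 + ε) * N) * Dg u x r)
    {x : En n} (hx : x ∈ closedBall x₀ (3 / 2 * l)) {θ : ℝ} (hθ0 : ρ ≤ θ) (hθ : θ ≤ 1 / 4) :
    Dg u x₀ l ≤ Real.exp (b * N) * Dg u x (θ * l) := by
  have hl := H.hl
  have hθ1 : 0 < θ := hρ.trans_le hθ0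
  have hxd := mem_closedBall.1 hx
  have hx2 : x ∈ closedBall x₀ (2 * l) := mem_closedBall.2 (by linarith)
  have hsub : closedBall x (K₀ * l / 2) ⊆ ball x₀ (8 * K₀ * l) := by
    intro z hz
    have hz1 := mem_closedBall.1 hz
    rw [mem_ball]
    have := dist_triangle z x x₀
    nlinarith
  have h1 : Dg u x₀ l ≤ Dg u x (K₀ * l / 2) := by
    apply H.sol.Dg_mono hsub
    apply closedBall_subset_closedBall'
    rw [dist_comm]
    nlinarith
  have h2 := hup x hx2 (θ * l) (K₀ * l / 2) (by nlinarith) (by nlinarith) le_rfl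
  have h3 : K₀ * l / 2 / (θ * l) = K₀ / (2 * θ) := by
    field_simp
  have h4 : K₀ / (2 * θ) ≤ K₀ / (2 * ρ) := by
    apply div_le_div_of_nonneg_left (by linarith) (by positivity)
    linarith
  have h5 : (1 : ℝ) ≤ K₀ / (2 * ρ) := by
    rw [le_div_iff₀ (by positivity)]
    linarith
  have h6 : (K₀ / (2 * θ)) ^ ((1 + ε) * N) ≤ Real.exp (b * N) := by
    by_cases hε1 : 0 ≤ 1 + ε
    · calc (K₀ / (2 * θ)) ^ ((1 + ε) * N) ≤ (K₀ / (2 * ρ)) ^ ((1 + ε) * N) :=
            Real.rpow_le_rpow (by positivity) h4 (by positivity)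
        _ ≤ (K₀ / (2 * ρ)) ^ (2 * N) := by
            apply Real.rpow_le_rpow_of_exponent_le h5
            nlinarith
        _ = Real.exp (b * N) := by
            rw [Real.rpow_def_of_pos (by linarith), hb]
            ring_nf
    · have hθ2 : (1 : ℝ) ≤ K₀ / (2 * θ) := by
        rw [le_div_iff₀ (by positivity)]
        linarith
      have h7 : (K₀ / (2 * θ)) ^ ((1 + ε) * N) ≤ 1 :=
        Real.rpow_le_one_of_one_le_of_nonpos hθ2 (by nlinarith)
      refine h7.trans (Real.one_le_exp ?_)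
      have : 0 ≤ Real.log (K₀ / (2 * ρ)) := Real.log_nonneg h5
      rw [hb]
      positivity
  calc Dg u x₀ l ≤ Dg u x (K₀ * l / 2) := h1
    _ ≤ (K₀ * l / 2 / (θ * l)) ^ ((1 + ε) * N) * Dg u x (θ * l) := h2
    _ ≤ _ := by
      rw [h3]
      exact mul_le_mul_of_nonneg_right h6 (Dg_nonneg _ _ _)

/-- The choice of `τ`. -/
theorem LOC_tau (n : ℕ) (d : ℝ) (hn : 2 ≤ n) (hd : (n : ℝ) - 2 < d) (C : ℝ) (hC : 0 < C) :
    ∃ τ : ℝ, 0 < τ ∧ τ ≤ 1 / 36 ∧ C * (1 / τ) ^ (n - 2) * (9 * τ) ^ d ≤ 1 / 64 := by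
  have hn2 : (2 : ℝ) ≤ n := by exact_mod_cast hn
  have hδ : 0 < d - (n - 2) := by linarith
  have hc : 0 < 1 / (64 * C * 9 ^ d) := by positivity
  set c : ℝ := 1 / (64 * C * 9 ^ d) with hcdef
  refine ⟨min (1 / 36) (c ^ (1 / (d - (n - 2)))), ?_, min_le_left _ _, ?_⟩
  · exact lt_min (by norm_num) (Real.rpow_pos_of_pos hc _)
  · set τ := min (1 / 36 : ℝ) (c ^ (1 / (d - (n - 2)))) with hτ
    have hτ0 : 0 < τ := lt_min (by norm_num) (Real.rpow_pos_of_pos hc _)
    have h1 : τ ^ (d - (n - 2)) ≤ c := by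
      calc τ ^ (d - (n - 2)) ≤ (c ^ (1 / (d - (n - 2)))) ^ (d - (n - 2)) :=
            Real.rpow_le_rpow hτ0.le (min_le_right _ _) hδ.le
        _ = c := by
            rw [← Real.rpow_mul hc.le, one_div_mul_cancel hδ.ne', Real.rpow_one]
    have h2 : (1 / τ) ^ (n - 2) * τ ^ d = τ ^ (d - (n - 2)) := by
      rw [Real.rpow_sub hτ0, one_div, inv_pow]
      have : τ ^ ((n : ℝ) - 2) = τ ^ (n - 2) := by
        rw [← Real.rpow_natCast, Nat.cast_sub hn]
        norm_num
      rw [this, inv_mul_eq_div]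
    calc C * (1 / τ) ^ (n - 2) * (9 * τ) ^ d
        = C * 9 ^ d * ((1 / τ) ^ (n - 2) * τ ^ d) := by
          rw [Real.mul_rpow (by norm_num) hτ0.le]; ring
      _ ≤ C * 9 ^ d * c := by
          rw [h2]
          exact mul_le_mul_of_nonneg_left h1 (by positivity)
      _ = 1 / 64 := by
          rw [hcdef]
          have : (9 : ℝ) ^ d ≠ 0 := (Real.rpow_pos_of_pos (by norm_num) _).ne'
          field_simp

/-- The numerical estimate of the recursion. -/
theorem LOC_num {d k1 B b L₁ η ε ρ τ Cn Cb bb N Λ l t M : ℝ} {k m2 : ℕ}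
    (hη0 : 0 < η) (hη1 : η < 1) (hε0 : 0 < ε) (hρ : 0 < ρ) (hτ : 0 < τ) (hCb : 0 < Cb)
    (hbb : 0 < bb) (hb : 0 < b) (hN : 1 ≤ N) (hl : 0 < l) (hk1 : k1 = k + 1)
    (hL : L₁ = 2 * k1 * b) (hΛ : L₁ * N < Λ) (hM : 0 ≤ M) (hB : 0 < B)
    (hQ : 4 * M * ρ ^ d * Cb * (k.factorial : ℝ) * (2 / bb) ^ k ≤ B)
    (ht : t ≤ Cn * (1 / τ) ^ m2)
    (hτ2 : Cn * (1 / τ) ^ m2 * (9 * τ) ^ d ≤ 1 / 64)
    (hk : M * ρ ^ d * (1 - η) ^ k ≤ 1 / 16) (hε : (1 + ε) ^ k ≤ 2) :
    t * (B * ((1 + ε) * N / (Λ - b * N)) ^ k * (9 * τ * l) ^ d) +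
      M * (B * ((1 - η) * N / (Λ - b * N)) ^ k * (ρ * l) ^ d +
        Cb * Real.exp (-(bb * (Λ - b * N))) * (ρ * l) ^ d) ≤ B * (N / Λ) ^ k * l ^ d := by
  have hk0 : (0 : ℝ) ≤ k := Nat.cast_nonneg k
  have hL0 : 0 < L₁ := by rw [hL, hk1]; positivity
  have hN0 : 0 < N := by linarith
  have hΛ0 : 0 < Λ := lt_trans (by positivity) hΛ
  have hld : 0 < l ^ d := Real.rpow_pos_of_pos hl d
  have hρd : 0 < ρ ^ d := Real.rpow_pos_of_pos hρ d
  have hbN : 2 * (k + 1) * (b * N) ≤ Λ := by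
    have : L₁ * N = 2 * (k + 1) * (b * N) := by rw [hL, hk1]; ring
    linarith
  have hbN0 : 0 < b * N := by positivity
  have hhalf : Λ / 2 ≤ Λ - b * N := by nlinarith
  have hD0 : 0 < Λ - b * N := by linarith
  -- the main comparison
  have hcomp : (N / (Λ - b * N)) ^ k ≤ 2 * (N / Λ) ^ k := by
    have h1 : 1 + (k : ℝ) * (-(b * N / Λ)) ≤ (1 + -(b * N / Λ)) ^ k := by
      apply one_add_mul_le_pow
      have : b * N / Λ ≤ 1 := by
        rw [div_le_one hΛ0]; nlinarith
      linarith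
    have h2 : (k : ℝ) * (b * N / Λ) ≤ 1 / 2 := by
      rw [← mul_div_assoc, div_le_iff₀ hΛ0]
      nlinarith
    have h3 : 1 / 2 ≤ (1 + -(b * N / Λ)) ^ k := by linarith
    have h4 : 1 + -(b * N / Λ) = (Λ - b * N) / Λ := by field_simp; ring
    rw [h4, div_pow, le_div_iff₀ (by positivity)] at h3
    rw [div_pow, div_pow, div_le_iff₀ (by positivity)]
    have h5 : 2 * (N ^ k / Λ ^ k) * (Λ - b * N) ^ k =
      (N ^ k / Λ ^ k) * (2 * (Λ - b * N) ^ k) := by ring
    rw [h5]
    have h6 : N ^ k / Λ ^ k * Λ ^ k ≤ N ^ k / Λ ^ k * (2 * (Λ - b * N) ^ k) := by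
      apply mul_le_mul_of_nonneg_left _ (by positivity)
      linarith
    have h7 : N ^ k / Λ ^ k * Λ ^ k = N ^ k := by field_simp
    linarith
  have hcomp0 : 0 ≤ (N / (Λ - b * N)) ^ k := by positivity
  have hexp : Cb * Real.exp (-(bb * (Λ - b * N))) ≤
      Cb * (k.factorial : ℝ) * (2 / bb) ^ k * (N / Λ) ^ k := by
    have h1 : (bb * (Λ - b * N)) ^ k / (k.factorial : ℝ) ≤ Real.exp (bb * (Λ - b * N)) :=
      Real.pow_div_factorial_le_exp _ (by positivity) k
    have h2 : (bb * (Λ / 2)) ^ k ≤ (bb * (Λ - b * N)) ^ k := by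
      apply pow_le_pow_left₀ (by positivity)
      exact mul_le_mul_of_nonneg_left hhalf hbb.le
    have hf : (0 : ℝ) < (k.factorial : ℝ) := by exact_mod_cast k.factorial_pos
    have h3 : (bb * (Λ / 2)) ^ k / (k.factorial : ℝ) ≤ Real.exp (bb * (Λ - b * N)) :=
      le_trans (by gcongr) h1
    have h4 : Real.exp (-(bb * (Λ - b * N))) ≤ (k.factorial : ℝ) / (bb * (Λ / 2)) ^ k := by
      rw [Real.exp_neg, ← one_div, div_le_div_iff₀ (Real.exp_pos _) (by positivity)]
      rw [div_le_iff₀ hf] at h3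
      linarith
    have h5 : (k.factorial : ℝ) / (bb * (Λ / 2)) ^ k =
        (k.factorial : ℝ) * (2 / bb) ^ k * (1 / Λ) ^ k := by
      rw [mul_assoc, ← mul_pow, div_eq_mul_inv, ← inv_pow]
      congr 2
      field_simp
    have h6 : (1 / Λ) ^ k ≤ (N / Λ) ^ k := by
      apply pow_le_pow_left₀ (by positivity)
      gcongr
    calc Cb * Real.exp (-(bb * (Λ - b * N)))
        ≤ Cb * ((k.factorial : ℝ) * (2 / bb) ^ k * (1 / Λ) ^ k) := by
          rw [← h5]; exact mul_le_mul_of_nonneg_left h4 hCb.le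
      _ ≤ Cb * ((k.factorial : ℝ) * (2 / bb) ^ k * (N / Λ) ^ k) := by gcongr
      _ = _ := by ring
  have hY : 0 ≤ (N / Λ) ^ k := by positivity
  -- the bad part
  have hbad : t * (B * ((1 + ε) * N / (Λ - b * N)) ^ k * (9 * τ * l) ^ d) ≤
      1 / 16 * (B * (N / Λ) ^ k * l ^ d) := by
    have e1 : t * (B * ((1 + ε) * N / (Λ - b * N)) ^ k * (9 * τ * l) ^ d) =
        (t * (9 * τ) ^ d) * (B * ((1 + ε) ^ k * (N / (Λ - b * N)) ^ k) * l ^ d) := by
      rw [Real.mul_rpow (by positivity) hl.le, mul_div_assoc, mul_pow]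
      ring
    have e2 : t * (9 * τ) ^ d ≤ 1 / 64 :=
      le_trans (mul_le_mul_of_nonneg_right ht (by positivity)) hτ2
    have e3 : (1 + ε) ^ k * (N / (Λ - b * N)) ^ k ≤ 2 * (2 * (N / Λ) ^ k) :=
      mul_le_mul hε hcomp hcomp0 (by norm_num)
    rw [e1]
    calc (t * (9 * τ) ^ d) * (B * ((1 + ε) ^ k * (N / (Λ - b * N)) ^ k) * l ^ d)
        ≤ 1 / 64 * (B * ((1 + ε) ^ k * (N / (Λ - b * N)) ^ k) * l ^ d) :=
          mul_le_mul_of_nonneg_right e2 (by positivity)
      _ ≤ 1 / 64 * (B * (2 * (2 * (N / Λ) ^ k)) * l ^ d) := by gcongr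
      _ = _ := by ring
  have hgood : M * (B * ((1 - η) * N / (Λ - b * N)) ^ k * (ρ * l) ^ d) ≤
      1 / 8 * (B * (N / Λ) ^ k * l ^ d) := by
    have e1 : M * (B * ((1 - η) * N / (Λ - b * N)) ^ k * (ρ * l) ^ d) =
        (M * ρ ^ d * (1 - η) ^ k) * (B * (N / (Λ - b * N)) ^ k * l ^ d) := by
      rw [Real.mul_rpow hρ.le hl.le, mul_div_assoc, mul_pow]
      ring
    rw [e1]
    calc (M * ρ ^ d * (1 - η) ^ k) * (B * (N / (Λ - b * N)) ^ k * l ^ d)
        ≤ 1 / 16 * (B * (N / (Λ - b * N)) ^ k * l ^ d) :=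
          mul_le_mul_of_nonneg_right hk (by positivity)
      _ ≤ 1 / 16 * (B * (2 * (N / Λ) ^ k) * l ^ d) := by gcongr
      _ = _ := by ring
  have hbase : M * (Cb * Real.exp (-(bb * (Λ - b * N))) * (ρ * l) ^ d) ≤
      1 / 4 * (B * (N / Λ) ^ k * l ^ d) := by
    have e1 : M * (Cb * Real.exp (-(bb * (Λ - b * N))) * (ρ * l) ^ d) =
        (M * ρ ^ d) * (Cb * Real.exp (-(bb * (Λ - b * N)))) * l ^ d := by
      rw [Real.mul_rpow hρ.le hl.le]
      ring
    rw [e1]
    calc (M * ρ ^ d) * (Cb * Real.exp (-(bb * (Λ - b * N)))) * l ^ d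
        ≤ (M * ρ ^ d) * (Cb * (k.factorial : ℝ) * (2 / bb) ^ k * (N / Λ) ^ k) * l ^ d := by
          gcongr
      _ = 1 / 4 * ((4 * M * ρ ^ d * Cb * (k.factorial : ℝ) * (2 / bb) ^ k) *
            (N / Λ) ^ k * l ^ d) := by ring
      _ ≤ 1 / 4 * (B * (N / Λ) ^ k * l ^ d) := by gcongr
  have hpos : 0 ≤ B * (N / Λ) ^ k * l ^ d := by positivity
  rw [mul_add]
  linarith

/-- One step of the recursion. -/
theorem LOC_step {n : ℕ} {d K₀ s₀ N₃ b L₁ η ε ρ τ Cn Cb bb B : ℝ} {M k : ℕ}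
    (hd0 : 0 < d) (hK : 8 ≤ K₀) (hs0 : 0 < s₀) (hN₃ : 1 ≤ N₃)
    (hη0 : 0 < η) (hη1 : η < 1) (hε0 : 0 < ε) (hρ : 0 < ρ) (hρτ : 3 * ρ ≤ τ)
    (hτ : 0 < τ) (hτ1 : τ ≤ 1 / 36) (hCb : 0 < Cb) (hbb : 0 < bb) (hb : 0 < b)
    (hL : L₁ = 2 * ((k : ℝ) + 1) * b)
    (hτ2 : Cn * (1 / τ) ^ (n - 2) * (9 * τ) ^ d ≤ 1 / 64)
    (hk : (M : ℝ) * ρ ^ d * (1 - η) ^ k ≤ 1 / 16) (hε : (1 + ε) ^ k ≤ 2)
    (hQ : 4 * (M : ℝ) * ρ ^ d * Cb * (k.factorial : ℝ) * (2 / bb) ^ k ≤ B)
    (hB1 : 2 ^ d * L₁ ^ k ≤ B) (hB : 0 < B)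
    (hM : ∀ (x₀ : En n) (l : ℝ), 0 < l →
      ∃ t : Finset (En n), t.card ≤ M ∧ (∀ q ∈ t, q ∈ closedBall x₀ l) ∧
        ∀ x ∈ closedBall x₀ l, ∃ q ∈ t, dist x q ≤ ρ * l)
    (hcov : ∀ (x₀ : En n) (l : ℝ) (P : Set (En n)), 0 < l → P ⊆ closedBall x₀ (2 * l) →
      (¬ ∃ x : Fin n → En n, (∀ i, x i ∈ P) ∧ Indep (τ * l) x) →
      ∃ t : Finset (En n), (↑t : Set (En n)) ⊆ P ∧ (∀ p ∈ P, ∃ q ∈ t, dist p q ≤ 8 * τ * l) ∧
        (t.card : ℝ) ≤ Cn * (1 / τ) ^ (n - 2))
    (hpin : ∀ (A : En n → Op n) (u : En n → ℝ) (x₀ : En n) (l N : ℝ),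
      LOCHyp K₀ s₀ A u x₀ l N → N₃ ≤ N →
      ¬ ∃ x : Fin n → En n, (∀ i, x i ∈ closedBall x₀ (2 * l) ∧
          2 ^ ((1 - η) * N) * Dg u (x i) (K₀ * ρ * l) < Dg u (x i) (2 * K₀ * ρ * l)) ∧
        Indep (τ * l) x)
    (hup : ∀ (A : En n → Op n) (u : En n → ℝ) (x₀ : En n) (l N : ℝ),
      LOCHyp K₀ s₀ A u x₀ l N → N₃ ≤ N → ∀ x ∈ closedBall x₀ (2 * l), ∀ r r' : ℝ,
      ρ * l ≤ r → 2 * r ≤ r' → r' ≤ K₀ * l / 2 →
      Dg u x r' ≤ (r' / r) ^ ((1 + ε) * N) * Dg u x r)
    (hrat : ∀ (A : En n → Op n) (u : En n → ℝ) (x₀ : En n) (l N : ℝ),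
      LOCHyp K₀ s₀ A u x₀ l N → N₃ ≤ N → ∀ x ∈ closedBall x₀ (3 / 2 * l), ∀ θ : ℝ,
      ρ ≤ θ → θ ≤ 1 / 4 → Dg u x₀ l ≤ Real.exp (b * N) * Dg u x (θ * l))
    (hbase : ∀ (A : En n → Op n) (u : En n → ℝ) (x₀ : En n) (l Λ : ℝ),
      LOCHyp K₀ s₀ A u x₀ l N₃ → 0 ≤ Λ →
      cont n d {x ∈ closedBall x₀ l | ‖gradient u x‖ ≤ Real.exp (-Λ) * Dg u x₀ l} ≤
        ENNReal.ofReal (Cb * Real.exp (-(bb * Λ)) * l ^ d))
    {W : ℝ}
    (IH : ∀ (A : En n → Op n) (u : En n → ℝ) (x₀ : En n) (l N Λ : ℝ),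
      LOCHyp K₀ s₀ A u x₀ l N → N₃ ≤ N → 0 < Λ → Λ ≤ W →
      cont n d {x ∈ closedBall x₀ l | ‖gradient u x‖ ≤ Real.exp (-Λ) * Dg u x₀ l} ≤
        ENNReal.ofReal (B * (N / Λ) ^ k * l ^ d))
    (A : En n → Op n) (u : En n → ℝ) (x₀ : En n) (l N Λ : ℝ)
    (H : LOCHyp K₀ s₀ A u x₀ l N) (hN : N₃ ≤ N) (hΛ : 0 < Λ) (hΛW : Λ ≤ W + b * N₃) :
    cont n d {x ∈ closedBall x₀ l | ‖gradient u x‖ ≤ Real.exp (-Λ) * Dg u x₀ l} ≤
      ENNReal.ofReal (B * (N / Λ) ^ k * l ^ d) := by
  classical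
  have hl := H.hl
  have hN0 : 1 ≤ N := hN₃.trans hN
  have hk0 : (0 : ℝ) ≤ k := Nat.cast_nonneg k
  have hL0 : 0 < L₁ := by rw [hL]; positivity
  have hld : 0 < l ^ d := Real.rpow_pos_of_pos hl d
  set S := {x ∈ closedBall x₀ l | ‖gradient u x‖ ≤ Real.exp (-Λ) * Dg u x₀ l} with hS
  by_cases hcase : Λ ≤ L₁ * N
  · -- trivial bound
    have h1 : cont n d S ≤ ENNReal.ofReal ((2 * l) ^ d) :=
      (cont_mono (fun x hx => hx.1)).trans (cont_closedBall_le hd0 x₀ hl.le)
    refine h1.trans (ENNReal.ofReal_le_ofReal ?_)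
    rw [Real.mul_rpow (by norm_num) hl.le]
    have h2 : 1 ≤ (L₁ * (N / Λ)) ^ k := by
      apply one_le_pow₀
      rw [← mul_div_assoc, le_div_iff₀ hΛ]
      linarith
    have h3 : (0 : ℝ) ≤ (N / Λ) ^ k := by positivity
    calc (2 : ℝ) ^ d * l ^ d ≤ (2 : ℝ) ^ d * (L₁ * (N / Λ)) ^ k * l ^ d := by
          apply mul_le_mul_of_nonneg_right _ hld.le
          exact le_mul_of_one_le_right (by positivity) h2
      _ = (2 ^ d * L₁ ^ k) * (N / Λ) ^ k * l ^ d := by rw [mul_pow]; ring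
      _ ≤ B * (N / Λ) ^ k * l ^ d := by gcongr
  · push Not at hcase
    have hbN0 : 0 < b * N := by positivity
    have hbN : 2 * (b * N) ≤ Λ := by
      have h1 : L₁ * N = 2 * ((k : ℝ) + 1) * (b * N) := by rw [hL]; ring
      nlinarith
    have hΛ' : 0 < Λ - b * N := by linarith
    have hΛ'W : Λ - b * N ≤ W := by
      have : b * N₃ ≤ b * N := mul_le_mul_of_nonneg_left hN hb.le
      linarith
    set P : Set (En n) := {x ∈ closedBall x₀ (3 / 2 * l) |
      2 ^ ((1 - η) * N) * Dg u x (K₀ * ρ * l) < Dg u x (2 * K₀ * ρ * l)} with hP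
    have hP2 : P ⊆ closedBall x₀ (2 * l) := fun x hx =>
      closedBall_subset_closedBall (by linarith) hx.1
    have hnoind : ¬ ∃ x : Fin n → En n, (∀ i, x i ∈ P) ∧ Indep (τ * l) x := by
      rintro ⟨x, hx, hind⟩
      exact hpin A u x₀ l N H hN ⟨x, fun i => ⟨hP2 (hx i), (hx i).2⟩, hind⟩
    obtain ⟨t, htP, htc, htcard⟩ := hcov x₀ l P hl hP2 hnoind
    obtain ⟨G, hGcard, hGsub, hGc⟩ := hM x₀ l hl
    -- a smallness set of the big ball inside a small ball
    have hsmall : ∀ x ∈ closedBall x₀ (3 / 2 * l), ∀ θ : ℝ, ρ ≤ θ → θ ≤ 1 / 4 →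
        S ∩ closedBall x (θ * l) ⊆ {y ∈ closedBall x (θ * l) |
          ‖gradient u y‖ ≤ Real.exp (-(Λ - b * N)) * Dg u x (θ * l)} := by
      intro x hx θ h1 h2 y hy
      refine ⟨hy.2, hy.1.2.trans ?_⟩
      have h3 := hrat A u x₀ l N H hN x hx θ h1 h2
      calc Real.exp (-Λ) * Dg u x₀ l ≤
            Real.exp (-Λ) * (Real.exp (b * N) * Dg u x (θ * l)) :=
            mul_le_mul_of_nonneg_left h3 (Real.exp_pos _).le
        _ = _ := by
            rw [← mul_assoc, ← Real.exp_add]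
            ring_nf
    have hpos : ∀ x ∈ closedBall x₀ (3 / 2 * l), ∀ θ : ℝ, ρ ≤ θ → θ ≤ 1 / 4 →
        0 < Dg u x (θ * l) := by
      intro x hx θ h1 h2
      have h3 := hrat A u x₀ l N H hN x hx θ h1 h2
      have h4 := H.pos
      by_contra h5
      have h6 : Dg u x (θ * l) = 0 := le_antisymm (not_lt.1 h5) (Dg_nonneg _ _ _)
      rw [h6, mul_zero] at h3
      linarith
    -- balls around pinched points
    have hbad : ∀ q ∈ t, cont n d (S ∩ closedBall q (9 * τ * l)) ≤
        ENNReal.ofReal (B * ((1 + ε) * N / (Λ - b * N)) ^ k * (9 * τ * l) ^ d) := by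
      intro q hq
      have hqP : q ∈ P := htP hq
      have hq3 : q ∈ closedBall x₀ (3 / 2 * l) := hqP.1
      have h9 : 9 * τ ≤ 1 / 4 := by linarith
      have h9ρ : ρ ≤ 9 * τ := by linarith
      obtain ⟨hsol, hnear⟩ := LOC_sub hK hs0 H hq3 (θ := 9 * τ) (by positivity) h9
      have Hq : LOCHyp K₀ s₀ A u q (9 * τ * l) ((1 + ε) * N) := by
        refine ⟨by positivity, hsol, hnear, ?_, hpos q hq3 _ h9ρ h9⟩
        intro x hx
        have hx2 : x ∈ closedBall x₀ (2 * l) := by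
          have h1 := mem_closedBall.1 hx
          have h2 := mem_closedBall.1 hq3
          rw [mem_closedBall]
          have h3 := dist_triangle x q x₀
          have h4 : 9 * τ * l ≤ 1 / 4 * l := mul_le_mul_of_nonneg_right h9 hl.le
          linarith
        have h3 := hup A u x₀ l N H hN x hx2 (9 * τ * (K₀ * l)) (18 * τ * (K₀ * l))
          (by
            have : ρ * l ≤ 9 * τ * l := mul_le_mul_of_nonneg_right h9ρ hl.le
            have h8 : 9 * τ * l * 1 ≤ 9 * τ * l * K₀ :=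
              mul_le_mul_of_nonneg_left (by linarith) (by positivity)
            linarith)
          (by linarith)
          (by
            have : 18 * τ * (K₀ * l) ≤ 1 / 2 * (K₀ * l) :=
              mul_le_mul_of_nonneg_right (by linarith) (by positivity)
            linarith)
        have h4 : 18 * τ * (K₀ * l) / (9 * τ * (K₀ * l)) = 2 := by
          have : K₀ ≠ 0 := by linarith
          field_simp
          norm_num
        rw [h4] at h3
        have e1 : 2 * K₀ * (9 * τ * l) = 18 * τ * (K₀ * l) := by ring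
        have e2 : K₀ * (9 * τ * l) = 9 * τ * (K₀ * l) := by ring
        rw [e1, e2]
        exact h3
      refine (cont_mono (hsmall q hq3 (9 * τ) h9ρ h9)).trans ?_
      exact IH A u q (9 * τ * l) ((1 + ε) * N) (Λ - b * N) Hq (by nlinarith) hΛ' hΛ'W
    -- good balls
    have hgood : ∀ q ∈ G.filter (fun q => Disjoint (closedBall q (2 * (ρ * l))) P),
        cont n d (S ∩ closedBall q (ρ * l)) ≤
        ENNReal.ofReal (B * ((1 - η) * N / (Λ - b * N)) ^ k * (ρ * l) ^ d +
          Cb * Real.exp (-(bb * (Λ - b * N))) * (ρ * l) ^ d) := by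
      intro q hq
      obtain ⟨hqG, hdis⟩ := Finset.mem_filter.1 hq
      have hq1 := mem_closedBall.1 (hGsub q hqG)
      have hq3 : q ∈ closedBall x₀ (3 / 2 * l) := mem_closedBall.2 (by linarith)
      have hρ4 : ρ ≤ 1 / 4 := by linarith
      obtain ⟨hsol, hnear⟩ := LOC_sub hK hs0 H hq3 (θ := ρ) hρ hρ4
      have hdbl : ∀ x ∈ closedBall q (2 * (ρ * l)),
          Dg u x (2 * K₀ * (ρ * l)) ≤ 2 ^ ((1 - η) * N) * Dg u x (K₀ * (ρ * l)) := by
        intro x hx
        have hx3 : x ∈ closedBall x₀ (3 / 2 * l) := by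
          have h1 := mem_closedBall.1 hx
          rw [mem_closedBall]
          have h2 := dist_triangle x q x₀
          have h3 : ρ * l ≤ 1 / 4 * l := mul_le_mul_of_nonneg_right hρ4 hl.le
          linarith
        have hxP : x ∉ P := fun h => (Set.disjoint_left.1 hdis) hx h
        by_contra hcon
        apply hxP
        refine ⟨hx3, ?_⟩
        rw [not_le] at hcon
        have e1 : 2 * K₀ * (ρ * l) = 2 * K₀ * ρ * l := by ring
        have e2 : K₀ * (ρ * l) = K₀ * ρ * l := by ring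
        rwa [e1, e2] at hcon
      have hposq := hpos q hq3 ρ le_rfl hρ4
      have hρl : 0 < (ρ * l) ^ d := Real.rpow_pos_of_pos (by positivity) d
      refine (cont_mono (hsmall q hq3 ρ le_rfl hρ4)).trans ?_
      by_cases hbig : N₃ ≤ (1 - η) * N
      · have Hq : LOCHyp K₀ s₀ A u q (ρ * l) ((1 - η) * N) :=
          ⟨by positivity, hsol, hnear, hdbl, hposq⟩
        refine (IH A u q (ρ * l) ((1 - η) * N) (Λ - b * N) Hq hbig hΛ' hΛ'W).trans ?_
        apply ENNReal.ofReal_le_ofReal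
        have : 0 ≤ Cb * Real.exp (-(bb * (Λ - b * N))) * (ρ * l) ^ d := by positivity
        linarith
      · have Hq : LOCHyp K₀ s₀ A u q (ρ * l) N₃ := by
          refine ⟨by positivity, hsol, hnear, fun x hx => (hdbl x hx).trans ?_, hposq⟩
          apply mul_le_mul_of_nonneg_right _ (Dg_nonneg _ _ _)
          exact Real.rpow_le_rpow_of_exponent_le (by norm_num) (not_le.1 hbig).le
        refine (hbase A u q (ρ * l) (Λ - b * N) Hq hΛ'.le).trans ?_
        apply ENNReal.ofReal_le_ofReal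
        have h1 : 0 ≤ 1 - η := by linarith
        have : 0 ≤ B * ((1 - η) * N / (Λ - b * N)) ^ k * (ρ * l) ^ d := by positivity
        linarith
    -- the covering
    have hcover : S ⊆ (⋃ q ∈ t, S ∩ closedBall q (9 * τ * l)) ∪
        (⋃ q ∈ G.filter (fun q => Disjoint (closedBall q (2 * (ρ * l))) P),
          S ∩ closedBall q (ρ * l)) := by
      intro x hx
      obtain ⟨q, hqG, hxq⟩ := hGc x hx.1
      by_cases hdis : Disjoint (closedBall q (2 * (ρ * l))) P
      · right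
        exact mem_iUnion₂.2 ⟨q, Finset.mem_filter.2 ⟨hqG, hdis⟩, hx, mem_closedBall.2 hxq⟩
      · left
        obtain ⟨y, hy, hyP⟩ := Set.not_disjoint_iff.1 hdis
        obtain ⟨c, hct, hyc⟩ := htc y hyP
        refine mem_iUnion₂.2 ⟨c, hct, hx, ?_⟩
        rw [mem_closedBall]
        have h1 := mem_closedBall'.1 hy
        have h2 := dist_triangle x q c
        have h3 := dist_triangle q y c
        have h4 : 3 * ρ * l ≤ τ * l := mul_le_mul_of_nonneg_right hρτ hl.le
        linarith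
    have hX : 0 ≤ B * ((1 + ε) * N / (Λ - b * N)) ^ k * (9 * τ * l) ^ d := by positivity
    have hY : 0 ≤ B * ((1 - η) * N / (Λ - b * N)) ^ k * (ρ * l) ^ d +
        Cb * Real.exp (-(bb * (Λ - b * N))) * (ρ * l) ^ d := by
      have h1 : 0 ≤ 1 - η := by linarith
      positivity
    have hGM : ((G.filter (fun q => Disjoint (closedBall q (2 * (ρ * l))) P)).card : ℝ) ≤ M := by
      have : (G.filter (fun q => Disjoint (closedBall q (2 * (ρ * l))) P)).card ≤ M :=
        (Finset.card_filter_le _ _).trans hGcard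
      exact_mod_cast this
    refine (cont_mono hcover).trans ((LOC_union hd0 _ _).trans ?_)
    refine (add_le_add (LOC_sum hd0 t _ _ hX (t.card : ℝ) le_rfl hbad)
      (LOC_sum hd0 _ _ _ hY (M : ℝ) hGM hgood)).trans ?_
    rw [← ENNReal.ofReal_add (by positivity) (by positivity)]
    apply ENNReal.ofReal_le_ofReal
    exact LOC_num (k1 := (k : ℝ) + 1) hη0 hη1 hε0 hρ hτ hCb hbb hb hN0 hl rfl hL hcase
      (Nat.cast_nonneg M) hB hQ htcard hτ2 hk hε

theorem LOC (hPIN : StmtPIN) (hCOV : StmtCOV) (hSL : StmtSL) (hBASE : StmtBASE) : StmtLOC := by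
  intro n d hn hd
  have hn2 : (2 : ℝ) ≤ n := by exact_mod_cast hn
  have hd0 : 0 < d := by linarith
  obtain ⟨Cn, hCn, hcov⟩ := hCOV n hn
  obtain ⟨τ, hτ0, hτ1, hτ2⟩ := LOC_tau n d hn hd Cn hCn
  obtain ⟨K₀, η, ρ, s₁, N₁, hK, hη0, hη1, hρ0, hρτ, hs₁, hN₁, hpin⟩ :=
    hPIN n τ hn hτ0 (by linarith)
  obtain ⟨M, hM⟩ := LOC_net n ρ hρ0
  have hρd : 0 < ρ ^ d := Real.rpow_pos_of_pos hρ0 d
  -- the exponent
  obtain ⟨k, hk0, hk⟩ : ∃ k : ℕ, 0 < k ∧ (M : ℝ) * ρ ^ d * (1 - η) ^ k ≤ 1 / 16 := by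
    obtain ⟨k, hk⟩ := exists_pow_lt_of_lt_one (x := 1 / (16 * ((M : ℝ) * ρ ^ d + 1)))
      (y := 1 - η) (by positivity) (by linarith)
    refine ⟨k + 1, Nat.succ_pos k, ?_⟩
    have h1 : (1 - η) ^ (k + 1) ≤ (1 - η) ^ k := by
      rw [pow_succ]
      have : 0 ≤ (1 - η) ^ k := pow_nonneg (by linarith) k
      nlinarith
    have h2 : (1 - η) ^ (k + 1) ≤ 1 / (16 * ((M : ℝ) * ρ ^ d + 1)) := h1.trans hk.le
    calc (M : ℝ) * ρ ^ d * (1 - η) ^ (k + 1)
        ≤ ((M : ℝ) * ρ ^ d + 1) * (1 / (16 * ((M : ℝ) * ρ ^ d + 1))) := by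
          apply mul_le_mul _ h2 (pow_nonneg (by linarith) _) (by positivity)
          linarith
      _ = 1 / 16 := by
          have : (M : ℝ) * ρ ^ d + 1 ≠ 0 := by positivity
          field_simp
  obtain ⟨ε, hε0, hε1, hεk⟩ : ∃ ε : ℝ, 0 < ε ∧ ε < 1 ∧ (1 + ε) ^ k ≤ 2 := by
    have hlog : 0 < Real.log 2 := Real.log_pos (by norm_num)
    have hlog1 : Real.log 2 < 1 := by
      have := Real.log_two_lt_d9
      linarith
    refine ⟨Real.log 2 / (k + 1), by positivity, ?_, ?_⟩
    · rw [div_lt_one (by positivity)]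
      have : (0 : ℝ) ≤ k := Nat.cast_nonneg k
      linarith
    · calc (1 + Real.log 2 / (k + 1)) ^ k ≤ (Real.exp (Real.log 2 / (k + 1))) ^ k := by
            apply pow_le_pow_left₀ (by positivity)
            have := Real.add_one_le_exp (Real.log 2 / ((k : ℝ) + 1))
            linarith
        _ = Real.exp (k * (Real.log 2 / (k + 1))) := by rw [← Real.exp_nat_mul]
        _ ≤ Real.exp (Real.log 2) := by
            apply Real.exp_le_exp.2
            rw [← mul_div_assoc, div_le_iff₀ (by positivity)]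
            nlinarith
        _ = 2 := Real.exp_log (by norm_num)
  obtain ⟨s₂, N₂, hs₂, hN₂, hsl⟩ := hSL n ε (ρ / K₀) 2 (by omega) hε0 hε1 (by positivity)
    (by norm_num) le_rfl
  have hsl' : ∀ (A : En n → Op n) (u : En n → ℝ) (x : En n) (R N : ℝ), 0 < R →
      Sol A u (ball x (4 * R)) → Near s₂ (s₂ / R) A (ball x (4 * R)) → N₂ ≤ N →
      Dg u x (2 * R) ≤ 2 ^ N * Dg u x R → ∀ r r', ρ / K₀ * R ≤ r → 2 * r ≤ r' → r' ≤ R / 2 →
      Dg u x r' ≤ (r' / r) ^ ((1 + ε) * N) * Dg u x r :=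
    fun A u x R N h1 h2 h3 h4 => (hsl A u x R N h1 h2 h3 h4).1
  obtain ⟨N₃, hN₃⟩ : ∃ N₃ : ℝ, N₃ = max 1 (max N₁ N₂) := ⟨_, rfl⟩
  have hN31 : 1 ≤ N₃ := hN₃ ▸ le_max_left _ _
  have hN3a : N₁ ≤ N₃ := hN₃ ▸ (le_max_left _ _).trans (le_max_right _ _)
  have hN3b : N₂ ≤ N₃ := hN₃ ▸ (le_max_right _ _).trans (le_max_right _ _)
  obtain ⟨s₃, Cb, bb, hs₃, hCb, hbb, hbase⟩ := hBASE n d K₀ N₃ hn hd hK (by linarith)
  obtain ⟨s₀, hs₀⟩ : ∃ s₀ : ℝ, s₀ = min s₁ (min (s₂ / K₀) s₃) := ⟨_, rfl⟩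
  have hK0 : 0 < K₀ := by linarith
  have hs0 : 0 < s₀ := by
    rw [hs₀]; exact lt_min hs₁ (lt_min (by positivity) hs₃)
  have hs0a : s₀ ≤ s₁ := hs₀ ▸ min_le_left _ _
  have hs0b : s₀ ≤ s₂ / K₀ := hs₀ ▸ (min_le_right _ _).trans (min_le_left _ _)
  have hs0c : s₀ ≤ s₃ := hs₀ ▸ (min_le_right _ _).trans (min_le_right _ _)
  obtain ⟨b, hbdef⟩ : ∃ b : ℝ, b = 2 * Real.log (K₀ / (2 * ρ)) := ⟨_, rfl⟩
  have hb : 0 < b := by
    rw [hbdef]
    have : (1 : ℝ) < K₀ / (2 * ρ) := by
      rw [lt_div_iff₀ (by positivity)]; linarith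
    have := Real.log_pos this
    positivity
  obtain ⟨L₁, hL⟩ : ∃ L₁ : ℝ, L₁ = 2 * ((k : ℝ) + 1) * b := ⟨_, rfl⟩
  have hL0 : 0 < L₁ := by rw [hL]; positivity
  obtain ⟨B, hBdef⟩ : ∃ B : ℝ, B = 2 ^ d * L₁ ^ k +
      4 * (M : ℝ) * ρ ^ d * Cb * (k.factorial : ℝ) * (2 / bb) ^ k + 1 := ⟨_, rfl⟩
  have hQ0 : 0 ≤ 4 * (M : ℝ) * ρ ^ d * Cb * (k.factorial : ℝ) * (2 / bb) ^ k := by positivity
  have hL0' : 0 ≤ (2 : ℝ) ^ d * L₁ ^ k := by positivity
  have hB : 0 < B := by rw [hBdef]; linarith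
  have hB1 : 2 ^ d * L₁ ^ k ≤ B := by rw [hBdef]; linarith
  have hQ : 4 * (M : ℝ) * ρ ^ d * Cb * (k.factorial : ℝ) * (2 / bb) ^ k ≤ B := by
    rw [hBdef]; linarith
  have hup : ∀ (A : En n → Op n) (u : En n → ℝ) (x₀ : En n) (l N : ℝ),
      LOCHyp K₀ s₀ A u x₀ l N → N₃ ≤ N → ∀ x ∈ closedBall x₀ (2 * l), ∀ r r' : ℝ,
      ρ * l ≤ r → 2 * r ≤ r' → r' ≤ K₀ * l / 2 →
      Dg u x r' ≤ (r' / r) ^ ((1 + ε) * N) * Dg u x r := by
    intro A u x₀ l N H hN x hx r r' h1 h2 h3
    refine LOC_up hK hs0b hs₂ hsl' H (hN3b.trans hN) hx ?_ h2 h3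
    have : ρ / K₀ * (K₀ * l) = ρ * l := by field_simp
    rw [this]; exact h1
  have hrat : ∀ (A : En n → Op n) (u : En n → ℝ) (x₀ : En n) (l N : ℝ),
      LOCHyp K₀ s₀ A u x₀ l N → N₃ ≤ N → ∀ x ∈ closedBall x₀ (3 / 2 * l), ∀ θ : ℝ,
      ρ ≤ θ → θ ≤ 1 / 4 → Dg u x₀ l ≤ Real.exp (b * N) * Dg u x (θ * l) := by
    intro A u x₀ l N H hN x hx θ h1 h2
    exact LOC_ratio hK hε1.le hρ0 hbdef H (by linarith) (hup A u x₀ l N H hN) hx h1 h2
  have hpin' : ∀ (A : En n → Op n) (u : En n → ℝ) (x₀ : En n) (l N : ℝ),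
      LOCHyp K₀ s₀ A u x₀ l N → N₃ ≤ N →
      ¬ ∃ x : Fin n → En n, (∀ i, x i ∈ closedBall x₀ (2 * l) ∧
          2 ^ ((1 - η) * N) * Dg u (x i) (K₀ * ρ * l) < Dg u (x i) (2 * K₀ * ρ * l)) ∧
        Indep (τ * l) x := by
    rintro A u x₀ l N H hN ⟨x, hx, hind⟩
    have hl := H.hl
    refine hpin A u x₀ l N H.hl H.sol (H.near.mono hs0a ?_ subset_rfl) (hN3a.trans hN)
      ⟨x, fun i => ⟨(hx i).1, H.dbl _ (hx i).1, (hx i).2⟩, hind⟩
    gcongr
  have hbase' : ∀ (A : En n → Op n) (u : En n → ℝ) (x₀ : En n) (l Λ : ℝ),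
      LOCHyp K₀ s₀ A u x₀ l N₃ → 0 ≤ Λ →
      cont n d {x ∈ closedBall x₀ l | ‖gradient u x‖ ≤ Real.exp (-Λ) * Dg u x₀ l} ≤
        ENNReal.ofReal (Cb * Real.exp (-(bb * Λ)) * l ^ d) := by
    intro A u x₀ l Λ H hΛ
    have hl := H.hl
    refine hbase A u x₀ l Λ H.hl H.sol (H.near.mono hs0c ?_ subset_rfl) H.dbl H.pos hΛ
    gcongr
  have key : ∀ (j : ℕ) (A : En n → Op n) (u : En n → ℝ) (x₀ : En n) (l N Λ : ℝ),
      LOCHyp K₀ s₀ A u x₀ l N → N₃ ≤ N → 0 < Λ → Λ ≤ j * (b * N₃) →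
      cont n d {x ∈ closedBall x₀ l | ‖gradient u x‖ ≤ Real.exp (-Λ) * Dg u x₀ l} ≤
        ENNReal.ofReal (B * (N / Λ) ^ k * l ^ d) := by
    intro j
    induction j with
    | zero =>
      intro A u x₀ l N Λ _ _ h1 h2
      simp only [Nat.cast_zero, zero_mul] at h2
      linarith
    | succ j IH =>
      intro A u x₀ l N Λ H hN hΛ hΛj
      refine LOC_step hd0 hK hs0 hN31 hη0 hη1 hε0 hρ0 hρτ hτ0 hτ1 hCb hbb hb hL hτ2 hk hεk
        hQ hB1 hB hM (fun x₀ l P h1 h2 h3 => hcov τ x₀ l P hτ0 (by linarith) h1 h2 h3)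
        hpin' hup hrat hbase' IH A u x₀ l N Λ H hN hΛ ?_
      push_cast at hΛj
      linarith
  refine ⟨K₀, s₀, N₃, B, (k : ℝ), hK, hs0, hN31, hB, by exact_mod_cast hk0, ?_⟩
  intro A u x₀ l N Λ hl hsol hnear hN hdbl hpos hΛ
  have hbN : 0 < b * N₃ := by positivity
  obtain ⟨j, hj⟩ := exists_nat_ge (Λ / (b * N₃))
  rw [Real.rpow_natCast]
  refine key j A u x₀ l N Λ ⟨hl, hsol, hnear, hdbl, hpos⟩ hN hΛ ?_
  rwa [div_le_iff₀ hbN] at hj

end EAGrad

end

section

/-!
MP_ea6116_an: logarithmic convexity for harmonic functions, bilinear form.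
-/

set_option autoImplicit false

open MeasureTheory Metric Set Filter Topology
open scoped ENNReal NNReal ContDiff

namespace EAGrad

variable {n : ℕ}

/-! ### The cutoff functions -/

theorem LOGC_eta_smooth : ContDiff ℝ ∞ eta := by
  unfold eta
  exact Real.smoothTransition.contDiff.comp (by fun_prop)

theorem LOGC_eta_zero {t : ℝ} (ht : 1 / 2 ≤ t) : eta t = 0 := by
  unfold eta
  exact Real.smoothTransition.zero_of_nonpos (by linarith)

/-- Primitive of `eta` vanishing for `t ≥ 1/2`. -/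
noncomputable def LOGC_Eta (t : ℝ) : ℝ := ∫ s in (1 / 2 : ℝ)..t, eta s

theorem LOGC_Eta_hasDerivAt (t : ℝ) : HasDerivAt LOGC_Eta (eta t) t :=
  (LOGC_eta_smooth.continuous.integral_hasStrictDerivAt (1 / 2) t).hasDerivAt

theorem LOGC_Eta_smooth : ContDiff ℝ ∞ LOGC_Eta := by
  rw [contDiff_infty_iff_deriv]
  refine ⟨fun t => (LOGC_Eta_hasDerivAt t).differentiableAt, ?_⟩
  have h : deriv LOGC_Eta = eta := funext fun t => (LOGC_Eta_hasDerivAt t).deriv
  rw [h]
  exact LOGC_eta_smooth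

theorem LOGC_Eta_zero {t : ℝ} (ht : 1 / 2 ≤ t) : LOGC_Eta t = 0 := by
  unfold LOGC_Eta
  apply intervalIntegral.integral_zero_ae
  refine ae_of_all _ fun s hs => ?_
  rw [uIoc_of_le ht] at hs
  exact LOGC_eta_zero hs.1.le

/-- A potential of the field `z ↦ wt z • z`. -/
noncomputable def LOGC_Th (z : En n) : ℝ := 2 * LOGC_Eta (‖z‖ ^ 2 / 4)

theorem LOGC_Th_smooth : ContDiff ℝ ∞ (LOGC_Th (n := n)) := by
  unfold LOGC_Th
  exact contDiff_const.mul (LOGC_Eta_smooth.comp ((contDiff_norm_sq ℝ).div_const 4))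

theorem LOGC_wt_smooth : ContDiff ℝ ∞ (wt (n := n)) := by
  unfold wt
  exact LOGC_eta_smooth.comp ((contDiff_norm_sq ℝ).div_const 4)

theorem LOGC_wt_zero {z : En n} (hz : 2 ≤ ‖z‖ ^ 2) : wt z = 0 :=
  LOGC_eta_zero (by linarith)

theorem LOGC_Th_zero {z : En n} (hz : 2 ≤ ‖z‖ ^ 2) : LOGC_Th z = 0 := by
  unfold LOGC_Th
  rw [LOGC_Eta_zero (by linarith), mul_zero]

theorem LOGC_cs {f : En n → ℝ} (h : ∀ z : En n, 2 ≤ ‖z‖ ^ 2 → f z = 0) : HasCompactSupport f := by
  apply HasCompactSupport.of_support_subset_isCompact (isCompact_closedBall (0 : En n) 2)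
  intro z hz
  rw [mem_closedBall_zero_iff]
  by_contra hc
  push Not at hc
  exact hz (h z (by nlinarith))

theorem LOGC_Th_fderiv (z v : En n) : fderiv ℝ LOGC_Th z v = wt z * inner ℝ z v := by
  have h1 : HasFDerivAt (fun z : En n => ‖z‖ ^ 2) (2 • (innerSL ℝ) z) z := by
    have := (hasFDerivAt_id (𝕜 := ℝ) z).norm_sq
    simpa using this
  have h2 : HasFDerivAt (fun z : En n => ‖z‖ ^ 2 / 4) ((4 : ℝ)⁻¹ • (2 • (innerSL ℝ) z)) z := by
    have := h1.const_mul ((4 : ℝ)⁻¹)
    refine this.congr_of_eventuallyEq (Eventually.of_forall fun y => ?_)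
    simp only
    ring
  have h3 := ((LOGC_Eta_hasDerivAt (‖z‖ ^ 2 / 4)).comp_hasFDerivAt z h2).const_mul 2
  have h4 : fderiv ℝ (LOGC_Th (n := n)) z =
      (2 : ℝ) • (eta (‖z‖ ^ 2 / 4) • ((4 : ℝ)⁻¹ • (2 • (innerSL ℝ) z))) := h3.fderiv
  rw [h4]
  simp only [wt, smul_apply, innerSL_apply_apply, smul_eq_mul, nsmul_eq_mul]
  push_cast
  ring

theorem LOGC_sum_basis (z : En n) (L : En n →L[ℝ] ℝ) :
    ∑ i : Fin n, inner ℝ z (ee i) * L (ee i) = L z := by
  have h1 : z = ∑ i : Fin n, (inner ℝ z (ee i)) • (ee i : En n) := by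
    have := (EuclideanSpace.basisFun (Fin n) ℝ).sum_repr z
    conv_lhs => rw [← this]
    refine Finset.sum_congr rfl fun i _ => ?_
    simp [ee, EuclideanSpace.inner_single_right]
  conv_rhs => rw [h1]
  rw [map_sum]
  refine Finset.sum_congr rfl fun i _ => ?_
  rw [map_smul, smul_eq_mul]

/-! ### Green's identity with weight -/

theorem LOGC_fd_smooth {g : En n → ℝ} (h : ContDiff ℝ ∞ g) (v : En n) :
    ContDiff ℝ ∞ (fun z => fderiv ℝ g z v) :=
  (h.fderiv_right (m := ∞) (by simp)).clm_apply contDiff_const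

theorem LOGC_fd_fderiv {g : En n → ℝ} (h : ContDiff ℝ ∞ g) (z v w : En n) :
    fderiv ℝ (fun z => fderiv ℝ g z v) z w = D2 g z w v := by
  have hd : DifferentiableAt ℝ (fderiv ℝ g) z :=
    (h.fderiv_right (m := ∞) (by simp)).differentiable (by simp) z
  have h1 := hd.hasFDerivAt.clm_apply (hasFDerivAt_const v z)
  rw [h1.fderiv]
  simp [D2]

theorem LOGC_green {g1 g2 : En n → ℝ} (h1 : ContDiff ℝ ∞ g1) (h2 : ContDiff ℝ ∞ g2)
    (hl1 : ∀ z : En n, ‖z‖ ^ 2 < 2 → lap g1 z = 0)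
    (hl2 : ∀ z : En n, ‖z‖ ^ 2 < 2 → lap g2 z = 0) :
    ∫ z, (-(fderiv ℝ g1 z z) * g2 z + g1 z * fderiv ℝ g2 z z) * wt z = 0 := by
  set W : Fin n → En n → ℝ := fun i z =>
    -(fderiv ℝ g1 z (ee i)) * g2 z + g1 z * fderiv ℝ g2 z (ee i) with hW
  have hWs : ∀ i, ContDiff ℝ ∞ (W i) := fun i =>
    ((LOGC_fd_smooth h1 _).neg.mul h2).add (h1.mul (LOGC_fd_smooth h2 _))
  have hTh := LOGC_Th_smooth (n := n)
  have hThc : HasCompactSupport (LOGC_Th (n := n)) := LOGC_cs fun z hz => LOGC_Th_zero hz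
  have e1 : ∀ z, (-(fderiv ℝ g1 z z) * g2 z + g1 z * fderiv ℝ g2 z z) * wt z =
      ∑ i, W i z * fderiv ℝ LOGC_Th z (ee i) := by
    intro z
    have s1 := LOGC_sum_basis z (fderiv ℝ g1 z)
    have s2 := LOGC_sum_basis z (fderiv ℝ g2 z)
    simp only [LOGC_Th_fderiv, hW]
    rw [← s1, ← s2, Finset.mul_sum, ← Finset.sum_neg_distrib, Finset.sum_mul,
      ← Finset.sum_add_distrib, Finset.sum_mul]
    refine Finset.sum_congr rfl fun i _ => ?_
    ring
  have e2 : ∀ i, ∫ z, W i z * fderiv ℝ LOGC_Th z (ee i) =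
      - ∫ z, fderiv ℝ (W i) z (ee i) * LOGC_Th z := by
    intro i
    have := ibp (u := W i) (f := LOGC_Th) (U := univ) isOpen_univ
      ((hWs i).of_le (by norm_cast)).contDiffOn (hTh.of_le (by norm_cast)) hThc
      (subset_univ _) (ee i)
    linarith
  have e3 : ∀ i z, fderiv ℝ (W i) z (ee i) =
      -(D2 g1 z (ee i) (ee i)) * g2 z + g1 z * D2 g2 z (ee i) (ee i) := by
    intro i z
    have d1 : DifferentiableAt ℝ g1 z := h1.differentiable (by simp) z
    have d2 : DifferentiableAt ℝ g2 z := h2.differentiable (by simp) z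
    have d3 : DifferentiableAt ℝ (fun z => fderiv ℝ g1 z (ee i)) z :=
      (LOGC_fd_smooth h1 _).differentiable (by simp) z
    have d4 : DifferentiableAt ℝ (fun z => fderiv ℝ g2 z (ee i)) z :=
      (LOGC_fd_smooth h2 _).differentiable (by simp) z
    have h5 := ((d3.hasFDerivAt.neg).mul d2.hasFDerivAt).add (d1.hasFDerivAt.mul d4.hasFDerivAt)
    have h6 : fderiv ℝ (W i) z = _ := h5.fderiv
    rw [h6]
    simp only [add_apply, smul_apply, neg_apply, smul_eq_mul, Pi.neg_apply,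
      LOGC_fd_fderiv h1, LOGC_fd_fderiv h2]
    ring
  have c1 : ∀ i, Integrable (fun z => W i z * fderiv ℝ LOGC_Th z (ee i)) := by
    intro i
    apply Continuous.integrable_of_hasCompactSupport
    · exact (hWs i).continuous.mul (LOGC_fd_smooth hTh _).continuous
    · apply LOGC_cs
      intro z hz
      rw [LOGC_Th_fderiv, LOGC_wt_zero hz]
      ring
  have c2 : ∀ i, Integrable (fun z => fderiv ℝ (W i) z (ee i) * LOGC_Th z) := by
    intro i
    apply Continuous.integrable_of_hasCompactSupport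
    · exact (LOGC_fd_smooth (hWs i) _).continuous.mul hTh.continuous
    · apply LOGC_cs
      intro z hz
      rw [LOGC_Th_zero hz]
      ring
  simp_rw [e1]
  rw [integral_finsetSum _ fun i _ => c1 i]
  simp_rw [e2]
  rw [Finset.sum_neg_distrib, ← integral_finsetSum _ fun i _ => c2 i]
  rw [neg_eq_zero]
  have e4 : ∀ z, ∑ i, fderiv ℝ (W i) z (ee i) * LOGC_Th z = 0 := by
    intro z
    by_cases hz : 2 ≤ ‖z‖ ^ 2
    · simp [LOGC_Th_zero hz]
    · push Not at hz
      have l1 := hl1 z hz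
      have l2 := hl2 z hz
      unfold lap at l1 l2
      rw [← Finset.sum_mul]
      simp only [e3]
      rw [Finset.sum_add_distrib, ← Finset.mul_sum, ← Finset.sum_mul, Finset.sum_neg_distrib,
        l1, l2]
      simp
  simp [e4]

/-! ### Dilations -/

theorem LOGC_dil_smooth {G : En n → ℝ} (h : ContDiff ℝ ∞ G) (a : ℝ) :
    ContDiff ℝ ∞ (fun z => G (a • z)) := h.comp (contDiff_const_smul a)

theorem LOGC_dil_fderiv {G : En n → ℝ} (a : ℝ) (z v : En n) :
    fderiv ℝ (fun z => G (a • z)) z v = fderiv ℝ G (a • z) (a • v) := by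
  rw [fderiv_comp_smul, map_smul]
  rfl

theorem LOGC_dil_lap {G : En n → ℝ} (hG : ContDiff ℝ ∞ G) (a : ℝ) (z : En n) :
    lap (fun z => G (a • z)) z = a ^ 2 * lap G (a • z) := by
  unfold lap D2
  have h1 : fderiv ℝ (fun z => G (a • z)) = fun z => a • fderiv ℝ G (a • z) := by
    funext y
    exact fderiv_comp_smul a
  rw [h1, Finset.mul_sum]
  refine Finset.sum_congr rfl fun i _ => ?_
  have h2 : fderiv ℝ (fun z => a • fderiv ℝ G (a • z)) z =
      a • (a • fderiv ℝ (fderiv ℝ G) (a • z)) := by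
    have hd : DifferentiableAt ℝ (fderiv ℝ G) (a • z) :=
      (hG.fderiv_right (m := ∞) (by simp)).differentiable (by simp) _
    have h3 : HasFDerivAt (fun z : En n => a • z) (a • ContinuousLinearMap.id ℝ (En n)) z :=
      (hasFDerivAt_id z).const_smul a
    have h4 := (hd.hasFDerivAt.comp z h3).const_smul a
    have h5 : fderiv ℝ (fun z => a • fderiv ℝ G (a • z)) z = _ := h4.fderiv
    rw [h5]
    ext v w
    simp
  rw [h2]
  simp only [smul_apply, smul_eq_mul]
  ring

/-- The main computation for globally defined functions. -/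
theorem LOGC_const {G : En n → ℝ} (hG : ContDiff ℝ ∞ G) {r ρ : ℝ} (hr : 0 < r)
    (hρ : ∀ z : En n, ‖z‖ ^ 2 < 2 → ‖(4 * r) • z‖ < ρ) (hl : ∀ x ∈ ball (0 : En n) ρ, lap G x = 0) :
    ∫ z : En n, G ((2 * r) • z) * G ((2 * r) • z) * wt z =
      ∫ z : En n, G (r • z) * G ((4 * r) • z) * wt z := by
  set a : ℝ → ℝ := fun t => 2 * r * Real.exp (-t) with ha
  set b : ℝ → ℝ := fun t => 2 * r * Real.exp t with hb
  set F : ℝ → En n → ℝ := fun t z => G (a t • z) * G (b t • z) * wt z with hF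
  set F' : ℝ → En n → ℝ := fun t z => (-(fderiv ℝ G (a t • z) (a t • z)) * G (b t • z) +
    G (a t • z) * fderiv ℝ G (b t • z) (b t • z)) * wt z with hF'
  have hac : Continuous a := by fun_prop
  have hbc : Continuous b := by fun_prop
  have hGc := hG.continuous
  have hDG : Continuous (fderiv ℝ G) := hG.continuous_fderiv (by simp)
  have hwc : Continuous (wt (n := n)) := LOGC_wt_smooth.continuous
  have hFc : Continuous (fun p : ℝ × En n => F p.1 p.2) := by
    simp only [hF]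
    fun_prop
  have hFc' : Continuous (fun p : ℝ × En n => F' p.1 p.2) := by
    simp only [hF']
    have i1 : Continuous (fun p : ℝ × En n => a p.1 • p.2) := by fun_prop
    have i2 : Continuous (fun p : ℝ × En n => b p.1 • p.2) := by fun_prop
    have i3 : Continuous (fun p : ℝ × En n => fderiv ℝ G (a p.1 • p.2) (a p.1 • p.2)) :=
      (hDG.comp i1).clm_apply i1
    have i4 : Continuous (fun p : ℝ × En n => fderiv ℝ G (b p.1 • p.2) (b p.1 • p.2)) :=
      (hDG.comp i2).clm_apply i2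
    exact ((i3.neg.mul (hGc.comp i2)).add ((hGc.comp i1).mul i4)).mul (hwc.comp continuous_snd)
  have hF0 : ∀ t (z : En n), 2 ≤ ‖z‖ ^ 2 → F t z = 0 := fun t z hz => by
    simp only [hF]
    rw [LOGC_wt_zero hz, mul_zero]
  have hF0' : ∀ t (z : En n), 2 ≤ ‖z‖ ^ 2 → F' t z = 0 := fun t z hz => by
    simp only [hF']
    rw [LOGC_wt_zero hz, mul_zero]
  have hder : ∀ t z, HasDerivAt (fun t => F t z) (F' t z) t := by
    intro t z
    have e1 : HasDerivAt a (-(a t)) t := by
      have := ((hasDerivAt_neg t).exp).const_mul (2 * r)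
      simpa [ha] using this
    have e2 : HasDerivAt b (b t) t := (Real.hasDerivAt_exp t).const_mul (2 * r)
    have e3 : HasDerivAt (fun t => a t • z) (-(a t) • z) t := e1.smul_const z
    have e4 : HasDerivAt (fun t => b t • z) (b t • z) t := e2.smul_const z
    have e5 := ((hG.differentiable (by simp)) (a t • z)).hasFDerivAt.comp_hasDerivAt t e3
    have e6 := ((hG.differentiable (by simp)) (b t • z)).hasFDerivAt.comp_hasDerivAt t e4
    have e7 := (e5.mul e6).mul_const (wt z)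
    refine e7.congr_deriv ?_
    simp only [hF', Function.comp, neg_smul, map_neg]
  set J : ℝ → ℝ := fun t => ∫ z, F t z with hJ
  have hJd : ∀ t, HasDerivAt J (∫ z, F' t z) t := by
    intro t
    have hK : IsCompact (Icc (t - 1) (t + 1) ×ˢ closedBall (0 : En n) 2) :=
      isCompact_Icc.prod (isCompact_closedBall _ _)
    obtain ⟨C, hC⟩ := hK.exists_bound_of_continuousOn hFc'.continuousOn
    have key := hasDerivAt_integral_of_dominated_loc_of_deriv_le (μ := volume)
      (F := F) (x₀ := t) (s := Icc (t - 1) (t + 1))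
      (bound := (closedBall (0 : En n) 2).indicator fun _ => C) (F' := F')
      (Icc_mem_nhds (by linarith) (by linarith))
      (Eventually.of_forall fun s => by
        have : Continuous (F s) := hFc.comp (by fun_prop : Continuous fun z : En n => (s, z))
        exact this.aestronglyMeasurable)
      (by
        have : Continuous (F t) := hFc.comp (by fun_prop : Continuous fun z : En n => (t, z))
        exact this.integrable_of_hasCompactSupport (LOGC_cs (hF0 t)))
      (by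
        have : Continuous (F' t) := hFc'.comp (by fun_prop : Continuous fun z : En n => (t, z))
        exact this.aestronglyMeasurable)
      (ae_of_all _ fun z s hs => by
        by_cases hz : z ∈ closedBall (0 : En n) 2
        · rw [indicator_of_mem hz]
          exact hC (s, z) ⟨hs, hz⟩
        · rw [indicator_of_notMem hz, hF0' s z ?_, norm_zero]
          rw [mem_closedBall_zero_iff] at hz
          push Not at hz
          nlinarith)
      ((integrable_indicator_iff measurableSet_closedBall).2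
        (integrableOn_const (hs := measure_closedBall_lt_top.ne)))
      (ae_of_all _ fun z s _ => hder s z)
    exact key.2
  have hJ0 : ∀ t ∈ Icc 0 (Real.log 2), ∫ z, F' t z = 0 := by
    intro t ht
    have hexp1 : Real.exp (-t) ≤ 1 := by
      rw [Real.exp_le_one_iff]
      linarith [ht.1]
    have hexp2 : Real.exp t ≤ 2 := by
      have := Real.exp_le_exp.2 ht.2
      rwa [Real.exp_log (by norm_num)] at this
    have hsmall : ∀ (c : ℝ), 0 ≤ c → c ≤ 4 * r → ∀ z : En n, ‖z‖ ^ 2 < 2 →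
        lap (fun z => G (c • z)) z = 0 := by
      intro c hc0 hc z hz
      rw [LOGC_dil_lap hG, hl, mul_zero]
      rw [mem_ball_zero_iff]
      refine lt_of_le_of_lt ?_ (hρ z hz)
      rw [norm_smul, norm_smul, Real.norm_of_nonneg hc0, Real.norm_of_nonneg (by positivity)]
      gcongr
    have hg := LOGC_green (LOGC_dil_smooth hG (a t)) (LOGC_dil_smooth hG (b t))
      (hsmall (a t) (by simp only [ha]; positivity) (by
        simp only [ha]
        nlinarith [Real.exp_pos (-t)]))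
      (hsmall (b t) (by simp only [hb]; positivity) (by
        simp only [hb]
        nlinarith [Real.exp_pos t]))
    simp only [LOGC_dil_fderiv] at hg
    exact hg
  have hconst := constant_of_has_deriv_right_zero (f := J) (a := 0) (b := Real.log 2)
    (fun t _ => (hJd t).continuousAt.continuousWithinAt)
    (fun t ht => by
      have := (hJd t).hasDerivWithinAt (s := Ici t)
      rwa [hJ0 t (Ico_subset_Icc_self ht)] at this)
    (Real.log 2) ⟨(Real.log_pos (by norm_num)).le, le_rfl⟩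
  have v0 : J 0 = ∫ z : En n, G ((2 * r) • z) * G ((2 * r) • z) * wt z := by
    simp only [hJ, hF, ha, hb, neg_zero, Real.exp_zero, mul_one]
  have v1 : J (Real.log 2) = ∫ z : En n, G (r • z) * G ((4 * r) • z) * wt z := by
    have w1 : a (Real.log 2) = r := by
      simp only [ha, Real.exp_neg, Real.exp_log (show (0 : ℝ) < 2 by norm_num)]
      ring
    have w2 : b (Real.log 2) = 4 * r := by
      simp only [hb, Real.exp_log (show (0 : ℝ) < 2 by norm_num)]
      ring
    simp only [hJ, hF, w1, w2]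
  rw [← v0, ← v1, hconst]

/-- Logarithmic convexity for harmonic functions, in bilinear form. -/
theorem LOGC : StmtLOGC := by
  intro n g R r hn hr hR hg hl
  -- a global extension
  let χ : ContDiffBump (0 : En n) := ⟨29 / 5 * r, 59 / 10 * r, by positivity, by linarith⟩
  have hχs : tsupport (χ : En n → ℝ) ⊆ ball 0 R := by
    rw [χ.tsupport_eq]
    exact closedBall_subset_ball (by show 59 / 10 * r < R; linarith)
  set G : En n → ℝ := fun x => χ x * g x with hGdef
  have hG : ContDiff ℝ ∞ G := by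
    rw [contDiff_iff_contDiffAt]
    intro x
    by_cases hx : x ∈ ball (0 : En n) R
    · exact χ.contDiff.contDiffAt.mul ((hg x hx).contDiffAt (isOpen_ball.mem_nhds hx))
    · have h1 : G =ᶠ[𝓝 x] fun _ => 0 := by
        have h2 : (tsupport (χ : En n → ℝ))ᶜ ∈ 𝓝 x :=
          (isClosed_tsupport _).isOpen_compl.mem_nhds fun h => hx (hχs h)
        filter_upwards [h2] with y hy
        simp [hGdef, image_eq_zero_of_notMem_tsupport hy]
      exact contDiffAt_const.congr_of_eventuallyEq h1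
  have hGg : ∀ x ∈ ball (0 : En n) (29 / 5 * r), G x = g x := by
    intro x hx
    have : χ x = 1 := χ.one_of_mem_closedBall (ball_subset_closedBall hx)
    simp [hGdef, this]
  have hGl : ∀ x ∈ ball (0 : En n) (29 / 5 * r), lap G x = 0 := by
    intro x hx
    have hxR : x ∈ ball (0 : En n) R := ball_subset_ball (by linarith) hx
    have h1 : G =ᶠ[𝓝 x] g := by
      filter_upwards [isOpen_ball.mem_nhds hx] with y hy using hGg y hy
    have h2 := hl x hxR
    unfold lap D2 at h2 ⊢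
    rw [h1.fderiv.fderiv_eq]
    exact h2
  have hρ : ∀ z : En n, ‖z‖ ^ 2 < 2 → ‖(4 * r) • z‖ < 29 / 5 * r := by
    intro z hz
    have h1 : ‖z‖ < 29 / 20 := by
      by_contra hc
      push Not at hc
      nlinarith
    rw [norm_smul, Real.norm_of_nonneg (by positivity)]
    nlinarith
  have key := LOGC_const hG hr hρ hGl
  have e1 : ∀ c : ℝ, 0 ≤ c → c ≤ 4 * r → ∀ z : En n, ‖z‖ ^ 2 < 2 → G (c • z) = g (c • z) := by
    intro c hc0 hc z hz
    apply hGg
    rw [mem_ball_zero_iff]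
    refine lt_of_le_of_lt ?_ (hρ z hz)
    rw [norm_smul, norm_smul, Real.norm_of_nonneg hc0, Real.norm_of_nonneg (by positivity)]
    gcongr
  have e2 : ∀ z : En n, G ((2 * r) • z) * G ((2 * r) • z) * wt z = g ((2 * r) • z) ^ 2 * wt z := by
    intro z
    by_cases hz : 2 ≤ ‖z‖ ^ 2
    · simp [LOGC_wt_zero hz]
    · push Not at hz
      rw [e1 _ (by positivity) (by linarith) z hz]
      ring
  have e3 : ∀ z : En n, G (r • z) * G ((4 * r) • z) * wt z =
      g (r • z) * g ((4 * r) • z) * wt z := by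
    intro z
    by_cases hz : 2 ≤ ‖z‖ ^ 2
    · simp [LOGC_wt_zero hz]
    · push Not at hz
      rw [e1 _ hr.le (by linarith) z hz, e1 _ (by positivity) le_rfl z hz]
  simp_rw [e2, e3] at key
  exact key

end EAGrad

end

section

/-!
MP_ea6116_an: Friedrichs mollification of a `C¹` weak solution.
-/

set_option autoImplicit false

open MeasureTheory Metric Set Filter Topology
open scoped ENNReal NNReal ContDiff Convolution

namespace EAGrad

variable {n : ℕ}

/-- A mollifier at scale `e`. -/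
structure MOLL_Ker (n : ℕ) (e κ : ℝ) (ρ : En n → ℝ) : Prop where
  smooth : ContDiff ℝ ∞ ρ
  supp : Function.support ρ ⊆ ball 0 e
  cpt : HasCompactSupport ρ
  nonneg : ∀ t, 0 ≤ ρ t
  int_one : ∫ t, ρ t = 1
  grad_int : ∫ t, ‖fderiv ℝ ρ t‖ ≤ κ / e

lemma MOLL_eta_smooth : ContDiff ℝ ∞ eta := by
  unfold eta
  exact Real.smoothTransition.contDiff.comp (contDiff_const.sub (contDiff_const.mul contDiff_id))

lemma MOLL_base_smooth : ContDiff ℝ ∞ (fun z : En n => eta (‖z‖ ^ 2)) :=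
  MOLL_eta_smooth.comp (contDiff_norm_sq ℝ)

lemma MOLL_base_supp : Function.support (fun z : En n => eta (‖z‖ ^ 2)) ⊆ ball 0 1 := by
  intro z hz
  rw [mem_ball_zero_iff]
  by_contra h
  push Not at h
  apply hz
  show eta (‖z‖ ^ 2) = 0
  unfold eta
  apply Real.smoothTransition.zero_of_nonpos
  nlinarith

lemma MOLL_base_cpt : HasCompactSupport (fun z : En n => eta (‖z‖ ^ 2)) :=
  HasCompactSupport.of_support_subset_isCompact (isCompact_closedBall (0 : En n) 1)
    (MOLL_base_supp.trans ball_subset_closedBall)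

lemma MOLL_base_nonneg (z : En n) : 0 ≤ eta (‖z‖ ^ 2) := Real.smoothTransition.nonneg _

lemma MOLL_base_pos : 0 < ∫ z : En n, eta (‖z‖ ^ 2) := by
  refine MOLL_base_smooth.continuous.integral_pos_of_hasCompactSupport_nonneg_nonzero
    MOLL_base_cpt (fun z => MOLL_base_nonneg z) (x := 0) ?_
  simp only [norm_zero]
  unfold eta
  norm_num [Real.smoothTransition.one_of_one_le]

lemma MOLL_exists (n : ℕ) : ∃ κ : ℝ, 0 ≤ κ ∧ ∀ e : ℝ, 0 < e → ∃ ρ, MOLL_Ker n e κ ρ := by
  set I : ℝ := ∫ z : En n, eta (‖z‖ ^ 2) with hI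
  have hIpos : 0 < I := MOLL_base_pos
  set b : En n → ℝ := fun z => eta (‖z‖ ^ 2) / I with hb
  have hbs : ContDiff ℝ ∞ b := MOLL_base_smooth.div_const I
  refine ⟨∫ t, ‖fderiv ℝ b t‖, integral_nonneg fun _ => norm_nonneg _, fun e he => ?_⟩
  have hpow : (0 : ℝ) < (e ^ n)⁻¹ := by positivity
  have hfin : Module.finrank ℝ (En n) = n := by simp
  refine ⟨fun t => (e ^ n)⁻¹ * b (e⁻¹ • t), ?_, ?_, ?_, ?_, ?_, ?_⟩
  · exact contDiff_const.mul (hbs.comp (contDiff_const_smul _))
  · intro t ht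
    have h1 : b (e⁻¹ • t) ≠ 0 := fun h0 => ht (by simp [h0])
    have h2 : e⁻¹ • t ∈ ball (0 : En n) 1 := by
      apply MOLL_base_supp
      intro h0
      apply h1
      simp only [hb]
      rw [show eta (‖e⁻¹ • t‖ ^ 2) = 0 from h0, zero_div]
    rw [mem_ball_zero_iff, norm_smul, norm_inv, Real.norm_of_nonneg he.le] at h2
    rw [mem_ball_zero_iff]
    rwa [inv_mul_lt_iff₀ he, mul_one] at h2
  · refine HasCompactSupport.of_support_subset_isCompact (isCompact_closedBall (0 : En n) e) ?_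
    intro t ht
    have h1 : b (e⁻¹ • t) ≠ 0 := fun h0 => ht (by simp [h0])
    have h2 : e⁻¹ • t ∈ ball (0 : En n) 1 := by
      apply MOLL_base_supp
      intro h0
      apply h1
      simp only [hb]
      rw [show eta (‖e⁻¹ • t‖ ^ 2) = 0 from h0, zero_div]
    rw [mem_ball_zero_iff, norm_smul, norm_inv, Real.norm_of_nonneg he.le] at h2
    rw [mem_closedBall_zero_iff]
    rw [inv_mul_lt_iff₀ he, mul_one] at h2
    exact h2.le
  · intro t
    exact mul_nonneg hpow.le (div_nonneg (MOLL_base_nonneg _) hIpos.le)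
  · rw [integral_const_mul, Measure.integral_comp_smul_of_nonneg volume b e⁻¹
      (hR := by positivity), hfin]
    simp only [hb, integral_div, smul_eq_mul]
    rw [← hI, div_self hIpos.ne', inv_pow, inv_inv, mul_one]
    exact inv_mul_cancel₀ (pow_pos he n).ne'
  · have hfd : ∀ t, fderiv ℝ (fun t => (e ^ n)⁻¹ * b (e⁻¹ • t)) t =
        (e ^ n)⁻¹ • (e⁻¹ • fderiv ℝ b (e⁻¹ • t)) := by
      intro t
      have hd : DifferentiableAt ℝ b (e⁻¹ • t) := hbs.differentiable (by simp) _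
      have h1 : HasFDerivAt (fun t : En n => b (e⁻¹ • t)) (e⁻¹ • fderiv ℝ b (e⁻¹ • t)) t := by
        have h2 := hd.hasFDerivAt.comp t ((hasFDerivAt_id t).const_smul e⁻¹)
        refine h2.congr_fderiv ?_
        ext v
        simp
      exact (h1.const_mul _).fderiv
    simp_rw [hfd, norm_smul, norm_inv, norm_pow, Real.norm_of_nonneg he.le]
    rw [integral_const_mul, integral_const_mul,
      Measure.integral_comp_smul_of_nonneg volume (fun t => ‖fderiv ℝ b t‖) e⁻¹
      (hR := by positivity), hfin, smul_eq_mul, inv_pow, inv_inv]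
    apply le_of_eq
    field_simp

/-- The mollification of `g`. -/
noncomputable def MOLL_m {F : Type*} [NormedAddCommGroup F] [NormedSpace ℝ F]
    (ρ : En n → ℝ) (g : En n → F) (x : En n) : F := ∫ t, ρ t • g (x - t)

section conv

variable {F : Type*} [NormedAddCommGroup F] [NormedSpace ℝ F] [CompleteSpace F]
  {e κ : ℝ} {ρ : En n → ℝ} {g : En n → F}

omit [CompleteSpace F] in
lemma MOLL_eq_conv (ρ : En n → ℝ) (g : En n → F) :
    MOLL_m ρ g = (ρ ⋆[ContinuousLinearMap.lsmul ℝ ℝ, volume] g) := by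
  funext x
  simp [MOLL_m, convolution_def]

omit [CompleteSpace F] in
lemma MOLL_smooth (h : MOLL_Ker n e κ ρ) (hg : Integrable g) : ContDiff ℝ ∞ (MOLL_m ρ g) := by
  rw [MOLL_eq_conv]
  exact h.cpt.contDiff_convolution_left _ h.smooth hg.locallyIntegrable

omit [CompleteSpace F] in
lemma MOLL_fderiv (h : MOLL_Ker n e κ ρ) (hg : Integrable g) (x v : En n) :
    fderiv ℝ (MOLL_m ρ g) x v = ∫ t, (fderiv ℝ ρ t v) • g (x - t) := by
  have h1 := (h.cpt.hasFDerivAt_convolution_left (ContinuousLinearMap.lsmul ℝ ℝ)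
    (μ := volume) (h.smooth.of_le (by norm_cast)) hg.locallyIntegrable x).fderiv
  rw [MOLL_eq_conv, h1, convolution_def]
  have hc : Continuous (fderiv ℝ ρ) := h.smooth.continuous_fderiv (by simp)
  have hcs : HasCompactSupport (fderiv ℝ ρ) := h.cpt.fderiv (𝕜 := ℝ)
  have hint : Integrable (fun t => (ContinuousLinearMap.precompL (En n)
      (ContinuousLinearMap.lsmul ℝ ℝ : ℝ →L[ℝ] F →L[ℝ] F)) (fderiv ℝ ρ t) (g (x - t))) :=
    hcs.convolutionExists_left _ hc hg.locallyIntegrable x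
  rw [ContinuousLinearMap.integral_apply hint]
  simp [ContinuousLinearMap.precompL_apply]

lemma MOLL_close (h : MOLL_Ker n e κ ρ) (hg : Integrable g) {x : En n} {z : F} {δ : ℝ}
    (hδ : 0 ≤ δ) (hx : ∀ y ∈ ball x e, ‖g y - z‖ ≤ δ) : ‖MOLL_m ρ g x - z‖ ≤ δ := by
  rw [MOLL_eq_conv, ← dist_eq_norm]
  refine dist_convolution_le hδ h.supp h.nonneg h.int_one hg.aestronglyMeasurable ?_
  intro y hy
  rw [dist_eq_norm]
  exact hx y hy

omit [CompleteSpace F] in
lemma MOLL_int (h : MOLL_Ker n e κ ρ) (hg : Integrable g) (x : En n) :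
    Integrable (fun t => ρ t • g (x - t)) :=
  h.cpt.convolutionExists_left (ContinuousLinearMap.lsmul ℝ ℝ) h.smooth.continuous
    hg.locallyIntegrable x

lemma MOLL_clm {F' : Type*} [NormedAddCommGroup F'] [NormedSpace ℝ F'] [CompleteSpace F']
    (h : MOLL_Ker n e κ ρ) (hg : Integrable g) (L : F →L[ℝ] F') (x : En n) :
    MOLL_m ρ (fun y => L (g y)) x = L (MOLL_m ρ g x) := by
  unfold MOLL_m
  rw [← L.integral_comp_comm (MOLL_int h hg x)]
  simp

lemma MOLL_tsupp (h : MOLL_Ker n e κ ρ) : tsupport ρ ⊆ closedBall 0 e :=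
  closure_minimal (h.supp.trans ball_subset_closedBall) isClosed_closedBall

lemma MOLL_fderiv_zero (h : MOLL_Ker n e κ ρ) {t : En n} (ht : t ∉ closedBall (0 : En n) e) :
    fderiv ℝ ρ t = 0 := by
  have h1 : t ∉ tsupport ρ := fun h2 => ht (MOLL_tsupp h h2)
  have h2 : ρ =ᶠ[𝓝 t] fun _ => 0 := notMem_tsupport_iff_eventuallyEq.1 h1
  rw [h2.fderiv_eq]
  simp

end conv

section refl

variable {e κ : ℝ} {ρ : En n → ℝ}

lemma MOLL_int' (h : MOLL_Ker n e κ ρ) {g : En n → En n} (hg : Integrable g) (x : En n) :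
    Integrable (fun t => fderiv ℝ ρ t (g (x - t))) := by
  have hc : Continuous (fderiv ℝ ρ) := h.smooth.continuous_fderiv (by simp)
  have hcs : HasCompactSupport (fderiv ℝ ρ) := h.cpt.fderiv (𝕜 := ℝ)
  exact hcs.convolutionExists_left (ContinuousLinearMap.id ℝ (En n →L[ℝ] ℝ)) hc
    hg.locallyIntegrable x

lemma MOLL_ee (L : En n →L[ℝ] ℝ) (w : En n) : ∑ i, inner ℝ (ee i) (L (ee i) • w) = L w := by
  have h1 : w = ∑ i, (inner ℝ (ee i) w) • (ee i : En n) := by
    have := (EuclideanSpace.basisFun (Fin n) ℝ).sum_repr' w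
    simpa [ee] using this.symm
  conv_rhs => rw [h1, map_sum]
  refine Finset.sum_congr rfl fun i _ => ?_
  rw [inner_smul_right, map_smul, smul_eq_mul, mul_comm]

lemma MOLL_dv (h : MOLL_Ker n e κ ρ) {g : En n → En n} (hg : Integrable g) (x : En n) :
    dv (MOLL_m ρ g) x = ∫ t, fderiv ℝ ρ t (g (x - t)) := by
  have hc : Continuous (fderiv ℝ ρ) := h.smooth.continuous_fderiv (by simp)
  have hcs : HasCompactSupport (fderiv ℝ ρ) := h.cpt.fderiv (𝕜 := ℝ)
  have hint : ∀ v : En n, Integrable (fun t => (fderiv ℝ ρ t v) • g (x - t)) := fun v =>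
    (hcs.comp_left (g := fun L : En n →L[ℝ] ℝ => L v) (by simp)).convolutionExists_left
      (ContinuousLinearMap.lsmul ℝ ℝ) (hc.clm_apply continuous_const) hg.locallyIntegrable x
  unfold dv
  have h1 : ∀ i : Fin n, inner ℝ (ee i) (fderiv ℝ (MOLL_m ρ g) x (ee i)) =
      ∫ t, inner ℝ (ee i) ((fderiv ℝ ρ t (ee i)) • g (x - t)) := by
    intro i
    rw [MOLL_fderiv h hg]
    exact ((innerSL ℝ (ee i : En n)).integral_comp_comm (hint (ee i))).symm
  simp_rw [h1]
  have h2 : ∀ i ∈ (Finset.univ : Finset (Fin n)),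
      Integrable (fun t => inner ℝ (ee i) ((fderiv ℝ ρ t (ee i)) • g (x - t))) := fun i _ =>
    (innerSL ℝ (ee i : En n)).integrable_comp (hint (ee i))
  rw [← integral_finsetSum _ h2]
  congr 1
  funext t
  exact MOLL_ee _ _

lemma MOLL_f_smooth (h : MOLL_Ker n e κ ρ) (x : En n) : ContDiff ℝ ∞ (fun y => ρ (x - y)) :=
  h.smooth.comp (contDiff_const.sub contDiff_id)

lemma MOLL_f_tsupp (h : MOLL_Ker n e κ ρ) (x : En n) :
    tsupport (fun y => ρ (x - y)) ⊆ closedBall x e := by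
  refine closure_minimal ?_ isClosed_closedBall
  intro y hy
  have h1 : x - y ∈ ball (0 : En n) e := h.supp hy
  rw [mem_ball_zero_iff] at h1
  rw [mem_closedBall', dist_eq_norm]
  exact h1.le

lemma MOLL_f_cpt (h : MOLL_Ker n e κ ρ) (x : En n) : HasCompactSupport (fun y => ρ (x - y)) :=
  HasCompactSupport.of_support_subset_isCompact (isCompact_closedBall x e)
    ((subset_tsupport _).trans (MOLL_f_tsupp h x))

lemma MOLL_f_fderiv (h : MOLL_Ker n e κ ρ) (x y v : En n) :
    fderiv ℝ (fun y => ρ (x - y)) y v = - fderiv ℝ ρ (x - y) v := by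
  have hd : DifferentiableAt ℝ ρ (x - y) := h.smooth.differentiable (by simp) _
  have h1 : HasFDerivAt (fun y : En n => x - y) (-ContinuousLinearMap.id ℝ (En n)) y := by
    simpa using (hasFDerivAt_id y).const_sub x
  have h2 := (hd.hasFDerivAt.comp y h1).fderiv
  have h3 : (fun y => ρ (x - y)) = ρ ∘ (fun y => x - y) := rfl
  rw [h3, h2]
  simp

lemma MOLL_gradient (h : MOLL_Ker n e κ ρ) {A : En n → Op n} {u : En n → ℝ} {D K1 : Set (En n)}
    (hs : Sol A u D) (hK1 : IsCompact K1) (hKD : K1 ⊆ D) {z : En n}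
    (hz : closedBall z e ⊆ K1) :
    gradient (MOLL_m ρ (K1.indicator u)) z = MOLL_m ρ (K1.indicator (gradient u)) z := by
  have hu1 : Integrable (K1.indicator u) :=
    (hs.c1.continuousOn.mono hKD).integrableOn_compact hK1 |>.integrable_indicator
      hK1.measurableSet
  have hg1 : Integrable (K1.indicator (gradient u)) :=
    (hs.continuousOn_gradient.mono hKD).integrableOn_compact hK1 |>.integrable_indicator
      hK1.measurableSet
  refine ext_inner_right ℝ fun v => ?_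
  rw [inner_gradient, MOLL_fderiv h hu1]
  have e1 : inner ℝ (MOLL_m ρ (K1.indicator (gradient u)) z) v =
      ∫ t, ρ t * inner ℝ (K1.indicator (gradient u) (z - t)) v := by
    have := MOLL_clm h hg1 (innerSL ℝ v) z
    simp only [innerSL_apply_apply] at this
    rw [real_inner_comm, ← this]
    unfold MOLL_m
    simp only [smul_eq_mul]
    congr 1
    funext t
    rw [real_inner_comm]
  rw [e1]
  have h1 := ibp hs.isOpen hs.c1 ((MOLL_f_smooth h z).of_le (by norm_cast)) (MOLL_f_cpt h z)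
    ((MOLL_f_tsupp h z).trans (hz.trans hKD)) v
  have h2 : ∫ t, (fderiv ℝ ρ t v) • K1.indicator u (z - t) =
      ∫ y, (fderiv ℝ ρ (z - y) v) • K1.indicator u y := by
    rw [← integral_sub_left_eq_self (fun y => (fderiv ℝ ρ (z - y) v) • K1.indicator u y)
      volume z]
    simp
  have h3 : ∫ t, ρ t * inner ℝ (K1.indicator (gradient u) (z - t)) v =
      ∫ y, ρ (z - y) * inner ℝ (K1.indicator (gradient u) y) v := by
    rw [← integral_sub_left_eq_self
      (fun y => ρ (z - y) * inner ℝ (K1.indicator (gradient u) y) v) volume z]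
    simp
  have h4 : ∫ y, (fderiv ℝ ρ (z - y) v) • K1.indicator u y =
      - ∫ y, u y * fderiv ℝ (fun y => ρ (z - y)) y v := by
    rw [← integral_neg]
    congr 1
    funext y
    rw [MOLL_f_fderiv h]
    by_cases hy : y ∈ closedBall z e
    · rw [indicator_of_mem (hz hy)]
      simp only [smul_eq_mul]
      ring
    · have : z - y ∉ closedBall (0 : En n) e := by
        rw [mem_closedBall', dist_eq_norm] at hy
        rwa [mem_closedBall_zero_iff]
      rw [MOLL_fderiv_zero h this]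
      simp
  have h5 : ∫ y, ρ (z - y) * inner ℝ (K1.indicator (gradient u) y) v =
      ∫ y, fderiv ℝ u y v * ρ (z - y) := by
    congr 1
    funext y
    by_cases hy : y ∈ closedBall z e
    · rw [indicator_of_mem (hz hy), inner_gradient, mul_comm]
    · have : ρ (z - y) = 0 := by
        by_contra hne
        exact hy (MOLL_f_tsupp h z (subset_tsupport _ hne))
      rw [this]
      simp
  rw [h2, h3, h4, h5, h1]

lemma MOLL_weak (h : MOLL_Ker n e κ ρ) {A : En n → Op n} {u : En n → ℝ} {D K1 : Set (En n)}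
    (hs : Sol A u D) (hKD : K1 ⊆ D) {z : En n} (hz : closedBall z e ⊆ K1) :
    ∫ t, fderiv ℝ ρ t (K1.indicator (fun y => A y (gradient u y)) (z - t)) = 0 := by
  have h1 := hs.weak _ (MOLL_f_smooth h z) (MOLL_f_cpt h z)
    ((MOLL_f_tsupp h z).trans (hz.trans hKD))
  have h2 : ∫ t, fderiv ℝ ρ t (K1.indicator (fun y => A y (gradient u y)) (z - t)) =
      ∫ y, fderiv ℝ ρ (z - y) (K1.indicator (fun y => A y (gradient u y)) y) := by
    rw [← integral_sub_left_eq_self
      (fun y => fderiv ℝ ρ (z - y) (K1.indicator (fun y => A y (gradient u y)) y)) volume z]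
    simp
  have h3 : ∫ y, fderiv ℝ ρ (z - y) (K1.indicator (fun y => A y (gradient u y)) y) =
      - ∫ y, inner ℝ (A y (gradient u y)) (gradient (fun y => ρ (z - y)) y) := by
    rw [← integral_neg]
    congr 1
    funext y
    rw [real_inner_comm, inner_gradient, MOLL_f_fderiv h, neg_neg]
    by_cases hy : y ∈ closedBall z e
    · rw [indicator_of_mem (hz hy)]
    · have : z - y ∉ closedBall (0 : En n) e := by
        rw [mem_closedBall', dist_eq_norm] at hy
        rwa [mem_closedBall_zero_iff]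
      rw [MOLL_fderiv_zero h this]
      simp
  rw [h2, h3, h1, neg_zero]

/-- The divergence of the mollified field. -/
lemma MOLL_divA (h : MOLL_Ker n e κ ρ) (he : 0 < e) {A : En n → Op n} {u : En n → ℝ}
    {D K1 : Set (En n)} {s ε1 : ℝ}
    (hs : Sol A u D) (hnear : Near s s A D) (hK1 : IsCompact K1) (hKD : K1 ⊆ D) {x : En n}
    {R : ℝ} (heR : e < R) (hz : closedBall x R ⊆ K1) (hs0 : 0 ≤ s) (hε1 : 0 ≤ ε1)
    (hosc : ∀ y ∈ closedBall x e, ‖gradient u y - gradient u x‖ ≤ ε1) :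
    |divA (MOLL_m ρ (K1.indicator A)) (MOLL_m ρ (K1.indicator u)) x| ≤ 4 * κ * s * ε1 := by
  have hAc : ContinuousOn A D := by
    have : LipschitzOnWith (Real.toNNReal s) A D :=
      LipschitzOnWith.of_dist_le_mul fun a ha b hb => by
        rw [dist_eq_norm, dist_eq_norm, Real.coe_toNNReal _ hs0]
        exact hnear.lip a ha b hb
    exact this.continuousOn
  have hAG : ContinuousOn (fun y => A y (gradient u y)) K1 :=
    (hAc.mono hKD).clm_apply (hs.continuousOn_gradient.mono hKD)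
  have hA1 : Integrable (K1.indicator A) :=
    (hAc.mono hKD).integrableOn_compact hK1 |>.integrable_indicator hK1.measurableSet
  have hu1 : Integrable (K1.indicator u) :=
    (hs.c1.continuousOn.mono hKD).integrableOn_compact hK1 |>.integrable_indicator
      hK1.measurableSet
  have hg1 : Integrable (K1.indicator (gradient u)) :=
    (hs.continuousOn_gradient.mono hKD).integrableOn_compact hK1 |>.integrable_indicator
      hK1.measurableSet
  have hAG1 : Integrable (K1.indicator (fun y => A y (gradient u y))) :=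
    hAG.integrableOn_compact hK1 |>.integrable_indicator hK1.measurableSet
  set A1 := K1.indicator A with hA1d
  set G1 := K1.indicator (gradient u) with hG1d
  set A' := MOLL_m ρ A1 with hA'
  set u' := MOLL_m ρ (K1.indicator u) with hu'
  have hex : closedBall x e ⊆ K1 := (closedBall_subset_closedBall heR.le).trans hz
  have hgr : ∀ᶠ y in 𝓝 x, gradient u' y = MOLL_m ρ G1 y := by
    filter_upwards [ball_mem_nhds x (sub_pos.2 heR)] with y hy
    refine MOLL_gradient h hs hK1 hKD ?_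
    refine (closedBall_subset_closedBall' ?_).trans hz
    have := mem_ball.1 hy
    linarith
  set w0 := gradient u' x with hw0
  have hw0' : w0 = MOLL_m ρ G1 x := hgr.self_of_nhds
  have hdA : DifferentiableAt ℝ A' x := (MOLL_smooth h hA1).differentiable (by simp) x
  have hdG : DifferentiableAt ℝ (MOLL_m ρ G1) x := (MOLL_smooth h hg1).differentiable (by simp) x
  have hg2 : Integrable (fun y => A1 y w0) :=
    (ContinuousLinearMap.apply ℝ (En n) w0).integrable_comp hA1
  have hg3 : Integrable (fun y => A' x (G1 y)) := (A' x).integrable_comp hg1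
  have hfd : ∀ v, fderiv ℝ (fun y => A' y (gradient u' y)) x v =
      fderiv ℝ (MOLL_m ρ (fun y => A1 y w0)) x v +
      fderiv ℝ (MOLL_m ρ (fun y => A' x (G1 y))) x v := by
    intro v
    have e1 : (fun y => A' y (gradient u' y)) =ᶠ[𝓝 x] fun y => A' y (MOLL_m ρ G1 y) := by
      filter_upwards [hgr] with y hy
      rw [hy]
    rw [e1.fderiv_eq, (hdA.hasFDerivAt.clm_apply hdG.hasFDerivAt).fderiv]
    have e2 : MOLL_m ρ (fun y => A1 y w0) = fun y => A' y w0 := by
      funext y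
      exact MOLL_clm h hA1 (ContinuousLinearMap.apply ℝ (En n) w0) y
    have e3 : MOLL_m ρ (fun y => A' x (G1 y)) = fun y => A' x (MOLL_m ρ G1 y) := by
      funext y
      exact MOLL_clm h hg1 (A' x) y
    have e4 : fderiv ℝ (fun y => A' x (MOLL_m ρ G1 y)) x =
        (A' x).comp (fderiv ℝ (MOLL_m ρ G1) x) :=
      ((A' x).hasFDerivAt.comp x hdG.hasFDerivAt).fderiv
    rw [e2, e3, (hdA.hasFDerivAt.clm_apply (hasFDerivAt_const w0 x)).fderiv, e4, ← hw0']
    simp [add_comm]
  have hdiv : divA A' u' x = dv (MOLL_m ρ (fun y => A1 y w0)) x +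
      dv (MOLL_m ρ (fun y => A' x (G1 y))) x := by
    unfold divA dv
    rw [← Finset.sum_add_distrib]
    refine Finset.sum_congr rfl fun i _ => ?_
    rw [hfd, inner_add_right]
  rw [hdiv, MOLL_dv h hg2, MOLL_dv h hg3]
  have hwk := MOLL_weak h hs hKD hex
  have hcst : ∫ t, fderiv ℝ ρ t (A' x w0) = 0 :=
    integral_fderiv_eq_zero (h.smooth.of_le (by norm_cast)) h.cpt _
  have i1 := MOLL_int' h hg2 x
  have i2 := MOLL_int' h hg3 x
  have i3 := MOLL_int' h hAG1 x
  have hc : Continuous (fderiv ℝ ρ) := h.smooth.continuous_fderiv (by simp)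
  have hcs : HasCompactSupport (fderiv ℝ ρ) := h.cpt.fderiv (𝕜 := ℝ)
  have i4 : Integrable (fun t => fderiv ℝ ρ t (A' x w0)) :=
    (hc.clm_apply continuous_const).integrable_of_hasCompactSupport
      (hcs.comp_left (g := fun L : En n →L[ℝ] ℝ => L (A' x w0)) (by simp))
  have htot : (∫ t, fderiv ℝ ρ t (A1 (x - t) w0)) + ∫ t, fderiv ℝ ρ t (A' x (G1 (x - t))) =
      ∫ t, fderiv ℝ ρ t ((A' x - A1 (x - t)) (G1 (x - t) - w0)) := by
    have e1 : (∫ t, fderiv ℝ ρ t (A1 (x - t) w0)) + ∫ t, fderiv ℝ ρ t (A' x (G1 (x - t))) =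
        ((∫ t, fderiv ℝ ρ t (A1 (x - t) w0)) + ∫ t, fderiv ℝ ρ t (A' x (G1 (x - t)))) -
        ((∫ t, fderiv ℝ ρ t (K1.indicator (fun y => A y (gradient u y)) (x - t))) +
          ∫ t, fderiv ℝ ρ t (A' x w0)) := by
      rw [hwk, hcst]; ring
    have i12 : Integrable (fun t => fderiv ℝ ρ t (A1 (x - t) w0) +
        fderiv ℝ ρ t (A' x (G1 (x - t)))) := i1.add i2
    have i34 : Integrable (fun t =>
        fderiv ℝ ρ t (K1.indicator (fun y => A y (gradient u y)) (x - t)) +
        fderiv ℝ ρ t (A' x w0)) := i3.add i4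
    rw [e1, ← integral_add i1 i2, ← integral_add i3 i4, ← integral_sub i12 i34]
    congr 1
    funext t
    have e4 : K1.indicator (fun y => A y (gradient u y)) (x - t) = A1 (x - t) (G1 (x - t)) := by
      by_cases hm : x - t ∈ K1
      · simp [hA1d, hG1d, indicator_of_mem hm]
      · simp [hA1d, indicator_of_notMem hm]
    rw [e4]
    simp only [sub_apply, map_sub]
    ring
  rw [htot]
  have hxK : x ∈ K1 := hz (mem_closedBall_self (he.le.trans heR.le))
  have hA'x : ‖A' x - A x‖ ≤ s * e := by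
    refine MOLL_close h hA1 (by positivity) fun y hy => ?_
    have hyK : y ∈ K1 := hex (ball_subset_closedBall hy)
    rw [hA1d, indicator_of_mem hyK]
    refine (hnear.lip y (hKD hyK) x (hKD hxK)).trans ?_
    rw [← dist_eq_norm]
    gcongr
    exact (mem_ball.1 hy).le
  have hGx : ‖w0 - gradient u x‖ ≤ ε1 := by
    rw [hw0']
    refine MOLL_close h hg1 hε1 fun y hy => ?_
    have hyK : y ∈ K1 := hex (ball_subset_closedBall hy)
    rw [hG1d, indicator_of_mem hyK]
    exact hosc y (ball_subset_closedBall hy)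
  have hbound : ∀ t, ‖fderiv ℝ ρ t ((A' x - A1 (x - t)) (G1 (x - t) - w0))‖ ≤
      ‖fderiv ℝ ρ t‖ * ((2 * (s * e)) * (2 * ε1)) := by
    intro t
    by_cases ht : t ∈ closedBall (0 : En n) e
    · refine (ContinuousLinearMap.le_opNorm _ _).trans ?_
      refine mul_le_mul_of_nonneg_left ?_ (norm_nonneg _)
      refine (ContinuousLinearMap.le_opNorm _ _).trans ?_
      have hyx : x - t ∈ closedBall x e := by
        rw [mem_closedBall', dist_eq_norm]
        rw [mem_closedBall_zero_iff] at ht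
        simpa using ht
      have hyK : x - t ∈ K1 := hex hyx
      have b1 : ‖A' x - A1 (x - t)‖ ≤ 2 * (s * e) := by
        have : A' x - A1 (x - t) = (A' x - A x) + (A x - A (x - t)) := by
          rw [hA1d, indicator_of_mem hyK]; abel
        rw [this]
        refine (norm_add_le _ _).trans ?_
        have h6 := hnear.lip x (hKD hxK) (x - t) (hKD hyK)
        have h7 : ‖x - (x - t)‖ ≤ e := by
          rw [mem_closedBall_zero_iff] at ht
          simpa using ht
        have h8 : s * ‖x - (x - t)‖ ≤ s * e := mul_le_mul_of_nonneg_left h7 hs0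
        linarith
      have b2 : ‖G1 (x - t) - w0‖ ≤ 2 * ε1 := by
        have : G1 (x - t) - w0 = (gradient u (x - t) - gradient u x) - (w0 - gradient u x) := by
          rw [hG1d, indicator_of_mem hyK]; abel
        rw [this]
        refine (norm_sub_le _ _).trans ?_
        have := hosc _ hyx
        linarith
      exact mul_le_mul b1 b2 (norm_nonneg _) (by positivity)
    · rw [MOLL_fderiv_zero h ht]
      simp
  have hint2 : Integrable (fun t => ‖fderiv ℝ ρ t‖) :=
    (hc.integrable_of_hasCompactSupport hcs).norm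
  have hfin := norm_integral_le_of_norm_le (hint2.mul_const ((2 * (s * e)) * (2 * ε1)))
    (Eventually.of_forall hbound)
  rw [Real.norm_eq_abs] at hfin
  refine hfin.trans ?_
  rw [integral_mul_const]
  calc (∫ t, ‖fderiv ℝ ρ t‖) * ((2 * (s * e)) * (2 * ε1)) ≤
      (κ / e) * ((2 * (s * e)) * (2 * ε1)) :=
        mul_le_mul_of_nonneg_right h.grad_int (by positivity)
    _ = 4 * κ * s * ε1 := by field_simp; ring

end refl

theorem MOLL : StmtMOLL := by
  intro n A u D K s ε hsol hnear hK hKD hε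
  rcases K.eq_empty_or_nonempty with rfl | hKne
  · exact ⟨fun _ => 0, fun _ => 0, contDiff_const, contDiff_const,
      fun x hx => absurd hx (notMem_empty x)⟩
  obtain ⟨κ, hκ, hker⟩ := MOLL_exists n
  have hs0 : 0 ≤ s := by
    obtain ⟨x, hx⟩ := hKne
    exact (norm_nonneg _).trans (hnear.close x (hKD hx))
  obtain ⟨R, hR, hRD⟩ := hK.exists_cthickening_subset_open hsol.isOpen hKD
  set K1 := cthickening R K with hK1d
  have hK1 : IsCompact K1 := hK.cthickening
  set ε1 : ℝ := min ε (ε / (4 * κ * s + 1)) with hε1d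
  have hden : 0 < 4 * κ * s + 1 := by positivity
  have hε1 : 0 < ε1 := lt_min hε (div_pos hε hden)
  have hε1' : 4 * κ * s * ε1 ≤ ε := by
    have h1 : ε1 ≤ ε / (4 * κ * s + 1) := min_le_right _ _
    have h2 : (4 * κ * s + 1) * ε1 ≤ ε := by
      rw [le_div_iff₀ hden] at h1
      linarith
    nlinarith
  have hAc : ContinuousOn A D := by
    have : LipschitzOnWith (Real.toNNReal s) A D :=
      LipschitzOnWith.of_dist_le_mul fun a ha b hb => by
        rw [dist_eq_norm, dist_eq_norm, Real.coe_toNNReal _ hs0]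
        exact hnear.lip a ha b hb
    exact this.continuousOn
  have hucu := hK1.uniformContinuousOn_of_continuous (hsol.c1.continuousOn.mono hRD)
  have hucg := hK1.uniformContinuousOn_of_continuous (hsol.continuousOn_gradient.mono hRD)
  rw [Metric.uniformContinuousOn_iff_le] at hucu hucg
  obtain ⟨η1, hη1, hcu⟩ := hucu ε1 hε1
  obtain ⟨η2, hη2, hcg⟩ := hucg ε1 hε1
  obtain ⟨e, he, heη⟩ : ∃ e : ℝ, 0 < e ∧ e < min (R / 2) (min η1 η2) :=
    exists_between (lt_min (by linarith) (lt_min hη1 hη2))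
  have he1 : e < R / 2 := heη.trans_le (min_le_left _ _)
  have he2 : e ≤ η1 := (heη.trans_le ((min_le_right _ _).trans (min_le_left _ _))).le
  have he3 : e ≤ η2 := (heη.trans_le ((min_le_right _ _).trans (min_le_right _ _))).le
  obtain ⟨ρ, hρ⟩ := hker e he
  have hA1 : Integrable (K1.indicator A) :=
    (hAc.mono hRD).integrableOn_compact hK1 |>.integrable_indicator hK1.measurableSet
  have hu1 : Integrable (K1.indicator u) :=
    (hsol.c1.continuousOn.mono hRD).integrableOn_compact hK1 |>.integrable_indicator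
      hK1.measurableSet
  have hg1 : Integrable (K1.indicator (gradient u)) :=
    (hsol.continuousOn_gradient.mono hRD).integrableOn_compact hK1 |>.integrable_indicator
      hK1.measurableSet
  refine ⟨MOLL_m ρ (K1.indicator A), MOLL_m ρ (K1.indicator u), MOLL_smooth hρ hA1,
    MOLL_smooth hρ hu1, fun x hx => ?_⟩
  have hxR : closedBall x R ⊆ K1 := closedBall_subset_cthickening hx R
  have hxK : x ∈ K1 := hxR (mem_closedBall_self hR.le)
  have hxe : closedBall x e ⊆ K1 := (closedBall_subset_closedBall (by linarith)).trans hxR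
  refine ⟨fun ξ η => ?_, ?_, ?_, ?_, ?_, ?_⟩
  · have e1 : ∀ ξ η : En n, inner ℝ (MOLL_m ρ (K1.indicator A) x ξ) η =
        ∫ t, ρ t * inner ℝ (K1.indicator A (x - t) ξ) η := by
      intro ξ η
      have := MOLL_clm hρ hA1 ((innerSL ℝ η).comp (ContinuousLinearMap.apply ℝ (En n) ξ)) x
      simp only [ContinuousLinearMap.comp_apply, ContinuousLinearMap.apply_apply,
        innerSL_apply_apply] at this
      rw [real_inner_comm, ← this]
      unfold MOLL_m
      simp only [smul_eq_mul]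
      congr 1
      funext t
      rw [real_inner_comm]
    rw [e1, real_inner_comm, e1]
    congr 1
    funext t
    by_cases hm : x - t ∈ K1
    · rw [indicator_of_mem hm, hnear.symm _ (hRD hm), real_inner_comm]
    · rw [indicator_of_notMem hm]
      simp
  · refine MOLL_close hρ hA1 hs0 fun y hy => ?_
    have hyK : y ∈ K1 := hxe (ball_subset_closedBall hy)
    rw [indicator_of_mem hyK]
    exact hnear.close y (hRD hyK)
  · refine norm_fderiv_le_of_lip' ℝ hs0 ?_
    filter_upwards [ball_mem_nhds x (show (0 : ℝ) < R / 2 by linarith)] with y hy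
    have hdiff : MOLL_m ρ (K1.indicator A) y - MOLL_m ρ (K1.indicator A) x =
        ∫ t, ρ t • (K1.indicator A (y - t) - K1.indicator A (x - t)) := by
      unfold MOLL_m
      rw [← integral_sub (MOLL_int hρ hA1 y) (MOLL_int hρ hA1 x)]
      simp_rw [smul_sub]
    rw [hdiff]
    have hρi : Integrable ρ := hρ.smooth.continuous.integrable_of_hasCompactSupport hρ.cpt
    have hb : ∀ t, ‖ρ t • (K1.indicator A (y - t) - K1.indicator A (x - t))‖ ≤
        ρ t * (s * ‖y - x‖) := by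
      intro t
      by_cases ht : t ∈ ball (0 : En n) e
      · rw [norm_smul, Real.norm_of_nonneg (hρ.nonneg t)]
        refine mul_le_mul_of_nonneg_left ?_ (hρ.nonneg t)
        rw [mem_ball_zero_iff] at ht
        have hxt : x - t ∈ K1 := by
          apply hxR
          rw [mem_closedBall, dist_eq_norm]
          simp
          linarith
        have hyt : y - t ∈ K1 := by
          apply hxR
          rw [mem_closedBall, dist_eq_norm]
          have h1 := mem_ball.1 hy
          rw [dist_eq_norm] at h1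
          have h2 : y - t - x = (y - x) - t := by abel
          rw [h2]
          refine (norm_sub_le _ _).trans ?_
          linarith
        rw [indicator_of_mem hxt, indicator_of_mem hyt]
        have := hnear.lip _ (hRD hyt) _ (hRD hxt)
        simpa using this
      · have : ρ t = 0 := by
          by_contra hne
          exact ht (hρ.supp hne)
        rw [norm_smul, this, norm_zero, zero_mul, zero_mul]
    have := norm_integral_le_of_norm_le (hρi.mul_const (s * ‖y - x‖)) (Eventually.of_forall hb)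
    rwa [integral_mul_const, hρ.int_one, one_mul] at this
  · rw [← Real.norm_eq_abs]
    refine MOLL_close hρ hu1 hε.le fun y hy => ?_
    have hyK : y ∈ K1 := hxe (ball_subset_closedBall hy)
    rw [indicator_of_mem hyK, ← dist_eq_norm]
    exact (hcu y hyK x hxK ((mem_ball.1 hy).le.trans he2)).trans (min_le_left _ _)
  · rw [MOLL_gradient hρ hsol hK1 hRD hxe]
    refine MOLL_close hρ hg1 hε.le fun y hy => ?_
    have hyK : y ∈ K1 := hxe (ball_subset_closedBall hy)
    rw [indicator_of_mem hyK, ← dist_eq_norm]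
    exact (hcg y hyK x hxK ((mem_ball.1 hy).le.trans he3)).trans (min_le_left _ _)
  · refine (MOLL_divA hρ he hsol hnear hK1 hRD (by linarith) hxR hs0 hε1.le ?_).trans hε1'
    intro y hy
    rw [← dist_eq_norm]
    exact hcg y (hxe hy) x hxK ((mem_closedBall.1 hy).trans he3)

end EAGrad

end

section

/-!
MP_ea6116_an: approximate mean value formula.
-/

set_option autoImplicit false

open MeasureTheory Metric Set Filter Topology
open scoped ENNReal NNReal ContDiff

namespace EAGrad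

variable {n : ℕ}

/-! ### The cutoff -/

theorem MV_eta_contDiff : ContDiff ℝ ∞ eta := by
  unfold eta
  exact Real.smoothTransition.contDiff.comp (by fun_prop)

theorem MV_eta_zero {t : ℝ} (ht : 1 / 2 ≤ t) : eta t = 0 :=
  Real.smoothTransition.zero_of_nonpos (by linarith)

theorem MV_eta_one {t : ℝ} (ht : t ≤ 1 / 4) : eta t = 1 :=
  Real.smoothTransition.one_of_one_le (by linarith)

theorem MV_eta_nonneg (t : ℝ) : 0 ≤ eta t := Real.smoothTransition.nonneg _

theorem MV_eta_le_one (t : ℝ) : eta t ≤ 1 := Real.smoothTransition.le_one _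

theorem MV_deriv_eta_cont : Continuous (deriv eta) :=
  MV_eta_contDiff.continuous_deriv (by norm_num)

theorem MV_deriv_eta_zero {t : ℝ} (ht : 1 / 2 < t) : deriv eta t = 0 := by
  have h : eta =ᶠ[𝓝 t] fun _ => 0 := by
    filter_upwards [Ioi_mem_nhds ht] with s hs
    exact MV_eta_zero (le_of_lt hs)
  rw [h.deriv_eq]
  simp

theorem MV_deriv_eta_zero' {t : ℝ} (ht : t < 1 / 4) : deriv eta t = 0 := by
  have h : eta =ᶠ[𝓝 t] fun _ => 1 := by
    filter_upwards [Iio_mem_nhds ht] with s hs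
    exact MV_eta_one (le_of_lt hs)
  rw [h.deriv_eq]
  simp

theorem MV_deriv_bound : ∃ L : ℝ, 0 ≤ L ∧ ∀ t, |deriv eta t| ≤ L := by
  obtain ⟨L, hL⟩ := (isCompact_Icc (a := (1 / 4 : ℝ)) (b := 1 / 2)).exists_bound_of_continuousOn
    MV_deriv_eta_cont.continuousOn
  refine ⟨max L 0, le_max_right _ _, fun t => ?_⟩
  by_cases h : t ∈ Icc (1 / 4 : ℝ) (1 / 2)
  · exact (hL t h).trans (le_max_left _ _)
  · rw [mem_Icc, not_and_or, not_le, not_le] at h
    rcases h with h | h
    · rw [MV_deriv_eta_zero' h, abs_zero]; exact le_max_right _ _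
    · rw [MV_deriv_eta_zero h, abs_zero]; exact le_max_right _ _

theorem MV_eta_lip {L : ℝ} (hL : ∀ t, |deriv eta t| ≤ L) (a b : ℝ) :
    |eta a - eta b| ≤ L * |a - b| := by
  have h := Convex.norm_image_sub_le_of_norm_deriv_le (f := eta) (s := univ) (C := L)
    (x := b) (y := a)
    (fun t _ => (MV_eta_contDiff.differentiable (by norm_num)) t) (fun t _ => hL t)
    convex_univ (mem_univ _) (mem_univ _)
  simpa using h

/-! ### The inverse of the matrix at the centre -/

structure MV_Data (s : ℝ) (P S : Op n) : Prop where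
  symmS : ∀ ξ η, inner ℝ (S ξ) η = inner ℝ ξ (S η)
  symmP : ∀ ξ η, inner ℝ (P ξ) η = inner ℝ ξ (P η)
  PS : ∀ ξ, P (S ξ) = ξ
  normS : ‖S‖ ≤ 2
  close : ‖S - 1‖ ≤ 2 * s

theorem MV_exists {s : ℝ} (hs0 : 0 ≤ s) (hs : s ≤ 1 / 8) (P : Op n)
    (hP : ∀ ξ η, inner ℝ (P ξ) η = inner ℝ ξ (P η)) (hP1 : ‖P - 1‖ ≤ s) :
    ∃ S : Op n, MV_Data s P S := by
  have h1 : ‖(1 : Op n) - P‖ ≤ s := by rw [norm_sub_rev]; exact hP1
  have h2 : IsUnit (1 - ((1 : Op n) - P)) := isUnit_one_sub_of_norm_lt_one (by linarith)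
  rw [sub_sub_cancel] at h2
  obtain ⟨U, hU⟩ := h2
  set S : Op n := ↑U⁻¹ with hS
  have hSP : S * P = 1 := by rw [← hU, hS]; exact U.inv_mul
  have hPS : P * S = 1 := by rw [← hU, hS]; exact U.mul_inv
  have hPSa : ∀ ξ, P (S ξ) = ξ := fun ξ => by
    have := congrArg (fun T : Op n => T ξ) hPS
    simpa using this
  have h1n : ‖(1 : Op n)‖ ≤ 1 := ContinuousLinearMap.norm_id_le
  have hSe : S - 1 = S * (1 - P) := by rw [mul_sub, hSP, mul_one]
  have h3 : ‖S - 1‖ ≤ ‖S‖ * s := by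
    rw [hSe]
    exact (norm_mul_le _ _).trans (mul_le_mul_of_nonneg_left h1 (norm_nonneg _))
  have h4 : ‖S‖ ≤ 1 + ‖S‖ * s := by
    calc ‖S‖ = ‖1 + (S - 1)‖ := by rw [add_sub_cancel]
      _ ≤ ‖(1 : Op n)‖ + ‖S - 1‖ := norm_add_le _ _
      _ ≤ 1 + ‖S‖ * s := add_le_add h1n h3
  have h5 : ‖S‖ ≤ 8 / 7 := by
    have : ‖S‖ * s ≤ ‖S‖ * (1 / 8) := mul_le_mul_of_nonneg_left hs (norm_nonneg _)
    linarith
  refine ⟨S, ?_, hP, hPSa, by linarith, ?_⟩
  · intro ξ η
    calc inner ℝ (S ξ) η = inner ℝ (S ξ) (P (S η)) := by rw [hPSa]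
      _ = inner ℝ (P (S ξ)) (S η) := (hP _ _).symm
      _ = inner ℝ ξ (S η) := by rw [hPSa]
  · refine h3.trans ?_
    exact mul_le_mul_of_nonneg_right (by linarith) hs0

/-- the quadratic form -/
noncomputable def MV_Q (S : Op n) (z : En n) : ℝ := inner ℝ (S z) z

/-- the test function -/
noncomputable def MV_psi (S : Op n) (e z : En n) : ℝ := eta (MV_Q S z) * inner ℝ (S z) e

/-- its gradient -/
noncomputable def MV_g (S : Op n) (e z : En n) : En n :=
  eta (MV_Q S z) • S e + (inner ℝ (S z) e * deriv eta (MV_Q S z) * 2) • S z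

/-- the derivative of the kernel -/
noncomputable def MV_k (S : Op n) (e z : En n) : ℝ :=
  inner ℝ (S z) e * deriv eta (MV_Q S z) * 2

theorem MV_Q_contDiff (S : Op n) : ContDiff ℝ ∞ (MV_Q S) := by
  unfold MV_Q
  exact S.contDiff.inner ℝ contDiff_id

theorem MV_Q_hasFDerivAt {s : ℝ} {P S : Op n} (h : MV_Data s P S) (z : En n) :
    HasFDerivAt (MV_Q S) ((2 : ℝ) • innerSL ℝ (S z)) z := by
  have h1 := (S.hasFDerivAt (x := z)).inner ℝ (hasFDerivAt_id z)
  have h2 : (fderivInnerCLM ℝ (S z, id z)).comp (S.prod (ContinuousLinearMap.id ℝ (En n))) =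
      (2 : ℝ) • innerSL ℝ (S z) := by
    ext v
    simp only [ContinuousLinearMap.comp_apply, ContinuousLinearMap.prod_apply,
      fderivInnerCLM_apply, id_eq, ContinuousLinearMap.smul_apply, innerSL_apply_apply,
      smul_eq_mul, ContinuousLinearMap.id_apply]
    rw [h.symmS v z, real_inner_comm (S z) v]
    ring
  rw [h2] at h1
  exact h1

theorem MV_etaQ_hasFDerivAt {s : ℝ} {P S : Op n} (h : MV_Data s P S) (z : En n) :
    HasFDerivAt (fun z => eta (MV_Q S z)) ((deriv eta (MV_Q S z)) • ((2 : ℝ) • innerSL ℝ (S z)))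
      z := by
  have h1 : HasDerivAt eta (deriv eta (MV_Q S z)) (MV_Q S z) :=
    ((MV_eta_contDiff.differentiable (by norm_num)) _).hasDerivAt
  exact h1.comp_hasFDerivAt z (MV_Q_hasFDerivAt h z)

theorem MV_fderiv_etaQ {s : ℝ} {P S : Op n} (h : MV_Data s P S) (z e : En n) :
    fderiv ℝ (fun z => eta (MV_Q S z)) z e = MV_k S e z := by
  rw [(MV_etaQ_hasFDerivAt h z).fderiv]
  simp only [ContinuousLinearMap.smul_apply, innerSL_apply_apply, smul_eq_mul, MV_k]
  ring

theorem MV_gradient_psi {s : ℝ} {P S : Op n} (h : MV_Data s P S) (e z : En n) :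
    gradient (MV_psi S e) z = MV_g S e z := by
  have h1 := MV_etaQ_hasFDerivAt h z
  have h2 : HasFDerivAt (fun z => inner ℝ (S z) e) (innerSL ℝ (S e)) z := by
    have h3 := (S.hasFDerivAt (x := z)).inner ℝ (hasFDerivAt_const e z)
    have h4 : (fderivInnerCLM ℝ (S z, e)).comp (S.prod (0 : En n →L[ℝ] En n)) =
        innerSL ℝ (S e) := by
      ext v
      simp only [ContinuousLinearMap.comp_apply, ContinuousLinearMap.prod_apply,
        fderivInnerCLM_apply, innerSL_apply_apply, ContinuousLinearMap.zero_apply,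
        inner_zero_right, zero_add]
      rw [h.symmS v e, real_inner_comm]
    rw [h4] at h3
    exact h3
  have h5 := h1.mul h2
  have h6 : HasGradientAt (MV_psi S e) (MV_g S e z) z := by
    rw [hasGradientAt_iff_hasFDerivAt]
    refine h5.congr_fderiv ?_
    ext v
    simp only [ContinuousLinearMap.add_apply, ContinuousLinearMap.smul_apply,
      innerSL_apply_apply, smul_eq_mul, InnerProductSpace.toDual_apply_apply, MV_g,
      inner_add_left, real_inner_smul_left]
    ring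
  exact h6.gradient

/-! ### Bounds -/

theorem MV_Q_close {s : ℝ} {P S : Op n} (h : MV_Data s P S) (z : En n) :
    |MV_Q S z - ‖z‖ ^ 2| ≤ 2 * s * ‖z‖ ^ 2 := by
  have h1 : MV_Q S z - ‖z‖ ^ 2 = inner ℝ ((S - 1) z) z := by
    unfold MV_Q
    rw [← real_inner_self_eq_norm_sq, ← inner_sub_left]
    rfl
  rw [h1]
  calc |inner ℝ ((S - 1) z) z| ≤ ‖(S - 1) z‖ * ‖z‖ := abs_real_inner_le_norm _ _
    _ ≤ (2 * s * ‖z‖) * ‖z‖ :=
        mul_le_mul_of_nonneg_right (((S - 1).le_opNorm z).trans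
          (mul_le_mul_of_nonneg_right h.close (norm_nonneg _))) (norm_nonneg _)
    _ = 2 * s * ‖z‖ ^ 2 := by ring

theorem MV_Q_big {s : ℝ} (hs : s ≤ 1 / 8) {P S : Op n} (h : MV_Data s P S) {z : En n}
    (hz : 85 / 100 ≤ ‖z‖) : 1 / 2 < MV_Q S z := by
  have h1 := (abs_le.1 (MV_Q_close h z)).1
  have h2 : (85 / 100 : ℝ) ^ 2 ≤ ‖z‖ ^ 2 := pow_le_pow_left₀ (by norm_num) hz 2
  nlinarith

theorem MV_etaQ_zero {s : ℝ} (hs : s ≤ 1 / 8) {P S : Op n} (h : MV_Data s P S) {z : En n}
    (hz : 85 / 100 ≤ ‖z‖) : eta (MV_Q S z) = 0 :=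
  MV_eta_zero (MV_Q_big hs h hz).le

theorem MV_k_zero {s : ℝ} (hs : s ≤ 1 / 8) {P S : Op n} (h : MV_Data s P S) {z : En n}
    (hz : 85 / 100 ≤ ‖z‖) (e : En n) : MV_k S e z = 0 := by
  unfold MV_k
  rw [MV_deriv_eta_zero (MV_Q_big hs h hz)]
  ring

theorem MV_g_zero {s : ℝ} (hs : s ≤ 1 / 8) {P S : Op n} (h : MV_Data s P S) {z : En n}
    (hz : 85 / 100 ≤ ‖z‖) (e : En n) : MV_g S e z = 0 := by
  unfold MV_g
  rw [MV_deriv_eta_zero (MV_Q_big hs h hz), MV_etaQ_zero hs h hz]
  simp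

theorem MV_P_g {s : ℝ} {P S : Op n} (h : MV_Data s P S) (e z : En n) :
    P (MV_g S e z) = eta (MV_Q S z) • e + MV_k S e z • z := by
  unfold MV_g MV_k
  rw [map_add, map_smul, map_smul, h.PS, h.PS]

theorem MV_g_bound {s : ℝ} {P S : Op n} (h : MV_Data s P S) {L : ℝ}
    (hL : ∀ t, |deriv eta t| ≤ L) (e : En n) {z : En n} (hz : ‖z‖ ≤ 1) :
    ‖MV_g S e z‖ ≤ (2 + 8 * L) * ‖e‖ := by
  have hL0 : 0 ≤ L := (abs_nonneg _).trans (hL 0)
  have hSz : ‖S z‖ ≤ 2 := by
    calc ‖S z‖ ≤ ‖S‖ * ‖z‖ := S.le_opNorm z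
      _ ≤ 2 * 1 := mul_le_mul h.normS hz (norm_nonneg _) (by norm_num)
      _ = 2 := by norm_num
  have hSe : ‖S e‖ ≤ 2 * ‖e‖ :=
    (S.le_opNorm e).trans (mul_le_mul_of_nonneg_right h.normS (norm_nonneg _))
  have h1 : |inner ℝ (S z) e| ≤ 2 * ‖e‖ :=
    (abs_real_inner_le_norm _ _).trans (mul_le_mul_of_nonneg_right hSz (norm_nonneg _))
  unfold MV_g
  refine (norm_add_le _ _).trans ?_
  rw [norm_smul, norm_smul, Real.norm_eq_abs, Real.norm_eq_abs, abs_of_nonneg (MV_eta_nonneg _),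
    abs_mul, abs_mul, abs_two]
  have h2 : eta (MV_Q S z) * ‖S e‖ ≤ 1 * (2 * ‖e‖) :=
    mul_le_mul (MV_eta_le_one _) hSe (norm_nonneg _) (by norm_num)
  have h3 : |inner ℝ (S z) e| * |deriv eta (MV_Q S z)| * 2 * ‖S z‖ ≤ (2 * ‖e‖) * L * 2 * 2 := by
    have := hL (MV_Q S z)
    have hne := norm_nonneg e
    gcongr
  linarith

theorem MV_continuous_etaQ (S : Op n) : Continuous fun z => eta (MV_Q S z) :=
  MV_eta_contDiff.continuous.comp (MV_Q_contDiff S).continuous

theorem MV_continuous_k (S : Op n) (e : En n) : Continuous (MV_k S e) := by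
  unfold MV_k
  exact ((S.continuous.inner continuous_const).mul
    (MV_deriv_eta_cont.comp (MV_Q_contDiff S).continuous)).mul continuous_const

theorem MV_continuous_g (S : Op n) (e : En n) : Continuous (MV_g S e) := by
  unfold MV_g
  exact ((MV_continuous_etaQ S).smul continuous_const).add
    ((MV_continuous_k S e).smul S.continuous)

theorem MV_psi_contDiff (S : Op n) (e : En n) : ContDiff ℝ ∞ (MV_psi S e) := by
  unfold MV_psi
  exact (MV_eta_contDiff.comp (MV_Q_contDiff S)).mul (S.contDiff.inner ℝ contDiff_const)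

theorem MV_tsupport {f : En n → ℝ}
    (hf : ∀ z, 85 / 100 ≤ ‖z‖ → f z = 0) : tsupport f ⊆ closedBall 0 (85 / 100) := by
  refine closure_minimal (fun z hz => ?_) isClosed_closedBall
  rw [mem_closedBall_zero_iff]
  by_contra hcon
  exact hz (hf z (le_of_lt (not_le.1 hcon)))

theorem MV_compact {f : En n → ℝ}
    (hf : ∀ z, 85 / 100 ≤ ‖z‖ → f z = 0) : HasCompactSupport f := by
  refine HasCompactSupport.of_support_subset_isCompact (isCompact_closedBall (0 : En n) (85 / 100))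
    fun z hz => ?_
  rw [mem_closedBall_zero_iff]
  by_contra hcon
  exact hz (hf z (le_of_lt (not_le.1 hcon)))

/-- the compact ball that contains all the supports -/
abbrev MV_K (n : ℕ) : Set (En n) := closedBall 0 (85 / 100)

theorem MV_restrict {F : Type*} [NormedAddCommGroup F] [NormedSpace ℝ F] {f : En n → F}
    (hf : ∀ z, 85 / 100 ≤ ‖z‖ → f z = 0) : ∫ z in MV_K n, f z = ∫ z, f z := by
  refine setIntegral_eq_integral_of_forall_compl_eq_zero fun z hz => hf z ?_
  rw [mem_closedBall_zero_iff] at hz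
  exact le_of_lt (not_le.1 hz)

theorem MV_int_bound {F : Type*} [NormedAddCommGroup F] [NormedSpace ℝ F] {f : En n → F} {B : ℝ}
    (hB : ∀ z ∈ MV_K n, ‖f z‖ ≤ B) (hf : ∀ z, 85 / 100 ≤ ‖z‖ → f z = 0) :
    ‖∫ z, f z‖ ≤ B * volume.real (MV_K n) := by
  rw [← MV_restrict hf]
  exact norm_setIntegral_le_of_norm_le_const
    (isCompact_closedBall (0 : En n) (85 / 100)).measure_lt_top hB

/-! ### Differentiation under the integral sign -/

theorem MV_hasDerivAt {v k : En n → ℝ} (hv : ContDiff ℝ 1 v) (hk : Continuous k)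
    (hk0 : ∀ z, 85 / 100 ≤ ‖z‖ → k z = 0) (x : En n) (r : ℝ) :
    HasDerivAt (fun r : ℝ => ∫ z, v (x + r • z) * k z)
      (∫ z, fderiv ℝ v (x + r • z) z * k z) r := by
  have e1 : (fun r : ℝ => ∫ z, v (x + r • z) * k z) =
      fun r : ℝ => ∫ z in MV_K n, v (x + r • z) * k z := by
    funext r
    exact (MV_restrict fun z hz => by rw [hk0 z hz, mul_zero]).symm
  have e2 : ∫ z, fderiv ℝ v (x + r • z) z * k z =
      ∫ z in MV_K n, fderiv ℝ v (x + r • z) z * k z :=
    (MV_restrict fun z hz => by rw [hk0 z hz, mul_zero]).symm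
  rw [e1, e2]
  have hc1 : Continuous fun p : ℝ × En n => v (x + p.1 • p.2) * k p.2 :=
    (hv.continuous.comp (by fun_prop)).mul (hk.comp continuous_snd)
  have hc2 : Continuous fun p : ℝ × En n => fderiv ℝ v (x + p.1 • p.2) p.2 * k p.2 :=
    (((hv.continuous_fderiv (by norm_num)).comp (by fun_prop)).clm_apply continuous_snd).mul
      (hk.comp continuous_snd)
  obtain ⟨B, hB⟩ := ((isCompact_closedBall r 1).prod
    (isCompact_closedBall (0 : En n) (85 / 100))).exists_bound_of_continuousOn hc2.continuousOn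
  have hKf : volume (MV_K n) < ⊤ := (isCompact_closedBall (0 : En n) (85 / 100)).measure_lt_top
  refine (hasDerivAt_integral_of_dominated_loc_of_deriv_le (s := closedBall r 1)
    (bound := fun _ => B) (F' := fun r z => fderiv ℝ v (x + r • z) z * k z)
    (closedBall_mem_nhds r one_pos) ?_ ?_ ?_ ?_ ?_ ?_).2
  · refine Eventually.of_forall fun t => Continuous.aestronglyMeasurable ?_
    exact hc1.comp (by fun_prop : Continuous fun z : En n => (t, z))
  · refine ContinuousOn.integrableOn_compact (isCompact_closedBall _ _) (Continuous.continuousOn ?_)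
    exact hc1.comp (by fun_prop : Continuous fun z : En n => (r, z))
  · refine Continuous.aestronglyMeasurable ?_
    exact hc2.comp (by fun_prop : Continuous fun z : En n => (r, z))
  · refine (ae_restrict_iff' measurableSet_closedBall).2 (Eventually.of_forall ?_)
    intro z hz t ht
    exact hB (t, z) ⟨ht, hz⟩
  · exact integrableOn_const hKf.ne
  · refine Eventually.of_forall fun z t _ => ?_
    have h1 : HasDerivAt (fun t : ℝ => x + t • z) z t := by
      have := ((hasDerivAt_id t).smul_const z).const_add x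
      simpa using this
    have h2 : HasFDerivAt v (fderiv ℝ v (x + t • z)) (x + t • z) :=
      (hv.differentiable (by norm_num) _).hasFDerivAt
    have h3 := h2.comp_hasDerivAt t h1
    exact h3.mul_const (k z)

/-- extension of a function on the unit ball -/
theorem MV_ext {u : En n → ℝ} {x : En n} (hu : ContDiffOn ℝ 1 u (ball x 1)) :
    ∃ v : En n → ℝ, ContDiff ℝ 1 v ∧ ∀ y ∈ ball x (9 / 10), fderiv ℝ v y = fderiv ℝ u y := by
  let χ : ContDiffBump x := ⟨9 / 10, 95 / 100, by norm_num, by norm_num⟩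
  refine ⟨fun y => χ y * u y, ?_, ?_⟩
  · rw [contDiff_iff_contDiffAt]
    intro y
    by_cases hy : y ∈ ball x 1
    · exact (χ.contDiff.contDiffAt).mul ((hu y hy).contDiffAt (isOpen_ball.mem_nhds hy))
    · have h1 : (closedBall x (95 / 100))ᶜ ∈ 𝓝 y := by
        refine isClosed_closedBall.isOpen_compl.mem_nhds ?_
        intro h
        apply hy
        rw [mem_closedBall] at h
        rw [mem_ball]
        linarith
      have h2 : (fun y => χ y * u y) =ᶠ[𝓝 y] fun _ => 0 := by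
        filter_upwards [h1] with w hw
        have : χ w = 0 := by
          apply χ.zero_of_le_dist
          have h3 : ¬ dist w x ≤ 95 / 100 := fun h => hw h
          exact le_of_lt (not_le.1 h3)
        rw [this, zero_mul]
      exact contDiffAt_const.congr_of_eventuallyEq h2
  · intro y hy
    refine Filter.EventuallyEq.fderiv_eq ?_
    filter_upwards [isOpen_ball.mem_nhds hy] with w hw
    have : χ w = 1 := χ.one_of_mem_closedBall (ball_subset_closedBall hw)
    rw [this, one_mul]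

/-! ### The derivative in the scale -/

noncomputable def MV_G (S : Op n) (e x : En n) (v : En n → ℝ) (r : ℝ) : ℝ :=
  ∫ z, fderiv ℝ v (x + r • z) e * eta (MV_Q S z)

theorem MV_G_hasDerivAt {s : ℝ} (hs : s ≤ 1 / 8) {P S : Op n} (h : MV_Data s P S)
    {v : En n → ℝ} (hv : ContDiff ℝ 1 v) (e x : En n) {r : ℝ} (hr : 0 < r) :
    HasDerivAt (MV_G S e x v)
      (-(r⁻¹ * ∫ z, inner ℝ (P (gradient v (x + r • z))) (MV_g S e z))) r := by
  have hk0 : ∀ z : En n, 85 / 100 ≤ ‖z‖ → MV_k S e z = 0 := fun z hz => MV_k_zero hs h hz e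
  have he0 : ∀ z : En n, 85 / 100 ≤ ‖z‖ → eta (MV_Q S z) = 0 := fun z hz => MV_etaQ_zero hs h hz
  have hvc := hv.continuous_fderiv (by norm_num)
  set H : ℝ → ℝ := fun t => ∫ z, v (x + t • z) * MV_k S e z with hH
  have hG : ∀ t : ℝ, 0 < t → MV_G S e x v t = -(t⁻¹ * H t) := by
    intro t ht
    have hd : ∀ z : En n, HasFDerivAt (fun z => v (x + t • z))
        ((fderiv ℝ v (x + t • z)).comp (t • ContinuousLinearMap.id ℝ (En n))) z := by
      intro z
      have h1 : HasFDerivAt (fun z : En n => x + t • z) (t • ContinuousLinearMap.id ℝ (En n)) z :=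
        ((hasFDerivAt_id z).const_smul t).const_add x
      exact ((hv.differentiable (by norm_num) _).hasFDerivAt).comp z h1
    have h1 := ibp (u := fun z => v (x + t • z)) (f := fun z => eta (MV_Q S z)) (U := univ)
      isOpen_univ ((hv.comp (by fun_prop)).contDiffOn)
      ((MV_eta_contDiff.comp (MV_Q_contDiff S)).of_le (by norm_num))
      (MV_compact he0) (subset_univ _) e
    have h2 : (fun z => fderiv ℝ (fun z => v (x + t • z)) z e * eta (MV_Q S z)) =
        fun z => t * (fderiv ℝ v (x + t • z) e * eta (MV_Q S z)) := by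
      funext z
      rw [(hd z).fderiv]
      simp only [ContinuousLinearMap.comp_apply, ContinuousLinearMap.smul_apply,
        ContinuousLinearMap.id_apply, map_smul, smul_eq_mul]
      ring
    have h3 : (fun z => v (x + t • z) * fderiv ℝ (fun z => eta (MV_Q S z)) z e) =
        fun z => v (x + t • z) * MV_k S e z := by
      funext z
      rw [MV_fderiv_etaQ h]
    rw [h2, h3, integral_const_mul] at h1
    have h4 : t * MV_G S e x v t = -H t := h1
    field_simp
    linarith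
  have hHd := MV_hasDerivAt hv (MV_continuous_k S e) hk0 x r
  have hinv : HasDerivAt (fun t : ℝ => t⁻¹) (-(r ^ 2)⁻¹) r := hasDerivAt_inv hr.ne'
  have h5 := (hinv.mul hHd).neg
  have h6 : MV_G S e x v =ᶠ[𝓝 r] fun t => -(t⁻¹ * H t) := by
    filter_upwards [Ioi_mem_nhds hr] with t ht
    exact hG t ht
  have h7 := h5.congr_of_eventuallyEq (f₁ := MV_G S e x v) h6
  refine h7.congr_deriv ?_
  have h8 : ∫ z, inner ℝ (P (gradient v (x + r • z))) (MV_g S e z) =
      (∫ z, fderiv ℝ v (x + r • z) z * MV_k S e z) + MV_G S e x v r := by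
    unfold MV_G
    rw [← integral_add]
    · refine integral_congr_ae (Eventually.of_forall fun z => ?_)
      simp only
      rw [h.symmP, MV_P_g h, inner_gradient, map_add, map_smul, map_smul, smul_eq_mul, smul_eq_mul]
      ring
    · refine Continuous.integrable_of_hasCompactSupport ?_ (MV_compact fun z hz => by
        rw [hk0 z hz, mul_zero])
      exact ((hvc.comp (by fun_prop)).clm_apply continuous_id).mul (MV_continuous_k S e)
    · refine Continuous.integrable_of_hasCompactSupport ?_ (MV_compact fun z hz => by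
        rw [he0 z hz, mul_zero])
      exact ((hvc.comp (by fun_prop)).clm_apply continuous_const).mul (MV_continuous_etaQ S)
  rw [h8, hG r hr]
  field_simp
  ring

theorem MV_G_continuous {s : ℝ} (hs : s ≤ 1 / 8) {P S : Op n} (h : MV_Data s P S)
    {v : En n → ℝ} (hv : ContDiff ℝ 1 v) (e x : En n) : Continuous (MV_G S e x v) := by
  have he0 : ∀ z : En n, 85 / 100 ≤ ‖z‖ → eta (MV_Q S z) = 0 := fun z hz => MV_etaQ_zero hs h hz
  have hvc := hv.continuous_fderiv (by norm_num)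
  have e1 : MV_G S e x v =
      fun r => ∫ z in MV_K n, fderiv ℝ v (x + r • z) e * eta (MV_Q S z) := by
    funext r
    exact (MV_restrict fun z hz => by rw [he0 z hz, mul_zero]).symm
  rw [e1]
  refine continuous_parametric_integral_of_continuous ?_ (isCompact_closedBall _ _)
  exact ((hvc.comp (by fun_prop)).clm_apply continuous_const).mul
    ((MV_continuous_etaQ S).comp continuous_snd)

theorem MV_mem {x z : En n} {r : ℝ} (hr0 : 0 ≤ r) (hr : r ≤ 1) (hz : z ∈ MV_K n) :
    x + r • z ∈ ball x (9 / 10) := by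
  rw [mem_ball, dist_eq_norm, add_sub_cancel_left, norm_smul, Real.norm_of_nonneg hr0]
  rw [mem_closedBall_zero_iff] at hz
  nlinarith [norm_nonneg z]

theorem MV_deriv_le {s L M : ℝ} (hs0 : 0 ≤ s) (hs : s ≤ 1 / 8) {S : Op n} {A : En n → Op n}
    {u v : En n → ℝ} {x : En n} (h : MV_Data s (A x) S) (hL : ∀ t, |deriv eta t| ≤ L)
    (hu : Sol A u (ball x 1)) (hA : Near s s A (ball x 1))
    (hM : ∀ y ∈ ball x 1, ‖gradient u y‖ ≤ M)
    (hv : ∀ y ∈ ball x (9 / 10), gradient v y = gradient u y) (e : En n) {r : ℝ} (hr0 : 0 < r)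
    (hr : r ≤ 1)
    (hw : ∫ z, inner ℝ (A (x + r • z) (gradient u (x + r • z))) (MV_g S e z) = 0) :
    |-(r⁻¹ * ∫ z, inner ℝ (A x (gradient v (x + r • z))) (MV_g S e z))| ≤
      s * M * ((2 + 8 * L) * ‖e‖) * volume.real (MV_K n) := by
  have hg0 : ∀ z : En n, 85 / 100 ≤ ‖z‖ → MV_g S e z = 0 := fun z hz => MV_g_zero hs h hz e
  have hL0 : 0 ≤ L := (abs_nonneg _).trans (hL 0)
  have hM0 : 0 ≤ M := (norm_nonneg _).trans (hM x (mem_ball_self one_pos))
  have hx : x ∈ ball x 1 := mem_ball_self one_pos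
  have hsub : ball x (9 / 10) ⊆ ball x 1 := ball_subset_ball (by norm_num)
  have hmaps : ∀ z ∈ MV_K n, x + r • z ∈ ball x 1 := fun z hz => hsub (MV_mem hr0.le hr hz)
  have hmc : ContinuousOn (fun z : En n => x + r • z) (MV_K n) := by fun_prop
  have hgc : ContinuousOn (fun z => gradient u (x + r • z)) (MV_K n) :=
    hu.continuousOn_gradient.comp hmc hmaps
  have hAc : ContinuousOn A (ball x 1) := by
    have : LipschitzOnWith (Real.toNNReal s) A (ball x 1) := by
      refine LipschitzOnWith.of_dist_le_mul fun y hy w hw => ?_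
      rw [dist_eq_norm, dist_eq_norm, Real.coe_toNNReal s hs0]
      exact hA.lip y hy w hw
    exact this.continuousOn
  have hAc' : ContinuousOn (fun z => A (x + r • z)) (MV_K n) := hAc.comp hmc hmaps
  have hKc : IsCompact (MV_K n) := isCompact_closedBall _ _
  have hgk : ContinuousOn (MV_g S e) (MV_K n) := (MV_continuous_g S e).continuousOn
  have i1 : IntegrableOn (fun z => inner ℝ (A x (gradient u (x + r • z))) (MV_g S e z))
      (MV_K n) :=
    (((A x).continuous.comp_continuousOn hgc).inner hgk).integrableOn_compact hKc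
  have i2 : IntegrableOn (fun z => inner ℝ (A (x + r • z) (gradient u (x + r • z)))
      (MV_g S e z)) (MV_K n) :=
    ((hAc'.clm_apply hgc).inner hgk).integrableOn_compact hKc
  have e1 : ∫ z, inner ℝ (A x (gradient v (x + r • z))) (MV_g S e z) =
      ∫ z in MV_K n, inner ℝ ((A x - A (x + r • z)) (gradient u (x + r • z))) (MV_g S e z) := by
    have e2 : ∫ z, inner ℝ (A x (gradient v (x + r • z))) (MV_g S e z) =
        ∫ z in MV_K n, inner ℝ (A x (gradient u (x + r • z))) (MV_g S e z) := by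
      rw [← MV_restrict (f := fun z => inner ℝ (A x (gradient v (x + r • z))) (MV_g S e z))
        fun z hz => by simp only [hg0 z hz, inner_zero_right]]
      refine setIntegral_congr_fun measurableSet_closedBall fun z hz => ?_
      rw [hv _ (MV_mem hr0.le hr hz)]
    have e3 : ∫ z in MV_K n, inner ℝ (A (x + r • z) (gradient u (x + r • z))) (MV_g S e z) = 0 := by
      rw [MV_restrict (f := fun z => inner ℝ (A (x + r • z) (gradient u (x + r • z)))
        (MV_g S e z)) fun z hz => by simp only [hg0 z hz, inner_zero_right]]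
      exact hw
    have e4 := integral_sub i1 i2
    rw [e2]
    rw [e3, sub_zero] at e4
    rw [← e4]
    refine setIntegral_congr_fun measurableSet_closedBall fun z hz => ?_
    rw [ContinuousLinearMap.sub_apply, inner_sub_left]
  have hb : ‖∫ z in MV_K n, inner ℝ ((A x - A (x + r • z)) (gradient u (x + r • z)))
      (MV_g S e z)‖ ≤ (s * r * M * ((2 + 8 * L) * ‖e‖)) * volume.real (MV_K n) := by
    refine norm_setIntegral_le_of_norm_le_const hKc.measure_lt_top fun z hz => ?_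
    have hz1 : ‖z‖ ≤ 1 := by
      have := mem_closedBall_zero_iff.1 hz
      linarith
    have h1 : ‖A x - A (x + r • z)‖ ≤ s * r := by
      refine (hA.lip x hx _ (hmaps z hz)).trans ?_
      refine mul_le_mul_of_nonneg_left ?_ hs0
      rw [sub_add_cancel_left, norm_neg, norm_smul, Real.norm_of_nonneg hr0.le]
      nlinarith
    have h2 : ‖(A x - A (x + r • z)) (gradient u (x + r • z))‖ ≤ s * r * M := by
      refine (ContinuousLinearMap.le_opNorm _ _).trans ?_
      exact mul_le_mul h1 (hM _ (hmaps z hz)) (norm_nonneg _) (by positivity)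
    refine (norm_inner_le_norm _ _).trans ?_
    exact mul_le_mul h2 (MV_g_bound h hL e hz1) (norm_nonneg _) (by positivity)
  rw [abs_neg, abs_mul, abs_of_pos (inv_pos.2 hr0), e1]
  rw [Real.norm_eq_abs] at hb
  refine (mul_le_mul_of_nonneg_left hb (inv_pos.2 hr0).le).trans (le_of_eq ?_)
  field_simp

/-! ### The approximate mean value formula -/

theorem MV_rad_zero {z : En n} (hz : 85 / 100 ≤ ‖z‖) : eta (‖z‖ ^ 2) = 0 := by
  apply MV_eta_zero
  have h2 : (85 / 100 : ℝ) ^ 2 ≤ ‖z‖ ^ 2 := pow_le_pow_left₀ (by norm_num) hz 2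
  linarith

theorem MV_rad_continuous : Continuous fun z : En n => eta (‖z‖ ^ 2) :=
  MV_eta_contDiff.continuous.comp (by fun_prop)

theorem MV_const_pos : 0 < ∫ y : En n, eta (‖y‖ ^ 2) := by
  refine Continuous.integral_pos_of_hasCompactSupport_nonneg_nonzero (x := (0 : En n))
    MV_rad_continuous (MV_compact fun z hz => MV_rad_zero hz) (fun y => MV_eta_nonneg _) ?_
  rw [norm_zero, MV_eta_one (by norm_num)]
  exact one_ne_zero

theorem MV_inner_bound {s L M : ℝ} (hs0 : 0 ≤ s) (hs : s ≤ 1 / 8) {S : Op n} {A : En n → Op n}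
    {u v : En n → ℝ} {x : En n} (h : MV_Data s (A x) S) (hL : ∀ t, |deriv eta t| ≤ L)
    (hu : Sol A u (ball x 1)) (hA : Near s s A (ball x 1))
    (hM : ∀ y ∈ ball x 1, ‖gradient u y‖ ≤ M) (hvd : ContDiff ℝ 1 v)
    (hv : ∀ y ∈ ball x (9 / 10), gradient v y = gradient u y) (e : En n)
    (hw : ∀ r : ℝ, 0 < r → r ≤ 1 →
      ∫ z, inner ℝ (A (x + r • z) (gradient u (x + r • z))) (MV_g S e z) = 0) :
    |(∫ y : En n, eta (‖y‖ ^ 2)) * fderiv ℝ v x e -
      ∫ z, fderiv ℝ v (x + z) e * eta (‖z‖ ^ 2)| ≤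
      s * M * (2 + 12 * L) * volume.real (MV_K n) * ‖e‖ := by
  have hL0 : 0 ≤ L := (abs_nonneg _).trans (hL 0)
  have hM0 : 0 ≤ M := (norm_nonneg _).trans (hM x (mem_ball_self one_pos))
  have he0 : ∀ z : En n, 85 / 100 ≤ ‖z‖ → eta (MV_Q S z) = 0 := fun z hz => MV_etaQ_zero hs h hz
  have hvc := hvd.continuous_fderiv (by norm_num)
  set V := volume.real (MV_K n) with hV
  have hV0 : 0 ≤ V := measureReal_nonneg
  -- the difference of the kernels
  have hdiff : ∀ z ∈ MV_K n, |eta (MV_Q S z) - eta (‖z‖ ^ 2)| ≤ 2 * L * s := by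
    intro z hz
    have hz1 : ‖z‖ ≤ 1 := by
      have := mem_closedBall_zero_iff.1 hz
      linarith
    refine (MV_eta_lip hL _ _).trans ?_
    have h1 := MV_Q_close h z
    have h2 : ‖z‖ ^ 2 ≤ 1 := pow_le_one₀ (norm_nonneg _) hz1
    calc L * |MV_Q S z - ‖z‖ ^ 2| ≤ L * (2 * s * ‖z‖ ^ 2) := by gcongr
      _ ≤ L * (2 * s * 1) := by gcongr
      _ = 2 * L * s := by ring
  have i1 : Integrable fun z : En n => eta (MV_Q S z) :=
    (MV_continuous_etaQ S).integrable_of_hasCompactSupport (MV_compact he0)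
  have i2 : Integrable fun z : En n => eta (‖z‖ ^ 2) :=
    MV_rad_continuous.integrable_of_hasCompactSupport (MV_compact fun z hz => MV_rad_zero hz)
  have i3 : Integrable fun z : En n => fderiv ℝ v (x + z) e * eta (MV_Q S z) := by
    refine Continuous.integrable_of_hasCompactSupport ?_ (MV_compact fun z hz => by
      rw [he0 z hz, mul_zero])
    exact ((hvc.comp (by fun_prop)).clm_apply continuous_const).mul (MV_continuous_etaQ S)
  have i4 : Integrable fun z : En n => fderiv ℝ v (x + z) e * eta (‖z‖ ^ 2) := by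
    refine Continuous.integrable_of_hasCompactSupport ?_ (MV_compact fun z hz => by
      rw [MV_rad_zero hz, mul_zero])
    exact ((hvc.comp (by fun_prop)).clm_apply continuous_const).mul MV_rad_continuous
  have hfd : ∀ z ∈ MV_K n, |fderiv ℝ v (x + z) e| ≤ M * ‖e‖ := by
    intro z hz
    have hmem : x + z ∈ ball x (9 / 10) := by
      have := MV_mem (x := x) (r := 1) zero_le_one le_rfl hz
      rwa [one_smul] at this
    rw [← inner_gradient, hv _ hmem]
    refine (abs_real_inner_le_norm _ _).trans ?_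
    exact mul_le_mul_of_nonneg_right (hM _ (ball_subset_ball (by norm_num) hmem)) (norm_nonneg _)
  have hfd0 : |fderiv ℝ v x e| ≤ M * ‖e‖ := by
    have h0 : (0 : En n) ∈ MV_K n := mem_closedBall_self (by norm_num)
    have := hfd 0 h0
    rwa [add_zero] at this
  -- the three terms
  have t1 : |(∫ y : En n, eta (‖y‖ ^ 2)) - ∫ y : En n, eta (MV_Q S y)| ≤ 2 * L * s * V := by
    rw [← integral_sub i2 i1, ← Real.norm_eq_abs]
    refine MV_int_bound (fun z hz => ?_) fun z hz => ?_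
    · rw [Real.norm_eq_abs, abs_sub_comm]
      exact hdiff z hz
    · rw [he0 z hz, MV_rad_zero hz, sub_zero]
  have t3 : |∫ z, (eta (MV_Q S z) - eta (‖z‖ ^ 2)) * fderiv ℝ v (x + z) e| ≤
      (2 * L * s) * (M * ‖e‖) * V := by
    rw [← Real.norm_eq_abs]
    refine MV_int_bound (fun z hz => ?_) fun z hz => ?_
    · rw [Real.norm_eq_abs, abs_mul]
      exact mul_le_mul (hdiff z hz) (hfd z hz) (abs_nonneg _) (by positivity)
    · rw [he0 z hz, MV_rad_zero hz, sub_zero, zero_mul]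
  have t2 : |MV_G S e x v 1 - MV_G S e x v 0| ≤ s * M * ((2 + 8 * L) * ‖e‖) * V := by
    obtain ⟨r, hr, hslope⟩ := exists_hasDerivAt_eq_slope (MV_G S e x v)
      (fun r => -(r⁻¹ * ∫ z, inner ℝ (A x (gradient v (x + r • z))) (MV_g S e z)))
      zero_lt_one (MV_G_continuous hs h hvd e x).continuousOn
      (fun r hr => MV_G_hasDerivAt hs h hvd e x hr.1)
    rw [sub_zero, div_one] at hslope
    rw [← hslope]
    exact MV_deriv_le hs0 hs h hL hu hA hM hv e hr.1 hr.2.le (hw r hr.1 hr.2.le)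
  have g0 : MV_G S e x v 0 = (∫ y : En n, eta (MV_Q S y)) * fderiv ℝ v x e := by
    unfold MV_G
    simp only [zero_smul, add_zero]
    rw [integral_const_mul, mul_comm]
  have g1 : MV_G S e x v 1 = ∫ z, fderiv ℝ v (x + z) e * eta (MV_Q S z) := by
    unfold MV_G
    simp only [one_smul]
  have g3 : ∫ z, (eta (MV_Q S z) - eta (‖z‖ ^ 2)) * fderiv ℝ v (x + z) e =
      (∫ z, fderiv ℝ v (x + z) e * eta (MV_Q S z)) -
      ∫ z, fderiv ℝ v (x + z) e * eta (‖z‖ ^ 2) := by
    rw [← integral_sub i3 i4]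
    refine integral_congr_ae (Eventually.of_forall fun z => ?_)
    simp only
    ring
  have key : (∫ y : En n, eta (‖y‖ ^ 2)) * fderiv ℝ v x e -
      ∫ z, fderiv ℝ v (x + z) e * eta (‖z‖ ^ 2) =
      ((∫ y : En n, eta (‖y‖ ^ 2)) - ∫ y : En n, eta (MV_Q S y)) * fderiv ℝ v x e
      - (MV_G S e x v 1 - MV_G S e x v 0)
      + ∫ z, (eta (MV_Q S z) - eta (‖z‖ ^ 2)) * fderiv ℝ v (x + z) e := by
    rw [g3, g0, g1]
    ring
  rw [key]
  refine (abs_add_le _ _).trans ?_
  refine (add_le_add (abs_sub _ _) le_rfl).trans ?_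
  rw [abs_mul]
  have t1' : |(∫ y : En n, eta (‖y‖ ^ 2)) - ∫ y : En n, eta (MV_Q S y)| * |fderiv ℝ v x e| ≤
      (2 * L * s * V) * (M * ‖e‖) := mul_le_mul t1 hfd0 (abs_nonneg _) (by positivity)
  refine (add_le_add (add_le_add t1' t2) t3).trans (le_of_eq ?_)
  ring

/-- B4: approximate mean value formula. -/
theorem MV (hSC : StmtSC) : StmtMV := by
  intro n _
  obtain ⟨L, hL0, hL⟩ := MV_deriv_bound
  have hc : 0 < ∫ y : En n, eta (‖y‖ ^ 2) := MV_const_pos
  set c : ℝ := ∫ y : En n, eta (‖y‖ ^ 2) with hcdef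
  have hV0 : 0 ≤ volume.real (MV_K n) := measureReal_nonneg
  refine ⟨c⁻¹ * ((2 + 12 * L) * volume.real (MV_K n)) + 1, 1 / 8, by positivity, by norm_num, ?_⟩
  intro A u x s M hs0 hs hu hA hM
  have hM0 : 0 ≤ M := (norm_nonneg _).trans (hM x (mem_ball_self one_pos))
  obtain ⟨S, h⟩ := MV_exists hs0 hs (A x) (hA.symm x (mem_ball_self one_pos))
    (hA.close x (mem_ball_self one_pos))
  obtain ⟨v, hvd, hvf⟩ := MV_ext hu.c1
  have hv : ∀ y ∈ ball x (9 / 10), gradient v y = gradient u y := by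
    intro y hy
    unfold gradient
    rw [hvf y hy]
  have hgc : Continuous (gradient v) :=
    (InnerProductSpace.toDual ℝ (En n)).symm.continuous.comp
      (hvd.continuous_fderiv (by norm_num))
  have hgeq : (fun z => Ker z • gradient u (x + z)) =
      fun z => c⁻¹ • (eta (‖z‖ ^ 2) • gradient v (x + z)) := by
    funext z
    unfold Ker
    rw [← hcdef, smul_smul, div_eq_mul_inv, mul_comm]
    by_cases hz : 85 / 100 ≤ ‖z‖
    · rw [MV_rad_zero hz]
      simp
    · have hz' : z ∈ MV_K n := by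
        rw [mem_closedBall_zero_iff]
        exact le_of_lt (not_le.1 hz)
      have := MV_mem (x := x) (r := 1) zero_le_one le_rfl hz'
      rw [one_smul] at this
      rw [hv _ this]
  have hint : Integrable fun z : En n => eta (‖z‖ ^ 2) • gradient v (x + z) := by
    refine Continuous.integrable_of_hasCompactSupport ?_ ?_
    · exact MV_rad_continuous.smul (hgc.comp (by fun_prop))
    · exact (MV_compact (f := fun z : En n => eta (‖z‖ ^ 2)) fun z hz => MV_rad_zero hz).smul_right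
  set w : En n := c • gradient v x - ∫ z, eta (‖z‖ ^ 2) • gradient v (x + z) with hwdef
  set K : ℝ := s * M * (2 + 12 * L) * volume.real (MV_K n) with hK
  have hin : ∀ e : En n, |inner ℝ w e| ≤ K * ‖e‖ := by
    intro e
    have hw : ∀ r : ℝ, 0 < r → r ≤ 1 →
        ∫ z, inner ℝ (A (x + r • z) (gradient u (x + r • z))) (MV_g S e z) = 0 := by
      intro r hr0 hr
      have hRl : r⁻¹ * r = 1 := inv_mul_cancel₀ hr0.ne'
      obtain ⟨hsol, -, hgr, -⟩ := hSC n A u x r⁻¹ r s s hr0 (by rw [hRl]; exact hu)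
        (by rw [hRl]; exact hA)
      have hr1 : 1 ≤ r⁻¹ := (one_le_inv₀ hr0).2 hr
      have hpsi0 : ∀ z : En n, 85 / 100 ≤ ‖z‖ → MV_psi S e z = 0 := fun z hz => by
        unfold MV_psi
        rw [MV_etaQ_zero hs h hz, zero_mul]
      have := hsol.weak (MV_psi S e) (MV_psi_contDiff S e) (MV_compact hpsi0)
        ((MV_tsupport hpsi0).trans (closedBall_subset_ball (by linarith)))
      rw [← this]
      refine integral_congr_ae (Eventually.of_forall fun z => ?_)
      simp only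
      rw [hgr z, MV_gradient_psi h]
    have hb := MV_inner_bound hs0 hs h hL hu hA hM hvd hv e hw
    have e1 : inner ℝ w e = c * fderiv ℝ v x e - ∫ z, fderiv ℝ v (x + z) e * eta (‖z‖ ^ 2) := by
      rw [hwdef, inner_sub_left, real_inner_smul_left, inner_gradient, real_inner_comm,
        ← integral_inner hint]
      congr 1
      refine integral_congr_ae (Eventually.of_forall fun z => ?_)
      simp only
      rw [real_inner_smul_right, real_inner_comm, inner_gradient, mul_comm]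
    rw [e1]
    exact hb
  have hwn : ‖w‖ ≤ K := by
    have h1 := hin w
    rw [real_inner_self_eq_norm_sq, abs_of_nonneg (by positivity)] at h1
    by_contra hcon
    push Not at hcon
    have hpos : 0 < ‖w‖ := lt_of_le_of_lt (by positivity) hcon
    nlinarith
  have hx : gradient u x = gradient v x := (hv x (mem_ball_self (by norm_num))).symm
  have hfin : gradient u x - ∫ z, Ker z • gradient u (x + z) = c⁻¹ • w := by
    rw [hgeq, integral_smul, hwdef, smul_sub, smul_smul, inv_mul_cancel₀ hc.ne', one_smul, hx]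
  rw [hfin, norm_smul, norm_inv, Real.norm_of_nonneg hc.le]
  calc c⁻¹ * ‖w‖ ≤ c⁻¹ * K := mul_le_mul_of_nonneg_left hwn (inv_pos.2 hc).le
    _ = c⁻¹ * ((2 + 12 * L) * volume.real (MV_K n)) * s * M := by rw [hK]; ring
    _ ≤ (c⁻¹ * ((2 + 12 * L) * volume.real (MV_K n)) + 1) * s * M := by
        have : 0 ≤ s * M := by positivity
        nlinarith

end EAGrad

end

section

/-!
MP_ea6116_an, item SQ: square root of a positive definite operator.
-/

set_option autoImplicit false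

open MeasureTheory Metric Set Filter Topology
open scoped ENNReal NNReal ContDiff

namespace EAGrad

variable {n : ℕ}

/-- The operator which is diagonal in the basis `b` with entries `c`. -/
noncomputable def SQM (b : OrthonormalBasis (Fin n) ℝ (En n)) (c : Fin n → ℝ) : Op n :=
  ∑ i, c i • (innerSL ℝ (b i)).smulRight (b i)

theorem SQM_apply (b : OrthonormalBasis (Fin n) ℝ (En n)) (c : Fin n → ℝ) (v : En n) :
    SQM b c v = ∑ i, (c i * inner ℝ (b i) v) • b i := by
  simp [SQM, smul_smul]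

theorem SQM_inner (b : OrthonormalBasis (Fin n) ℝ (En n)) (c : Fin n → ℝ) (v : En n) (j : Fin n) :
    inner ℝ (b j) (SQM b c v) = c j * inner ℝ (b j) v := by
  rw [SQM_apply, b.orthonormal.inner_right_fintype]

theorem SQM_comp (b : OrthonormalBasis (Fin n) ℝ (En n)) (c d : Fin n → ℝ) (v : En n) :
    SQM b c (SQM b d v) = SQM b (fun i => c i * d i) v := by
  refine InnerProductSpace.ext_inner_left_basis b.toBasis fun j => ?_
  rw [OrthonormalBasis.coe_toBasis, SQM_inner, SQM_inner, SQM_inner, mul_assoc]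

theorem SQM_symm (b : OrthonormalBasis (Fin n) ℝ (En n)) (c : Fin n → ℝ) (v w : En n) :
    inner ℝ (SQM b c v) w = inner ℝ v (SQM b c w) := by
  rw [SQM_apply, SQM_apply, sum_inner, inner_sum]
  refine Finset.sum_congr rfl fun i _ => ?_
  rw [real_inner_smul_left, real_inner_smul_right, real_inner_comm v (b i)]
  ring

/-- Item SQ. -/
theorem SQ : StmtSQ := by
  intro n P a b ha hsym hab
  have hS : (P : En n →ₗ[ℝ] En n).IsSymmetric := fun ξ η => hsym ξ η
  have hn : Module.finrank ℝ (En n) = n := finrank_euclideanSpace_fin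
  set e := hS.eigenvectorBasis hn with he
  set lam := hS.eigenvalues hn with hlam
  have h1 : ∀ i, P (e i) = lam i • e i := fun i => hS.apply_eigenvectorBasis hn i
  have h2 : ∀ i, 0 < lam i := by
    intro i
    have h3 := (hab (e i)).1
    rw [h1, real_inner_smul_left, real_inner_self_eq_norm_sq, e.norm_eq_one] at h3
    linarith
  have hP : ∀ v, SQM e lam v = P v := by
    intro v
    refine InnerProductSpace.ext_inner_left_basis e.toBasis fun j => ?_
    rw [OrthonormalBasis.coe_toBasis, SQM_inner, ← hsym, h1, real_inner_smul_left]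
  set S : Op n := SQM e (fun i => √(lam i)) with hSdef
  have hSS : ∀ v, S (S v) = P v := by
    intro v
    rw [hSdef, SQM_comp, ← hP]
    congr 1
    congr 1
    funext i
    exact Real.mul_self_sqrt (h2 i).le
  have hSsym : ∀ v w, inner ℝ (S v) w = inner ℝ v (S w) := SQM_symm e _
  have hnorm : ∀ v, ‖S v‖ ^ 2 = inner ℝ (P v) v := by
    intro v
    rw [← real_inner_self_eq_norm_sq, hSsym, hSS, real_inner_comm]
  have hinj : Function.Injective (S : En n →ₗ[ℝ] En n) := by
    rw [← LinearMap.ker_eq_bot, LinearMap.ker_eq_bot']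
    intro v hv
    have h4 := (hab v).1
    rw [← hnorm] at h4
    have h5 : S v = 0 := hv
    rw [h5, norm_zero] at h4
    have h6 : ‖v‖ ^ 2 ≤ 0 := by
      by_contra h7
      push Not at h7
      have := mul_pos ha h7
      linarith
    have h7 : ‖v‖ = 0 := by
      have := le_antisymm h6 (sq_nonneg _)
      exact pow_eq_zero_iff (two_ne_zero) |>.1 this
    exact norm_eq_zero.1 h7
  set T : En n ≃L[ℝ] En n :=
    (LinearEquiv.ofInjectiveEndo (S : En n →ₗ[ℝ] En n) hinj).toContinuousLinearEquiv with hT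
  have hTS : ∀ v, T v = S v := fun v => rfl
  have hTadj : ∀ v, ContinuousLinearMap.adjoint (T : Op n) v = S v := by
    intro v
    refine ext_inner_right ℝ fun w => ?_
    rw [ContinuousLinearMap.adjoint_inner_left, hSsym]
    rfl
  refine ⟨T, ?_, ?_, ?_⟩
  · ext1 v
    rw [ContinuousLinearMap.comp_apply, hTadj, ← hSS]
    rfl
  · intro ξ
    rw [hTS, hnorm]
    exact (hab ξ).2
  · intro ξ
    have h8 := (hab (T.symm ξ)).1
    rw [← hnorm, ← hTS, T.apply_symm_apply] at h8
    rw [le_inv_mul_iff₀ ha]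
    exact h8

end EAGrad

end

section

/-!
MP_ea6116_an: from a ball to the doubled ball, general coefficients (item FB).
-/

set_option autoImplicit false

open MeasureTheory Metric Set Filter Topology
open scoped ENNReal NNReal ContDiff

namespace EAGrad

theorem FB (hG2 : StmtG2) (hLC : StmtLC) (hSQ : StmtSQ) (hSC : StmtSC) : StmtFB := by
  intro n lam L ρ₁ hn hlam hL hρ₁
  have hlam0 : 0 < lam := by linarith
  have hsq : 0 < Real.sqrt lam := Real.sqrt_pos.2 hlam0
  have hsq2 : Real.sqrt lam * Real.sqrt lam = lam := Real.mul_self_sqrt hlam0.le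
  obtain ⟨s₀, C, γ, hs₀, hC, hγ, hmain⟩ := hG2 n (1 / (8 * lam)) (by omega) (by positivity)
    (by rw [div_lt_div_iff₀ (by positivity) (by norm_num)]; linarith)
  refine ⟨min (ρ₁ / (8 * lam)) (s₀ / ((lam * L + 1) * (8 * lam))), by positivity, ?_⟩
  intro r hr hr0
  have hr1 : r * (8 * lam) ≤ ρ₁ := by
    have := hr0.trans (min_le_left _ _)
    rwa [le_div_iff₀ (by positivity)] at this
  have hr2 : r * ((lam * L + 1) * (8 * lam)) ≤ s₀ := by
    have := hr0.trans (min_le_right _ _)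
    rwa [le_div_iff₀ (by positivity)] at this
  refine ⟨lam * C, γ, by positivity, hγ, ?_⟩
  intro A u z a hsol hell hgrad ha hga x hx
  have ht : 0 < 4 * r * Real.sqrt lam := by positivity
  have htsq : 4 * r * Real.sqrt lam * Real.sqrt lam = 4 * r * lam := by rw [mul_assoc, hsq2]
  obtain ⟨T, A', w, hT, hT', hsw, hnw, hgw⟩ := FA_reduce hLC hSQ hSC hlam hL hsol hell
    (K := 2) (t := 4 * r * Real.sqrt lam) (s₀ := s₀) (by norm_num) ht
    (by rw [htsq]; linarith) (by
      rw [htsq]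
      calc lam * L * (4 * r * lam) * 2 = r * (lam * L * (8 * lam)) := by ring
        _ ≤ r * ((lam * L + 1) * (8 * lam)) := by gcongr; linarith
        _ ≤ s₀ := hr2)
  set t := 4 * r * Real.sqrt lam with htdef
  have hmap : ∀ (ρ : ℝ), ∀ y ∈ closedBall (0 : En n) ρ,
      z + t • T y ∈ closedBall z (4 * r * lam * ρ) := by
    intro ρ y hy
    rw [mem_closedBall, dist_zero_right] at hy
    rw [mem_closedBall, dist_eq_norm, add_sub_cancel_left, norm_smul, Real.norm_of_nonneg ht.le]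
    calc t * ‖T y‖ ≤ t * (Real.sqrt lam * ‖y‖) := by gcongr; exact hT y
      _ ≤ t * (Real.sqrt lam * ρ) := by gcongr
      _ = t * Real.sqrt lam * ρ := by ring
      _ = 4 * r * lam * ρ := by rw [htsq]
  have hball : ∀ y ∈ ball (0 : En n) 2, z + t • T y ∈ ball z ρ₁ := by
    intro y hy
    rw [mem_ball, dist_zero_right] at hy
    rw [mem_ball, dist_eq_norm, add_sub_cancel_left, norm_smul, Real.norm_of_nonneg ht.le]
    calc t * ‖T y‖ ≤ t * (Real.sqrt lam * ‖y‖) := by gcongr; exact hT y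
      _ < t * (Real.sqrt lam * 2) := by gcongr
      _ = t * Real.sqrt lam * 2 := by ring
      _ = 4 * r * lam * 2 := by rw [htsq]
      _ ≤ ρ₁ := by linarith
  have hinv : ∃ y ∈ closedBall (0 : En n) (1 / 2), z + t • T y = x := by
    refine ⟨T.symm (t⁻¹ • (x - z)), ?_, ?_⟩
    · rw [mem_closedBall, dist_zero_right]
      rw [mem_closedBall, dist_eq_norm] at hx
      calc ‖T.symm (t⁻¹ • (x - z))‖ ≤ Real.sqrt lam * ‖t⁻¹ • (x - z)‖ := hT' _
        _ = Real.sqrt lam * (t⁻¹ * ‖x - z‖) := by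
            rw [norm_smul, Real.norm_of_nonneg (by positivity)]
        _ ≤ Real.sqrt lam * (t⁻¹ * (2 * r)) := by gcongr
        _ = 1 / 2 := by rw [htdef]; field_simp; norm_num
    · rw [ContinuousLinearEquiv.apply_symm_apply, smul_smul, mul_inv_cancel₀ ht.ne', one_smul]
      abel
  have hDa : Dg w 0 (1 / (8 * lam)) ≤ a := by
    apply Dg_le ha.le
    intro y hy
    have h1 := hmap _ y hy
    have h2 : 4 * r * lam * (1 / (8 * lam)) ≤ r := by
      have : 4 * r * lam * (1 / (8 * lam)) = r / 2 := by field_simp; norm_num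
      rw [this]; linarith
    have hy2 : y ∈ ball (0 : En n) 2 := by
      rw [mem_closedBall, dist_zero_right] at hy
      rw [mem_ball, dist_zero_right]
      have : 1 / (8 * lam) ≤ 1 := by
        rw [div_le_one (by positivity)]; linarith
      linarith
    exact ((hgw y hy2).1).trans (hga _ (closedBall_subset_closedBall h2 h1))
  have hfin := hmain A' w a hsw hnw
    (fun y hy => ((hgw y hy).1).trans (hgrad _ (hball y hy))) ha hDa
  obtain ⟨y, hy, hyx⟩ := hinv
  have h12 : closedBall (0 : En n) (1 / 2) ⊆ ball 0 2 := closedBall_subset_ball (by norm_num)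
  calc ‖gradient u x‖ = ‖gradient u (z + t • T y)‖ := by rw [hyx]
    _ ≤ lam * ‖gradient w y‖ := (hgw y (h12 hy)).2
    _ ≤ lam * Dg w 0 (1 / 2) := by gcongr; exact hsw.le_Dg h12 hy
    _ ≤ lam * (C * a ^ γ) := by gcongr
    _ = lam * C * a ^ γ := by ring

end EAGrad

end
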