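import Pool.Agent.Work.MP_ea6116_an.Bd.B01

/-! Bundle of small proof modules (one section per former module). -/

section

/-!
MP_ea6116_an, item PIN: pinched points are not independent.
-/

set_option autoImplicit false

open MeasureTheory Metric Set Filter Topology
open scoped ENNReal NNReal ContDiff

namespace EAGrad

/-- Scaling of the independence condition. -/
theorem PIN_indep {n k : ℕ} {τ l : ℝ} (hl : 0 < l) (x : Fin k → En n) (x₀ : En n)
    (h : Indep (τ * l) x) : Indep τ (fun i => l⁻¹ • (x i - x₀)) := by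
  intro j hj
  have hj' := h j hj
  set f : En n →ᵃ[ℝ] En n :=
    (l⁻¹ • (AffineMap.id ℝ (En n)) : En n →ᵃ[ℝ] En n) - AffineMap.const ℝ (En n) (l⁻¹ • x₀)
    with hf
  have hfx : ∀ z, f z = l⁻¹ • (z - x₀) := by
    intro z
    simp [hf, smul_sub]
  have himg : (fun i => l⁻¹ • (x i - x₀)) '' {i | i < j} = f '' (x '' {i | i < j}) := by
    rw [Set.image_image]
    simp only [hfx]
  have hne : ((affineSpan ℝ (f '' (x '' {i | i < j}))) : Set (En n)).Nonempty := by
    rw [affineSpan_nonempty]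
    refine Set.Nonempty.image _ (Set.Nonempty.image _ ⟨⟨0, lt_trans hj j.2⟩, ?_⟩)
    exact hj
  have hne' : ((affineSpan ℝ (x '' {i | i < j})) : Set (En n)).Nonempty := by
    rw [affineSpan_nonempty]
    refine Set.Nonempty.image _ ⟨⟨0, lt_trans hj j.2⟩, ?_⟩
    exact hj
  rw [himg, le_infDist hne]
  rw [le_infDist hne'] at hj'
  intro p hp
  rw [← AffineSubspace.map_span] at hp
  obtain ⟨q, hq, rfl⟩ := hp
  have h1 := hj' hq
  have h2 : dist (l⁻¹ • (x j - x₀)) (f q) = l⁻¹ * dist (x j) q := by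
    rw [hfx, dist_smul₀, dist_sub_right, norm_inv, Real.norm_eq_abs, abs_of_pos hl]
  rw [h2]
  calc τ = l⁻¹ * (τ * l) := by field_simp
    _ ≤ l⁻¹ * dist (x j) q := mul_le_mul_of_nonneg_left h1 (inv_nonneg.2 hl.le)


theorem PIN_upper {R₁ R₃ r N κ e η η₀ Dj Djb Db D1 : ℝ} (hR₁ : 0 < R₁) (hr : R₁ ≤ r)
    (hrR : r ≤ R₃) (hN : 0 ≤ N) (he : 0 ≤ e) (he1 : e ≤ 1) (hη : 0 ≤ η)
    (hη₀ : 0 ≤ η₀) (hκ : 0 ≤ κ) (hκ1 : κ ≤ η₀ / 16)
    (hL : (η + e) * (Real.log R₃ - Real.log R₁) ≤ η₀ / 4) (hD1 : 0 ≤ D1)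
    (h1 : (R₃ / r) ^ ((1 - η - e) * N) * Dj ≤ Djb) (h2 : Djb ≤ Db)
    (h3 : Db ≤ (1 + κ) ^ ((1 + e) * N) * D1) :
    Dj ≤ D1 / R₃ ^ N * Real.exp (η₀ * N) * r ^ N := by
  have hr0 : 0 < r := lt_of_lt_of_le hR₁ hr
  have hR₃ : 0 < R₃ := lt_of_lt_of_le hr0 hrR
  have h4 : (R₃ / r) ^ ((1 - η - e) * N) * Dj ≤ (1 + κ) ^ ((1 + e) * N) * D1 :=
    h1.trans (h2.trans h3)
  rw [Real.rpow_def_of_pos (div_pos hR₃ hr0), Real.rpow_def_of_pos (by linarith : 0 < 1 + κ),
    Real.log_div hR₃.ne' hr0.ne'] at h4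
  have h5 : Dj ≤ Real.exp (Real.log (1 + κ) * ((1 + e) * N) -
      (Real.log R₃ - Real.log r) * ((1 - η - e) * N)) * D1 := by
    rw [Real.exp_sub, div_mul_eq_mul_div, le_div_iff₀ (Real.exp_pos _)]
    linarith
  have h6 : D1 / R₃ ^ N * Real.exp (η₀ * N) * r ^ N =
      Real.exp (η₀ * N + Real.log r * N - Real.log R₃ * N) * D1 := by
    rw [Real.rpow_def_of_pos hR₃, Real.rpow_def_of_pos hr0, Real.exp_sub, Real.exp_add]
    ring
  rw [h6]
  refine h5.trans (mul_le_mul_of_nonneg_right (Real.exp_le_exp.2 ?_) hD1)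
  have hlog : Real.log (1 + κ) ≤ κ := by
    have := Real.log_le_sub_one_of_pos (by linarith : 0 < 1 + κ)
    linarith
  have hlog0 : 0 ≤ Real.log (1 + κ) := Real.log_nonneg (by linarith)
  have h7 : Real.log (1 + κ) * (1 + e) ≤ η₀ / 8 := by
    calc Real.log (1 + κ) * (1 + e) ≤ κ * (1 + e) :=
          mul_le_mul_of_nonneg_right hlog (by linarith)
      _ ≤ κ * 2 := mul_le_mul_of_nonneg_left (by linarith) hκ
      _ ≤ η₀ / 8 := by linarith
  have hlr : Real.log R₁ ≤ Real.log r := Real.log_le_log hR₁ hr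
  have h8 : (η + e) * (Real.log R₃ - Real.log r) ≤ η₀ / 4 :=
    le_trans (mul_le_mul_of_nonneg_left (by linarith) (by linarith)) hL
  have h9 : Real.log (1 + κ) * (1 + e) + (η + e) * (Real.log R₃ - Real.log r) ≤ η₀ := by
    linarith
  have h10 := mul_le_mul_of_nonneg_right h9 hN
  linarith

theorem PIN_lower {R₁ R₃ R N e η η₀ D D1 : ℝ} (hR₁ : 0 < R₁) (hr : R₁ ≤ R)
    (hrR : R ≤ R₃) (hN : 0 ≤ N) (he : 0 ≤ e) (hη : 0 ≤ η) (hη₀ : 0 ≤ η₀)
    (hL : (η + e) * (Real.log R₃ - Real.log R₁) ≤ η₀ / 4) (hD1 : 0 ≤ D1)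
    (h1 : D1 ≤ (R₃ / R) ^ ((1 + e) * N) * D) :
    D1 / R₃ ^ N * Real.exp (-(η₀ * N)) * R ^ N ≤ D := by
  have hr0 : 0 < R := lt_of_lt_of_le hR₁ hr
  have hR₃ : 0 < R₃ := lt_of_lt_of_le hr0 hrR
  rw [Real.rpow_def_of_pos (div_pos hR₃ hr0), Real.log_div hR₃.ne' hr0.ne'] at h1
  have h5 : Real.exp (-((Real.log R₃ - Real.log R) * ((1 + e) * N))) * D1 ≤ D := by
    rw [Real.exp_neg, inv_mul_le_iff₀ (Real.exp_pos _)]
    exact h1
  have h6 : D1 / R₃ ^ N * Real.exp (-(η₀ * N)) * R ^ N =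
      Real.exp (-(η₀ * N) + Real.log R * N - Real.log R₃ * N) * D1 := by
    rw [Real.rpow_def_of_pos hR₃, Real.rpow_def_of_pos hr0, Real.exp_sub, Real.exp_add]
    ring
  rw [h6]
  refine le_trans (mul_le_mul_of_nonneg_right (Real.exp_le_exp.2 ?_) hD1) h5
  have hlr : Real.log R₁ ≤ Real.log R := Real.log_le_log hR₁ hr
  have hlr3 : Real.log R ≤ Real.log R₃ := Real.log_le_log hr0 hrR
  have h8 : e * (Real.log R₃ - Real.log R) ≤ η₀ := by
    have h81 : (η + e) * (Real.log R₃ - Real.log R) ≤ η₀ / 4 :=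
      le_trans (mul_le_mul_of_nonneg_left (by linarith) (by linarith)) hL
    have h82 : 0 ≤ η * (Real.log R₃ - Real.log R) := mul_nonneg hη (by linarith)
    nlinarith
  have h10 := mul_le_mul_of_nonneg_right h8 hN
  linarith

/-- Two-sided slope estimate at a pinched point, in units of `l`. -/
theorem PIN_slopes {n : ℕ} {A : En n → Op n} {u : En n → ℝ} {x₁ : En n}
    {l N ε lam q₀ s₀ N₁ K₀ η R₁ : ℝ} (hl : 0 < l) (hK₀ : 0 < K₀)
    (hSL : ∀ (A : En n → Op n) (u : En n → ℝ) (x : En n) (R N : ℝ), 0 < R →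
      Sol A u (ball x (4 * R)) →
      Near s₀ (s₀ / R) A (ball x (4 * R)) → N₁ ≤ N →
      (Dg u x (2 * R) ≤ 2 ^ N * Dg u x R → ∀ r r', q₀ * R ≤ r → lam * r ≤ r' → r' ≤ R / 2 →
        Dg u x r' ≤ (r' / r) ^ ((1 + ε) * N) * Dg u x r) ∧
      (∀ η ρ', 0 ≤ η → η ≤ 1 → q₀ * R ≤ ρ' → 2 ^ ((1 - η) * N) * Dg u x ρ' < Dg u x (2 * ρ') →
        ∀ r r', 2 * lam * ρ' ≤ r → lam * r ≤ r' → r' ≤ 2 * R →
        (r' / r) ^ ((1 - η - ε) * N) * Dg u x r ≤ Dg u x r'))
    (hS : Sol A u (ball x₁ (4 * (K₀ * l))))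
    (hA : Near s₀ (s₀ / (K₀ * l)) A (ball x₁ (4 * (K₀ * l)))) (hN : N₁ ≤ N)
    (hη0 : 0 ≤ η) (hη1 : η ≤ 1)
    (hR₁ : 2 * lam * (K₀ * q₀) ≤ R₁) (hR₁' : q₀ * K₀ ≤ R₁)
    (h1 : Dg u x₁ (2 * K₀ * l) ≤ 2 ^ N * Dg u x₁ (K₀ * l))
    (h2 : 2 ^ ((1 - η) * N) * Dg u x₁ (K₀ * q₀ * l) < Dg u x₁ (2 * K₀ * q₀ * l)) :
    ∀ r r', R₁ ≤ r → 0 < r → lam * r ≤ r' → r' ≤ K₀ / 2 →
      Dg u x₁ (l * r') ≤ (r' / r) ^ ((1 + ε) * N) * Dg u x₁ (l * r) ∧
      (r' / r) ^ ((1 - η - ε) * N) * Dg u x₁ (l * r) ≤ Dg u x₁ (l * r') := by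
  intro r r' hr hr0 hlr hr'
  obtain ⟨ha, hb⟩ := hSL A u x₁ (K₀ * l) N (mul_pos hK₀ hl) hS hA hN
  have e1 : 2 * (K₀ * l) = 2 * K₀ * l := by ring
  have e2 : l * r' / (l * r) = r' / r := by
    rw [mul_div_mul_left _ _ hl.ne']
  have hb' := hb η (K₀ * q₀ * l) hη0 hη1 (le_of_eq (by ring)) (by
    rw [show 2 * (K₀ * q₀ * l) = 2 * K₀ * q₀ * l by ring]; exact h2)
    (l * r) (l * r') (by
      calc 2 * lam * (K₀ * q₀ * l) = l * (2 * lam * (K₀ * q₀)) := by ring
        _ ≤ l * r := mul_le_mul_of_nonneg_left (hR₁.trans hr) hl.le)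
    (by
      calc lam * (l * r) = l * (lam * r) := by ring
        _ ≤ l * r' := mul_le_mul_of_nonneg_left hlr hl.le)
    (by
      calc l * r' ≤ l * (K₀ / 2) := mul_le_mul_of_nonneg_left hr' hl.le
        _ ≤ 2 * (K₀ * l) := by nlinarith [mul_pos hK₀ hl])
  rw [e1] at ha
  have ha' := ha h1 (l * r) (l * r') (by
      calc q₀ * (K₀ * l) = l * (q₀ * K₀) := by ring
        _ ≤ l * r := mul_le_mul_of_nonneg_left (hR₁'.trans hr) hl.le)
    (by
      calc lam * (l * r) = l * (lam * r) := by ring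
        _ ≤ l * r' := mul_le_mul_of_nonneg_left hlr hl.le)
    (by
      calc l * r' ≤ l * (K₀ / 2) := mul_le_mul_of_nonneg_left hr' hl.le
        _ = K₀ * l / 2 := by ring)
  rw [e2] at ha' hb'
  exact ⟨ha', hb'⟩

theorem PIN (hSC : StmtSC) (hSL : StmtSL) (hKEY : StmtKEY) (hIND : StmtIND) : StmtPIN := by
  intro n τ hn hτ hτ1
  obtain ⟨c, hc, hind⟩ := hIND n hn τ hτ
  obtain ⟨R₁, R, R₂, η₀, sK, N₀, hR₁8, hR₁R, hRR₂, hη₀, hη₀1, hsK, hN₀, hkey⟩ := hKEY n c hn hc
  -- the constants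
  obtain ⟨κ, hκdef⟩ : ∃ κ : ℝ, κ = η₀ / 16 := ⟨_, rfl⟩
  have hκ : 0 < κ := by rw [hκdef]; positivity
  have hκ1 : κ ≤ 1 / 16 := by rw [hκdef]; linarith
  obtain ⟨R₃, hR₃a, hR₃b⟩ : ∃ R₃ : ℝ, 2 * R₂ ≤ R₃ ∧ 4 ≤ κ * R₃ := by
    refine ⟨max (2 * R₂) (4 / κ), le_max_left _ _, ?_⟩
    calc (4 : ℝ) = κ * (4 / κ) := by field_simp
      _ ≤ κ * max (2 * R₂) (4 / κ) := mul_le_mul_of_nonneg_left (le_max_right _ _) hκ.le
  have hR₃16 : 16 < R₃ := by linarith
  obtain ⟨K₀, hK₀⟩ : ∃ K₀ : ℝ, K₀ = 4 * R₃ := ⟨_, rfl⟩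
  have hK₀64 : 64 < K₀ := by linarith
  obtain ⟨ρ, hρ, hρτ, hρK⟩ : ∃ ρ : ℝ, 0 < ρ ∧ 3 * ρ ≤ τ ∧ 4 * (K₀ * ρ) ≤ R₁ := by
    refine ⟨min (τ / 3) (R₁ / (4 * K₀)), lt_min (by positivity)
      (div_pos (by linarith) (by linarith)), ?_, ?_⟩
    · have := min_le_left (τ / 3) (R₁ / (4 * K₀))
      linarith
    · have h1 := min_le_right (τ / 3) (R₁ / (4 * K₀))
      rw [le_div_iff₀ (by linarith)] at h1
      linarith
  obtain ⟨Lg, hLg⟩ : ∃ Lg : ℝ, Lg = Real.log R₃ - Real.log R₁ := ⟨_, rfl⟩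
  have hLg0 : 0 ≤ Lg := by
    rw [hLg]
    have := Real.log_le_log (by linarith : (0 : ℝ) < R₁) (by linarith : R₁ ≤ R₃)
    linarith
  obtain ⟨η, hη, hη4, hηL⟩ : ∃ η : ℝ, 0 < η ∧ η ≤ 1 / 4 ∧ (η + η) * Lg ≤ η₀ / 4 := by
    refine ⟨min (1 / 4) (η₀ / (8 * (Lg + 1))), lt_min (by norm_num) (by positivity),
      min_le_left _ _, ?_⟩
    have h1 := min_le_right (1 / 4 : ℝ) (η₀ / (8 * (Lg + 1)))
    rw [le_div_iff₀ (by linarith)] at h1
    have h2 : 0 < min (1 / 4 : ℝ) (η₀ / (8 * (Lg + 1))) := lt_min (by norm_num) (by positivity)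
    nlinarith
  obtain ⟨sL, NL, hsL, hNL, hsl⟩ := hSL n η ρ (1 + κ) (by omega) hη (by linarith) hρ
    (by linarith) (by linarith)
  refine ⟨K₀, η, ρ, min sK (sL / K₀), max N₀ NL, by linarith, hη, by linarith, hρ, hρτ,
    lt_min hsK (div_pos hsL (by linarith)), lt_of_lt_of_le hN₀ (le_max_left _ _), ?_⟩
  rintro A u x₀ l N hl hS hA hN ⟨x, hx, hInd⟩
  have hNN₀ : N₀ ≤ N := (le_max_left _ _).trans hN
  have hNNL : NL ≤ N := (le_max_right _ _).trans hN
  have hN0 : 0 < N := lt_of_lt_of_le hN₀ hNN₀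
  have hn0 : 0 < n := by omega
  obtain ⟨i₀, hi₀⟩ : ∃ i₀ : Fin n, i₀ = ⟨0, hn0⟩ := ⟨_, rfl⟩
  -- geometry
  have hdist : ∀ i, dist (x i) x₀ ≤ 2 * l := fun i => mem_closedBall.1 (hx i).1
  have hdist2 : ∀ i j, dist (x i) (x j) ≤ 4 * l := by
    intro i j
    have := dist_triangle_right (x i) (x j) x₀
    linarith [hdist i, hdist j]
  have hsub : ∀ i r, r ≤ 7 * K₀ * l → ball (x i) r ⊆ ball x₀ (8 * K₀ * l) := by
    intro i r hr
    refine ball_subset_ball' ?_
    have := hdist i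
    nlinarith
  have hsubc : ∀ i r, r ≤ 7 * K₀ * l → closedBall (x i) r ⊆ ball x₀ (8 * K₀ * l) := by
    intro i r hr
    refine closedBall_subset_ball' ?_
    have := hdist i
    nlinarith
  -- slopes
  have hslope : ∀ i, ∀ r r', R₁ ≤ r → 0 < r → (1 + κ) * r ≤ r' → r' ≤ K₀ / 2 →
      Dg u (x i) (l * r') ≤ (r' / r) ^ ((1 + η) * N) * Dg u (x i) (l * r) ∧
      (r' / r) ^ ((1 - η - η) * N) * Dg u (x i) (l * r) ≤ Dg u (x i) (l * r') := by
    intro i
    have hsubi : ball (x i) (4 * (K₀ * l)) ⊆ ball x₀ (8 * K₀ * l) :=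
      hsub i _ (by nlinarith [mul_pos (by linarith : (0 : ℝ) < K₀) hl])
    refine PIN_slopes hl (by linarith) hsl (hS.mono isOpen_ball hsubi)
      (hA.mono ?_ ?_ hsubi) hNNL hη.le (by linarith) ?_ ?_ (hx i).2.1 (hx i).2.2
    · refine (min_le_right _ _).trans ?_
      exact div_le_self hsL.le (by linarith)
    · calc min sK (sL / K₀) / l ≤ (sL / K₀) / l :=
            div_le_div_of_nonneg_right (min_le_right _ _) hl.le
        _ = sL / (K₀ * l) := by rw [div_div]
    · have : 0 < K₀ * ρ := mul_pos (by linarith) hρ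
      nlinarith
    · have : 0 < K₀ * ρ := mul_pos (by linarith) hρ
      nlinarith
  -- the value H
  obtain ⟨D1, hD1⟩ : ∃ D1 : ℝ, D1 = Dg u (x i₀) (l * R₃) := ⟨_, rfl⟩
  have hR₃K : R₃ ≤ K₀ / 2 := by linarith
  have hbound : ∀ r : ℝ, r ≤ K₀ → l * r ≤ 7 * K₀ * l := by
    intro r hr
    nlinarith
  have hD1pos : 0 < D1 := by
    have h1 := (hx i₀).2.2
    have h2 : 0 < Dg u (x i₀) (2 * K₀ * ρ * l) := by
      refine lt_of_le_of_lt ?_ h1
      exact mul_nonneg (Real.rpow_nonneg (by norm_num) _) (Dg_nonneg _ _ _)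
    rw [hD1]
    refine lt_of_lt_of_le h2 (hS.Dg_mono (hsubc i₀ _ (hbound _ (by linarith)))
      (closedBall_subset_closedBall ?_))
    nlinarith
  -- upper bounds
  have hupper : ∀ i r, R₁ ≤ r → r ≤ R₂ →
      Dg u (x i) (l * r) ≤ D1 / R₃ ^ N * Real.exp (η₀ * N) * r ^ N := by
    intro i r hr1 hr2
    have hr0 : 0 < r := by linarith
    refine PIN_upper (κ := κ) (e := η) (η := η) (R₁ := R₁) (Djb := Dg u (x i) (l * R₃))
      (Db := Dg u (x i₀) (l * ((1 + κ) * R₃))) (by linarith) hr1 (by linarith) hN0.le hη.le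
      (by linarith) hη.le hη₀.le hκ.le hκdef.le (by rw [← hLg]; exact hηL) hD1pos.le ?_ ?_ ?_
    · refine (hslope i r R₃ hr1 hr0 ?_ hR₃K).2
      nlinarith
    · refine hS.Dg_mono (hsubc i₀ _ (hbound _ (by nlinarith))) (closedBall_subset_closedBall' ?_)
      have := hdist2 i i₀
      nlinarith
    · rw [hD1]
      have h1 := (hslope i₀ R₃ ((1 + κ) * R₃) (by linarith) (by linarith) le_rfl
        (by nlinarith)).1
      rwa [mul_div_assoc, div_self (by linarith : R₃ ≠ 0), mul_one] at h1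
  -- lower bound
  have hlower : D1 / R₃ ^ N * Real.exp (-(η₀ * N)) * R ^ N ≤ Dg u (x i₀) (l * R) := by
    refine PIN_lower (e := η) (η := η) (R₁ := R₁) (by linarith) hR₁R.le (by linarith) hN0.le hη.le
      hη.le hη₀.le (by rw [← hLg]; exact hηL) hD1pos.le ?_
    rw [hD1]
    refine (hslope i₀ R R₃ hR₁R.le (by linarith) ?_ hR₃K).1
    nlinarith
  -- rescaling
  have hS' : Sol A u (ball (x i₀) (2 * R₂ * l)) :=
    hS.mono isOpen_ball (hsub i₀ _ (by nlinarith))
  have hA' : Near (min sK (sL / K₀)) (min sK (sL / K₀) / l) A (ball (x i₀) (2 * R₂ * l)) :=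
    hA.mono le_rfl le_rfl (hsub i₀ _ (by nlinarith))
  obtain ⟨hS2, hA2, -, hDg⟩ := hSC n A u (x i₀) (2 * R₂) l (min sK (sL / K₀))
    (min sK (sL / K₀) / l) hl hS' hA'
  rw [div_mul_cancel₀ _ hl.ne'] at hA2
  have hA3 := hA2.mono (min_le_left _ _) (min_le_left _ _) (Subset.refl _)
  -- the frame
  obtain ⟨e, hF⟩ := hind (fun i => l⁻¹ • (x i - x₀)) (by
    intro i
    have h1 := hdist i
    rw [dist_eq_norm] at h1
    rw [norm_smul, norm_inv, Real.norm_eq_abs, abs_of_pos hl, inv_mul_le_iff₀ hl]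
    linarith) (PIN_indep hl x x₀ hInd)
  have hfr : ∀ j, x i₀ + l • (l⁻¹ • (x j - x₀) - l⁻¹ • (x ⟨0, by omega⟩ - x₀)) = x j := by
    intro j
    rw [← smul_sub, smul_smul, mul_inv_cancel₀ hl.ne', one_smul, hi₀]
    abel
  have hfin := hkey _ _ e _ (D1 / R₃ ^ N) N hF hS2 hA3
    (div_pos hD1pos (Real.rpow_pos_of_pos (by linarith) _)) hNN₀ (by
      intro r hr1 hr2
      rw [hDg, smul_zero, add_zero]
      exact hupper i₀ r hr1 hr2) (by
      intro j r hr1 hr2
      rw [hDg]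
      simp only [hfr]
      exact hupper j r hr1 hr2)
  rw [hDg, smul_zero, add_zero] at hfin
  linarith

end EAGrad

end

section

/-!
MP_ea6116_an: harmonic approximation of a gradient by orthogonal projection.
-/

set_option autoImplicit false

open MeasureTheory Metric Set Filter Topology
open scoped ENNReal NNReal ContDiff

namespace EAGrad

variable {n : ℕ}

/-- partial derivative in the direction `v` -/
noncomputable def PROJ_pd (v : En n) (f : En n → ℝ) (x : En n) : ℝ := fderiv ℝ f x v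

theorem PROJ_pd_contDiff {f : En n → ℝ} (hf : ContDiff ℝ ∞ f) (v : En n) :
    ContDiff ℝ ∞ (PROJ_pd v f) :=
  (hf.fderiv_right (m := ∞) (by simp)).clm_apply contDiff_const

theorem PROJ_pd_tsupport (f : En n → ℝ) (v : En n) : tsupport (PROJ_pd v f) ⊆ tsupport f :=
  closure_minimal (fun x hx => by
    by_contra hx'
    apply hx
    have h1 : f =ᶠ[𝓝 x] fun _ => 0 := notMem_tsupport_iff_eventuallyEq.1 hx'
    have : fderiv ℝ f x = 0 := by rw [h1.fderiv_eq]; simp
    simp [PROJ_pd, this]) (isClosed_tsupport f)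

theorem PROJ_pd_compact {f : En n → ℝ} (hc : HasCompactSupport f) (v : En n) :
    HasCompactSupport (PROJ_pd v f) :=
  HasCompactSupport.of_support_subset_isCompact hc
    ((subset_tsupport _).trans (PROJ_pd_tsupport f v))

theorem PROJ_pd_pd {f : En n → ℝ} (hf : ContDiff ℝ ∞ f) (v w x : En n) :
    PROJ_pd w (PROJ_pd v f) x = D2 f x w v := by
  have h1 : DifferentiableAt ℝ (fderiv ℝ f) x :=
    (hf.fderiv_right (m := ∞) (by simp)).differentiable (by simp) x
  unfold PROJ_pd D2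
  rw [fderiv_clm_apply h1 (by fun_prop)]
  simp

theorem PROJ_symm {f : En n → ℝ} (hf : ContDiff ℝ ∞ f) (v w x : En n) :
    PROJ_pd w (PROJ_pd v f) x = PROJ_pd v (PROJ_pd w f) x := by
  rw [PROJ_pd_pd hf, PROJ_pd_pd hf]
  unfold D2
  have h2 : ContDiff ℝ 2 f := hf.of_le (by norm_cast)
  have hs : IsSymmSndFDerivAt ℝ f x := h2.contDiffAt.isSymmSndFDerivAt (by simp)
  exact hs w v

theorem PROJ_gradient_eq (g : En n → ℝ) (x : En n) :
    gradient g x = ∑ j, PROJ_pd (ee j) g x • (ee j : En n) := by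
  ext k
  have h := inner_gradient g x (ee k)
  have h1 : inner ℝ (gradient g x) (ee k : En n) = gradient g x k := by
    unfold ee
    rw [EuclideanSpace.inner_single_right]
    simp
  rw [h1] at h
  rw [h]
  simp only [PROJ_pd]
  rw [WithLp.ofLp_sum, Finset.sum_apply, Finset.sum_eq_single k]
  · simp [ee]
  · intro b _ hb
    simp [ee, Ne.symm hb]
  · simp

/-- the test field -/
noncomputable def PROJ_W (i : Fin n) (ψ : En n → ℝ) (x : En n) : En n :=
  lap ψ x • (ee i : En n) - gradient (PROJ_pd (ee i) ψ) x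

theorem PROJ_inner_W {ψ : En n → ℝ} (hψ : ContDiff ℝ ∞ ψ) (i : Fin n) (f : En n → ℝ) (x : En n) :
    inner ℝ (gradient f x) (PROJ_W i ψ x) =
      ∑ j, (fderiv ℝ f x (ee i) * PROJ_pd (ee j) (PROJ_pd (ee j) ψ) x -
        fderiv ℝ f x (ee j) * PROJ_pd (ee i) (PROJ_pd (ee j) ψ) x) := by
  rw [inner_gradient]
  unfold PROJ_W lap
  rw [map_sub, map_smul, PROJ_gradient_eq, map_sum, smul_eq_mul, Finset.sum_mul,
    ← Finset.sum_sub_distrib]
  refine Finset.sum_congr rfl fun j _ => ?_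
  rw [map_smul, smul_eq_mul, ← PROJ_pd_pd hψ, PROJ_symm hψ (ee i) (ee j)]
  ring

theorem PROJ_ibp {f ψ : En n → ℝ} {U : Set (En n)} (hU : IsOpen U) (hf : ContDiffOn ℝ 1 f U)
    (hψ : ContDiff ℝ ∞ ψ) (hc : HasCompactSupport ψ) (hs : tsupport ψ ⊆ U) (i : Fin n) :
    ∫ x, inner ℝ (gradient f x) (PROJ_W i ψ x) = 0 := by
  have hf1 : ∀ v : En n, ContinuousOn (fun x => fderiv ℝ f x v) U := fun v =>
    (hf.continuousOn_fderiv_of_isOpen hU (by norm_num)).clm_apply continuousOn_const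
  have key : ∀ (v w : En n) (h : En n → ℝ), ContDiff ℝ ∞ h → HasCompactSupport h →
      tsupport h ⊆ U → Integrable (fun x => fderiv ℝ f x v * PROJ_pd w h x) ∧
      ∫ x, fderiv ℝ f x v * PROJ_pd w h x = - ∫ x, f x * PROJ_pd v (PROJ_pd w h) x := by
    intro v w h h1 h2 h3
    refine ⟨?_, ?_⟩
    · exact (continuous_mul_of_tsupport hU (hf1 v) (PROJ_pd_contDiff h1 w).continuous
        ((PROJ_pd_tsupport h w).trans h3)).integrable_of_hasCompactSupport
          (PROJ_pd_compact h2 w).mul_left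
    · exact ibp hU hf ((PROJ_pd_contDiff h1 w).of_le (by simp)) (PROJ_pd_compact h2 w)
        ((PROJ_pd_tsupport h w).trans h3) v
  simp_rw [PROJ_inner_W hψ]
  rw [integral_finsetSum]
  · refine Finset.sum_eq_zero fun j _ => ?_
    have hj1 := PROJ_pd_contDiff hψ (ee j)
    have hj2 := PROJ_pd_compact hc (ee j)
    have hj3 := (PROJ_pd_tsupport ψ (ee j)).trans hs
    obtain ⟨a1, a2⟩ := key (ee i) (ee j) _ hj1 hj2 hj3
    obtain ⟨b1, b2⟩ := key (ee j) (ee i) _ hj1 hj2 hj3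
    rw [integral_sub a1 b1, a2, b2]
    simp_rw [PROJ_symm hj1 (ee j) (ee i)]
    simp
  · intro j _
    have hj1 := PROJ_pd_contDiff hψ (ee j)
    have hj2 := PROJ_pd_compact hc (ee j)
    have hj3 := (PROJ_pd_tsupport ψ (ee j)).trans hs
    exact (key (ee i) (ee j) _ hj1 hj2 hj3).1.sub (key (ee j) (ee i) _ hj1 hj2 hj3).1

/-- the vector fields in `L²` of the ball that are gradients of test functions -/
def PROJ_S (n : ℕ) (R : ℝ) : Set (Lp (En n) 2 (volume.restrict (ball (0 : En n) R))) :=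
  {h | ∃ f : En n → ℝ, ContDiff ℝ ∞ f ∧ HasCompactSupport f ∧ tsupport f ⊆ ball 0 R ∧
    h =ᵐ[volume.restrict (ball (0 : En n) R)] gradient f}

theorem PROJ_memLp {R : ℝ} {U : Set (En n)} (hcl : closedBall (0 : En n) R ⊆ U)
    {V : En n → En n} (hV : ContinuousOn V U) :
    MemLp V 2 (volume.restrict (ball (0 : En n) R)) := by
  obtain ⟨C, hC⟩ := (isCompact_closedBall (0 : En n) R).exists_bound_of_continuousOn (hV.mono hcl)
  have hb : ball (0 : En n) R ⊆ U := ball_subset_closedBall.trans hcl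
  have : IsFiniteMeasure (volume.restrict (ball (0 : En n) R)) :=
    ⟨by rw [Measure.restrict_apply_univ]; exact measure_ball_lt_top⟩
  refine MemLp.of_bound ((hV.mono hb).aestronglyMeasurable measurableSet_ball) C ?_
  exact ae_restrict_of_forall_mem measurableSet_ball
    (fun x hx => hC x (ball_subset_closedBall hx))

theorem PROJ_gradient_contDiff {f : En n → ℝ} (hf : ContDiff ℝ ∞ f) :
    ContDiff ℝ ∞ (gradient f) := by
  have h1 : ContDiff ℝ ∞ (fderiv ℝ f) := hf.fderiv_right (m := ∞) (by simp)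
  exact (InnerProductSpace.toDual ℝ (En n)).symm.contDiff.comp h1

theorem PROJ_gradient_zero {f : En n → ℝ} {x : En n} (hx : x ∉ tsupport f) :
    gradient f x = 0 := by
  have h1 : f =ᶠ[𝓝 x] fun _ => 0 := notMem_tsupport_iff_eventuallyEq.1 hx
  have : fderiv ℝ f x = 0 := by rw [h1.fderiv_eq]; simp
  simp [gradient, this]

theorem PROJ_W_zero {ψ : En n → ℝ} (hψ : ContDiff ℝ ∞ ψ) {i : Fin n} {x : En n}
    (hx : x ∉ tsupport ψ) : PROJ_W i ψ x = 0 := by
  unfold PROJ_W lap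
  have h1 : ∀ j : Fin n, D2 ψ x (ee j) (ee j) = 0 := by
    intro j
    rw [← PROJ_pd_pd hψ]
    have h2 : x ∉ tsupport (PROJ_pd (ee j) ψ) := fun h => hx (PROJ_pd_tsupport ψ (ee j) h)
    have h3 := PROJ_pd_tsupport (PROJ_pd (ee j) ψ) (ee j : En n)
    exact image_eq_zero_of_notMem_tsupport (fun h => h2 (h3 h))
  rw [PROJ_gradient_zero (fun h => hx (PROJ_pd_tsupport ψ (ee i) h))]
  simp [h1]

theorem PROJ_W_continuous {ψ : En n → ℝ} (hψ : ContDiff ℝ ∞ ψ) (i : Fin n) :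
    Continuous (PROJ_W i ψ) := by
  unfold PROJ_W lap
  have h1 : ∀ j : Fin n, Continuous fun x => D2 ψ x (ee j) (ee j) := by
    intro j
    simp_rw [← PROJ_pd_pd hψ]
    exact (PROJ_pd_contDiff (PROJ_pd_contDiff hψ _) _).continuous
  exact ((continuous_finsetSum _ fun j _ => h1 j).smul continuous_const).sub
    (PROJ_gradient_contDiff (PROJ_pd_contDiff hψ _)).continuous

/-- passing from the restricted to the full integral -/
theorem PROJ_full {R : ℝ} {f : En n → ℝ} {K : Set (En n)} (hK : K ⊆ ball 0 R)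
    (hf : ∀ x, x ∉ K → f x = 0) :
    ∫ x in ball (0 : En n) R, f x = ∫ x, f x :=
  setIntegral_eq_integral_of_forall_compl_eq_zero fun x hx => hf x fun h => hx (hK h)

theorem PROJ : StmtPROJ := by
  intro n A u U R σ _ hR hsol hcl hA hclose
  set μ : Measure (En n) := volume.restrict (ball (0 : En n) R) with hμ
  have hball : ball (0 : En n) R ⊆ U := ball_subset_closedBall.trans hcl
  have hgc : ContinuousOn (gradient u) U := hsol.continuousOn_gradient
  have hFc : ContinuousOn (fun x => A x (gradient u x) - gradient u x) U :=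
    (hA.clm_apply hgc).sub hgc
  have hg2 := PROJ_memLp hcl hgc
  have hF2 := PROJ_memLp hcl hFc
  obtain ⟨g, hg⟩ : ∃ g : Lp (En n) 2 μ, g = hg2.toLp := ⟨_, rfl⟩
  obtain ⟨φ, hφ⟩ : ∃ φ : Lp (En n) 2 μ, φ = hF2.toLp := ⟨_, rfl⟩
  have hgae : g =ᵐ[μ] gradient u := by rw [hg]; exact hg2.coeFn_toLp
  have hφae : φ =ᵐ[μ] fun x => A x (gradient u x) - gradient u x := by
    rw [hφ]; exact hF2.coeFn_toLp
  let K : Submodule ℝ (Lp (En n) 2 μ) := (Submodule.span ℝ (PROJ_S n R)).topologicalClosure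
  have : CompleteSpace K := (Submodule.isClosed_topologicalClosure _).completeSpace_coe
  let P : Lp (En n) 2 μ := K.starProjection φ
  have hPK : P ∈ K := K.starProjection_apply_mem φ
  -- `⟨P, v⟩ = ⟨φ, v⟩` for `v ∈ K`
  have hP : ∀ v ∈ K, inner ℝ P v = inner ℝ φ v := by
    intro v hv
    have h1 := K.starProjection_inner_eq_zero φ v hv
    have h2 : inner ℝ φ v - inner ℝ P v = 0 := by
      rw [← inner_sub_left]; exact h1
    linarith
  have hPn : ‖P‖ ≤ ‖φ‖ := K.norm_starProjection_apply_le φ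
  -- a vector orthogonal to the gradients of test functions is orthogonal to `K`
  have hK : ∀ v : Lp (En n) 2 μ, (∀ h ∈ PROJ_S n R, inner ℝ h v = 0) → ∀ k ∈ K, inner ℝ k v = 0 := by
    intro v hv k hk
    have h1 : K ≤ (Submodule.span ℝ {v})ᗮ := by
      refine Submodule.topologicalClosure_minimal _ ?_ (Submodule.isClosed_orthogonal _)
      refine Submodule.span_le.2 fun h hh => ?_
      rw [SetLike.mem_coe, Submodule.mem_orthogonal_singleton_iff_inner_left]
      exact hv h hh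
    exact Submodule.mem_orthogonal_singleton_iff_inner_left.1 (h1 hk)
  refine ⟨((g + P : Lp (En n) 2 μ) : En n → En n), Lp.memLp _, ?_, ?_⟩
  · intro i ψ hψ hc hs
    obtain ⟨W, hW⟩ : ∃ W : Lp (En n) 2 μ,
        W = (PROJ_memLp (R := R) (subset_univ _) (PROJ_W_continuous hψ i).continuousOn).toLp :=
      ⟨_, rfl⟩
    have hWae : W =ᵐ[μ] PROJ_W i ψ := by rw [hW]; exact MemLp.coeFn_toLp _
    have hi1 := PROJ_pd_contDiff hψ (ee i)
    have hi2 := PROJ_pd_compact hc (ee i)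
    have hi3 := (PROJ_pd_tsupport ψ (ee i)).trans hs
    obtain ⟨Q, hQ⟩ : ∃ Q : Lp (En n) 2 μ,
        Q = (PROJ_memLp (R := R) (subset_univ _)
          (PROJ_gradient_contDiff hi1).continuous.continuousOn).toLp := ⟨_, rfl⟩
    have hQae : Q =ᵐ[μ] gradient (PROJ_pd (ee i) ψ) := by rw [hQ]; exact MemLp.coeFn_toLp _
    have hQS : Q ∈ K := by
      apply Submodule.le_topologicalClosure
      exact Submodule.subset_span ⟨_, hi1, hi2, hi3, hQae⟩
    -- orthogonality to `W`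
    have hgW : inner ℝ g W = 0 := by
      rw [L2.inner_def]
      have h1 : ∫ x, inner ℝ (g x) (W x) ∂μ = ∫ x, inner ℝ (gradient u x) (PROJ_W i ψ x) ∂μ := by
        apply integral_congr_ae
        filter_upwards [hgae, hWae] with x h1 h2
        rw [h1, h2]
      rw [h1, hμ, PROJ_full hs fun x hx => by rw [PROJ_W_zero hψ hx, inner_zero_right]]
      exact PROJ_ibp hsol.isOpen hsol.c1 hψ hc (hs.trans hball) i
    have hPW : inner ℝ P W = 0 := by
      apply hK W _ P hPK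
      rintro h ⟨f, hf1, hf2, hf3, hf4⟩
      rw [L2.inner_def]
      have h1 : ∫ x, inner ℝ (h x) (W x) ∂μ = ∫ x, inner ℝ (gradient f x) (PROJ_W i ψ x) ∂μ := by
        apply integral_congr_ae
        filter_upwards [hf4, hWae] with x h1 h2
        rw [h1, h2]
      rw [h1, hμ, PROJ_full hs fun x hx => by rw [PROJ_W_zero hψ hx, inner_zero_right]]
      exact PROJ_ibp isOpen_univ (hf1.of_le (by simp)).contDiffOn hψ hc
        (subset_univ _) i
    -- orthogonality to `Q`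
    have hgQ : inner ℝ (g + P) Q = 0 := by
      rw [inner_add_left, hP Q hQS, ← inner_add_left, L2.inner_def]
      have h1 : ∫ x, inner ℝ ((g + φ : Lp (En n) 2 μ) x) (Q x) ∂μ =
          ∫ x, inner ℝ (A x (gradient u x)) (gradient (PROJ_pd (ee i) ψ) x) ∂μ := by
        apply integral_congr_ae
        filter_upwards [hgae, hφae, hQae, Lp.coeFn_add g φ] with x h1 h2 h3 h4
        rw [h4, Pi.add_apply, h1, h2, h3, add_sub_cancel]
      rw [h1, hμ, PROJ_full hi3 fun x hx => by rw [PROJ_gradient_zero hx, inner_zero_right]]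
      exact hsol.weak _ hi1 hi2 (hi3.trans hball)
    -- the sum
    have hfin : inner ℝ (g + P) (W + Q) = 0 := by
      rw [inner_add_right, hgQ, inner_add_left, hgW, hPW]; simp
    rw [L2.inner_def] at hfin
    have h2 : ∫ x, inner ℝ ((g + P : Lp (En n) 2 μ) x) ((W + Q : Lp (En n) 2 μ) x) ∂μ =
        ∫ x, inner ℝ (ee i) ((g + P : Lp (En n) 2 μ) x) * lap ψ x ∂μ := by
      apply integral_congr_ae
      filter_upwards [hWae, hQae, Lp.coeFn_add W Q] with x h1 h2 h3
      rw [h3, Pi.add_apply, h1, h2]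
      unfold PROJ_W
      rw [sub_add_cancel, inner_smul_right, real_inner_comm, mul_comm]
    rw [h2] at hfin
    rw [← PROJ_full hs]
    · exact hfin
    · intro x hx
      have h1 := PROJ_W_zero hψ (i := i) hx
      unfold PROJ_W at h1
      rw [PROJ_gradient_zero (fun h => hx (PROJ_pd_tsupport ψ (ee i) h)), sub_zero] at h1
      have h3 : (ee i : En n) ≠ 0 := by
        intro h0
        have := congrArg norm h0
        simp [ee] at this
      rcases smul_eq_zero.1 h1 with h | h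
      · rw [h, mul_zero]
      · exact absurd h h3
  · -- the norm bound
    have hn : ∀ h : Lp (En n) 2 μ, ∫ x, ‖h x‖ ^ 2 ∂μ = ‖h‖ ^ 2 := by
      intro h
      rw [← real_inner_self_eq_norm_sq, L2.inner_def]
      simp_rw [real_inner_self_eq_norm_sq]
    have h1 : ∫ x in ball (0 : En n) R, ‖gradient u x - (g + P : Lp (En n) 2 μ) x‖ ^ 2 =
        ‖P‖ ^ 2 := by
      rw [← hn P]
      apply integral_congr_ae
      filter_upwards [hgae, Lp.coeFn_add g P] with x h1 h2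
      rw [h2, Pi.add_apply, h1, sub_add_cancel_left, norm_neg]
    have h2 : ‖φ‖ ^ 2 ≤ σ ^ 2 * ∫ x in ball 0 R, ‖gradient u x‖ ^ 2 := by
      rw [← hn φ, ← integral_const_mul]
      have h3 : ∫ x, ‖φ x‖ ^ 2 ∂μ = ∫ x, ‖A x (gradient u x) - gradient u x‖ ^ 2 ∂μ := by
        apply integral_congr_ae
        filter_upwards [hφae] with x h1
        rw [h1]
      rw [h3]
      refine integral_mono_ae ?_ ?_ ?_
      · exact hF2.integrable_norm_pow (by norm_num)
      · exact (hg2.integrable_norm_pow (by norm_num)).const_mul _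
      · rw [hμ]
        refine ae_restrict_of_forall_mem measurableSet_ball fun x hx => ?_
        have h4 : A x (gradient u x) - gradient u x = (A x - 1) (gradient u x) := by simp
        have h5 : ‖A x (gradient u x) - gradient u x‖ ≤ σ * ‖gradient u x‖ := by
          rw [h4]
          exact ((A x - 1).le_opNorm _).trans
            (mul_le_mul_of_nonneg_right (hclose x hx) (norm_nonneg _))
        calc ‖A x (gradient u x) - gradient u x‖ ^ 2 ≤ (σ * ‖gradient u x‖) ^ 2 :=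
              pow_le_pow_left₀ (norm_nonneg _) h5 2
          _ = σ ^ 2 * ‖gradient u x‖ ^ 2 := by ring
    rw [h1]
    refine le_trans ?_ h2
    exact pow_le_pow_left₀ (norm_nonneg _) hPn 2

end EAGrad

end

section

/-!
MP_ea6116_an, item B6: pointwise Carleman estimate for weak solutions.
-/

set_option autoImplicit false

open MeasureTheory Metric Set Filter Topology
open scoped ENNReal NNReal ContDiff Manifold

namespace EAGrad

variable {n : ℕ}

/-- Extension of a smooth function from a neighbourhood of a closed set. -/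
theorem PT_ext {D K : Set (En n)} (hD : IsOpen D) (hK : IsClosed K) (hKD : K ⊆ D)
    {f : En n → ℝ} (hf : ContDiffOn ℝ ∞ f D) :
    ∃ f' : En n → ℝ, ContDiff ℝ ∞ f' ∧ ∀ x ∈ K, f' =ᶠ[𝓝 x] f := by
  obtain ⟨θ, h0, h1, -⟩ := exists_contMDiffMap_zero_one_nhds_of_isClosed (n := ⊤) 𝓘(ℝ, En n)
    hD.isClosed_compl hK (disjoint_compl_left_iff_subset.2 hKD)
  refine ⟨fun x => θ x * f x, ?_, fun x hx => ?_⟩
  · rw [contDiff_iff_contDiffAt]
    intro x
    have hθ : ContDiff ℝ ∞ θ := θ.contMDiff.contDiff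
    by_cases hx : x ∈ D
    · exact hθ.contDiffAt.mul (hf.contDiffAt (hD.mem_nhds hx))
    · have h2 : ∀ᶠ y in 𝓝 x, θ y = 0 := (eventually_nhdsSet_iff_forall.1 h0) x hx
      have h3 : (fun x => θ x * f x) =ᶠ[𝓝 x] fun _ => 0 := by
        filter_upwards [h2] with y hy
        rw [hy, zero_mul]
      exact contDiffAt_const.congr_of_eventuallyEq h3
  · have h2 : ∀ᶠ y in 𝓝 x, θ y = 1 := (eventually_nhdsSet_iff_forall.1 h1) x hx
    filter_upwards [h2] with y hy
    rw [hy, one_mul]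

theorem PT_gradient_eq (u : En n → ℝ) (x : En n) :
    gradient u x = (InnerProductSpace.toDual ℝ (En n)).symm (fderiv ℝ u x) := rfl

theorem PT_contDiff_gradient {u : En n → ℝ} (hu : ContDiff ℝ ∞ u) : ContDiff ℝ ∞ (gradient u) := by
  have h1 : ContDiff ℝ ∞ (fderiv ℝ u) := hu.fderiv_right (by simp)
  exact (InnerProductSpace.toDual ℝ (En n)).symm.contDiff.comp h1

theorem PT_congr_gradient {u v : En n → ℝ} {x : En n} (h : u =ᶠ[𝓝 x] v) :
    gradient u =ᶠ[𝓝 x] gradient v := by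
  filter_upwards [h.fderiv (𝕜 := ℝ)] with y hy
  rw [PT_gradient_eq, PT_gradient_eq, hy]

theorem PT_divA_congr {A : En n → Op n} {u v : En n → ℝ} {x : En n} (h : u =ᶠ[𝓝 x] v) :
    divA A u x = divA A v x := by
  unfold divA dv
  have h1 : (fun y => A y (gradient u y)) =ᶠ[𝓝 x] fun y => A y (gradient v y) := by
    filter_upwards [PT_congr_gradient h] with y hy
    rw [hy]
  rw [h1.fderiv_eq]

theorem PT_gradient_mul {f g : En n → ℝ} {x : En n} (hf : DifferentiableAt ℝ f x)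
    (hg : DifferentiableAt ℝ g x) :
    gradient (fun y => f y * g y) x = g x • gradient f x + f x • gradient g x := by
  rw [PT_gradient_eq, PT_gradient_eq, PT_gradient_eq, fderiv_fun_mul hf hg]
  simp only [map_add, map_smul]
  rw [add_comm]

theorem PT_inner_ee (i : Fin n) (z : En n) : inner ℝ (ee i) z = z i := by
  unfold ee
  rw [EuclideanSpace.inner_single_left]
  simp

theorem PT_sum_ee (z : En n) : ∑ i, z i • ee i = z := by
  ext j
  simp [ee, Finset.sum_apply, Pi.single_apply]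

theorem PT_norm_ee (i : Fin n) : ‖(ee i : En n)‖ = 1 := by
  unfold ee
  simp

theorem PT_dv_smul {f : En n → ℝ} {Z : En n → En n} {x : En n} (hf : DifferentiableAt ℝ f x)
    (hZ : DifferentiableAt ℝ Z x) :
    dv (fun y => f y • Z y) x = inner ℝ (gradient f x) (Z x) + f x * dv Z x := by
  unfold dv
  have h1 : fderiv ℝ (fun y => f y • Z y) x = f x • fderiv ℝ Z x + (fderiv ℝ f x).smulRight (Z x) :=
    fderiv_fun_smul hf hZ
  rw [h1, inner_gradient, Finset.mul_sum]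
  have h2 : ∀ i : Fin n, inner ℝ (ee i) ((f x • fderiv ℝ Z x + (fderiv ℝ f x).smulRight (Z x))
      (ee i)) = f x * inner ℝ (ee i) (fderiv ℝ Z x (ee i)) + (Z x) i * fderiv ℝ f x (ee i) := by
    intro i
    rw [add_apply, inner_add_right, smul_apply,
      inner_smul_right, ContinuousLinearMap.smulRight_apply, inner_smul_right, PT_inner_ee i (Z x)]
    ring
  simp only [h2]
  rw [Finset.sum_add_distrib, add_comm]
  congr 1
  conv_rhs => rw [← PT_sum_ee (Z x)]
  rw [map_sum]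
  refine Finset.sum_congr rfl fun i _ => ?_
  rw [map_smul, smul_eq_mul]

theorem PT_dv_add {Z W : En n → En n} {x : En n} (hZ : DifferentiableAt ℝ Z x)
    (hW : DifferentiableAt ℝ W x) : dv (fun y => Z y + W y) x = dv Z x + dv W x := by
  unfold dv
  rw [fderiv_fun_add hZ hW, ← Finset.sum_add_distrib]
  refine Finset.sum_congr rfl fun i _ => ?_
  rw [add_apply, inner_add_right]

theorem PT_divA_mul {A : En n → Op n} {f g : En n → ℝ} {x : En n} (hA : ContDiff ℝ ∞ A)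
    (hf : ContDiff ℝ ∞ f) (hg : ContDiff ℝ ∞ g)
    (hs : ∀ ξ η, inner ℝ (A x ξ) η = inner ℝ ξ (A x η)) :
    divA A (fun y => f y * g y) x =
      f x * divA A g x + 2 * inner ℝ (A x (gradient f x)) (gradient g x) + g x * divA A f x := by
  have hfd : Differentiable ℝ f := hf.differentiable (by simp)
  have hgd : Differentiable ℝ g := hg.differentiable (by simp)
  have hZ1 : Differentiable ℝ (fun y => A y (gradient f y)) :=
    (hA.clm_apply (PT_contDiff_gradient hf)).differentiable (by simp)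
  have hZ2 : Differentiable ℝ (fun y => A y (gradient g y)) :=
    (hA.clm_apply (PT_contDiff_gradient hg)).differentiable (by simp)
  have h1 : (fun y => A y (gradient (fun y => f y * g y) y)) =
      fun y => g y • A y (gradient f y) + f y • A y (gradient g y) := by
    funext y
    rw [PT_gradient_mul (hfd y) (hgd y), map_add, map_smul, map_smul]
  unfold divA
  rw [h1, PT_dv_add ((hgd x).fun_smul (hZ1 x)) ((hfd x).fun_smul (hZ2 x)),
    PT_dv_smul (hgd x) (hZ1 x), PT_dv_smul (hfd x) (hZ2 x)]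
  rw [real_inner_comm (A x (gradient f x)) (gradient g x), ← hs (gradient f x) (gradient g x)]
  ring

/-- The Riesz map as a real linear map. -/
noncomputable def PT_S (n : ℕ) : (En n →L[ℝ] ℝ) →L[ℝ] En n :=
  LinearMap.mkContinuous
    { toFun := fun l => (InnerProductSpace.toDual ℝ (En n)).symm l
      map_add' := fun a b => map_add _ a b
      map_smul' := fun c a => by simp } 1 (fun l => by simp)

theorem PT_S_apply (l : En n →L[ℝ] ℝ) :
    PT_S n l = (InnerProductSpace.toDual ℝ (En n)).symm l := rfl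

theorem PT_norm_S (l : En n →L[ℝ] ℝ) : ‖PT_S n l‖ = ‖l‖ := by
  rw [PT_S_apply, LinearIsometryEquiv.norm_map]

theorem PT_fderiv_gradient {f : En n → ℝ} (hf : ContDiff ℝ ∞ f) (x : En n) :
    fderiv ℝ (gradient f) x = (PT_S n).comp (fderiv ℝ (fderiv ℝ f) x) := by
  have hd : DifferentiableAt ℝ (fderiv ℝ f) x :=
    (hf.fderiv_right (m := ∞) (by simp)).differentiable (by simp) x
  have h5 : HasFDerivAt (gradient f) ((PT_S n).comp (fderiv ℝ (fderiv ℝ f) x)) x :=
    (PT_S n).hasFDerivAt.comp x hd.hasFDerivAt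
  exact h5.fderiv

/-- The bound of `divA A χ` for bounded `χ`. -/
theorem PT_divA_bound {A : En n → Op n} {f : En n → ℝ} {x : En n} {M : ℝ} (_hM : 0 ≤ M)
    (hA : ContDiff ℝ ∞ A) (hf : ContDiff ℝ ∞ f) (h1 : ‖A x - 1‖ ≤ 1) (h2 : ‖fderiv ℝ A x‖ ≤ 1)
    (h3 : ‖fderiv ℝ f x‖ ≤ M) (h4 : ‖fderiv ℝ (fderiv ℝ f) x‖ ≤ M) :
    |divA A f x| ≤ 3 * n * M := by
  have hG : DifferentiableAt ℝ (gradient f) x :=
    (PT_contDiff_gradient hf).differentiable (by simp) x
  have hAd : DifferentiableAt ℝ A x := hA.differentiable (by simp) x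
  have hGd : ∀ v, fderiv ℝ (gradient f) x v = PT_S n (fderiv ℝ (fderiv ℝ f) x v) := by
    intro v
    rw [PT_fderiv_gradient hf]
    rfl
  have hAn : ‖A x‖ ≤ 2 := by
    have : A x = (A x - 1) + 1 := by abel
    rw [this]
    refine (norm_add_le _ _).trans ?_
    have h6 : ‖(1 : Op n)‖ ≤ 1 := ContinuousLinearMap.norm_id_le
    linarith
  have hv : ∀ i : Fin n, |inner ℝ (ee i) (fderiv ℝ (fun y => A y (gradient f y)) x (ee i))| ≤
      3 * M := by
    intro i
    have h5 : fderiv ℝ (fun y => A y (gradient f y)) x (ee i) =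
        A x (fderiv ℝ (gradient f) x (ee i)) + (fderiv ℝ A x (ee i)) (gradient f x) := by
      rw [fderiv_clm_apply hAd hG]
      simp
    rw [h5]
    refine (abs_real_inner_le_norm _ _).trans ?_
    rw [PT_norm_ee, one_mul]
    refine (norm_add_le _ _).trans ?_
    have a1 : ‖A x (fderiv ℝ (gradient f) x (ee i))‖ ≤ 2 * M := by
      refine ((A x).le_opNorm _).trans ?_
      rw [hGd]
      have : ‖PT_S n (fderiv ℝ (fderiv ℝ f) x (ee i))‖ ≤ M := by
        rw [PT_norm_S]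
        refine ((fderiv ℝ (fderiv ℝ f) x).le_opNorm _).trans ?_
        rw [PT_norm_ee, mul_one]
        exact h4
      exact mul_le_mul hAn this (norm_nonneg _) (by norm_num)
    have a2 : ‖(fderiv ℝ A x (ee i)) (gradient f x)‖ ≤ M := by
      refine ((fderiv ℝ A x (ee i)).le_opNorm _).trans ?_
      have b1 : ‖fderiv ℝ A x (ee i)‖ ≤ 1 := by
        refine ((fderiv ℝ A x).le_opNorm _).trans ?_
        rw [PT_norm_ee, mul_one]
        exact h2
      rw [norm_gradient]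
      calc ‖fderiv ℝ A x (ee i)‖ * ‖fderiv ℝ f x‖ ≤ 1 * M :=
            mul_le_mul b1 h3 (norm_nonneg _) (by norm_num)
        _ = M := one_mul _
    linarith
  unfold divA dv
  refine (Finset.abs_sum_le_sum_abs _ _).trans ?_
  refine (Finset.sum_le_sum fun i _ => hv i).trans (le_of_eq ?_)
  rw [Finset.sum_const, Finset.card_univ, Fintype.card_fin, nsmul_eq_mul]
  ring

theorem PT_divA_zero {A : En n → Op n} {f : En n → ℝ} {x : En n}
    (hA : ContDiff ℝ ∞ A) (hf : ContDiff ℝ ∞ f) (h3 : fderiv ℝ f x = 0)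
    (h4 : fderiv ℝ (fderiv ℝ f) x = 0) : divA A f x = 0 := by
  have hG : DifferentiableAt ℝ (gradient f) x :=
    (PT_contDiff_gradient hf).differentiable (by simp) x
  have hAd : DifferentiableAt ℝ A x := hA.differentiable (by simp) x
  have h6 : fderiv ℝ (gradient f) x = 0 := by
    rw [PT_fderiv_gradient hf, h4, ContinuousLinearMap.comp_zero]
  have h7 : gradient f x = 0 := by
    rw [PT_gradient_eq, h3, map_zero]
  unfold divA dv
  refine Finset.sum_eq_zero fun i _ => ?_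
  rw [fderiv_clm_apply hAd hG, h6, h7]
  simp

theorem PT_gradient_sub_const (u : En n → ℝ) (c₀ : ℝ) :
    gradient (fun x => u x - c₀) = gradient u := by
  funext x
  rw [PT_gradient_eq, PT_gradient_eq, fderiv_sub_const]

theorem PT_divA_sub_const (A : En n → Op n) (u : En n → ℝ) (c₀ : ℝ) (x : En n) :
    divA A (fun x => u x - c₀) x = divA A u x := by
  unfold divA
  rw [PT_gradient_sub_const]

/-- Transfer of the weight hypotheses. -/
theorem PT_CW {M c : ℝ} {D K : Set (En n)} {φ B g φ' B' : En n → ℝ} (h : CW M c D φ B g)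
    (hK : K ⊆ D) (h1 : ∀ x ∈ K, φ' =ᶠ[𝓝 x] φ) (h2 : ∀ x ∈ K, B' =ᶠ[𝓝 x] B) :
    CW M c K φ' B' g := by
  have d2 : ∀ x ∈ K, fderiv ℝ (fderiv ℝ φ') x = fderiv ℝ (fderiv ℝ φ) x := fun x hx =>
    ((h1 x hx).fderiv (𝕜 := ℝ)).fderiv_eq
  have d1 : ∀ x ∈ K, gradient φ' x = gradient φ x := fun x hx =>
    (PT_congr_gradient (h1 x hx)).eq_of_nhds
  have dD : ∀ x ∈ K, ∀ ξ η, D2 φ' x ξ η = D2 φ x ξ η := by
    intro x hx ξ η
    unfold D2
    rw [d2 x hx]
  constructor
  · intro x hx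
    rw [(h1 x hx).fderiv_eq]
    exact h.bd1 x (hK hx)
  · intro x hx
    rw [d2 x hx]
    exact h.bd2 x (hK hx)
  · exact fun x hx => h.bdg x (hK hx)
  · intro x hx
    rw [(h2 x hx).fderiv_eq]
    exact h.bdB x (hK hx)
  · intro x hx
    rw [(h2 x hx).eq_of_nhds, h.eqB x (hK hx)]
    unfold lap
    simp only [dD x hx]
  · intro x hx ξ
    rw [dD x hx]
    exact h.h1 x (hK hx) ξ
  · intro x hx
    rw [d1 x hx, dD x hx]
    exact h.h2 x (hK hx)

/-- The pointwise bound of the commutator. -/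
theorem PT_point {M ε c₀ τ Q E φx : ℝ} {A : En n → Op n} {χ u' u : En n → ℝ} {x : En n}
    (hn : 1 ≤ n) (hM : 0 < M) (hε : 0 < ε) (hQ : 0 ≤ Q) (hE : Real.exp (τ * φx) ≤ E)
    (hA : ContDiff ℝ ∞ A) (hχ : ContDiff ℝ ∞ χ) (hu' : ContDiff ℝ ∞ u')
    (hs : ∀ ξ η, inner ℝ (A x ξ) η = inner ℝ ξ (A x η)) (hA1 : ‖A x - 1‖ ≤ 1)
    (hA2 : ‖fderiv ℝ A x‖ ≤ 1) (hχ0 : 0 ≤ χ x ∧ χ x ≤ 1) (hχ1 : ‖fderiv ℝ χ x‖ ≤ M)
    (hχ2 : ‖fderiv ℝ (fderiv ℝ χ) x‖ ≤ M) (h1 : |u' x - u x| ≤ ε)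
    (h2 : ‖gradient u' x - gradient u x‖ ≤ ε) (h3 : |divA A u' x| ≤ ε)
    (hq : (fderiv ℝ χ x ≠ 0 ∨ fderiv ℝ (fderiv ℝ χ) x ≠ 0) →
      Real.exp (τ * φx) * (‖gradient u x‖ + |u x - c₀|) ≤ Q) :
    Real.exp (2 * τ * φx) * divA A (fun y => χ y * (u' y - c₀)) x ^ 2 ≤
      (1 + 8 * n * M) ^ 2 * (Q + ε * E) ^ 2 := by
  have hn' : (1 : ℝ) ≤ n := by exact_mod_cast hn
  have hp := Real.exp_pos (τ * φx)
  set p := Real.exp (τ * φx) with hpdef
  have hE0 : 0 < E := hp.trans_le hE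
  have hcomp : divA A (fun y => χ y * (u' y - c₀)) x = χ x * divA A u' x +
      2 * inner ℝ (A x (gradient χ x)) (gradient u' x) + (u' x - c₀) * divA A χ x := by
    rw [PT_divA_mul hA hχ (hu'.sub contDiff_const) hs, PT_divA_sub_const, PT_gradient_sub_const]
  have hmain : p * |divA A (fun y => χ y * (u' y - c₀)) x| ≤ (1 + 8 * n * M) * (Q + ε * E) := by
    rw [hcomp]
    have t1 : |χ x * divA A u' x| ≤ ε := by
      rw [abs_mul, abs_of_nonneg hχ0.1]
      calc χ x * |divA A u' x| ≤ 1 * ε := mul_le_mul hχ0.2 h3 (abs_nonneg _) (by norm_num)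
        _ = ε := one_mul _
    by_cases hd : fderiv ℝ χ x = 0 ∧ fderiv ℝ (fderiv ℝ χ) x = 0
    · have e1 : gradient χ x = 0 := by rw [PT_gradient_eq, hd.1, map_zero]
      rw [e1, PT_divA_zero hA hχ hd.1 hd.2]
      simp only [map_zero, inner_zero_left, mul_zero, add_zero]
      calc p * |χ x * divA A u' x| ≤ E * ε := mul_le_mul hE t1 (abs_nonneg _) hE0.le
        _ ≤ (1 + 8 * n * M) * (Q + ε * E) := by
            have : 0 ≤ 8 * (n : ℝ) * M := by positivity
            have h4 : 0 ≤ Q + ε * E := by positivity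
            nlinarith
    · have hd' : fderiv ℝ χ x ≠ 0 ∨ fderiv ℝ (fderiv ℝ χ) x ≠ 0 := by
        by_contra hcon
        push Not at hcon
        exact hd hcon
      have hq' := hq hd'
      set a := ‖gradient u x‖ with ha
      set b := |u x - c₀| with hb
      have ha0 : 0 ≤ a := norm_nonneg _
      have hb0 : 0 ≤ b := abs_nonneg _
      have hAn : ‖A x‖ ≤ 2 := by
        have : A x = (A x - 1) + 1 := by abel
        rw [this]
        refine (norm_add_le _ _).trans ?_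
        have h6 : ‖(1 : Op n)‖ ≤ 1 := ContinuousLinearMap.norm_id_le
        linarith
      have g1 : ‖gradient u' x‖ ≤ a + ε := by
        have : gradient u' x = gradient u x + (gradient u' x - gradient u x) := by abel
        rw [this]
        exact (norm_add_le _ _).trans (by linarith)
      have g2 : |u' x - c₀| ≤ b + ε := by
        have : u' x - c₀ = (u x - c₀) + (u' x - u x) := by ring
        rw [this]
        exact (abs_add_le _ _).trans (by linarith)
      have t2 : |2 * inner ℝ (A x (gradient χ x)) (gradient u' x)| ≤ 4 * M * (a + ε) := by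
        rw [abs_mul, abs_of_pos (by norm_num : (0 : ℝ) < 2)]
        have := abs_real_inner_le_norm (A x (gradient χ x)) (gradient u' x)
        have k1 : ‖A x (gradient χ x)‖ ≤ 2 * M := by
          refine ((A x).le_opNorm _).trans ?_
          rw [norm_gradient]
          exact mul_le_mul hAn hχ1 (norm_nonneg _) (by norm_num)
        have k2 : ‖A x (gradient χ x)‖ * ‖gradient u' x‖ ≤ 2 * M * (a + ε) :=
          mul_le_mul k1 g1 (norm_nonneg _) (by positivity)
        linarith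
      have t3 : |(u' x - c₀) * divA A χ x| ≤ (b + ε) * (3 * n * M) := by
        rw [abs_mul]
        exact mul_le_mul g2 (PT_divA_bound hM.le hA hχ hA1 hA2 hχ1 hχ2) (abs_nonneg _)
          (by positivity)
      have t4 : |χ x * divA A u' x + 2 * inner ℝ (A x (gradient χ x)) (gradient u' x) +
          (u' x - c₀) * divA A χ x| ≤ ε * (1 + 7 * n * M) + 4 * n * M * (a + b) := by
        refine (abs_add_le _ _).trans ?_
        have t5 := abs_add_le (χ x * divA A u' x) (2 * inner ℝ (A x (gradient χ x)) (gradient u' x))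
        have k3 : M ≤ n * M := by nlinarith
        have k4 : 4 * M * (a + ε) ≤ 4 * (n * M) * (a + ε) := by
          have : 0 ≤ a + ε := by positivity
          nlinarith
        have k5 : 0 ≤ n * M * b := by positivity
        nlinarith
      calc p * |χ x * divA A u' x + 2 * inner ℝ (A x (gradient χ x)) (gradient u' x) +
          (u' x - c₀) * divA A χ x| ≤ p * (ε * (1 + 7 * n * M) + 4 * n * M * (a + b)) :=
            mul_le_mul_of_nonneg_left t4 hp.le
        _ = p * ε * (1 + 7 * n * M) + 4 * n * M * (p * (a + b)) := by ring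
        _ ≤ E * ε * (1 + 7 * n * M) + 4 * n * M * Q := by
            have k6 : 0 ≤ 4 * (n : ℝ) * M := by positivity
            have k7 : 0 ≤ ε * (1 + 7 * n * M) := by positivity
            have k8 := mul_le_mul_of_nonneg_left hq' k6
            have k9 := mul_le_mul_of_nonneg_right hE k7
            linarith
        _ ≤ (1 + 8 * n * M) * (Q + ε * E) := by
            have k10 : 0 ≤ n * M * (ε * E) := by positivity
            have k11 : 0 ≤ n * M * Q := by positivity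
            nlinarith
  have e2 : Real.exp (2 * τ * φx) = p ^ 2 := by
    rw [hpdef, ← Real.exp_nat_mul]
    congr 1
    push_cast
    ring
  rw [e2, ← sq_abs (divA A (fun y => χ y * (u' y - c₀)) x), ← mul_pow, ← mul_pow]
  exact pow_le_pow_left₀ (by positivity) hmain 2

/-- One step: the Carleman estimate for the mollified function. -/
theorem PT_step {M c r' s₀ s₁ τ₀ C₁ : ℝ} (hn : 1 ≤ n) (hM0 : 0 < M)
    (hs₀ : s₀ ≤ s₁) (hs₀' : s₀ ≤ 1) (hC₁ : 0 < C₁)
    (HC : ∀ (D : Set (En n)) (φ B g v : En n → ℝ) (A : En n → Op n) (τ : ℝ), IsOpen D →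
      ContDiff ℝ ∞ φ → ContDiff ℝ ∞ B → ContDiff ℝ ∞ v → ContDiff ℝ ∞ A →
      HasCompactSupport v → tsupport v ⊆ D → CW M c D φ B g →
      (∀ x ∈ D, ∀ ξ η, inner ℝ (A x ξ) η = inner ℝ ξ (A x η)) →
      (∀ x ∈ D, ‖A x - 1‖ ≤ s₁) → (∀ x ∈ D, ‖fderiv ℝ A x‖ ≤ s₁) → τ₀ ≤ τ →
      τ * (∫ x, Real.exp (2 * τ * φ x) * ‖gradient v x‖ ^ 2) +
        τ ^ 3 * (∫ x, Real.exp (2 * τ * φ x) * v x ^ 2) ≤
      C₁ * ∫ x, Real.exp (2 * τ * φ x) * divA A v x ^ 2)
    (D K₁ : Set (En n)) (φ φ' B B' g χ : En n → ℝ) (A' : En n → Op n) (u u' : En n → ℝ)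
    (y : En n) (c₀ φ₀ τ Q ε E : ℝ) (hDM : D ⊆ ball 0 M) (hK₁D : K₁ ⊆ D)
    (hφ' : ContDiff ℝ ∞ φ') (hB' : ContDiff ℝ ∞ B')
    (hφφ : ∀ x ∈ K₁, φ' =ᶠ[𝓝 x] φ) (hBB : ∀ x ∈ K₁, B' =ᶠ[𝓝 x] B)
    (hχ : ContDiff ℝ ∞ χ) (hχc : HasCompactSupport χ) (hχs : tsupport χ ⊆ interior K₁)
    (hχ01 : ∀ x, 0 ≤ χ x ∧ χ x ≤ 1) (hCW : CW M c D φ B g)
    (hχd : ∀ x ∈ D, ‖fderiv ℝ χ x‖ ≤ M ∧ ‖fderiv ℝ (fderiv ℝ χ) x‖ ≤ M)
    (hy : ∀ x ∈ closedBall y r', χ x = 1 ∧ φ₀ ≤ φ x) (hτ : τ₀ ≤ τ) (hτ1 : 1 ≤ τ) (hQ : 0 ≤ Q)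
    (hq : ∀ x ∈ D, (fderiv ℝ χ x ≠ 0 ∨ fderiv ℝ (fderiv ℝ χ) x ≠ 0) →
      Real.exp (τ * φ x) * (‖gradient u x‖ + |u x - c₀|) ≤ Q)
    (hE : ∀ x ∈ K₁, Real.exp (τ * φ x) ≤ E) (hε : 0 < ε) (hA' : ContDiff ℝ ∞ A')
    (hu' : ContDiff ℝ ∞ u')
    (hmoll : ∀ x ∈ K₁, (∀ ξ η, inner ℝ (A' x ξ) η = inner ℝ ξ (A' x η)) ∧ ‖A' x - 1‖ ≤ s₀ ∧
      ‖fderiv ℝ A' x‖ ≤ s₀ ∧ |u' x - u x| ≤ ε ∧ ‖gradient u' x - gradient u x‖ ≤ ε ∧
      |divA A' u' x| ≤ ε) :
    Real.exp (2 * τ * φ₀) * ∫ x in closedBall y r', ‖gradient u' x‖ ^ 2 ≤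
      C₁ * ((1 + 8 * n * M) ^ 2 * volume.real (ball (0 : En n) M)) * (Q + ε * E) ^ 2 := by
  set v : En n → ℝ := fun x => χ x * (u' x - c₀) with hv
  have hint : interior K₁ ⊆ K₁ := interior_subset
  have hvs : tsupport v ⊆ tsupport χ :=
    closure_minimal (fun x hx => by
      have : χ x ≠ 0 := fun h0 => hx (by simp only [hv, h0, zero_mul])
      exact subset_tsupport χ this) (isClosed_tsupport χ)
  have hvc : HasCompactSupport v := hχc.mul_right
  have hvd : ContDiff ℝ ∞ v := hχ.mul (hu'.sub contDiff_const)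
  have key := HC (interior K₁) φ' B' g v A' τ isOpen_interior hφ' hB' hvd hA' hvc
    (hvs.trans hχs)
    (PT_CW (K := interior K₁) hCW (hint.trans hK₁D) (fun x hx => hφφ x (hint hx))
      (fun x hx => hBB x (hint hx)))
    (fun x hx => (hmoll x (hint hx)).1) (fun x hx => (hmoll x (hint hx)).2.1.trans hs₀)
    (fun x hx => (hmoll x (hint hx)).2.2.1.trans hs₀) hτ
  -- right hand side
  set c₃ : ℝ := (1 + 8 * n * M) ^ 2 * (Q + ε * E) ^ 2 with hc₃
  have hc₃0 : 0 ≤ c₃ := by positivity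
  have hR : ∫ x, Real.exp (2 * τ * φ' x) * divA A' v x ^ 2 ≤
      c₃ * volume.real (ball (0 : En n) M) := by
    have h1 : ∫ x, Real.exp (2 * τ * φ' x) * divA A' v x ^ 2 ≤
        ∫ x, (ball (0 : En n) M).indicator (fun _ => c₃) x := by
      apply integral_mono_of_nonneg
      · exact Filter.Eventually.of_forall fun x => mul_nonneg (Real.exp_pos _).le (sq_nonneg _)
      · rw [integrable_indicator_iff measurableSet_ball]
        exact integrableOn_const (measure_ball_lt_top.ne)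
      · refine Filter.Eventually.of_forall fun x => ?_
        by_cases hx : x ∈ tsupport χ
        · have hxK : x ∈ K₁ := hint (hχs hx)
          have hxD : x ∈ D := hK₁D hxK
          obtain ⟨m1, m2, m3, m4, m5, m6⟩ := hmoll x hxK
          simp only [indicator_of_mem (hDM hxD)]
          rw [(hφφ x hxK).eq_of_nhds]
          exact PT_point hn hM0 hε hQ (hE x hxK) hA' hχ hu' m1 (m2.trans hs₀')
            (m3.trans hs₀') (hχ01 x) (hχd x hxD).1 (hχd x hxD).2 m4 m5 m6 (hq x hxD)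
        · have h0 : v =ᶠ[𝓝 x] fun _ => 0 :=
            notMem_tsupport_iff_eventuallyEq.1 (fun h => hx (hvs h))
          have h2 : divA A' v x = 0 := by
            rw [PT_divA_congr h0]
            exact PT_divA_zero hA' contDiff_const (by simp) (by simp)
          simp only [h2]
          rw [zero_pow two_ne_zero, mul_zero]
          exact indicator_nonneg (fun _ _ => hc₃0) x
    refine h1.trans (le_of_eq ?_)
    rw [integral_indicator measurableSet_ball, setIntegral_const, smul_eq_mul, mul_comm]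
  -- left hand side
  have hLint : Integrable (fun x => Real.exp (2 * τ * φ' x) * ‖gradient v x‖ ^ 2) := by
    apply Continuous.integrable_of_hasCompactSupport
    · have := (PT_contDiff_gradient hvd).continuous
      have := hφ'.continuous
      fun_prop
    · refine (hvc.fderiv (𝕜 := ℝ)).mono fun x hx h0 => hx ?_
      simp only [PT_gradient_eq, h0, map_zero, norm_zero]
      simp
  have hL : Real.exp (2 * τ * φ₀) * ∫ x in closedBall y r', ‖gradient u' x‖ ^ 2 ≤
      ∫ x, Real.exp (2 * τ * φ' x) * ‖gradient v x‖ ^ 2 := by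
    have h1 : ∫ x in closedBall y r', Real.exp (2 * τ * φ' x) * ‖gradient v x‖ ^ 2 ≤
        ∫ x, Real.exp (2 * τ * φ' x) * ‖gradient v x‖ ^ 2 :=
      setIntegral_le_integral hLint
        (Filter.Eventually.of_forall fun x => mul_nonneg (Real.exp_pos _).le (sq_nonneg _))
    refine le_trans ?_ h1
    rw [← integral_const_mul]
    apply setIntegral_mono_on
    · apply ContinuousOn.integrableOn_compact (isCompact_closedBall y r')
      have := (PT_contDiff_gradient hu').continuous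
      exact (by fun_prop : Continuous fun x =>
        Real.exp (2 * τ * φ₀) * ‖gradient u' x‖ ^ 2).continuousOn
    · exact hLint.integrableOn
    · exact measurableSet_closedBall
    · intro x hx
      obtain ⟨hx1, hx2⟩ := hy x hx
      have hxs : x ∈ tsupport χ := subset_tsupport χ (by simp [hx1])
      have hxK : x ∈ K₁ := hint (hχs hxs)
      have hmax : IsLocalMax χ x :=
        Filter.Eventually.of_forall fun z => by rw [hx1]; exact (hχ01 z).2
      have hd0 : fderiv ℝ χ x = 0 := hmax.fderiv_eq_zero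
      have hg : gradient v x = gradient u' x := by
        simp only [hv]
        rw [PT_gradient_mul (hχ.differentiable (by simp) x)
          ((hu'.sub contDiff_const).differentiable (by simp) x), PT_gradient_sub_const, hx1,
          PT_gradient_eq χ, hd0, map_zero, smul_zero, zero_add, one_smul]
      rw [hg, (hφφ x hxK).eq_of_nhds]
      apply mul_le_mul_of_nonneg_right _ (sq_nonneg _)
      apply Real.exp_le_exp.2
      have : 0 ≤ 2 * τ := by linarith
      nlinarith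
  have h0 : 0 ≤ τ ^ 3 * ∫ x, Real.exp (2 * τ * φ' x) * v x ^ 2 :=
    mul_nonneg (by positivity)
      (integral_nonneg fun x => mul_nonneg (Real.exp_pos _).le (sq_nonneg _))
  have hI0 : 0 ≤ ∫ x, Real.exp (2 * τ * φ' x) * ‖gradient v x‖ ^ 2 :=
    integral_nonneg fun x => mul_nonneg (Real.exp_pos _).le (sq_nonneg _)
  calc Real.exp (2 * τ * φ₀) * ∫ x in closedBall y r', ‖gradient u' x‖ ^ 2
      ≤ ∫ x, Real.exp (2 * τ * φ' x) * ‖gradient v x‖ ^ 2 := hL
    _ ≤ τ * ∫ x, Real.exp (2 * τ * φ' x) * ‖gradient v x‖ ^ 2 := by nlinarith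
    _ ≤ C₁ * ∫ x, Real.exp (2 * τ * φ' x) * divA A' v x ^ 2 := by linarith
    _ ≤ C₁ * (c₃ * volume.real (ball (0 : En n) M)) := mul_le_mul_of_nonneg_left hR hC₁.le
    _ = _ := by rw [hc₃]; ring

/-- Item B6. -/
theorem PT (hCARL : StmtCARL) (hMOLL : StmtMOLL) (hR1 : StmtR1) : StmtPT := by
  intro n M c r' hn hM0 hc hr'
  obtain ⟨s₁, τ₁, C₁, hs₁, hτ₁, hC₁, HC⟩ := hCARL n M c hM0 hc
  obtain ⟨C₂, s₂, hC₂, hs₂, HR⟩ := hR1 n hn
  set V : ℝ := volume.real (ball (0 : En n) M) with hV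
  set C₄ : ℝ := C₁ * ((1 + 8 * n * M) ^ 2 * V) with hC₄
  have hC₄0 : 0 ≤ C₄ := by positivity
  set C₅ : ℝ := C₂ / r' ^ n * (2 * C₄) + 1 with hC₅
  have hC₅0 : 0 < C₅ := by positivity
  set s₀ : ℝ := min (min s₁ 1) (min s₂ (s₂ / r')) with hs₀
  have hs₀0 : 0 < s₀ := lt_min (lt_min hs₁ one_pos) (lt_min hs₂ (div_pos hs₂ hr'))
  have hs01 : s₀ ≤ s₁ := (min_le_left _ _).trans (min_le_left _ _)
  have hs02 : s₀ ≤ 1 := (min_le_left _ _).trans (min_le_right _ _)
  have hs03 : s₀ ≤ s₂ := (min_le_right _ _).trans (min_le_left _ _)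
  have hs04 : s₀ ≤ s₂ / r' := (min_le_right _ _).trans (min_le_right _ _)
  refine ⟨s₀, max τ₁ 1, Real.sqrt C₅, hs₀0, lt_max_of_lt_left hτ₁, Real.sqrt_pos.2 hC₅0, ?_⟩
  intro D φ B g χ A u y c₀ φ₀ τ Q hD hDM hφ hB hχ hχc hχD hχ01 hCW hχd hNear hSol hyD hy hτ hQ hq
  have hτ1 : τ₁ ≤ τ := (le_max_left _ _).trans hτ
  have hτ2 : 1 ≤ τ := (le_max_right _ _).trans hτ
  obtain ⟨K₁, hK₁c, hK₁i, hK₁D⟩ := exists_compact_between hχc hD hχD
  obtain ⟨Φ, hΦ⟩ := hK₁c.exists_bound_of_continuousOn (hφ.continuousOn.mono hK₁D)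
  obtain ⟨φ', hφ'c, hφ'e⟩ := PT_ext hD hK₁c.isClosed hK₁D hφ
  obtain ⟨B', hB'c, hB'e⟩ := PT_ext hD hK₁c.isClosed hK₁D hB
  set E : ℝ := Real.exp (τ * Φ) with hE
  have hE' : ∀ x ∈ K₁, Real.exp (τ * φ x) ≤ E := by
    intro x hx
    apply Real.exp_le_exp.2
    have := (le_abs_self _).trans (hΦ x hx)
    have h0 : 0 ≤ τ := by linarith
    exact mul_le_mul_of_nonneg_left this h0
  have hcB : closedBall y r' ⊆ K₁ := fun x hx =>
    interior_subset (hK₁i (subset_tsupport χ (by simp [(hy x hx).1])))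
  set I : ℝ := ∫ x in closedBall y r', ‖gradient u x‖ ^ 2 with hI
  have hgc : ContinuousOn (gradient u) (closedBall y r') :=
    hSol.continuousOn_gradient.mono (hcB.trans hK₁D)
  set V' : ℝ := volume.real (closedBall y r') with hV'
  -- the estimate with an error
  have hstep : ∀ ε : ℝ, 0 < ε → Real.exp (2 * τ * φ₀) * I ≤
      2 * (C₄ * (Q + ε * E) ^ 2) + Real.exp (2 * τ * φ₀) * (2 * ε ^ 2 * V') := by
    intro ε hε
    obtain ⟨A', u', hA', hu', hmoll⟩ := hMOLL n A u D K₁ s₀ ε hSol hNear hK₁c hK₁D hε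
    have h1 := PT_step (c₀ := c₀) hn hM0 hs01 hs02 hC₁ HC D K₁ φ φ' B B' g χ A' u u' y φ₀ τ Q ε E
      hDM hK₁D hφ'c hB'c hφ'e hB'e hχ hχc hK₁i hχ01 hCW hχd hy hτ1 hτ2 hQ hq hE' hε hA' hu' hmoll
    have h2 : I ≤ ∫ x in closedBall y r', (2 * ‖gradient u' x‖ ^ 2 + 2 * ε ^ 2) := by
      apply setIntegral_mono_on
      · exact (hgc.norm.pow 2).integrableOn_compact (isCompact_closedBall y r')
      · apply ContinuousOn.integrableOn_compact (isCompact_closedBall y r')
        have := (PT_contDiff_gradient hu').continuous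
        exact (by fun_prop : Continuous fun x => 2 * ‖gradient u' x‖ ^ 2 + 2 * ε ^ 2).continuousOn
      · exact measurableSet_closedBall
      · intro x hx
        have h3 := (hmoll x (hcB hx)).2.2.2.2.1
        have h4 : ‖gradient u x‖ ≤ ‖gradient u' x‖ + ε := by
          have : gradient u x = gradient u' x - (gradient u' x - gradient u x) := by abel
          rw [this]
          exact (norm_sub_le _ _).trans (by linarith)
        have h5 := norm_nonneg (gradient u x)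
        nlinarith [sq_nonneg (‖gradient u' x‖ - ε), norm_nonneg (gradient u' x)]
    have h3 : ∫ x in closedBall y r', (2 * ‖gradient u' x‖ ^ 2 + 2 * ε ^ 2) =
        2 * (∫ x in closedBall y r', ‖gradient u' x‖ ^ 2) + 2 * ε ^ 2 * V' := by
      rw [integral_add, integral_const_mul, setIntegral_const, smul_eq_mul, mul_comm V']
      · apply ContinuousOn.integrableOn_compact (isCompact_closedBall y r')
        have := (PT_contDiff_gradient hu').continuous
        exact (by fun_prop : Continuous fun x => 2 * ‖gradient u' x‖ ^ 2).continuousOn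
      · exact integrableOn_const (isCompact_closedBall y r').measure_lt_top.ne
    rw [h3] at h2
    have hp := Real.exp_pos (2 * τ * φ₀)
    have h4 := mul_le_mul_of_nonneg_left h2 hp.le
    have h5 : C₁ * ((1 + 8 * n * M) ^ 2 * volume.real (ball (0 : En n) M)) = C₄ := rfl
    rw [h5] at h1
    linarith
  have hlim : Real.exp (2 * τ * φ₀) * I ≤ 2 * (C₄ * Q ^ 2) := by
    have h1 : Tendsto (fun ε : ℝ => 2 * (C₄ * (Q + ε * E) ^ 2) +
        Real.exp (2 * τ * φ₀) * (2 * ε ^ 2 * V')) (𝓝[>] 0) (𝓝 (2 * (C₄ * (Q + 0 * E) ^ 2) +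
        Real.exp (2 * τ * φ₀) * (2 * 0 ^ 2 * V'))) := by
      apply tendsto_nhdsWithin_of_tendsto_nhds
      exact (by fun_prop : Continuous fun ε : ℝ => 2 * (C₄ * (Q + ε * E) ^ 2) +
        Real.exp (2 * τ * φ₀) * (2 * ε ^ 2 * V')).tendsto 0
    have h2 := ge_of_tendsto h1 (eventually_mem_nhdsWithin.mono fun ε hε => hstep ε hε)
    refine h2.trans (le_of_eq ?_)
    ring
  -- the interior estimate
  have hR := HR A u D y r' hr' hSol hyD
    (hNear.mono hs03 hs04 hyD)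
  have hfin : (Real.exp (τ * φ₀) * ‖gradient u y‖) ^ 2 ≤ (Real.sqrt C₅ * Q) ^ 2 := by
    have e2 : Real.exp (2 * τ * φ₀) = Real.exp (τ * φ₀) ^ 2 := by
      rw [← Real.exp_nat_mul]
      congr 1
      push_cast
      ring
    rw [mul_pow, mul_pow, Real.sq_sqrt hC₅0.le, ← e2]
    have hp := Real.exp_pos (2 * τ * φ₀)
    have hk : 0 ≤ C₂ / r' ^ n := by positivity
    calc Real.exp (2 * τ * φ₀) * ‖gradient u y‖ ^ 2
        ≤ Real.exp (2 * τ * φ₀) * (C₂ / r' ^ n * I) := mul_le_mul_of_nonneg_left hR hp.le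
      _ = C₂ / r' ^ n * (Real.exp (2 * τ * φ₀) * I) := by ring
      _ ≤ C₂ / r' ^ n * (2 * (C₄ * Q ^ 2)) := mul_le_mul_of_nonneg_left hlim hk
      _ ≤ C₅ * Q ^ 2 := by
          rw [hC₅]
          nlinarith [sq_nonneg Q]
  exact le_of_sq_le_sq hfin (by positivity)

end EAGrad

end

section

/-!
MP_ea6116_an: interior estimate for the gradient (item R1).
-/

set_option autoImplicit false

open MeasureTheory Metric Set Filter Topology
open scoped ENNReal NNReal ContDiff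

namespace EAGrad

theorem R1_eta_nonneg (t : ℝ) : 0 ≤ eta t := Real.smoothTransition.nonneg _

theorem R1_eta_le_one (t : ℝ) : eta t ≤ 1 := Real.smoothTransition.le_one _

theorem R1_eta_zero {t : ℝ} (ht : 1 / 2 ≤ t) : eta t = 0 := by
  unfold eta
  exact Real.smoothTransition.zero_of_nonpos (by linarith)

theorem R1_abs_Ker_le {n : ℕ} (z : En n) : |Ker z| ≤ |(∫ y : En n, eta (‖y‖ ^ 2))⁻¹| := by
  unfold Ker
  rw [div_eq_mul_inv, abs_mul, abs_of_nonneg (R1_eta_nonneg _)]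
  exact mul_le_of_le_one_left (abs_nonneg _) (R1_eta_le_one _)

theorem R1_Ker_zero {n : ℕ} {z : En n} (hz : 1 ≤ ‖z‖) : Ker z = 0 := by
  unfold Ker
  rw [R1_eta_zero (by nlinarith), zero_div]

/-- Cauchy-Schwarz on a set of finite measure. -/
theorem R1_cs {n : ℕ} {B : Set (En n)} {g : En n → ℝ}
    (hfin : volume B ≠ ⊤) (hg : IntegrableOn g B) (hg2 : IntegrableOn (fun x => g x ^ 2) B) :
    (∫ x in B, g x) ^ 2 ≤ volume.real B * ∫ x in B, g x ^ 2 := by
  rcases eq_or_ne (volume.real B) 0 with h0 | h0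
  · have h1 : volume B = 0 := by
      rcases (ENNReal.toReal_eq_zero_iff _).1 h0 with h | h
      · exact h
      · exact absurd h hfin
    have h2 : ∫ x in B, g x = 0 := by
      rw [Measure.restrict_eq_zero.2 h1, integral_zero_measure]
    rw [h2, h0]
    simp
  · have hpos : 0 < volume.real B := lt_of_le_of_ne measureReal_nonneg (Ne.symm h0)
    set V := volume.real B with hV
    set I := ∫ x in B, g x with hI
    have hc : IntegrableOn (fun _ : En n => (1 : ℝ)) B := integrableOn_const hfin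
    have h1 : 0 ≤ ∫ x in B, (g x - I / V) ^ 2 := integral_nonneg fun x => sq_nonneg _
    have h2 : ∫ x in B, (g x - I / V) ^ 2 = (∫ x in B, g x ^ 2) - I ^ 2 / V := by
      have e1 : (fun x => (g x - I / V) ^ 2) =
          fun x => (g x ^ 2 - 2 * (I / V) * g x) + (I / V) ^ 2 * 1 := by
        ext x; ring
      have i1 : Integrable (fun x => g x ^ 2) (volume.restrict B) := hg2
      have i2 : Integrable (fun x => 2 * (I / V) * g x) (volume.restrict B) := hg.const_mul _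
      have i3 : Integrable (fun _ : En n => (I / V) ^ 2 * (1 : ℝ)) (volume.restrict B) :=
        hc.const_mul _
      have i4 : Integrable (fun x => g x ^ 2 - 2 * (I / V) * g x) (volume.restrict B) := i1.sub i2
      rw [e1, integral_add i4 i3, integral_sub i1 i2, integral_const_mul, integral_const_mul]
      have e2 : ∫ x in B, (1 : ℝ) = V := by simp [hV]
      rw [e2, ← hI]
      field_simp
      ring
    rw [h2] at h1
    have h3 : I ^ 2 / V ≤ ∫ x in B, g x ^ 2 := by linarith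
    rw [div_le_iff₀ hpos] at h3
    linarith

theorem R1_scale {n : ℕ} (F : En n → ℝ) (y : En n) {ρ : ℝ} (hρ : 0 < ρ) :
    ∫ z in closedBall (0 : En n) 1, F (y + ρ • z) = (ρ ^ n)⁻¹ * ∫ z in closedBall y ρ, F z := by
  have h1 : ∫ z in closedBall (0 : En n) 1, F (y + ρ • z) =
      ∫ z : En n, (closedBall y ρ).indicator F (y + ρ • z) := by
    rw [← integral_indicator measurableSet_closedBall]
    apply integral_congr_ae
    refine Eventually.of_forall fun z => ?_
    have hiff : z ∈ closedBall (0 : En n) 1 ↔ y + ρ • z ∈ closedBall y ρ := by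
      rw [mem_closedBall, mem_closedBall, dist_zero_right, dist_eq_norm, add_sub_cancel_left,
        norm_smul, Real.norm_of_nonneg hρ.le]
      constructor
      · intro h; nlinarith
      · intro h; by_contra h2; push Not at h2; nlinarith
    by_cases hz : z ∈ closedBall (0 : En n) 1
    · simp only [indicator_of_mem hz, indicator_of_mem (hiff.1 hz)]
    · simp only [indicator_of_notMem hz, indicator_of_notMem (fun h => hz (hiff.2 h))]
  rw [h1]
  have h2 := Measure.integral_comp_smul (volume : Measure (En n))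
    (fun z => (closedBall y ρ).indicator F (y + z)) ρ
  rw [h2, integral_add_left_eq_self (fun z => (closedBall y ρ).indicator F z) y,
    integral_indicator measurableSet_closedBall, smul_eq_mul]
  congr 1
  rw [finrank_euclideanSpace_fin, abs_of_pos (by positivity)]

theorem R1 (hMV : StmtMV) (hSC : StmtSC) : StmtR1 := by
  intro n hn
  obtain ⟨C₁, s₁, hC₁, hs₁, hmv⟩ := hMV n hn
  obtain ⟨K0, hK0⟩ : ∃ K0 : ℝ, K0 = |(∫ y : En n, eta (‖y‖ ^ 2))⁻¹| := ⟨_, rfl⟩
  have hK0n : 0 ≤ K0 := hK0 ▸ abs_nonneg _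
  obtain ⟨V, hV⟩ : ∃ V : ℝ, V = volume.real (closedBall (0 : En n) 1) := ⟨_, rfl⟩
  have hVn : 0 ≤ V := hV ▸ measureReal_nonneg
  -- the choice of s₀
  obtain ⟨s₀, hs₀⟩ : ∃ s₀ : ℝ, s₀ = min s₁ (1 / (C₁ * 2 ^ (n + 2))) := ⟨_, rfl⟩
  have hs₀pos : 0 < s₀ := hs₀ ▸ lt_min hs₁ (by positivity)
  have hs₀' : 2 ^ (n + 1) * (C₁ * s₀) ^ 2 ≤ 1 / 2 := by
    have h1 : C₁ * s₀ ≤ 1 / 2 ^ (n + 2) := by
      calc C₁ * s₀ ≤ C₁ * (1 / (C₁ * 2 ^ (n + 2))) := by gcongr; exact hs₀ ▸ min_le_right _ _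
        _ = 1 / 2 ^ (n + 2) := by field_simp
    have h2 : (C₁ * s₀) ^ 2 ≤ (1 / 2 ^ (n + 2)) * (1 / 2 ^ (n + 2)) := by
      rw [sq]
      exact mul_le_mul h1 h1 (by positivity) (by positivity)
    have h3 : (1 : ℝ) / 2 ^ (n + 2) ≤ 1 := by
      rw [div_le_one (by positivity)]
      exact one_le_pow₀ (by norm_num)
    calc (2 : ℝ) ^ (n + 1) * (C₁ * s₀) ^ 2
        ≤ 2 ^ (n + 1) * ((1 / 2 ^ (n + 2)) * (1 / 2 ^ (n + 2))) := by gcongr
      _ = 1 / 2 * (1 / 2 ^ (n + 2)) := by rw [pow_succ 2 (n + 1)]; field_simp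
      _ ≤ 1 / 2 := by linarith
  refine ⟨2 ^ (n + 2) * K0 ^ 2 * V + 1, s₀, by positivity, hs₀pos, ?_⟩
  intro A u U x r hr hsol hU hnear
  obtain ⟨a2, ha2⟩ : ∃ a2 : ℝ, a2 = ∫ y in closedBall x r, ‖gradient u y‖ ^ 2 := ⟨_, rfl⟩
  have ha2n : 0 ≤ a2 := ha2 ▸ integral_nonneg fun _ => sq_nonneg _
  rw [← ha2]
  have hcont : ContinuousOn (gradient u) (closedBall x r) := hsol.continuousOn_gradient.mono hU
  have hint2 : IntegrableOn (fun y => ‖gradient u y‖ ^ 2) (closedBall x r) :=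
    ((hcont.norm.pow 2).integrableOn_compact (isCompact_closedBall x r))
  obtain ⟨Φ, hΦ⟩ : ∃ Φ : En n → ℝ, Φ = fun y => (r - ‖y - x‖) ^ n * ‖gradient u y‖ ^ 2 := ⟨_, rfl⟩
  have hΦcont : ContinuousOn Φ (closedBall x r) := by
    rw [hΦ]
    exact ((continuous_const.sub (continuous_id.sub continuous_const).norm).pow n).continuousOn.mul
      (hcont.norm.pow 2)
  obtain ⟨y, hy, hmax⟩ := (isCompact_closedBall x r).exists_isMaxOn
    ⟨x, mem_closedBall_self hr.le⟩ hΦcont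
  have hmax' : ∀ z ∈ closedBall x r, Φ z ≤ Φ y := fun z hz => hmax hz
  have hyx : ‖y - x‖ ≤ r := by rw [← dist_eq_norm]; exact hy
  have hΦyn : 0 ≤ Φ y := by
    have : 0 ≤ r - ‖y - x‖ := by linarith
    rw [hΦ]
    exact mul_nonneg (pow_nonneg this n) (sq_nonneg _)
  -- the bound for the maximum
  have key : Φ y ≤ 2 ^ (n + 2) * K0 ^ 2 * V * a2 := by
    rcases eq_or_lt_of_le hyx with heq | hlt
    · have : Φ y = 0 := by
        rw [hΦ]
        simp only
        rw [heq, sub_self, zero_pow (by omega), zero_mul]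
      rw [this]; positivity
    · obtain ⟨ρ, hρ⟩ : ∃ ρ : ℝ, ρ = (r - ‖y - x‖) / 2 := ⟨_, rfl⟩
      have hρpos : 0 < ρ := by rw [hρ]; linarith
      have hρr : ρ ≤ r := by rw [hρ]; linarith [norm_nonneg (y - x)]
      have hsub : closedBall y ρ ⊆ closedBall x r := by
        apply closedBall_subset_closedBall'
        rw [dist_eq_norm, hρ]; linarith
      have hsol1 : Sol A u (ball y (1 * ρ)) := by
        rw [one_mul]
        exact hsol.mono isOpen_ball ((ball_subset_closedBall.trans hsub).trans hU)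
      have hnear1 : Near s₀ (s₀ / r) A (ball y (1 * ρ)) := by
        rw [one_mul]
        exact hnear.mono le_rfl le_rfl (ball_subset_closedBall.trans hsub)
      obtain ⟨hsol2, hnear2, hgr, -⟩ := hSC n A u y 1 ρ s₀ (s₀ / r) hρpos hsol1 hnear1
      have hnear3 : Near s₀ s₀ (fun z => A (y + ρ • z)) (ball 0 1) := by
        refine hnear2.mono le_rfl ?_ subset_rfl
        rw [div_mul_eq_mul_div, div_le_iff₀ hr]
        gcongr
      obtain ⟨M, hM⟩ : ∃ M : ℝ, M = Real.sqrt (Φ y / ρ ^ n) := ⟨_, rfl⟩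
      have hbd : ∀ z ∈ ball (0 : En n) 1,
          ‖gradient (fun z => ρ⁻¹ * u (y + ρ • z)) z‖ ≤ M := by
        intro z hz
        rw [hgr z]
        have hz1 : ‖z‖ < 1 := by simpa using hz
        have hzin : y + ρ • z ∈ closedBall x r := by
          apply hsub
          rw [mem_closedBall, dist_eq_norm, add_sub_cancel_left, norm_smul,
            Real.norm_of_nonneg hρpos.le]
          nlinarith
        have h1 : ρ ≤ r - ‖y + ρ • z - x‖ := by
          have : ‖y + ρ • z - x‖ ≤ ‖y - x‖ + ρ := by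
            calc ‖y + ρ • z - x‖ = ‖(y - x) + ρ • z‖ := by congr 1; abel
              _ ≤ ‖y - x‖ + ‖ρ • z‖ := norm_add_le _ _
              _ ≤ ‖y - x‖ + ρ := by
                rw [norm_smul, Real.norm_of_nonneg hρpos.le]
                nlinarith
          have h2 : 2 * ρ = r - ‖y - x‖ := by rw [hρ]; ring
          linarith
        rw [hM]
        apply Real.le_sqrt_of_sq_le
        rw [le_div_iff₀ (by positivity)]
        calc ‖gradient u (y + ρ • z)‖ ^ 2 * ρ ^ n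
            ≤ ‖gradient u (y + ρ • z)‖ ^ 2 * (r - ‖y + ρ • z - x‖) ^ n := by gcongr
          _ = Φ (y + ρ • z) := by rw [hΦ]; simp only; ring
          _ ≤ Φ y := hmax' _ hzin
      have hmv1 := hmv (fun z => A (y + ρ • z)) (fun z => ρ⁻¹ * u (y + ρ • z)) 0 s₀ M
        hs₀pos.le (hs₀ ▸ min_le_left _ _) hsol2 hnear3 hbd
      rw [hgr 0] at hmv1
      simp only [hgr, smul_zero, add_zero, zero_add] at hmv1
      -- the average
      obtain ⟨G, hG⟩ : ∃ G : En n → En n, G = fun z => gradient u (y + ρ • z) := ⟨_, rfl⟩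
      have hGc : ContinuousOn G (closedBall 0 1) := by
        rw [hG]
        apply hcont.comp (by fun_prop)
        intro z hz
        apply hsub
        rw [mem_closedBall, dist_eq_norm, add_sub_cancel_left, norm_smul,
          Real.norm_of_nonneg hρpos.le]
        have : ‖z‖ ≤ 1 := by simpa using hz
        nlinarith
      have hGi : IntegrableOn (fun z => ‖G z‖) (closedBall 0 1) :=
        hGc.norm.integrableOn_compact (isCompact_closedBall _ _)
      have hGi2 : IntegrableOn (fun z => ‖G z‖ ^ 2) (closedBall 0 1) :=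
        (hGc.norm.pow 2).integrableOn_compact (isCompact_closedBall _ _)
      have hav : ‖∫ z, Ker z • G z‖ ≤ K0 * ∫ z in closedBall (0 : En n) 1, ‖G z‖ := by
        rw [← integral_const_mul, ← integral_indicator measurableSet_closedBall]
        apply norm_integral_le_of_norm_le
        · have h1 : IntegrableOn (fun z => K0 * ‖G z‖) (closedBall (0 : En n) 1) :=
            hGi.const_mul K0
          exact h1.integrable_indicator measurableSet_closedBall
        · refine Eventually.of_forall fun z => ?_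
          by_cases hz : z ∈ closedBall (0 : En n) 1
          · rw [indicator_of_mem hz, norm_smul, hK0]
            exact mul_le_mul_of_nonneg_right (R1_abs_Ker_le z) (norm_nonneg _)
          · rw [indicator_of_notMem hz]
            have : 1 ≤ ‖z‖ := by
              rw [mem_closedBall, dist_zero_right, not_le] at hz
              exact hz.le
            rw [R1_Ker_zero this, zero_smul, norm_zero]
      have hcs := R1_cs (B := closedBall (0 : En n) 1) (g := fun z => ‖G z‖)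
        (measure_closedBall_lt_top).ne hGi hGi2
      simp only [← hV] at hcs
      have hsc : ∫ z in closedBall (0 : En n) 1, ‖G z‖ ^ 2 ≤ (ρ ^ n)⁻¹ * a2 := by
        have h1 := R1_scale (fun z => ‖gradient u z‖ ^ 2) y hρpos
        rw [hG]
        simp only
        rw [h1, ha2]
        apply mul_le_mul_of_nonneg_left _ (by positivity)
        exact setIntegral_mono_set hint2 (Eventually.of_forall fun _ => sq_nonneg _)
          (Eventually.of_forall hsub)
      have hav2 : ‖∫ z, Ker z • G z‖ ^ 2 ≤ K0 ^ 2 * V * ((ρ ^ n)⁻¹ * a2) := by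
        calc ‖∫ z, Ker z • G z‖ ^ 2 ≤ (K0 * ∫ z in closedBall (0 : En n) 1, ‖G z‖) ^ 2 := by
              gcongr
          _ = K0 ^ 2 * (∫ z in closedBall (0 : En n) 1, ‖G z‖) ^ 2 := by ring
          _ ≤ K0 ^ 2 * (V * ∫ z in closedBall (0 : En n) 1, ‖G z‖ ^ 2) := by gcongr
          _ ≤ K0 ^ 2 * (V * ((ρ ^ n)⁻¹ * a2)) := by gcongr
          _ = _ := by ring
      have hMsq : M ^ 2 = Φ y / ρ ^ n := by
        rw [hM, Real.sq_sqrt (by positivity)]
      have hmv3 : ‖gradient u y - ∫ z, Ker z • G z‖ ≤ C₁ * s₀ * M := by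
        rw [hG]; exact hmv1
      have hmv2 : ‖gradient u y‖ ^ 2 ≤ 2 * ((C₁ * s₀ * M) ^ 2 + K0 ^ 2 * V * ((ρ ^ n)⁻¹ * a2)) := by
        have h1 : ‖gradient u y‖ ≤ C₁ * s₀ * M + ‖∫ z, Ker z • G z‖ := by
          calc ‖gradient u y‖ = ‖(gradient u y - ∫ z, Ker z • G z) + ∫ z, Ker z • G z‖ := by
                rw [sub_add_cancel]
            _ ≤ _ := (norm_add_le _ _).trans (by gcongr)
        have h2 : ‖gradient u y‖ ^ 2 ≤ (C₁ * s₀ * M + ‖∫ z, Ker z • G z‖) ^ 2 := by gcongr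
        nlinarith [sq_nonneg (C₁ * s₀ * M - ‖∫ z, Ker z • G z‖)]
      have hΦy : Φ y = 2 ^ n * ρ ^ n * ‖gradient u y‖ ^ 2 := by
        rw [hΦ]
        simp only
        rw [← mul_pow]
        congr 2
        rw [hρ]; ring
      have hρn : 0 < ρ ^ n := by positivity
      have h5 : Φ y ≤ 2 ^ (n + 1) * (C₁ * s₀) ^ 2 * Φ y + 2 ^ (n + 1) * K0 ^ 2 * V * a2 := by
        calc Φ y = 2 ^ n * ρ ^ n * ‖gradient u y‖ ^ 2 := hΦy
          _ ≤ 2 ^ n * ρ ^ n * (2 * ((C₁ * s₀ * M) ^ 2 + K0 ^ 2 * V * ((ρ ^ n)⁻¹ * a2))) := by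
              gcongr
          _ = 2 ^ n * ρ ^ n * (2 * ((C₁ * s₀) ^ 2 * (Φ y / ρ ^ n) +
                K0 ^ 2 * V * ((ρ ^ n)⁻¹ * a2))) := by rw [mul_pow (C₁ * s₀) M, hMsq]
          _ = _ := by field_simp; ring
      have h6 : 2 ^ (n + 1) * (C₁ * s₀) ^ 2 * Φ y ≤ 1 / 2 * Φ y := by gcongr
      have h7 : Φ y ≤ 2 * (2 ^ (n + 1) * K0 ^ 2 * V * a2) := by linarith
      calc Φ y ≤ 2 * (2 ^ (n + 1) * K0 ^ 2 * V * a2) := h7
        _ = _ := by ring
  have hx : Φ x ≤ Φ y := hmax' x (mem_closedBall_self hr.le)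
  have hΦx : Φ x = r ^ n * ‖gradient u x‖ ^ 2 := by
    rw [hΦ]; simp
  have hrn : 0 < r ^ n := by positivity
  rw [div_mul_eq_mul_div, le_div_iff₀ hrn]
  calc ‖gradient u x‖ ^ 2 * r ^ n = Φ x := by rw [hΦx]; ring
    _ ≤ 2 ^ (n + 2) * K0 ^ 2 * V * a2 := hx.trans key
    _ ≤ (2 ^ (n + 2) * K0 ^ 2 * V + 1) * a2 := by nlinarith

end EAGrad

end

section

/-!
MP_ea6116_an, item SL: slopes of `log Dg` are almost increasing when they are large.
-/

set_option autoImplicit false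

open MeasureTheory Metric Set Filter Topology
open scoped ENNReal NNReal ContDiff

namespace EAGrad

/-- The scalar part of the three ball step. -/
theorem SL_scalar {κ e lam C₁ c₁ T₀ T N a t₁ t₂ D₁ D₂ D₃ : ℝ} (hκ : 0 < κ) (hκe : κ = e / 24)
    (he : e ≤ 1 / 2) (hlam : 1 < lam) (hC₁ : 1 ≤ C₁) (hc₁ : lam ^ c₁ = 2 * C₁) (hc₁' : 0 ≤ c₁)
    (hT₀ : 0 < T₀) (hT : T = max T₀ ((a + c₁) / (1 - κ))) (hN : 2 * T₀ + 8 * c₁ ≤ e * N)
    (hN0 : 0 ≤ N) (ha : 0 ≤ a) (haN : a ≤ 3 * N) (ht₁ : lam ≤ t₁) (ht₂ : lam ≤ t₂)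
    (hD₁ : 0 ≤ D₁) (hD₂ : 0 ≤ D₂) (hD₃ : 0 ≤ D₃)
    (h : D₂ ≤ C₁ * (t₁ ^ ((1 + κ) * T) * D₁ + t₂ ^ (-((1 - κ) * T)) * D₃))
    (h3 : D₃ ≤ t₂ ^ a * D₂) : D₂ ≤ t₁ ^ (a + e * N) * D₁ := by
  have he0 : 0 < e := by linarith
  have hκ1 : κ ≤ 1 / 48 := by linarith
  have h1κ : 0 < 1 - κ := by linarith
  have ht₁1 : 1 ≤ t₁ := by linarith
  have ht₂1 : 1 ≤ t₂ := by linarith
  have ht₁0 : 0 < t₁ := by linarith
  have ht₂0 : 0 < t₂ := by linarith
  have hlam0 : 0 < lam := by linarith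
  -- the second term
  have hTa : a + c₁ ≤ (1 - κ) * T := by
    have h5 : (a + c₁) / (1 - κ) ≤ T := by rw [hT]; exact le_max_right _ _
    rw [div_le_iff₀ h1κ] at h5
    linarith
  have h6 : t₂ ^ (-((1 - κ) * T)) ≤ (t₂ ^ a)⁻¹ * (2 * C₁)⁻¹ := by
    calc t₂ ^ (-((1 - κ) * T)) ≤ t₂ ^ (-(a + c₁)) :=
          Real.rpow_le_rpow_of_exponent_le ht₂1 (by linarith)
      _ = (t₂ ^ a)⁻¹ * (t₂ ^ c₁)⁻¹ := by
          rw [Real.rpow_neg ht₂0.le, Real.rpow_add ht₂0, mul_inv]
      _ ≤ (t₂ ^ a)⁻¹ * (lam ^ c₁)⁻¹ := by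
          apply mul_le_mul_of_nonneg_left _ (inv_nonneg.2 (Real.rpow_nonneg ht₂0.le _))
          exact inv_anti₀ (Real.rpow_pos_of_pos hlam0 _)
            (Real.rpow_le_rpow hlam0.le ht₂ hc₁')
      _ = (t₂ ^ a)⁻¹ * (2 * C₁)⁻¹ := by rw [hc₁]
  have h7 : C₁ * (t₂ ^ (-((1 - κ) * T)) * D₃) ≤ D₂ / 2 := by
    have hp : 0 < t₂ ^ a := Real.rpow_pos_of_pos ht₂0 _
    calc C₁ * (t₂ ^ (-((1 - κ) * T)) * D₃) ≤ C₁ * (((t₂ ^ a)⁻¹ * (2 * C₁)⁻¹) * (t₂ ^ a * D₂)) := by
          apply mul_le_mul_of_nonneg_left _ (by linarith)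
          exact mul_le_mul h6 h3 hD₃ (by positivity)
      _ = D₂ / 2 := by
          have hC0 : C₁ ≠ 0 := by linarith
          field_simp
  have h8 : D₂ ≤ 2 * C₁ * (t₁ ^ ((1 + κ) * T) * D₁) := by
    rw [mul_add] at h
    linarith
  have h9 : 2 * C₁ ≤ t₁ ^ c₁ := by
    rw [← hc₁]
    exact Real.rpow_le_rpow hlam0.le ht₁ hc₁'
  have h10 : c₁ + (1 + κ) * T ≤ a + e * N := by
    rcases le_total ((a + c₁) / (1 - κ)) T₀ with h11 | h11
    · rw [hT, max_eq_left h11]
      nlinarith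
    · rw [hT, max_eq_right h11]
      have h12 : (1 + κ) * ((a + c₁) / (1 - κ)) = (a + c₁) + 2 * κ * ((a + c₁) / (1 - κ)) := by
        field_simp
        ring
      have h13 : (a + c₁) / (1 - κ) ≤ 2 * (a + c₁) := by
        rw [div_le_iff₀ h1κ]
        nlinarith
      have h14 : 2 * κ * ((a + c₁) / (1 - κ)) ≤ 2 * κ * (2 * (a + c₁)) :=
        mul_le_mul_of_nonneg_left h13 (by linarith)
      rw [h12]
      have h15 : 2 * κ * (2 * (a + c₁)) ≤ 12 * κ * N + 4 * κ * c₁ := by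
        nlinarith
      have h16 : 12 * κ * N = e * N / 2 := by rw [hκe]; ring
      nlinarith
  calc D₂ ≤ 2 * C₁ * (t₁ ^ ((1 + κ) * T) * D₁) := h8
    _ ≤ t₁ ^ c₁ * (t₁ ^ ((1 + κ) * T) * D₁) :=
        mul_le_mul_of_nonneg_right h9 (mul_nonneg (Real.rpow_nonneg ht₁0.le _) hD₁)
    _ = t₁ ^ (c₁ + (1 + κ) * T) * D₁ := by rw [Real.rpow_add ht₁0, mul_assoc]
    _ ≤ t₁ ^ (a + e * N) * D₁ :=
        mul_le_mul_of_nonneg_right (Real.rpow_le_rpow_of_exponent_le ht₁1 h10) hD₁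

/-- The three ball step: a bound for the slope between `r₂` and `r₃` gives a bound for the slope
between `r₁` and `r₂`. -/
theorem SL_TB (hTB : StmtTB0) (hSC : StmtSC) (n : ℕ) (ε q₀ lam : ℝ) (hn : 1 ≤ n) (hε : 0 < ε)
    (hε1 : ε < 1) (hq₀ : 0 < q₀) (hlam : 1 < lam) :
    ∃ s₀ N₁ : ℝ, 0 < s₀ ∧ 0 < N₁ ∧ ∀ (A : En n → Op n) (u : En n → ℝ) (x : En n) (R N : ℝ),
      0 < R → Sol A u (ball x (4 * R)) → Near s₀ (s₀ / R) A (ball x (4 * R)) → N₁ ≤ N →
      ∀ a r₁ r₂ r₃, 0 ≤ a → a ≤ 3 * N → q₀ * R ≤ r₁ → lam * r₁ ≤ r₂ → lam * r₂ ≤ r₃ →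
        r₃ ≤ 2 * R → Dg u x r₃ ≤ (r₃ / r₂) ^ a * Dg u x r₂ →
        Dg u x r₂ ≤ (r₂ / r₁) ^ (a + ε / 2 * N) * Dg u x r₁ := by
  obtain ⟨s₀, T₀, C, hs₀, hT₀, hC, H⟩ := hTB n (ε / 48) (q₀ / 2) lam hn (by linarith) (by linarith)
    (by linarith) hlam
  set C₁ : ℝ := max C 1 with hC₁
  have hC₁1 : 1 ≤ C₁ := le_max_right _ _
  have hlog : 0 < Real.log lam := Real.log_pos hlam
  set c₁ : ℝ := Real.log (2 * C₁) / Real.log lam with hc₁
  have hc₁0 : 0 ≤ c₁ := div_nonneg (Real.log_nonneg (by linarith)) hlog.le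
  have hc₁e : lam ^ c₁ = 2 * C₁ := by
    rw [Real.rpow_def_of_pos (by linarith), hc₁, mul_div_cancel₀ _ hlog.ne',
      Real.exp_log (by linarith)]
  refine ⟨s₀ / 2, 1 + (2 * T₀ + 8 * c₁) / (ε / 2), by linarith, by positivity, ?_⟩
  intro A u x R N hR hSol hNear hN a r₁ r₂ r₃ ha haN h1 h2 h3 h4 h5
  have hN0 : 0 ≤ N := by
    have : 0 ≤ (2 * T₀ + 8 * c₁) / (ε / 2) := by positivity
    linarith
  have hNe : 2 * T₀ + 8 * c₁ ≤ ε / 2 * N := by
    have h6 : (2 * T₀ + 8 * c₁) / (ε / 2) ≤ N := by linarith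
    rw [div_le_iff₀ (by linarith)] at h6
    linarith
  have h2R : 0 < 2 * R := by linarith
  have hball : ball x (4 * R) = ball x (2 * (2 * R)) := by
    congr 1; ring
  rw [hball] at hSol hNear
  obtain ⟨g1, g2, -, g4⟩ := hSC n A u x 2 (2 * R) (s₀ / 2) (s₀ / 2 / R) h2R hSol hNear
  have g5 : Near s₀ s₀ (fun z => A (x + (2 * R) • z)) (ball 0 2) := by
    refine g2.mono (by linarith) (le_of_eq ?_) (Subset.refl _)
    field_simp
  have hr₁ : 0 < r₁ := lt_of_lt_of_le (mul_pos hq₀ hR) h1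
  have hr₂ : 0 < r₂ := lt_of_lt_of_le (mul_pos (by linarith) hr₁) h2
  have hr₃ : 0 < r₃ := lt_of_lt_of_le (mul_pos (by linarith) hr₂) h3
  have hD : ∀ r : ℝ, Dg (fun z => (2 * R)⁻¹ * u (x + (2 * R) • z)) 0 (r / (2 * R)) = Dg u x r := by
    intro r
    rw [g4, smul_zero, add_zero, mul_div_cancel₀ _ h2R.ne']
  have g6 := H _ _ (r₁ / (2 * R)) (r₂ / (2 * R)) (r₃ / (2 * R))
    (max T₀ ((a + c₁) / (1 - ε / 48))) g1 g5
    (by rw [div_le_div_iff₀ (by norm_num) h2R]; nlinarith)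
    (by rw [← mul_div_assoc]; exact div_le_div_of_nonneg_right h2 h2R.le)
    (by rw [← mul_div_assoc]; exact div_le_div_of_nonneg_right h3 h2R.le)
    (by rw [div_le_one h2R]; exact h4) (le_max_left _ _)
  rw [hD, hD, hD, div_div_div_cancel_right₀ h2R.ne', div_div_div_cancel_right₀ h2R.ne'] at g6
  refine SL_scalar (κ := ε / 48) (e := ε / 2) (by linarith) (by ring) (by linarith) hlam hC₁1 hc₁e
    hc₁0 hT₀ rfl hNe hN0 ha haN ?_ ?_ (Dg_nonneg _ _ _) (Dg_nonneg _ _ _) (Dg_nonneg _ _ _)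
    (g6.trans ?_) h5
  · rw [le_div_iff₀ hr₁]; exact h2
  · rw [le_div_iff₀ hr₂]; exact h3
  · refine mul_le_mul_of_nonneg_right (le_max_left _ _) (add_nonneg ?_ ?_)
    · exact mul_nonneg (Real.rpow_nonneg (by positivity) _) (Dg_nonneg _ _ _)
    · exact mul_nonneg (Real.rpow_nonneg (by positivity) _) (Dg_nonneg _ _ _)

/-- Item SL. -/
theorem SL (hTB : StmtTB0) (hSC : StmtSC) : StmtSL := by
  intro n ε q₀ lam hn hε hε1 hq₀ hlam hlam2
  obtain ⟨s₀, N₁, hs₀, hN₁, H⟩ := SL_TB hTB hSC n ε q₀ lam hn hε hε1 hq₀ hlam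
  refine ⟨s₀, N₁, hs₀, hN₁, ?_⟩
  intro A u x R N hR hSol hNear hN
  have K := H A u x R N hR hSol hNear hN
  have hN0 : 0 < N := lt_of_lt_of_le hN₁ hN
  refine ⟨?_, ?_⟩
  · intro h2R r r' hr hrr' hr'
    have hr0 : 0 < r := lt_of_lt_of_le (mul_pos hq₀ hR) hr
    have hr'0 : 0 < r' := lt_of_lt_of_le (mul_pos (by linarith) hr0) hrr'
    have hrle : r ≤ r' := by nlinarith
    have k1 := K N r' R (2 * R) hN0.le (by linarith) (by linarith) (by nlinarith) (by nlinarith)
      le_rfl (by rw [mul_div_cancel_right₀ _ hR.ne']; exact h2R)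
    have k2 : Dg u x (2 * R) ≤ (2 * R / r') ^ (N + ε / 2 * N) * Dg u x r' := by
      calc Dg u x (2 * R) ≤ 2 ^ N * Dg u x R := h2R
        _ ≤ 2 ^ (N + ε / 2 * N) * ((R / r') ^ (N + ε / 2 * N) * Dg u x r') := by
            apply mul_le_mul _ k1 (Dg_nonneg _ _ _) (Real.rpow_nonneg (by norm_num) _)
            exact Real.rpow_le_rpow_of_exponent_le (by norm_num) (by nlinarith)
        _ = (2 * R / r') ^ (N + ε / 2 * N) * Dg u x r' := by
            rw [← mul_assoc, ← Real.mul_rpow (by norm_num) (by positivity), mul_div_assoc]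
    have k3 := K (N + ε / 2 * N) r r' (2 * R) (by positivity) (by nlinarith) hr hrr'
      (by nlinarith) le_rfl k2
    have k4 : N + ε / 2 * N + ε / 2 * N = (1 + ε) * N := by ring
    rwa [k4] at k3
  · intro η ρ' hη hη1 hρ' hlow r r' hr hrr' hr'
    have hρ0 : 0 < ρ' := lt_of_lt_of_le (mul_pos hq₀ hR) hρ'
    have hr0 : 0 < r := lt_of_lt_of_le (by positivity) hr
    have hr'0 : 0 < r' := lt_of_lt_of_le (mul_pos (by linarith) hr0) hrr'
    have hrle : r ≤ r' := by nlinarith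
    rcases lt_or_ge (1 - η - ε) 0 with hneg | hnonneg
    · have m1 : Dg u x r ≤ Dg u x r' := by
        refine hSol.Dg_mono ?_ (closedBall_subset_closedBall hrle)
        exact closedBall_subset_ball (by linarith)
      have m2 : (r' / r) ^ ((1 - η - ε) * N) ≤ 1 := by
        apply Real.rpow_le_one_of_one_le_of_nonpos
        · rw [le_div_iff₀ hr0]; linarith
        · nlinarith
      calc (r' / r) ^ ((1 - η - ε) * N) * Dg u x r ≤ 1 * Dg u x r :=
            mul_le_mul_of_nonneg_right m2 (Dg_nonneg _ _ _)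
        _ ≤ Dg u x r' := by rw [one_mul]; exact m1
    · have ha₁ : 0 ≤ (1 - η - ε / 2) * N := mul_nonneg (by linarith) hN0.le
      have ha₁' : (1 - η - ε / 2) * N ≤ 3 * N := by nlinarith
      have m1 : (r / (2 * ρ')) ^ ((1 - η - ε / 2) * N) * Dg u x (2 * ρ') < Dg u x r := by
        by_contra hcon
        push Not at hcon
        have k1 := K ((1 - η - ε / 2) * N) ρ' (2 * ρ') r ha₁ ha₁' hρ' (by nlinarith)
          (by nlinarith) (by linarith) hcon
        rw [mul_div_cancel_right₀ _ hρ0.ne'] at k1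
        have k2 : (1 - η - ε / 2) * N + ε / 2 * N = (1 - η) * N := by ring
        rw [k2] at k1
        linarith
      have m2 : (r / ρ') ^ ((1 - η - ε / 2) * N) * Dg u x ρ' < Dg u x r := by
        refine lt_of_le_of_lt ?_ m1
        have m3 : (r / ρ') ^ ((1 - η - ε / 2) * N) =
            (r / (2 * ρ')) ^ ((1 - η - ε / 2) * N) * 2 ^ ((1 - η - ε / 2) * N) := by
          rw [← Real.mul_rpow (by positivity) (by norm_num)]
          congr 1
          field_simp
        rw [m3, mul_assoc]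
        apply mul_le_mul_of_nonneg_left _ (Real.rpow_nonneg (by positivity) _)
        refine le_trans ?_ hlow.le
        apply mul_le_mul_of_nonneg_right _ (Dg_nonneg _ _ _)
        exact Real.rpow_le_rpow_of_exponent_le (by norm_num) (by nlinarith)
      by_contra hcon
      push Not at hcon
      have k1 := K ((1 - η - ε) * N) ρ' r r' (mul_nonneg hnonneg hN0.le) (by nlinarith) hρ'
        (by nlinarith) hrr' hr' hcon.le
      have k2 : (1 - η - ε) * N + ε / 2 * N = (1 - η - ε / 2) * N := by ring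
      rw [k2] at k1
      linarith

end EAGrad

end
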