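import Pool.Agent.Work.MP_ea6116_an.Bd.B01

/-! Bundle of small proof modules (one section per former module). -/

section

/-!
MP_ea6116_an: item TB0, three ball inequality with almost optimal exponents.
-/

set_option autoImplicit false

open MeasureTheory Metric Set Filter Topology
open scoped ENNReal NNReal ContDiff

namespace EAGrad

variable {n : ℕ}

/-! ### Radial functions -/

/-- The inner product as a continuous bilinear map. -/
noncomputable def TB0J (n : ℕ) : En n →L[ℝ] (En n →L[ℝ] ℝ) :=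
  LinearMap.mkContinuous₂ (innerₗ (En n)) 1 (by
    intro x y
    simpa using abs_real_inner_le_norm x y)

theorem TB0J_apply (x y : En n) : TB0J n x y = inner ℝ x y := rfl

theorem TB0_norm_J (x : En n) : ‖TB0J n x‖ ≤ ‖x‖ := by
  refine ContinuousLinearMap.opNorm_le_bound _ (norm_nonneg _) fun y => ?_
  rw [TB0J_apply, Real.norm_eq_abs]
  exact abs_real_inner_le_norm x y

theorem TB0_hasFDerivAt_log {x : En n} (hx : x ≠ 0) :
    HasFDerivAt (fun y : En n => Real.log ‖y‖) ((‖x‖ ^ 2)⁻¹ • TB0J n x) x := by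
  have h1 : (fun y : En n => Real.log ‖y‖) = fun y => (1 / 2 : ℝ) * Real.log (‖y‖ ^ 2) := by
    funext y
    rw [Real.log_pow]
    push_cast
    ring
  rw [h1]
  have hn : ‖x‖ ^ 2 ≠ 0 := by positivity
  have h2 := ((hasStrictFDerivAt_norm_sq x).hasFDerivAt.log hn).const_mul (1 / 2 : ℝ)
  refine h2.congr_fderiv ?_
  ext v
  simp [TB0J_apply]
  ring

theorem TB0_hasFDerivAt {f : ℝ → ℝ} {f' : ℝ} {x : En n} (hx : x ≠ 0)
    (hf : HasDerivAt f f' (Real.log ‖x‖)) :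
    HasFDerivAt (fun y : En n => f (Real.log ‖y‖)) ((f' * (‖x‖ ^ 2)⁻¹) • TB0J n x) x := by
  have h := hf.comp_hasFDerivAt x (TB0_hasFDerivAt_log hx)
  rw [smul_smul] at h
  exact h

theorem TB0_exp_log {x : En n} (hx : x ≠ 0) :
    Real.exp (-2 * Real.log ‖x‖) = (‖x‖ ^ 2)⁻¹ := by
  have h : 0 < ‖x‖ := norm_pos_iff.2 hx
  rw [show -2 * Real.log ‖x‖ = -(Real.log ‖x‖ + Real.log ‖x‖) by ring, Real.exp_neg, Real.exp_add,
    Real.exp_log h]
  ring

theorem TB0_fderiv {f f1 : ℝ → ℝ} (hf : ∀ s, HasDerivAt f (f1 s) s) {x : En n} (hx : x ≠ 0) :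
    fderiv ℝ (fun y : En n => f (Real.log ‖y‖)) x =
      (f1 (Real.log ‖x‖) * (‖x‖ ^ 2)⁻¹) • TB0J n x :=
  (TB0_hasFDerivAt hx (hf _)).fderiv

theorem TB0_fderiv2 {f f1 f2 : ℝ → ℝ} (hf : ∀ s, HasDerivAt f (f1 s) s)
    (hf1 : ∀ s, HasDerivAt f1 (f2 s) s) {x : En n} (hx : x ≠ 0) (ξ η : En n) :
    fderiv ℝ (fderiv ℝ (fun y : En n => f (Real.log ‖y‖))) x ξ η =
      f1 (Real.log ‖x‖) * (‖x‖ ^ 2)⁻¹ * inner ℝ ξ η +
      (f2 (Real.log ‖x‖) - 2 * f1 (Real.log ‖x‖)) * ((‖x‖ ^ 2)⁻¹) ^ 2 *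
        (inner ℝ x ξ * inner ℝ x η) := by
  have h1 : fderiv ℝ (fun y : En n => f (Real.log ‖y‖)) =ᶠ[𝓝 x]
      fun y => (f1 (Real.log ‖y‖) * Real.exp (-2 * Real.log ‖y‖)) • TB0J n y := by
    filter_upwards [isOpen_ne.mem_nhds hx] with y hy
    rw [TB0_fderiv hf hy, TB0_exp_log hy]
  rw [h1.fderiv_eq]
  have h2 : HasDerivAt (fun s => f1 s * Real.exp (-2 * s))
      ((f2 (Real.log ‖x‖) - 2 * f1 (Real.log ‖x‖)) * Real.exp (-2 * Real.log ‖x‖))
      (Real.log ‖x‖) := by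
    have h3 : HasDerivAt (fun s : ℝ => Real.exp (-2 * s))
        (Real.exp (-2 * Real.log ‖x‖) * (-2 * 1)) (Real.log ‖x‖) :=
      ((hasDerivAt_id _).const_mul (-2)).exp
    exact ((hf1 (Real.log ‖x‖)).mul h3).congr_deriv (by ring)
  have h5 := TB0_hasFDerivAt (f := fun s => f1 s * Real.exp (-2 * s)) hx h2
  have h6 : HasFDerivAt
      (fun y => (f1 (Real.log ‖y‖) * Real.exp (-2 * Real.log ‖y‖)) • TB0J n y)
      ((f1 (Real.log ‖x‖) * Real.exp (-2 * Real.log ‖x‖)) • TB0J n +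
      (((f2 (Real.log ‖x‖) - 2 * f1 (Real.log ‖x‖)) * Real.exp (-2 * Real.log ‖x‖) *
        (‖x‖ ^ 2)⁻¹) • TB0J n x).smulRight (TB0J n x)) x := h5.smul (TB0J n).hasFDerivAt
  rw [h6.fderiv]
  simp only [ContinuousLinearMap.add_apply, ContinuousLinearMap.smul_apply,
    ContinuousLinearMap.smulRight_apply, TB0J_apply, smul_eq_mul, TB0_exp_log hx]
  ring

theorem TB0_norm_fderiv {f f1 : ℝ → ℝ} (hf : ∀ s, HasDerivAt f (f1 s) s) {x : En n} (hx : x ≠ 0)
    {K1 ρ : ℝ} (h1 : |f1 (Real.log ‖x‖)| ≤ K1) (hρ : 0 < ρ) (hρx : ρ ≤ ‖x‖) :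
    ‖fderiv ℝ (fun y : En n => f (Real.log ‖y‖)) x‖ ≤ K1 * ρ⁻¹ := by
  have hK : 0 ≤ K1 := (abs_nonneg _).trans h1
  have hxp : 0 < ‖x‖ := norm_pos_iff.2 hx
  rw [TB0_fderiv hf hx, norm_smul, Real.norm_eq_abs, abs_mul, abs_of_pos (by positivity :
    0 < (‖x‖ ^ 2)⁻¹)]
  calc |f1 (Real.log ‖x‖)| * (‖x‖ ^ 2)⁻¹ * ‖TB0J n x‖ ≤ K1 * (‖x‖ ^ 2)⁻¹ * ‖x‖ := by
        gcongr
        exact TB0_norm_J x
    _ = K1 * ‖x‖⁻¹ := by
        field_simp
    _ ≤ K1 * ρ⁻¹ := by gcongr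

theorem TB0_norm_fderiv2 {f f1 f2 : ℝ → ℝ} (hf : ∀ s, HasDerivAt f (f1 s) s)
    (hf1 : ∀ s, HasDerivAt f1 (f2 s) s) {x : En n} (hx : x ≠ 0)
    {K1 K2 ρ : ℝ} (h1 : |f1 (Real.log ‖x‖)| ≤ K1) (h2 : |f2 (Real.log ‖x‖)| ≤ K2) (hρ : 0 < ρ)
    (hρx : ρ ≤ ‖x‖) :
    ‖fderiv ℝ (fderiv ℝ (fun y : En n => f (Real.log ‖y‖))) x‖ ≤ (3 * K1 + K2) * (ρ ^ 2)⁻¹ := by
  have hK : 0 ≤ K1 := (abs_nonneg _).trans h1
  have hK2 : 0 ≤ K2 := (abs_nonneg _).trans h2
  have hxp : 0 < ‖x‖ := norm_pos_iff.2 hx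
  refine ContinuousLinearMap.opNorm_le_bound _ (by positivity) fun ξ => ?_
  refine ContinuousLinearMap.opNorm_le_bound _ (by positivity) fun η => ?_
  rw [TB0_fderiv2 hf hf1 hx, Real.norm_eq_abs]
  have e1 : |inner ℝ ξ η| ≤ ‖ξ‖ * ‖η‖ := abs_real_inner_le_norm _ _
  have e2 : |inner ℝ x ξ| ≤ ‖x‖ * ‖ξ‖ := abs_real_inner_le_norm _ _
  have e3 : |inner ℝ x η| ≤ ‖x‖ * ‖η‖ := abs_real_inner_le_norm _ _
  have e4 : |f2 (Real.log ‖x‖) - 2 * f1 (Real.log ‖x‖)| ≤ K2 + 2 * K1 := by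
    calc |f2 (Real.log ‖x‖) - 2 * f1 (Real.log ‖x‖)|
        ≤ |f2 (Real.log ‖x‖)| + |2 * f1 (Real.log ‖x‖)| := abs_sub _ _
      _ ≤ K2 + 2 * K1 := by
        rw [abs_mul, abs_two]
        linarith
  calc |f1 (Real.log ‖x‖) * (‖x‖ ^ 2)⁻¹ * inner ℝ ξ η +
      (f2 (Real.log ‖x‖) - 2 * f1 (Real.log ‖x‖)) * ((‖x‖ ^ 2)⁻¹) ^ 2 *
        (inner ℝ x ξ * inner ℝ x η)|
      ≤ |f1 (Real.log ‖x‖)| * (‖x‖ ^ 2)⁻¹ * |inner ℝ ξ η| +
        |f2 (Real.log ‖x‖) - 2 * f1 (Real.log ‖x‖)| * ((‖x‖ ^ 2)⁻¹) ^ 2 *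
        (|inner ℝ x ξ| * |inner ℝ x η|) := by
        refine (abs_add_le _ _).trans (le_of_eq ?_)
        simp only [abs_mul, abs_pow, abs_of_pos (by positivity : 0 < (‖x‖ ^ 2)⁻¹)]
    _ ≤ K1 * (‖x‖ ^ 2)⁻¹ * (‖ξ‖ * ‖η‖) +
        (K2 + 2 * K1) * ((‖x‖ ^ 2)⁻¹) ^ 2 * ((‖x‖ * ‖ξ‖) * (‖x‖ * ‖η‖)) := by
        gcongr
    _ = (3 * K1 + K2) * (‖x‖ ^ 2)⁻¹ * ‖ξ‖ * ‖η‖ := by
        field_simp
        ring
    _ ≤ (3 * K1 + K2) * (ρ ^ 2)⁻¹ * ‖ξ‖ * ‖η‖ := by gcongr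

theorem TB0_lap {f f1 f2 : ℝ → ℝ} (hf : ∀ s, HasDerivAt f (f1 s) s)
    (hf1 : ∀ s, HasDerivAt f1 (f2 s) s) {x : En n} (hx : x ≠ 0) :
    lap (fun y : En n => f (Real.log ‖y‖)) x =
      (f2 (Real.log ‖x‖) + (n - 2) * f1 (Real.log ‖x‖)) * (‖x‖ ^ 2)⁻¹ := by
  have hxp : 0 < ‖x‖ := norm_pos_iff.2 hx
  unfold lap D2
  simp only [TB0_fderiv2 hf hf1 hx]
  have e1 : ∀ i : Fin n, inner ℝ (ee i : En n) (ee i) = (1 : ℝ) := by
    intro i
    simp [ee]
  have e2 : ∀ i : Fin n, inner ℝ x (ee i) = x i := by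
    intro i
    simp [ee, EuclideanSpace.inner_single_right]
  simp only [e1, e2]
  rw [Finset.sum_add_distrib, ← Finset.mul_sum, ← Finset.mul_sum]
  have e3 : ∑ i : Fin n, x i * x i = ‖x‖ ^ 2 := by
    rw [EuclideanSpace.norm_sq_eq]
    refine Finset.sum_congr rfl fun i _ => ?_
    rw [Real.norm_eq_abs, sq_abs]
    ring
  rw [e3]
  simp only [mul_one, Finset.sum_const, Finset.card_univ, Fintype.card_fin, nsmul_eq_mul]
  field_simp
  ring

theorem TB0_contDiffAt {f : ℝ → ℝ} (hf : ContDiff ℝ ∞ f) {x : En n} (hx : x ≠ 0) :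
    ContDiffAt ℝ ∞ (fun y : En n => f (Real.log ‖y‖)) x := by
  have h1 : ContDiffAt ℝ ∞ (fun y : En n => Real.log ‖y‖) x :=
    (contDiffAt_norm ℝ hx).log (norm_ne_zero_iff.2 hx)
  exact hf.contDiffAt.comp x h1

/-! ### The cutoff -/

theorem TB0_trans_const {t : ℝ} (ht : t ∉ Icc (0 : ℝ) 1) :
    deriv Real.smoothTransition t = 0 ∧ deriv (deriv Real.smoothTransition) t = 0 := by
  have h1 : ∃ c : ℝ, Real.smoothTransition =ᶠ[𝓝 t] fun _ => c := by
    rw [mem_Icc, not_and_or, not_le, not_le] at ht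
    rcases ht with h | h
    · refine ⟨0, ?_⟩
      filter_upwards [Iio_mem_nhds h] with s hs
      exact Real.smoothTransition.zero_of_nonpos (le_of_lt hs)
    · refine ⟨1, ?_⟩
      filter_upwards [Ioi_mem_nhds h] with s hs
      exact Real.smoothTransition.one_of_one_le (le_of_lt hs)
  obtain ⟨c, hc⟩ := h1
  have h2 := hc.deriv
  have h3 := h2.deriv
  refine ⟨?_, ?_⟩
  · rw [h2.eq_of_nhds]
    simp
  · rw [h3.eq_of_nhds]
    simp

theorem TB0_bound {f : ℝ → ℝ} (hf : Continuous f) (h0 : ∀ t, t ∉ Icc (0 : ℝ) 1 → f t = 0) :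
    ∃ K : ℝ, 0 ≤ K ∧ ∀ t, |f t| ≤ K := by
  obtain ⟨K, hK⟩ := isCompact_Icc.exists_bound_of_continuousOn (hf.continuousOn (s := Icc 0 1))
  refine ⟨max K 0, le_max_right _ _, fun t => ?_⟩
  by_cases ht : t ∈ Icc (0 : ℝ) 1
  · exact (hK t ht).trans (le_max_left _ _)
  · rw [h0 t ht, abs_zero]
    exact le_max_right _ _

theorem TB0_trans_bound : ∃ K : ℝ, 0 ≤ K ∧ (∀ t, |deriv Real.smoothTransition t| ≤ K) ∧
    ∀ t, |deriv (deriv Real.smoothTransition) t| ≤ K := by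
  have h1 : ContDiff ℝ ∞ Real.smoothTransition := Real.smoothTransition.contDiff
  have h2 : ContDiff ℝ ∞ (deriv Real.smoothTransition) := by
    have := contDiff_infty_iff_deriv.1 h1
    exact this.2
  have h3 : ContDiff ℝ ∞ (deriv (deriv Real.smoothTransition)) :=
    (contDiff_infty_iff_deriv.1 h2).2
  obtain ⟨K1, h4, h5⟩ := TB0_bound h2.continuous fun t ht => (TB0_trans_const ht).1
  obtain ⟨K2, h6, h7⟩ := TB0_bound h3.continuous fun t ht => (TB0_trans_const ht).2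
  exact ⟨max K1 K2, h4.trans (le_max_left _ _), fun t => (h5 t).trans (le_max_left _ _),
    fun t => (h7 t).trans (le_max_right _ _)⟩

/-- Profile of the cutoff. -/
noncomputable def TB0h (δ a b s : ℝ) : ℝ :=
  Real.smoothTransition ((s - a + 2 * δ) / δ) * Real.smoothTransition ((b - δ - s) / δ)

/-- Its first derivative. -/
noncomputable def TB0h1 (δ a b s : ℝ) : ℝ :=
  deriv Real.smoothTransition ((s - a + 2 * δ) / δ) * δ⁻¹ *
    Real.smoothTransition ((b - δ - s) / δ) +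
  Real.smoothTransition ((s - a + 2 * δ) / δ) *
    (deriv Real.smoothTransition ((b - δ - s) / δ) * (-δ⁻¹))

/-- Its second derivative. -/
noncomputable def TB0h2 (δ a b s : ℝ) : ℝ :=
  (deriv (deriv Real.smoothTransition) ((s - a + 2 * δ) / δ) * δ⁻¹ * δ⁻¹) *
    Real.smoothTransition ((b - δ - s) / δ) +
  deriv Real.smoothTransition ((s - a + 2 * δ) / δ) * δ⁻¹ *
    (deriv Real.smoothTransition ((b - δ - s) / δ) * (-δ⁻¹)) +
  (deriv Real.smoothTransition ((s - a + 2 * δ) / δ) * δ⁻¹ *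
    (deriv Real.smoothTransition ((b - δ - s) / δ) * (-δ⁻¹)) +
  Real.smoothTransition ((s - a + 2 * δ) / δ) *
    (deriv (deriv Real.smoothTransition) ((b - δ - s) / δ) * (-δ⁻¹) * (-δ⁻¹)))

theorem TB0_st (t : ℝ) :
    HasDerivAt Real.smoothTransition (deriv Real.smoothTransition t) t := by
  have h1 : ContDiff ℝ ∞ Real.smoothTransition := Real.smoothTransition.contDiff
  exact (h1.differentiable (by simp) t).hasDerivAt

theorem TB0_st1 (t : ℝ) :
    HasDerivAt (deriv Real.smoothTransition) (deriv (deriv Real.smoothTransition) t) t := by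
  have h1 : ContDiff ℝ ∞ Real.smoothTransition := Real.smoothTransition.contDiff
  have h2 : ContDiff ℝ ∞ (deriv Real.smoothTransition) := (contDiff_infty_iff_deriv.1 h1).2
  exact (h2.differentiable (by simp) t).hasDerivAt

theorem TB0_lin1 (δ a s : ℝ) : HasDerivAt (fun s => (s - a + 2 * δ) / δ) δ⁻¹ s := by
  have h := (((hasDerivAt_id s).sub_const a).add_const (2 * δ)).div_const δ
  simpa using h

theorem TB0_lin2 (δ b s : ℝ) : HasDerivAt (fun s => (b - δ - s) / δ) (-δ⁻¹) s := by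
  have h := ((hasDerivAt_id s).const_sub (b - δ)).div_const δ
  refine h.congr_deriv ?_
  rw [neg_div, one_div]

theorem TB0_h (δ a b s : ℝ) : HasDerivAt (TB0h δ a b) (TB0h1 δ a b s) s :=
  ((TB0_st _).comp s (TB0_lin1 δ a s)).mul ((TB0_st _).comp s (TB0_lin2 δ b s))

theorem TB0_h1 (δ a b s : ℝ) : HasDerivAt (TB0h1 δ a b) (TB0h2 δ a b s) s :=
  ((((TB0_st1 _).comp s (TB0_lin1 δ a s)).mul_const δ⁻¹).mul
    ((TB0_st _).comp s (TB0_lin2 δ b s))).add
  (((TB0_st _).comp s (TB0_lin1 δ a s)).mul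
    (((TB0_st1 _).comp s (TB0_lin2 δ b s)).mul_const (-δ⁻¹)))

theorem TB0_h_contDiff (δ a b : ℝ) : ContDiff ℝ ∞ (TB0h δ a b) := by
  have h1 : ContDiff ℝ ∞ Real.smoothTransition := Real.smoothTransition.contDiff
  have h2 : ContDiff ℝ ∞ fun s : ℝ => (s - a + 2 * δ) / δ := by fun_prop
  have h3 : ContDiff ℝ ∞ fun s : ℝ => (b - δ - s) / δ := by fun_prop
  exact (h1.comp h2).mul (h1.comp h3)

theorem TB0_h_bounds {K δ : ℝ} (hK1 : ∀ t, |deriv Real.smoothTransition t| ≤ K)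
    (hK2 : ∀ t, |deriv (deriv Real.smoothTransition) t| ≤ K) (hδ : 0 < δ) (a b s : ℝ) :
    |TB0h1 δ a b s| ≤ 2 * K * δ⁻¹ ∧
    |TB0h2 δ a b s| ≤ (2 * K + 2 * K * K) * δ⁻¹ * δ⁻¹ := by
  have e0 : ∀ t, |Real.smoothTransition t| ≤ 1 := fun t => by
    rw [abs_of_nonneg (Real.smoothTransition.nonneg t)]
    exact Real.smoothTransition.le_one t
  have hd : 0 ≤ δ⁻¹ := by positivity
  have hda : |δ⁻¹| = δ⁻¹ := abs_of_nonneg hd
  have m1 : ∀ x y X Y : ℝ, |x| ≤ X → |y| ≤ Y → |x * y| ≤ X * Y := by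
    intro x y X Y hx hy
    rw [abs_mul]
    exact mul_le_mul hx hy (abs_nonneg _) ((abs_nonneg _).trans hx)
  have hd1 : |δ⁻¹| ≤ δ⁻¹ := hda.le
  have hd2 : |(-δ⁻¹)| ≤ δ⁻¹ := by rw [abs_neg, hda]
  constructor
  · unfold TB0h1
    refine (abs_add_le _ _).trans ?_
    have a1 := m1 _ _ _ _ (m1 _ _ _ _ (hK1 ((s - a + 2 * δ) / δ)) hd1) (e0 ((b - δ - s) / δ))
    have a2 := m1 _ _ _ _ (e0 ((s - a + 2 * δ) / δ)) (m1 _ _ _ _ (hK1 ((b - δ - s) / δ)) hd2)
    refine (add_le_add a1 a2).trans (le_of_eq (by ring))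
  · unfold TB0h2
    have a1 := m1 _ _ _ _ (m1 _ _ _ _ (m1 _ _ _ _ (hK2 ((s - a + 2 * δ) / δ)) hd1) hd1)
      (e0 ((b - δ - s) / δ))
    have a2 := m1 _ _ _ _ (m1 _ _ _ _ (hK1 ((s - a + 2 * δ) / δ)) hd1)
      (m1 _ _ _ _ (hK1 ((b - δ - s) / δ)) hd2)
    have a3 := m1 _ _ _ _ (e0 ((s - a + 2 * δ) / δ))
      (m1 _ _ _ _ (m1 _ _ _ _ (hK2 ((b - δ - s) / δ)) hd2) hd2)
    refine (abs_add_le _ _).trans ((add_le_add (abs_add_le _ _) (abs_add_le _ _)).trans ?_)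
    refine (add_le_add (add_le_add a1 a2) (add_le_add a2 a3)).trans (le_of_eq (by ring))

theorem TB0_h_const {δ a b s : ℝ} (hδ : 0 < δ) (h1 : ¬ (a - 2 * δ ≤ s ∧ s ≤ a - δ))
    (h2 : ¬ (b - 2 * δ ≤ s ∧ s ≤ b - δ)) : TB0h1 δ a b s = 0 ∧ TB0h2 δ a b s = 0 := by
  have e1 : (s - a + 2 * δ) / δ ∉ Icc (0 : ℝ) 1 := by
    intro h
    apply h1
    rw [mem_Icc, le_div_iff₀ hδ, div_le_iff₀ hδ] at h
    constructor <;> linarith [h.1, h.2]
  have e2 : (b - δ - s) / δ ∉ Icc (0 : ℝ) 1 := by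
    intro h
    apply h2
    rw [mem_Icc, le_div_iff₀ hδ, div_le_iff₀ hδ] at h
    constructor <;> linarith [h.1, h.2]
  have f1 := TB0_trans_const e1
  have f2 := TB0_trans_const e2
  constructor
  · simp [TB0h1, f1.1, f2.1]
  · simp [TB0h2, f1.1, f2.1, f1.2, f2.2]

theorem TB0_h_one {δ a b s : ℝ} (hδ : 0 < δ) (h1 : a - δ ≤ s) (h2 : s ≤ b - 2 * δ) :
    TB0h δ a b s = 1 := by
  unfold TB0h
  rw [Real.smoothTransition.one_of_one_le (by rw [le_div_iff₀ hδ]; linarith),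
    Real.smoothTransition.one_of_one_le (by rw [le_div_iff₀ hδ]; linarith), one_mul]

theorem TB0_h_zero {δ a b s : ℝ} (hδ : 0 < δ) (h : s ≤ a - 2 * δ ∨ b - δ ≤ s) :
    TB0h δ a b s = 0 := by
  unfold TB0h
  rcases h with h | h
  · rw [Real.smoothTransition.zero_of_nonpos
      (div_nonpos_of_nonpos_of_nonneg (by linarith) hδ.le), zero_mul]
  · rw [Real.smoothTransition.zero_of_nonpos (x := (b - δ - s) / δ)
      (div_nonpos_of_nonpos_of_nonneg (by linarith) hδ.le), mul_zero]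

/-- The cutoff. -/
noncomputable def TB0chi (n : ℕ) (δ a b : ℝ) (x : En n) : ℝ := TB0h δ a b (Real.log ‖x‖)

theorem TB0_chi_support {δ a b : ℝ} (hδ : 0 < δ) (hb : b ≤ 0) {x : En n}
    (hx : TB0chi n δ a b x ≠ 0) : Real.exp (a - 2 * δ) ≤ ‖x‖ ∧ ‖x‖ ≤ Real.exp (b - δ) := by
  have h0 : x ≠ 0 := by
    rintro rfl
    apply hx
    unfold TB0chi
    rw [norm_zero, Real.log_zero]
    exact TB0_h_zero hδ (Or.inr (by linarith))
  have hp : 0 < ‖x‖ := norm_pos_iff.2 h0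
  constructor
  · by_contra hc
    apply hx
    push Not at hc
    refine TB0_h_zero hδ (Or.inl ?_)
    have := Real.log_le_log hp hc.le
    rwa [Real.log_exp] at this
  · by_contra hc
    apply hx
    push Not at hc
    refine TB0_h_zero hδ (Or.inr ?_)
    have := Real.log_le_log (Real.exp_pos _) hc.le
    rwa [Real.log_exp] at this

theorem TB0_chi_tsupport {δ a b : ℝ} (hδ : 0 < δ) (hb : b ≤ 0) :
    tsupport (TB0chi n δ a b) ⊆ {x | Real.exp (a - 2 * δ) ≤ ‖x‖ ∧ ‖x‖ ≤ Real.exp (b - δ)} := by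
  refine closure_minimal (fun x hx => TB0_chi_support hδ hb hx) ?_
  exact (isClosed_le continuous_const continuous_norm).inter
    (isClosed_le continuous_norm continuous_const)

theorem TB0_chi_contDiff {δ a b : ℝ} (hδ : 0 < δ) (hb : b ≤ 0) :
    ContDiff ℝ ∞ (TB0chi n δ a b) := by
  rw [contDiff_iff_contDiffAt]
  intro x
  by_cases hx : x = 0
  · subst hx
    have h1 : TB0chi n δ a b =ᶠ[𝓝 0] fun _ => 0 := by
      filter_upwards [ball_mem_nhds (0 : En n) (Real.exp_pos (a - 2 * δ))] with y hy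
      by_contra hc
      have := (TB0_chi_support hδ hb hc).1
      rw [mem_ball_zero_iff] at hy
      linarith
    exact contDiffAt_const.congr_of_eventuallyEq h1
  · exact TB0_contDiffAt (TB0_h_contDiff δ a b) hx

theorem TB0_chi_compact {δ a b : ℝ} (hδ : 0 < δ) (hb : b ≤ 0) :
    HasCompactSupport (TB0chi n δ a b) := by
  refine HasCompactSupport.of_support_subset_isCompact
    (isCompact_closedBall (0 : En n) (Real.exp (b - δ))) fun x hx => ?_
  rw [mem_closedBall_zero_iff]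
  exact (TB0_chi_support hδ hb hx).2

/-! ### The weight -/

/-- Profile of the weight. -/
noncomputable def TB0G (μ s : ℝ) : ℝ := -s + μ * s ^ 2

/-- Profile of the multiplier. -/
noncomputable def TB0b (n : ℕ) (μ s : ℝ) : ℝ :=
  (4 * μ + (n - 4) * (-1 + 2 * μ * s)) * Real.exp (-2 * s)

/-- Its derivative. -/
noncomputable def TB0b1 (n : ℕ) (μ s : ℝ) : ℝ :=
  ((n - 4) * (2 * μ)) * Real.exp (-2 * s) +
    (4 * μ + (n - 4) * (-1 + 2 * μ * s)) * (Real.exp (-2 * s) * (-2 * 1))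

theorem TB0_G (μ s : ℝ) : HasDerivAt (TB0G μ) (-1 + 2 * μ * s) s := by
  have h := (hasDerivAt_id s).neg.add (((hasDerivAt_id s).pow 2).const_mul μ)
  refine h.congr_deriv ?_
  simp
  ring

theorem TB0_G1 (μ s : ℝ) : HasDerivAt (fun s => -1 + 2 * μ * s) (2 * μ) s := by
  have h := ((hasDerivAt_id s).const_mul (2 * μ)).const_add (-1)
  refine h.congr_deriv ?_
  simp

theorem TB0_b (μ s : ℝ) : HasDerivAt (TB0b n μ) (TB0b1 n μ s) s := by
  have h1 : HasDerivAt (fun s : ℝ => Real.exp (-2 * s)) (Real.exp (-2 * s) * (-2 * 1)) s :=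
    ((hasDerivAt_id _).const_mul (-2)).exp
  have h2 : HasDerivAt (fun s : ℝ => 4 * μ + ((n : ℝ) - 4) * (-1 + 2 * μ * s))
      (((n : ℝ) - 4) * (2 * μ)) s := ((TB0_G1 μ s).const_mul _).const_add _
  exact h2.mul h1

theorem TB0_G_contDiff (μ : ℝ) : ContDiff ℝ ∞ (TB0G μ) := by
  unfold TB0G
  fun_prop

theorem TB0_b_contDiff (μ : ℝ) : ContDiff ℝ ∞ (TB0b n μ) := by
  unfold TB0b
  fun_prop

theorem TB0_b1_continuous (μ : ℝ) : Continuous (TB0b1 n μ) := by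
  unfold TB0b1
  fun_prop

theorem TB0_G_diff {μ s t κ S : ℝ} (hs : -S ≤ s) (hst : s ≤ t) (ht : t ≤ 0) (hμ : 0 ≤ μ)
    (hμS : 2 * μ * S ≤ κ / 4) :
    t - s ≤ TB0G μ s - TB0G μ t ∧ TB0G μ s - TB0G μ t ≤ (1 + κ / 4) * (t - s) := by
  have e : TB0G μ s - TB0G μ t = (t - s) + (t - s) * (μ * (-(s + t))) := by
    unfold TB0G
    ring
  have h1 : 0 ≤ μ * (-(s + t)) := mul_nonneg hμ (by linarith)
  have h2 : μ * (-(s + t)) ≤ κ / 4 := by
    calc μ * (-(s + t)) ≤ μ * (2 * S) := mul_le_mul_of_nonneg_left (by linarith) hμ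
      _ = 2 * μ * S := by ring
      _ ≤ κ / 4 := hμS
  have h3 : 0 ≤ t - s := by linarith
  rw [e]
  constructor
  · nlinarith [mul_nonneg h3 h1]
  · nlinarith [mul_le_mul_of_nonneg_left h2 h3]

/-- The weight of the three ball inequality. -/
theorem TB0_CW {μ κ S ρ Cb M : ℝ} (hμ : 0 < μ) (hμ1 : 2 * μ ≤ 1)
    (hμS : 2 * μ * S ≤ κ / 4) (hκ : κ ≤ 1)
    (hρ : 0 < ρ) (hCb : ∀ s ∈ Icc (-S) 0, |TB0b1 n μ s| ≤ Cb)
    (hM1 : 2 * ρ⁻¹ ≤ M) (hM2 : 7 * (ρ ^ 2)⁻¹ ≤ M) (hM3 : Cb * ρ⁻¹ ≤ M) {D : Set (En n)}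
    (hD : ∀ x ∈ D, x ≠ 0 ∧ ρ ≤ ‖x‖ ∧ ‖x‖ ≤ 1 ∧ -S ≤ Real.log ‖x‖) :
    CW M μ D (fun x => TB0G μ (Real.log ‖x‖)) (fun x => TB0b n μ (Real.log ‖x‖))
      (fun x => (-(-1 + 2 * μ * Real.log ‖x‖) + μ) * (‖x‖ ^ 2)⁻¹) := by
  have hG : ∀ x ∈ D, -1 + 2 * μ * Real.log ‖x‖ ≤ -1 ∧ -2 ≤ -1 + 2 * μ * Real.log ‖x‖ := by
    intro x hx
    obtain ⟨h1, h2, h3, h4⟩ := hD x hx
    have h5 : Real.log ‖x‖ ≤ 0 := Real.log_nonpos (norm_nonneg _) h3
    constructor
    · nlinarith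
    · nlinarith
  have hG' : ∀ x ∈ D, |-1 + 2 * μ * Real.log ‖x‖| ≤ 2 := by
    intro x hx
    rw [abs_le]
    constructor <;> linarith [(hG x hx).1, (hG x hx).2]
  constructor
  · intro x hx
    obtain ⟨h1, h2, h3, h4⟩ := hD x hx
    exact (TB0_norm_fderiv (TB0_G μ) h1 (hG' x hx) hρ h2).trans hM1
  · intro x hx
    obtain ⟨h1, h2, h3, h4⟩ := hD x hx
    have h5 : |2 * μ| ≤ 1 := by
      rw [abs_le]
      constructor <;> linarith
    refine (TB0_norm_fderiv2 (TB0_G μ) (TB0_G1 μ) h1 (hG' x hx) h5 hρ h2).trans ?_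
    refine (le_of_eq ?_).trans hM2
    norm_num
  · intro x hx
    obtain ⟨h1, h2, h3, h4⟩ := hD x hx
    have h5 : 0 < ‖x‖ := norm_pos_iff.2 h1
    rw [abs_mul, abs_of_pos (by positivity : 0 < (‖x‖ ^ 2)⁻¹)]
    have h6 : |-(-1 + 2 * μ * Real.log ‖x‖) + μ| ≤ 3 := by
      rw [abs_le]
      constructor <;> linarith [(hG x hx).1, (hG x hx).2]
    calc |-(-1 + 2 * μ * Real.log ‖x‖) + μ| * (‖x‖ ^ 2)⁻¹ ≤ 7 * (ρ ^ 2)⁻¹ := by
          gcongr
          linarith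
      _ ≤ M := hM2
  · intro x hx
    obtain ⟨h1, h2, h3, h4⟩ := hD x hx
    have h5 : Real.log ‖x‖ ≤ 0 := Real.log_nonpos (norm_nonneg _) h3
    exact (TB0_norm_fderiv (TB0_b μ) h1 (hCb _ ⟨h4, h5⟩) hρ h2).trans hM3
  · intro x hx
    obtain ⟨h1, h2, h3, h4⟩ := hD x hx
    show TB0b n μ (Real.log ‖x‖) = lap (fun x : En n => TB0G μ (Real.log ‖x‖)) x +
      2 * ((-(-1 + 2 * μ * Real.log ‖x‖) + μ) * (‖x‖ ^ 2)⁻¹)
    rw [TB0_lap (TB0_G μ) (TB0_G1 μ) h1]
    unfold TB0b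
    rw [TB0_exp_log h1]
    ring
  · intro x hx ξ
    obtain ⟨h1, h2, h3, h4⟩ := hD x hx
    have h5 : 0 < ‖x‖ := norm_pos_iff.2 h1
    have hg := (hG x hx).1
    show μ * ‖ξ‖ ^ 2 ≤ fderiv ℝ (fderiv ℝ (fun x : En n => TB0G μ (Real.log ‖x‖))) x ξ ξ +
      (-(-1 + 2 * μ * Real.log ‖x‖) + μ) * (‖x‖ ^ 2)⁻¹ * ‖ξ‖ ^ 2
    rw [TB0_fderiv2 (TB0_G μ) (TB0_G1 μ) h1, real_inner_self_eq_norm_sq]
    set G := -1 + 2 * μ * Real.log ‖x‖ with hGdef
    set i := (‖x‖ ^ 2)⁻¹ with hi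
    have hi1 : 1 ≤ i := by
      rw [hi]
      apply one_le_inv_iff₀.2
      exact ⟨by positivity, pow_le_one₀ h5.le h3⟩
    have hi0 : 0 ≤ i := by linarith
    have e1 : G * i * ‖ξ‖ ^ 2 + (2 * μ - 2 * G) * i ^ 2 * (inner ℝ x ξ * inner ℝ x ξ) +
        (-G + μ) * i * ‖ξ‖ ^ 2 = (2 * μ - 2 * G) * i ^ 2 * (inner ℝ x ξ) ^ 2 +
        μ * ‖ξ‖ ^ 2 * i := by ring
    rw [e1]
    have e2 : 0 ≤ (2 * μ - 2 * G) * i ^ 2 * (inner ℝ x ξ) ^ 2 := by
      apply mul_nonneg (mul_nonneg (by linarith) (by positivity)) (by positivity)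
    have e3 : μ * ‖ξ‖ ^ 2 ≤ μ * ‖ξ‖ ^ 2 * i := le_mul_of_one_le_right (by positivity) hi1
    linarith
  · intro x hx
    obtain ⟨h1, h2, h3, h4⟩ := hD x hx
    have h5 : 0 < ‖x‖ := norm_pos_iff.2 h1
    have hg := (hG x hx).1
    set G := -1 + 2 * μ * Real.log ‖x‖ with hGdef
    set i := (‖x‖ ^ 2)⁻¹ with hi
    have hi1 : 1 ≤ i := by
      rw [hi]
      apply one_le_inv_iff₀.2
      exact ⟨by positivity, pow_le_one₀ h5.le h3⟩
    have hgrad : gradient (fun x : En n => TB0G μ (Real.log ‖x‖)) x = (G * i) • x := by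
      apply (InnerProductSpace.toDual ℝ (En n)).injective
      unfold gradient
      rw [LinearIsometryEquiv.apply_symm_apply, TB0_fderiv (TB0_G μ) h1]
      ext v
      simp only [ContinuousLinearMap.smul_apply, TB0J_apply, InnerProductSpace.toDual_apply_apply,
        real_inner_smul_left, smul_eq_mul]
      rfl
    show μ ≤ fderiv ℝ (fderiv ℝ (fun x : En n => TB0G μ (Real.log ‖x‖))) x
      (gradient (fun x : En n => TB0G μ (Real.log ‖x‖)) x)
      (gradient (fun x : En n => TB0G μ (Real.log ‖x‖)) x) -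
      (-G + μ) * i * ‖gradient (fun x : En n => TB0G μ (Real.log ‖x‖)) x‖ ^ 2
    rw [TB0_fderiv2 (TB0_G μ) (TB0_G1 μ) h1, hgrad, real_inner_self_eq_norm_sq,
      real_inner_smul_right, real_inner_self_eq_norm_sq, norm_smul, Real.norm_eq_abs, mul_pow,
      sq_abs]
    have hix : i * ‖x‖ ^ 2 = 1 := by
      rw [hi]
      field_simp
    have e1 : G * i * ((G * i) ^ 2 * ‖x‖ ^ 2) + (2 * μ - 2 * G) * i ^ 2 *
        (G * i * ‖x‖ ^ 2 * (G * i * ‖x‖ ^ 2)) -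
        (-G + μ) * i * ((G * i) ^ 2 * ‖x‖ ^ 2) = μ * (G ^ 2 * i ^ 2) := by
      have : G * i * ((G * i) ^ 2 * ‖x‖ ^ 2) + (2 * μ - 2 * G) * i ^ 2 *
        (G * i * ‖x‖ ^ 2 * (G * i * ‖x‖ ^ 2)) -
        (-G + μ) * i * ((G * i) ^ 2 * ‖x‖ ^ 2) =
        G * i ^ 2 * G ^ 2 * (i * ‖x‖ ^ 2) + (2 * μ - 2 * G) * i ^ 2 * G ^ 2 * (i * ‖x‖ ^ 2) ^ 2 -
        (-G + μ) * i ^ 2 * G ^ 2 * (i * ‖x‖ ^ 2) := by ring
      rw [this, hix]
      ring
    rw [e1]
    have e2 : 1 ≤ G ^ 2 := by nlinarith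
    have e3 : 1 ≤ i ^ 2 := one_le_pow₀ hi1
    have e4 : 1 ≤ G ^ 2 * i ^ 2 := by nlinarith
    nlinarith

/-! ### The three ball inequality -/

theorem TB0 (hPT : StmtPT) : StmtTB0 := by
  intro n κ r₀ lam hn hκ hκ1 hr₀ hlam
  have hl : 0 < Real.log lam := Real.log_pos hlam
  set δ : ℝ := min 1 (κ * Real.log lam / 5) with hδ
  have hδ0 : 0 < δ := lt_min one_pos (by positivity)
  have hδ1 : δ ≤ 1 := min_le_left _ _
  have hδ2 : δ ≤ κ * Real.log lam / 5 := min_le_right _ _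
  have hδ3 : 5 * δ ≤ Real.log lam := by
    have := mul_le_of_le_one_left hl.le hκ1.le
    linarith
  set S : ℝ := |Real.log r₀| + 3 with hS
  have hS3 : 3 ≤ S := by
    have := abs_nonneg (Real.log r₀)
    linarith
  set μ : ℝ := κ / (8 * S) with hμ
  have hμ0 : 0 < μ := by positivity
  have hμS : 2 * μ * S ≤ κ / 4 := by
    rw [hμ]
    apply le_of_eq
    field_simp
    ring
  have hμ1 : 2 * μ ≤ 1 := by
    have : 2 * μ * 1 ≤ 2 * μ * S := mul_le_mul_of_nonneg_left (by linarith) (by positivity)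
    linarith
  obtain ⟨K, hK0, hK1, hK2⟩ := TB0_trans_bound
  obtain ⟨Cb, hCb⟩ := isCompact_Icc.exists_bound_of_continuousOn
    ((TB0_b1_continuous (n := n) μ).continuousOn (s := Icc (-S) 0))
  have hCb0 : 0 ≤ Cb := (norm_nonneg _).trans (hCb 0 ⟨by linarith, le_refl _⟩)
  set ρ : ℝ := r₀ * Real.exp (-3) with hρ
  have hρ0 : 0 < ρ := by positivity
  set k1 : ℝ := 2 * K * δ⁻¹ with hk1
  set k2 : ℝ := (2 * K + 2 * K * K) * δ⁻¹ * δ⁻¹ with hk2
  have hk10 : 0 ≤ k1 := by positivity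
  have hk20 : 0 ≤ k2 := by positivity
  set M : ℝ := 2 + 2 * ρ⁻¹ + 7 * (ρ ^ 2)⁻¹ + Cb * ρ⁻¹ + k1 * ρ⁻¹ + (3 * k1 + k2) * (ρ ^ 2)⁻¹ with hM
  have t1 : 0 ≤ 2 * ρ⁻¹ := by positivity
  have t2 : 0 ≤ 7 * (ρ ^ 2)⁻¹ := by positivity
  have t3 : 0 ≤ Cb * ρ⁻¹ := by positivity
  have t4 : 0 ≤ k1 * ρ⁻¹ := by positivity
  have t5 : 0 ≤ (3 * k1 + k2) * (ρ ^ 2)⁻¹ := by positivity
  set r' : ℝ := r₀ * (1 - Real.exp (-δ)) with hr'
  have hexpδ : Real.exp (-δ) < 1 := by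
    have := Real.exp_lt_exp.2 (show -δ < 0 by linarith)
    rwa [Real.exp_zero] at this
  have hr'0 : 0 < r' := mul_pos hr₀ (by linarith)
  obtain ⟨s₀, τ₀, C, hs₀, hτ₀, hC, hmain⟩ := hPT n M μ r' hn (by linarith) hμ0 hr'0
  refine ⟨s₀, τ₀, 2 * C + 1, hs₀, hτ₀, by linarith, ?_⟩
  intro A u r₁ r₂ r₃ T hsol hnear h1 h2 h3 h4 hT
  have hr₁ : 0 < r₁ := by linarith
  have hr₂ : 0 < r₂ := lt_of_lt_of_le (mul_pos (by linarith) hr₁) h2
  have hr₃ : 0 < r₃ := lt_of_lt_of_le (mul_pos (by linarith) hr₂) h3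
  have hT0 : 0 < T := by linarith
  set a := Real.log r₁ with ha
  set b := Real.log r₃ with hb
  set c := Real.log r₂ with hc
  have ea : Real.exp a = r₁ := Real.exp_log hr₁
  have eb : Real.exp b = r₃ := Real.exp_log hr₃
  have ec : Real.exp c = r₂ := Real.exp_log hr₂
  have hab : Real.log lam + a ≤ c := by
    rw [ha, hc, ← Real.log_mul (by linarith) hr₁.ne']
    exact Real.log_le_log (by positivity) h2
  have hcb : Real.log lam + c ≤ b := by
    rw [hb, hc, ← Real.log_mul (by linarith) hr₂.ne']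
    exact Real.log_le_log (by positivity) h3
  have hb0 : b ≤ 0 := Real.log_nonpos hr₃.le h4
  have ha0 : Real.log r₀ ≤ a := Real.log_le_log hr₀ h1
  have haS : -S + 3 ≤ a := by
    have := neg_abs_le (Real.log r₀)
    linarith
  have hr12 : r₁ ≤ r₂ := (le_mul_of_one_le_left hr₁.le hlam.le).trans h2
  have hr23 : r₂ ≤ r₃ := (le_mul_of_one_le_left hr₂.le hlam.le).trans h3
  have hball : ∀ r : ℝ, r ≤ 1 → closedBall (0 : En n) r ⊆ ball 0 2 := fun r hr =>
    closedBall_subset_ball (by linarith)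
  have hD1 : 0 ≤ Dg u 0 r₁ := Dg_nonneg _ _ _
  have hD3 : 0 ≤ Dg u 0 r₃ := Dg_nonneg _ _ _
  have hp1 : (r₂ / r₁) ^ ((1 + κ) * T) = Real.exp (T * ((1 + κ) * (c - a))) := by
    rw [Real.rpow_def_of_pos (by positivity), Real.log_div hr₂.ne' hr₁.ne']
    congr 1
    ring
  have hp2 : (r₃ / r₂) ^ (-((1 - κ) * T)) = Real.exp (T * (-((1 - κ) * (b - c)))) := by
    rw [Real.rpow_def_of_pos (by positivity), Real.log_div hr₃.ne' hr₂.ne']
    congr 1
    ring
  have hnn : 0 ≤ (r₂ / r₁) ^ ((1 + κ) * T) * Dg u 0 r₁ + (r₃ / r₂) ^ (-((1 - κ) * T)) * Dg u 0 r₃ := by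
    positivity
  refine Dg_le (by positivity) fun y hy => ?_
  rw [mem_closedBall_zero_iff] at hy
  by_cases hy1 : ‖y‖ ≤ r₁
  · have e1 : ‖gradient u y‖ ≤ Dg u 0 r₁ :=
      hsol.le_Dg (hball r₁ (by linarith)) (mem_closedBall_zero_iff.2 hy1)
    have e2 : 1 ≤ (r₂ / r₁) ^ ((1 + κ) * T) := by
      rw [hp1]
      apply Real.one_le_exp
      apply mul_nonneg hT0.le (mul_nonneg (by linarith) (by linarith))
    have e3 : 0 ≤ (r₃ / r₂) ^ (-((1 - κ) * T)) * Dg u 0 r₃ := by positivity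
    have e4 : Dg u 0 r₁ ≤ (r₂ / r₁) ^ ((1 + κ) * T) * Dg u 0 r₁ := le_mul_of_one_le_left hD1 e2
    calc ‖gradient u y‖ ≤ 1 * ((r₂ / r₁) ^ ((1 + κ) * T) * Dg u 0 r₁ +
          (r₃ / r₂) ^ (-((1 - κ) * T)) * Dg u 0 r₃) := by linarith
      _ ≤ _ := by
          apply mul_le_mul_of_nonneg_right _ hnn
          linarith
  push Not at hy1
  -- the domain
  set D : Set (En n) := {x | Real.exp (a - 3 * δ) < ‖x‖ ∧ ‖x‖ < r₃} with hD
  have hDo : IsOpen D := (isOpen_lt continuous_const continuous_norm).inter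
    (isOpen_lt continuous_norm continuous_const)
  have hDx : ∀ x ∈ D, x ≠ 0 ∧ ρ ≤ ‖x‖ ∧ ‖x‖ ≤ 1 ∧ -S ≤ Real.log ‖x‖ := by
    intro x hx
    have hxp : 0 < ‖x‖ := (Real.exp_pos _).trans hx.1
    refine ⟨norm_pos_iff.1 hxp, ?_, ?_, ?_⟩
    · have e1 : ρ ≤ Real.exp (a - 3 * δ) := by
        rw [hρ, ← Real.exp_log hr₀, ← Real.exp_add]
        apply Real.exp_le_exp.2
        linarith
      exact e1.trans hx.1.le
    · linarith [hx.2]
    · have := Real.log_le_log (Real.exp_pos _) hx.1.le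
      rw [Real.log_exp] at this
      linarith
  have hDsub : D ⊆ ball 0 2 := fun x hx => by
    rw [mem_ball_zero_iff]
    linarith [(hDx x hx).2.2.1]
  have hDM : D ⊆ ball 0 M := fun x hx => by
    rw [mem_ball_zero_iff]
    linarith [(hDx x hx).2.2.1]
  have hCW : CW M μ D (fun x : En n => TB0G μ (Real.log ‖x‖))
      (fun x => TB0b n μ (Real.log ‖x‖))
      (fun x => (-(-1 + 2 * μ * Real.log ‖x‖) + μ) * (‖x‖ ^ 2)⁻¹) :=
    TB0_CW hμ0 hμ1 hμS hκ1.le hρ0 hCb (by linarith) (by linarith) (by linarith) hDx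
  have hφs : ContDiffOn ℝ ∞ (fun x : En n => TB0G μ (Real.log ‖x‖)) D := fun x hx =>
    (TB0_contDiffAt (TB0_G_contDiff μ) (hDx x hx).1).contDiffWithinAt
  have hBs : ContDiffOn ℝ ∞ (fun x : En n => TB0b n μ (Real.log ‖x‖)) D := fun x hx =>
    (TB0_contDiffAt (TB0_b_contDiff μ) (hDx x hx).1).contDiffWithinAt
  have hχt : tsupport (TB0chi n δ a b) ⊆ D := by
    refine (TB0_chi_tsupport hδ0 hb0).trans fun x hx => ⟨?_, ?_⟩
    · exact lt_of_lt_of_le (Real.exp_lt_exp.2 (by linarith)) hx.1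
    · refine lt_of_le_of_lt hx.2 ?_
      rw [← eb]
      exact Real.exp_lt_exp.2 (by linarith)
  have hχ01 : ∀ x : En n, 0 ≤ TB0chi n δ a b x ∧ TB0chi n δ a b x ≤ 1 := fun x => by
    unfold TB0chi TB0h
    constructor
    · exact mul_nonneg (Real.smoothTransition.nonneg _) (Real.smoothTransition.nonneg _)
    · exact mul_le_one₀ (Real.smoothTransition.le_one _) (Real.smoothTransition.nonneg _)
        (Real.smoothTransition.le_one _)
  have hχM : ∀ x ∈ D, ‖fderiv ℝ (TB0chi n δ a b) x‖ ≤ M ∧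
      ‖fderiv ℝ (fderiv ℝ (TB0chi n δ a b)) x‖ ≤ M := by
    intro x hx
    obtain ⟨g1, g2, g3, g4⟩ := hDx x hx
    obtain ⟨b1, b2⟩ := TB0_h_bounds hK1 hK2 hδ0 a b (Real.log ‖x‖)
    constructor
    · refine (TB0_norm_fderiv (TB0_h δ a b) g1 b1 hρ0 g2).trans ?_
      linarith
    · refine (TB0_norm_fderiv2 (TB0_h δ a b) (TB0_h1 δ a b) g1 b1 b2 hρ0 g2).trans ?_
      linarith
  -- the ball around `y`
  have hyb : ∀ x ∈ closedBall y r', Real.exp (a - δ) ≤ ‖x‖ ∧ ‖x‖ ≤ Real.exp (c + δ) := by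
    intro x hx
    rw [mem_closedBall, dist_eq_norm] at hx
    have e1 : ‖y‖ ≤ ‖x‖ + ‖x - y‖ := by
      have := norm_sub_le x (x - y)
      rwa [sub_sub_cancel] at this
    have e2 : ‖x‖ ≤ ‖y‖ + ‖x - y‖ := by
      have := norm_add_le y (x - y)
      rwa [add_sub_cancel] at this
    have e3 : Real.exp (a - δ) = r₁ * Real.exp (-δ) := by
      rw [sub_eq_add_neg, Real.exp_add, ea]
    have e4 : Real.exp (c + δ) = r₂ * Real.exp δ := by
      rw [Real.exp_add, ec]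
    have e5 : r₀ * (1 - Real.exp (-δ)) ≤ r₁ * (1 - Real.exp (-δ)) :=
      mul_le_mul_of_nonneg_right h1 (by linarith)
    have e6 : 1 - Real.exp (-δ) ≤ Real.exp δ - 1 := by
      have f1 := Real.add_one_le_exp δ
      have f2 := Real.add_one_le_exp (-δ)
      linarith
    have e7 : r₀ * (1 - Real.exp (-δ)) ≤ r₂ * (Real.exp δ - 1) :=
      mul_le_mul (h1.trans hr12) e6 (by linarith) hr₂.le
    constructor
    · rw [e3]
      linarith
    · rw [e4]
      linarith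
  have hyD : closedBall y r' ⊆ D := by
    intro x hx
    obtain ⟨e1, e2⟩ := hyb x hx
    refine ⟨lt_of_lt_of_le (Real.exp_lt_exp.2 (by linarith)) e1, lt_of_le_of_lt e2 ?_⟩
    rw [← eb]
    exact Real.exp_lt_exp.2 (by linarith)
  have hylog : ∀ x ∈ closedBall y r', a - δ ≤ Real.log ‖x‖ ∧ Real.log ‖x‖ ≤ c + δ := by
    intro x hx
    obtain ⟨e1, e2⟩ := hyb x hx
    have hxp : 0 < ‖x‖ := (Real.exp_pos _).trans_le e1
    constructor
    · have := Real.log_le_log (Real.exp_pos _) e1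
      rwa [Real.log_exp] at this
    · have := Real.log_le_log hxp e2
      rwa [Real.log_exp] at this
  have hGm : ∀ s t : ℝ, -S ≤ s → s ≤ t → t ≤ 0 → TB0G μ t ≤ TB0G μ s := by
    intro s t k1 k2 k3
    have := (TB0_G_diff k1 k2 k3 hμ0.le hμS).1
    linarith
  have hy2 : ∀ x ∈ closedBall y r', TB0chi n δ a b x = 1 ∧
      TB0G μ (c + δ) ≤ TB0G μ (Real.log ‖x‖) := by
    intro x hx
    obtain ⟨e1, e2⟩ := hylog x hx
    refine ⟨TB0_h_one hδ0 e1 (by linarith), hGm _ _ (by linarith) e2 (by linarith)⟩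
  -- the size on the support of the derivatives of the cutoff
  set Q : ℝ := 2 * (Real.exp (T * TB0G μ (a - 2 * δ)) * Dg u 0 r₁ +
    Real.exp (T * TB0G μ (b - 2 * δ)) * Dg u 0 r₃) with hQ
  have hQ0 : 0 ≤ Q := by positivity
  have hQx : ∀ x ∈ D, (fderiv ℝ (TB0chi n δ a b) x ≠ 0 ∨
      fderiv ℝ (fderiv ℝ (TB0chi n δ a b)) x ≠ 0) →
      Real.exp (T * TB0G μ (Real.log ‖x‖)) * (‖gradient u x‖ + |u x - u 0|) ≤ Q := by
    intro x hx hne
    obtain ⟨g1, g2, g3, g4⟩ := hDx x hx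
    have hxp : 0 < ‖x‖ := norm_pos_iff.2 g1
    have hbnd : ∀ r : ℝ, ‖x‖ ≤ r → r ≤ 1 → ‖gradient u x‖ + |u x - u 0| ≤ 2 * Dg u 0 r := by
      intro r hxr hr
      have e1 : ‖gradient u x‖ ≤ Dg u 0 r :=
        hsol.le_Dg (hball r hr) (mem_closedBall_zero_iff.2 hxr)
      have e2 : |u x - u 0| ≤ Dg u 0 r * ‖x - 0‖ :=
        hsol.abs_sub_le (hball r hr) (mem_closedBall_zero_iff.2 hxr)
          (mem_closedBall_zero_iff.2 (by rw [norm_zero]; linarith))
      rw [sub_zero] at e2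
      have e3 : Dg u 0 r * ‖x‖ ≤ Dg u 0 r := mul_le_of_le_one_right (Dg_nonneg _ _ _) g3
      linarith
    have hcase : (a - 2 * δ ≤ Real.log ‖x‖ ∧ Real.log ‖x‖ ≤ a - δ) ∨
        (b - 2 * δ ≤ Real.log ‖x‖ ∧ Real.log ‖x‖ ≤ b - δ) := by
      by_contra hcon
      rw [not_or] at hcon
      obtain ⟨z1, z2⟩ := TB0_h_const hδ0 hcon.1 hcon.2
      rcases hne with hne | hne
      · apply hne
        have := TB0_fderiv (n := n) (TB0_h δ a b) g1
        show fderiv ℝ (fun x : En n => TB0h δ a b (Real.log ‖x‖)) x = 0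
        rw [this, z1]
        simp
      · apply hne
        ext ξ η
        have := TB0_fderiv2 (n := n) (TB0_h δ a b) (TB0_h1 δ a b) g1 ξ η
        show fderiv ℝ (fderiv ℝ (fun x : En n => TB0h δ a b (Real.log ‖x‖))) x ξ η = 0
        rw [this, z1, z2]
        simp
    rcases hcase with ⟨q1, q2⟩ | ⟨q1, q2⟩
    · have e1 : ‖x‖ ≤ r₁ := by
        have := Real.exp_le_exp.2 (q2.trans (by linarith : a - δ ≤ a))
        rwa [Real.exp_log hxp, ea] at this
      have e2 := hbnd r₁ e1 (by linarith)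
      have e3 : Real.exp (T * TB0G μ (Real.log ‖x‖)) ≤ Real.exp (T * TB0G μ (a - 2 * δ)) := by
        apply Real.exp_le_exp.2
        exact mul_le_mul_of_nonneg_left (hGm _ _ (by linarith) q1 (by linarith)) hT0.le
      calc Real.exp (T * TB0G μ (Real.log ‖x‖)) * (‖gradient u x‖ + |u x - u 0|)
          ≤ Real.exp (T * TB0G μ (a - 2 * δ)) * (2 * Dg u 0 r₁) :=
            mul_le_mul e3 e2 (by positivity) (Real.exp_pos _).le
        _ ≤ Q := by
            have : 0 ≤ Real.exp (T * TB0G μ (b - 2 * δ)) * Dg u 0 r₃ := by positivity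
            rw [hQ]
            linarith
    · have e1 : ‖x‖ ≤ r₃ := by
        have := Real.exp_le_exp.2 (q2.trans (by linarith : b - δ ≤ b))
        rwa [Real.exp_log hxp, eb] at this
      have e2 := hbnd r₃ e1 h4
      have e3 : Real.exp (T * TB0G μ (Real.log ‖x‖)) ≤ Real.exp (T * TB0G μ (b - 2 * δ)) := by
        apply Real.exp_le_exp.2
        exact mul_le_mul_of_nonneg_left (hGm _ _ (by linarith) q1 (by linarith)) hT0.le
      calc Real.exp (T * TB0G μ (Real.log ‖x‖)) * (‖gradient u x‖ + |u x - u 0|)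
          ≤ Real.exp (T * TB0G μ (b - 2 * δ)) * (2 * Dg u 0 r₃) :=
            mul_le_mul e3 e2 (by positivity) (Real.exp_pos _).le
        _ ≤ Q := by
            have : 0 ≤ Real.exp (T * TB0G μ (a - 2 * δ)) * Dg u 0 r₁ := by positivity
            rw [hQ]
            linarith
  have hfin := hmain D (fun x : En n => TB0G μ (Real.log ‖x‖))
    (fun x => TB0b n μ (Real.log ‖x‖))
    (fun x => (-(-1 + 2 * μ * Real.log ‖x‖) + μ) * (‖x‖ ^ 2)⁻¹) (TB0chi n δ a b) A u y (u 0)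
    (TB0G μ (c + δ)) T Q hDo hDM hφs hBs (TB0_chi_contDiff hδ0 hb0) (TB0_chi_compact hδ0 hb0)
    hχt hχ01 hCW hχM (hnear.mono le_rfl le_rfl hDsub) (hsol.mono hDo hDsub) hyD hy2 hT hQ0 hQx
  -- conclusion
  have g1 : TB0G μ (a - 2 * δ) - TB0G μ (c + δ) ≤ (1 + κ) * (c - a) := by
    have e1 := (TB0_G_diff (κ := κ) (S := S) (s := a - 2 * δ) (t := c + δ) (by linarith)
      (by linarith) (by linarith) hμ0.le hμS).2
    have e2 : 3 * (1 + κ / 4) * δ ≤ 3 * κ / 4 * (c - a) := by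
      have f1 : (1 + κ / 4) ≤ 5 / 4 := by linarith
      have f2 : 3 * (1 + κ / 4) * δ ≤ 15 / 4 * δ := by
        have := mul_le_mul_of_nonneg_right f1 hδ0.le
        linarith
      have f3 : κ * Real.log lam ≤ κ * (c - a) := mul_le_mul_of_nonneg_left (by linarith) hκ.le
      linarith
    linarith
  have g2 : TB0G μ (b - 2 * δ) - TB0G μ (c + δ) ≤ -((1 - κ) * (b - c)) := by
    have e1 := (TB0_G_diff (κ := κ) (S := S) (s := c + δ) (t := b - 2 * δ) (by linarith)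
      (by linarith) (by linarith) hμ0.le hμS).1
    have f3 : κ * Real.log lam ≤ κ * (b - c) := mul_le_mul_of_nonneg_left (by linarith) hκ.le
    linarith
  have g3 : ‖gradient u y‖ ≤ C * (2 * (Real.exp (T * (TB0G μ (a - 2 * δ) - TB0G μ (c + δ))) *
      Dg u 0 r₁ + Real.exp (T * (TB0G μ (b - 2 * δ) - TB0G μ (c + δ))) * Dg u 0 r₃)) := by
    have e0 : 0 < Real.exp (T * TB0G μ (c + δ)) := Real.exp_pos _
    have e1 : Real.exp (T * (TB0G μ (a - 2 * δ) - TB0G μ (c + δ))) =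
        Real.exp (T * TB0G μ (a - 2 * δ)) / Real.exp (T * TB0G μ (c + δ)) := by
      rw [← Real.exp_sub]
      congr 1
      ring
    have e2 : Real.exp (T * (TB0G μ (b - 2 * δ) - TB0G μ (c + δ))) =
        Real.exp (T * TB0G μ (b - 2 * δ)) / Real.exp (T * TB0G μ (c + δ)) := by
      rw [← Real.exp_sub]
      congr 1
      ring
    rw [e1, e2]
    have e3 : C * (2 * (Real.exp (T * TB0G μ (a - 2 * δ)) / Real.exp (T * TB0G μ (c + δ)) *
      Dg u 0 r₁ + Real.exp (T * TB0G μ (b - 2 * δ)) / Real.exp (T * TB0G μ (c + δ)) *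
        Dg u 0 r₃)) = C * Q / Real.exp (T * TB0G μ (c + δ)) := by
      rw [hQ]
      field_simp
    rw [e3, le_div_iff₀ e0]
    linarith
  have g4 : Real.exp (T * (TB0G μ (a - 2 * δ) - TB0G μ (c + δ))) ≤
      (r₂ / r₁) ^ ((1 + κ) * T) := by
    rw [hp1]
    exact Real.exp_le_exp.2 (mul_le_mul_of_nonneg_left g1 hT0.le)
  have g5 : Real.exp (T * (TB0G μ (b - 2 * δ) - TB0G μ (c + δ))) ≤
      (r₃ / r₂) ^ (-((1 - κ) * T)) := by
    rw [hp2]
    exact Real.exp_le_exp.2 (mul_le_mul_of_nonneg_left g2 hT0.le)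
  calc ‖gradient u y‖ ≤ C * (2 * (Real.exp (T * (TB0G μ (a - 2 * δ) - TB0G μ (c + δ))) *
      Dg u 0 r₁ + Real.exp (T * (TB0G μ (b - 2 * δ) - TB0G μ (c + δ))) * Dg u 0 r₃)) := g3
    _ ≤ C * (2 * ((r₂ / r₁) ^ ((1 + κ) * T) * Dg u 0 r₁ +
        (r₃ / r₂) ^ (-((1 - κ) * T)) * Dg u 0 r₃)) := by gcongr
    _ = 2 * C * ((r₂ / r₁) ^ ((1 + κ) * T) * Dg u 0 r₁ +
        (r₃ / r₂) ^ (-((1 - κ) * T)) * Dg u 0 r₃) := by ring
    _ ≤ (2 * C + 1) * ((r₂ / r₁) ^ ((1 + κ) * T) * Dg u 0 r₁ +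
        (r₃ / r₂) ^ (-((1 - κ) * T)) * Dg u 0 r₃) :=
        mul_le_mul_of_nonneg_right (by linarith) hnn

end EAGrad

end

section

/-!
MP_ea6116_an, item WEYL: Weyl's lemma.
-/

set_option autoImplicit false

open MeasureTheory Metric Set Filter Topology
open scoped ENNReal NNReal ContDiff

namespace EAGrad

namespace WEYLx

variable {n : ℕ}

/-! ### The profile -/

theorem eta_contDiff : ContDiff ℝ ∞ eta := by
  have h : ContDiff ℝ ∞ (fun t : ℝ => 2 - 4 * t) := by fun_prop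
  exact (Real.smoothTransition.contDiff (n := ⊤)).comp h

theorem eta_continuous : Continuous eta := eta_contDiff.continuous

theorem eta_zero {t : ℝ} (ht : 1 / 2 ≤ t) : eta t = 0 :=
  Real.smoothTransition.zero_of_nonpos (by linarith)

theorem eta_one {t : ℝ} (ht : t ≤ 1 / 4) : eta t = 1 :=
  Real.smoothTransition.one_of_one_le (by linarith)

theorem eta_nonneg (t : ℝ) : 0 ≤ eta t := Real.smoothTransition.nonneg _

theorem eta_le_one (t : ℝ) : eta t ≤ 1 := Real.smoothTransition.le_one _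

/-- A primitive of `eta`, zero for `t ≥ 1/2`. -/
noncomputable def H (t : ℝ) : ℝ := ∫ s in (1 / 2 : ℝ)..t, eta s

theorem H_hasDerivAt (t : ℝ) : HasDerivAt H (eta t) t :=
  intervalIntegral.integral_hasDerivAt_right (eta_continuous.intervalIntegrable _ _)
    (eta_continuous.stronglyMeasurableAtFilter _ _) eta_continuous.continuousAt

theorem H_contDiff : ContDiff ℝ ∞ H := by
  rw [contDiff_infty_iff_deriv]
  refine ⟨fun t => (H_hasDerivAt t).differentiableAt, ?_⟩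
  have h : deriv H = eta := funext fun t => (H_hasDerivAt t).deriv
  rw [h]
  exact eta_contDiff

theorem H_zero {t : ℝ} (ht : 1 / 2 ≤ t) : H t = 0 := by
  unfold H
  rw [intervalIntegral.integral_congr (g := fun _ => (0 : ℝ))]
  · simp
  · intro s hs
    rw [uIcc_of_le ht] at hs
    exact eta_zero hs.1

/-! ### The kernel -/

/-- The radial kernel at scale `r`. -/
noncomputable def Kr (r : ℝ) (z : En n) : ℝ := r ^ (-(n : ℤ)) * eta (‖z‖ ^ 2 / r ^ 2)

/-- The potential. -/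
noncomputable def Th (r : ℝ) (z : En n) : ℝ := r ^ 2 / 2 * (r ^ (-(n : ℤ)) * H (‖z‖ ^ 2 / r ^ 2))

theorem Kr_contDiff (r : ℝ) : ContDiff ℝ ∞ (Kr r : En n → ℝ) := by
  unfold Kr
  have h : ContDiff ℝ ∞ (fun z : En n => ‖z‖ ^ 2 / r ^ 2) := (contDiff_norm_sq ℝ).div_const _
  exact contDiff_const.mul (eta_contDiff.comp h)

theorem Th_contDiff (r : ℝ) : ContDiff ℝ ∞ (Th r : En n → ℝ) := by
  unfold Th
  have h : ContDiff ℝ ∞ (fun z : En n => ‖z‖ ^ 2 / r ^ 2) := (contDiff_norm_sq ℝ).div_const _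
  exact contDiff_const.mul (contDiff_const.mul (H_contDiff.comp h))

theorem quot_ge {r : ℝ} (hr : 0 < r) {z : En n} (hz : r ≤ ‖z‖) : 1 / 2 ≤ ‖z‖ ^ 2 / r ^ 2 := by
  rw [le_div_iff₀ (by positivity)]
  nlinarith

theorem Kr_zero {r : ℝ} (hr : 0 < r) {z : En n} (hz : r ≤ ‖z‖) : Kr r z = 0 := by
  unfold Kr
  rw [eta_zero (quot_ge hr hz), mul_zero]

theorem Th_zero {r : ℝ} (hr : 0 < r) {z : En n} (hz : r ≤ ‖z‖) : Th r z = 0 := by
  unfold Th
  rw [H_zero (quot_ge hr hz), mul_zero, mul_zero]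

theorem Kr_even (r : ℝ) (z : En n) : Kr r (-z) = Kr r z := by
  unfold Kr
  rw [norm_neg]

theorem Kr_supp {r : ℝ} (hr : 0 < r) : HasCompactSupport (Kr r : En n → ℝ) :=
  HasCompactSupport.intro (isCompact_closedBall 0 r) fun z hz =>
    Kr_zero hr (by rw [mem_closedBall_zero_iff] at hz; linarith)

theorem Kr_nonneg {r : ℝ} (hr : 0 < r) (z : En n) : 0 ≤ Kr r z :=
  mul_nonneg (by positivity) (eta_nonneg _)

theorem Kr_le {r : ℝ} (hr : 0 < r) (z : En n) : Kr r z ≤ r ^ (-(n : ℤ)) := by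
  unfold Kr
  have h : 0 ≤ r ^ (-(n : ℤ)) := by positivity
  exact mul_le_of_le_one_right h (eta_le_one _)

theorem quot_hasFDerivAt (r : ℝ) (z : En n) :
    HasFDerivAt (fun z : En n => ‖z‖ ^ 2 / r ^ 2) ((2 / r ^ 2) • innerSL ℝ z) z := by
  have h := ((hasStrictFDerivAt_norm_sq z).hasFDerivAt).mul_const (r ^ 2)⁻¹
  have h2 : (fun z : En n => ‖z‖ ^ 2 / r ^ 2) = fun z => ‖z‖ ^ 2 * (r ^ 2)⁻¹ := by
    funext z; exact div_eq_mul_inv _ _
  rw [h2]
  refine h.congr_fderiv ?_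
  ext v
  simp
  ring

theorem Th_hasFDerivAt {r : ℝ} (hr : 0 < r) (z : En n) :
    HasFDerivAt (Th r) (Kr r z • innerSL ℝ z) z := by
  have h1 := (H_hasDerivAt (‖z‖ ^ 2 / r ^ 2)).comp_hasFDerivAt z (quot_hasFDerivAt r z)
  have h2 := (h1.const_mul (r ^ (-(n : ℤ)))).const_mul (r ^ 2 / 2)
  refine h2.congr_fderiv ?_
  ext v
  unfold Kr
  simp
  field_simp

theorem Kr_hasFDerivAt (r : ℝ) (z : En n) :
    HasFDerivAt (Kr r) ((r ^ (-(n : ℤ)) * (deriv eta (‖z‖ ^ 2 / r ^ 2) * (2 / r ^ 2))) •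
      innerSL ℝ z) z := by
  have h0 : HasDerivAt eta (deriv eta (‖z‖ ^ 2 / r ^ 2)) (‖z‖ ^ 2 / r ^ 2) :=
    ((eta_contDiff.differentiable (by norm_num)) _).hasDerivAt
  have h1 := h0.comp_hasFDerivAt z (quot_hasFDerivAt r z)
  have h2 := h1.const_mul (r ^ (-(n : ℤ)))
  refine h2.congr_fderiv ?_
  ext v
  simp
  ring

/-- The Laplacian of the potential. -/
noncomputable def Lr (r : ℝ) (z : En n) : ℝ :=
  r ^ (-(n : ℤ)) * (n * eta (‖z‖ ^ 2 / r ^ 2) + deriv eta (‖z‖ ^ 2 / r ^ 2) * (2 * ‖z‖ ^ 2 / r ^ 2))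

theorem D2_eq {f : En n → ℝ} (hf : ContDiff ℝ ∞ f) (x ξ η : En n) :
    D2 f x ξ η = fderiv ℝ (fun y => fderiv ℝ f y η) x ξ := by
  have h1 : DifferentiableAt ℝ (fderiv ℝ f) x :=
    (hf.fderiv_right (m := ∞) (by simp)).differentiable (by norm_num) x
  have h2 := (h1.hasFDerivAt.clm_apply (hasFDerivAt_const η x)).fderiv
  unfold D2
  rw [h2]
  simp

theorem D2_Th {r : ℝ} (hr : 0 < r) (z ξ η : En n) : D2 (Th r) z ξ η =
    (r ^ (-(n : ℤ)) * (deriv eta (‖z‖ ^ 2 / r ^ 2) * (2 / r ^ 2))) * inner ℝ z ξ * inner ℝ z η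
      + Kr r z * inner ℝ ξ η := by
  rw [D2_eq (Th_contDiff r)]
  have h1 : (fun y => fderiv ℝ (Th r : En n → ℝ) y η) = fun y => Kr r y * inner ℝ y η := by
    funext y
    rw [(Th_hasFDerivAt hr y).fderiv]
    simp
  have h2 := ((Kr_hasFDerivAt r z).mul ((hasFDerivAt_id z).inner ℝ (hasFDerivAt_const η z))).fderiv
  simp only [id] at h2
  have h3 : (fun y => Kr r y * inner ℝ y η) = (Kr r : En n → ℝ) * fun t => inner ℝ t η := rfl
  rw [h1, h3, h2]
  simp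
  ring

theorem lap_Th {r : ℝ} (hr : 0 < r) (z : En n) : lap (Th r) z = Lr r z := by
  unfold lap Lr
  simp_rw [D2_Th hr]
  have h3 : ∀ i : Fin n, inner ℝ z (ee i) = z i := by
    intro i
    simp [ee, EuclideanSpace.inner_single_right]
  have h4 : ∀ i : Fin n, inner ℝ (ee i : En n) (ee i) = (1 : ℝ) := by
    intro i
    simp [ee]
  have h5 : ‖z‖ ^ 2 = ∑ i, z i ^ 2 := by
    rw [EuclideanSpace.norm_sq_eq]
    simp
  simp_rw [h3, h4]
  rw [Finset.sum_add_distrib]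
  have h6 : ∑ i : Fin n, (r ^ (-(n : ℤ)) * (deriv eta (‖z‖ ^ 2 / r ^ 2) * (2 / r ^ 2))) *
      z i * z i = (r ^ (-(n : ℤ)) * (deriv eta (‖z‖ ^ 2 / r ^ 2) * (2 / r ^ 2))) * ‖z‖ ^ 2 := by
    rw [h5, Finset.mul_sum]
    refine Finset.sum_congr rfl fun i _ => ?_
    ring
  rw [h6]
  unfold Kr
  simp
  ring

theorem Kr_hasDerivAt {r : ℝ} (hr : 0 < r) (z : En n) :
    HasDerivAt (fun r => Kr r z) (-(1 / r) * Lr r z) r := by
  have h1 : HasDerivAt (fun r : ℝ => r ^ (-(n : ℤ))) ((-(n : ℤ) : ℤ) * r ^ (-(n : ℤ) - 1)) r :=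
    hasDerivAt_zpow _ _ (Or.inl hr.ne')
  have h2 : HasDerivAt (fun r : ℝ => ‖z‖ ^ 2 / r ^ 2) (-(2 * ‖z‖ ^ 2 / r ^ 3)) r := by
    have := (((hasDerivAt_id r).pow 2).inv (by simp; exact hr.ne')).const_mul (‖z‖ ^ 2)
    refine (this.congr_deriv ?_).congr_of_eventuallyEq ?_
    · simp
      field_simp
    · filter_upwards with s
      simp [div_eq_mul_inv]
  have h0 : HasDerivAt eta (deriv eta (‖z‖ ^ 2 / r ^ 2)) (‖z‖ ^ 2 / r ^ 2) :=
    ((eta_contDiff.differentiable (by norm_num)) _).hasDerivAt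
  have h3 := h1.mul (h0.comp r h2)
  unfold Kr Lr
  refine h3.congr_deriv ?_
  simp only [Function.comp]
  rw [zpow_sub_one₀ hr.ne']
  push_cast
  field_simp
  ring

/-! ### Laplacians of compositions -/

theorem lap_zero {k : En n → ℝ} {z : En n} (h : k =ᶠ[𝓝 z] fun _ => 0) : lap k z = 0 := by
  have h1 : fderiv ℝ k =ᶠ[𝓝 z] fun _ => 0 := by
    filter_upwards [eventually_eventually_nhds.2 h] with y hy
    have hy' : k =ᶠ[𝓝 y] fun _ => 0 := hy
    rw [hy'.fderiv_eq]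
    simp
  unfold lap D2
  rw [h1.fderiv_eq]
  simp

theorem eventually_zero {k : En n → ℝ} {r : ℝ} (hk : ∀ z, r ≤ ‖z‖ → k z = 0) {z : En n}
    (hz : r < ‖z‖) : k =ᶠ[𝓝 z] fun _ => 0 := by
  have h : {y : En n | r < ‖y‖} ∈ 𝓝 z := (isOpen_lt continuous_const continuous_norm).mem_nhds hz
  filter_upwards [h] with y hy
  exact hk y (le_of_lt hy)

theorem fderiv_refl {k : En n → ℝ} (hk : ContDiff ℝ ∞ k) (x t v : En n) :
    fderiv ℝ (fun t => k (x - t)) t v = - fderiv ℝ k (x - t) v := by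
  have h1 : HasFDerivAt k (fderiv ℝ k (x - t)) (x - t) :=
    (hk.differentiable (by norm_num) _).hasFDerivAt
  have h2 : HasFDerivAt (fun t : En n => x - t) (-(ContinuousLinearMap.id ℝ (En n))) t :=
    (hasFDerivAt_id t).const_sub x
  have h3 := (h1.comp t h2).fderiv
  have h4 : (fun t => k (x - t)) = k ∘ (fun t : En n => x - t) := rfl
  rw [h4, h3]
  simp

theorem lap_refl {k : En n → ℝ} (hk : ContDiff ℝ ∞ k) (x t : En n) :
    lap (fun t => k (x - t)) t = lap k (x - t) := by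
  have hk2 : ContDiff ℝ ∞ (fun t : En n => k (x - t)) := hk.comp (by fun_prop)
  unfold lap
  refine Finset.sum_congr rfl fun i _ => ?_
  rw [D2_eq hk2, D2_eq hk]
  have h1 : (fun y => fderiv ℝ (fun t => k (x - t)) y (ee i)) =
      fun y => - (fun b => fderiv ℝ k b (ee i)) (x - y) := by
    funext y
    exact fderiv_refl hk x y _
  have h2 : ContDiff ℝ ∞ (fun b : En n => fderiv ℝ k b (ee i)) :=
    (hk.fderiv_right (m := ∞) (by simp)).clm_apply contDiff_const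
  rw [h1, fderiv_fun_neg]
  rw [neg_apply, fderiv_refl h2, neg_neg]

/-- Weak harmonicity against reflected kernels. -/
theorem weak_conv {g f : En n → ℝ} {R r : ℝ}
    (hw : ∀ ψ : En n → ℝ, ContDiff ℝ ∞ ψ → HasCompactSupport ψ → tsupport ψ ⊆ ball 0 R →
      ∫ x, g x * lap ψ x = 0) {k : En n → ℝ} (hk : ContDiff ℝ ∞ k)
    (hk0 : ∀ z, r ≤ ‖z‖ → k z = 0) {x : En n} (hx : closedBall x r ⊆ ball 0 R)
    (hf : ∀ t ∈ closedBall x r, f t = g t) : ∫ t, f t * lap k (x - t) = 0 := by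
  have hk2 : ContDiff ℝ ∞ (fun t : En n => k (x - t)) := hk.comp (by fun_prop)
  have hz : ∀ t : En n, t ∉ closedBall x r → r < ‖x - t‖ := by
    intro t ht
    rw [mem_closedBall, dist_comm, dist_eq_norm] at ht
    exact not_le.1 ht
  have hs : tsupport (fun t : En n => k (x - t)) ⊆ closedBall x r := by
    refine closure_minimal (fun t ht => ?_) isClosed_closedBall
    by_contra hc
    exact ht (hk0 _ (hz t hc).le)
  have hcs : HasCompactSupport (fun t : En n => k (x - t)) :=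
    HasCompactSupport.of_support_subset_isCompact (isCompact_closedBall x r)
      ((subset_tsupport _).trans hs)
  rw [← hw _ hk2 hcs (hs.trans hx)]
  refine integral_congr_ae (ae_of_all _ fun t => ?_)
  show f t * lap k (x - t) = g t * lap (fun t => k (x - t)) t
  rw [lap_refl hk]
  by_cases ht : t ∈ closedBall x r
  · rw [hf t ht]
  · rw [lap_zero (eventually_zero hk0 (hz t ht)), mul_zero, mul_zero]

/-! ### Convolutions -/

open scoped Convolution

/-- The convolution of `f` with a kernel. -/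
noncomputable def cv (f k : En n → ℝ) : En n → ℝ :=
  f ⋆[ContinuousLinearMap.mul ℝ ℝ, volume] k

theorem cv_apply (f k : En n → ℝ) (x : En n) : cv f k x = ∫ t, f t * k (x - t) := rfl

theorem cv_contDiff {f k : En n → ℝ} (hf : LocallyIntegrable f) (hk : ContDiff ℝ ∞ k)
    (hc : HasCompactSupport k) : ContDiff ℝ ∞ (cv f k) :=
  hc.contDiff_convolution_right (n := ⊤) _ hf hk

theorem supp_fderiv {k : En n → ℝ} (hc : HasCompactSupport k) (v : En n) :
    HasCompactSupport (fun z => fderiv ℝ k z v) := hc.fderiv_apply (𝕜 := ℝ) v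

theorem cv_fderiv {f k : En n → ℝ} (hf : LocallyIntegrable f) (hk : ContDiff ℝ ∞ k)
    (hc : HasCompactSupport k) (x v : En n) :
    fderiv ℝ (cv f k) x v = cv f (fun z => fderiv ℝ k z v) x := by
  have h := (hc.hasFDerivAt_convolution_right (ContinuousLinearMap.mul ℝ ℝ) hf
    (hk.of_le (by norm_num)) x).fderiv
  unfold cv
  rw [h]
  exact convolution_precompR_apply _ hf (hc.fderiv (𝕜 := ℝ)) (hk.continuous_fderiv (by norm_num))
    x v

theorem cv_lap {f k : En n → ℝ} (hf : LocallyIntegrable f) (hk : ContDiff ℝ ∞ k)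
    (hc : HasCompactSupport k) (x : En n) : lap (cv f k) x = ∫ t, f t * lap k (x - t) := by
  have hd : ∀ v : En n, ContDiff ℝ ∞ (fun b : En n => fderiv ℝ k b v) := fun v =>
    (hk.fderiv_right (m := ∞) (by simp)).clm_apply contDiff_const
  have h1 : ∀ v : En n, D2 (cv f k) x v v = cv f (fun z => D2 k z v v) x := by
    intro v
    rw [D2_eq (cv_contDiff hf hk hc)]
    have h2 : (fun y => fderiv ℝ (cv f k) y v) = cv f (fun z => fderiv ℝ k z v) :=
      funext fun y => cv_fderiv hf hk hc y v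
    rw [h2, cv_fderiv hf (hd v) (supp_fderiv hc v)]
    congr 1
    funext z
    rw [D2_eq hk]
  unfold lap
  simp_rw [h1, cv_apply, Finset.mul_sum]
  rw [integral_finsetSum]
  intro i _
  have h3 : HasCompactSupport (fun z => D2 k z (ee i) (ee i)) := by
    have : (fun z => D2 k z (ee i) (ee i)) =
        fun z => fderiv ℝ (fun y => fderiv ℝ k y (ee i)) z (ee i) := funext fun z => D2_eq hk _ _ _
    rw [this]
    exact supp_fderiv (supp_fderiv hc _) _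
  have h4 : Continuous (fun z => D2 k z (ee i) (ee i)) := by
    have : (fun z => D2 k z (ee i) (ee i)) =
        fun z => fderiv ℝ (fun y => fderiv ℝ k y (ee i)) z (ee i) := funext fun z => D2_eq hk _ _ _
    rw [this]
    exact ((hd (ee i)).continuous_fderiv (by norm_num)).clm_apply continuous_const
  exact h3.convolutionExists_right (ContinuousLinearMap.mul ℝ ℝ) hf h4 x

/-! ### Dependence on the radius -/

theorem Kr_param : ContDiffOn ℝ ∞ (fun p : ℝ × En n => Kr p.1 p.2) (Ioi 0 ×ˢ univ) := by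
  unfold Kr
  have h1 : ContDiffOn ℝ ∞ (fun p : ℝ × En n => p.1 ^ (-(n : ℤ))) (Ioi 0 ×ˢ univ) := by
    simp_rw [zpow_neg, zpow_natCast]
    exact (contDiff_fst.pow n).contDiffOn.inv fun p hp => (pow_pos hp.1 n).ne'
  have h2 : ContDiffOn ℝ ∞ (fun p : ℝ × En n => ‖p.2‖ ^ 2 / p.1 ^ 2) (Ioi 0 ×ˢ univ) :=
    (((contDiff_norm_sq ℝ).comp contDiff_snd).contDiffOn).div (contDiff_fst.pow 2).contDiffOn
      fun p hp => (pow_pos hp.1 2).ne'
  exact h1.mul (eta_contDiff.comp_contDiffOn h2)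

theorem Kr_fderiv_param {r : ℝ} (hr : 0 < r) (z : En n) :
    fderiv ℝ (fun p : ℝ × En n => Kr p.1 p.2) (r, z) (1, 0) = -(1 / r) * Lr r z := by
  have hd : DifferentiableAt ℝ (fun p : ℝ × En n => Kr p.1 p.2) (r, z) :=
    ((Kr_param (n := n)).contDiffAt ((isOpen_Ioi.prod isOpen_univ).mem_nhds
      (mk_mem_prod (mem_Ioi.2 hr) (mem_univ _)))).differentiableAt (by norm_num)
  have h1 := hd.hasFDerivAt.comp_hasDerivAt r ((hasDerivAt_id r).prodMk (hasDerivAt_const r z))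
  exact h1.unique (Kr_hasDerivAt hr z)

theorem cv_hasDerivAt {f : En n → ℝ} (hf : LocallyIntegrable f) {r : ℝ} (hr : 0 < r) (x : En n) :
    HasDerivAt (fun s => cv f (Kr s) x) (∫ t, f t * (-(1 / r) * Lr r (x - t))) r := by
  have hsub : Ioo 0 (r + 1) ×ˢ (univ : Set (En n)) ⊆ Ioi 0 ×ˢ univ :=
    prod_mono (fun y hy => hy.1) (Subset.refl _)
  have hg : ContDiffOn ℝ 1 (fun p : ℝ × En n => Kr p.1 p.2) (Ioo 0 (r + 1) ×ˢ univ) :=
    (Kr_param.mono hsub).of_le (by norm_num)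
  have h := hasFDerivAt_convolution_right_with_param (ContinuousLinearMap.mul ℝ ℝ)
    (μ := (volume : Measure (En n)))
    (g := fun (s : ℝ) (z : En n) => Kr s z) (s := Ioo 0 (r + 1)) (k := closedBall 0 (r + 1))
    isOpen_Ioo (isCompact_closedBall _ _) (fun p y hp hy => Kr_zero hp.1 (by
      rw [mem_closedBall_zero_iff] at hy
      linarith [hp.2])) hf hg (r, x) ⟨hr, by simp⟩
  have h' := h.comp_hasDerivAt r ((hasDerivAt_id r).prodMk (hasDerivAt_const r x))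
  have hc1 : Continuous (fun z : En n => fderiv ℝ (fun p : ℝ × En n => Kr p.1 p.2) (r, z)) := by
    have h3 := hg.continuousOn_fderiv_of_isOpen (isOpen_Ioo.prod isOpen_univ) le_rfl
    exact h3.comp_continuous (by fun_prop) fun z => ⟨⟨hr, by simp⟩, mem_univ _⟩
  have hc2 : HasCompactSupport
      (fun z : En n => fderiv ℝ (fun p : ℝ × En n => Kr p.1 p.2) (r, z)) := by
    refine HasCompactSupport.intro (isCompact_closedBall 0 (r + 1)) fun z hz => ?_
    rw [mem_closedBall_zero_iff, not_le] at hz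
    have h4 : (fun p : ℝ × En n => Kr p.1 p.2) =ᶠ[𝓝 (r, z)] fun _ => 0 := by
      have h5 : Ioo 0 (r + 1) ×ˢ {y : En n | r + 1 < ‖y‖} ∈ 𝓝 (r, z) :=
        (isOpen_Ioo.prod (isOpen_lt continuous_const continuous_norm)).mem_nhds
          ⟨⟨hr, by simp⟩, hz⟩
      filter_upwards [h5] with p hp
      exact Kr_zero hp.1.1 (by
        have h6 : r + 1 < ‖p.2‖ := hp.2
        linarith [hp.1.2])
    rw [h4.fderiv_eq]
    simp
  refine h'.congr_deriv ?_
  have h7 := convolution_precompR_apply (ContinuousLinearMap.mul ℝ ℝ) hf hc2 hc1 x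
    ((1 : ℝ), (0 : En n))
  refine h7.trans ?_
  refine integral_congr_ae (ae_of_all _ fun t => ?_)
  show f t * (fderiv ℝ (fun p : ℝ × En n => Kr p.1 p.2) (r, x - t) (1, 0)) = _
  rw [Kr_fderiv_param hr]

theorem cv_const {g f : En n → ℝ} {R ρ : ℝ}
    (hw : ∀ ψ : En n → ℝ, ContDiff ℝ ∞ ψ → HasCompactSupport ψ → tsupport ψ ⊆ ball 0 R →
      ∫ x, g x * lap ψ x = 0) (hf : LocallyIntegrable f) {x : En n}
    (hx : closedBall x ρ ⊆ ball 0 R) (hfg : ∀ t ∈ closedBall x ρ, f t = g t) {r₁ r₂ : ℝ}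
    (h₁ : r₁ ∈ Ioo 0 ρ) (h₂ : r₂ ∈ Ioo 0 ρ) : cv f (Kr r₁) x = cv f (Kr r₂) x := by
  have hd : ∀ r ∈ Ioo 0 ρ, HasDerivAt (fun s => cv f (Kr s) x) 0 r := by
    intro r hr
    refine (cv_hasDerivAt hf hr.1 x).congr_deriv ?_
    have h1 : ∀ t, f t * (-(1 / r) * Lr r (x - t)) = -(1 / r) * (f t * lap (Th r) (x - t)) := by
      intro t
      rw [lap_Th hr.1]
      ring
    simp_rw [h1]
    have hsub : closedBall x r ⊆ closedBall x ρ := closedBall_subset_closedBall hr.2.le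
    rw [integral_const_mul, weak_conv hw (Th_contDiff r) (fun z hz => Th_zero hr.1 hz)
      (hsub.trans hx) (fun t ht => hfg t (hsub ht)), mul_zero]
  obtain ⟨a, ha⟩ := isOpen_Ioo.exists_is_const_of_deriv_eq_zero
    (isPreconnected_Ioo (a := (0 : ℝ)) (b := ρ)) (f := fun s => cv f (Kr s) x)
    (fun r hr => (hd r hr).differentiableAt.differentiableWithinAt)
    (fun r hr => (hd r hr).deriv)
  exact (ha r₁ h₁).trans (ha r₂ h₂).symm

/-! ### The limit -/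

/-- The mass of the kernel. -/
noncomputable def mass (n : ℕ) : ℝ := ∫ z : En n, eta (‖z‖ ^ 2)

theorem mass_pos (n : ℕ) : 0 < mass n := by
  have hc : Continuous (fun z : En n => eta (‖z‖ ^ 2)) := eta_continuous.comp (by fun_prop)
  have hs : HasCompactSupport (fun z : En n => eta (‖z‖ ^ 2)) :=
    HasCompactSupport.intro (isCompact_closedBall 0 1) fun z hz => by
      rw [mem_closedBall_zero_iff, not_le] at hz
      exact eta_zero (by nlinarith)
  refine hc.integral_pos_of_hasCompactSupport_nonneg_nonzero hs (fun z => eta_nonneg _)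
    (x := 0) ?_
  simp [eta_one (t := 0) (by norm_num)]

theorem Kr_integral {r : ℝ} (hr : 0 < r) (x : En n) : ∫ t, Kr r (x - t) = mass n := by
  rw [integral_sub_left_eq_self (fun z : En n => Kr r z) volume x]
  have h1 : ∀ z : En n, Kr r z = r ^ (-(n : ℤ)) * eta (‖r⁻¹ • z‖ ^ 2) := by
    intro z
    unfold Kr
    rw [norm_smul, Real.norm_eq_abs, abs_of_pos (inv_pos.2 hr)]
    congr 2
    field_simp
  simp_rw [h1]
  rw [integral_const_mul, Measure.integral_comp_inv_smul volume (fun z : En n => eta (‖z‖ ^ 2)) r]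
  unfold mass
  rw [smul_eq_mul, finrank_euclideanSpace_fin, abs_of_pos (pow_pos hr n), ← mul_assoc,
    zpow_neg, zpow_natCast, inv_mul_cancel₀ (pow_pos hr n).ne', one_mul]

theorem cv_sub_le {f : En n → ℝ} (hf : LocallyIntegrable f) {r : ℝ} (hr : 0 < r) (x : En n) :
    |cv f (Kr r) x - mass n * f x| ≤
      volume.real (ball (0 : En n) 1) * ⨍ t in closedBall x r, ‖f t - f x‖ := by
  have hz : ∀ t : En n, t ∉ closedBall x r → Kr r (x - t) = 0 := by
    intro t ht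
    rw [mem_closedBall, dist_comm, dist_eq_norm, not_le] at ht
    exact Kr_zero hr ht.le
  have hK : Continuous (fun t : En n => Kr r (x - t)) :=
    (Kr_contDiff r).continuous.comp (by fun_prop)
  have i1 : Integrable (fun t => f t * Kr r (x - t)) :=
    (Kr_supp hr).convolutionExists_right (ContinuousLinearMap.mul ℝ ℝ) hf
      (Kr_contDiff r).continuous x
  have hcs : HasCompactSupport (fun t : En n => Kr r (x - t)) :=
    HasCompactSupport.intro (isCompact_closedBall x r) hz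
  have i2 : Integrable (fun t => f x * Kr r (x - t)) :=
    (hK.integrable_of_hasCompactSupport hcs).const_mul _
  have e1 : cv f (Kr r) x - mass n * f x = ∫ t, (f t - f x) * Kr r (x - t) := by
    rw [cv_apply, ← Kr_integral hr x, mul_comm, ← integral_const_mul, ← integral_sub i1 i2]
    refine integral_congr_ae (ae_of_all _ fun t => ?_)
    show f t * Kr r (x - t) - f x * Kr r (x - t) = _
    ring
  have i3 : IntegrableOn (fun t => ‖f t - f x‖) (closedBall x r) := by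
    have h1 : IntegrableOn f (closedBall x r) := hf.integrableOn_isCompact (isCompact_closedBall x r)
    have h2 : IntegrableOn (fun _ : En n => f x) (closedBall x r) :=
      integrableOn_const (by exact (isCompact_closedBall x r).measure_lt_top.ne)
    exact (h1.sub h2).norm
  have e2 : |∫ t, (f t - f x) * Kr r (x - t)| ≤
      r ^ (-(n : ℤ)) * ∫ t in closedBall x r, ‖f t - f x‖ := by
    rw [← integral_const_mul, ← integral_indicator measurableSet_closedBall]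
    rw [← Real.norm_eq_abs]
    refine norm_integral_le_of_norm_le
      ((integrable_indicator_iff measurableSet_closedBall).2 (i3.const_mul _))
      (ae_of_all _ fun t => ?_)
    by_cases ht : t ∈ closedBall x r
    · rw [indicator_of_mem ht, norm_mul, mul_comm, Real.norm_of_nonneg (Kr_nonneg hr _)]
      exact mul_le_mul_of_nonneg_right (Kr_le hr _) (norm_nonneg _)
    · rw [indicator_of_notMem ht, hz t ht, mul_zero, norm_zero]
  rw [e1]
  refine e2.trans (le_of_eq ?_)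
  have hV : 0 < volume.real (ball (0 : En n) 1) :=
    ENNReal.toReal_pos (measure_ball_pos _ _ one_pos).ne' measure_ball_lt_top.ne
  rw [setAverage_eq, smul_eq_mul, Measure.addHaar_real_closedBall _ _ hr.le,
    finrank_euclideanSpace_fin, zpow_neg, zpow_natCast, mul_inv]
  field_simp

theorem cv_tendsto {f : En n → ℝ} (hf : LocallyIntegrable f) :
    ∀ᵐ x : En n, Tendsto (fun r => cv f (Kr r) x) (𝓝[>] 0) (𝓝 (mass n * f x)) := by
  filter_upwards [IsUnifLocDoublingMeasure.ae_tendsto_average_norm_sub volume hf 1] with x hx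
  have h1 := hx (fun _ : ℝ => x) (fun r : ℝ => r) (l := 𝓝[>] 0) tendsto_id (by
    filter_upwards [self_mem_nhdsWithin] with r hr
    exact mem_closedBall_self (by simpa using (le_of_lt hr)))
  have h2 : Tendsto (fun r : ℝ => volume.real (ball (0 : En n) 1) *
      ⨍ t in closedBall x r, ‖f t - f x‖) (𝓝[>] 0) (𝓝 0) := by
    have := h1.const_mul (volume.real (ball (0 : En n) 1))
    rwa [mul_zero] at this
  rw [tendsto_iff_norm_sub_tendsto_zero]
  refine squeeze_zero' (Eventually.of_forall fun r => norm_nonneg _) ?_ h2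
  filter_upwards [self_mem_nhdsWithin] with r hr
  exact cv_sub_le hf hr x

/-! ### Assembly -/

/-- The mean value, with `g` itself. -/
noncomputable def FF (g : En n → ℝ) (r : ℝ) (x : En n) : ℝ := ∫ t, g t * Kr r (x - t)

/-- Truncation. -/
noncomputable def trunc (g : En n → ℝ) (ρ : ℝ) : En n → ℝ := indicator (closedBall 0 ρ) g

theorem trunc_loc {g : En n → ℝ} {R ρ : ℝ} (hg : LocallyIntegrableOn g (ball 0 R)) (h : ρ < R) :
    LocallyIntegrable (trunc g ρ) := by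
  have h1 : IntegrableOn g (closedBall 0 ρ) :=
    hg.integrableOn_compact_subset (closedBall_subset_ball h) (isCompact_closedBall _ _)
  exact ((integrable_indicator_iff measurableSet_closedBall).2 h1).locallyIntegrable

theorem trunc_eq {g : En n → ℝ} {ρ r : ℝ} {x : En n} (h : ‖x‖ + r ≤ ρ) :
    ∀ t ∈ closedBall x r, trunc g ρ t = g t := by
  intro t ht
  unfold trunc
  rw [indicator_of_mem]
  rw [mem_closedBall_zero_iff]
  rw [mem_closedBall, dist_eq_norm] at ht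
  have : ‖t‖ ≤ ‖t - x‖ + ‖x‖ := by
    calc ‖t‖ = ‖(t - x) + x‖ := by rw [sub_add_cancel]
      _ ≤ _ := norm_add_le _ _
  linarith

theorem FF_eq {g : En n → ℝ} {ρ r : ℝ} {x : En n} (hr : 0 < r) (h : ‖x‖ + r ≤ ρ) :
    FF g r x = cv (trunc g ρ) (Kr r) x := by
  rw [cv_apply]
  unfold FF
  refine integral_congr_ae (ae_of_all _ fun t => ?_)
  show g t * Kr r (x - t) = trunc g ρ t * Kr r (x - t)
  by_cases ht : t ∈ closedBall x r
  · rw [trunc_eq h t ht]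
  · rw [mem_closedBall, dist_comm, dist_eq_norm, not_le] at ht
    rw [Kr_zero hr ht.le, mul_zero, mul_zero]

theorem ball_sub {x : En n} {R ρ : ℝ} (h : ‖x‖ + ρ < R) : closedBall x ρ ⊆ ball 0 R := by
  intro t ht
  rw [mem_closedBall, dist_eq_norm] at ht
  rw [mem_ball_zero_iff]
  have : ‖t‖ ≤ ‖t - x‖ + ‖x‖ := by
    calc ‖t‖ = ‖(t - x) + x‖ := by rw [sub_add_cancel]
      _ ≤ _ := norm_add_le _ _
  linarith

theorem FF_const {g : En n → ℝ} {R : ℝ} (hg : LocallyIntegrableOn g (ball 0 R))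
    (hw : ∀ ψ : En n → ℝ, ContDiff ℝ ∞ ψ → HasCompactSupport ψ → tsupport ψ ⊆ ball 0 R →
      ∫ x, g x * lap ψ x = 0) {x : En n} {r₁ r₂ : ℝ} (h₁ : 0 < r₁) (h₂ : 0 < r₂)
    (h₁' : ‖x‖ + r₁ < R) (h₂' : ‖x‖ + r₂ < R) : FF g r₁ x = FF g r₂ x := by
  obtain ⟨ρ, hρ1, hρ2⟩ : ∃ ρ, max r₁ r₂ < ρ ∧ ρ < R - ‖x‖ :=
    exists_between (max_lt (by linarith) (by linarith))
  have hr1 : r₁ < ρ := (le_max_left _ _).trans_lt hρ1
  have hr2 : r₂ < ρ := (le_max_right _ _).trans_lt hρ1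
  rw [FF_eq h₁ (ρ := ‖x‖ + ρ) (by linarith), FF_eq h₂ (ρ := ‖x‖ + ρ) (by linarith)]
  exact cv_const hw (trunc_loc hg (by linarith)) (ball_sub (by linarith)) (trunc_eq le_rfl)
    ⟨h₁, hr1⟩ ⟨h₂, hr2⟩

/-- The candidate. -/
noncomputable def GG (g : En n → ℝ) (R : ℝ) (x : En n) : ℝ := FF g ((R - ‖x‖) / 2) x

theorem GG_eventually {g : En n → ℝ} {R : ℝ} (hg : LocallyIntegrableOn g (ball 0 R))
    (hw : ∀ ψ : En n → ℝ, ContDiff ℝ ∞ ψ → HasCompactSupport ψ → tsupport ψ ⊆ ball 0 R →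
      ∫ x, g x * lap ψ x = 0) {x : En n} (hx : x ∈ ball 0 R) :
    GG g R =ᶠ[𝓝 x] cv (trunc g (R - (R - ‖x‖) / 4)) (Kr ((R - ‖x‖) / 4)) := by
  rw [mem_ball_zero_iff] at hx
  have h1 : {y : En n | ‖y‖ < R - 2 * ((R - ‖x‖) / 4)} ∈ 𝓝 x :=
    (isOpen_lt continuous_norm continuous_const).mem_nhds (by
      show ‖x‖ < _
      linarith)
  filter_upwards [h1] with y hy
  have hy' : ‖y‖ < R - 2 * ((R - ‖x‖) / 4) := hy
  unfold GG
  rw [FF_const hg hw (r₂ := (R - ‖x‖) / 4) (by linarith) (by linarith) (by linarith)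
    (by linarith)]
  exact FF_eq (by linarith) (by linarith)

theorem core {g : En n → ℝ} {R : ℝ} (hg : LocallyIntegrableOn g (ball 0 R))
    (hw : ∀ ψ : En n → ℝ, ContDiff ℝ ∞ ψ → HasCompactSupport ψ → tsupport ψ ⊆ ball 0 R →
      ∫ x, g x * lap ψ x = 0) :
    ContDiffOn ℝ ∞ (GG g R) (ball 0 R) ∧ (∀ x ∈ ball 0 R, lap (GG g R) x = 0) ∧
    ∀ᵐ x ∂(volume.restrict (ball (0 : En n) R)), GG g R x = mass n * g x := by
  refine ⟨?_, ?_, ?_⟩
  · intro x hx
    have hx' : ‖x‖ < R := mem_ball_zero_iff.1 hx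
    have h1 := GG_eventually hg hw hx
    have h2 : ContDiff ℝ ∞ (cv (trunc g (R - (R - ‖x‖) / 4)) (Kr ((R - ‖x‖) / 4))) :=
      cv_contDiff (trunc_loc hg (by linarith)) (Kr_contDiff _) (Kr_supp (by linarith))
    exact (h2.contDiffAt.congr_of_eventuallyEq h1).contDiffWithinAt
  · intro x hx
    have hx' : ‖x‖ < R := mem_ball_zero_iff.1 hx
    have h1 := GG_eventually hg hw hx
    have h2 : lap (GG g R) x = lap (cv (trunc g (R - (R - ‖x‖) / 4)) (Kr ((R - ‖x‖) / 4))) x := by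
      unfold lap D2
      rw [h1.fderiv.fderiv_eq]
    rw [h2, cv_lap (trunc_loc hg (by linarith)) (Kr_contDiff _) (Kr_supp (by linarith))]
    exact weak_conv hw (Kr_contDiff _) (fun z hz => Kr_zero (by linarith) hz)
      (ball_sub (by linarith)) (trunc_eq (by linarith))
  · rw [ae_restrict_iff' measurableSet_ball]
    have h1 : ∀ m : ℕ, ∀ᵐ x : En n, Tendsto
        (fun r => cv (trunc g (R - 1 / ((m : ℝ) + 1))) (Kr r) x) (𝓝[>] 0)
        (𝓝 (mass n * trunc g (R - 1 / ((m : ℝ) + 1)) x)) := by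
      intro m
      have : 0 < 1 / ((m : ℝ) + 1) := by positivity
      exact cv_tendsto (trunc_loc hg (by linarith))
    filter_upwards [ae_all_iff.2 h1] with x hx hxR
    have hx' : ‖x‖ < R := mem_ball_zero_iff.1 hxR
    obtain ⟨m, hm⟩ := exists_nat_one_div_lt (sub_pos.2 hx')
    have h2 := hx m
    have h3 : trunc g (R - 1 / ((m : ℝ) + 1)) x = g x :=
      trunc_eq (r := 0) (by linarith) x (mem_closedBall_self le_rfl)
    rw [h3] at h2
    have h4 : (fun r => cv (trunc g (R - 1 / ((m : ℝ) + 1))) (Kr r) x) =ᶠ[𝓝[>] 0]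
        fun _ => GG g R x := by
      have h5 : Ioo 0 (R - 1 / ((m : ℝ) + 1) - ‖x‖) ∈ 𝓝[>] (0 : ℝ) :=
        Ioo_mem_nhdsGT (by linarith)
      filter_upwards [h5] with r hr
      have h6 : 0 < 1 / ((m : ℝ) + 1) := by positivity
      rw [← FF_eq hr.1 (by linarith [hr.2])]
      unfold GG
      exact FF_const hg hw hr.1 (by linarith) (by linarith [hr.2]) (by linarith)
    exact tendsto_nhds_unique (tendsto_const_nhds.congr' h4.symm) h2

end WEYLx

/-- Weyl's lemma. -/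
theorem WEYL : StmtWEYL := by
  intro n g R _ hg hw
  have hm := WEYLx.mass_pos n
  have hg1 : LocallyIntegrableOn (fun x => (WEYLx.mass n)⁻¹ * g x) (ball 0 R) := by
    intro x hx
    obtain ⟨t, ht, hi⟩ := hg x hx
    exact ⟨t, ht, hi.const_mul _⟩
  have hw1 : ∀ ψ : En n → ℝ, ContDiff ℝ ∞ ψ → HasCompactSupport ψ → tsupport ψ ⊆ ball 0 R →
      ∫ x, (WEYLx.mass n)⁻¹ * g x * lap ψ x = 0 := by
    intro ψ h1 h2 h3
    simp_rw [mul_assoc]
    rw [integral_const_mul, hw ψ h1 h2 h3, mul_zero]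
  obtain ⟨h1, h2, h3⟩ := WEYLx.core hg1 hw1
  refine ⟨_, h1, h2, ?_⟩
  filter_upwards [h3] with x hx
  rw [hx, ← mul_assoc, mul_inv_cancel₀ hm.ne', one_mul]

end EAGrad

end
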