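import Pool.Agent.Work.MP_ea6116_an.Bd.B04
import Pool.Agent.Work.MP_ea6116_an.Bd.B01

/-! Bundle of small proof modules (one section per former module). -/

section

/-!
MP_ea6116_an, item KEYW, part 1: derivatives of the anisotropic weight.
-/

set_option autoImplicit false

open MeasureTheory Metric Set Filter Topology
open scoped ENNReal NNReal ContDiff

namespace EAGrad

variable {n : ℕ}

/-- The perturbation. -/
noncomputable def kw (β q sb h₁ : ℝ) (m e x : En n) : ℝ :=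
  inner ℝ x m / ‖x‖ + β * inner ℝ x e ^ 2 / ‖x‖ ^ 2 + q * (Real.log ‖x‖ - sb) ^ 2 - h₁

/-- The weight. -/
noncomputable def phw (ε β q sb h₁ : ℝ) (m e x : En n) : ℝ :=
  -Real.log ‖x‖ - ε * kw β q sb h₁ m e x

theorem KEYW_hasDerivAt_norm (x ξ : En n) {t : ℝ} (ht : x + t • ξ ≠ 0) :
    HasDerivAt (fun t : ℝ => ‖x + t • ξ‖) ((inner ℝ x ξ + t * ‖ξ‖ ^ 2) / ‖x + t • ξ‖) t := by
  have h1 : HasDerivAt (fun t : ℝ => x + t • ξ) ξ t := by
    simpa using ((hasDerivAt_id t).smul_const ξ).const_add x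
  have h2 : HasDerivAt (fun t : ℝ => ‖x + t • ξ‖ ^ 2) (2 * inner ℝ (x + t • ξ) ξ) t := by
    simpa using h1.norm_sq
  have h3 := h2.sqrt (by positivity)
  have h4 : (fun t : ℝ => √(‖x + t • ξ‖ ^ 2)) = fun t : ℝ => ‖x + t • ξ‖ := by
    funext t
    exact Real.sqrt_sq (norm_nonneg _)
  rw [h4, Real.sqrt_sq (norm_nonneg _)] at h3
  convert h3 using 1
  rw [inner_add_left, real_inner_smul_left, real_inner_self_eq_norm_sq]
  have : ‖x + t • ξ‖ ≠ 0 := norm_ne_zero_iff.2 ht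
  field_simp

theorem KEYW_hasDerivAt_inner (x ξ m : En n) (t : ℝ) :
    HasDerivAt (fun t : ℝ => inner ℝ (x + t • ξ) m) (inner ℝ ξ m) t := by
  have h1 : (fun t : ℝ => inner ℝ (x + t • ξ) m) = fun t => inner ℝ x m + t * inner ℝ ξ m := by
    funext t
    rw [inner_add_left, real_inner_smul_left]
  rw [h1]
  simpa using ((hasDerivAt_id t).mul_const (inner ℝ ξ m)).const_add (inner ℝ x m)

theorem KEYW_contDiffAt (ε β q sb h₁ : ℝ) (m e : En n) {x : En n} (hx : x ≠ 0) {k : WithTop ℕ∞} :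
    ContDiffAt ℝ k (phw ε β q sb h₁ m e) x := by
  have h1 : ContDiffAt ℝ k (fun x : En n => ‖x‖) x := contDiffAt_norm ℝ hx
  have h0 : ‖x‖ ≠ 0 := norm_ne_zero_iff.2 hx
  have h2 : ContDiffAt ℝ k (fun x : En n => Real.log ‖x‖) x := h1.log h0
  have h3 : ContDiffAt ℝ k (fun x : En n => inner ℝ x m) x :=
    contDiffAt_id.inner ℝ contDiffAt_const
  have h4 : ContDiffAt ℝ k (fun x : En n => inner ℝ x e) x :=
    contDiffAt_id.inner ℝ contDiffAt_const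
  unfold phw kw
  exact h2.neg.sub (contDiffAt_const.mul ((((h3.div h1 h0).add ((contDiffAt_const.mul (h4.pow 2)).div
    (h1.pow 2) (by positivity))).add (contDiffAt_const.mul ((h2.sub contDiffAt_const).pow 2))).sub
    contDiffAt_const))

/-- The derivatives of the weight. -/
theorem KEYW_formula (ε β q sb h₁ : ℝ) (m e x ξ : En n) (hx : x ≠ 0) :
    fderiv ℝ (phw ε β q sb h₁ m e) x ξ =
      -(inner ℝ x ξ / ‖x‖ ^ 2) - ε * (inner ℝ ξ m / ‖x‖ - inner ℝ x m * inner ℝ x ξ / ‖x‖ ^ 3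
        + β * (2 * inner ℝ x e * inner ℝ ξ e / ‖x‖ ^ 2
          - 2 * inner ℝ x e ^ 2 * inner ℝ x ξ / ‖x‖ ^ 4)
        + 2 * q * (Real.log ‖x‖ - sb) * inner ℝ x ξ / ‖x‖ ^ 2) ∧
    D2 (phw ε β q sb h₁ m e) x ξ ξ =
      -(‖ξ‖ ^ 2 / ‖x‖ ^ 2 - 2 * inner ℝ x ξ ^ 2 / ‖x‖ ^ 4)
      - ε * (inner ℝ x m * (3 * inner ℝ x ξ ^ 2 / ‖x‖ ^ 5 - ‖ξ‖ ^ 2 / ‖x‖ ^ 3)
          - 2 * inner ℝ ξ m * inner ℝ x ξ / ‖x‖ ^ 3
        + β * (inner ℝ x e ^ 2 * (8 * inner ℝ x ξ ^ 2 / ‖x‖ ^ 6 - 2 * ‖ξ‖ ^ 2 / ‖x‖ ^ 4)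
          - 8 * inner ℝ x e * inner ℝ ξ e * inner ℝ x ξ / ‖x‖ ^ 4
          + 2 * inner ℝ ξ e ^ 2 / ‖x‖ ^ 2)
        + q * (2 * inner ℝ x ξ ^ 2 / ‖x‖ ^ 4
          + 2 * (Real.log ‖x‖ - sb) * (‖ξ‖ ^ 2 / ‖x‖ ^ 2 - 2 * inner ℝ x ξ ^ 2 / ‖x‖ ^ 4))) := by
  set R : ℝ → ℝ := fun t => ‖x + t • ξ‖ with hRdef
  set A : ℝ → ℝ := fun t => inner ℝ (x + t • ξ) m with hAdef
  set G : ℝ → ℝ := fun t => inner ℝ (x + t • ξ) e with hGdef
  set Q : ℝ → ℝ := fun t => inner ℝ x ξ + t * ‖ξ‖ ^ 2 with hQdef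
  have hR0 : R 0 = ‖x‖ := by simp [hRdef]
  have hA0 : A 0 = inner ℝ x m := by simp [hAdef]
  have hG0 : G 0 = inner ℝ x e := by simp [hGdef]
  have hQ0 : Q 0 = inner ℝ x ξ := by simp [hQdef]
  have hne : ∀ᶠ t in 𝓝 (0 : ℝ), x + t • ξ ≠ 0 := by
    have : Continuous (fun t : ℝ => x + t • ξ) := by fun_prop
    exact this.continuousAt.eventually_ne (by simpa using hx)
  have hRd : ∀ t : ℝ, x + t • ξ ≠ 0 → HasDerivAt R (Q t / R t) t := fun t ht =>
    KEYW_hasDerivAt_norm x ξ ht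
  have hAd : ∀ t : ℝ, HasDerivAt A (inner ℝ ξ m) t := fun t => KEYW_hasDerivAt_inner x ξ m t
  have hGd : ∀ t : ℝ, HasDerivAt G (inner ℝ ξ e) t := fun t => KEYW_hasDerivAt_inner x ξ e t
  have hQd : ∀ t : ℝ, HasDerivAt Q (‖ξ‖ ^ 2) t := fun t => by
    simpa [hQdef] using ((hasDerivAt_id t).mul_const (‖ξ‖ ^ 2)).const_add (inner ℝ x ξ)
  let F1 : ℝ → ℝ := fun t => -(Q t / R t ^ 2) - ε * (inner ℝ ξ m / R t - A t * Q t / R t ^ 3
        + β * (2 * G t * inner ℝ ξ e / R t ^ 2 - 2 * G t ^ 2 * Q t / R t ^ 4)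
        + 2 * q * (Real.log (R t) - sb) * Q t / R t ^ 2)
  have key := KEYW_line (φ := phw ε β q sb h₁ m e) (x := x) (ξ := ξ) (F1 := F1)
    (F2 := -(‖ξ‖ ^ 2 / ‖x‖ ^ 2 - 2 * inner ℝ x ξ ^ 2 / ‖x‖ ^ 4)
      - ε * (inner ℝ x m * (3 * inner ℝ x ξ ^ 2 / ‖x‖ ^ 5 - ‖ξ‖ ^ 2 / ‖x‖ ^ 3)
          - 2 * inner ℝ ξ m * inner ℝ x ξ / ‖x‖ ^ 3
        + β * (inner ℝ x e ^ 2 * (8 * inner ℝ x ξ ^ 2 / ‖x‖ ^ 6 - 2 * ‖ξ‖ ^ 2 / ‖x‖ ^ 4)
          - 8 * inner ℝ x e * inner ℝ ξ e * inner ℝ x ξ / ‖x‖ ^ 4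
          + 2 * inner ℝ ξ e ^ 2 / ‖x‖ ^ 2)
        + q * (2 * inner ℝ x ξ ^ 2 / ‖x‖ ^ 4
          + 2 * (Real.log ‖x‖ - sb) * (‖ξ‖ ^ 2 / ‖x‖ ^ 2 - 2 * inner ℝ x ξ ^ 2 / ‖x‖ ^ 4))))
    (KEYW_contDiffAt ε β q sb h₁ m e hx) ?_ ?_
  · refine ⟨?_, key.2⟩
    rw [key.1]
    simp only [F1, hR0, hA0, hG0, hQ0]
  · filter_upwards [hne] with t ht
    have hR : R t ≠ 0 := norm_ne_zero_iff.2 ht
    have h1 : HasDerivAt (fun t => -Real.log (R t) - ε * (A t / R t + β * G t ^ 2 / R t ^ 2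
        + q * (Real.log (R t) - sb) ^ 2 - h₁)) _ t :=
      ((hRd t ht).log hR).neg.sub ((((((hAd t).div (hRd t ht) hR).add
        ((((hGd t).pow 2).const_mul β).div ((hRd t ht).pow 2) (pow_ne_zero _ hR))).add
        (((((hRd t ht).log hR).sub_const sb).pow 2).const_mul q)).sub_const h₁).const_mul ε)
    refine HasDerivAt.congr_deriv (f := fun t : ℝ => phw ε β q sb h₁ m e (x + t • ξ)) h1 ?_
    simp only [F1, Pi.pow_apply]
    field_simp
    ring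
  · have hx0 : x + (0 : ℝ) • ξ ≠ 0 := by simpa using hx
    have hR : R 0 ≠ 0 := norm_ne_zero_iff.2 hx0
    have hRd0 := hRd 0 hx0
    have h1 : HasDerivAt F1 _ 0 :=
      (((hQd 0).div (hRd0.pow 2) (pow_ne_zero _ hR)).neg).sub
        ((((((hasDerivAt_const (0 : ℝ) (inner ℝ ξ m)).div hRd0 hR).sub
          (((hAd 0).mul (hQd 0)).div (hRd0.pow 3) (pow_ne_zero _ hR))).add
          ((((((hGd 0).const_mul 2).mul_const (inner ℝ ξ e)).div (hRd0.pow 2) (pow_ne_zero _ hR)).sub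
            (((((hGd 0).pow 2).const_mul 2).mul (hQd 0)).div (hRd0.pow 4)
              (pow_ne_zero _ hR))).const_mul β)).add
          ((((hRd0.log hR).sub_const sb).const_mul (2 * q)).mul (hQd 0) |>.div
            (hRd0.pow 2) (pow_ne_zero _ hR))).const_mul ε)
    refine h1.congr_deriv ?_
    rw [hR0] at hR
    simp only [Pi.pow_apply, Pi.mul_apply, hR0, hA0, hG0, hQ0]
    field_simp
    ring

end EAGrad

end

section

/-!
MP_ea6116_an, item SC: scaling and translation.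
-/

set_option autoImplicit false

open MeasureTheory Metric Set Filter Topology
open scoped ENNReal NNReal ContDiff

namespace EAGrad

variable {n : ℕ}

/-- The dilation as a continuous linear equivalence. -/
noncomputable def SCT (n : ℕ) (l : ℝ) (hl : l ≠ 0) : En n ≃L[ℝ] En n :=
  (LinearEquiv.smulOfNeZero ℝ (En n) l hl).toContinuousLinearEquiv

theorem SCT_apply (l : ℝ) (hl : l ≠ 0) (z : En n) : SCT n l hl z = l • z := rfl

theorem SCT_adjoint (l : ℝ) (hl : l ≠ 0) (z : En n) :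
    ContinuousLinearMap.adjoint (SCT n l hl : Op n) z = l • z := by
  refine ext_inner_right ℝ fun v => ?_
  rw [ContinuousLinearMap.adjoint_inner_left, real_inner_smul_left]
  change inner ℝ z (l • v) = _
  rw [real_inner_smul_right]

theorem SCT_symm_adjoint (l : ℝ) (hl : l ≠ 0) (z : En n) :
    ContinuousLinearMap.adjoint ((SCT n l hl).symm : Op n) z = l⁻¹ • z := by
  refine ext_inner_right ℝ fun v => ?_
  rw [ContinuousLinearMap.adjoint_inner_left, real_inner_smul_left]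
  have h : (SCT n l hl).symm v = l⁻¹ • v := by
    rw [ContinuousLinearEquiv.symm_apply_eq, SCT_apply, smul_smul, mul_inv_cancel₀ hl, one_smul]
  change inner ℝ z ((SCT n l hl).symm v) = _
  rw [h, real_inner_smul_right]

/-- Gradient of a constant multiple (no differentiability needed). -/
theorem SC_gradient_smul (u : En n → ℝ) (c : ℝ) (hc : c ≠ 0) (z : En n) :
    gradient (fun z => c * u z) z = c • gradient u z := by
  refine ext_inner_right ℝ fun v => ?_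
  rw [inner_gradient, real_inner_smul_left, inner_gradient]
  have h : fderiv ℝ (fun z => c * u z) z = c • fderiv ℝ u z := by
    exact congrFun (fderiv_const_smul_field (f := u) c) z
  rw [h]
  simp

theorem SC_gradient (u : En n → ℝ) (x : En n) (l : ℝ) (hl : l ≠ 0) (z : En n) :
    gradient (fun z => l⁻¹ * u (x + l • z)) z = gradient u (x + l • z) := by
  rw [SC_gradient_smul (fun z => u (x + l • z)) l⁻¹ (inv_ne_zero hl) z]
  have h := LC_gradient u x (SCT n l hl) z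
  simp only [SCT_apply] at h
  rw [h, SCT_adjoint, smul_smul, inv_mul_cancel₀ hl, one_smul]

theorem SC_mem {x : En n} {R l : ℝ} (hl : 0 < l) {z : En n} (hz : z ∈ ball (0 : En n) R) :
    x + l • z ∈ ball x (R * l) := by
  rw [mem_ball_zero_iff] at hz
  rw [mem_ball_iff_norm, add_sub_cancel_left, norm_smul, Real.norm_of_nonneg hl.le, mul_comm]
  exact mul_lt_mul_of_pos_right hz hl

theorem SC_image_closedBall (x z : En n) (l r : ℝ) (hl : 0 < l) :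
    (fun y => x + l • y) '' closedBall z r = closedBall (x + l • z) (l * r) := by
  ext w
  constructor
  · rintro ⟨y, hy, rfl⟩
    rw [mem_closedBall, dist_eq_norm] at hy ⊢
    have : x + l • y - (x + l • z) = l • (y - z) := by rw [smul_sub]; abel
    rw [this, norm_smul, Real.norm_of_nonneg hl.le]
    exact mul_le_mul_of_nonneg_left hy hl.le
  · intro hw
    refine ⟨l⁻¹ • (w - x), ?_, ?_⟩
    · rw [mem_closedBall, dist_eq_norm] at hw ⊢
      have : l⁻¹ • (w - x) - z = l⁻¹ • (w - (x + l • z)) := by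
        rw [smul_sub, smul_sub, smul_add, smul_smul, inv_mul_cancel₀ hl.ne', one_smul]; abel
      rw [this, norm_smul, Real.norm_of_nonneg (inv_nonneg.2 hl.le), inv_mul_le_iff₀ hl]
      exact hw
    · simp only
      rw [smul_smul, mul_inv_cancel₀ hl.ne', one_smul]
      abel

theorem SC_Dg (u : En n → ℝ) (x : En n) (l : ℝ) (hl : 0 < l) (z : En n) (r : ℝ) :
    Dg (fun z => l⁻¹ * u (x + l • z)) z r = Dg u (x + l • z) (l * r) := by
  unfold Dg
  congr 1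
  rw [← SC_image_closedBall x z l r hl, image_image]
  refine image_congr fun y _ => ?_
  rw [SC_gradient u x l hl.ne' y]

/-- Item SC. -/
theorem SC : StmtSC := by
  intro n A u x R l s L hl h hN
  refine ⟨⟨isOpen_ball, ?_, ?_⟩, ⟨?_, ?_, ?_⟩, SC_gradient u x l hl.ne', SC_Dg u x l hl⟩
  · refine contDiffOn_const.mul (h.c1.comp
      (ContDiff.contDiffOn (contDiff_const.add (contDiff_id.const_smul l)))
      fun z hz => SC_mem hl hz)
  · intro φ h1 h2 h3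
    have h0 : ball (0 : En n) R ⊆ (fun z => x + SCT n l hl.ne' z) ⁻¹' ball x (R * l) := by
      intro z hz
      rw [mem_preimage, SCT_apply]
      exact SC_mem hl hz
    have h4 := LC_weak h x (SCT n l hl.ne') h1 h2 (h3.trans h0)
    have h5 : ∫ z, l⁻¹ * inner ℝ (A (x + l • z) (gradient u (x + l • z))) (gradient φ z) = 0 := by
      refine (integral_congr_ae (Eventually.of_forall fun z => ?_)).trans h4
      beta_reduce
      rw [SCT_apply, SCT_symm_adjoint, real_inner_smul_right]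
    rw [integral_const_mul] at h5
    have h6 := (mul_eq_zero.1 h5).resolve_left (inv_ne_zero hl.ne')
    refine (integral_congr_ae (Eventually.of_forall fun z => ?_)).trans h6
    beta_reduce
    rw [SC_gradient u x l hl.ne' z]
  · intro z hz
    exact hN.symm _ (SC_mem hl hz)
  · intro z hz
    exact hN.close _ (SC_mem hl hz)
  · intro z hz y hy
    refine (hN.lip _ (SC_mem hl hz) _ (SC_mem hl hy)).trans (le_of_eq ?_)
    have : x + l • z - (x + l • y) = l • (z - y) := by rw [smul_sub]; abel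
    rw [this, norm_smul, Real.norm_of_nonneg hl.le]
    ring

end EAGrad

end

section

/-!
MP_ea6116_an, item KEYW, part 2: pseudo-convexity of the anisotropic weight.
-/

set_option autoImplicit false

open MeasureTheory Metric Set Filter Topology
open scoped ENNReal NNReal ContDiff

namespace EAGrad

variable {n : ℕ}

/-- The function `g` of the weight. -/
noncomputable def gkw (ε β q sb : ℝ) (x : En n) : ℝ :=
  (1 + ε * (2 * q * (Real.log ‖x‖ - sb) - β / 2)) / ‖x‖ ^ 2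

theorem KEYW_alg1 {a b f t w mt σ β ε C M S1 : ℝ} (hβ : 0 < β) (hβ4 : β ≤ 1 / 4) (hε : 0 < ε)
    (hb : 0 ≤ b) (ht : t ^ 2 ≤ 1) (hw : w ^ 2 ≤ (1 - t ^ 2) * b ^ 2) (hmt : |mt| ≤ M * b)
    (hM : 0 ≤ M) (hσ : |σ| ≤ S1)
    (hf : β / 2 + 5 * β / 2 - 4 * β * t ^ 2 ≤ f)
    (hC : C = 4 * (β / 8) * S1 + β / 2 + 2 * (β / 8) + (4 / β) * (M + 2 * β) ^ 2)
    (hεC : ε * (C + β / 4) ≤ 2) :
    ε * (β / 4) * (a ^ 2 + b ^ 2) ≤ 2 * a ^ 2 + ε * (b ^ 2 * (f + 2 * β * t ^ 2 - β / 2)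
      - 2 * β * w ^ 2 + a ^ 2 * (4 * (β / 8) * σ - β / 2 - 2 * (β / 8)) + 2 * a * mt
      + 4 * β * t * a * w) := by
  have hwb : |w| ≤ b := by
    apply abs_le_of_sq_le_sq _ hb
    nlinarith [sq_nonneg t, sq_nonneg b]
  have htb : |t| ≤ 1 := by
    apply abs_le_of_sq_le_sq _ zero_le_one
    simpa using ht
  have h1 : -(2 * |a| * (M * b)) ≤ 2 * a * mt := by
    have : |2 * a * mt| ≤ 2 * |a| * (M * b) := by
      rw [abs_mul, abs_mul, abs_two]
      exact mul_le_mul_of_nonneg_left hmt (by positivity)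
    linarith [neg_abs_le (2 * a * mt)]
  have h2 : -(4 * β * |a| * b) ≤ 4 * β * t * a * w := by
    have : |4 * β * t * a * w| ≤ 4 * β * |a| * b := by
      rw [abs_mul, abs_mul, abs_mul, abs_of_pos (show (0 : ℝ) < 4 * β by positivity)]
      calc 4 * β * |t| * |a| * |w| ≤ 4 * β * 1 * |a| * b := by gcongr
        _ = _ := by ring
    linarith [neg_abs_le (4 * β * t * a * w)]
  have h3 : 2 * |a| * b * (M + 2 * β) ≤ (β / 4) * b ^ 2 + (4 / β) * (M + 2 * β) ^ 2 * a ^ 2 := by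
    have h4 : 0 ≤ (β / 4) * (b - (4 / β) * (M + 2 * β) * |a|) ^ 2 := by positivity
    have h5 : (β / 4) * (b - (4 / β) * (M + 2 * β) * |a|) ^ 2 =
        (β / 4) * b ^ 2 - 2 * |a| * b * (M + 2 * β) + (4 / β) * (M + 2 * β) ^ 2 * |a| ^ 2 := by
      field_simp
      ring
    rw [sq_abs] at h5
    linarith
  have h6 : -(a ^ 2 * (4 * (β / 8) * S1)) ≤ a ^ 2 * (4 * (β / 8) * σ) := by
    have : -S1 ≤ σ := by linarith [neg_abs_le σ]
    have h7 : 0 ≤ a ^ 2 * (4 * (β / 8)) * (σ + S1) := by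
      apply mul_nonneg (by positivity); linarith
    nlinarith
  have h8 : 2 * β * w ^ 2 ≤ 2 * β * ((1 - t ^ 2) * b ^ 2) := by
    apply mul_le_mul_of_nonneg_left hw (by positivity)
  have h9 : b ^ 2 * (β / 2) ≤ b ^ 2 * (f + 2 * β * t ^ 2 - β / 2) - 2 * β * ((1 - t ^ 2) * b ^ 2) := by
    have : b ^ 2 * (β / 2) ≤ b ^ 2 * (f + 4 * β * t ^ 2 - 5 * β / 2) := by
      apply mul_le_mul_of_nonneg_left _ (by positivity)
      linarith
    nlinarith
  have h10 : (β / 4) * b ^ 2 - C * a ^ 2 ≤ b ^ 2 * (f + 2 * β * t ^ 2 - β / 2)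
      - 2 * β * w ^ 2 + a ^ 2 * (4 * (β / 8) * σ - β / 2 - 2 * (β / 8)) + 2 * a * mt
      + 4 * β * t * a * w := by
    rw [hC]
    nlinarith
  have h11 : ε * ((β / 4) * b ^ 2 - C * a ^ 2) ≤ ε * (b ^ 2 * (f + 2 * β * t ^ 2 - β / 2)
      - 2 * β * w ^ 2 + a ^ 2 * (4 * (β / 8) * σ - β / 2 - 2 * (β / 8)) + 2 * a * mt
      + 4 * β * t * a * w) := mul_le_mul_of_nonneg_left h10 hε.le
  have h12 : ε * (C + β / 4) * a ^ 2 ≤ 2 * a ^ 2 := mul_le_mul_of_nonneg_right hεC (sq_nonneg a)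
  nlinarith

theorem KEYW_alg2 {a b f t w mt σ β ε C M S1 r : ℝ} (hβ : 0 < β) (hβ4 : β ≤ 1 / 4) (hε : 0 < ε)
    (hε1 : ε ≤ 1) (hr : 0 < r)
    (hb : 0 ≤ b) (ht : t ^ 2 ≤ 1) (hw : w ^ 2 ≤ (1 - t ^ 2) * b ^ 2) (hmt : |mt| ≤ M * b)
    (hM : 0 ≤ M) (hσ : |σ| ≤ S1) (hf : |f| ≤ M)
    (hC : C = M + 4 * (β / 8) * S1 + 2 * β + (8 / β) * (M + 2 * β) ^ 2)
    (hεC : (2 + C) * ε * (M + 2 * β) ^ 2 ≤ β / 64)
    (ha : 1 / (4 * r ^ 2) ≤ a ^ 2) (hbr : b ≤ ε * (M + 2 * β) / r) :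
    ε * β / (64 * r ^ 2) ≤ -2 * b ^ 2 - ε * (a ^ 2 * (2 * (β / 8) - β / 2)
      + b ^ 2 * (-f - 2 * β * t ^ 2 + 4 * (β / 8) * σ - β / 2) + 2 * β * w ^ 2 - 2 * a * mt
      - 4 * β * t * a * w) := by
  have hwb : |w| ≤ b := by
    apply abs_le_of_sq_le_sq _ hb
    nlinarith [sq_nonneg t, sq_nonneg b]
  have htb : |t| ≤ 1 := by
    apply abs_le_of_sq_le_sq _ zero_le_one
    simpa using ht
  have h1 : -(2 * |a| * (M * b)) ≤ 2 * a * mt := by
    have : |2 * a * mt| ≤ 2 * |a| * (M * b) := by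
      rw [abs_mul, abs_mul, abs_two]
      exact mul_le_mul_of_nonneg_left hmt (by positivity)
    linarith [neg_abs_le (2 * a * mt)]
  have h2 : -(4 * β * |a| * b) ≤ 4 * β * t * a * w := by
    have : |4 * β * t * a * w| ≤ 4 * β * |a| * b := by
      rw [abs_mul, abs_mul, abs_mul, abs_of_pos (show (0 : ℝ) < 4 * β by positivity)]
      calc 4 * β * |t| * |a| * |w| ≤ 4 * β * 1 * |a| * b := by gcongr
        _ = _ := by ring
    linarith [neg_abs_le (4 * β * t * a * w)]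
  have h3 : 2 * |a| * b * (M + 2 * β) ≤ (β / 8) * a ^ 2 + (8 / β) * (M + 2 * β) ^ 2 * b ^ 2 := by
    have h4 : 0 ≤ (β / 8) * (|a| - (8 / β) * (M + 2 * β) * b) ^ 2 := by positivity
    have h5 : (β / 8) * (|a| - (8 / β) * (M + 2 * β) * b) ^ 2 =
        (β / 8) * |a| ^ 2 - 2 * |a| * b * (M + 2 * β) + (8 / β) * (M + 2 * β) ^ 2 * b ^ 2 := by
      field_simp
      ring
    rw [sq_abs] at h5
    linarith
  have h6 : b ^ 2 * (4 * (β / 8) * σ) ≤ b ^ 2 * (4 * (β / 8) * S1) := by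
    have : σ ≤ S1 := le_trans (le_abs_self σ) hσ
    gcongr
  have h6' : b ^ 2 * (-f) ≤ b ^ 2 * M := by
    have : -f ≤ M := le_trans (neg_le_abs f) hf
    gcongr
  have h8 : 2 * β * w ^ 2 ≤ 2 * β * b ^ 2 := by
    apply mul_le_mul_of_nonneg_left _ (by positivity)
    nlinarith [sq_nonneg t, sq_nonneg b]
  have h10 : a ^ 2 * (2 * (β / 8) - β / 2)
      + b ^ 2 * (-f - 2 * β * t ^ 2 + 4 * (β / 8) * σ - β / 2) + 2 * β * w ^ 2 - 2 * a * mt
      - 4 * β * t * a * w ≤ -(β / 8) * a ^ 2 + C * b ^ 2 := by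
    rw [hC]
    have h9 : 0 ≤ b ^ 2 * (2 * β * t ^ 2) := by positivity
    have h9' : 0 ≤ b ^ 2 * (β / 2) := by positivity
    nlinarith
  have h11 := mul_le_mul_of_nonneg_left h10 hε.le
  have hMβ : 0 ≤ M + 2 * β := by positivity
  have h12 : b ^ 2 ≤ (ε * (M + 2 * β) / r) ^ 2 := pow_le_pow_left₀ hb hbr 2
  have hC0 : 0 ≤ C := by
    rw [hC]
    have : 0 ≤ S1 := le_trans (abs_nonneg _) hσ
    positivity
  have h13 : (2 + ε * C) * b ^ 2 ≤ ε * (β / 64) / r ^ 2 := by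
    calc (2 + ε * C) * b ^ 2 ≤ (2 + C) * (ε * (M + 2 * β) / r) ^ 2 := by
          apply mul_le_mul _ h12 (by positivity) (by positivity)
          nlinarith
      _ = ε * ((2 + C) * ε * (M + 2 * β) ^ 2) / r ^ 2 := by
          field_simp
      _ ≤ ε * (β / 64) / r ^ 2 := by gcongr
  have h14 : ε * (β / 8) * (1 / (4 * r ^ 2)) ≤ ε * (β / 8) * a ^ 2 := by gcongr
  have h15 : ε * (β / 8) * (1 / (4 * r ^ 2)) - ε * (β / 64) / r ^ 2 = ε * β / (64 * r ^ 2) := by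
    field_simp
    ring
  nlinarith

/-- Data of a point and a direction. -/
theorem KEYW_decomp {x ξ m e : En n} (hx : x ≠ 0) (he : ‖e‖ = 1) {M : ℝ} (hm : ‖m‖ ≤ M) :
    ∃ b : ℝ, 0 ≤ b ∧ ‖ξ‖ ^ 2 = (inner ℝ x ξ / ‖x‖) ^ 2 + b ^ 2 ∧
      (inner ℝ x e / ‖x‖) ^ 2 ≤ 1 ∧
      (inner ℝ ξ e - inner ℝ x ξ / ‖x‖ * (inner ℝ x e / ‖x‖)) ^ 2 ≤
        (1 - (inner ℝ x e / ‖x‖) ^ 2) * b ^ 2 ∧
      |inner ℝ ξ m - inner ℝ x ξ / ‖x‖ * (inner ℝ x m / ‖x‖)| ≤ M * b ∧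
      |inner ℝ x m / ‖x‖| ≤ M := by
  have hr : 0 < ‖x‖ := norm_pos_iff.2 hx
  have hr' : ‖x‖ ≠ 0 := hr.ne'
  set θ : En n := ‖x‖⁻¹ • x with hθ
  have hθn : ‖θ‖ = 1 := by
    rw [hθ, norm_smul, norm_inv, norm_norm, inv_mul_cancel₀ hr']
  have hxθ : x = ‖x‖ • θ := by rw [hθ, smul_smul, mul_inv_cancel₀ hr', one_smul]
  have h1 : ∀ v : En n, inner ℝ x v / ‖x‖ = inner ℝ θ v := by
    intro v
    rw [hθ, real_inner_smul_left]
    field_simp
  have h2 : ∀ v w : En n, inner ℝ v w - inner ℝ θ v * inner ℝ θ w =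
      inner ℝ (v - inner ℝ θ v • θ) (w - inner ℝ θ w • θ) := by
    intro v w
    have h3 : inner ℝ θ θ = (1 : ℝ) := by rw [real_inner_self_eq_norm_sq, hθn]; norm_num
    simp only [inner_sub_left, inner_sub_right, real_inner_smul_left, real_inner_smul_right, h3]
    rw [real_inner_comm θ v]
    ring
  have h4 : ∀ v : En n, ‖v - inner ℝ θ v • θ‖ ^ 2 = ‖v‖ ^ 2 - inner ℝ θ v ^ 2 := by
    intro v
    have := h2 v v
    rw [real_inner_self_eq_norm_sq, real_inner_self_eq_norm_sq] at this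
    linarith [this]
  refine ⟨‖ξ - inner ℝ θ ξ • θ‖, norm_nonneg _, ?_, ?_, ?_, ?_, ?_⟩
  · rw [h1, h4]; ring
  · rw [h1]
    have := abs_real_inner_le_norm θ e
    rw [hθn, he] at this
    have h5 : inner ℝ θ e ^ 2 = |inner ℝ θ e| ^ 2 := (sq_abs _).symm
    rw [h5]
    nlinarith [abs_nonneg (inner ℝ θ e)]
  · rw [h1, h1, h2 ξ e]
    have h5 := abs_real_inner_le_norm (ξ - inner ℝ θ ξ • θ) (e - inner ℝ θ e • θ)
    have h6 : inner ℝ (ξ - inner ℝ θ ξ • θ) (e - inner ℝ θ e • θ) ^ 2 ≤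
        (‖ξ - inner ℝ θ ξ • θ‖ * ‖e - inner ℝ θ e • θ‖) ^ 2 := by
      rw [← sq_abs (inner ℝ (ξ - inner ℝ θ ξ • θ) (e - inner ℝ θ e • θ))]
      exact pow_le_pow_left₀ (abs_nonneg _) h5 2
    rw [mul_pow, h4 e, he] at h6
    linarith
  · rw [h1, h1, h2 ξ m]
    have h5 := abs_real_inner_le_norm (ξ - inner ℝ θ ξ • θ) (m - inner ℝ θ m • θ)
    have h6 : ‖m - inner ℝ θ m • θ‖ ≤ M := by
      refine le_trans ?_ hm
      apply le_of_sq_le_sq _ (norm_nonneg _)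
      rw [h4]
      nlinarith [sq_nonneg (inner ℝ θ m)]
    calc _ ≤ _ := h5
      _ ≤ ‖ξ - inner ℝ θ ξ • θ‖ * M := by gcongr
      _ = _ := by ring
  · rw [h1]
    have := abs_real_inner_le_norm θ m
    rw [hθn, one_mul] at this
    exact this.trans hm

/-- First pseudo-convexity condition. -/
theorem KEYW_h1 {x ξ m e : En n} (hx : x ≠ 0) (he : ‖e‖ = 1) {M β ε sb h₁ S1 C : ℝ}
    (hm : ‖m‖ ≤ M) (hβ : 0 < β) (hβ4 : β ≤ 1 / 4) (hε : 0 < ε)
    (hσ : |Real.log ‖x‖ - sb| ≤ S1)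
    (hf : 3 * β - 4 * β * (inner ℝ x e / ‖x‖) ^ 2 ≤ inner ℝ x m / ‖x‖)
    (hC : C = 4 * (β / 8) * S1 + β / 2 + 2 * (β / 8) + (4 / β) * (M + 2 * β) ^ 2)
    (hεC : ε * (C + β / 4) ≤ 2) :
    ε * (β / 4) / ‖x‖ ^ 2 * ‖ξ‖ ^ 2 ≤
      D2 (phw ε β (β / 8) sb h₁ m e) x ξ ξ + gkw ε β (β / 8) sb x * ‖ξ‖ ^ 2 := by
  have hr : 0 < ‖x‖ := norm_pos_iff.2 hx
  obtain ⟨b, hb, h1, h2, h3, h4, h5⟩ := KEYW_decomp (ξ := ξ) hx he hm
  have h6 := KEYW_alg1 (a := inner ℝ x ξ / ‖x‖) (f := inner ℝ x m / ‖x‖) hβ hβ4 hε hb h2 h3 h4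
    ((norm_nonneg m).trans hm) hσ (by linarith) hC hεC
  rw [(KEYW_formula ε β (β / 8) sb h₁ m e x ξ hx).2]
  unfold gkw
  have h7 : ε * (β / 4) / ‖x‖ ^ 2 * ‖ξ‖ ^ 2 =
      (ε * (β / 4) * ((inner ℝ x ξ / ‖x‖) ^ 2 + b ^ 2)) / ‖x‖ ^ 2 := by
    rw [← h1]; ring
  rw [h7]
  refine le_trans (div_le_div_of_nonneg_right h6 (by positivity)) (le_of_eq ?_)
  have h8 : b ^ 2 = ‖ξ‖ ^ 2 - (inner ℝ x ξ / ‖x‖) ^ 2 := by linarith
  rw [h8]
  field_simp
  ring

/-- Second pseudo-convexity condition. -/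
theorem KEYW_h2 {x m e : En n} (hx : x ≠ 0) (he : ‖e‖ = 1) {M β ε sb h₁ S1 C : ℝ}
    (hm : ‖m‖ ≤ M) (hβ : 0 < β) (hβ4 : β ≤ 1 / 4) (hε : 0 < ε) (hε1 : ε ≤ 1)
    (hσ : |Real.log ‖x‖ - sb| ≤ S1) (hεS : ε * (β / 4) * S1 ≤ 1 / 2)
    (hC : C = M + 4 * (β / 8) * S1 + 2 * β + (8 / β) * (M + 2 * β) ^ 2)
    (hεC : (2 + C) * ε * (M + 2 * β) ^ 2 ≤ β / 64) :
    ε * β / (64 * ‖x‖ ^ 4) ≤
      D2 (phw ε β (β / 8) sb h₁ m e) x (gradient (phw ε β (β / 8) sb h₁ m e) x)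
        (gradient (phw ε β (β / 8) sb h₁ m e) x) -
      gkw ε β (β / 8) sb x * ‖gradient (phw ε β (β / 8) sb h₁ m e) x‖ ^ 2 := by
  have hr : 0 < ‖x‖ := norm_pos_iff.2 hx
  set φ := phw ε β (β / 8) sb h₁ m e with hφ
  set ξ : En n := gradient φ x with hξ
  have hin : ∀ v : En n, inner ℝ ξ v = fderiv ℝ φ x v := fun v => inner_gradient φ x v
  obtain ⟨b, hb, h1, h2, h3, h4, h5⟩ := KEYW_decomp (ξ := ξ) hx he hm
  -- radial component
  have ha : inner ℝ x ξ = -(1 + 2 * ε * (β / 8) * (Real.log ‖x‖ - sb)) := by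
    rw [real_inner_comm, hin, hφ, (KEYW_formula ε β (β / 8) sb h₁ m e x x hx).1,
      real_inner_self_eq_norm_sq]
    field_simp
    ring
  have hσ' : |2 * ε * (β / 8) * (Real.log ‖x‖ - sb)| ≤ 1 / 2 := by
    rw [abs_mul, abs_of_pos (show 0 < 2 * ε * (β / 8) by positivity)]
    calc 2 * ε * (β / 8) * |Real.log ‖x‖ - sb| ≤ 2 * ε * (β / 8) * S1 := by gcongr
      _ = ε * (β / 4) * S1 := by ring
      _ ≤ 1 / 2 := hεS
  have ha2 : 1 / (4 * ‖x‖ ^ 2) ≤ (inner ℝ x ξ / ‖x‖) ^ 2 := by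
    rw [ha, div_pow, div_le_div_iff₀ (by positivity) (by positivity)]
    have := abs_le.1 hσ'
    have h9 : 1 / 4 ≤ (1 + 2 * ε * (β / 8) * (Real.log ‖x‖ - sb)) ^ 2 := by nlinarith
    nlinarith [sq_nonneg ‖x‖]
  -- tangential component
  have hb2 : b ≤ ε * (M + 2 * β) / ‖x‖ := by
    set η : En n := ξ - (inner ℝ x ξ / ‖x‖ ^ 2) • x with hη
    have hxη : inner ℝ x η = 0 := by
      rw [hη, inner_sub_right, real_inner_smul_right, real_inner_self_eq_norm_sq]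
      field_simp
      ring
    have hηn : ‖η‖ ^ 2 = b ^ 2 := by
      have : ‖η‖ ^ 2 = ‖ξ‖ ^ 2 - (inner ℝ x ξ / ‖x‖) ^ 2 := by
        rw [← real_inner_self_eq_norm_sq η]
        conv_lhs => rw [hη, inner_sub_left, real_inner_smul_left, ← hη, hxη]
        rw [hη, inner_sub_right, real_inner_smul_right, real_inner_self_eq_norm_sq,
          real_inner_comm x ξ]
        field_simp
        ring
      rw [this]; linarith
    have hηb : ‖η‖ = b := by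
      rw [← abs_of_nonneg (norm_nonneg η), ← abs_of_nonneg hb]
      exact (sq_eq_sq_iff_abs_eq_abs _ _).1 hηn
    have h10 : b ^ 2 = fderiv ℝ φ x η := by
      rw [← hin, ← hηn, ← real_inner_self_eq_norm_sq η]
      conv_lhs => rw [hη, inner_sub_left, real_inner_smul_left, ← hη, hxη]
      ring
    rw [hφ, (KEYW_formula ε β (β / 8) sb h₁ m e x η hx).1, hxη] at h10
    have h11 : b ^ 2 = -ε * (inner ℝ η m / ‖x‖ + 2 * β * (inner ℝ x e / ‖x‖) * inner ℝ η e / ‖x‖) := by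
      rw [h10]
      field_simp
      ring
    have h12 : |inner ℝ η m| ≤ b * M := by
      calc |inner ℝ η m| ≤ ‖η‖ * ‖m‖ := abs_real_inner_le_norm _ _
        _ ≤ b * M := by rw [hηb]; gcongr
    have h13 : |inner ℝ η e| ≤ b := by
      calc |inner ℝ η e| ≤ ‖η‖ * ‖e‖ := abs_real_inner_le_norm _ _
        _ = b := by rw [hηb, he, mul_one]
    have h14 : |inner ℝ x e / ‖x‖| ≤ 1 := by
      apply abs_le_of_sq_le_sq _ zero_le_one
      simpa using h2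
    have h15 : b ^ 2 ≤ ε * (b * M + 2 * β * b) / ‖x‖ := by
      rw [h11]
      have h16 : |inner ℝ η m / ‖x‖ + 2 * β * (inner ℝ x e / ‖x‖) * inner ℝ η e / ‖x‖| ≤
          (b * M + 2 * β * b) / ‖x‖ := by
        rw [← add_div, abs_div, abs_of_pos hr]
        gcongr
        calc _ ≤ |inner ℝ η m| + |2 * β * (inner ℝ x e / ‖x‖) * inner ℝ η e| := abs_add_le _ _
          _ ≤ b * M + 2 * β * b := by
              rw [abs_mul, abs_mul, abs_of_pos (show 0 < 2 * β by positivity)]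
              have : 2 * β * |inner ℝ x e / ‖x‖| * |inner ℝ η e| ≤ 2 * β * 1 * b := by gcongr
              linarith
      have h17 := neg_le_of_abs_le h16
      have h18 := mul_le_mul_of_nonneg_left h17 hε.le
      calc _ ≤ ε * ((b * M + 2 * β * b) / ‖x‖) := by nlinarith
        _ = _ := by ring
    rcases hb.eq_or_lt with hb0 | hb0
    · rw [← hb0]
      have : 0 ≤ M := (norm_nonneg m).trans hm
      positivity
    · have h19 : b * b ≤ b * (ε * (M + 2 * β) / ‖x‖) := by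
        calc b * b = b ^ 2 := by ring
          _ ≤ _ := h15
          _ = _ := by ring
      exact le_of_mul_le_mul_left h19 hb0
  have h6 := KEYW_alg2 (a := inner ℝ x ξ / ‖x‖) (f := inner ℝ x m / ‖x‖) hβ hβ4 hε hε1 hr hb h2
    h3 h4 ((norm_nonneg m).trans hm) hσ h5 hC hεC ha2 hb2
  rw [hφ, (KEYW_formula ε β (β / 8) sb h₁ m e x ξ hx).2]
  unfold gkw
  have h7 : ε * β / (64 * ‖x‖ ^ 4) = (ε * β / (64 * ‖x‖ ^ 2)) / ‖x‖ ^ 2 := by
    field_simp
  rw [h7]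
  refine le_trans (div_le_div_of_nonneg_right h6 (by positivity)) (le_of_eq ?_)
  have h8 : b ^ 2 = ‖ξ‖ ^ 2 - (inner ℝ x ξ / ‖x‖) ^ 2 := by linarith
  rw [h8]
  field_simp
  ring

end EAGrad

end

section

/-!
MP_ea6116_an, item KEYW, part 3: joint smoothness in the parameters and the cutoff.
-/

set_option autoImplicit false

open MeasureTheory Metric Set Filter Topology
open scoped ENNReal NNReal ContDiff

namespace EAGrad

variable {n : ℕ}

/-- Joint smoothness of the weight. -/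
theorem KEYW_joint (ε β q sb h₁ : ℝ) :
    ContDiffOn ℝ ∞ (fun z : En n × (En n × En n) => phw ε β q sb h₁ z.2.1 z.2.2 z.1)
      {z | z.1 ≠ 0} := by
  intro z hz
  have hz' : z.1 ≠ 0 := hz
  have h0 : ‖z.1‖ ≠ 0 := norm_ne_zero_iff.2 hz'
  have h1 : ContDiffAt ℝ ∞ (fun z : En n × (En n × En n) => ‖z.1‖) z :=
    contDiffAt_fst.norm ℝ hz'
  have h2 : ContDiffAt ℝ ∞ (fun z : En n × (En n × En n) => Real.log ‖z.1‖) z := h1.log h0
  have h3 : ContDiffAt ℝ ∞ (fun z : En n × (En n × En n) => inner ℝ z.1 z.2.1) z :=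
    contDiffAt_fst.inner ℝ contDiff_snd.fst.contDiffAt
  have h4 : ContDiffAt ℝ ∞ (fun z : En n × (En n × En n) => inner ℝ z.1 z.2.2) z :=
    contDiffAt_fst.inner ℝ contDiff_snd.snd.contDiffAt
  apply ContDiffAt.contDiffWithinAt
  unfold phw kw
  exact h2.neg.sub (contDiffAt_const.mul ((((h3.div h1 h0).add ((contDiffAt_const.mul (h4.pow 2)).div
    (h1.pow 2) (by positivity))).add (contDiffAt_const.mul ((h2.sub contDiffAt_const).pow 2))).sub
    contDiffAt_const))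

theorem KEYW_gjoint {P : Type*} [NormedAddCommGroup P] [NormedSpace ℝ P] (ε β q sb : ℝ) :
    ContDiffOn ℝ ∞ (fun z : En n × P => gkw ε β q sb z.1) {z | z.1 ≠ 0} := by
  intro z hz
  have hz' : z.1 ≠ 0 := hz
  have h0 : ‖z.1‖ ≠ 0 := norm_ne_zero_iff.2 hz'
  have h1 : ContDiffAt ℝ ∞ (fun z : En n × P => ‖z.1‖) z := contDiffAt_fst.norm ℝ hz'
  have h2 : ContDiffAt ℝ ∞ (fun z : En n × P => Real.log ‖z.1‖) z := h1.log h0
  apply ContDiffAt.contDiffWithinAt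
  unfold gkw
  exact (contDiffAt_const.add (contDiffAt_const.mul ((contDiffAt_const.mul
    (h2.sub contDiffAt_const)).sub contDiffAt_const))).div (h1.pow 2) (by positivity)

/-- The multiplier `B`, jointly in the point and the parameters. -/
noncomputable def Bkw (ε β q sb h₁ : ℝ) (z : En n × (En n × En n)) : ℝ :=
  ∑ i, pder (pder (fun z : En n × (En n × En n) => phw ε β q sb h₁ z.2.1 z.2.2 z.1)) z
    (ee i) (ee i) + 2 * gkw ε β q sb z.1

theorem KEYW_isOpen {P : Type*} [NormedAddCommGroup P] : IsOpen {z : En n × P | z.1 ≠ 0} :=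
  isOpen_ne_fun continuous_fst continuous_const

theorem KEYW_Bjoint (ε β q sb h₁ : ℝ) :
    ContDiffOn ℝ ∞ (Bkw (n := n) ε β q sb h₁) {z | z.1 ≠ 0} := by
  unfold Bkw
  apply ContDiffOn.add
  · apply ContDiffOn.sum
    intro i _
    exact ((KEYW_pder_contDiffOn KEYW_isOpen (KEYW_pder_contDiffOn KEYW_isOpen
      (KEYW_joint ε β q sb h₁))).clm_apply contDiffOn_const).clm_apply contDiffOn_const
  · exact contDiffOn_const.mul (KEYW_gjoint ε β q sb)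

theorem KEYW_B_eq (ε β q sb h₁ : ℝ) (m e : En n) {x : En n} (hx : x ≠ 0) :
    Bkw ε β q sb h₁ (x, (m, e)) = lap (phw ε β q sb h₁ m e) x + 2 * gkw ε β q sb x := by
  unfold Bkw lap D2
  have h := KEYW_fderiv2_eq (n := n) KEYW_isOpen (KEYW_joint ε β q sb h₁) (x := x) (p := (m, e)) hx
  simp only at h
  rw [← h]

/-- The cutoff, jointly in the point and the parameters. -/
noncomputable def chiw (a0 a1 a2 a3 ζ : ℝ) (z : En n × (Fin n → En n)) : ℝ :=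
  Real.smoothTransition ((‖z.1‖ ^ 2 - a0 ^ 2) / (a1 ^ 2 - a0 ^ 2)) *
  Real.smoothTransition ((a3 ^ 2 - ‖z.1‖ ^ 2) / (a3 ^ 2 - a2 ^ 2)) *
  ∏ j, Real.smoothTransition ((2 * ζ - inner ℝ z.1 (z.2 j) / ‖z.1‖) / ζ)

theorem KEYW_chi_joint (a0 a1 a2 a3 ζ : ℝ) :
    ContDiffOn ℝ ∞ (chiw (n := n) a0 a1 a2 a3 ζ) {z | z.1 ≠ 0} := by
  intro z hz
  have hz' : z.1 ≠ 0 := hz
  have h0 : ‖z.1‖ ≠ 0 := norm_ne_zero_iff.2 hz'
  have h1 : ContDiffAt ℝ ∞ (fun z : En n × (Fin n → En n) => ‖z.1‖) z :=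
    contDiffAt_fst.norm ℝ hz'
  have hs : ContDiff ℝ ∞ Real.smoothTransition := Real.smoothTransition.contDiff
  apply ContDiffAt.contDiffWithinAt
  unfold chiw
  refine ((hs.contDiffAt.comp z (((h1.pow 2).sub contDiffAt_const).div_const _)).mul
    (hs.contDiffAt.comp z ((contDiffAt_const.sub (h1.pow 2)).div_const _))).mul ?_
  apply contDiffAt_prod
  intro j _
  have h3 : ContDiffAt ℝ ∞ (fun z : En n × (Fin n → En n) => inner ℝ z.1 (z.2 j)) z :=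
    contDiffAt_fst.inner ℝ ((contDiff_apply ℝ (En n) j).comp contDiff_snd).contDiffAt
  exact hs.contDiffAt.comp z ((contDiffAt_const.sub (h3.div h1 h0)).div_const _)

theorem KEYW_chi_bd (a0 a1 a2 a3 ζ : ℝ) (z : En n × (Fin n → En n)) :
    0 ≤ chiw a0 a1 a2 a3 ζ z ∧ chiw a0 a1 a2 a3 ζ z ≤ 1 := by
  unfold chiw
  have h1 := Real.smoothTransition.nonneg ((‖z.1‖ ^ 2 - a0 ^ 2) / (a1 ^ 2 - a0 ^ 2))
  have h2 := Real.smoothTransition.le_one ((‖z.1‖ ^ 2 - a0 ^ 2) / (a1 ^ 2 - a0 ^ 2))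
  have h3 := Real.smoothTransition.nonneg ((a3 ^ 2 - ‖z.1‖ ^ 2) / (a3 ^ 2 - a2 ^ 2))
  have h4 := Real.smoothTransition.le_one ((a3 ^ 2 - ‖z.1‖ ^ 2) / (a3 ^ 2 - a2 ^ 2))
  have h5 : 0 ≤ ∏ j, Real.smoothTransition ((2 * ζ - inner ℝ z.1 (z.2 j) / ‖z.1‖) / ζ) :=
    Finset.prod_nonneg fun j _ => Real.smoothTransition.nonneg _
  have h6 : ∏ j, Real.smoothTransition ((2 * ζ - inner ℝ z.1 (z.2 j) / ‖z.1‖) / ζ) ≤ 1 :=
    Finset.prod_le_one (fun j _ => Real.smoothTransition.nonneg _)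
      fun j _ => Real.smoothTransition.le_one _
  refine ⟨by positivity, ?_⟩
  calc _ ≤ (1 : ℝ) * 1 * 1 := by gcongr
    _ = 1 := by norm_num

/-- Where the cutoff does not vanish. -/
theorem KEYW_chi_supp {a0 a1 a2 a3 ζ : ℝ} (h0 : 0 < a0) (h01 : a0 < a1) (h23 : a2 < a3)
    (h2 : 0 < a2) (hζ : 0 < ζ) {x : En n} {y : Fin n → En n}
    (h : chiw a0 a1 a2 a3 ζ (x, y) ≠ 0) :
    a0 < ‖x‖ ∧ ‖x‖ < a3 ∧ ∀ j, inner ℝ x (y j) ≤ 2 * ζ * ‖x‖ := by
  unfold chiw at h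
  simp only at h
  have ha := (mul_ne_zero_iff.1 h).1
  have hb := (mul_ne_zero_iff.1 h).2
  have hc := (mul_ne_zero_iff.1 ha).1
  have hd := (mul_ne_zero_iff.1 ha).2
  have h1 : a0 < ‖x‖ := by
    by_contra hcon
    apply hc
    apply Real.smoothTransition.zero_of_nonpos
    apply div_nonpos_of_nonpos_of_nonneg
    · have := norm_nonneg x
      nlinarith
    · nlinarith
  have h3 : ‖x‖ < a3 := by
    by_contra hcon
    apply hd
    apply Real.smoothTransition.zero_of_nonpos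
    apply div_nonpos_of_nonpos_of_nonneg
    · nlinarith
    · nlinarith
  refine ⟨h1, h3, fun j => ?_⟩
  have he := Finset.prod_ne_zero_iff.1 hb j (Finset.mem_univ j)
  by_contra hcon
  apply he
  apply Real.smoothTransition.zero_of_nonpos
  apply div_nonpos_of_nonpos_of_nonneg _ hζ.le
  have hx : 0 < ‖x‖ := h0.trans h1
  have : 2 * ζ ≤ inner ℝ x (y j) / ‖x‖ := by
    rw [le_div_iff₀ hx]
    linarith
  linarith

/-- Where the cutoff equals one. -/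
theorem KEYW_chi_one {a0 a1 a2 a3 ζ : ℝ} (h0 : 0 < a0) (h01 : a0 < a1) (h23 : a2 < a3)
    (h2 : 0 < a2) (hζ : 0 < ζ) {x : En n} {y : Fin n → En n}
    (hx1 : a1 ≤ ‖x‖) (hx2 : ‖x‖ ≤ a2) (h : ∀ j, inner ℝ x (y j) ≤ ζ * ‖x‖) :
    chiw a0 a1 a2 a3 ζ (x, y) = 1 := by
  unfold chiw
  have e1 : Real.smoothTransition ((‖x‖ ^ 2 - a0 ^ 2) / (a1 ^ 2 - a0 ^ 2)) = 1 := by
    apply Real.smoothTransition.one_of_one_le
    rw [one_le_div (by nlinarith)]
    nlinarith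
  have e2 : Real.smoothTransition ((a3 ^ 2 - ‖x‖ ^ 2) / (a3 ^ 2 - a2 ^ 2)) = 1 := by
    apply Real.smoothTransition.one_of_one_le
    rw [one_le_div (by nlinarith)]
    nlinarith [norm_nonneg x]
  have e3 : ∏ j, Real.smoothTransition ((2 * ζ - inner ℝ x (y j) / ‖x‖) / ζ) = 1 := by
    apply Finset.prod_eq_one
    intro j _
    apply Real.smoothTransition.one_of_one_le
    rw [one_le_div hζ]
    have hx : 0 < ‖x‖ := by linarith
    have : inner ℝ x (y j) / ‖x‖ ≤ ζ := by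
      rw [div_le_iff₀ hx]
      exact h j
    linarith
  simp only [e1, e2, e3]
  norm_num

theorem KEYW_chi_smooth {a0 a1 a2 a3 ζ : ℝ} (h0 : 0 < a0) (h01 : a0 < a1) (h23 : a2 < a3)
    (h2 : 0 < a2) (hζ : 0 < ζ) (y : Fin n → En n) :
    ContDiff ℝ ∞ (fun x => chiw a0 a1 a2 a3 ζ (x, y)) := by
  rw [contDiff_iff_contDiffAt]
  intro x
  by_cases hx : x = 0
  · subst hx
    have : (fun x => chiw a0 a1 a2 a3 ζ (x, y)) =ᶠ[𝓝 (0 : En n)] fun _ => (0 : ℝ) := by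
      filter_upwards [ball_mem_nhds (0 : En n) h0] with x hx
      by_contra hcon
      have := (KEYW_chi_supp h0 h01 h23 h2 hζ hcon).1
      rw [mem_ball_zero_iff] at hx
      linarith
    exact contDiffAt_const.congr_of_eventuallyEq this
  · have h1 : ContDiffAt ℝ ∞ (chiw (n := n) a0 a1 a2 a3 ζ) (x, y) :=
      ((KEYW_chi_joint a0 a1 a2 a3 ζ) (x, y) hx).contDiffAt (KEYW_isOpen.mem_nhds hx)
    exact h1.comp x (contDiffAt_id.prodMk contDiffAt_const)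

end EAGrad

end
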